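import Mathlib

/-! Open sets with a boundary of class `C²`. -/

set_option autoImplicit false

open Metric Set

namespace Pool.Agent.Lib.MP_ca0fc2_an

/-- `D` has a boundary of class `C²`: `D = {z ∈ W | ρ z < 0}` with a real `C²` function `ρ` on an open
neighbourhood `W` of the closure of `D`, and `dρ ≠ 0` at every boundary point. (`D` is open; it need
not be connected or pseudoconvex.) -/
def HasC2Boundary {n : ℕ} (D : Set (EuclideanSpace ℂ (Fin n))) : Prop :=
  ∃ (W : Set (EuclideanSpace ℂ (Fin n))) (ρ : EuclideanSpace ℂ (Fin n) → ℝ), IsOpen W ∧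
    closure D ⊆ W ∧ ContDiffOn ℝ 2 ρ W ∧ D = {z | z ∈ W ∧ ρ z < 0} ∧
    ∀ z ∈ frontier D, fderiv ℝ ρ z ≠ 0

end Pool.Agent.Lib.MP_ca0fc2_an
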