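import Pool.Agent.Lib.MP_ca0fc2_an.Mg.G079
import Pool.Agent.Lib.MP_ca0fc2_an.EQ.CDefs

/-! Campaign EQ, task C2: a bounded nonempty open set with a `C²` boundary has a boundary point `p` which is the limit of other boundary
points with the transplantation property. -/

set_option autoImplicit false

open Metric Set Filter Topology

namespace Pool.Agent.MPca0fc2.EQ

open Pool.Agent.MPca0fc2.TB (En PK Trans)
open Pool.Agent.Lib.MP_ca0fc2_an

variable {n : ℕ}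

private theorem C2_open {D : Set (En n)} (hD2 : HasC2Boundary D) : IsOpen D := by
  obtain ⟨W, ρ, hW, -, hρ, hDe, -⟩ := hD2
  have h := hρ.continuousOn.isOpen_inter_preimage hW (isOpen_Iio (a := (0 : ℝ)))
  rw [hDe]
  exact h

private theorem C2_loc {D : Set (En n)} {W : Set (En n)} {ρ : En n → ℝ} (hW : IsOpen W) (hcl : closure D ⊆ W)
    (hρ : ContDiffOn ℝ 2 ρ W) (hDe : D = {z | z ∈ W ∧ ρ z < 0}) (hfr : ∀ z ∈ frontier D, fderiv ℝ ρ z ≠ 0)
    {P a : En n} {R : ℝ} (hR : 0 < R) (hPa : ‖P - a‖ = R) (hPc : P ∈ closure D)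
    (hD : ∀ z ∈ D, ‖z - a‖ ≤ R) :
    P ∈ frontier D ∧ ∃ r > 0, ContDiffOn ℝ 2 ρ (ball P r) ∧ ρ P = 0 ∧
      (∀ z ∈ ball P r, (z ∈ D ↔ ρ z < 0)) ∧ fderiv ℝ ρ P ≠ 0 := by
  have hDo : IsOpen D := by
    have h := hρ.continuousOn.isOpen_inter_preimage hW (isOpen_Iio (a := (0 : ℝ)))
    rw [hDe]
    exact h
  have hPD : P ∉ D := by
    intro hP
    obtain ⟨δ, hδ, hb⟩ := Metric.isOpen_iff.1 hDo P hP
    have ht : 0 < δ / (2 * R) := by positivity
    have hz : P + (δ / (2 * R)) • (P - a) ∈ D := by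
      apply hb
      rw [mem_ball, dist_eq_norm, add_sub_cancel_left, norm_smul, hPa, Real.norm_of_nonneg ht.le]
      have : δ / (2 * R) * R = δ / 2 := by field_simp
      rw [this]
      linarith
    have h1 := hD _ hz
    have h2 : P + (δ / (2 * R)) • (P - a) - a = (1 + δ / (2 * R)) • (P - a) := by
      rw [add_smul, one_smul]
      abel
    rw [h2, norm_smul, hPa, Real.norm_of_nonneg (by positivity)] at h1
    have h3 : 0 < δ / (2 * R) * R := by positivity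
    linarith
  have hfP : P ∈ frontier D := by
    rw [frontier, hDo.interior_eq]
    exact ⟨hPc, hPD⟩
  have hPW : P ∈ W := hcl hPc
  refine ⟨hfP, ?_⟩
  obtain ⟨r, hr, hb⟩ := Metric.isOpen_iff.1 hW P hPW
  have hca : ContinuousAt ρ P := hρ.continuousOn.continuousAt (hW.mem_nhds hPW)
  have h0 : ρ P ≤ 0 := by
    refine ContinuousWithinAt.closure_le hPc hca.continuousWithinAt
      (continuousWithinAt_const (b := (0 : ℝ))) ?_
    intro y hy
    rw [hDe] at hy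
    exact hy.2.le
  have h1 : 0 ≤ ρ P := by
    by_contra h
    push Not at h
    apply hPD
    rw [hDe]
    exact ⟨hPW, h⟩
  refine ⟨r, hr, hρ.mono hb, le_antisymm h0 h1, ?_, hfr P hfP⟩
  intro z hz
  constructor
  · intro h
    rw [hDe] at h
    exact h.2
  · intro h
    rw [hDe]
    exact ⟨hb hz, h⟩

/-- Farthest points have the transplantation property.
PROOF. `HasC2Boundary`: `W`, `ρ`. `D` is open (`ρ` is continuous on the open set `W`). `P ∈ closure D` is not in `D` (`D ⊆ closedBall a R` is open and `‖P - a‖ = R > 0`: `P + t (P - a) ∈ D` for small `t > 0` would be too far), so `P ∈ frontier D`; `P ∈ W`, `ρ P ≥ 0` as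
`P ∉ D`, and `ρ P ≤ 0` by continuity. `far_pk`, then `TB.tp_of_pk`, `TB.sg_of_tp`, `TB.trans_of_sg`. -/
theorem far_trans {D : Set (En n)} (hDb : Bornology.IsBounded D) (hD2 : HasC2Boundary D) {P a : En n} {R : ℝ} (hR : 0 < R) (hPa : ‖P - a‖ = R) (hPc : P ∈ closure D)
    (hD : ∀ z ∈ D, ‖z - a‖ ≤ R) : P ∈ frontier D ∧ ∃ e, Trans D P e := by
  obtain ⟨W, ρ, hW, hcl, hρ, hDe, hfr⟩ := hD2
  obtain ⟨hfP, r, hr, hρ', hρ0, hloc, hL⟩ := C2_loc hW hcl hρ hDe hfr hR hPa hPc hD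
  have hDo : IsOpen D := C2_open ⟨W, ρ, hW, hcl, hρ, hDe, hfr⟩
  refine ⟨hfP, ?_⟩
  obtain ⟨w, ρ', V, r', c, hpk⟩ := far_pk hDo hDb hR hPa hPc hD hr hρ' hρ0 hloc hL
  obtain ⟨B, htp⟩ := TB.tp_of_pk hpk
  obtain ⟨W', S, e, κ, C, hsg⟩ := TB.sg_of_tp htp
  exact ⟨e, TB.trans_of_sg hsg⟩

/-- A boundary point is farthest from at most one center, up to the normal direction.
PROOF. `far_tan` for both centers (`ρ` from `HasC2Boundary`; `P ∈ frontier D`, `ρ P = 0` as above): `κ Re ⟨P - a, v⟩ = κ' Re ⟨P - a', v⟩` for all `v`, `κ, κ' > 0`. -/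
theorem far_normal {D : Set (En n)} (hD2 : HasC2Boundary D) {P a a' : En n} {R R' : ℝ} (hR : 0 < R) (hR' : 0 < R') (hPa : ‖P - a‖ = R) (hPa' : ‖P - a'‖ = R') (hPc : P ∈ closure D)
    (hD : ∀ z ∈ D, ‖z - a‖ ≤ R) (hD' : ∀ z ∈ D, ‖z - a'‖ ≤ R') : ∃ t : ℝ, 0 < t ∧ ∀ v, (inner ℂ (P - a') v : ℂ).re = t * (inner ℂ (P - a) v : ℂ).re := by
  obtain ⟨W, ρ, hW, hcl, hρ, hDe, hfr⟩ := hD2
  obtain ⟨-, r, hr, hρ', hρ0, hloc, hL⟩ := C2_loc hW hcl hρ hDe hfr hR hPa hPc hD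
  obtain ⟨κ, hκ, h1, -⟩ := far_tan hR hPa hD hr hρ' hρ0 (fun z hz h => (hloc z hz).2 h) hL
  obtain ⟨κ', hκ', h2, -⟩ := far_tan hR' hPa' hD' hr hρ' hρ0 (fun z hz h => (hloc z hz).2 h) hL
  refine ⟨κ / κ', div_pos hκ hκ', fun v => ?_⟩
  have h3 : κ * (inner ℂ (P - a) v : ℂ).re = κ' * (inner ℂ (P - a') v : ℂ).re := by
    rw [← h1 v, ← h2 v]
  rw [div_mul_eq_mul_div, h3, mul_div_cancel_left₀ _ hκ'.ne']

/-- The special boundary point.
PROOF. `p` = a point of the compact set `closure D` with maximal norm `R₀`; `R₀ > 0` (`D` is open, nonempty, `n ≥ 1`). For `z ∈ closure D`: `‖z + p‖² = 2 ‖z‖² + 2 ‖p‖² - ‖z - p‖² ≤ 4 R₀² - ‖z - p‖²`. Let `u = Complex.I • p`: `Re ⟨p, u⟩ = 0`, `‖u‖ = R₀`.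
Given `ε > 0` let `0 < t` be small, `a = -p + t • u`, `q` = a point of `closure D` with maximal distance `R` from `a` (`R ≥ ‖p - a‖ = ‖2 p - t u‖ > 0`). `‖q - p‖ < ε`: otherwise `‖q + p‖² ≤ 4 R₀² - ε²`, `‖q - a‖ ≤ ‖q + p‖ + t R₀ ≤ √(4 R₀² - ε²) + t R₀ < 2 R₀ ≤ ‖p - a‖` for small `t`
(`‖2 p - t u‖² = 4 R₀² + t² R₀²`). `q ≠ p`: otherwise `far_normal` with the centers `-p` (radius `2 R₀`: `‖z + p‖ ≤ 2 R₀` on `D`) and `a`, at `v = u`: `Re ⟨2 p - t u, u⟩ = -t R₀² = t' Re ⟨2 p, u⟩ = 0`, a contradiction. `far_trans` for `q`; `p ∈ frontier D` by `far_trans` for `p` and the center `-p`. -/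
theorem far_seq (hn : 1 ≤ n) {D : Set (En n)} (hDb : Bornology.IsBounded D) (hD2 : HasC2Boundary D) (hne : D.Nonempty) :
    IsOpen D ∧ ∃ p ∈ frontier D, ∀ ε > 0, ∃ q ∈ frontier D, q ≠ p ∧ ‖q - p‖ < ε ∧ ∃ e, Trans D q e := by
  have hDo : IsOpen D := C2_open hD2
  refine ⟨hDo, ?_⟩
  have hK : IsCompact (closure D) := hDb.isCompact_closure
  obtain ⟨p, hp, hmax⟩ := hK.exists_isMaxOn hne.closure continuous_norm.continuousOn
  have hmax' : ∀ z ∈ closure D, ‖z‖ ≤ ‖p‖ := fun z hz => hmax hz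
  have hR0 : 0 < ‖p‖ := by
    obtain ⟨z0, hz0⟩ := hne
    obtain ⟨δ, hδ, hb⟩ := Metric.isOpen_iff.1 hDo z0 hz0
    set e : En n := EuclideanSpace.single (⟨0, hn⟩ : Fin n) (1 : ℂ) with he
    have he1 : ‖e‖ = 1 := by
      rw [he]
      simp
    have hz1 : z0 + (δ / 2) • e ∈ D := by
      apply hb
      rw [mem_ball, dist_eq_norm, add_sub_cancel_left, norm_smul, he1,
        Real.norm_of_nonneg (by positivity)]
      linarith
    have h1 := hmax' _ (subset_closure hz0)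
    have h2 := hmax' _ (subset_closure hz1)
    have h3 : ‖(z0 + (δ / 2) • e) - z0‖ ≤ ‖z0 + (δ / 2) • e‖ + ‖z0‖ := norm_sub_le _ _
    rw [add_sub_cancel_left, norm_smul, he1, Real.norm_of_nonneg (by positivity)] at h3
    linarith
  set R₀ : ℝ := ‖p‖ with hR₀
  set u : En n := Complex.I • p with hu
  have hun : ‖u‖ = R₀ := by
    rw [hu, norm_smul, Complex.norm_I, one_mul]
  have hpu : (inner ℂ p u : ℂ).re = 0 := by
    rw [hu, inner_smul_right, inner_self_eq_norm_sq_to_K]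
    simp [pow_two, Complex.mul_re]
  have huu : (inner ℂ u u : ℂ).re = R₀ ^ 2 := by
    rw [inner_self_eq_norm_sq_to_K, hun]
    simp [pow_two, Complex.mul_re]
  have hpp : ‖p - -p‖ = 2 * R₀ := by
    rw [sub_neg_eq_add, ← two_smul ℝ p, norm_smul, Real.norm_of_nonneg (by norm_num : (0 : ℝ) ≤ 2)]
  have hDp : ∀ z ∈ D, ‖z - -p‖ ≤ 2 * R₀ := by
    intro z hz
    rw [sub_neg_eq_add]
    have h1 := norm_add_le z p
    have h2 := hmax' z (subset_closure hz)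
    linarith
  have h2R : 0 < 2 * R₀ := by positivity
  refine ⟨p, (far_trans hDb hD2 h2R hpp hp hDp).1, fun ε hε => ?_⟩
  obtain ⟨t, ht, ht2, ht3⟩ : ∃ t : ℝ, 0 < t ∧ t < 2 ∧ 4 * t * R₀ ^ 2 < ε ^ 2 := by
    refine ⟨min 1 (ε ^ 2 / (8 * R₀ ^ 2)), by positivity, ?_, ?_⟩
    · exact lt_of_le_of_lt (min_le_left _ _) (by norm_num)
    · have h1 : min 1 (ε ^ 2 / (8 * R₀ ^ 2)) ≤ ε ^ 2 / (8 * R₀ ^ 2) := min_le_right _ _
      have h2 : 4 * (ε ^ 2 / (8 * R₀ ^ 2)) * R₀ ^ 2 = ε ^ 2 / 2 := by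
        field_simp
        norm_num
      have h3 : 4 * min 1 (ε ^ 2 / (8 * R₀ ^ 2)) * R₀ ^ 2 ≤ 4 * (ε ^ 2 / (8 * R₀ ^ 2)) * R₀ ^ 2 := by
        gcongr
      have h4 : 0 < ε ^ 2 := by positivity
      linarith
  set a : En n := -p + t • u with ha
  obtain ⟨q, hq, hqm⟩ := hK.exists_isMaxOn hne.closure
    (f := fun z => ‖z - a‖) (by fun_prop)
  have hqm' : ∀ z ∈ closure D, ‖z - a‖ ≤ ‖q - a‖ := fun z hz => hqm hz
  have hpa : p - a = (2 : ℝ) • p - t • u := by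
    rw [ha, two_smul]
    abel
  have hpa2 : ‖p - a‖ ^ 2 = 4 * R₀ ^ 2 + t ^ 2 * R₀ ^ 2 := by
    rw [hpa, @norm_sub_sq ℂ, norm_smul, norm_smul, hun]
    have h1 : (inner ℂ ((2 : ℝ) • p) (t • u) : ℂ) = ((2 * t : ℝ) : ℂ) * inner ℂ p u := by
      rw [show ((2 : ℝ) • p) = ((2 : ℝ) : ℂ) • p from (Complex.coe_smul _ _).symm,
        show (t • u) = ((t : ℝ) : ℂ) • u from (Complex.coe_smul _ _).symm,
        inner_smul_left, inner_smul_right, Complex.conj_ofReal]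
      push_cast
      ring
    have h2 : RCLike.re (inner ℂ ((2 : ℝ) • p) (t • u) : ℂ) = 0 := by
      rw [h1]
      show (((2 * t : ℝ) : ℂ) * inner ℂ p u).re = 0
      rw [Complex.re_ofReal_mul, hpu, mul_zero]
    rw [h2, Real.norm_of_nonneg ht.le, Real.norm_of_nonneg (by norm_num : (0 : ℝ) ≤ 2)]
    ring
  have hpa3 : 2 * R₀ ≤ ‖p - a‖ := by
    apply le_of_sq_le_sq _ (norm_nonneg _)
    rw [hpa2]
    have : 0 ≤ t ^ 2 * R₀ ^ 2 := by positivity
    nlinarith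
  have hqR : 2 * R₀ ≤ ‖q - a‖ := hpa3.trans (hqm' p hp)
  have hRq : 0 < ‖q - a‖ := lt_of_lt_of_le h2R hqR
  have hft := far_trans hDb hD2 hRq rfl hq (fun z hz => hqm' z (subset_closure hz))
  refine ⟨q, hft.1, ?_, ?_, hft.2⟩
  · intro hqp
    subst hqp
    obtain ⟨t', ht', h⟩ := far_normal hD2 h2R hRq hpp rfl hp hDp
      (fun z hz => hqm' z (subset_closure hz))
    have h1 := h u
    have h3 : (inner ℂ (q - a) u : ℂ).re = -(t * R₀ ^ 2) := by
      rw [hpa, inner_sub_left,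
        show ((2 : ℝ) • q) = ((2 : ℝ) : ℂ) • q from (Complex.coe_smul _ _).symm,
        show (t • u) = ((t : ℝ) : ℂ) • u from (Complex.coe_smul _ _).symm,
        inner_smul_left, inner_smul_left, Complex.conj_ofReal, Complex.conj_ofReal, Complex.sub_re,
        Complex.re_ofReal_mul, Complex.re_ofReal_mul, hpu, huu]
      ring
    have h4 : (inner ℂ (q - -q) u : ℂ).re = 0 := by
      rw [sub_neg_eq_add, inner_add_left, Complex.add_re, hpu, add_zero]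
    rw [h3, h4, mul_zero] at h1
    have : 0 < t * R₀ ^ 2 := by positivity
    linarith
  · by_contra hge
    push Not at hge
    have h1 : ‖q + p‖ ^ 2 ≤ 4 * R₀ ^ 2 - ε ^ 2 := by
      have h2 := parallelogram_law_with_norm ℂ q p
      have h3 := hmax' q hq
      have h4 : ε * ε ≤ ‖q - p‖ * ‖q - p‖ := by
        apply mul_self_le_mul_self hε.le hge
      have h5 : ‖q‖ * ‖q‖ ≤ R₀ * R₀ := mul_self_le_mul_self (norm_nonneg _) h3
      have h6 : ‖p‖ = R₀ := rfl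
      rw [h6] at h2
      nlinarith
    have h2 : ‖q - a‖ ≤ ‖q + p‖ + t * R₀ := by
      have h3 : q - a = (q + p) - t • u := by
        rw [ha]
        abel
      rw [h3]
      refine (norm_sub_le _ _).trans ?_
      rw [norm_smul, Real.norm_of_nonneg ht.le, hun]
    have h3 : (2 - t) * R₀ ≤ ‖q + p‖ := by nlinarith
    have h4 : 0 ≤ (2 - t) * R₀ := mul_nonneg (by linarith) hR0.le
    have h5 : ((2 - t) * R₀) ^ 2 ≤ ‖q + p‖ ^ 2 := by gcongr
    have h6 : 0 ≤ t ^ 2 * R₀ ^ 2 := by positivity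
    nlinarith

end Pool.Agent.MPca0fc2.EQ
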