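import Pool.Agent.Lib.MP_ca0fc2_an.TB.G4

/-! Campaign EQ, task C3: from one boundary point of one domain to uniform bounds on the ball, general version. -/

set_option autoImplicit false

open Metric Set Filter Topology

namespace Pool.Agent.MPca0fc2.EQ

open Pool.Agent.MPca0fc2.TB (En Trans Solv step_loc glue solv_sub solv_mono)

variable {n N : ℕ}

/-- The sequence of boundary points.
PROOF. As `TB.exists_seq` (TB/G1.lean), with the property `∃ e, Trans D q e` added. -/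
theorem exists_seq_gen {D : Set (En n)} {p : En n} (hacc : ∀ ε > 0, ∃ q ∈ frontier D, q ≠ p ∧ ‖q - p‖ < ε ∧ ∃ e, Trans D q e) :
    ∃ (P : ℕ → En n) (s : ℕ → ℝ), (∀ k, P k ∈ frontier D ∧ ∃ e, Trans D (P k) e) ∧ (∀ k, 0 < s k) ∧
      Tendsto P atTop (𝓝 p) ∧ Tendsto s atTop (𝓝 0) ∧ (∀ k, s k < ‖P k - p‖) ∧
      ∀ j k, j ≠ k → Disjoint (ball (P j) (s j)) (ball (P k) (s k)) := by
  have hstep : ∀ q : {q : En n // q ∈ frontier D ∧ q ≠ p ∧ ∃ e, Trans D q e}, ∃ q' : {q : En n // q ∈ frontier D ∧ q ≠ p ∧ ∃ e, Trans D q e},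
      ‖q'.1 - p‖ < ‖q.1 - p‖ / 4 := by
    intro q
    have h0 : 0 < ‖q.1 - p‖ := norm_pos_iff.2 (sub_ne_zero.2 q.2.2.1)
    obtain ⟨q', h1, h2, h3, h4⟩ := hacc (‖q.1 - p‖ / 4) (by positivity)
    exact ⟨⟨q', h1, h2, h4⟩, h3⟩
  choose g hg using hstep
  obtain ⟨q0, h1, h2, -, h2'⟩ := hacc 1 one_pos
  let Q : ℕ → {q : En n // q ∈ frontier D ∧ q ≠ p ∧ ∃ e, Trans D q e} := fun k => Nat.rec ⟨q0, h1, h2, h2'⟩ (fun _ q => g q) k
  have hQ : ∀ k, ‖(Q (k + 1)).1 - p‖ < ‖(Q k).1 - p‖ / 4 := fun k => hg (Q k)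
  have hpos : ∀ k, 0 < ‖(Q k).1 - p‖ := fun k => norm_pos_iff.2 (sub_ne_zero.2 (Q k).2.2.1)
  have hanti : ∀ j k, j < k → ‖(Q k).1 - p‖ < ‖(Q j).1 - p‖ / 4 := by
    intro j k hjk
    induction k, hjk using Nat.le_induction with
    | base => exact hQ j
    | succ k hk ih =>
      have := hQ k
      have := hpos k
      linarith
  have hgeo : ∀ k, ‖(Q k).1 - p‖ ≤ ‖(Q 0).1 - p‖ * (1 / 4) ^ k := by
    intro k
    induction k with
    | zero => simp
    | succ k ih =>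
      have := hQ k
      rw [pow_succ]
      linarith
  have hlim : Tendsto (fun k => ‖(Q k).1 - p‖) atTop (𝓝 0) := by
    have h3 : Tendsto (fun k : ℕ => ‖(Q 0).1 - p‖ * (1 / 4 : ℝ) ^ k) atTop (𝓝 (‖(Q 0).1 - p‖ * 0)) :=
      (tendsto_pow_atTop_nhds_zero_of_lt_one (by norm_num) (by norm_num)).const_mul _
    rw [mul_zero] at h3
    exact squeeze_zero (fun k => norm_nonneg _) hgeo h3
  refine ⟨fun k => (Q k).1, fun k => ‖(Q k).1 - p‖ / 4, fun k => ⟨(Q k).2.1, (Q k).2.2.2⟩, fun k => ?_, ?_, ?_,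
    fun k => ?_, ?_⟩
  · have := hpos k
    positivity
  · exact tendsto_iff_norm_sub_tendsto_zero.2 hlim
  · simpa using hlim.div_const 4
  · have := hpos k
    linarith
  · have key : ∀ j k, j < k →
        Disjoint (ball (Q j).1 (‖(Q j).1 - p‖ / 4)) (ball (Q k).1 (‖(Q k).1 - p‖ / 4)) := by
      intro j k hjk
      apply ball_disjoint_ball
      have h3 := hanti j k hjk
      have h4 := hpos j
      have h5 : ‖(Q j).1 - p‖ ≤ dist (Q j).1 (Q k).1 + ‖(Q k).1 - p‖ := by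
        rw [dist_eq_norm]
        have := norm_add_le ((Q j).1 - (Q k).1) ((Q k).1 - p)
        rwa [sub_add_sub_cancel] at this
      linarith
    intro j k hjk
    rcases lt_or_gt_of_ne hjk with h | h
    · exact key j k h
    · exact (key k j h).symm

/-- PROOF. Copy the proof of `TB.uniform_ball_loc` (TB/G4.lean): replace `exists_seq hn hs hp` by `exists_seq_gen hacc` and `trans_of_support` by the property of the sequence. -/
theorem uniform_ball_gen {D : Set (En n)} (hDo : IsOpen D) {p : En n} (hp : p ∈ frontier D)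
    (hacc : ∀ ε > 0, ∃ q ∈ frontier D, q ≠ p ∧ ‖q - p‖ < ε ∧ ∃ e, Trans D q e) {δ' δ : ℝ} (hδ' : 0 < δ') (hδδ : δ' < δ)
    (hQ : ∀ F : En n → En N, DifferentiableOn ℂ F D → ContinuousOn F (closure D \ {p}) →
      (∀ z ∈ D, δ' ≤ ‖F z‖ ∧ ‖F z‖ ≤ 1) → ∃ r > 0, ∃ A, Solv F (D ∩ ball p r) A) :
    ∃ A, ∀ f : En n → En N, DifferentiableOn ℂ f (ball 0 1) →
      (∀ z ∈ ball (0 : En n) 1, δ ≤ ‖f z‖ ∧ ‖f z‖ ≤ 1) → Solv f (ball 0 1) A := by
  by_contra hcon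
  push Not at hcon
  have hδ : 0 < δ := hδ'.trans hδδ
  set κ : ℝ := (δ - δ') / (1 + δ') with hκ
  have hκ0 : 0 < κ := div_pos (by linarith) (by linarith)
  have hκ1 : κ * (1 + δ') = δ - δ' := by
    rw [hκ]
    field_simp
  choose f hf hfb hfn using fun k : ℕ => hcon (k : ℝ)
  obtain ⟨P, s, hPf, hs0, hPt, hst, hsP, hdis⟩ := exists_seq_gen hacc
  have htr : ∀ k, ∃ e, Trans D (P k) e := fun k => (hPf k).2
  choose e he using htr
  set η : ℕ → ℝ := fun k => κ / 8 * (1 / 2) ^ k with hη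
  have hηpos : ∀ k, 0 < η k := fun k => by
    rw [hη]
    positivity
  have hηanti : ∀ {i j : ℕ}, i ≤ j → η j ≤ η i := by
    intro i j hij
    rw [hη]
    apply mul_le_mul_of_nonneg_left _ (by positivity)
    exact pow_le_pow_of_le_one (by norm_num) (by norm_num) hij
  have hstep := fun k => step_loc (he k) (hf k) (hfb k) (hfn k) (hηpos k) (hs0 k)
  choose g cc hgd hgc hgb hca hcb hoff hlast using hstep
  obtain ⟨c₀, -, φ, hφ, hφc⟩ := (isCompact_closedBall (0 : En N) 1).tendsto_subseq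
    (x := cc) (fun k => by rw [mem_closedBall_zero_iff]; exact hcb k)
  have hev : ∀ m : ℕ, ∀ᶠ k in atTop, ‖cc (φ k) - c₀‖ ≤ η m := by
    intro m
    have h1 := (Metric.tendsto_nhds.mp hφc) (η m) (hηpos m)
    filter_upwards [h1] with k hk
    rw [dist_eq_norm] at hk
    exact hk.le
  obtain ⟨φ', hφ', hφc'⟩ := extraction_forall_of_eventually hev
  set χ : ℕ → ℕ := φ ∘ φ' with hχ
  have hχm : StrictMono χ := hφ.comp hφ'
  have hχk : ∀ k, k ≤ χ k := fun k => hχm.le_apply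
  have hsum : HasSum η (κ / 4) := by
    have h1 := (hasSum_geometric_two).mul_left (κ / 8)
    have h2 : κ / 8 * 2 = κ / 4 := by ring
    rw [h2] at h1
    exact h1
  obtain ⟨F, hFd, hFc, hFg, hFt⟩ := glue hDo hp (P := P ∘ χ) (s := s ∘ χ) (fun k => hs0 _)
    (hPt.comp hχm.tendsto_atTop) (hst.comp hχm.tendsto_atTop) (fun k => hsP _)
    (fun j k hjk => hdis _ _ (fun h => hjk (hχm.injective h)))
    (g := g ∘ χ) (c := cc ∘ χ) (c₀ := c₀) (η := η) (η₀ := κ / 4)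
    (fun k => hgd _) (fun k => hgc _) (fun k => (hηpos k).le) hsum.summable hsum.tsum_eq.le
    (fun k z hz hzb => (hoff (χ k) z hz hzb).trans (hηanti (hχk k)))
    (fun k => hφc' k)
  have hc0 : ‖cc (χ 0) - c₀‖ ≤ κ / 8 := by
    have h1 : ‖cc (χ 0) - c₀‖ ≤ κ / 8 * (1 / 2) ^ 0 := hφc' 0
    rw [pow_zero, mul_one] at h1
    exact h1
  have hc0l : δ - κ / 8 ≤ ‖c₀‖ := by
    have h1 : ‖cc (χ 0)‖ ≤ ‖cc (χ 0) - c₀‖ + ‖c₀‖ := by
      calc ‖cc (χ 0)‖ = ‖(cc (χ 0) - c₀) + c₀‖ := by simp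
        _ ≤ _ := norm_add_le _ _
    have h2 := hca (χ 0)
    linarith
  have hc0u : ‖c₀‖ ≤ 1 + κ / 8 := by
    have h1 : ‖c₀‖ ≤ ‖cc (χ 0) - c₀‖ + ‖cc (χ 0)‖ := by
      calc ‖c₀‖ = ‖cc (χ 0) - (cc (χ 0) - c₀)‖ := by simp
        _ ≤ ‖cc (χ 0)‖ + ‖cc (χ 0) - c₀‖ := norm_sub_le _ _
        _ = _ := by ring
    have h2 := hcb (χ 0)
    linarith
  have hFl : ∀ z ∈ D, δ - κ ≤ ‖F z‖ ∧ ‖F z‖ ≤ 1 + κ := by
    intro z hz
    rcases hFg z hz with ⟨k, hk⟩ | hk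
    · have h1 := hgb (χ k) z hz
      have h2 : ‖g (χ k) z‖ ≤ ‖F z - g (χ k) z‖ + ‖F z‖ := by
        calc ‖g (χ k) z‖ = ‖F z - (F z - g (χ k) z)‖ := by simp
          _ ≤ ‖F z‖ + ‖F z - g (χ k) z‖ := norm_sub_le _ _
          _ = _ := by ring
      have h3 : ‖F z‖ ≤ ‖F z - g (χ k) z‖ + ‖g (χ k) z‖ := by
        calc ‖F z‖ = ‖(F z - g (χ k) z) + g (χ k) z‖ := by simp
          _ ≤ _ := norm_add_le _ _
      have h4 : ‖F z - g (χ k) z‖ ≤ 2 * (κ / 4) := hk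
      constructor <;> linarith [h1.1, h1.2]
    · have h2 : ‖c₀‖ ≤ ‖F z - c₀‖ + ‖F z‖ := by
        calc ‖c₀‖ = ‖F z - (F z - c₀)‖ := by simp
          _ ≤ ‖F z‖ + ‖F z - c₀‖ := norm_sub_le _ _
          _ = _ := by ring
      have h3 : ‖F z‖ ≤ ‖F z - c₀‖ + ‖c₀‖ := by
        calc ‖F z‖ = ‖(F z - c₀) + c₀‖ := by simp
          _ ≤ _ := norm_add_le _ _
      constructor <;> linarith
  have hκi : (0 : ℝ) < 1 / (1 + κ) := by positivity
  have hnF : ∀ z, ‖((1 / (1 + κ) : ℝ) : ℂ) • F z‖ = 1 / (1 + κ) * ‖F z‖ := by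
    intro z
    rw [norm_smul, Complex.norm_real, Real.norm_of_nonneg hκi.le]
  obtain ⟨r, hr, A, G, hG1, hG2, hG3⟩ := hQ (fun z => ((1 / (1 + κ) : ℝ) : ℂ) • F z)
    (hFd.fun_const_smul _) (ContinuousOn.fun_smul continuousOn_const hFc) (fun z hz => by
      obtain ⟨h1, h2⟩ := hFl z hz
      rw [hnF z]
      constructor
      · rw [one_div, inv_mul_eq_div, le_div_iff₀ (by linarith)]
        nlinarith
      · rw [one_div, inv_mul_eq_div, div_le_one (by linarith)]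
        exact h2)
  set M : ℝ := max A 0 with hM
  have hM0 : 0 ≤ M := le_max_right _ _
  have hSM : Solv F (D ∩ ball p r) M := by
    refine ⟨fun z => ((1 / (1 + κ) : ℝ) : ℂ) • G z, hG1.fun_const_smul _, fun z hz => ?_, fun z hz => ?_⟩
    · rw [norm_smul, Complex.norm_real, Real.norm_of_nonneg hκi.le]
      have h1 := hG2 z hz
      have h2 : 1 / (1 + κ) ≤ 1 := by
        rw [div_le_one (by linarith)]
        linarith
      calc 1 / (1 + κ) * ‖G z‖ ≤ 1 * ‖G z‖ := mul_le_mul_of_nonneg_right h2 (norm_nonneg _)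
        _ = ‖G z‖ := one_mul _
        _ ≤ A := h1
        _ ≤ M := le_max_left _ _
    · have h1 := hG3 z hz
      rw [← h1]
      refine Finset.sum_congr rfl fun j _ => ?_
      simp only [PiLp.smul_apply, smul_eq_mul]
      ring
  obtain ⟨K, hK⟩ := hFt (1 / (2 * (M + 1))) (by positivity)
  have hPr : ∀ᶠ k in atTop, ball ((P ∘ χ) k) ((s ∘ χ) k) ⊆ ball p r := by
    have h1 : ∀ᶠ k in atTop, dist ((P ∘ χ) k) p < r / 2 :=
      (Metric.tendsto_nhds.mp (hPt.comp hχm.tendsto_atTop)) (r / 2) (by positivity)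
    have h2 : ∀ᶠ k in atTop, (s ∘ χ) k < r / 2 :=
      (hst.comp hχm.tendsto_atTop).eventually_lt_const (by positivity)
    filter_upwards [h1, h2] with k h3 h4
    exact ball_subset_ball' (by linarith)
  obtain ⟨K', hK'⟩ := eventually_atTop.mp hPr
  obtain ⟨k, hk1, hk2, hk3⟩ : ∃ k : ℕ, K ≤ k ∧ 2 * M ≤ (k : ℝ) ∧ K' ≤ k :=
    ⟨max (max K ⌈2 * M⌉₊) K', (le_max_left _ _).trans (le_max_left _ _),
      (Nat.le_ceil _).trans (by exact_mod_cast (le_max_right K ⌈2 * M⌉₊).trans (le_max_left _ _)),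
      le_max_right _ _⟩
  refine hlast (χ k) F M (1 / (2 * (M + 1))) hM0 ?_ ?_ (fun z hz hzb => hK k hk1 z hz hzb)
    (solv_sub hSM fun z hz => ⟨hz.1, hK' k hk3 hz.2⟩)
  · exact hk2.trans (by exact_mod_cast hχk k)
  · rw [div_mul_eq_mul_div, div_le_div_iff₀ (by positivity) (by norm_num)]
    linarith

end Pool.Agent.MPca0fc2.EQ
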