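import Pool.Agent.Lib.MP_ca0fc2_an.Mg.G081

/-! Campaign EQ, growth theorem, task GR3: the bad function. -/

set_option autoImplicit false

open Metric Set Filter Topology

namespace Pool.Agent.MPca0fc2.EQ

open Pool.Agent.MPca0fc2.TB (En Trans Solv)

variable {n N : ℕ}

/-- The invariant of the construction. -/
private def GR3_Inv (D : Set (En n)) (p : En n) (κ : ℝ) (c₀ : En N) (F : En n → En N) (ρ θ : ℝ) :
    Prop :=
  DifferentiableOn ℂ F D ∧ ContinuousOn F (closure D) ∧ 0 < ρ ∧ 0 < θ ∧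
    ∀ z ∈ closure D, ‖z - p‖ < ρ → ‖F z - c₀‖ ≤ κ / 8 - 2 * θ

/-- The relation between two consecutive states. -/
private def GR3_Rel (D : Set (En n)) (p : En n) (φ : ℝ → ℝ) (δ κ : ℝ) (c₀ : En N) (k : ℕ)
    (F : En n → En N) (ρ θ : ℝ) (P : En n) (s : ℝ) (g F' : En n → En N) (ρ' θ' : ℝ) : Prop :=
  ρ' ≤ ρ / 2 ∧ θ' ≤ θ / 2 ∧ θ' ≤ 1 / (160 * (k + 1) * Psi φ p P) ∧
    (0 < s ∧ s ≤ ‖P - p‖ / 2 ∧ ‖P - p‖ < ρ ∧ P ≠ p) ∧
    (∀ z ∈ closure D, (ρ ≤ ‖z - p‖ ∨ ‖z - p‖ < ρ') → ‖F' z - F z‖ ≤ θ) ∧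
    (∀ z ∈ ball P s, ρ' ≤ ‖z - p‖ ∧ ‖z - p‖ < ρ) ∧
    (∀ z ∈ closure D, ‖z - p‖ < ρ → z ∉ ball P s → ‖F' z - c₀‖ ≤ κ / 2) ∧
    (∀ z ∈ closure D, z ∈ ball P s → ‖F' z - g z‖ ≤ κ / 4 ∧
      ‖F' z - g z‖ ≤ 1 / (40 * (k + 1) * Psi φ p P)) ∧
    (∀ z ∈ closure D, δ ≤ ‖g z‖ ∧ ‖g z‖ ≤ 1) ∧ Bad D g P s ((k + 1) * Psi φ p P)

private theorem GR3_Psi_pos (φ : ℝ → ℝ) (p P : En n) : 0 < Psi φ p P := by
  unfold Psi
  have := abs_nonneg (φ (‖P - p‖ / 2))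
  linarith

private theorem GR3_next {D : Set (En n)} {p : En n}
    (hacc : ∀ ε > 0, ∃ q ∈ frontier D, q ≠ p ∧ ‖q - p‖ < ε ∧ (∃ e, Trans D q e) ∧ PeakAt D q)
    (φ : ℝ → ℝ) {δ κ : ℝ} {c₀ : En N} (hκ : 0 < κ) (hκ1 : κ ≤ 1) (hc₀ : ‖c₀‖ ≤ 1)
    (hfam : Fam1 D δ c₀) (k : ℕ) (F : En n → En N) (ρ θ : ℝ) (hI : GR3_Inv D p κ c₀ F ρ θ) :
    ∃ (P : En n) (s : ℝ) (g F' : En n → En N) (ρ' θ' : ℝ), GR3_Inv D p κ c₀ F' ρ' θ' ∧
      GR3_Rel D p φ δ κ c₀ k F ρ θ P s g F' ρ' θ' := by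
  obtain ⟨h1, h2, h3, h4, h5⟩ := hI
  obtain ⟨P, s, ρ', g, F', a1, a2, a3, a4, a5, a6, a7, a8, a9, a10, a11, a12, a13, a14⟩ :=
    gr_step hacc φ hκ hκ1 hc₀ hfam h1 h2 h3 h4
      (fun z hz hz1 => (h5 z hz hz1).trans (by linarith)) k
  have hk : (0 : ℝ) < 1 / (160 * (k + 1) * Psi φ p P) := by
    have := GR3_Psi_pos φ p P
    positivity
  refine ⟨P, s, g, F', ρ', min (θ / 2) (1 / (160 * (k + 1) * Psi φ p P)),
    ⟨a7, a8, a2, lt_min (by linarith) hk, fun z hz hz1 => ?_⟩,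
    a3, min_le_left _ _, min_le_right _ _, ⟨a1, a4, a5, a6⟩, a9, a10, a11, a12, a13, a14⟩
  have h6 : ‖z - p‖ < ρ := by linarith
  have h7 := h5 z hz h6
  have h8 := a9 z hz (Or.inr hz1)
  have h9 := min_le_left (θ / 2) (1 / (160 * (k + 1) * Psi φ p P))
  have h10 : F' z - c₀ = (F' z - F z) + (F z - c₀) := by abel
  rw [h10]
  refine (norm_add_le _ _).trans ?_
  linarith

/-- The sequence of the steps.
PROOF. Dependent choice: states `(F, ρ, θ)` with the invariant: `F` holomorphic on `D`, continuous on `closure D`, `0 < ρ`, `0 < θ`, and `‖F z - c₀‖ ≤ κ / 8 - 2 θ` for `z ∈ closure D`, `‖z - p‖ < ρ`. Start: `F = c₀`, `ρ = 1`, `θ = κ / 16`. From a state use `gr_step` with `θ` (`κ / 8 - 2 θ ≤ κ / 8`), and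
`θ' = min (θ / 2) (1 / (160 (k + 1) Ψ))`: for `‖z - p‖ < ρ'`: `‖F' z - c₀‖ ≤ κ/8 - 2 θ + θ ≤ κ / 8 - 2 θ'`. -/
theorem gr_seq {D : Set (En n)} {p : En n} (hacc : ∀ ε > 0, ∃ q ∈ frontier D, q ≠ p ∧ ‖q - p‖ < ε ∧ (∃ e, Trans D q e) ∧ PeakAt D q)
    (φ : ℝ → ℝ) {δ κ : ℝ} {c₀ : En N} (hκ : 0 < κ) (hκ1 : κ ≤ 1) (hc₀ : ‖c₀‖ ≤ 1) (hfam : Fam1 D δ c₀) :
    ∃ (F : ℕ → En n → En N) (ρ θ : ℕ → ℝ) (P : ℕ → En n) (s : ℕ → ℝ) (g : ℕ → En n → En N), F 0 = (fun _ => c₀) ∧ θ 0 = κ / 16 ∧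
      (∀ k, DifferentiableOn ℂ (F k) D ∧ ContinuousOn (F k) (closure D)) ∧ (∀ k, 0 < ρ k ∧ ρ (k + 1) ≤ ρ k / 2) ∧ (∀ k, 0 < θ k ∧ θ (k + 1) ≤ θ k / 2) ∧
      (∀ k, θ (k + 1) ≤ 1 / (160 * (k + 1) * Psi φ p (P k))) ∧
      (∀ k, 0 < s k ∧ s k ≤ ‖P k - p‖ / 2 ∧ ‖P k - p‖ < ρ k ∧ P k ≠ p) ∧
      (∀ k, ∀ z ∈ closure D, (ρ k ≤ ‖z - p‖ ∨ ‖z - p‖ < ρ (k + 1)) → ‖F (k + 1) z - F k z‖ ≤ θ k) ∧
      (∀ k, ∀ z ∈ ball (P k) (s k), ρ (k + 1) ≤ ‖z - p‖ ∧ ‖z - p‖ < ρ k) ∧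
      (∀ k, ∀ z ∈ closure D, ‖z - p‖ < ρ k → z ∉ ball (P k) (s k) → ‖F (k + 1) z - c₀‖ ≤ κ / 2) ∧
      (∀ k, ∀ z ∈ closure D, z ∈ ball (P k) (s k) → ‖F (k + 1) z - g k z‖ ≤ κ / 4 ∧ ‖F (k + 1) z - g k z‖ ≤ 1 / (40 * (k + 1) * Psi φ p (P k))) ∧
      (∀ k, ∀ z ∈ closure D, δ ≤ ‖g k z‖ ∧ ‖g k z‖ ≤ 1) ∧ ∀ k, Bad D (g k) (P k) (s k) ((k + 1) * Psi φ p (P k)) := by
  classical
  -- states
  let St := {x : (En n → En N) × ℝ × ℝ // GR3_Inv D p κ c₀ x.1 x.2.1 x.2.2}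
  have hstep : ∀ (k : ℕ) (x : St), ∃ (y : St) (P : En n) (s : ℝ) (g : En n → En N),
      GR3_Rel D p φ δ κ c₀ k x.1.1 x.1.2.1 x.1.2.2 P s g y.1.1 y.1.2.1 y.1.2.2 := by
    intro k x
    obtain ⟨P, s, g, F', ρ', θ', h1, h2⟩ :=
      GR3_next hacc φ hκ hκ1 hc₀ hfam k x.1.1 x.1.2.1 x.1.2.2 x.2
    exact ⟨⟨(F', ρ', θ'), h1⟩, P, s, g, h2⟩
  choose nx nP ns ng hrel using hstep
  have h0 : GR3_Inv D p κ c₀ (fun _ => c₀) 1 (κ / 16) := by
    refine ⟨differentiableOn_const _, continuousOn_const, one_pos, by linarith, fun z _ _ => ?_⟩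
    rw [sub_self, norm_zero]
    linarith
  let x0 : St := ⟨(fun _ => c₀, 1, κ / 16), h0⟩
  let sq : ℕ → St := fun k => Nat.rec x0 (fun k x => nx k x) k
  have hsq : ∀ k, sq (k + 1) = nx k (sq k) := fun k => rfl
  have hr : ∀ k, GR3_Rel D p φ δ κ c₀ k (sq k).1.1 (sq k).1.2.1 (sq k).1.2.2 (nP k (sq k))
      (ns k (sq k)) (ng k (sq k)) (sq (k + 1)).1.1 (sq (k + 1)).1.2.1 (sq (k + 1)).1.2.2 := by
    intro k
    rw [hsq]
    exact hrel k (sq k)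
  refine ⟨fun k => (sq k).1.1, fun k => (sq k).1.2.1, fun k => (sq k).1.2.2, fun k => nP k (sq k),
    fun k => ns k (sq k), fun k => ng k (sq k), rfl, rfl, fun k => ⟨(sq k).2.1, (sq k).2.2.1⟩,
    fun k => ⟨(sq k).2.2.2.1, (hr k).1⟩, fun k => ⟨(sq k).2.2.2.2.1, (hr k).2.1⟩,
    fun k => (hr k).2.2.1, fun k => (hr k).2.2.2.1, fun k => (hr k).2.2.2.2.1,
    fun k => (hr k).2.2.2.2.2.1, fun k => (hr k).2.2.2.2.2.2.1, fun k => (hr k).2.2.2.2.2.2.2.1,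
    fun k => (hr k).2.2.2.2.2.2.2.2.1, fun k => (hr k).2.2.2.2.2.2.2.2.2⟩

/-- A normally convergent series of holomorphic functions of several variables is holomorphic
(copy of a private lemma of TB/G2). -/
private theorem GR3_tsum {U : Set (En n)} (hU : IsOpen U) {h : ℕ → En n → En N} {u : ℕ → ℝ}
    (hu : Summable u) (hh : ∀ k, DifferentiableOn ℂ (h k) U) (hb : ∀ k, ∀ z ∈ U, ‖h k z‖ ≤ u k)
    (hu0 : ∀ k, 0 ≤ u k) : DifferentiableOn ℂ (fun z => ∑' k, h k z) U := by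
  rw [differentiableOn_euclidean]
  intro i
  set 𝒰 : Ultrafilter ℕ := Ultrafilter.of atTop with h𝒰
  have hle : (𝒰 : Filter ℕ) ≤ atTop := Ultrafilter.of_le _
  have hG : ∀ m, DifferentiableOn ℂ (fun z => ∑ k ∈ Finset.range m, (h k z) i) U := fun m =>
    DifferentiableOn.fun_sum fun k _ => (differentiableOn_euclidean.1 (hh k)) i
  have hM : ∀ m, ∀ z ∈ U, ‖∑ k ∈ Finset.range m, (h k z) i‖ ≤ ∑' k, u k := by
    intro m z hz
    refine (norm_sum_le _ _).trans ?_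
    refine (Finset.sum_le_sum fun k _ => (PiLp.norm_apply_le (h k z) i).trans (hb k z hz)).trans ?_
    exact hu.sum_le_tsum _ fun k _ => hu0 k
  obtain ⟨g, hg1, -, hg3⟩ := SL.ultra_holo 𝒰 hU (tsum_nonneg hu0) hG hM
  refine hg1.congr fun z hz => ?_
  have hs : Summable fun k => h k z := Summable.of_norm_bounded hu fun k => hb k z hz
  have h1 : Tendsto (fun m => ∑ k ∈ Finset.range m, h k z) atTop (𝓝 (∑' k, h k z)) :=
    hs.hasSum.tendsto_sum_nat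
  have h2 : Tendsto (fun m => ∑ k ∈ Finset.range m, (h k z) i) atTop (𝓝 ((∑' k, h k z) i)) := by
    have h3 := ((EuclideanSpace.proj (𝕜 := ℂ) i : StrongDual ℂ (En N)).continuous.tendsto
      (∑' k, h k z)).comp h1
    refine h3.congr fun m => ?_
    simp only [Function.comp]
    rw [map_sum]
    rfl
  exact tendsto_nhds_unique (h2.mono_left hle) (hg3 z hz)

private theorem GR3_geom {θ : ℕ → ℝ} (h : ∀ k, 0 < θ k ∧ θ (k + 1) ≤ θ k / 2) (K k : ℕ) :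
    θ (k + K) ≤ θ K * (1 / 2) ^ k := by
  induction k with
  | zero => simp
  | succ k ih =>
    have h1 := (h (k + K)).2
    have h2 : k + 1 + K = k + K + 1 := by omega
    rw [h2, pow_succ]
    linarith

private theorem GR3_sum {θ : ℕ → ℝ} (h : ∀ k, 0 < θ k ∧ θ (k + 1) ≤ θ k / 2) (K : ℕ) :
    Summable (fun k => θ (k + K)) ∧ ∑' k, θ (k + K) ≤ 2 * θ K := by
  have hg : HasSum (fun k : ℕ => θ K * (1 / 2 : ℝ) ^ k) (θ K * 2) := hasSum_geometric_two.mul_left _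
  have h1 : Summable (fun k => θ (k + K)) :=
    Summable.of_nonneg_of_le (fun k => (h (k + K)).1.le) (fun k => GR3_geom h K k) hg.summable
  refine ⟨h1, ?_⟩
  refine (Summable.tsum_le_tsum (fun k => GR3_geom h K k) h1 hg.summable).trans ?_
  rw [hg.tsum_eq, mul_comm]

/-- The bad function.
PROOF. `gr_seq`. `ρ k ≤ ρ 0 / 2^k → 0`, `∑_{j ≥ k} θ j ≤ 2 θ k`. For `z ∈ closure D` with `‖z - p‖ ≥ ρ k`: `‖F (j+1) z - F j z‖ ≤ θ j` for all `j ≥ k` (`ρ j ≤ ρ k ≤ ‖z - p‖`), so `F j z` is a Cauchy sequence, uniformly on `closure D \ ball p r` for each `r > 0`; the limit `G` is continuous on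
`closure D \ {p}` and holomorphic on `D` (`p ∉ D`: locally uniform limits, `TendstoLocallyUniformlyOn.differentiableOn` for functions of several variables may be missing: see how `glue` in TB/G2.lean proves it), and `‖G z - F k z‖ ≤ 2 θ k` if `ρ k ≤ ‖z - p‖`.
Bounds on `D`: `z ≠ p`. If `‖z - p‖ ≥ ρ 0`: `‖G z - c₀‖ ≤ 2 θ 0 = κ / 8`. Otherwise let `k` be the index with `ρ (k+1) ≤ ‖z - p‖ < ρ k`: `‖G z - F (k+1) z‖ ≤ 2 θ (k+1) ≤ κ/8`, and `‖F (k+1) z - c₀‖ ≤ κ/2` or `‖F (k+1) z - g k z‖ ≤ κ/4`. In all cases `δ - κ ≤ ‖G z‖ ≤ 1 + κ`.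
On `ball (P k) (s k)`: `‖G z - g k z‖ ≤ 2 θ (k+1) + 1 / (40 (k+1) Ψ) ≤ 1 / (20 (k + 1) Ψ)`. -/
theorem gr_fun {D : Set (En n)} (hDo : IsOpen D) {p : En n} (hp : p ∈ frontier D)
    (hacc : ∀ ε > 0, ∃ q ∈ frontier D, q ≠ p ∧ ‖q - p‖ < ε ∧ (∃ e, Trans D q e) ∧ PeakAt D q)
    (φ : ℝ → ℝ) {δ κ : ℝ} {c₀ : En N} (hκ : 0 < κ) (hκ1 : κ ≤ 1) (hc₀ : ‖c₀‖ ≤ 1) (hc₀' : δ ≤ ‖c₀‖) (hfam : Fam1 D δ c₀) :
    ∃ (G : En n → En N) (P : ℕ → En n) (s : ℕ → ℝ) (g : ℕ → En n → En N), DifferentiableOn ℂ G D ∧ ContinuousOn G (closure D \ {p}) ∧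
      (∀ z ∈ D, δ - κ ≤ ‖G z‖ ∧ ‖G z‖ ≤ 1 + κ) ∧ Tendsto P atTop (𝓝 p) ∧ (∀ k, 0 < s k ∧ s k ≤ ‖P k - p‖ / 2 ∧ P k ≠ p) ∧
      (∀ k, ∀ z ∈ D, z ∈ ball (P k) (s k) → ‖G z - g k z‖ ≤ 1 / (20 * (k + 1) * Psi φ p (P k))) ∧
      ∀ k, Bad D (g k) (P k) (s k) ((k + 1) * Psi φ p (P k)) := by
  classical
  obtain ⟨F, ρ, θ, P, s, g, hF0, hθ0, hFh, hρ, hθ, hθΨ, hsP, hT, hbρ, hoff, hon, hg, hbad⟩ :=
    gr_seq hacc φ hκ hκ1 hc₀ hfam
  have hpD : p ∉ D := by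
    rw [hDo.frontier_eq] at hp
    exact hp.2
  -- `ρ → 0`
  have hρ0 : Tendsto ρ atTop (𝓝 0) := by
    have h1 := (GR3_sum hρ 0).1.tendsto_atTop_zero
    simpa using h1
  have hρanti : Antitone ρ := antitone_nat_of_succ_le fun k => by
    have h1 := hρ k
    linarith [h1.1, h1.2]
  have hθle : ∀ k, θ (k + 1) ≤ κ / 32 := by
    intro k
    have h1 := GR3_geom hθ 0 (k + 1)
    rw [add_zero, hθ0] at h1
    have h2 : ((1 : ℝ) / 2) ^ (k + 1) ≤ 1 / 2 := by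
      rw [pow_succ]
      have h3 : ((1 : ℝ) / 2) ^ k ≤ 1 := pow_le_one₀ (by norm_num) (by norm_num)
      linarith
    have h4 : κ / 16 * (1 / 2) ^ (k + 1) ≤ κ / 16 * (1 / 2) :=
      mul_le_mul_of_nonneg_left h2 (by linarith)
    linarith
  set T : ℕ → En n → En N := fun k z => F (k + 1) z - F k z with hTdef
  have hTb : ∀ K k, ∀ z ∈ closure D, ρ K ≤ ‖z - p‖ → ‖T (k + K) z‖ ≤ θ (k + K) := by
    intro K k z hz hz1
    exact hT (k + K) z hz (Or.inl ((hρanti (by omega : K ≤ k + K)).trans hz1))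
  have hTd : ∀ k, DifferentiableOn ℂ (T k) D := fun k => (hFh (k + 1)).1.sub (hFh k).1
  have hTc : ∀ k, ContinuousOn (T k) (closure D) := fun k => (hFh (k + 1)).2.sub (hFh k).2
  set G : En n → En N := fun z => F 0 z + ∑' k, T k z with hGdef
  have hex : ∀ t : ℝ, 0 < t → ∃ K, ρ K < t := by
    intro t ht
    obtain ⟨K, hK⟩ := eventually_atTop.1 (hρ0.eventually (gt_mem_nhds ht))
    exact ⟨K, hK K le_rfl⟩
  have hsum : ∀ K, ∀ z ∈ closure D, ρ K ≤ ‖z - p‖ → Summable fun k => T k z := by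
    intro K z hz hz1
    have h1 : Summable fun k => T (k + K) z :=
      Summable.of_norm_bounded (GR3_sum hθ K).1 fun k => hTb K k z hz hz1
    exact (summable_nat_add_iff K).1 h1
  have hG : ∀ K, ∀ z ∈ closure D, ρ K ≤ ‖z - p‖ → G z = F K z + ∑' k, T (k + K) z := by
    intro K z hz hz1
    have h1 := (hsum K z hz hz1).sum_add_tsum_nat_add K
    have h2 : ∑ k ∈ Finset.range K, T k z = F K z - F 0 z := by
      rw [hTdef]
      exact Finset.sum_range_sub (fun k => F k z) K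
    rw [hGdef]
    change F 0 z + ∑' k, T k z = _
    rw [← h1, h2]
    abel
  have hGF : ∀ K, ∀ z ∈ closure D, ρ K ≤ ‖z - p‖ → ‖G z - F K z‖ ≤ 2 * θ K := by
    intro K z hz hz1
    rw [hG K z hz hz1, add_sub_cancel_left]
    exact (tsum_of_norm_bounded (GR3_sum hθ K).1.hasSum fun k => hTb K k z hz hz1).trans
      (GR3_sum hθ K).2
  refine ⟨G, P, s, g, ?_, ?_, ?_, ?_, fun k => ⟨(hsP k).1, (hsP k).2.1, (hsP k).2.2.2⟩, ?_, hbad⟩
  · -- holomorphic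
    intro z₀ hz₀
    have hne : z₀ ≠ p := fun e => hpD (e ▸ hz₀)
    have hpos : 0 < ‖z₀ - p‖ := norm_pos_iff.2 (sub_ne_zero.2 hne)
    obtain ⟨K, hK⟩ := hex _ hpos
    have hUo : IsOpen {z : En n | ρ K < ‖z - p‖} := isOpen_lt continuous_const (by fun_prop)
    set U : Set (En n) := D ∩ {z | ρ K < ‖z - p‖} with hUdef
    have hU : IsOpen U := hDo.inter hUo
    have hzU : z₀ ∈ U := ⟨hz₀, hK⟩
    have h1 : DifferentiableOn ℂ (fun z => ∑' k, T (k + K) z) U :=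
      GR3_tsum hU (GR3_sum hθ K).1 (fun k => (hTd _).mono inter_subset_left)
        (fun k z hz => hTb K k z (subset_closure hz.1) (le_of_lt hz.2)) fun k => (hθ _).1.le
    have h3 : DifferentiableOn ℂ G U := by
      refine (((hFh K).1.mono inter_subset_left).add h1).congr fun z hz => ?_
      exact hG K z (subset_closure hz.1) (le_of_lt hz.2)
    exact ((h3.differentiableAt (hU.mem_nhds hzU))).differentiableWithinAt
  · -- continuous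
    intro z₀ hz₀
    have hne : z₀ ≠ p := fun e => hz₀.2 (by simp [e])
    have hpos : 0 < ‖z₀ - p‖ := norm_pos_iff.2 (sub_ne_zero.2 hne)
    obtain ⟨K, hK⟩ := hex _ hpos
    have hUo : IsOpen {z : En n | ρ K < ‖z - p‖} := isOpen_lt continuous_const (by fun_prop)
    have hzt : z₀ ∈ {z : En n | ρ K < ‖z - p‖} := hK
    set A : Set (En n) := closure D ∩ {z | ρ K < ‖z - p‖} with hAdef
    have h1 : ContinuousOn (fun z => ∑' k, T (k + K) z) A :=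
      continuousOn_tsum (fun k => (hTc _).mono inter_subset_left)
        (GR3_sum hθ K).1 (fun k z hz => hTb K k z hz.1 (le_of_lt hz.2))
    have h3 : ContinuousOn G A := by
      refine (((hFh K).2.mono inter_subset_left).add h1).congr fun z hz => ?_
      exact hG K z hz.1 (le_of_lt hz.2)
    refine (h3 z₀ ⟨hz₀.1, hzt⟩).mono_of_mem_nhdsWithin ?_
    rw [hAdef]
    refine inter_mem ?_ (mem_nhdsWithin_of_mem_nhds (hUo.mem_nhds hzt))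
    exact mem_nhdsWithin.2 ⟨univ, isOpen_univ, mem_univ _, fun z hz => hz.2.1⟩
  · -- bounds
    intro z hz
    have hzc : z ∈ closure D := subset_closure hz
    have hne : z ≠ p := fun e => hpD (e ▸ hz)
    have hpos : 0 < ‖z - p‖ := norm_pos_iff.2 (sub_ne_zero.2 hne)
    have hcomp : ∀ (a : En N) (t : ℝ), ‖G z - a‖ ≤ t → ‖a‖ - t ≤ ‖G z‖ ∧ ‖G z‖ ≤ ‖a‖ + t := by
      intro a t h
      have h1 := norm_sub_norm_le (G z) a
      have h2 := norm_sub_norm_le a (G z)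
      rw [norm_sub_rev] at h2
      exact ⟨by linarith, by linarith⟩
    obtain ⟨K, hK⟩ : ∃ K, ρ K ≤ ‖z - p‖ := by
      obtain ⟨K, hK⟩ := hex _ hpos
      exact ⟨K, hK.le⟩
    have hfind := Nat.find_spec (⟨K, hK⟩ : ∃ K, ρ K ≤ ‖z - p‖)
    have hmin := fun m => Nat.find_min (⟨K, hK⟩ : ∃ K, ρ K ≤ ‖z - p‖) (m := m)
    set k0 := Nat.find (⟨K, hK⟩ : ∃ K, ρ K ≤ ‖z - p‖) with hk0
    rcases Nat.eq_zero_or_pos k0 with h0 | h0
    · rw [h0] at hfind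
      have h1 := hGF 0 z hzc hfind
      rw [hθ0, hF0] at h1
      obtain ⟨h2, h3⟩ := hcomp c₀ _ h1
      exact ⟨by linarith, by linarith⟩
    · obtain ⟨k, hk⟩ : ∃ k, k0 = k + 1 := ⟨k0 - 1, by omega⟩
      rw [hk] at hfind
      have hlt : ‖z - p‖ < ρ k := not_le.1 (hmin k (by omega))
      have h1 := hGF (k + 1) z hzc hfind
      have h2 := hθle k
      by_cases hzb : z ∈ ball (P k) (s k)
      · have h3 := (hon k z hzc hzb).1
        have h4 := hg k z hzc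
        have h5 : ‖G z - g k z‖ ≤ κ := by
          have h6 : G z - g k z = (G z - F (k + 1) z) + (F (k + 1) z - g k z) := by abel
          rw [h6]
          refine (norm_add_le _ _).trans ?_
          linarith
        obtain ⟨h7, h8⟩ := hcomp _ _ h5
        exact ⟨by linarith [h4.1], by linarith [h4.2]⟩
      · have h3 := hoff k z hzc hlt hzb
        have h5 : ‖G z - c₀‖ ≤ κ := by
          have h6 : G z - c₀ = (G z - F (k + 1) z) + (F (k + 1) z - c₀) := by abel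
          rw [h6]
          refine (norm_add_le _ _).trans ?_
          linarith
        obtain ⟨h7, h8⟩ := hcomp _ _ h5
        exact ⟨by linarith, by linarith⟩
  · rw [tendsto_iff_norm_sub_tendsto_zero]
    exact squeeze_zero (fun k => norm_nonneg _) (fun k => (hsP k).2.2.1.le) hρ0
  · intro k z hz hzb
    have hzc : z ∈ closure D := subset_closure hz
    have h1 := hGF (k + 1) z hzc (hbρ k z hzb).1
    have h2 := (hon k z hzc hzb).2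
    have h3 := hθΨ k
    have hΨ := GR3_Psi_pos φ p (P k)
    have hkp : (0 : ℝ) < (k : ℝ) + 1 := by positivity
    have e1 : (1 : ℝ) / (160 * (k + 1) * Psi φ p (P k)) =
        1 / 160 * (1 / ((k + 1) * Psi φ p (P k))) := by
      field_simp
    have e2 : (1 : ℝ) / (40 * (k + 1) * Psi φ p (P k)) =
        1 / 40 * (1 / ((k + 1) * Psi φ p (P k))) := by
      field_simp
    have e3 : (1 : ℝ) / (20 * (k + 1) * Psi φ p (P k)) =
        1 / 20 * (1 / ((k + 1) * Psi φ p (P k))) := by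
      field_simp
    have e4 : (0 : ℝ) < 1 / ((k + 1) * Psi φ p (P k)) := by positivity
    rw [e1] at h3
    rw [e2] at h2
    rw [e3]
    have h6 : G z - g k z = (G z - F (k + 1) z) + (F (k + 1) z - g k z) := by abel
    rw [h6]
    refine (norm_add_le _ _).trans ?_
    linarith

end Pool.Agent.MPca0fc2.EQ
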