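import Pool.Agent.Lib.MP_ca0fc2_an.Mg.G081
import Pool.Agent.Lib.MP_ca0fc2_an.EQ.GR3
import Pool.Agent.Lib.MP_ca0fc2_an.LV.S5

/-! Campaign EQ, growth theorem, task GR4: if the solutions near one boundary point have a growth which is controlled by any fixed
function of the distance from this point, then the corona theorem holds on the ball with uniform bounds. -/

set_option autoImplicit false

open Metric Set Filter Topology

namespace Pool.Agent.MPca0fc2.EQ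

open Pool.Agent.MPca0fc2.TB (En Trans Solv)
open Pool.Agent.Lib.MP_ca0fc2_an (SupportData IsStrictlyPscDomain)

variable {n N : ℕ}

/-- PROOF. By contradiction: `bad_family` (`hcon`: negate the conclusion), `c₀`. `κ = min 1 ((δ - δ') / (1 + δ'))`, so that `(δ - κ) / (1 + κ) ≥ δ'` (as in `TB.uniform_ball_loc`). `gr_fun`: `G`. `hQ` for `F = G / (1 + κ)` (`‖F‖ ∈ [δ', 1]`): `r`, `C`, `h`. WLOG `C ≥ 0` (replace `C` by `|C|` and `φ` by `|φ|` in the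
bound: `‖h z‖ ≤ C φ ≤ |C| |φ|`). For large `k`: `ball (P k) (s k) ⊆ ball p r` (`P k → p`, `s k ≤ ‖P k - p‖ / 2`). For `z` in `D ∩ ball (P k) (s k)`: `‖z - p‖ ≥ ‖P k - p‖ / 2`, so `φ ‖z - p‖ ≤ φ (‖P k - p‖ / 2) ≤ Ψ` (antitone) and `‖h z‖ ≤ |C| Ψ`: careful: `h z` is bounded by `C * φ ‖z - p‖`; if `C < 0` or
`φ < 0` the bound is still `≤ |C| Ψ` unless `φ ‖z-p‖ < 0` and `C < 0`: then use `0 ≤ C φ ≤ |C| |φ ‖z - p‖|`, which is not controlled by antitonicity; so the hypothesis is stated with `0 ≤ C` and `0 ≤ φ`. The function `(1 / (1 + κ)) • h` solves for `G` on `D ∩ ball (P k) (s k)` with the bound `M = |C| Ψ`. `Bad`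
with `A = (k + 1) Ψ`, `τ = 1 / (20 (k + 1) Ψ)`: `2 M ≤ A` if `2 C ≤ k + 1`; `τ M = C / (20 (k+1)) ≤ 1/2`: a contradiction for large `k`. -/
theorem uniform_ball_growth (hn : 1 ≤ n) {D : Set (En n)} (hDo : IsOpen D) {p : En n} (hp : p ∈ frontier D)
    (hacc : ∀ ε > 0, ∃ q ∈ frontier D, q ≠ p ∧ ‖q - p‖ < ε ∧ (∃ e, Trans D q e) ∧ PeakAt D q)
    {φ : ℝ → ℝ} (hφ : AntitoneOn φ (Ioi 0)) (hφ0 : ∀ t, 0 ≤ φ t) {δ' δ : ℝ} (hδ' : 0 < δ') (hδδ : δ' < δ)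
    (hQ : ∀ F : En n → En N, DifferentiableOn ℂ F D → ContinuousOn F (closure D \ {p}) → (∀ z ∈ D, δ' ≤ ‖F z‖ ∧ ‖F z‖ ≤ 1) →
      ∃ r > 0, ∃ C : ℝ, 0 ≤ C ∧ ∃ h : En n → En N, DifferentiableOn ℂ h (D ∩ ball p r) ∧
        ∀ z ∈ D ∩ ball p r, ∑ j, F z j * h z j = 1 ∧ ‖h z‖ ≤ C * φ ‖z - p‖) :
    ∃ A, ∀ f : En n → En N, DifferentiableOn ℂ f (ball 0 1) → (∀ z ∈ ball (0 : En n) 1, δ ≤ ‖f z‖ ∧ ‖f z‖ ≤ 1) → Solv f (ball 0 1) A := by
  by_contra hcon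
  push Not at hcon
  have hδ : 0 < δ := hδ'.trans hδδ
  obtain ⟨c₀, hc1, hc2, hfam⟩ := bad_family (n := n) (N := N) hn (δ := δ) hcon
  obtain ⟨κ, hκ⟩ : ∃ κ, κ = min 1 ((δ - δ') / (1 + δ')) := ⟨_, rfl⟩
  have hκ0 : 0 < κ := by
    rw [hκ]
    exact lt_min one_pos (div_pos (by linarith) (by linarith))
  have hκ1 : κ ≤ 1 := by rw [hκ]; exact min_le_left _ _
  have hκ2 : κ * (1 + δ') ≤ δ - δ' := by
    have h1 : κ ≤ (δ - δ') / (1 + δ') := by rw [hκ]; exact min_le_right _ _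
    rwa [le_div_iff₀ (by linarith)] at h1
  obtain ⟨G, P, s, g, hGd, hGc, hGb, hPt, hs, hGg, hbad⟩ :=
    gr_fun hDo hp hacc φ hκ0 hκ1 hc2 hc1 (hfam D)
  have hκi : (0 : ℝ) < 1 / (1 + κ) := by positivity
  have hκi1 : 1 / (1 + κ) ≤ 1 := by
    rw [div_le_one (by linarith)]
    linarith
  have hnG : ∀ v : En N, ‖((1 / (1 + κ) : ℝ) : ℂ) • v‖ = 1 / (1 + κ) * ‖v‖ := by
    intro v
    rw [norm_smul, Complex.norm_real, Real.norm_of_nonneg hκi.le]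
  obtain ⟨r, hr, C, hC, h, hh1, hh2⟩ := hQ (fun z => ((1 / (1 + κ) : ℝ) : ℂ) • G z)
    (hGd.fun_const_smul _) (ContinuousOn.fun_smul continuousOn_const hGc) (fun z hz => by
      obtain ⟨h1, h2⟩ := hGb z hz
      rw [hnG]
      constructor
      · rw [one_div, inv_mul_eq_div, le_div_iff₀ (by linarith)]
        nlinarith
      · rw [one_div, inv_mul_eq_div, div_le_one (by linarith)]
        exact h2)
  have hPr : ∀ᶠ k in atTop, ball (P k) (s k) ⊆ ball p r := by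
    have h1 : ∀ᶠ k in atTop, dist (P k) p < r / 2 :=
      (Metric.tendsto_nhds.mp hPt) (r / 2) (by positivity)
    filter_upwards [h1] with k h3
    have h4 := (hs k).2.1
    rw [dist_eq_norm] at h3
    refine ball_subset_ball' ?_
    rw [dist_eq_norm]
    linarith
  obtain ⟨K', hK'⟩ := eventually_atTop.mp hPr
  obtain ⟨k, hk2, hk3⟩ : ∃ k : ℕ, 2 * C ≤ (k : ℝ) ∧ K' ≤ k :=
    ⟨max ⌈2 * C⌉₊ K', (Nat.le_ceil _).trans (by exact_mod_cast le_max_left _ _),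
      le_max_right _ _⟩
  have hk0 : (0 : ℝ) ≤ k := Nat.cast_nonneg k
  obtain ⟨Ψ, hΨ⟩ : ∃ Ψ, Ψ = Psi φ p (P k) := ⟨_, rfl⟩
  have hΨ1 : 1 ≤ Ψ := by
    rw [hΨ, Psi]
    linarith [abs_nonneg (φ (‖P k - p‖ / 2))]
  have hb := hbad k
  have hgg := hGg k
  rw [← hΨ] at hb hgg
  refine hb G (C * Ψ) (1 / (20 * (k + 1) * Ψ)) (by positivity) ?_ ?_ hgg ?_
  · nlinarith
  · have h1 : 1 / (20 * ((k : ℝ) + 1) * Ψ) * (C * Ψ) = C / (20 * (k + 1)) := by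
      field_simp
    rw [h1, div_le_iff₀ (by positivity)]
    linarith
  · refine ⟨fun z => ((1 / (1 + κ) : ℝ) : ℂ) • h z, ?_, fun z hz => ?_, fun z hz => ?_⟩
    · exact (hh1.mono fun z hz => ⟨hz.1, hK' k hk3 hz.2⟩).fun_const_smul _
    · have h1 := (hh2 z ⟨hz.1, hK' k hk3 hz.2⟩).2
      have hzb := hz.2
      rw [mem_ball, dist_eq_norm] at hzb
      have h4 := (hs k).2.1
      have h5 : ‖P k - p‖ ≤ ‖z - P k‖ + ‖z - p‖ := by
        calc ‖P k - p‖ = ‖(z - p) - (z - P k)‖ := by congr 1; abel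
          _ ≤ ‖z - p‖ + ‖z - P k‖ := norm_sub_le _ _
          _ = _ := by ring
      have h6 : ‖P k - p‖ / 2 ≤ ‖z - p‖ := by linarith
      have h7 : φ ‖z - p‖ ≤ Ψ := by
        have h8' : 0 < ‖P k - p‖ / 2 := half_pos (norm_pos_iff.2 (sub_ne_zero.2 (hs k).2.2))
        have h8 := hφ (mem_Ioi.2 h8') (mem_Ioi.2 (h8'.trans_le h6)) h6
        rw [hΨ, Psi]
        have h9 := le_abs_self (φ (‖P k - p‖ / 2))
        linarith
      rw [hnG]
      calc 1 / (1 + κ) * ‖h z‖ ≤ 1 * ‖h z‖ := mul_le_mul_of_nonneg_right hκi1 (norm_nonneg _)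
        _ = ‖h z‖ := one_mul _
        _ ≤ C * φ ‖z - p‖ := h1
        _ ≤ C * Ψ := mul_le_mul_of_nonneg_left h7 hC
    · have h1 := (hh2 z ⟨hz.1, hK' k hk3 hz.2⟩).1
      rw [← h1]
      refine Finset.sum_congr rfl fun j _ => ?_
      simp only [PiLp.smul_apply, smul_eq_mul]
      ring

/-- Strictly pseudoconvex domains have enough boundary points.
PROOF. `LV.support_of_domain` gives `SupportData`; `TB.support_bdry`: `D` is open; `TB.frontier_near` gives `q`; `TB.trans_of_support`; the peak function: `TB.pk_of_support hs hq` gives `PK D q w ρ V r c`: `w` is holomorphic on the open set `V ⊇ closure D`. -/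
theorem acc_psc (hn : 1 ≤ n) {D : Set (En n)} (hD : IsStrictlyPscDomain D) {p : En n} (hp : p ∈ frontier D) :
    IsOpen D ∧ ∀ ε > 0, ∃ q ∈ frontier D, q ≠ p ∧ ‖q - p‖ < ε ∧ (∃ e, Trans D q e) ∧ PeakAt D q := by
  obtain ⟨U, ρ, h, c, hs, -⟩ := Pool.Agent.MPca0fc2.LV.support_of_domain hD
  obtain ⟨hDo, -⟩ := TB.support_bdry hs
  refine ⟨hDo, fun ε hε => ?_⟩
  obtain ⟨q, hq, hqp, hqε⟩ := TB.frontier_near hn hs hp ε hε
  refine ⟨q, hq, hqp, hqε, TB.trans_of_support hs hq, ?_⟩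
  obtain ⟨r, hpk⟩ := TB.pk_of_support hs hq
  exact ⟨_, c, hpk.c0, hpk.hol.mono (subset_closure.trans hpk.clV),
    hpk.hol.continuousOn.mono hpk.clV, hpk.w0, hpk.pos⟩

end Pool.Agent.MPca0fc2.EQ
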