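import Pool.Agent.Lib.MP_ca0fc2_an.EQ.S3
import Pool.Agent.Lib.MP_ca0fc2_an.Mg.G082

/-! Campaign EQ, task S4: the step lemma and the system of maps. -/

set_option autoImplicit false

open Metric Set Filter Topology

namespace Pool.Agent.MPca0fc2.EQ

open Pool.Agent.MPca0fc2.TB (En Lh Eh)

variable {n : ℕ}

private theorem S4_mono {T : Tg n} {ν : Cn n} {m m' : ℝ} (h : Small T ν m) (hm : m ≤ m') : Small T ν m' :=
  ⟨h.q1, h.qe.trans hm, h.x.trans hm, h.L.trans hm, h.b.trans hm, h.u.trans hm, h.l.trans hm⟩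

/-- The step from the scale `r` to the scale `r ^ (6/5)`.
PROOF. `A` = the constant of `node_taylor` plus one (so `T.C ≤ A`). `coeffs` gives at `ν₁ = ν.re q'` the hypotheses of `newton` with `ε = 20 A (1 + K) r` (`ν₁` is `m₀`-small: `re_small`, `m₁ + 2 K r ≤ m₀` with `m₁ = m₀ / 2`). `ν'` from `newton`.
Quality: for `v = y - q'`, `‖v‖ ≤ 4`: `node_taylor` for `ν'` (`1/10`-small): `|..| ≤ |ρ ν'.x| + |P3| + A₀ ‖v‖³ ≤ C ε⁶ + C ε² ‖v‖² + A₀ ‖v‖³`, `A₀ = A - 1`, and with `r' = r ^ (6/5)`: `(r' + ‖v‖)³ ≥ r'³ + 3 r' ‖v‖² + ‖v‖³`, `C ε⁶ ≤ A r'³`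
(`6 > 18/5`), `C ε² ≤ 3 A r'` (`2 > 6/5`) for small `r`. `Small`: all the coefficients change by `≤ 2 K r + C ε`. Differences for `‖y‖ ≤ 2`, `v = y - q'`, `‖v‖ ≤ 3`: `ν'.Ψ y - ν.Ψ y = (x' - x₁) + (L' - L₁) v + (b' - b₁) v v` (`re_Ψ`): `≤ C ε³ + C ε ‖v‖ + C ε ‖v‖²`.
`pd ρ (ν.Ψ y)` of it: `‖pd_{Ψ y} - pd_{x₁}‖ ≤ T.C ‖Ψ y - x₁‖ ≤ C ‖v‖`; `pd ρ x₁` of the three terms is `≤ C ε³`, `≤ C ε² ‖v‖` (last part of `newton`), `≤ C ε ‖v‖²`; total `≤ C (ε³ + ε² ‖v‖ + ε ‖v‖²) + C ‖v‖ (ε³ + ε ‖v‖ + ε ‖v‖²)`. -/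
theorem step (T : Tg n) {K : ℝ} (hK : 1 ≤ K) : ∃ (A C r₀ m₁ : ℝ), T.C ≤ A ∧ 1 ≤ C ∧ 0 < r₀ ∧ r₀ ≤ 1 ∧ 0 < m₁ ∧ m₁ ≤ 1 / 50 ∧
    ∀ (ν : Cn n) (r : ℝ) (q' : En n), 0 < r → r ≤ r₀ → Small T ν m₁ → Ql T A ν r → ‖q'‖ = 1 → ‖q' - ν.q‖ ≤ K * r →
    ∃ ν' : Cn n, ν'.q = q' ∧ Ql T A ν' (r ^ (6 / 5 : ℝ)) ∧ (∀ m, m ≤ m₁ → Small T ν m → Small T ν' (m + C * r)) ∧
      ∀ y, ‖y‖ ≤ 2 → ‖ν'.Ψ y - ν.Ψ y‖ ≤ C * (r ^ 3 + r * ‖y - q'‖) ∧
        ‖pd T.ρ (ν.Ψ y) (ν'.Ψ y - ν.Ψ y)‖ ≤ C * (r ^ 3 + r ^ 2 * ‖y - q'‖ + r * ‖y - q'‖ ^ 2) := by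
  obtain ⟨A₀, hA1, hAC, hA'⟩ := node_taylor T
  obtain ⟨C₁, ε₀, m₀, hC1, hε0, hm0, hm1, hnew⟩ := newton T
  have hT1 := T.one_le
  have hT0 : 0 < T.C := lt_of_lt_of_le one_pos hT1
  have hC10 : 0 < C₁ := lt_of_lt_of_le one_pos hC1
  obtain ⟨A, hAdef⟩ : ∃ A : ℝ, A = A₀ + 1 := ⟨_, rfl⟩
  have hA2 : 2 ≤ A := by linarith
  obtain ⟨κ, hκ⟩ : ∃ κ : ℝ, κ = 20 * A * (1 + K) := ⟨_, rfl⟩
  have hκ1 : 1 ≤ κ := by
    rw [hκ]
    have h1 : 1 * 1 ≤ (20 * A) * (1 + K) := mul_le_mul (by linarith) (by linarith) zero_le_one (by linarith)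
    linarith
  have hκ0 : 0 < κ := lt_of_lt_of_le one_pos hκ1
  obtain ⟨D, hD⟩ : ∃ D : ℝ, D = C₁ * κ ^ 6 := ⟨_, rfl⟩
  have hκ6 : 1 ≤ κ ^ 6 := one_le_pow₀ hκ1
  have hD1 : 1 ≤ D := by
    rw [hD]
    calc (1 : ℝ) = 1 * 1 := by ring
      _ ≤ C₁ * κ ^ 6 := mul_le_mul hC1 hκ6 zero_le_one hC10.le
  have hD0 : 0 < D := lt_of_lt_of_le one_pos hD1
  obtain ⟨C, hC⟩ : ∃ C : ℝ, C = 2 * K + 16 * T.C * C₁ * κ ^ 3 := ⟨_, rfl⟩
  have hpos1 : 0 < T.C * C₁ * κ ^ 3 := by positivity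
  have hK0 : 0 < K := lt_of_lt_of_le one_pos hK
  have hCbig : 16 * (T.C * C₁ * κ ^ 3) ≤ C := by rw [hC]; linarith
  have hCbig2 : 2 * K + 16 * (T.C * C₁ * κ ^ 3) = C := by rw [hC]; ring
  have hC1' : 1 ≤ C := by linarith
  have hC0' : 0 < C := by linarith
  have h40C : 1 / (40 * C) ≤ 1 := by
    rw [div_le_one (by positivity)]
    linarith
  refine ⟨A, C, min (min (1 / (40 * C)) (ε₀ / κ)) (min (m₀ / (40 * K)) ((1 / D) ^ (5 / 4 : ℝ))), m₀ / 2, by linarith, by linarith, ?_, ?_,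
    by linarith, by linarith, ?_⟩
  · have h1 : (0 : ℝ) < (1 / D) ^ (5 / 4 : ℝ) := Real.rpow_pos_of_pos (by positivity) _
    have h2 : 0 < m₀ / (40 * K) := by positivity
    have h3 : 0 < ε₀ / κ := by positivity
    have h4 : 0 < 1 / (40 * C) := by positivity
    exact lt_min (lt_min h4 h3) (lt_min h2 h1)
  · exact (min_le_left _ _).trans ((min_le_left _ _).trans h40C)
  intro ν r q' hr hr0 hS hQ hq1 hqq
  have hrC : r ≤ 1 / (40 * C) := hr0.trans ((min_le_left _ _).trans (min_le_left _ _))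
  have hr1 : r ≤ 1 := hrC.trans h40C
  have hrC' : C * r ≤ 1 / 40 := by
    have h1 := mul_le_mul_of_nonneg_left hrC hC0'.le
    have h2 : C * (1 / (40 * C)) = 1 / 40 := by field_simp
    linarith
  have hrε : κ * r ≤ ε₀ := by
    have h1 : r ≤ ε₀ / κ := hr0.trans ((min_le_left _ _).trans (min_le_right _ _))
    rw [le_div_iff₀ hκ0] at h1
    linarith
  have hrm : 40 * K * r ≤ m₀ := by
    have h1 : r ≤ m₀ / (40 * K) := hr0.trans ((min_le_right _ _).trans (min_le_left _ _))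
    rw [le_div_iff₀ (by positivity)] at h1
    linarith
  have hrD : D * r ^ 2 ≤ r ^ (6 / 5 : ℝ) := by
    have h1 : r ≤ (1 / D) ^ (5 / 4 : ℝ) := hr0.trans ((min_le_right _ _).trans (min_le_right _ _))
    have h2 : r ^ (4 / 5 : ℝ) ≤ 1 / D := by
      calc r ^ (4 / 5 : ℝ) ≤ ((1 / D) ^ (5 / 4 : ℝ)) ^ (4 / 5 : ℝ) := Real.rpow_le_rpow hr.le h1 (by norm_num)
        _ = 1 / D := by
          rw [← Real.rpow_mul (by positivity)]
          norm_num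
    have h3 : D * r ^ (4 / 5 : ℝ) ≤ 1 := by
      have := mul_le_mul_of_nonneg_left h2 hD0.le
      rwa [mul_one_div_cancel hD0.ne'] at this
    have h4 : r ^ 2 = r ^ (4 / 5 : ℝ) * r ^ (6 / 5 : ℝ) := by
      rw [← Real.rpow_add hr, ← Real.rpow_natCast]
      norm_num
    have h5 : 0 ≤ r ^ (6 / 5 : ℝ) := (Real.rpow_pos_of_pos hr _).le
    calc D * r ^ 2 = (D * r ^ (4 / 5 : ℝ)) * r ^ (6 / 5 : ℝ) := by rw [h4]; ring
      _ ≤ 1 * r ^ (6 / 5 : ℝ) := mul_le_mul_of_nonneg_right h3 h5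
      _ = _ := one_mul _
  have hKr : K * r ≤ m₀ / 40 := by linarith
  have hKr0 : 0 ≤ K * r := by positivity
  have hKr1 : K * r ≤ 1 := by linarith
  have hm0' : (m₀ / 2) + 2 * (K * r) ≤ m₀ := by linarith
  have hSre : Small T (ν.re q') (m₀ / 2 + 2 * (K * r)) := re_small hS (by linarith) hq1 hqq hKr1
  have hSre' : Small T (ν.re q') m₀ := S4_mono hSre hm0'
  obtain ⟨hc0, hcv⟩ := coeffs T (A := A) (K := K) hK (by linarith) (fun ν hν v hv => by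
    refine (hA' ν hν v hv).trans (mul_le_mul_of_nonneg_right (by linarith) (by positivity))) hr (by linarith)
    (S4_mono hS (by linarith)) hQ hq1 hqq
  have hKr' : 0 ≤ (1 + K) * r := by positivity
  have hκr : κ * r = 20 * A * ((1 + K) * r) := by rw [hκ]; ring
  have h20 : 1 ≤ 20 * A := by linarith
  obtain ⟨ε, hε⟩ : ∃ ε : ℝ, ε = κ * r := ⟨_, rfl⟩
  have hεp : 0 < ε := by rw [hε]; positivity
  have hε2 : 20 * A * ((1 + K) * r) ^ 2 ≤ ε ^ 2 := by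
    rw [hε, hκr, mul_pow (20 * A)]
    apply mul_le_mul_of_nonneg_right _ (by positivity)
    exact le_self_pow₀ h20 (by norm_num)
  have hε3 : 20 * A * ((1 + K) * r) ^ 3 ≤ ε ^ 3 := by
    rw [hε, hκr, mul_pow (20 * A)]
    apply mul_le_mul_of_nonneg_right _ (by positivity)
    exact le_self_pow₀ h20 (by norm_num)
  obtain ⟨ν', hν'q, hρ', hP1', hP2', hP3', hx', hL', hb', hu', hl', hLp⟩ := hnew (ν.re q') ε hεp (by rw [hε]; exact hrε) hSre'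
    (hc0.trans hε3) (fun v => (hcv v).1.trans (mul_le_mul_of_nonneg_right hε2 (norm_nonneg _)))
    (fun v => (hcv v).2.1.trans (le_of_eq (by rw [hε, hκr])))
    (fun v => (hcv v).2.2.trans (le_of_eq (by rw [hε, hκr])))
  have hνq : ν'.q = q' := hν'q
  have hε3r : C₁ * ε ^ 3 ≤ C₁ * κ ^ 3 * r ^ 3 := by rw [hε, mul_pow]; exact le_of_eq (by ring)
  have hκ3 : κ ≤ κ ^ 3 := le_self_pow₀ hκ1 (by norm_num)
  have hκ23 : κ ^ 2 ≤ κ ^ 3 := pow_le_pow_right₀ hκ1 (by norm_num)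
  have hr3 : r ^ 3 ≤ r := by
    calc r ^ 3 ≤ r ^ 1 := pow_le_pow_of_le_one hr.le hr1 (by norm_num)
      _ = r := pow_one r
  have hT16 : C₁ * κ ^ 3 ≤ T.C * C₁ * κ ^ 3 := by
    have h := mul_le_mul_of_nonneg_right hT1 (by positivity : 0 ≤ C₁ * κ ^ 3)
    linarith
  have hC3 : C₁ * ε ≤ C₁ * κ ^ 3 * r := by
    rw [hε]
    have h := mul_le_mul_of_nonneg_right hκ3 (by positivity : 0 ≤ C₁ * r)
    linarith
  have hC3' : C₁ * ε ^ 3 ≤ C₁ * κ ^ 3 * r := by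
    refine hε3r.trans ?_
    exact mul_le_mul_of_nonneg_left hr3 (by positivity)
  have hC16r : C₁ * κ ^ 3 * r ≤ T.C * C₁ * κ ^ 3 * r := mul_le_mul_of_nonneg_right hT16 hr.le
  have hCr : 2 * (K * r) + 16 * (T.C * C₁ * κ ^ 3 * r) = C * r := by rw [← hCbig2]; ring
  have hTr0 : 0 < T.C * C₁ * κ ^ 3 * r := by positivity
  -- smallness
  have hsmall : ∀ m, m ≤ m₀ / 2 → Small T ν m → Small T ν' (m + C * r) := by
    intro m hm hSm
    have h0 := re_small hSm (by linarith) hq1 hqq hKr1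
    have hadd : ∀ (a b c : ℝ), a ≤ m + 2 * (K * r) → b ≤ C₁ * κ ^ 3 * r → c ≤ a + b → c ≤ m + C * r := by
      intro a b c h1 h2 h3
      linarith
    refine ⟨by rw [hνq]; exact hq1, ?_, ?_, ?_, ?_, ?_, ?_⟩
    · rw [hνq]
      have := h0.qe
      have h1 : (ν.re q').q = q' := rfl
      rw [h1] at this
      linarith
    · refine hadd ‖(ν.re q').x - (ν.re q').q‖ ‖ν'.x - (ν.re q').x‖ _ h0.x (hx'.trans hC3') ?_
      have e : ν'.x - ν'.q = ((ν.re q').x - (ν.re q').q) + (ν'.x - (ν.re q').x) := by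
        rw [hν'q]; abel
      rw [e]
      exact norm_add_le _ _
    · refine hadd ‖(ν.re q').L - 1‖ ‖ν'.L - (ν.re q').L‖ _ h0.L (hL'.trans hC3) ?_
      have e : ν'.L - 1 = ((ν.re q').L - 1) + (ν'.L - (ν.re q').L) := by abel
      rw [e]
      exact norm_add_le _ _
    · refine hadd ‖(ν.re q').b‖ ‖ν'.b - (ν.re q').b‖ _ h0.b (hb'.trans hC3) ?_
      have e : ν'.b = (ν.re q').b + (ν'.b - (ν.re q').b) := by abel
      calc ‖ν'.b‖ = ‖(ν.re q').b + (ν'.b - (ν.re q').b)‖ := by rw [← e]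
        _ ≤ _ := norm_add_le (ν.re q').b (ν'.b - (ν.re q').b)
    · rw [hu']
      have := h0.u
      linarith
    · refine hadd ‖(ν.re q').l‖ ‖ν'.l - (ν.re q').l‖ _ h0.l (hl'.trans hC3) ?_
      have e : ν'.l = (ν.re q').l + (ν'.l - (ν.re q').l) := by abel
      conv_lhs => rw [e]
      exact norm_add_le _ _
  refine ⟨ν', hνq, ?_, hsmall, ?_⟩
  · have hS10 : Small T ν' (1 / 10) := S4_mono (hsmall _ le_rfl hS) (by linarith)
    intro y hy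
    obtain ⟨v, hv⟩ : ∃ v : En n, v = y - ν'.q := ⟨_, rfl⟩
    have hyv : y = ν'.q + v := by rw [hv]; abel
    rw [← hv] at hy ⊢
    have h1 := hA' ν' hS10 v (by linarith)
    rw [← hyv, hP1' v, hP2' v] at h1
    simp only [Complex.zero_re, mul_zero, add_zero] at h1
    have hs := norm_nonneg v
    obtain ⟨s, hsdef⟩ : ∃ s : ℝ, s = ‖v‖ := ⟨_, rfl⟩
    have h3 := hP3' v
    rw [← hsdef] at h1 hs hy h3 ⊢
    obtain ⟨R, hR⟩ : ∃ R : ℝ, R = r ^ (6 / 5 : ℝ) := ⟨_, rfl⟩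
    have hR0 : 0 < R := by rw [hR]; exact Real.rpow_pos_of_pos hr _
    rw [← hR] at hrD ⊢
    have hDr0 : 0 ≤ D * r ^ 2 := by positivity
    have e1 : C₁ * ε ^ 6 ≤ R ^ 3 := by
      have g1 : C₁ * ε ^ 6 = D * r ^ 6 := by rw [hε, hD]; ring
      have g2 : D * r ^ 6 ≤ D ^ 3 * r ^ 6 := mul_le_mul_of_nonneg_right (le_self_pow₀ hD1 (by norm_num)) (by positivity)
      have g3 : D ^ 3 * r ^ 6 = (D * r ^ 2) ^ 3 := by ring
      have g4 : (D * r ^ 2) ^ 3 ≤ R ^ 3 := pow_le_pow_left₀ hDr0 hrD 3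
      linarith
    have e2 : C₁ * ε ^ 2 ≤ R := by
      have g1 : C₁ * ε ^ 2 = C₁ * κ ^ 2 * r ^ 2 := by rw [hε]; ring
      have g2 : C₁ * κ ^ 2 * r ^ 2 ≤ D * r ^ 2 := by
        apply mul_le_mul_of_nonneg_right _ (by positivity)
        rw [hD]
        exact mul_le_mul_of_nonneg_left (pow_le_pow_right₀ hκ1 (by norm_num)) hC10.le
      linarith
    have e3 : C₁ * ε ^ 2 * s ^ 2 ≤ R * s ^ 2 := mul_le_mul_of_nonneg_right e2 (sq_nonneg s)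
    have e4 : R ^ 3 + R * s ^ 2 + A₀ * s ^ 3 ≤ A * (R + s) ^ 3 := by
      have g1 : 0 ≤ R ^ 3 := by positivity
      have g2 : 0 ≤ R ^ 2 * s := by positivity
      have g3 : 0 ≤ R * s ^ 2 := by positivity
      have g4 : 0 ≤ s ^ 3 := by positivity
      have g5 : A * (R + s) ^ 3 = A * R ^ 3 + 3 * (A * (R ^ 2 * s)) + 3 * (A * (R * s ^ 2)) + A₀ * s ^ 3 + s ^ 3 := by
        rw [hAdef]; ring
      have g6 : 1 * R ^ 3 ≤ A * R ^ 3 := mul_le_mul_of_nonneg_right (by linarith) g1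
      have g7 : 0 ≤ A * (R ^ 2 * s) := mul_nonneg (by linarith) g2
      have g8 : 1 * (R * s ^ 2) ≤ A * (R * s ^ 2) := mul_le_mul_of_nonneg_right (by linarith) g3
      linarith
    rw [abs_le] at h1 hρ' h3 ⊢
    constructor
    · linarith [h1.1, hρ'.1, h3.1]
    · linarith [h1.2, hρ'.2, h3.2]
  · intro y hy
    obtain ⟨v, hv⟩ : ∃ v : En n, v = y - q' := ⟨_, rfl⟩
    have hv3 : ‖v‖ ≤ 3 := by
      rw [hv]
      refine (norm_sub_le _ _).trans ?_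
      rw [hq1]
      linarith
    have hΨ' : ν'.Ψ y = ν'.x + ν'.L v + ν'.b v v := by
      unfold Cn.Ψ
      rw [hνq, hv]
    have hΨ : ν.Ψ y = (ν.re q').x + (ν.re q').L v + (ν.re q').b v v := by
      rw [← re_Ψ ν q' y, hv]
      rfl
    have hd : ν'.Ψ y - ν.Ψ y = (ν'.x - (ν.re q').x) + (ν'.L - (ν.re q').L) v + (ν'.b - (ν.re q').b) v v := by
      rw [hΨ', hΨ]
      simp only [_root_.sub_apply]
      abel
    obtain ⟨s, hsdef⟩ : ∃ s : ℝ, s = ‖v‖ := ⟨_, rfl⟩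
    have hs : 0 ≤ s := by rw [hsdef]; exact norm_nonneg v
    have hs3 : s ≤ 3 := by rw [hsdef]; exact hv3
    have d1 : ‖ν'.x - (ν.re q').x‖ ≤ C₁ * κ ^ 3 * r ^ 3 := hx'.trans hε3r
    have d2 : ‖(ν'.L - (ν.re q').L) v‖ ≤ C₁ * κ ^ 3 * r * s := by
      refine ((ν'.L - (ν.re q').L).le_opNorm v).trans ?_
      rw [← hsdef]
      exact mul_le_mul_of_nonneg_right (hL'.trans hC3) hs
    have d3 : ‖(ν'.b - (ν.re q').b) v v‖ ≤ C₁ * κ ^ 3 * r * s ^ 2 := by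
      refine ((ν'.b - (ν.re q').b).le_opNorm₂ v v).trans ?_
      rw [← hsdef]
      have := mul_le_mul_of_nonneg_right (hb'.trans hC3) (sq_nonneg s)
      calc _ = ‖ν'.b - (ν.re q').b‖ * s ^ 2 := by ring
        _ ≤ _ := this
    have d3' : C₁ * κ ^ 3 * r * s ^ 2 ≤ 3 * (C₁ * κ ^ 3 * r * s) := by
      have h1 : 0 ≤ C₁ * κ ^ 3 * r * s := by positivity
      have := mul_le_mul_of_nonneg_left hs3 h1
      calc _ = C₁ * κ ^ 3 * r * s * s := by ring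
        _ ≤ _ := this
        _ = _ := by ring
    have hdn : ‖ν'.Ψ y - ν.Ψ y‖ ≤ C₁ * κ ^ 3 * r ^ 3 + 4 * (C₁ * κ ^ 3 * r * s) := by
      rw [hd]
      refine norm_add₃_le.trans ?_
      linarith
    rw [← hv, ← hsdef]
    obtain ⟨M, hM⟩ : ∃ M : ℝ, M = C₁ * κ ^ 3 := ⟨_, rfl⟩
    have hM0 : 0 < M := by rw [hM]; positivity
    have hMC : 16 * (T.C * M) ≤ C := by rw [hM]; linarith
    have hTM : M ≤ T.C * M := by
      have := mul_le_mul_of_nonneg_right hT1 hM0.le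
      linarith
    rw [← hM] at hdn d1 d2 d3 d3'
    constructor
    · refine hdn.trans ?_
      have g1 : M * r ^ 3 ≤ C * r ^ 3 := mul_le_mul_of_nonneg_right (by linarith) (by positivity)
      have g2 : (4 * M) * (r * s) ≤ C * (r * s) := mul_le_mul_of_nonneg_right (by linarith) (by positivity)
      linarith
    · -- the derivative
      have hxe : ‖(ν.re q').x - T.e‖ ≤ 1 := by
        have e : (ν.re q').x - T.e = ((ν.re q').x - (ν.re q').q) + ((ν.re q').q - T.e) := by abel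
        rw [e]
        refine (norm_add_le _ _).trans ?_
        linarith [hSre'.x, hSre'.qe]
      have hxn : ‖(ν.re q').x‖ ≤ 2 := by
        have e : (ν.re q').x = ((ν.re q').x - T.e) + T.e := by abel
        rw [e]
        refine (norm_add_le _ _).trans ?_
        rw [T.he]
        linarith
      have hpd : ∀ w, ‖pd T.ρ (ν.re q').x w‖ ≤ 3 * T.C * ‖w‖ := by
        intro w
        have h1 := pd_inner T (ν.re q').x w
        have h2 : ‖(inner ℂ (ν.re q').x w : ℂ)‖ ≤ 2 * ‖w‖ :=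
          (norm_inner_le_norm _ _).trans (mul_le_mul_of_nonneg_right hxn (norm_nonneg _))
        have h3 : T.C * ‖(ν.re q').x - T.e‖ ^ 2 * ‖w‖ ≤ T.C * 1 * ‖w‖ := by
          apply mul_le_mul_of_nonneg_right _ (norm_nonneg _)
          apply mul_le_mul_of_nonneg_left _ hT0.le
          exact pow_le_one₀ (norm_nonneg _) hxe
        have e : pd T.ρ (ν.re q').x w = (pd T.ρ (ν.re q').x w - inner ℂ (ν.re q').x w) + inner ℂ (ν.re q').x w := by ring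
        rw [e]
        refine (norm_add_le _ _).trans ?_
        have h4 : 2 * ‖w‖ ≤ 2 * T.C * ‖w‖ := mul_le_mul_of_nonneg_right (by linarith) (norm_nonneg _)
        linarith
      have hΨx : ‖ν.Ψ y - (ν.re q').x‖ ≤ 3 * s := by
        have e : ν.Ψ y - (ν.re q').x = (ν.re q').L v + (ν.re q').b v v := by rw [hΨ]; abel
        rw [e]
        refine (norm_add_le _ _).trans ?_
        have h1 : ‖(ν.re q').L v‖ ≤ 2 * s := by
          have e1 : (ν.re q').L v = ((ν.re q').L - 1) v + v := by simp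
          rw [e1]
          refine (norm_add_le _ _).trans ?_
          have h2 : ‖((ν.re q').L - 1) v‖ ≤ 1 * s := by
            refine (((ν.re q').L - 1).le_opNorm v).trans ?_
            rw [← hsdef]
            exact mul_le_mul_of_nonneg_right (hSre'.L.trans (by linarith)) hs
          rw [← hsdef]
          linarith
        have h3 : ‖(ν.re q').b v v‖ ≤ s := by
          refine ((ν.re q').b.le_opNorm₂ v v).trans ?_
          rw [← hsdef]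
          have h4 : ‖(ν.re q').b‖ * s ≤ 1 / 50 * 3 := mul_le_mul (hSre'.b.trans (by linarith)) hs3 hs (by norm_num)
          have h5 := mul_le_mul_of_nonneg_right h4 hs
          linarith
        linarith
      have hp1 : ‖pd T.ρ (ν.Ψ y) (ν'.Ψ y - ν.Ψ y) - pd T.ρ (ν.re q').x (ν'.Ψ y - ν.Ψ y)‖ ≤
          T.C * (3 * s) * (M * r ^ 3 + 4 * (M * r * s)) := by
        refine (pd_sub_le T.ρ _ _ _).trans ?_
        refine mul_le_mul ((T.d1 _ _).trans (mul_le_mul_of_nonneg_left hΨx hT0.le)) hdn (norm_nonneg _) (by positivity)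
      have hp2 : ‖pd T.ρ (ν.re q').x (ν'.Ψ y - ν.Ψ y)‖ ≤ 3 * T.C * (M * r ^ 3) + M * r ^ 2 * s + 3 * T.C * (M * r * s ^ 2) := by
        rw [hd, pd_add, pd_add]
        refine norm_add₃_le.trans ?_
        have g1 := (hpd (ν'.x - (ν.re q').x)).trans (mul_le_mul_of_nonneg_left d1 (by positivity))
        have g3 := (hpd ((ν'.b - (ν.re q').b) v v)).trans (mul_le_mul_of_nonneg_left d3 (by positivity))
        have g2 := hLp v
        rw [← hsdef] at g2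
        have g4 : C₁ * ε ^ 2 * s ≤ M * r ^ 2 * s := by
          apply mul_le_mul_of_nonneg_right _ hs
          rw [hM, hε, mul_pow, ← mul_assoc]
          apply mul_le_mul_of_nonneg_right _ (sq_nonneg r)
          exact mul_le_mul_of_nonneg_left hκ23 hC10.le
        linarith
      have e : pd T.ρ (ν.Ψ y) (ν'.Ψ y - ν.Ψ y) =
          (pd T.ρ (ν.Ψ y) (ν'.Ψ y - ν.Ψ y) - pd T.ρ (ν.re q').x (ν'.Ψ y - ν.Ψ y)) + pd T.ρ (ν.re q').x (ν'.Ψ y - ν.Ψ y) := by ring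
      rw [e]
      refine (norm_add_le _ _).trans ?_
      have k1 : T.C * (3 * s) * (M * r ^ 3 + 4 * (M * r * s)) = 3 * s * (T.C * M * r ^ 3) + 12 * (T.C * M) * (r * s ^ 2) := by ring
      have k2 : 3 * s * (T.C * M * r ^ 3) ≤ 9 * (T.C * M * r ^ 3) := by
        have : 0 ≤ T.C * M * r ^ 3 := by positivity
        exact mul_le_mul_of_nonneg_right (by linarith) this
      have k3 : 12 * (T.C * M * r ^ 3) ≤ C * r ^ 3 := by
        have h := mul_le_mul_of_nonneg_right (show 12 * (T.C * M) ≤ C by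
          have : 0 ≤ T.C * M := by positivity
          linarith) (by positivity : 0 ≤ r ^ 3)
        linarith
      have k4 : M * (r ^ 2 * s) ≤ C * (r ^ 2 * s) := mul_le_mul_of_nonneg_right (by
          have : 0 ≤ T.C * M := by positivity
          linarith) (by positivity)
      have k5 : 15 * (T.C * M) * (r * s ^ 2) ≤ C * (r * s ^ 2) := mul_le_mul_of_nonneg_right (by
          have : 0 ≤ T.C * M := by positivity
          linarith) (by positivity)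
      linarith

/-- The system of maps exists.
PROOF. `K = kn n + 1`, `step`. `C' = 4 C + 4 + A` etc. Let `Good k ν` mean: there is a `ν₀ : Cn n` with `ν = ⟨ν₀.Ψ, ν₀.q⟩`, `Ql T A ν₀ (rs lam k)` and `Small T ν₀ (m k)`, `m k = C ∑_{i < k} rs lam i ≤ 2 C lam ≤ m₁` (geometric series: `half`).
Root: `ν₀ = ⟨e, e, 1, 0, 1, 0⟩`: `Ψ = id` (funext; as `Nd` equality `root T.e`), `Ql`: `T.osc` and `T.C ≤ A`, `u = 1`. `nx k ν c`: if `Good k ν` choose such a `ν₀`, and if there is a `q'` with `‖q'‖ = 1`, `‖q' - ν.q‖ ≤ (kn n + 1) rs lam k` and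
`cell (rs lam (k+1)) (sh (k+1)) (ν.Ψ q') = c` choose it, otherwise `q' = ν.q`; `nx` = the node of the `ν'` of `step`; if not `Good k ν`, then `nx k ν c = ν`. `good_nx`, `est`, `est'` from `step` (`rs_succ`). `q1`, `qe`: `Small`.
`hol`: polynomial. `lip` for `‖y‖, ‖y'‖ ≤ 4`: `Ψ y - Ψ y' - (y - y') = (L - 1)(y - y') + b v v - b v' v'`, `‖b v v - b v' v'‖ ≤ ‖b‖ (‖v‖ + ‖v'‖) ‖v - v'‖`, `‖v‖ ≤ 5`: `≤ 11 m ‖y - y'‖`. `nid`: `x - q + (L - 1) v + b v v`: `≤ m (1 + 5 + 25)`. `qual`: `u`: `|u y - 1| ≤ m + 2 m 3`; `Ql` (`‖y - q‖ ≤ 3`).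
`cen`: `w` with `‖w‖ = 1`, `‖w - ν.q‖ ≤ (kn n + 1) rs k`: the set of the `q'` for the cell `c` of `ν.Ψ w` is not empty (it contains `w`), so `ν'.q = q'` with `ν.Ψ q'` in the cell `c`; `cell_diam`: `‖ν.Ψ w - ν.Ψ q'‖ ≤ (n + 1) rs (k+1)`, and `‖w - q'‖ ≤ 2 ‖ν.Ψ w - ν.Ψ q'‖` (`lip`, small `lam`)
`≤ 2 (n + 1) rs (k+1) = kn n / 2 * rs (k+1)`. -/
theorem exists_sys (T : Tg n) : ∃ C : ℝ, 1 ≤ C ∧ ∀ᶠ lam in 𝓝[>] (0 : ℝ), ∀ sh : ℕ → ℝ, Nonempty (Sys T C lam sh) := by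
  have hK : (1 : ℝ) ≤ kn n + 1 := by
    unfold kn
    have : (0 : ℝ) ≤ n := Nat.cast_nonneg n
    linarith
  obtain ⟨A, C, r₀, m₁, hTA, hC1, hr0, hr1, hm0, hm1, hstep⟩ := step T hK
  have hT1 := T.one_le
  have hC0 : 0 < C := lt_of_lt_of_le one_pos hC1
  refine ⟨62 * C + A, by linarith, ?_⟩
  filter_upwards [ev_lt one_pos, ev_lt hr0, ev_lt (show 0 < m₁ / (2 * C) by positivity), half 2 one_pos] with lam h1 h2 h3 h4
  intro sh
  have hlam : 0 < lam := h1.1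
  have hlam1 : lam ≤ 1 := h1.2.le
  have hClam : 2 * C * lam ≤ m₁ := by
    have h := h3.2.le
    rw [le_div_iff₀ (by positivity)] at h
    linarith
  have hhalf : ∀ k, 2 * rs lam (k + 1) ≤ rs lam k := by
    intro k
    have := h4 k
    rwa [Real.rpow_one, Real.rpow_one] at this
  obtain ⟨mm, hmm⟩ : ∃ mm : ℕ → ℝ, ∀ k, mm k = 2 * C * (lam - rs lam k) := ⟨fun k => 2 * C * (lam - rs lam k), fun _ => rfl⟩
  have hmm1 : ∀ k, mm k ≤ 2 * C * lam := by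
    intro k
    rw [hmm]
    apply mul_le_mul_of_nonneg_left _ (by positivity)
    linarith [rs_pos hlam k]
  have hmm2 : ∀ k, mm k + C * rs lam k ≤ mm (k + 1) := by
    intro k
    rw [hmm, hmm]
    have := mul_le_mul_of_nonneg_left (hhalf k) hC0.le
    linarith
  obtain ⟨Good, hGood⟩ : ∃ Good : ℕ → Nd n → Prop, ∀ k ν, Good k ν ↔
      ∃ ν₀ : Cn n, ν = ⟨ν₀.Ψ, ν₀.q⟩ ∧ Ql T A ν₀ (rs lam k) ∧ Small T ν₀ (mm k) := ⟨_, fun _ _ => Iff.rfl⟩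
  have hex : ∀ (k : ℕ) (ν : Nd n) (c : Fin n → ℤ × ℤ), Good k ν → ∃ ν' : Nd n, Good (k + 1) ν' ∧
      ((∃ q', ‖q'‖ = 1 ∧ ‖q' - ν.q‖ ≤ (kn n + 1) * rs lam k ∧ cell (rs lam (k + 1)) (sh (k + 1)) (ν.Ψ q') = c) →
        ‖ν'.q‖ = 1 ∧ ‖ν'.q - ν.q‖ ≤ (kn n + 1) * rs lam k ∧ cell (rs lam (k + 1)) (sh (k + 1)) (ν.Ψ ν'.q) = c) ∧
      ∀ y, ‖y‖ ≤ 2 → ‖ν'.Ψ y - ν.Ψ y‖ ≤ C * (rs lam k ^ 3 + rs lam k * ‖y - ν'.q‖) ∧
        ‖pd T.ρ (ν.Ψ y) (ν'.Ψ y - ν.Ψ y)‖ ≤ C * (rs lam k ^ 3 + rs lam k ^ 2 * ‖y - ν'.q‖ + rs lam k * ‖y - ν'.q‖ ^ 2) := by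
    intro k ν c hG
    obtain ⟨ν₀, rfl, hQ, hS⟩ := (hGood k ν).mp hG
    have hrk := rs_pos hlam k
    have hrk0 : rs lam k ≤ r₀ := (rs_le hlam hlam1 k).trans h2.2.le
    have hS1 : Small T ν₀ m₁ := S4_mono hS ((hmm1 k).trans hClam)
    obtain ⟨q', hq1, hqq, hcell⟩ : ∃ q' : En n, ‖q'‖ = 1 ∧ ‖q' - ν₀.q‖ ≤ (kn n + 1) * rs lam k ∧
        ((∃ q', ‖q'‖ = 1 ∧ ‖q' - ν₀.q‖ ≤ (kn n + 1) * rs lam k ∧ cell (rs lam (k + 1)) (sh (k + 1)) (ν₀.Ψ q') = c) →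
          cell (rs lam (k + 1)) (sh (k + 1)) (ν₀.Ψ q') = c) := by
      by_cases h : ∃ q', ‖q'‖ = 1 ∧ ‖q' - ν₀.q‖ ≤ (kn n + 1) * rs lam k ∧ cell (rs lam (k + 1)) (sh (k + 1)) (ν₀.Ψ q') = c
      · obtain ⟨q', a, b, d⟩ := h
        exact ⟨q', a, b, fun _ => d⟩
      · refine ⟨ν₀.q, hS.q1, ?_, fun h' => absurd h' h⟩
        rw [sub_self, norm_zero]
        positivity
    obtain ⟨ν', hν'q, hQ', hS', hest⟩ := hstep ν₀ (rs lam k) q' hrk hrk0 hS1 hQ hq1 hqq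
    refine ⟨⟨ν'.Ψ, ν'.q⟩, ?_, ?_, ?_⟩
    · rw [hGood]
      refine ⟨ν', rfl, ?_, ?_⟩
      · rw [rs_succ hlam]
        exact hQ'
      · exact S4_mono (hS' (mm k) ((hmm1 k).trans hClam) hS) (hmm2 k)
    · intro h
      change ‖ν'.q‖ = 1 ∧ ‖ν'.q - ν₀.q‖ ≤ _ ∧ cell _ _ (ν₀.Ψ ν'.q) = c
      rw [hν'q]
      exact ⟨hq1, hqq, hcell h⟩
    · intro y hy
      change ‖ν'.Ψ y - ν₀.Ψ y‖ ≤ C * (rs lam k ^ 3 + rs lam k * ‖y - ν'.q‖) ∧
        ‖pd T.ρ (ν₀.Ψ y) (ν'.Ψ y - ν₀.Ψ y)‖ ≤ C * (rs lam k ^ 3 + rs lam k ^ 2 * ‖y - ν'.q‖ + rs lam k * ‖y - ν'.q‖ ^ 2)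
      rw [hν'q]
      exact hest y hy
  classical
  obtain ⟨nx, hnx⟩ : ∃ nx : ℕ → Nd n → (Fin n → ℤ × ℤ) → Nd n, ∀ k ν c, Good k ν → Good (k + 1) (nx k ν c) ∧
      ((∃ q', ‖q'‖ = 1 ∧ ‖q' - ν.q‖ ≤ (kn n + 1) * rs lam k ∧ cell (rs lam (k + 1)) (sh (k + 1)) (ν.Ψ q') = c) →
        ‖(nx k ν c).q‖ = 1 ∧ ‖(nx k ν c).q - ν.q‖ ≤ (kn n + 1) * rs lam k ∧
          cell (rs lam (k + 1)) (sh (k + 1)) (ν.Ψ (nx k ν c).q) = c) ∧
      ∀ y, ‖y‖ ≤ 2 → ‖(nx k ν c).Ψ y - ν.Ψ y‖ ≤ C * (rs lam k ^ 3 + rs lam k * ‖y - (nx k ν c).q‖) ∧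
        ‖pd T.ρ (ν.Ψ y) ((nx k ν c).Ψ y - ν.Ψ y)‖ ≤
          C * (rs lam k ^ 3 + rs lam k ^ 2 * ‖y - (nx k ν c).q‖ + rs lam k * ‖y - (nx k ν c).q‖ ^ 2) := by
    refine ⟨fun k ν c => if h : Good k ν then (hex k ν c h).choose else ν, fun k ν c h => ?_⟩
    simp only [dif_pos h]
    exact (hex k ν c h).choose_spec
  have hlip : ∀ k ν, Good k ν → ∀ y y', ‖y‖ ≤ 4 → ‖y'‖ ≤ 4 → ‖ν.Ψ y - ν.Ψ y' - (y - y')‖ ≤ 22 * C * lam * ‖y - y'‖ := by
    intro k ν hG y y' hy hy'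
    obtain ⟨ν₀, rfl, hQ, hS⟩ := (hGood k ν).mp hG
    have hm := hmm1 k
    change ‖ν₀.Ψ y - ν₀.Ψ y' - (y - y')‖ ≤ _
    have e : ν₀.Ψ y - ν₀.Ψ y' - (y - y') = (ν₀.L - 1) (y - y') + ν₀.b (y - y') (y - ν₀.q) + ν₀.b (y' - ν₀.q) (y - y') := by
      unfold Cn.Ψ
      simp only [map_sub, _root_.sub_apply, one_apply_eq_self]
      abel
    rw [e]
    have hv : ‖y - ν₀.q‖ ≤ 5 := by
      refine (norm_sub_le _ _).trans ?_
      rw [hS.q1]
      linarith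
    have hv' : ‖y' - ν₀.q‖ ≤ 5 := by
      refine (norm_sub_le _ _).trans ?_
      rw [hS.q1]
      linarith
    have hmm0 : 0 ≤ mm k := (norm_nonneg _).trans hS.x
    have hd := norm_nonneg (y - y')
    have g1 : ‖(ν₀.L - 1) (y - y')‖ ≤ mm k * ‖y - y'‖ :=
      ((ν₀.L - 1).le_opNorm _).trans (mul_le_mul_of_nonneg_right hS.L hd)
    have g2 : ‖ν₀.b (y - y') (y - ν₀.q)‖ ≤ mm k * ‖y - y'‖ * 5 :=
      (ν₀.b.le_opNorm₂ _ _).trans (mul_le_mul (mul_le_mul_of_nonneg_right hS.b hd) hv (norm_nonneg _) (by positivity))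
    have g3 : ‖ν₀.b (y' - ν₀.q) (y - y')‖ ≤ mm k * 5 * ‖y - y'‖ :=
      (ν₀.b.le_opNorm₂ _ _).trans (mul_le_mul_of_nonneg_right (mul_le_mul hS.b hv' (norm_nonneg _) hmm0) hd)
    refine norm_add₃_le.trans ?_
    have g4 : 11 * (mm k * ‖y - y'‖) ≤ 11 * (2 * C * lam * ‖y - y'‖) := by
      have := mul_le_mul_of_nonneg_right hm hd
      linarith
    linarith
  have hbig : ∀ a : ℝ, a ≤ 62 * C → ∀ x : ℝ, 0 ≤ x → a * x ≤ (62 * C + A) * x := by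
    intro a ha x hx
    exact mul_le_mul_of_nonneg_right (by linarith) hx
  refine ⟨⟨nx, Good, ?_, fun k ν c h => (hnx k ν c h).1, ?_, ?_, ?_, ?_, ?_, ?_, ?_, ?_, ?_⟩⟩
  · -- the root
    rw [hGood]
    refine ⟨⟨T.e, T.e, 1, 0, 1, 0⟩, ?_, ?_, ?_⟩
    · have : (Cn.Ψ (⟨T.e, T.e, 1, 0, 1, 0⟩ : Cn n)) = id := by
        funext y
        simp [Cn.Ψ]
      rw [this]
      rfl
    · intro y hy
      have e1 : (Cn.Ψ (⟨T.e, T.e, 1, 0, 1, 0⟩ : Cn n)) y = y := by simp [Cn.Ψ]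
      have e2 : (Cn.u (⟨T.e, T.e, 1, 0, 1, 0⟩ : Cn n)) y = 1 := by simp [Cn.u]
      rw [e1, e2, one_mul]
      refine (T.osc y).trans ?_
      have g1 : ‖y - T.e‖ ^ 3 ≤ (rs lam 0 + ‖y - T.e‖) ^ 3 := by
        apply pow_le_pow_left₀ (norm_nonneg _)
        linarith [rs_pos hlam 0]
      exact mul_le_mul hTA g1 (by positivity) (by linarith)
    · have hmm0 : mm 0 = 0 := by rw [hmm, rs_zero]; ring
      rw [hmm0]
      have hb0 : ‖(0 : En n →L[ℂ] En n →L[ℂ] En n)‖ ≤ 0 := le_of_eq (norm_zero (E := En n →L[ℂ] En n →L[ℂ] En n))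
      refine ⟨T.he, ?_, ?_, ?_, hb0, ?_, ?_⟩ <;> simp
  · intro k ν hG
    obtain ⟨ν₀, rfl, hQ, hS⟩ := (hGood k ν).mp hG
    exact hS.q1
  · intro k ν hG
    obtain ⟨ν₀, rfl, hQ, hS⟩ := (hGood k ν).mp hG
    have h5 := hbig (2 * C) (by linarith) lam hlam.le
    exact hS.qe.trans ((hmm1 k).trans h5)
  · intro k ν hG
    obtain ⟨ν₀, rfl, hQ, hS⟩ := (hGood k ν).mp hG
    have hd : Differentiable ℂ (fun y : En n => y - ν₀.q) := differentiable_id.sub_const _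
    have h5 : Differentiable ℂ (fun y : En n => ν₀.L (y - ν₀.q)) := ν₀.L.differentiable.comp hd
    have h6 : Differentiable ℂ (fun y : En n => ν₀.b (y - ν₀.q)) := ν₀.b.differentiable.comp hd
    have h7 : Differentiable ℂ (fun y : En n => ν₀.b (y - ν₀.q) (y - ν₀.q)) := h6.clm_apply hd
    exact (h5.const_add _).add h7
  · intro k ν hG y y' hy hy'
    refine (hlip k ν hG y y' hy hy').trans ?_
    have h5 := hbig (22 * C) (by linarith) (lam * ‖y - y'‖) (by positivity)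
    linarith
  · intro k ν hG y hy
    obtain ⟨ν₀, rfl, hQ, hS⟩ := (hGood k ν).mp hG
    change ‖ν₀.Ψ y - y‖ ≤ _
    have e : ν₀.Ψ y - y = (ν₀.x - ν₀.q) + (ν₀.L - 1) (y - ν₀.q) + ν₀.b (y - ν₀.q) (y - ν₀.q) := by
      unfold Cn.Ψ
      simp only [_root_.sub_apply, one_apply_eq_self]
      abel
    rw [e]
    have hv : ‖y - ν₀.q‖ ≤ 5 := by
      refine (norm_sub_le _ _).trans ?_
      rw [hS.q1]
      linarith
    have hmm0 : 0 ≤ mm k := (norm_nonneg _).trans hS.x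
    have g1 : ‖(ν₀.L - 1) (y - ν₀.q)‖ ≤ mm k * 5 :=
      ((ν₀.L - 1).le_opNorm _).trans (mul_le_mul hS.L hv (norm_nonneg _) hmm0)
    have g2 : ‖ν₀.b (y - ν₀.q) (y - ν₀.q)‖ ≤ mm k * 5 * 5 :=
      (ν₀.b.le_opNorm₂ _ _).trans (mul_le_mul (mul_le_mul hS.b hv (norm_nonneg _) hmm0) hv (norm_nonneg _) (by positivity))
    refine norm_add₃_le.trans ?_
    have g3 := hS.x
    have g4 := hmm1 k
    have h5 := hbig (62 * C) le_rfl lam hlam.le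
    linarith
  · intro k ν hG
    obtain ⟨ν₀, rfl, hQ, hS⟩ := (hGood k ν).mp hG
    refine ⟨ν₀.u, fun y hy => ?_, fun y hy => ?_⟩
    · have hv : ‖y - ν₀.q‖ ≤ 3 := by
        refine (norm_sub_le _ _).trans ?_
        rw [hS.q1]
        linarith
      have hmm0 : 0 ≤ mm k := (norm_nonneg _).trans hS.x
      have e : ν₀.u y - 1 = (ν₀.u0 - 1) + 2 * (ν₀.l (y - ν₀.q)).re := by
        unfold Cn.u
        ring
      have g1 : |(ν₀.l (y - ν₀.q)).re| ≤ mm k * 3 := (Complex.abs_re_le_norm _).trans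
        ((ν₀.l.le_opNorm _).trans (mul_le_mul hS.l hv (norm_nonneg _) hmm0))
      rw [e]
      refine (abs_add_le _ _).trans ?_
      rw [abs_mul, abs_of_pos (by norm_num : (0 : ℝ) < 2)]
      have g2 := hS.u
      have g4 := hmm1 k
      have h5 := hbig (14 * C) (by linarith) lam hlam.le
      linarith
    · have hv : ‖y - ν₀.q‖ ≤ 3 := by
        refine (norm_sub_le _ _).trans ?_
        rw [hS.q1]
        linarith
      refine (hQ y (by linarith)).trans ?_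
      have h5 : 0 ≤ (rs lam k + ‖y - ν₀.q‖) ^ 3 := by
        have := rs_pos hlam k
        positivity
      exact mul_le_mul_of_nonneg_right (by linarith) h5
  · intro k ν w hG hw hwq
    obtain ⟨c, hc⟩ : ∃ c, c = cell (rs lam (k + 1)) (sh (k + 1)) (ν.Ψ w) := ⟨_, rfl⟩
    rw [← hc]
    obtain ⟨a1, a2, a3⟩ := (hnx k ν c hG).2.1 ⟨w, hw, hwq, hc.symm⟩
    have hrk := rs_pos hlam (k + 1)
    have hdiam := cell_diam hrk (sh (k + 1)) (x := ν.Ψ w) (y := ν.Ψ (nx k ν c).q) (by rw [a3, hc])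
    have hl := hlip k ν hG w (nx k ν c).q (by linarith) (by linarith)
    have hsmall : 22 * C * lam ≤ 1 / 2 := by
      have : 22 * C * lam ≤ 11 * m₁ := by linarith
      linarith
    have h5 := mul_le_mul_of_nonneg_right hsmall (norm_nonneg (w - (nx k ν c).q))
    have h6 : ‖w - (nx k ν c).q‖ ≤ ‖ν.Ψ w - ν.Ψ (nx k ν c).q‖ + ‖ν.Ψ w - ν.Ψ (nx k ν c).q - (w - (nx k ν c).q)‖ := by
      have e : w - (nx k ν c).q = (ν.Ψ w - ν.Ψ (nx k ν c).q) - (ν.Ψ w - ν.Ψ (nx k ν c).q - (w - (nx k ν c).q)) := by abel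
      calc ‖w - (nx k ν c).q‖ = ‖(ν.Ψ w - ν.Ψ (nx k ν c).q) - (ν.Ψ w - ν.Ψ (nx k ν c).q - (w - (nx k ν c).q))‖ := by rw [← e]
        _ ≤ _ := norm_sub_le _ _
    unfold kn
    linarith
  · intro k ν c hG y hy
    refine ((hnx k ν c hG).2.2 y hy).1.trans ?_
    have hrk := rs_pos hlam k
    exact hbig C (by linarith) _ (by positivity)
  · intro k ν c hG y hy
    refine ((hnx k ν c hG).2.2 y hy).2.trans ?_
    have hrk := rs_pos hlam k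
    exact hbig C (by linarith) _ (by positivity)

end Pool.Agent.MPca0fc2.EQ
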