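import Pool.Agent.Lib.MP_ca0fc2_an.Mg.G082
import Mathlib
import Pool.Agent.Lib.MP_ca0fc2_an.CXKC

/-! Campaign EQ, task A2: the geometry of a strongly convex domain, with the comparison of the pseudodistance. -/

set_option autoImplicit false

open Metric Set MeasureTheory Filter Topology
open scoped ComplexOrder

namespace Pool.Agent.MPca0fc2.EQ

open Pool.Agent.MPca0fc2
open Pool.Agent.MPca0fc2.TB (En)

variable {n : ℕ}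

/-- The geometry of the domain (as `CX.Dm.exists_geo`, with the comparisons).
PROOF. Copy the proof of `CX.Dm.exists_geo` (CXKD.lean): there `𝓖.q a b = c₁ * (‖A a b‖ + ‖A b a‖)` with `c₁ > 0`. Add the last part: `𝓓.A_lower` gives
`-ρ w ≤ C ‖A w x‖`, `‖w - x‖² ≤ C ‖A w x‖`, `‖pr x (w - x)‖ ≤ C ‖A w x‖` (`w`, `x` with `ρ ≤ 0`: `g_le_one`, `g_lt_one`), `𝓓.g_comp`: `1 - g w ≤ C' (-ρ w)`,
and `‖A w x‖ ≤ 𝓖.q w x / c₁`. `Cq = 1 + (C' + 1) C / c₁` or similar. -/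
theorem dm_geo (hn : 1 ≤ n) (𝓓 : CX.Dm n) : ∃ (𝓖 : CX.Geo (En n)) (P : (En n → ℂ) → En n → ℂ) (CK Cq : ℝ),
    𝓖.g = 𝓓.g ∧ 𝓖.Ker P CK ∧ 1 ≤ Cq ∧ ∀ w x, 𝓓.g w < 1 → 𝓓.g x < 1 →
      1 - 𝓓.g w ≤ Cq * 𝓖.q w x ∧ ‖w - x‖ ^ 2 ≤ Cq * 𝓖.q w x ∧ ‖𝓓.pr x (w - x)‖ ≤ Cq * 𝓖.q w x := by
  obtain ⟨C, hC1, hC⟩ := 𝓓.g_comp
  obtain ⟨CA, hCA1, hCA⟩ := 𝓓.A_lower
  obtain ⟨R, hR1, hR⟩ := 𝓓.norm_le_g
  obtain ⟨Cosc, hCosc1, hCosc⟩ := 𝓓.osc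
  have hC0 : 0 < C := by linarith
  set c₁ : ℝ := 1 / (2 * C) with hc₁
  have hc₁0 : 0 < c₁ := by positivity
  have hcc : ∀ z, 𝓓.ρ z ≤ 0 → 2 * c₁ * (-𝓓.ρ z) ≤ 1 - 𝓓.g z := by
    intro z hz
    have h1 := (hC z hz).2
    have h2 : 2 * c₁ * (-𝓓.ρ z) = (-𝓓.ρ z) / C := by
      rw [hc₁]
      field_simp
    rw [h2, div_le_iff₀ hC0]
    linarith
  obtain ⟨CK, hCK0, hCK⟩ := 𝓓.ker1 (le_refl 2) hc₁0 hcc
  have hD : {w | 𝓓.g w < 1} = 𝓓.D := by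
    ext w
    exact 𝓓.g_lt_one w
  set Co : ℝ := Cosc * (1 / c₁) ^ (1 / 4 : ℝ) + 1 with hCo
  have hCo0 : 0 ≤ Cosc * (1 / c₁) ^ (1 / 4 : ℝ) :=
    mul_nonneg (by linarith) (Real.rpow_nonneg (by positivity) _)
  refine ⟨{ g := 𝓓.g
            q := fun a b => c₁ * (‖𝓓.A a b‖ + ‖𝓓.A b a‖)
            R₀ := R
            Co := Co
            R₀_ge := hR1
            Co_ge := by linarith
            g_nonneg := 𝓓.g_nonneg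
            g_smul := fun t z ht => 𝓓.g_smul t ht z
            g_add := 𝓓.g_add
            g_le := 𝓓.g_le
            norm_le := hR
            q_nonneg := fun a b => by positivity
            q_symm := fun a b => by rw [add_comm]
            osc := ?_ }, 𝓓.P 2, CK, 1 + (C + 1) * CA / c₁, rfl, ?_, ?_, ?_⟩
  · intro t G B ht ht1 hB hG hGB a b ha hb
    refine (hCosc t G B ht ht1 hB hG hGB a b ((𝓓.g_le_one a).1 ha) ((𝓓.g_le_one b).1 hb)).trans ?_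
    have h1 : ‖𝓓.A a b‖ / t ≤ (1 / c₁) * (c₁ * (‖𝓓.A a b‖ + ‖𝓓.A b a‖) / t) := by
      have h2 : (1 / c₁) * (c₁ * (‖𝓓.A a b‖ + ‖𝓓.A b a‖) / t) = (‖𝓓.A a b‖ + ‖𝓓.A b a‖) / t := by
        field_simp
      rw [h2]
      have := norm_nonneg (𝓓.A b a)
      gcongr
      linarith
    have hq0 : 0 ≤ c₁ * (‖𝓓.A a b‖ + ‖𝓓.A b a‖) / t := by positivity
    have h3 : (‖𝓓.A a b‖ / t) ^ (1 / 4 : ℝ) ≤
        (1 / c₁) ^ (1 / 4 : ℝ) * (c₁ * (‖𝓓.A a b‖ + ‖𝓓.A b a‖) / t) ^ (1 / 4 : ℝ) := by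
      rw [← Real.mul_rpow (by positivity) hq0]
      exact Real.rpow_le_rpow (by positivity) h1 (by norm_num)
    have hx0 : 0 ≤ (c₁ * (‖𝓓.A a b‖ + ‖𝓓.A b a‖) / t) ^ (1 / 4 : ℝ) := Real.rpow_nonneg hq0 _
    set x := (c₁ * (‖𝓓.A a b‖ + ‖𝓓.A b a‖) / t) ^ (1 / 4 : ℝ)
    calc Cosc * B * (‖𝓓.A a b‖ / t) ^ (1 / 4 : ℝ)
        ≤ Cosc * B * ((1 / c₁) ^ (1 / 4 : ℝ) * x) :=
          mul_le_mul_of_nonneg_left h3 (mul_nonneg (by linarith) hB)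
      _ = (Cosc * (1 / c₁) ^ (1 / 4 : ℝ)) * (B * x) := by ring
      _ ≤ Co * (B * x) := mul_le_mul_of_nonneg_right (by linarith) (mul_nonneg hB hx0)
      _ ≤ 24 * Co * B * x := by
          have : 0 ≤ Co * (B * x) := mul_nonneg (by linarith) (mul_nonneg hB hx0)
          nlinarith
  · refine ⟨hCK0, ?_, ?_⟩
    · intro t X z F Φ G G' MΦ ht ht1 hX h1 h2 hG hG' hF hFG hΦ hΦM hFΦ
      simp only [CX.Geo.B] at hF hFG hΦ hΦM hFΦ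
      rw [hD] at hF
      exact hCK t X z F Φ G G' MΦ ht ht1 hX h1 h2 hG hG' hF
        (fun w hw => hFG w ((𝓓.g_lt_one w).2 hw))
        (hΦ.mono fun w hw => ⟨(𝓓.g_lt_one w).2 hw.1, hw.2⟩)
        (fun w hw h => hΦM w ((𝓓.g_lt_one w).2 hw) h)
        (fun w hw h => hFΦ w ((𝓓.g_lt_one w).2 hw) h)
    · intro F C' hF hC'
      simp only [CX.Geo.B] at hF hC' ⊢
      rw [hD] at hF ⊢
      exact 𝓓.P_holo 2 (hF.aestronglyMeasurable 𝓓.isOpen_D.measurableSet)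
        fun w hw => hC' w ((𝓓.g_lt_one w).2 hw)
  · have : 0 ≤ (C + 1) * CA / c₁ := by positivity
    linarith
  · intro w x hw hx
    have hw' : 𝓓.ρ w < 0 := (𝓓.g_lt_one w).1 hw
    have hx' : 𝓓.ρ x < 0 := (𝓓.g_lt_one x).1 hx
    obtain ⟨h1, _, h3, _, h5, _⟩ := hCA w x hw'.le hx'.le
    have hg := (hC w hw'.le).1
    obtain ⟨a, ha⟩ : ∃ a, a = ‖𝓓.A w x‖ := ⟨_, rfl⟩
    obtain ⟨a', ha'⟩ : ∃ a', a' = ‖𝓓.A x w‖ := ⟨_, rfl⟩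
    have ha0 : 0 ≤ a := by
      rw [ha]
      exact norm_nonneg _
    have ha0' : 0 ≤ a' := by
      rw [ha']
      exact norm_nonneg _
    show 1 - 𝓓.g w ≤ (1 + (C + 1) * CA / c₁) * (c₁ * (‖𝓓.A w x‖ + ‖𝓓.A x w‖)) ∧
      ‖w - x‖ ^ 2 ≤ (1 + (C + 1) * CA / c₁) * (c₁ * (‖𝓓.A w x‖ + ‖𝓓.A x w‖)) ∧
      ‖𝓓.pr x (w - x)‖ ≤ (1 + (C + 1) * CA / c₁) * (c₁ * (‖𝓓.A w x‖ + ‖𝓓.A x w‖))
    rw [← ha, ← ha']
    rw [← ha] at h1 h3 h5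
    have hkey : (C + 1) * (CA * a) ≤ (1 + (C + 1) * CA / c₁) * (c₁ * (a + a')) := by
      have e1 : (1 + (C + 1) * CA / c₁) * (c₁ * (a + a')) =
          c₁ * (a + a') + (C + 1) * CA * (a + a') := by
        field_simp
      rw [e1]
      have e2 : 0 ≤ c₁ * (a + a') := by positivity
      have e3 : 0 ≤ (C + 1) * CA * a' := by positivity
      nlinarith
    have hCa : 0 ≤ CA * a := mul_nonneg (by linarith) ha0
    have h6 : CA * a ≤ (C + 1) * (CA * a) := by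
      nlinarith
    have h7 : C * (CA * a) ≤ (C + 1) * (CA * a) := by
      nlinarith
    have h8 : 1 - 𝓓.g w ≤ C * (CA * a) :=
      hg.trans (mul_le_mul_of_nonneg_left h1 hC0.le)
    exact ⟨h8.trans (h7.trans hkey), h3.trans (h6.trans hkey), h5.trans (h6.trans hkey)⟩

end Pool.Agent.MPca0fc2.EQ
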