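import Pool.Agent.Lib.MP_ca0fc2_an.Mg.G082
import Mathlib
import Pool.Agent.Lib.MP_ca0fc2_an.CXKC

/-! Campaign EQ, task A3: elementary facts on the domains `Tg`. -/

set_option autoImplicit false

open Metric Set Filter Topology

namespace Pool.Agent.MPca0fc2.EQ

open Pool.Agent.MPca0fc2
open Pool.Agent.MPca0fc2.TB (En)

variable {n : ℕ}

/-- `dρ = 2 Re ∂ρ`, and `∂ρ` is complex linear. -/
theorem pd_re (ρ : En n → ℝ) (x w : En n) : fderiv ℝ ρ x w = 2 * (pd ρ x w).re := by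
  unfold pd
  simp
  ring

theorem pd_add (ρ : En n → ℝ) (x v w : En n) : pd ρ x (v + w) = pd ρ x v + pd ρ x w := by
  unfold pd
  rw [smul_add, map_add, map_add]
  push_cast
  ring

/-- PROOF. `fderiv ℝ ρ x` is real linear; write `a = α + β i`: `a • w = α • w + β • I • w`, `I • a • w = α • I • w - β • w`. -/
theorem pd_smul (ρ : En n → ℝ) (x w : En n) (a : ℂ) : pd ρ x (a • w) = a * pd ρ x w := by
  have h1 : a • w = a.re • w + a.im • (Complex.I • w) := by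
    have h : a = (a.re : ℂ) + (a.im : ℂ) * Complex.I := (Complex.re_add_im a).symm
    conv_lhs => rw [h]
    rw [add_smul, mul_smul, Complex.coe_smul, Complex.coe_smul]
  have h2 : Complex.I • a • w = a.re • (Complex.I • w) - a.im • w := by
    rw [h1, smul_add, smul_comm Complex.I a.re w, smul_comm Complex.I a.im (Complex.I • w),
      smul_smul Complex.I Complex.I, Complex.I_mul_I, neg_one_smul, smul_neg, sub_eq_add_neg]
  unfold pd
  rw [h2, h1, map_add, map_sub, (fderiv ℝ ρ x).map_smul, (fderiv ℝ ρ x).map_smul,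
    (fderiv ℝ ρ x).map_smul, (fderiv ℝ ρ x).map_smul]
  simp only [smul_eq_mul]
  apply Complex.ext <;> simp <;> ring

theorem pd_neg (ρ : En n → ℝ) (x w : En n) : pd ρ x (-w) = -pd ρ x w := by
  have h := pd_smul ρ x w (-1)
  rw [neg_one_smul, neg_one_mul] at h
  exact h

/-- PROOF. `‖pd‖ ≤ (‖dρ w‖ + ‖dρ (I w)‖)/2`. -/
theorem pd_le (ρ : En n → ℝ) (x w : En n) : ‖pd ρ x w‖ ≤ ‖fderiv ℝ ρ x‖ * ‖w‖ := by
  have h1 := (fderiv ℝ ρ x).le_opNorm w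
  have h2 := (fderiv ℝ ρ x).le_opNorm (Complex.I • w)
  rw [norm_smul, Complex.norm_I, one_mul] at h2
  unfold pd
  rw [norm_div, Complex.norm_two]
  have h3 : ‖((fderiv ℝ ρ x w : ℝ) : ℂ) - Complex.I * ((fderiv ℝ ρ x (Complex.I • w) : ℝ) : ℂ)‖ ≤
      ‖fderiv ℝ ρ x w‖ + ‖fderiv ℝ ρ x (Complex.I • w)‖ := by
    refine (norm_sub_le _ _).trans ?_
    rw [norm_mul, Complex.norm_I, one_mul, Complex.norm_real, Complex.norm_real]
  linarith

theorem pd_sub_le (ρ : En n → ℝ) (x y w : En n) : ‖pd ρ x w - pd ρ y w‖ ≤ ‖fderiv ℝ ρ x - fderiv ℝ ρ y‖ * ‖w‖ := by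
  have h1 := (fderiv ℝ ρ x - fderiv ℝ ρ y).le_opNorm w
  have h2 := (fderiv ℝ ρ x - fderiv ℝ ρ y).le_opNorm (Complex.I • w)
  rw [norm_smul, Complex.norm_I, one_mul] at h2
  have e1 : (fderiv ℝ ρ x - fderiv ℝ ρ y) w = fderiv ℝ ρ x w - fderiv ℝ ρ y w := rfl
  have e2 : (fderiv ℝ ρ x - fderiv ℝ ρ y) (Complex.I • w) =
    fderiv ℝ ρ x (Complex.I • w) - fderiv ℝ ρ y (Complex.I • w) := rfl
  have h4 : pd ρ x w - pd ρ y w = ((((fderiv ℝ ρ x - fderiv ℝ ρ y) w : ℝ) : ℂ) -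
      Complex.I * (((fderiv ℝ ρ x - fderiv ℝ ρ y) (Complex.I • w) : ℝ) : ℂ)) / 2 := by
    rw [e1, e2]
    unfold pd
    push_cast
    ring
  rw [h4, norm_div, Complex.norm_two]
  have h3 : ‖((((fderiv ℝ ρ x - fderiv ℝ ρ y) w : ℝ) : ℂ) -
      Complex.I * (((fderiv ℝ ρ x - fderiv ℝ ρ y) (Complex.I • w) : ℝ) : ℂ))‖ ≤
      ‖(fderiv ℝ ρ x - fderiv ℝ ρ y) w‖ + ‖(fderiv ℝ ρ x - fderiv ℝ ρ y) (Complex.I • w)‖ := by
    refine (norm_sub_le _ _).trans ?_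
    rw [norm_mul, Complex.norm_I, one_mul, Complex.norm_real, Complex.norm_real]
  linarith

/-- For the domains `Tg`: `‖∂ρ_y w - ⟨w, y⟩‖ ≤ C ‖y - e‖² ‖w‖`.
PROOF. `osc1` for `w` and `I • w`: `(inner ℂ y (I • w)).re = -(inner ℂ y w).im`. So real and imaginary part of `pd - inner ℂ y w` are `≤ C ‖y - e‖² ‖w‖ / 2`. -/
theorem pd_inner (T : Tg n) (y w : En n) : ‖pd T.ρ y w - inner ℂ y w‖ ≤ T.C * ‖y - T.e‖ ^ 2 * ‖w‖ := by
  have h1 := T.osc1 y w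
  have h2 := T.osc1 y (Complex.I • w)
  rw [norm_smul, Complex.norm_I, one_mul, inner_smul_right] at h2
  have h3 : (Complex.I * inner ℂ y w).re = -(inner ℂ y w : ℂ).im := by simp
  rw [h3] at h2
  have hre : (pd T.ρ y w - inner ℂ y w).re = (fderiv ℝ T.ρ y w - 2 * (inner ℂ y w : ℂ).re) / 2 := by
    unfold pd
    simp
    ring
  have him : (pd T.ρ y w - inner ℂ y w).im =
      -((fderiv ℝ T.ρ y (Complex.I • w) - 2 * -(inner ℂ y w : ℂ).im) / 2) := by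
    unfold pd
    simp
    ring
  refine (Complex.norm_le_abs_re_add_abs_im _).trans ?_
  rw [hre, him, abs_neg, abs_div, abs_div, abs_two]
  linarith

/-- PROOF. `d1` and `osc1` at `e`: `|fderiv ℝ ρ e w| ≤ 2 ‖w‖`. -/
theorem fd_le (T : Tg n) (x : En n) : ‖fderiv ℝ T.ρ x‖ ≤ 2 + T.C * ‖x - T.e‖ := by
  have h1 := T.d1 x T.e
  have h2 : ‖fderiv ℝ T.ρ T.e‖ ≤ 2 := by
    refine ContinuousLinearMap.opNorm_le_bound _ (by norm_num) fun w => ?_
    have h3 := T.osc1 T.e w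
    rw [sub_self, norm_zero] at h3
    have h4 : fderiv ℝ T.ρ T.e w = 2 * (inner ℂ T.e w : ℂ).re := by
      have h5 : T.C * 0 ^ 2 * ‖w‖ = 0 := by ring
      rw [h5] at h3
      have h6 := abs_nonpos_iff.1 h3
      linarith
    rw [h4, Real.norm_eq_abs, abs_mul, abs_two]
    have h7 : |(inner ℂ T.e w : ℂ).re| ≤ ‖T.e‖ * ‖w‖ :=
      (Complex.abs_re_le_norm _).trans (norm_inner_le_norm _ _)
    rw [T.he, one_mul] at h7
    linarith
  have h8 : fderiv ℝ T.ρ x = fderiv ℝ T.ρ T.e + (fderiv ℝ T.ρ x - fderiv ℝ T.ρ T.e) := by abel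
  calc ‖fderiv ℝ T.ρ x‖ = ‖fderiv ℝ T.ρ T.e + (fderiv ℝ T.ρ x - fderiv ℝ T.ρ T.e)‖ := by
        rw [← h8]
    _ ≤ ‖fderiv ℝ T.ρ T.e‖ + ‖fderiv ℝ T.ρ x - fderiv ℝ T.ρ T.e‖ := norm_add_le _ _
    _ ≤ 2 + T.C * ‖x - T.e‖ := add_le_add h2 h1

private theorem A3_fd (T : Tg n) (w v : En n) :
    fderiv ℝ (fun z : En n => T.ρ ((1 / 2 : ℝ) • z)) w v =
      fderiv ℝ T.ρ ((1 / 2 : ℝ) • w) ((1 / 2 : ℝ) • v) := by
  have h1 : HasFDerivAt T.ρ (fderiv ℝ T.ρ ((1 / 2 : ℝ) • w)) ((1 / 2 : ℝ) • w) :=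
    (T.sm.differentiable (by norm_num) _).hasFDerivAt
  have h2 : HasFDerivAt (fun z : En n => (1 / 2 : ℝ) • z)
      ((1 / 2 : ℝ) • ContinuousLinearMap.id ℝ (En n)) w :=
    (hasFDerivAt_id w).const_smul (1 / 2 : ℝ)
  have h3 := h1.comp w h2
  have h4 : fderiv ℝ (fun z : En n => T.ρ ((1 / 2 : ℝ) • z)) w =
      (fderiv ℝ T.ρ ((1 / 2 : ℝ) • w)).comp ((1 / 2 : ℝ) • ContinuousLinearMap.id ℝ (En n)) :=
    h3.fderiv
  rw [h4]
  rfl

private noncomputable def A3_dm (T : Tg n) : CX.Dm n where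
  ρ := fun z => T.ρ ((1 / 2 : ℝ) • z)
  sm := T.sm.comp (contDiff_const_smul (1 / 2 : ℝ))
  c := T.c / 4
  cpos := div_pos T.cpos (by norm_num)
  conv := by
    intro w z
    have h := T.conv ((1 / 2 : ℝ) • w) ((1 / 2 : ℝ) • z)
    rw [← smul_sub, norm_smul] at h
    rw [A3_fd]
    have h1 : ‖(1 / 2 : ℝ)‖ = 1 / 2 := by norm_num
    rw [h1] at h
    have h2 : T.c / 4 * ‖z - w‖ ^ 2 = T.c * (1 / 2 * ‖z - w‖) ^ 2 := by ring
    rw [h2]
    exact h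
  min0 := by
    intro z
    rw [smul_zero]
    exact T.min0 _
  unit := by
    intro z hz
    apply T.half
    rw [norm_smul]
    have h1 : ‖(1 / 2 : ℝ)‖ = 1 / 2 := by norm_num
    rw [h1]
    linarith

private theorem A3_pr (𝓓 : CX.Dm n) (x v : En n) : 𝓓.pr x v = pd 𝓓.ρ x v := by
  have h1 := 𝓓.fderiv_pr x v
  have h2 := 𝓓.fderiv_pr x (Complex.I • v)
  have h3 : 𝓓.pr x (Complex.I • v) = Complex.I * 𝓓.pr x v := by
    unfold CX.Dm.pr
    rw [Finset.mul_sum]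
    refine Finset.sum_congr rfl fun j _ => ?_
    have h : (Complex.I • v) j = Complex.I * v j := rfl
    rw [h]
    ring
  rw [h3] at h2
  unfold pd
  rw [h1, h2]
  apply Complex.ext <;> simp

open scoped Pointwise in
private theorem A3_g (T : Tg n) (z : En n) : gauge (A3_dm T).D z = T.g ((1 / 2 : ℝ) • z) := by
  have h1 : (A3_dm T).D = (2 : ℝ) • T.D := by
    ext y
    rw [mem_smul_set_iff_inv_smul_mem₀ (by norm_num : (2 : ℝ) ≠ 0)]
    have h2 : (2 : ℝ)⁻¹ = 1 / 2 := by norm_num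
    rw [h2]
    rfl
  unfold Tg.g
  rw [h1, gauge_smul_left_of_nonneg (by norm_num : (0 : ℝ) ≤ 2), Pi.smul_apply,
    gauge_smul_of_nonneg (by norm_num : (0 : ℝ) ≤ 1 / 2)]
  norm_num

/-- The domain `2 D` as a strongly convex domain of the library.
PROOF. `ρ' z = T.ρ ((1/2) • z)`, `c' = T.c / 4`: `fderiv ρ' w v = fderiv T.ρ (w/2) (v/2)`. `unit`: `half`. -/
theorem exists_dm (T : Tg n) : ∃ 𝓓 : CX.Dm n, (∀ z, 𝓓.ρ z = T.ρ ((1 / 2 : ℝ) • z)) ∧ (∀ z, 𝓓.g z = T.g ((1 / 2 : ℝ) • z)) ∧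
    ∀ x v, 𝓓.pr x v = pd T.ρ ((1 / 2 : ℝ) • x) v / 2 := by
  refine ⟨A3_dm T, fun z => rfl, fun z => ?_, fun x v => ?_⟩
  · exact A3_g T z
  · rw [A3_pr]
    have h1 : (A3_dm T).ρ = fun z : En n => T.ρ ((1 / 2 : ℝ) • z) := rfl
    rw [h1]
    unfold pd
    rw [A3_fd, A3_fd, map_smul, map_smul]
    simp only [smul_eq_mul]
    push_cast
    ring

/-- PROOF. From `exists_dm` and the facts on `CX.Dm` (CXGeoA, CXGeoC): `isOpen_D`, `geoC_convex`, `exists_R`, `g_lt_one`, `g_le_one`, `geoC_smul`, `g_nonneg`, `g_add`, `g_le`, `norm_le_g`, `g_comp`. -/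
theorem tg_basic (T : Tg n) : IsOpen T.D ∧ Convex ℝ T.D ∧ Continuous T.g ∧ (∀ z, T.g z < 1 ↔ T.ρ z < 0) ∧
    (∀ z, 0 ≤ T.g z) ∧ (∀ (t : ℝ) z, 0 ≤ t → T.g (t • z) = t * T.g z) ∧ (∀ x y, T.g (x + y) ≤ T.g x + T.g y) ∧
    (∀ z, T.g z ≤ 2 * ‖z‖) ∧
    ∃ C : ℝ, 1 ≤ C ∧ (∀ z, ‖z‖ ≤ C * T.g z) ∧ ∀ z, T.ρ z ≤ 0 → 1 - T.g z ≤ C * (-T.ρ z) ∧ -T.ρ z ≤ C * (1 - T.g z) := by
  obtain ⟨𝓓, hρ, hg, -⟩ := exists_dm T
  have h2 : ∀ z : En n, (1 / 2 : ℝ) • ((2 : ℝ) • z) = z := by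
    intro z
    rw [smul_smul]
    norm_num
  have hρ' : ∀ z, T.ρ z = 𝓓.ρ ((2 : ℝ) • z) := by
    intro z
    rw [hρ, h2]
  have hg' : ∀ z, T.g z = 𝓓.g ((2 : ℝ) • z) := by
    intro z
    rw [hg, h2]
  have hn : ∀ z : En n, ‖(2 : ℝ) • z‖ = 2 * ‖z‖ := by
    intro z
    rw [norm_smul]
    norm_num
  have hopen : IsOpen T.D := isOpen_lt T.sm.continuous continuous_const
  have hconv : Convex ℝ T.D := by
    have h3 : T.D = (fun z : En n => (2 : ℝ) • z) ⁻¹' 𝓓.D := by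
      ext z
      change T.ρ z < 0 ↔ 𝓓.ρ ((2 : ℝ) • z) < 0
      rw [hρ']
    rw [h3]
    exact 𝓓.geoC_convex.smul_preimage 2
  have hnh : T.D ∈ 𝓝 (0 : En n) := hopen.mem_nhds (T.half 0 (by rw [norm_zero]; norm_num))
  refine ⟨hopen, hconv, continuous_gauge hconv hnh, ?_, fun z => gauge_nonneg z, ?_, ?_, ?_, ?_⟩
  · intro z
    rw [hg', hρ']
    exact 𝓓.g_lt_one _
  · intro t z ht
    unfold Tg.g
    rw [gauge_smul_of_nonneg ht]
    rfl
  · intro x y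
    exact gauge_add_le hconv (absorbent_nhds_zero hnh) x y
  · intro z
    rw [hg', ← hn]
    exact 𝓓.g_le _
  · obtain ⟨R, hR1, hR⟩ := 𝓓.norm_le_g
    obtain ⟨C, hC1, hC⟩ := 𝓓.g_comp
    refine ⟨max R C, le_max_of_le_left hR1, ?_, ?_⟩
    · intro z
      have h4 := hR ((2 : ℝ) • z)
      rw [hn, ← hg'] at h4
      have h5 : 0 ≤ T.g z := gauge_nonneg z
      have h6 : R * T.g z ≤ max R C * T.g z := mul_le_mul_of_nonneg_right (le_max_left _ _) h5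
      linarith [norm_nonneg z]
    · intro z hz
      rw [hρ'] at hz
      obtain ⟨h4, h5⟩ := hC _ hz
      rw [← hρ', ← hg'] at h4 h5
      rw [← hρ'] at hz
      have h6 : T.g z ≤ 1 := by
        rw [hg']
        rw [hρ'] at hz
        exact (𝓓.g_le_one _).2 hz
      refine ⟨h4.trans ?_, h5.trans ?_⟩
      · exact mul_le_mul_of_nonneg_right (le_max_right _ _) (by linarith)
      · exact mul_le_mul_of_nonneg_right (le_max_right _ _) (by linarith)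

/-- In the domain `Re ⟨z - e, e⟩` is negative.
PROOF. `conv e z`: `ρ e = 0` (`osc e`), `fderiv ℝ ρ e w = 2 Re ⟨w, e⟩` (`osc1 e`): `2 Re ⟨z - e, e⟩ + c ‖z - e‖² ≤ ρ z`; `⟨z - e, e⟩ = ⟨z, e⟩ - 1`. -/
theorem re_zt (T : Tg n) (z : En n) : T.c * ‖z - T.e‖ ^ 2 - T.ρ z ≤ 2 * (zt T.e z).re := by
  have h := T.conv T.e z
  have h1 : T.ρ T.e = 0 := by
    have h2 := T.osc T.e
    rw [sub_self, norm_zero, T.he] at h2
    have h3 : T.C * 0 ^ 3 = 0 := by ring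
    rw [h3] at h2
    have h4 := abs_nonpos_iff.1 h2
    linarith
  have h5 : fderiv ℝ T.ρ T.e (z - T.e) = 2 * (inner ℂ T.e (z - T.e) : ℂ).re := by
    have h3 := T.osc1 T.e (z - T.e)
    have h5 : T.C * ‖T.e - T.e‖ ^ 2 * ‖z - T.e‖ = 0 := by rw [sub_self, norm_zero]; ring
    rw [h5] at h3
    have h6 := abs_nonpos_iff.1 h3
    linarith
  have h6 : (inner ℂ T.e T.e : ℂ) = 1 := by
    rw [inner_self_eq_norm_sq_to_K, T.he]
    norm_num
  rw [h1, h5, inner_sub_right, h6, Complex.sub_re, Complex.one_re] at h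
  unfold zt
  rw [Complex.sub_re, Complex.one_re]
  linarith

private theorem A3_nd (y w : En n) :
    fderiv ℝ (fun y : En n => ‖y‖ ^ 2 - 1) y w = 2 * (inner ℂ y w : ℂ).re := by
  have h1 := ((hasStrictFDerivAt_norm_sq y).hasFDerivAt.sub_const (1 : ℝ)).fderiv
  have h2 : (inner ℝ y w : ℝ) = (inner ℂ y w : ℂ).re := by
    rw [PiLp.inner_apply, PiLp.inner_apply, Complex.re_sum]
    refine Finset.sum_congr rfl fun i _ => ?_
    rw [Complex.inner, RCLike.inner_apply]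
  rw [h1, ← h2]
  simp [innerSL_apply_apply]

/-- The unit ball. PROOF. `ρ y = ‖y‖ ^ 2 - 1`, `c = 1`, `C = 2`; `fderiv ℝ ρ y w = 2 Re ⟨w, y⟩` (`hasStrictFDerivAt_norm_sq` or `inner ℝ`; the real inner product is the real part of `inner ℂ`); the second
derivative is constant. `g` is the norm: `gauge_unit_ball`-like lemma of Mathlib (`gauge_ball`, `D = ball 0 1`). -/
theorem exists_ball (e : En n) (he : ‖e‖ = 1) : ∃ T : Tg n, T.e = e ∧ (∀ y, T.ρ y = ‖y‖ ^ 2 - 1) ∧ T.D = ball 0 1 ∧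
    (∀ y, T.g y = ‖y‖) ∧ ∀ y w, pd T.ρ y w = inner ℂ y w := by
  have hsm : ContDiff ℝ 3 (fun y : En n => ‖y‖ ^ 2 - 1) := (contDiff_norm_sq ℝ).sub contDiff_const
  have hlin : ∀ x y : En n, fderiv ℝ (fun y : En n => ‖y‖ ^ 2 - 1) x -
      fderiv ℝ (fun y : En n => ‖y‖ ^ 2 - 1) y = fderiv ℝ (fun y : En n => ‖y‖ ^ 2 - 1) (x - y) := by
    intro x y
    ext w
    change fderiv ℝ (fun y : En n => ‖y‖ ^ 2 - 1) x w - fderiv ℝ (fun y : En n => ‖y‖ ^ 2 - 1) y w = _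
    rw [A3_nd, A3_nd, A3_nd, inner_sub_left, Complex.sub_re]
    ring
  have hb : ∀ x : En n, ‖fderiv ℝ (fun y : En n => ‖y‖ ^ 2 - 1) x‖ ≤ 2 * ‖x‖ := by
    intro x
    refine ContinuousLinearMap.opNorm_le_bound _ (by positivity) fun w => ?_
    rw [A3_nd, Real.norm_eq_abs, abs_mul, abs_two]
    have h7 : |(inner ℂ x w : ℂ).re| ≤ ‖x‖ * ‖w‖ :=
      (Complex.abs_re_le_norm _).trans (norm_inner_le_norm _ _)
    linarith
  have h2 : ∀ x y : En n, fderiv ℝ (fderiv ℝ (fun y : En n => ‖y‖ ^ 2 - 1)) x -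
      fderiv ℝ (fderiv ℝ (fun y : En n => ‖y‖ ^ 2 - 1)) y = 0 := by
    have hadd : ∀ a x : En n, fderiv ℝ (fun y : En n => ‖y‖ ^ 2 - 1) (x + a) =
        fderiv ℝ (fun y : En n => ‖y‖ ^ 2 - 1) x + fderiv ℝ (fun y : En n => ‖y‖ ^ 2 - 1) a := by
      intro a x
      have h := hlin (x + a) a
      rw [add_sub_cancel_right] at h
      rw [← h]
      abel
    intro x y
    have h3 : ∀ a : En n, fderiv ℝ (fderiv ℝ (fun y : En n => ‖y‖ ^ 2 - 1)) (y + a) =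
        fderiv ℝ (fderiv ℝ (fun y : En n => ‖y‖ ^ 2 - 1)) y := by
      intro a
      rw [← fderiv_comp_add_right]
      have h4 : (fun x : En n => fderiv ℝ (fun y : En n => ‖y‖ ^ 2 - 1) (x + a)) =
          fun x => fderiv ℝ (fun y : En n => ‖y‖ ^ 2 - 1) x +
            fderiv ℝ (fun y : En n => ‖y‖ ^ 2 - 1) a := by
        funext x
        exact hadd a x
      rw [h4, fderiv_add_const]
    have h5 := h3 (x - y)
    rw [add_sub_cancel] at h5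
    rw [h5, sub_self]
  refine ⟨⟨e, he, fun y => ‖y‖ ^ 2 - 1, hsm, 1, one_pos, ?_, ?_, ?_, 2, by norm_num, ?_, ?_, ?_, ?_⟩,
    rfl, fun y => rfl, ?_, ?_, ?_⟩
  · intro w z
    rw [A3_nd]
    have h3 : ‖z‖ ^ 2 = ‖w‖ ^ 2 + 2 * (inner ℂ w (z - w) : ℂ).re + ‖z - w‖ ^ 2 := by
      have h4 := @norm_add_sq ℂ _ _ _ _ w (z - w)
      rw [add_sub_cancel] at h4
      exact h4
    linarith
  · intro z
    have h3 : (0 : ℝ) ≤ ‖z‖ ^ 2 := sq_nonneg _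
    simp only [norm_zero]
    linarith
  · intro z hz
    have h3 := norm_nonneg z
    have h4 : ‖z‖ ^ 2 ≤ (1 / 2) ^ 2 := pow_le_pow_left₀ h3 hz 2
    change ‖z‖ ^ 2 - 1 < 0
    linarith
  · intro y
    rw [sub_self, abs_zero]
    positivity
  · intro y w
    rw [A3_nd, sub_self, abs_zero]
    positivity
  · intro x y
    rw [hlin]
    exact hb _
  · intro x y
    have h3 := norm_nonneg (x - y)
    have h4 : ‖fderiv ℝ (fderiv ℝ (fun y : En n => ‖y‖ ^ 2 - 1)) x -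
        fderiv ℝ (fderiv ℝ (fun y : En n => ‖y‖ ^ 2 - 1)) y‖ = 0 := by
      rw [h2 x y]
      exact ContinuousLinearMap.opNorm_zero
    rw [h4]
    linarith
  · ext y
    rw [mem_ball_zero_iff]
    change ‖y‖ ^ 2 - 1 < 0 ↔ _
    rw [sub_neg, sq_lt_one_iff₀ (norm_nonneg y)]
  · intro y
    have h3 : {z : En n | ‖z‖ ^ 2 - 1 < 0} = ball 0 1 := by
      ext y
      rw [mem_ball_zero_iff]
      change ‖y‖ ^ 2 - 1 < 0 ↔ _
      rw [sub_neg, sq_lt_one_iff₀ (norm_nonneg y)]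
    change gauge {z : En n | ‖z‖ ^ 2 - 1 < 0} y = ‖y‖
    rw [h3]
    exact gauge_unit_ball y
  · intro y w
    unfold pd
    rw [A3_nd, A3_nd, inner_smul_right]
    apply Complex.ext <;> simp

end Pool.Agent.MPca0fc2.EQ
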