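import Pool.Agent.Lib.MP_ca0fc2_an.EQ.A1
import Pool.Agent.Lib.MP_ca0fc2_an.EQ.A2
import Pool.Agent.Lib.MP_ca0fc2_an.EQ.A3

/-! Campaign EQ, task A4: almost holomorphic functions are near holomorphic functions, on the domains `Tg`. -/

set_option autoImplicit false

open Metric Set Filter Topology

namespace Pool.Agent.MPca0fc2.EQ

open Pool.Agent.MPca0fc2
open Pool.Agent.MPca0fc2.TB (En)

variable {n : ℕ}

private theorem A4_coord {N : ℕ} (x : En N) (i : Fin N) : ‖x i‖ ≤ ‖x‖ := PiLp.norm_apply_le x i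

private theorem A4_norm {N : ℕ} (x : En N) (B : ℝ) (h : ∀ i, ‖x i‖ ≤ B) : ‖x‖ ≤ N * B := by
  rw [EuclideanSpace.norm_eq]
  rcases Nat.eq_zero_or_pos N with hN | hN
  · subst hN
    simp
  · have hB : 0 ≤ B := (norm_nonneg _).trans (h ⟨0, hN⟩)
    have hN1 : (1 : ℝ) ≤ N := by exact_mod_cast hN
    have h1 : ∑ i, ‖x i‖ ^ 2 ≤ (N * B) ^ 2 := by
      calc ∑ i, ‖x i‖ ^ 2 ≤ ∑ _i : Fin N, B ^ 2 :=
            Finset.sum_le_sum fun i _ => pow_le_pow_left₀ (norm_nonneg _) (h i) 2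
        _ = N * B ^ 2 := by simp
        _ ≤ (N * B) ^ 2 := by
            rw [mul_pow]
            have : (N : ℝ) ≤ N ^ 2 := by nlinarith
            exact mul_le_mul_of_nonneg_right this (sq_nonneg B)
    exact Real.sqrt_le_iff.2 ⟨by positivity, h1⟩

/-- facts on the two radii -/
private theorem A4_rad (j : ℕ) (hj : 1 ≤ j) (a : ℝ) (ha : a = al j * be j ∨ a = al (j + 1) * be j) :
    0 ≤ a ∧ a < 1 ∧ 7 / 16 * (1 / 2 : ℝ) ^ j ≤ 1 - a ∧ 1 - a ≤ (1 / 2) ^ j := by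
  have ht : (0 : ℝ) < (1 / 2) ^ j := by positivity
  have ht1 : (1 / 2 : ℝ) ^ j ≤ 1 / 2 := by
    calc (1 / 2 : ℝ) ^ j ≤ (1 / 2) ^ 1 := pow_le_pow_of_le_one (by norm_num) (by norm_num) hj
      _ = 1 / 2 := by norm_num
  have hs : (1 / 2 : ℝ) ^ (j + 1) = (1 / 2) ^ j / 2 := by rw [pow_succ]; ring
  unfold al be at ha
  rw [hs] at ha
  set t : ℝ := (1 / 2) ^ j
  rcases ha with ha | ha
  · rw [ha]
    refine ⟨mul_nonneg (by linarith) (by linarith), ?_, ?_, ?_⟩ <;> nlinarith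
  · rw [ha]
    refine ⟨mul_nonneg (by linarith) (by linarith), ?_, ?_, ?_⟩ <;> nlinarith

/-- one component -/
private theorem A4_one (T : Tg n) (N : ℕ) : ∃ C : ℝ, 1 ≤ C ∧ ∀ (i : Fin N) (j₀ : ℕ) (F : En n → En N) (M L E₀ : ℝ), 1 ≤ j₀ → 0 ≤ M → 0 ≤ L → 0 ≤ E₀ →
    ContinuousOn F T.D → (∀ w ∈ T.D, ‖F w‖ ≤ M) →
    (∀ w ∈ T.D, ∀ h : ℝ, 0 ≤ h → h ≤ 1 → ‖F w - F ((1 - h) • w)‖ * (1 - T.g w) ≤ L * h) →
    (∀ j, j₀ ≤ j → ∀ v, 7 / 16 * (1 / 2 : ℝ) ^ j ≤ 1 - T.g v → 1 - T.g v ≤ 3 * ((1 / 2 : ℝ) ^ j) ^ (499 / 500 : ℝ) →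
      ∃ (G : En n → En N) (M' : ℝ), DifferentiableOn ℂ G (T.Reg C ((1 / 2) ^ j) v) ∧
        ∀ y ∈ T.Reg C ((1 / 2) ^ j) v, ‖G y‖ ≤ M' ∧ ‖F y - G y‖ ≤ ((1 / 2 : ℝ) ^ j) ^ (1 / 500 : ℝ)) →
    (∃ G₀ : En n → En N, DifferentiableOn ℂ G₀ {z | T.g z < be j₀} ∧
      ∀ z, T.g z < be j₀ → ‖G₀ z - F (al j₀ • z)‖ ≤ E₀) →
    ∃ Fs : En n → ℂ, DifferentiableOn ℂ Fs T.D ∧
      ∀ w ∈ T.D, ‖F w i - Fs w‖ ≤ E₀ + C * (L + 1) * ((1 / 2 : ℝ) ^ j₀) ^ (1 / 1000 : ℝ) := by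
  obtain ⟨𝓓, -, hg, hpr⟩ := exists_dm T
  have hn : 1 ≤ n := by
    by_contra h
    have h0 : n = 0 := by omega
    subst h0
    have h1 := T.he
    rw [EuclideanSpace.norm_eq] at h1
    simp at h1
  have hne : T.e ≠ 0 := by
    intro h
    have h1 := T.he
    rw [h, norm_zero] at h1
    norm_num at h1
  have : Nontrivial (En n) := ⟨⟨T.e, 0, hne⟩⟩
  obtain ⟨𝓖, P, CK, Cq, hGg, hK, hCq, hq⟩ := dm_geo hn 𝓓
  have hgg : ∀ z, 𝓖.g z = T.g ((1 / 2 : ℝ) • z) := fun z => by rw [hGg, hg]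
  have hq' : ∀ w x, 𝓖.g w < 1 → 𝓖.g x < 1 → 1 - 𝓖.g w ≤ Cq * 𝓖.q w x := by
    intro w x hw hx
    rw [hGg] at hw hx ⊢
    exact (hq w x hw hx).1
  obtain ⟨C₁, hC₁, hla⟩ := la_abs 𝓖 hK hCq hq'
  obtain ⟨hopen, -, hcont, hlt, hnn, hsm, -, -, R, hR, hRn, -⟩ := tg_basic T
  have hTC := T.one_le
  have hTC0 : 0 ≤ T.C := by linarith
  have hR0 : 0 ≤ R := by linarith
  have hCq0 : 0 ≤ Cq := by linarith
  have hK0 : 0 ≤ 8 * T.C * R * Cq := by positivity
  set CR : ℝ := 5 + 16 * Cq + 8 * T.C * R * Cq with hCR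
  refine ⟨max CR C₁, le_max_of_le_right hC₁, ?_⟩
  intro i j₀ F M L E₀ hj₀ hM hL hE₀ hFc hFM hrad hmain hstart
  have hB : ∀ w, w ∈ 𝓖.B 1 ↔ (1 / 2 : ℝ) • w ∈ T.D := by
    intro w
    change 𝓖.g w < 1 ↔ T.ρ _ < 0
    rw [hgg, hlt]
  obtain ⟨G₀, hG₀, hG₀'⟩ := hstart
  have hhalf : Continuous (fun w : En n => (1 / 2 : ℝ) • w) := continuous_const_smul _
  have hdhalf : ∀ b : ℝ, Differentiable ℂ (fun w : En n => b • w) := by
    intro b
    have e : (fun w : En n => b • w) = fun w : En n => (b : ℂ) • w := by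
      funext w
      exact (Complex.coe_smul b w).symm
    rw [e]
    exact differentiable_id.const_smul (b : ℂ)
  have hproj : Differentiable ℂ (fun y : En N => y i) :=
    (EuclideanSpace.proj i : En N →L[ℂ] ℂ).differentiable
  refine Exists.elim (hla j₀ (fun w => F ((1 / 2 : ℝ) • w) i) M L E₀ hj₀ hM hL hE₀ ?_ ?_ ?_ ?_ ?_) ?_
  rotate_left 5
  · rintro Fs ⟨hFs, hFs'⟩
    refine ⟨fun z => Fs ((2 : ℝ) • z), ?_, ?_⟩
    · refine hFs.comp (hdhalf 2).differentiableOn ?_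
      intro z hz
      rw [hB, smul_smul]
      norm_num
      exact hz
    · intro w hw
      have h2 : (1 / 2 : ℝ) • (2 : ℝ) • w = w := by rw [smul_smul]; norm_num
      have h1 := hFs' ((2 : ℝ) • w) (by rw [hB, h2]; exact hw)
      simp only [h2] at h1
      refine h1.trans ?_
      have h3 : 0 ≤ ((1 / 2 : ℝ) ^ j₀) ^ (1 / 1000 : ℝ) := by positivity
      have h4 : C₁ * (L + 1) ≤ max CR C₁ * (L + 1) :=
        mul_le_mul_of_nonneg_right (le_max_right _ _) (by linarith)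
      have h5 := mul_le_mul_of_nonneg_right h4 h3
      linarith
  · -- continuity
    refine hproj.continuous.comp_continuousOn (hFc.comp hhalf.continuousOn ?_)
    intro w hw
    exact (hB w).1 hw
  · intro w hw
    exact (A4_coord _ i).trans (hFM _ ((hB w).1 hw))
  · intro w hw h hh0 hh1
    have h1 := hrad _ ((hB w).1 hw) h hh0 hh1
    rw [← hgg] at h1
    have h2 : (1 / 2 : ℝ) • (((1 - h : ℝ) : ℂ) • w) = (1 - h) • (1 / 2 : ℝ) • w := by
      rw [Complex.coe_smul, smul_smul, smul_smul, mul_comm]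
    simp only [h2]
    have h3 : 𝓖.g w < 1 := hw
    have h4 : ‖F ((1 / 2 : ℝ) • w) i - F ((1 - h) • (1 / 2 : ℝ) • w) i‖ ≤
        ‖F ((1 / 2 : ℝ) • w) - F ((1 - h) • (1 / 2 : ℝ) • w)‖ := by
      have := A4_coord (F ((1 / 2 : ℝ) • w) - F ((1 - h) • (1 / 2 : ℝ) • w)) i
      simpa using this
    exact (mul_le_mul_of_nonneg_right h4 (by linarith)).trans h1
  · -- main
    intro j hj x hx hx1 hx2 a ha
    have hj1 : 1 ≤ j := hj₀.trans hj
    obtain ⟨ha0, ha1, ha2, ha3⟩ := A4_rad j hj1 a ha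
    have hgx : 𝓖.g x < 1 := hx
    set d : ℝ := (1 / 2) ^ j with hd
    have hd0 : 0 < d := by rw [hd]; positivity
    have hd1 : d ≤ 1 := by rw [hd]; exact pow_le_one₀ (by norm_num) (by norm_num)
    have hdp : ∀ s s' : ℝ, s' ≤ s → d ^ s ≤ d ^ s' := fun s s' h =>
      Real.rpow_le_rpow_of_exponent_ge hd0 hd1 h
    have hd249 : d ≤ d ^ (249 / 250 : ℝ) := by
      have := hdp 1 (249 / 250) (by norm_num)
      rwa [Real.rpow_one] at this
    have hd499 : d ≤ d ^ (499 / 500 : ℝ) := by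
      have := hdp 1 (499 / 500) (by norm_num)
      rwa [Real.rpow_one] at this
    have hd499' : d ^ (499 / 500 : ℝ) ≤ d ^ (249 / 250 : ℝ) := hdp _ _ (by norm_num)
    have hp250 : 0 < d ^ (249 / 250 : ℝ) := Real.rpow_pos_of_pos hd0 _
    have hp500 : 0 < d ^ (249 / 500 : ℝ) := Real.rpow_pos_of_pos hd0 _
    have hp500' : d ^ (249 / 500 : ℝ) ≤ 1 := Real.rpow_le_one hd0.le hd1 (by norm_num)
    set v : En n := (a / 2) • x with hv
    have hvg : T.g v = a * 𝓖.g x := by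
      rw [hgg, ← hsm a _ ha0, smul_smul, hv]
      congr 2
      ring
    have hgx0 : 0 ≤ 𝓖.g x := 𝓖.g_nonneg x
    have hCRm : CR ≤ max CR C₁ := le_max_left _ _
    set C : ℝ := max CR C₁ with hC
    have hv1 : 1 - a ≤ 1 - T.g v := by rw [hvg]; nlinarith
    have hv2 : 1 - T.g v ≤ 3 * d ^ (499 / 500 : ℝ) := by
      rw [hvg]
      have h1 : 1 - a * 𝓖.g x ≤ (1 - a) + (1 - 𝓖.g x) := by nlinarith
      have h2 : 0 ≤ d ^ (499 / 500 : ℝ) := by positivity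
      linarith
    obtain ⟨G, M', hG, hGb⟩ := hmain j hj v (ha2.trans hv1) hv2
    -- the region
    have hreg : ∀ w, w ∈ 𝓖.B 1 → 𝓖.q w x < 64 * (1 - 𝓖.g x) * d ^ (-(1 / 500) : ℝ) →
        (a / 2) • w ∈ T.Reg C d v := by
      intro w hw hqw
      have hgw : 𝓖.g w < 1 := hw
      have hq1 : 𝓖.q w x ≤ 8 * d ^ (249 / 250 : ℝ) := by
        have h1 : 0 ≤ d ^ (-(1 / 500) : ℝ) := by positivity
        have h2 : d ^ (499 / 500 : ℝ) * d ^ (-(1 / 500) : ℝ) = d ^ (249 / 250 : ℝ) := by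
          rw [← Real.rpow_add hd0]
          norm_num
        have h3 := mul_le_mul_of_nonneg_right hx2 h1
        rw [h2] at h3
        nlinarith
      rw [hGg] at hgw hgx
      obtain ⟨h1, h2, h3⟩ := hq w x hgw hgx
      rw [← hGg] at hgw hgx h1
      have hwg : T.g ((a / 2) • w) = a * 𝓖.g w := by
        rw [hgg, ← hsm a _ ha0, smul_smul]
        congr 2
        ring
      have hgw0 : 0 ≤ 𝓖.g w := 𝓖.g_nonneg w
      have hCq8 : Cq * 𝓖.q w x ≤ 8 * Cq * d ^ (249 / 250 : ℝ) := by nlinarith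
      have hdiff : (a / 2) • w - v = (a / 2) • (w - x) := by rw [hv, smul_sub]
      have hnd : ‖(a / 2) • w - v‖ ≤ 8 * Cq * d ^ (249 / 500 : ℝ) := by
        rw [hdiff, norm_smul, Real.norm_eq_abs, abs_of_nonneg (by linarith)]
        have h4 : ‖w - x‖ ^ 2 ≤ (8 * Cq * d ^ (249 / 500 : ℝ)) ^ 2 := by
          have h5 : (8 * Cq * d ^ (249 / 500 : ℝ)) ^ 2 = (8 * Cq) ^ 2 * d ^ (249 / 250 : ℝ) := by
            rw [mul_pow, ← Real.rpow_natCast (d ^ (249 / 500 : ℝ)) 2, ← Real.rpow_mul hd0.le]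
            norm_num
          rw [h5]
          have h6 : 8 * Cq ≤ (8 * Cq) ^ 2 := by nlinarith
          exact (h2.trans hCq8).trans (mul_le_mul_of_nonneg_right h6 hp250.le)
        have h7 : ‖w - x‖ ≤ 8 * Cq * d ^ (249 / 500 : ℝ) :=
          abs_le_of_sq_le_sq' h4 (by positivity) |>.2
        have h8 := norm_nonneg (w - x)
        nlinarith
      refine ⟨?_, ?_, ?_, ?_⟩
      · rw [hwg]
        nlinarith
      · rw [hwg]
        have h4 : 1 - a * 𝓖.g w ≤ (1 - a) + (1 - 𝓖.g w) := by nlinarith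
        have h5 : 1 - a * 𝓖.g w ≤ (1 + 8 * Cq) * d ^ (249 / 250 : ℝ) := by linarith
        refine h5.trans_lt ?_
        refine mul_lt_mul_of_pos_right ?_ hp250
        linarith
      · refine hnd.trans_lt (mul_lt_mul_of_pos_right ?_ hp500)
        linarith
      · have h4 : pd T.ρ v ((a / 2) • w - v) =
            (pd T.ρ v ((a / 2) • w - v) - pd T.ρ ((1 / 2 : ℝ) • x) ((a / 2) • w - v)) +
              pd T.ρ ((1 / 2 : ℝ) • x) ((a / 2) • w - v) := by ring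
        have h5 : pd T.ρ ((1 / 2 : ℝ) • x) ((a / 2) • w - v) = a * 𝓓.pr x (w - x) := by
          rw [hdiff, hpr]
          have e1 : (a / 2) • (w - x) = (((a / 2 : ℝ) : ℂ)) • (w - x) := (Complex.coe_smul _ _).symm
          rw [e1, pd_smul]
          push_cast
          ring
        have h6 : ‖pd T.ρ ((1 / 2 : ℝ) • x) ((a / 2) • w - v)‖ ≤ 8 * Cq * d ^ (249 / 250 : ℝ) := by
          rw [h5, norm_mul, Complex.norm_real, Real.norm_eq_abs, abs_of_nonneg ha0]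
          have h7 := norm_nonneg (𝓓.pr x (w - x))
          nlinarith
        have h7 : ‖pd T.ρ v ((a / 2) • w - v) - pd T.ρ ((1 / 2 : ℝ) • x) ((a / 2) • w - v)‖ ≤
            8 * T.C * R * Cq * d ^ (249 / 250 : ℝ) := by
          refine (pd_sub_le _ _ _ _).trans ?_
          have h8 : ‖fderiv ℝ T.ρ v - fderiv ℝ T.ρ ((1 / 2 : ℝ) • x)‖ ≤ T.C * (d * R) := by
            refine (T.d1 _ _).trans (mul_le_mul_of_nonneg_left ?_ hTC0)
            have h9 : v - (1 / 2 : ℝ) • x = (a - 1) • (1 / 2 : ℝ) • x := by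
              rw [hv, smul_smul, ← sub_smul]
              congr 1
              ring
            rw [h9, norm_smul, Real.norm_eq_abs, abs_of_nonpos (by linarith)]
            have h10 := hRn ((1 / 2 : ℝ) • x)
            rw [← hgg] at h10
            have h11 : ‖(1 / 2 : ℝ) • x‖ ≤ R := h10.trans (by nlinarith)
            have h12 := norm_nonneg ((1 / 2 : ℝ) • x)
            have h13 : -(a - 1) ≤ d := by linarith
            exact mul_le_mul h13 h11 h12 hd0.le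
          have h14 : ‖(a / 2) • w - v‖ ≤ 8 * Cq := by
            refine hnd.trans ?_
            have : 0 ≤ 8 * Cq := by positivity
            nlinarith
          calc ‖fderiv ℝ T.ρ v - fderiv ℝ T.ρ ((1 / 2 : ℝ) • x)‖ * ‖(a / 2) • w - v‖
              ≤ T.C * (d * R) * (8 * Cq) := mul_le_mul h8 h14 (norm_nonneg _) (by positivity)
            _ = 8 * T.C * R * Cq * d := by ring
            _ ≤ 8 * T.C * R * Cq * d ^ (249 / 250 : ℝ) := mul_le_mul_of_nonneg_left hd249 hK0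
        rw [h4]
        refine (norm_add_le _ _).trans_lt ?_
        have h15 : (8 * T.C * R * Cq + 8 * Cq) * d ^ (249 / 250 : ℝ) < C * d ^ (249 / 250 : ℝ) := by
          refine mul_lt_mul_of_pos_right ?_ hp250
          linarith
        linarith
    have hvreg : v ∈ T.Reg C d v := by
      refine ⟨by linarith, ?_, ?_, ?_⟩
      · refine hv2.trans_lt ?_
        have h1 : 3 * d ^ (499 / 500 : ℝ) ≤ 3 * d ^ (249 / 250 : ℝ) := by linarith
        refine h1.trans_lt (mul_lt_mul_of_pos_right ?_ hp250)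
        linarith
      · rw [sub_self, norm_zero]
        have : 0 < C := by linarith
        positivity
      · rw [sub_self]
        have h1 : pd T.ρ v 0 = 0 := by
          have := pd_smul T.ρ v 0 0
          simpa using this
        rw [h1, norm_zero]
        have : 0 < C := by linarith
        positivity
    have hsc : ∀ w : En n, (1 / 2 : ℝ) • ((a : ℂ) • w) = (a / 2) • w := by
      intro w
      rw [Complex.coe_smul, smul_smul]
      congr 1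
      ring
    have hcomp : ∀ y ∈ T.Reg C d v, ‖F y i - G y i‖ ≤ d ^ (1 / 500 : ℝ) := by
      intro y hy
      have h1 := A4_coord (F y - G y) i
      have h2 : (F y - G y) i = F y i - G y i := by simp
      rw [h2] at h1
      exact h1.trans (hGb y hy).2
    refine ⟨fun w => G ((a / 2) • w) i, ?_, ⟨M', ?_⟩, ?_, ?_⟩
    · refine hproj.comp_differentiableOn (hG.comp (hdhalf (a / 2)).differentiableOn ?_)
      intro w hw
      exact hreg w hw.1 hw.2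
    · intro w hw hqw
      exact (A4_coord _ i).trans (hGb _ (hreg w hw hqw)).1
    · intro w hw hqw
      simp only [hsc]
      exact hcomp _ (hreg w hw hqw)
    · simp only [hsc]
      exact hcomp _ hvreg
  · refine ⟨fun z => G₀ ((1 / 2 : ℝ) • z) i, ?_, ?_⟩
    · refine hproj.comp_differentiableOn (hG₀.comp (hdhalf (1 / 2)).differentiableOn ?_)
      intro z hz
      change 𝓖.g z < be j₀ at hz
      rw [hgg] at hz
      exact hz
    · intro z hz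
      rw [hgg] at hz
      have h1 := hG₀' _ hz
      have h2 : (1 / 2 : ℝ) • (((al j₀ : ℝ) : ℂ) • z) = al j₀ • (1 / 2 : ℝ) • z := by
        rw [Complex.coe_smul, smul_smul, smul_smul, mul_comm]
      simp only [h2]
      have h3 := A4_coord (G₀ ((1 / 2 : ℝ) • z) - F (al j₀ • (1 / 2 : ℝ) • z)) i
      have h4 : (G₀ ((1 / 2 : ℝ) • z) - F (al j₀ • (1 / 2 : ℝ) • z)) i =
        G₀ ((1 / 2 : ℝ) • z) i - F (al j₀ • (1 / 2 : ℝ) • z) i := by simp
      rw [h4] at h3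
      exact h3.trans h1

/-- The approximation theorem.
PROOF. It is enough to treat each component `F · i` (the norm of a vector is at most the sum of the norms of its `N` components). Let `𝓓` be the domain `2 D` of `exists_dm`, `𝓖`, `P`, `CK`, `Cq` from `dm_geo`
(`1 ≤ n` since `‖T.e‖ = 1`), and `C₁` the constant of `la_abs`. Apply `la_abs` to `F' w = F ((1/2) • w) i`: `𝓖.B 1 = 2 D`; start: `G₀' z = G₀ ((1/2) • z) i`. For `x`, `a` in the main hypothesis: `d = (1/2)^j`,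
`v = (a/2) • x`, `Φ w = G ((a/2) • w) i` with the `G` of `v`. Note `7 d/16 ≤ 1 - a ≤ d` for both values of `a` (`j ≥ 1`). `1 - T.g v = 1 - a g' x ≥ 1 - a`, `≤ (1 - a) + (1 - g' x) ≤ 3 d ^ (499/500)`
(`g'` = gauge of `2 D`, `T.g v = a g' x`). For `w` with `g' w < 1`, `q w x < 64 (1 - g' x) d ^ (-1/500) ≤ 8 d ^ (249/250)` put `y = (a/2) • w`: `1 - T.g y = 1 - a g' w > 1 - a > d/4`;
`1 - T.g y ≤ (1 - a) + (1 - g' w) ≤ d + Cq 8 d ^ (249/250)`; `‖y - v‖ = (a/2) ‖w - x‖ ≤ √(Cq 8 d ^ (249/250))`; `pd T.ρ v (y - v)`: `pd T.ρ (x/2) ((a/2)(w - x)) = a 𝓓.pr x (w - x)`,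
bounded by `Cq q`, and `‖pd T.ρ v - pd T.ρ (x/2)‖ ≤ T.C ‖v - x/2‖ ≤ T.C (1 - a) ‖x‖` (`‖x‖` bounded: `tg_basic`). So `y ∈ T.Reg C d v` for a suitable `C`. `v` itself is in `T.Reg C d v` too (`C > 3`): this gives the
statement at `x`. -/
theorem la (T : Tg n) (N : ℕ) : ∃ C : ℝ, 1 ≤ C ∧ ∀ (j₀ : ℕ) (F : En n → En N) (M L E₀ : ℝ), 1 ≤ j₀ → 0 ≤ M → 0 ≤ L → 0 ≤ E₀ →
    ContinuousOn F T.D → (∀ w ∈ T.D, ‖F w‖ ≤ M) →
    (∀ w ∈ T.D, ∀ h : ℝ, 0 ≤ h → h ≤ 1 → ‖F w - F ((1 - h) • w)‖ * (1 - T.g w) ≤ L * h) →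
    (∀ j, j₀ ≤ j → ∀ v, 7 / 16 * (1 / 2 : ℝ) ^ j ≤ 1 - T.g v → 1 - T.g v ≤ 3 * ((1 / 2 : ℝ) ^ j) ^ (499 / 500 : ℝ) →
      ∃ (G : En n → En N) (M' : ℝ), DifferentiableOn ℂ G (T.Reg C ((1 / 2) ^ j) v) ∧
        ∀ y ∈ T.Reg C ((1 / 2) ^ j) v, ‖G y‖ ≤ M' ∧ ‖F y - G y‖ ≤ ((1 / 2 : ℝ) ^ j) ^ (1 / 500 : ℝ)) →
    (∃ G₀ : En n → En N, DifferentiableOn ℂ G₀ {z | T.g z < be j₀} ∧
      ∀ z, T.g z < be j₀ → ‖G₀ z - F (al j₀ • z)‖ ≤ E₀) →
    ∃ Fs : En n → En N, DifferentiableOn ℂ Fs T.D ∧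
      ∀ w ∈ T.D, ‖F w - Fs w‖ ≤ N * (E₀ + C * (L + 1) * ((1 / 2 : ℝ) ^ j₀) ^ (1 / 1000 : ℝ)) := by
  obtain ⟨C, hC, h⟩ := A4_one T N
  refine ⟨C, hC, ?_⟩
  intro j₀ F M L E₀ hj₀ hM hL hE₀ hFc hFM hrad hmain hstart
  choose Fs hFs hFs' using fun i : Fin N => h i j₀ F M L E₀ hj₀ hM hL hE₀ hFc hFM hrad hmain hstart
  refine ⟨fun z => WithLp.toLp 2 (fun i => Fs i z), ?_, ?_⟩
  · rw [differentiableOn_euclidean]
    intro i
    exact hFs i
  · intro w hw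
    refine A4_norm _ _ fun i => ?_
    have h1 := hFs' i w hw
    have h2 : (F w - WithLp.toLp 2 (fun i => Fs i w)) i = F w i - Fs i w := by simp
    rw [h2]
    exact h1

end Pool.Agent.MPca0fc2.EQ
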