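import Pool.Agent.Lib.MP_ca0fc2_an.EQ.D7
import Pool.Agent.Lib.MP_ca0fc2_an.Mg.G087
import Pool.Agent.Lib.MP_ca0fc2_an.EQ.S4
import Pool.Agent.Lib.MP_ca0fc2_an.Mg.G073

/-! Campaign EQ, Z1: the local solution on the domains `Tg`, with the constants of the ball. -/

set_option autoImplicit false

open Metric Set Filter Topology

namespace Pool.Agent.MPca0fc2.EQ

open Pool.Agent.MPca0fc2.TB (En Solv IsSol)

variable {n N : ℕ}

private theorem Z1_cs (a b : En N) : ‖∑ j, a j * b j‖ ≤ ‖a‖ * ‖b‖ := by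
  have h1 : ‖∑ j, a j * b j‖ ≤ ∑ j, ‖a j‖ * ‖b j‖ := by
    refine (norm_sum_le _ _).trans (le_of_eq ?_)
    exact Finset.sum_congr rfl fun j _ => norm_mul _ _
  have h2 : (∑ j, ‖a j‖ * ‖b j‖) ^ 2 ≤ (‖a‖ * ‖b‖) ^ 2 := by
    refine (Finset.sum_mul_sq_le_sq_mul_sq _ _ _).trans (le_of_eq ?_)
    rw [mul_pow, EuclideanSpace.norm_sq_eq, EuclideanSpace.norm_sq_eq]
  exact h1.trans (abs_le_of_sq_le_sq' h2 (by positivity)).2

private theorem Z1_Ts (lam : ℝ) (h : 0 < lam) (h1 : lam < 1) :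
    Tendsto (fun k : ℕ => Ts lam (k + 1)) atTop (𝓝 0) := by
  have e1 : Tendsto (fun k : ℕ => ((6 : ℝ) / 5) ^ (k + 1)) atTop atTop :=
    (tendsto_pow_atTop_atTop_of_one_lt (by norm_num)).comp (tendsto_add_atTop_nat 1)
  have e2 : Tendsto (fun x : ℝ => lam ^ x) atTop (𝓝 0) :=
    tendsto_rpow_atTop_of_base_lt_one lam (by linarith) h1
  have e3 : Tendsto (fun k : ℕ => rs lam (k + 1)) atTop (𝓝 0) := e2.comp e1
  have e4 := e3.rpow_const (p := (43 / 20 : ℝ)) (Or.inr (by norm_num))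
  rw [Real.zero_rpow (by norm_num)] at e4
  exact e4

private theorem Z1_small (c : ℝ) {α β : ℝ} (hβα : β < α) (hc : 0 < c) :
    ∀ᶠ lam in 𝓝[>] (0 : ℝ), lam ^ α ≤ c * lam ^ β := by
  have h := small' (1 / c) hβα
  have h2 := ev_lt (a := 1) one_pos
  filter_upwards [h, h2] with lam h3 h4
  have h5 := h3 lam h4.1 le_rfl
  rw [div_mul_eq_mul_div, one_mul, div_le_iff₀ hc] at h5
  linarith

/-- The solutions for the slightly dilated data, with the constants of the ball: `D8.tau_sol` with the bounds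
`‖Fs z‖ ≤ ‖pk z'‖ (A + 2 θ)`, `‖g z‖ ≥ ‖pk z'‖ (1 - 3 θ)`. -/
theorem tau_sol_sharp (T : Tg n) {N : ℕ} {A A' δ' δ s : ℝ} (hA : 1 ≤ A) (hδ'0 : 0 < δ') (hδ : δ' < δ) (hAA' : A < A') (hs : 0 < s)
    (hQ : ∀ f : En n → En N, DifferentiableOn ℂ f (ball 0 1) → (∀ z ∈ ball (0 : En n) 1, δ' ≤ ‖f z‖ ∧ ‖f z‖ ≤ 1) →
      Solv f (ball 0 1) A) :
    ∃ s₁ : ℝ, 0 < s₁ ∧ s₁ ≤ s / 2 ∧ ∀ f : En n → En N, Dat T s f → (∀ z ∈ T.D ∩ ball T.e s, δ ≤ ‖f z‖) →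
      ∀ τ₀ > (0 : ℝ), ∃ τ : ℝ, 0 < τ ∧ τ ≤ τ₀ ∧ τ < 1 ∧ Solv (fun z => f ((1 - τ) • z)) (T.D ∩ ball T.e s₁) A' := by
  have hs0 : 0 < s := hs
  clear hs
  obtain ⟨Cs, hCs, hsys⟩ := exists_sys T
  have hA'0 : 0 < A' := by linarith
  obtain ⟨θ, hθ⟩ : ∃ θ : ℝ, θ = (A' - A) / (3 * A' + 2) := ⟨_, rfl⟩
  have hθ0 : 0 < θ := by
    rw [hθ]
    exact div_pos (by linarith) (by linarith)
  have hθ1 : A + 2 * θ = A' * (1 - 3 * θ) := by
    rw [hθ]
    field_simp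
    ring
  have hθ2 : 0 < 1 - 3 * θ := by
    have h1 : 0 < A' * (1 - 3 * θ) := by rw [← hθ1]; linarith
    exact (mul_pos_iff_of_pos_left hA'0).1 h1
  have hball := fun {ε : ℝ} (hε : 0 < ε) => ball_sol_sharp T Cs (N := N) (by linarith : (0 : ℝ) ≤ A) hδ'0 hQ hδ hε hs0
  obtain ⟨Cg, hCg, hgap, hfd⟩ := fd_hol T Cs A N hA (ε := θ) hθ0
  obtain ⟨C, hC, hsol⟩ := hs_sol T Cs N
  have hA0 : 0 ≤ A := by linarith
  have hCA : 0 < C * A := by positivity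
  have hsm : ∀ᶠ lam in 𝓝[>] (0 : ℝ), C * A * lam ^ (1 / 10 : ℝ) ≤ θ / 2 := by
    have h := Z1_small (θ / 2 / (C * A)) (α := 1 / 10) (β := 0) (by norm_num) (by positivity)
    filter_upwards [h] with lam h1
    rw [Real.rpow_zero, mul_one, le_div_iff₀ hCA] at h1
    linarith
  have hs6 : ∀ᶠ lam in 𝓝[>] (0 : ℝ), lam ^ (6 : ℝ) ≤ s := by
    have h := Z1_small s (α := 6) (β := 0) (by norm_num) hs0
    filter_upwards [h] with lam h1
    rw [Real.rpow_zero, mul_one] at h1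
    exact h1
  obtain ⟨lam, ⟨hlam0, hlam1⟩, hl1, hl2, hl3, hl4, hl5, hl6, hl7⟩ :=
    ((ev_lt (a := 1 / 8) (by norm_num)).and (hsys.and ((hball (half_pos hθ0)).and
      (hfd.and ((hsol s hs0).and ((hs_bd T Cs N).and (hsm.and hs6))))))).exists
  have hlam1' : lam < 1 := by linarith
  have hlam1'' : lam ≤ 1 := hlam1'.le
  have p6 : 0 < lam ^ (6 : ℝ) := Real.rpow_pos_of_pos hlam0 _
  have p7 : lam ^ (7 : ℝ) = lam ^ (6 : ℝ) * lam := by
    rw [show (7 : ℝ) = 6 + 1 by norm_num, Real.rpow_add hlam0, Real.rpow_one]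
  have p7' : 0 < lam ^ (7 : ℝ) := Real.rpow_pos_of_pos hlam0 _
  have p71 : lam ^ (7 : ℝ) ≤ lam ^ (6 : ℝ) / 8 := by
    rw [p7]
    nlinarith
  have p61 : lam ^ (6 : ℝ) ≤ 1 := Real.rpow_le_one hlam0.le hlam1'' (by norm_num)
  have p62 : lam ^ (6 : ℝ) ≤ lam ^ 2 := by
    rw [← Real.rpow_natCast lam 2]
    exact Real.rpow_le_rpow_of_exponent_ge hlam0 hlam1'' (by norm_num)
  have p65 : lam ^ (6 : ℝ) ≤ lam ^ (5 / 2 : ℝ) :=
    Real.rpow_le_rpow_of_exponent_ge hlam0 hlam1'' (by norm_num)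
  refine ⟨lam ^ (6 : ℝ) / 4, by positivity, by linarith, fun f hf hlow τ₀ hτ₀ => ?_⟩
  -- the number of generations
  obtain ⟨K, hK⟩ : ∃ K : ℕ, 2 * Cg * Ts lam (K + 1) < min τ₀ (lam ^ (7 : ℝ)) := by
    have e1 := (Z1_Ts lam hlam0 hlam1').const_mul (2 * Cg)
    rw [mul_zero] at e1
    exact (e1.eventually (gt_mem_nhds (lt_min hτ₀ p7'))).exists
  have hTs := Ts_pos hlam0 (K + 1)
  obtain ⟨τ, hτ⟩ : ∃ τ, τ = 2 * Cg * Ts lam (K + 1) := ⟨_, rfl⟩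
  rw [← hτ] at hK
  have hτ0 : 0 < τ := by rw [hτ]; positivity
  have hτ1 : τ ≤ τ₀ := hK.le.trans (min_le_left _ _)
  have hτ7 : τ ≤ lam ^ (7 : ℝ) := hK.le.trans (min_le_right _ _)
  have hτlt : τ < 1 := by linarith
  -- the family
  have hes := es_pos hlam0 K
  obtain ⟨L, hL⟩ : ∃ L : ℕ, 1 / es lam K ≤ (L : ℝ) := exists_nat_ge _
  have hLe : 1 ≤ (L : ℝ) * es lam K := by
    rw [div_le_iff₀ hes] at hL
    exact hL
  have hL1 : 1 ≤ L := by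
    rcases Nat.eq_zero_or_pos L with h0 | h0
    · rw [h0] at hLe
      norm_num at hLe
    · exact h0
  have hSy : ∀ ω : Fin K → Fin L, Nonempty (Sys T Cs lam (shO L K ω)) := fun ω => hl1 _
  choose Sy' _ using fun ω : Fin K → Fin L => (hSy ω).elim fun S => (⟨S, trivial⟩ : ∃ _ : Sys T Cs lam (shO L K ω), True)
  have hH : ∀ ω : Fin K → Fin L, ∃ H : En n → En N, DifferentiableOn ℂ H (ball 0 1) ∧
      (∀ w ∈ ball (0 : En n) 1, ‖H w‖ ≤ A) ∧ ∀ w ∈ ball (0 : En n) 1,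
        ‖∑ j, FB T lam (shO L K ω) (Sy' ω).nx f K w w j * H w j - 1‖ ≤ θ / 2 :=
    fun ω => hl2 (shO L K ω) (Sy' ω) f K hf hlow
  choose H hH1 hH2 hH3 using hH
  obtain ⟨Φ, hΦ1, hΦ2⟩ : ∃ Φ : Fam T Cs lam A L K N, Φ.Sy = Sy' ∧ Φ.H = H :=
    ⟨⟨Sy', H, hH1, hH2, hL1, hLe⟩, rfl, rfl⟩
  obtain ⟨Fs, hFs1, hFs2⟩ := hl3 L K Φ (by rw [← hτ]; exact hτ7)
  rw [← hτ] at hFs2
  refine ⟨τ, hτ0, hτ1, hτlt, ?_⟩
  -- the points
  have hD0 : (0 : En n) ∈ T.D := T.half 0 (by rw [norm_zero]; norm_num)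
  have hpt : ∀ z ∈ T.D ∩ ball T.e (lam ^ (6 : ℝ) / 4), NE T lam K ((1 - τ) • z) ∧
      ‖(1 - τ) • z - T.e‖ ≤ lam ^ (6 : ℝ) / 2 ∧ (1 - τ) • z ∈ T.D ∩ ball T.e s := by
    rintro z ⟨hz1, hz2⟩
    have hz3 : ‖z - T.e‖ < lam ^ (6 : ℝ) / 4 := by
      rw [mem_ball, dist_eq_norm] at hz2
      exact hz2
    have hz4 : ‖z‖ ≤ 2 := by
      have e1 : ‖z‖ ≤ ‖z - T.e‖ + ‖T.e‖ := by
        have := norm_add_le (z - T.e) T.e
        rwa [sub_add_cancel] at this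
      rw [T.he] at e1
      linarith
    have e2 : ‖(1 - τ) • z - T.e‖ ≤ ‖z - T.e‖ + τ * ‖z‖ := by
      have e3 : (1 - τ) • z - T.e = (z - T.e) - τ • z := by
        rw [sub_smul, one_smul]
        abel
      rw [e3]
      refine (norm_sub_le _ _).trans ?_
      rw [norm_smul, Real.norm_of_nonneg hτ0.le]
    have e4 : τ * ‖z‖ ≤ lam ^ (6 : ℝ) / 8 * 2 :=
      mul_le_mul (hτ7.trans p71) hz4 (norm_nonneg _) (by positivity)
    have e5 : ‖(1 - τ) • z - T.e‖ ≤ lam ^ (6 : ℝ) / 2 := by linarith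
    have e6 := hgap z hz1 τ hτ0.le hτlt.le
    have e7 : Ts lam (K + 1) ≤ -T.ρ ((1 - τ) • z) := by
      rw [hτ] at e6 ⊢
      nlinarith
    have e8 : T.ρ ((1 - τ) • z) < 0 := by linarith
    refine ⟨⟨e8, e7, by linarith⟩, e5, e8, ?_⟩
    rw [mem_ball, dist_eq_norm]
    linarith
  have hmain : ∀ z ∈ T.D ∩ ball T.e (lam ^ (6 : ℝ) / 4), 1 / 2 ≤ ‖pk lam T.e ((1 - τ) • z)‖ ∧
      ‖pk lam T.e ((1 - τ) • z)‖ * (1 - 3 * θ) ≤ ‖∑ j, f ((1 - τ) • z) j * Fs z j‖ ∧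
      ‖Fs z‖ ≤ ‖pk lam T.e ((1 - τ) • z)‖ * (A + 2 * θ) := by
    intro z hz
    obtain ⟨h1, h2, h3⟩ := hpt z hz
    obtain ⟨y, hy⟩ : ∃ y, y = (1 - τ) • z := ⟨_, rfl⟩
    have h4 := hFs2 z hz.1
    rw [← hy] at h1 h2 h3 h4 ⊢
    have h5 : ‖hs T Φ y‖ ≤ A := hl5 A L K Φ y h1
    have h6 := hl4 A (θ / 2) L K Φ f y hf hA0 (fun ω w hw => by rw [hΦ1, hΦ2]; exact hH3 ω w hw) h1
      (by linarith)
    have h7 : X0 lam T.e y = 1 := (X0_facts hlam0 T.e y y).2.2.2.1 (by linarith)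
    obtain ⟨-, hp2, hp3⟩ := pk_facts T hlam0
    have h8 := (hp2 y h1.lt.le).1
    have h9 := hp3 y h2
    have h10 : FD T Φ y = pk lam T.e y • hs T Φ y := by
      unfold FD
      rw [h7, Complex.ofReal_one, one_mul]
    have h11 : ‖FD T Φ y‖ ≤ ‖pk lam T.e y‖ * A := by
      rw [h10, norm_smul]
      exact mul_le_mul_of_nonneg_left h5 (norm_nonneg _)
    have h12 : ‖Fs z‖ ≤ ‖pk lam T.e y‖ * (A + 2 * θ) := by
      have e1 : Fs z = FD T Φ y - (FD T Φ y - Fs z) := by abel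
      rw [e1]
      refine (norm_sub_le _ _).trans ?_
      nlinarith
    refine ⟨h9, ?_, h12⟩
    have h13 : ‖f y‖ ≤ 1 := hf.bd y h3
    have e1 : ∑ j, f y j * Fs z j = pk lam T.e y + pk lam T.e y * (∑ j, f y j * hs T Φ y j - 1) -
        ∑ j, f y j * (FD T Φ y - Fs z) j := by
      have e2 : ∑ j, f y j * (FD T Φ y - Fs z) j =
          pk lam T.e y * ∑ j, f y j * hs T Φ y j - ∑ j, f y j * Fs z j := by
        rw [Finset.mul_sum, ← Finset.sum_sub_distrib]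
        refine Finset.sum_congr rfl fun j _ => ?_
        rw [PiLp.sub_apply, h10, PiLp.smul_apply, smul_eq_mul]
        ring
      rw [e2]
      ring
    have e3 : ‖∑ j, f y j * (FD T Φ y - Fs z) j‖ ≤ θ := by
      refine (Z1_cs _ _).trans ?_
      calc ‖f y‖ * ‖FD T Φ y - Fs z‖ ≤ 1 * θ := mul_le_mul h13 h4 (norm_nonneg _) zero_le_one
        _ = θ := one_mul _
    have e4 : ‖pk lam T.e y * (∑ j, f y j * hs T Φ y j - 1)‖ ≤ ‖pk lam T.e y‖ * θ := by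
      rw [norm_mul]
      refine mul_le_mul_of_nonneg_left ?_ (norm_nonneg _)
      linarith
    have e5 : ‖pk lam T.e y‖ ≤ ‖∑ j, f y j * Fs z j‖ + ‖pk lam T.e y * (∑ j, f y j * hs T Φ y j - 1)‖ +
        ‖∑ j, f y j * (FD T Φ y - Fs z) j‖ := by
      have e6 : pk lam T.e y = ∑ j, f y j * Fs z j - pk lam T.e y * (∑ j, f y j * hs T Φ y j - 1) +
          ∑ j, f y j * (FD T Φ y - Fs z) j := by
        rw [e1]
        ring
      calc ‖pk lam T.e y‖ = ‖∑ j, f y j * Fs z j - pk lam T.e y * (∑ j, f y j * hs T Φ y j - 1) +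
          ∑ j, f y j * (FD T Φ y - Fs z) j‖ := congrArg norm e6
        _ ≤ _ := (norm_add_le _ _).trans (add_le_add_left (norm_sub_le _ _) _)
    nlinarith
  -- the solution
  have hdil : DifferentiableOn ℂ (fun z => f ((1 - τ) • z)) (T.D ∩ ball T.e (lam ^ (6 : ℝ) / 4)) :=
    hf.hol.comp ((differentiable_id.const_smul (1 - τ)).differentiableOn) fun z hz => (hpt z hz).2.2
  have hFs3 : DifferentiableOn ℂ Fs (T.D ∩ ball T.e (lam ^ (6 : ℝ) / 4)) :=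
    hFs1.mono inter_subset_left
  have hg : DifferentiableOn ℂ (fun z => ∑ j, f ((1 - τ) • z) j * Fs z j)
      (T.D ∩ ball T.e (lam ^ (6 : ℝ) / 4)) :=
    DifferentiableOn.fun_sum fun j _ =>
      (differentiableOn_euclidean.1 hdil j).mul (differentiableOn_euclidean.1 hFs3 j)
  have hg0 : ∀ z ∈ T.D ∩ ball T.e (lam ^ (6 : ℝ) / 4), ∑ j, f ((1 - τ) • z) j * Fs z j ≠ 0 := by
    intro z hz h0
    obtain ⟨h1, h2, -⟩ := hmain z hz
    rw [h0, norm_zero] at h2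
    nlinarith
  refine ⟨fun z => (∑ j, f ((1 - τ) • z) j * Fs z j)⁻¹ • Fs z, (hg.inv hg0).smul hFs3, ?_, ?_⟩
  · intro z hz
    obtain ⟨h1, h2, h3⟩ := hmain z hz
    have h4 : 0 < ‖pk lam T.e ((1 - τ) • z)‖ * (1 - 3 * θ) := mul_pos (by linarith) hθ2
    rw [norm_smul, norm_inv, inv_mul_le_iff₀ (h4.trans_le h2)]
    calc ‖Fs z‖ ≤ ‖pk lam T.e ((1 - τ) • z)‖ * (A + 2 * θ) := h3
      _ = (‖pk lam T.e ((1 - τ) • z)‖ * (1 - 3 * θ)) * A' := by rw [hθ1]; ring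
      _ ≤ ‖∑ j, f ((1 - τ) • z) j * Fs z j‖ * A' := mul_le_mul_of_nonneg_right h2 hA'0.le
  · intro z hz
    have h1 := hg0 z hz
    have h2 : ∑ j, f ((1 - τ) • z) j * ((∑ j, f ((1 - τ) • z) j * Fs z j)⁻¹ • Fs z) j =
        (∑ j, f ((1 - τ) • z) j * Fs z j)⁻¹ * ∑ j, f ((1 - τ) • z) j * Fs z j := by
      rw [Finset.mul_sum]
      refine Finset.sum_congr rfl fun j _ => ?_
      rw [PiLp.smul_apply, smul_eq_mul]
      ring
    exact h2.trans (inv_mul_cancel₀ h1)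

private theorem Z1_ne (T : Tg n) {s : ℝ} (hs : 0 < s) : (T.D ∩ ball T.e s).Nonempty := by
  obtain ⟨t, ht0, ht1, hts⟩ : ∃ t : ℝ, 0 < t ∧ t < 1 ∧ t < s := by
    refine ⟨min s 1 / 2, by positivity, ?_, ?_⟩
    · have := min_le_right s 1
      linarith
    · have := min_le_left s 1
      linarith
  have h0 : T.ρ T.e = 0 := by
    have h1 := T.osc T.e
    rw [T.he, sub_self, norm_zero] at h1
    have h2 : |T.ρ T.e| ≤ 0 := by
      convert h1 using 2 <;> norm_num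
    exact abs_nonpos_iff.1 h2
  have h1 : T.ρ 0 < 0 := T.half 0 (by rw [norm_zero]; norm_num)
  refine ⟨(1 - t) • T.e, ?_, ?_⟩
  · obtain ⟨w, hw⟩ : ∃ w, w = (1 - t) • T.e := ⟨_, rfl⟩
    have h2 := T.conv w T.e
    have h3 := T.conv w 0
    have h4 : (1 - t) • (T.e - w) + t • ((0 : En n) - w) = 0 := by
      rw [hw]
      module
    have h5 : (1 - t) * fderiv ℝ T.ρ w (T.e - w) + t * fderiv ℝ T.ρ w (0 - w) = 0 := by
      have := congrArg (fderiv ℝ T.ρ w) h4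
      rwa [map_add, map_smul, map_smul, map_zero, smul_eq_mul, smul_eq_mul] at this
    have h6 : 0 ≤ T.c * ‖T.e - w‖ ^ 2 := mul_nonneg T.cpos.le (sq_nonneg _)
    have h7 : 0 ≤ T.c * ‖(0 : En n) - w‖ ^ 2 := mul_nonneg T.cpos.le (sq_nonneg _)
    show T.ρ _ < 0
    rw [← hw]
    nlinarith
  · rw [mem_ball, dist_eq_norm]
    have h2 : (1 - t) • T.e - T.e = (-t) • T.e := by module
    rw [h2, norm_smul, T.he, Real.norm_eq_abs, abs_neg, abs_of_pos ht0]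
    linarith

/-- The local solution with the constants of the ball: if the corona problem on the ball is solvable with the bound `A` for the lower bound `δ'`, then near the point `e` of the domain `T.D` it is solvable with every bound
`A' > A` for every lower bound `δ > δ'`; the neighbourhood does not depend on the data. -/
theorem local_tg_sharp (T : Tg n) {N : ℕ} {A A' δ' δ s : ℝ} (hA : 0 ≤ A) (hδ'0 : 0 < δ') (hδ : δ' < δ) (hAA' : A < A') (hs : 0 < s)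
    (hQ : ∀ f : En n → En N, DifferentiableOn ℂ f (ball 0 1) → (∀ z ∈ ball (0 : En n) 1, δ' ≤ ‖f z‖ ∧ ‖f z‖ ≤ 1) →
      Solv f (ball 0 1) A) : ∃ s₁ > 0, s₁ ≤ s ∧ ∀ f : En n → En N, DifferentiableOn ℂ f (T.D ∩ ball T.e s) →
      (∀ z ∈ T.D ∩ ball T.e s, δ ≤ ‖f z‖ ∧ ‖f z‖ ≤ 1) → Solv f (T.D ∩ ball T.e s₁) A' := by
  rcases lt_or_ge A 1 with hA1 | hA1
  · refine ⟨s, hs, le_rfl, fun f hf hfb => ?_⟩
    exfalso
    obtain ⟨z₀, hz₀⟩ := Z1_ne T hs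
    obtain ⟨h1, h2⟩ := hfb z₀ hz₀
    obtain ⟨h, -, h4, h5⟩ := hQ (fun _ => f z₀) (differentiableOn_const _) fun z _ => ⟨by linarith, h2⟩
    have h6 := h4 0 (mem_ball_self one_pos)
    have h7 := h5 0 (mem_ball_self one_pos)
    have h8 := Z1_cs (f z₀) (h 0)
    rw [h7, norm_one] at h8
    nlinarith [norm_nonneg (f z₀), norm_nonneg (h 0)]
  obtain ⟨s₁, hs₁, hs₁s, h⟩ := tau_sol_sharp T (N := N) hA1 hδ'0 hδ hAA' hs hQ
  refine ⟨s₁, hs₁, by linarith, fun f hf hfb => ?_⟩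
  have hp : ∀ i : ℕ, (0 : ℝ) < 1 / ((i : ℝ) + 1) := fun i => by positivity
  choose τ hτ0 hτ1 hτ2 hτ3 using fun i : ℕ =>
    h f ⟨hf, fun z hz => (hfb z hz).2⟩ (fun z hz => (hfb z hz).1) (1 / ((i : ℝ) + 1)) (hp i)
  choose H hH using hτ3
  have hA0 : 0 ≤ A' := by linarith
  have hTo : IsOpen T.D := (tg_basic T).1
  have hUo : IsOpen (T.D ∩ ball T.e s₁) := hTo.inter isOpen_ball
  have hVo : IsOpen (T.D ∩ ball T.e s) := hTo.inter isOpen_ball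
  have hsub : T.D ∩ ball T.e s₁ ⊆ T.D ∩ ball T.e s :=
    inter_subset_inter_right _ (ball_subset_ball (by linarith))
  have hbd : ∀ i, ∀ z ∈ T.D ∩ ball T.e s₁, ‖H i z‖ ≤ A' := fun i z hz => (hH i).2.1 z hz
  have hτt : Tendsto τ atTop (𝓝 0) :=
    squeeze_zero (fun i => (hτ0 i).le) hτ1 tendsto_one_div_add_atTop_nhds_zero_nat
  set 𝒰 : Ultrafilter ℕ := Ultrafilter.of atTop with h𝒰
  have hle : (𝒰 : Filter ℕ) ≤ atTop := Ultrafilter.of_le _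
  have key : ∀ j : Fin N, ∃ g : En n → ℂ, DifferentiableOn ℂ g (T.D ∩ ball T.e s₁) ∧
      (∀ z ∈ T.D ∩ ball T.e s₁, ‖g z‖ ≤ A') ∧
      ∀ z ∈ T.D ∩ ball T.e s₁, Tendsto (fun i => H i z j) 𝒰 (𝓝 (g z)) := fun j =>
    SL.ultra_holo 𝒰 (G := fun i z => H i z j) hUo hA0
      (fun i => differentiableOn_euclidean.1 (hH i).1 j)
      (fun i z hz => (PiLp.norm_apply_le _ j).trans (hbd i z hz))
  choose g hg1 hg2 hg3 using key
  have hlim : ∀ z ∈ T.D ∩ ball T.e s₁,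
      Tendsto (fun i => H i z) 𝒰 (𝓝 (WithLp.toLp 2 (fun j => g j z) : En N)) := by
    intro z hz
    have h1 : Tendsto (fun i => (fun j => H i z j : Fin N → ℂ)) 𝒰 (𝓝 (fun j => g j z)) :=
      tendsto_pi_nhds.2 fun j => hg3 j z hz
    exact ((PiLp.continuous_toLp 2 (fun _ : Fin N => ℂ)).tendsto _).comp h1
  refine ⟨fun z => WithLp.toLp 2 (fun j => g j z), ?_, ?_, ?_⟩
  · exact differentiableOn_euclidean.2 fun j => hg1 j
  · intro z hz
    exact le_of_tendsto (hlim z hz).norm (Filter.Eventually.of_forall fun i => hbd i z hz)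
  · intro z hz
    have h1 : Tendsto (fun i => ∑ j, f ((1 - τ i) • z) j * H i z j) 𝒰 (𝓝 (∑ j, f z j * g j z)) := by
      apply tendsto_finsetSum
      intro j _
      apply Tendsto.mul _ (hg3 j z hz)
      have h2 : Tendsto (fun i : ℕ => (1 - τ i) • z) atTop (𝓝 z) := by
        have h3 : Tendsto (fun i : ℕ => 1 - τ i) atTop (𝓝 (1 - 0)) := hτt.const_sub 1
        have h4 := h3.smul_const z
        rwa [sub_zero, one_smul] at h4
      have h5 : ContinuousAt (fun z => f z j) z :=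
        (differentiableOn_euclidean.1 hf j).continuousOn.continuousAt (hVo.mem_nhds (hsub hz))
      exact (h5.tendsto.comp h2).mono_left hle
    have h2 : Tendsto (fun i => ∑ j, f ((1 - τ i) • z) j * H i z j) 𝒰 (𝓝 1) := by
      apply tendsto_const_nhds.congr
      intro i
      exact ((hH i).2.2 z hz).symm
    exact tendsto_nhds_unique h1 h2

end Pool.Agent.MPca0fc2.EQ
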