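import Pool.Agent.Lib.MP_ca0fc2_an.EQ.L1
import Pool.Agent.Lib.MP_ca0fc2_an.Mg.G086
import Pool.Agent.Lib.MP_ca0fc2_an.Mg.G077
import Pool.Agent.Lib.MP_ca0fc2_an.EQ.Z1

/-! Campaign EQ, Z2: the local solution at every boundary point of every strictly pseudoconvex domain, with the constants of
the ball. -/

set_option autoImplicit false

open Metric Set Filter Topology

namespace Pool.Agent.MPca0fc2.EQ

open Pool.Agent.MPca0fc2
open Pool.Agent.MPca0fc2.TB (En Solv IsSol)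
open Pool.Agent.Lib.MP_ca0fc2_an

variable {n : ℕ}

/-- If the corona problem on the ball is solvable with the bound `A` for the lower bound `δ'`, then near every boundary
point `p` of every strictly pseudoconvex domain `D` it is solvable with every bound `A' > A` for every lower bound
`δ > δ'`; the neighbourhood does not depend on the data. -/
theorem loc_psc {D : Set (En n)} (hD : IsStrictlyPscDomain D) {p : En n} (hp : p ∈ frontier D) {N : ℕ}
    {A A' δ' δ s : ℝ} (hA : 0 ≤ A) (hδ'0 : 0 < δ') (hδ : δ' < δ) (hAA' : A < A') (hs : 0 < s)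
    (hQ : ∀ f : En n → En N, DifferentiableOn ℂ f (ball 0 1) →
      (∀ z ∈ ball (0 : En n) 1, δ' ≤ ‖f z‖ ∧ ‖f z‖ ≤ 1) → Solv f (ball 0 1) A) :
    ∃ r > 0, r ≤ s ∧ ∀ f : En n → En N, DifferentiableOn ℂ f (D ∩ ball p s) →
      (∀ z ∈ D ∩ ball p s, δ ≤ ‖f z‖ ∧ ‖f z‖ ≤ 1) → Solv f (D ∩ ball p r) A' := by
  obtain ⟨U, ρ₀, hh, c, hsd, -⟩ := LV.support_of_domain hD
  have hDo : IsOpen D := by
    rw [hsd.eq]
    exact hsd.dρ.continuousOn.isOpen_inter_preimage hsd.opn (isOpen_Iio (a := (0:ℝ)))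
  obtain ⟨e, Θ, ρ, s₀, C, he, hs0, hΘe, hΘd, hΘc, hinj, hρ, hosc⟩ := local_osc hD hp
  obtain ⟨s₂, hs₂, hs₂b⟩ : ∃ s₂ > 0, ∀ y ∈ ball e s₂, Θ y ∈ ball p s := by
    have h1 : Θ ⁻¹' ball p s ∈ 𝓝 e :=
      hΘd.continuous.continuousAt.preimage_mem_nhds (by rw [hΘe]; exact ball_mem_nhds p hs)
    obtain ⟨s₂, h2, h3⟩ := Metric.mem_nhds_iff.1 h1
    exact ⟨s₂, h2, fun y hy => h3 hy⟩
  have hs3 : 0 < min s₀ s₂ := lt_min hs0 hs₂
  obtain ⟨T, s', hTe, hs', hs's, hTρ⟩ := exists_tg he hs3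
    (hρ.mono (ball_subset_ball (min_le_left _ _)))
    (fun y hy => (hosc y (ball_subset_ball (min_le_left _ _) hy)).2)
  have hmem : ∀ y ∈ ball e s', (Θ y ∈ D ↔ y ∈ T.D) := by
    intro y hy
    rw [(hosc y (ball_subset_ball (hs's.trans (min_le_left _ _)) hy)).1, ← hTρ y hy]
    rfl
  have hmem' : ∀ y ∈ T.D ∩ ball T.e s', Θ y ∈ D ∩ ball p s := by
    intro y hy
    rw [hTe] at hy
    exact ⟨(hmem y hy.2).2 hy.1, hs₂b y (ball_subset_ball (hs's.trans (min_le_right _ _)) hy.2)⟩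
  obtain ⟨s₁, hs₁, hs₁s, hloc⟩ := local_tg_sharp T (N := N) hA hδ'0 hδ hAA' hs' hQ
  obtain ⟨C', -, a, ha, G, hG, hG'⟩ := TB.hol_inv (F := fun y => Θ y - p) (p := e) hs₁
    ((hΘd.sub_const p).differentiableOn) ((hΘc.sub contDiff_const).contDiffOn)
    (by simp only [hΘe, sub_self]) (by
      intro v hv
      apply hinj v
      rwa [fderiv_sub_const] at hv)
  have hTo : IsOpen T.D := isOpen_lt T.sm.continuous continuous_const
  have hr : 0 < min a s := lt_min ha hs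
  refine ⟨min a s, hr, min_le_right _ _, fun f hf hfb => ?_⟩
  obtain ⟨h', hh1, hh2, hh3⟩ := hloc (fun y => f (Θ y)) (hf.comp hΘd.differentiableOn hmem')
    (fun y hy => hfb _ (hmem' y hy))
  have hy : ∀ z ∈ D ∩ ball p (min a s), z - p ∈ ball (0 : En n) a ∧ Θ (G (z - p)) = z ∧
      G (z - p) ∈ T.D ∩ ball T.e s₁ := by
    intro z hz
    have h1 : z - p ∈ ball (0 : En n) a := by
      rw [mem_ball_zero_iff, ← dist_eq_norm]
      exact lt_of_lt_of_le hz.2 (min_le_left _ _)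
    obtain ⟨h2, h3, -⟩ := hG' _ h1
    have h4 : Θ (G (z - p)) = z := sub_left_injective h2
    refine ⟨h1, h4, ?_, ?_⟩
    · rw [← hmem _ (ball_subset_ball hs₁s h3), h4]
      exact hz.1
    · rw [hTe]
      exact h3
  refine ⟨fun z => h' (G (z - p)), ?_, ?_, ?_⟩
  · intro z hz
    obtain ⟨h1, h2, h3⟩ := hy z hz
    have hGd : DifferentiableAt ℂ (fun z => G (z - p)) z :=
      (hG.differentiableAt (isOpen_ball.mem_nhds h1)).comp z (differentiableAt_id.sub_const p)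
    have h4 : DifferentiableAt ℂ h' (G (z - p)) :=
      hh1.differentiableAt ((hTo.inter isOpen_ball).mem_nhds h3)
    have h5 : DifferentiableAt ℂ (fun z => h' (G (z - p))) z := h4.comp z hGd
    exact h5.differentiableWithinAt
  · intro z hz
    exact hh2 _ (hy z hz).2.2
  · intro z hz
    obtain ⟨-, h2, h3⟩ := hy z hz
    have h4 := hh3 _ h3
    simp only [h2] at h4
    exact h4

end Pool.Agent.MPca0fc2.EQ
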