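import Pool.Agent.Lib.MP_ca0fc2_an.TB.Defs

/-! Campaign EQ, Z4: the corona problem on the ball of a smaller dimension. -/

set_option autoImplicit false

open Metric Set Filter Topology

namespace Pool.Agent.MPca0fc2.EQ

open Pool.Agent.MPca0fc2.TB (En Solv IsSol)

/-- The restriction of the coordinates to the first `m` ones. -/
noncomputable def Z4_P {m n : ℕ} (hmn : m ≤ n) : En n →L[ℂ] En m :=
  ((PiLp.continuousLinearEquiv 2 ℂ (fun _ : Fin m => ℂ)).symm : (Fin m → ℂ) →L[ℂ] En m).comp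
    (ContinuousLinearMap.pi fun i : Fin m => (EuclideanSpace.proj (Fin.castLE hmn i) : En n →L[ℂ] ℂ))

/-- The inclusion, the other coordinates are zero. -/
noncomputable def Z4_J {m n : ℕ} : En m →L[ℂ] En n :=
  ((PiLp.continuousLinearEquiv 2 ℂ (fun _ : Fin n => ℂ)).symm : (Fin n → ℂ) →L[ℂ] En n).comp
    (ContinuousLinearMap.pi fun i : Fin n =>
      if h : (i : ℕ) < m then (EuclideanSpace.proj (⟨i, h⟩ : Fin m) : En m →L[ℂ] ℂ) else 0)

theorem Z4_P_apply {m n : ℕ} (hmn : m ≤ n) (z : En n) (i : Fin m) :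
    Z4_P hmn z i = z (Fin.castLE hmn i) := rfl

theorem Z4_J_apply {m n : ℕ} (w : En m) (i : Fin n) :
    (Z4_J w : En n) i = if h : (i : ℕ) < m then w ⟨i, h⟩ else 0 := by
  show (if h : (i : ℕ) < m then (EuclideanSpace.proj (⟨i, h⟩ : Fin m) : En m →L[ℂ] ℂ) else 0) w = _
  split_ifs with h <;> simp

theorem Z4_PJ {m n : ℕ} (hmn : m ≤ n) (w : En m) : Z4_P hmn (Z4_J w : En n) = w := by
  ext i
  rw [Z4_P_apply, Z4_J_apply]
  simp

theorem Z4_P_norm {m n : ℕ} (hmn : m ≤ n) (z : En n) : ‖Z4_P hmn z‖ ≤ ‖z‖ := by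
  refine abs_le_of_sq_le_sq' ?_ (norm_nonneg _) |>.2
  rw [EuclideanSpace.norm_sq_eq, EuclideanSpace.norm_sq_eq]
  calc ∑ i : Fin m, ‖Z4_P hmn z i‖ ^ 2 = ∑ i ∈ Finset.univ.map (Fin.castLEEmb hmn), ‖z i‖ ^ 2 := by
        rw [Finset.sum_map]
        rfl
    _ ≤ ∑ i, ‖z i‖ ^ 2 := Finset.sum_le_univ_sum_of_nonneg fun i => sq_nonneg _

theorem Z4_J_norm {m n : ℕ} (hmn : m ≤ n) (w : En m) : ‖(Z4_J w : En n)‖ = ‖w‖ := by
  rw [← sq_eq_sq₀ (norm_nonneg _) (norm_nonneg _), EuclideanSpace.norm_sq_eq, EuclideanSpace.norm_sq_eq]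
  have h1 : ∑ i ∈ Finset.univ.map (Fin.castLEEmb hmn), ‖(Z4_J w : En n) i‖ ^ 2 = ∑ i, ‖w i‖ ^ 2 := by
    rw [Finset.sum_map]
    refine Finset.sum_congr rfl fun i _ => ?_
    rw [Z4_J_apply]
    simp
  rw [← h1]
  symm
  refine Finset.sum_subset (Finset.subset_univ _) fun i _ hi => ?_
  rw [Z4_J_apply, dif_neg, norm_zero, zero_pow two_ne_zero]
  intro h
  exact hi (Finset.mem_map.2 ⟨⟨i, h⟩, Finset.mem_univ _, by ext; rfl⟩)

/-- The corona problem on the ball of `ℂ^n` contains the one on the ball of `ℂ^m`, `m ≤ n`, with the same constants. -/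
theorem ball_dim {m n N : ℕ} (hmn : m ≤ n) {δ A : ℝ}
    (hQ : ∀ f : En n → En N, DifferentiableOn ℂ f (ball 0 1) →
      (∀ z ∈ ball (0 : En n) 1, δ ≤ ‖f z‖ ∧ ‖f z‖ ≤ 1) → Solv f (ball 0 1) A) :
    ∀ f : En m → En N, DifferentiableOn ℂ f (ball 0 1) →
      (∀ z ∈ ball (0 : En m) 1, δ ≤ ‖f z‖ ∧ ‖f z‖ ≤ 1) → Solv f (ball 0 1) A := by
  intro f hf hfb
  have hP : ∀ z ∈ ball (0 : En n) 1, Z4_P hmn z ∈ ball (0 : En m) 1 := by
    intro z hz
    rw [mem_ball_zero_iff] at hz ⊢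
    exact (Z4_P_norm hmn z).trans_lt hz
  have hJ : ∀ w ∈ ball (0 : En m) 1, (Z4_J w : En n) ∈ ball (0 : En n) 1 := by
    intro w hw
    rw [mem_ball_zero_iff] at hw ⊢
    rwa [Z4_J_norm hmn]
  obtain ⟨h, h1, h2, h3⟩ := hQ (fun z => f (Z4_P hmn z))
    (hf.comp (Z4_P hmn).differentiable.differentiableOn hP) (fun z hz => hfb _ (hP z hz))
  refine ⟨fun w => h (Z4_J w), h1.comp (Z4_J : En m →L[ℂ] En n).differentiable.differentiableOn hJ,
    fun w hw => h2 _ (hJ w hw), fun w hw => ?_⟩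
  have h4 := h3 _ (hJ w hw)
  simp only [Z4_PJ] at h4
  exact h4

end Pool.Agent.MPca0fc2.EQ
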