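import Pool.Agent.Lib.MP_ca0fc2_an.Mg.G082
import Pool.Agent.Lib.MP_ca0fc2_an.Mg.G073

/-! Campaign EQ, task A1: almost holomorphic functions are near holomorphic functions (abstract version, with the kernel operator). -/

set_option autoImplicit false

open Metric Set Filter Topology

namespace Pool.Agent.MPca0fc2.EQ

open Pool.Agent.MPca0fc2

/-- the inner radius -/
noncomputable def al (j : ℕ) : ℝ := 1 - (1 / 2) ^ j

/-- the outer radius -/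
noncomputable def be (j : ℕ) : ℝ := 1 + (1 / 2) ^ j / 16

variable {E : Type*} [NormedAddCommGroup E] [InnerProductSpace ℂ E] [FiniteDimensional ℂ E]

private theorem A1_be_pos (j : ℕ) : 0 < be j := by
  unfold be
  positivity

private theorem A1_be_anti (j : ℕ) : be (j + 1) ≤ be j := by
  unfold be
  have : (0 : ℝ) < (1 / 2) ^ j := by positivity
  rw [pow_succ]
  linarith

private theorem A1_be_quo (j : ℕ) : be (j + 1) ≤ (1 - (1 / 2) ^ j / 40) * be j := by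
  unfold be
  have h0 : (0 : ℝ) < (1 / 2) ^ j := by positivity
  have h1 : (1 / 2 : ℝ) ^ j ≤ 1 := pow_le_one₀ (by norm_num) (by norm_num)
  rw [pow_succ]
  nlinarith

private theorem A1_num {j : ℕ} (hj : 1 ≤ j) :
    0 ≤ al (j + 1) * be j ∧ al (j + 1) * be j < 1 ∧ 0 ≤ al j * be j ∧ al j * be j < 1 ∧
    (0 ≤ 1 - al j / al (j + 1) ∧ 1 - al j / al (j + 1) ≤ 1 ∧
      1 - al j / al (j + 1) ≤ (1 / 2) ^ j) ∧ 0 < al (j + 1) := by
  have h0 : (0 : ℝ) < (1 / 2) ^ j := by positivity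
  have h1 : (1 / 2 : ℝ) ^ j ≤ 1 / 2 := by
    calc (1 / 2 : ℝ) ^ j ≤ (1 / 2 : ℝ) ^ 1 :=
          pow_le_pow_of_le_one (by norm_num) (by norm_num) hj
      _ = 1 / 2 := by norm_num
  unfold al be
  rw [pow_succ]
  set t : ℝ := (1 / 2 : ℝ) ^ j with ht
  have hp : 0 < 1 - t * (1 / 2) := by linarith
  refine ⟨?_, ?_, ?_, ?_, ⟨?_, ?_, ?_⟩, hp⟩
  · apply mul_nonneg <;> linarith
  · nlinarith
  · apply mul_nonneg <;> linarith
  · nlinarith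
  · rw [sub_nonneg, div_le_one hp]
    linarith
  · have : 0 ≤ (1 - t) / (1 - t * (1 / 2)) := div_nonneg (by linarith) hp.le
    linarith
  · rw [sub_le_comm, le_div_iff₀ hp]
    nlinarith

omit [FiniteDimensional ℂ E] in
private theorem A1_cont (𝓖 : CX.Geo E) : Continuous 𝓖.g := by
  have h : LipschitzWith 1 𝓖.g := by
    apply LipschitzWith.of_le_add
    intro x y
    have h1 := 𝓖.g_add (x - y) y
    rw [sub_add_cancel] at h1
    have h2 := 𝓖.g_le (x - y)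
    rw [dist_eq_norm]
    linarith
  exact h.continuous

omit [FiniteDimensional ℂ E] in
private theorem A1_case1 (𝓖 : CX.Geo E) {P : (E → ℂ) → E → ℂ} {CK : ℝ} (hK : 𝓖.Ker P CK)
    {Cq : ℝ} (hCq : 1 ≤ Cq)
    (hq : ∀ w x, 𝓖.g w < 1 → 𝓖.g x < 1 → 1 - 𝓖.g w ≤ Cq * 𝓖.q w x) {t s L : ℝ} (ht : 0 < t)
    (hs : 0 < s) (hs1 : s ≤ 1) (hL : 0 ≤ L) {Δ Φ : E → ℂ} {MΦ : ℝ} {x : E}
    (hΔc : ContinuousOn Δ (𝓖.B 1)) (hΔ : ∀ w ∈ 𝓖.B 1, (1 - 𝓖.g w) * ‖Δ w‖ ≤ L * t)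
    (hx : t / 40 ≤ 1 - 𝓖.g x) (hx1 : 8 * (1 - 𝓖.g x) ≤ 1)
    (hΦ1 : DifferentiableOn ℂ Φ {w | w ∈ 𝓖.B 1 ∧ 𝓖.q w x < 64 * (1 - 𝓖.g x) * (s ^ 2)⁻¹})
    (hΦ2 : ∀ w ∈ 𝓖.B 1, 𝓖.q w x < 64 * (1 - 𝓖.g x) * (s ^ 2)⁻¹ → ‖Φ w‖ ≤ MΦ)
    (hΦ3 : ∀ w ∈ 𝓖.B 1, 𝓖.q w x < 64 * (1 - 𝓖.g x) * (s ^ 2)⁻¹ → ‖Δ w - Φ w‖ ≤ 2 * s ^ 2)
    (hΦ4 : ‖Δ x - Φ x‖ ≤ 2 * s ^ 2) :
    ‖P Δ x - Δ x‖ ≤ (CK * (6 * Cq + 2) + 2) * (L + 1) * s := by
  have hCK := hK.pos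
  set t' : ℝ := 8 * (1 - 𝓖.g x) with ht'
  have ht'0 : 0 < t' := by linarith
  have hgx : 𝓖.g x < 1 := by linarith
  have hs2 : 0 < s ^ 2 := by positivity
  have hs21 : s ^ 2 ≤ 1 := pow_le_one₀ hs.le hs1
  have hXeq : t' * (8 * (s ^ 2)⁻¹) = 64 * (1 - 𝓖.g x) * (s ^ 2)⁻¹ := by rw [ht']; ring
  have hX8 : (8 : ℝ) ≤ 8 * (s ^ 2)⁻¹ := by
    have : 1 ≤ (s ^ 2)⁻¹ := one_le_inv_iff₀.2 ⟨hs2, hs21⟩
    linarith
  have h1 := hK.k1 t' (8 * (s ^ 2)⁻¹) x Δ Φ (5 * L) (6 * Cq * s) MΦ ht'0 hx1 hX8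
    (by rw [ht']; linarith) (by rw [ht']; linarith) (by positivity) (by positivity) hΔc
    (by
      intro w hw
      refine (hΔ w hw).trans ?_
      have : t ≤ 5 * t' := by rw [ht']; linarith
      nlinarith)
    (by rw [hXeq]; exact hΦ1)
    (by rw [hXeq]; exact hΦ2)
    (by
      intro w hw hqw
      rw [hXeq] at hqw
      have h2 := hΦ3 w hw hqw
      have hgw : 𝓖.g w < 1 := hw
      have h3 := hq w x hgw hgx
      have hq0 := 𝓖.q_nonneg w x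
      set Q := 𝓖.q w x with hQ
      have h4 : (1 - 𝓖.g w) * ‖Δ w - Φ w‖ ≤ (Cq * Q) * (2 * s ^ 2) :=
        mul_le_mul h3 h2 (norm_nonneg _) (by positivity)
      have h5 : Q * s ^ 2 ≤ 8 * t' := by
        rw [← hXeq] at hqw
        have h6 : Q * s ^ 2 ≤ t' * (8 * (s ^ 2)⁻¹) * s ^ 2 :=
          mul_le_mul_of_nonneg_right hqw.le hs2.le
        have h7 : t' * (8 * (s ^ 2)⁻¹) * s ^ 2 = 8 * t' := by
          field_simp
        linarith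
      have h6 : Q * s ≤ 3 * √(t' * (Q + t')) := by
        have h7 : (Q * s) ^ 2 ≤ (3 * √(t' * (Q + t'))) ^ 2 := by
          rw [mul_pow 3, Real.sq_sqrt (by positivity)]
          have h8 : (Q * s) ^ 2 = Q * (Q * s ^ 2) := by ring
          rw [h8]
          have h9 := mul_le_mul_of_nonneg_left h5 hq0
          nlinarith [mul_nonneg hq0 ht'0.le, mul_pos ht'0 ht'0]
        exact le_of_sq_le_sq h7 (by positivity)
      calc (1 - 𝓖.g w) * ‖Δ w - Φ w‖ ≤ (Cq * Q) * (2 * s ^ 2) := h4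
        _ = 2 * Cq * s * (Q * s) := by ring
        _ ≤ 2 * Cq * s * (3 * √(t' * (Q + t'))) := mul_le_mul_of_nonneg_left h6 (by positivity)
        _ = 6 * Cq * s * √(t' * (Q + t')) := by ring)
  have h2 : 5 * L / √(8 * (s ^ 2)⁻¹) ≤ 2 * L * s := by
    have h3 : 5 / 2 / s ≤ √(8 * (s ^ 2)⁻¹) := by
      apply Real.le_sqrt_of_sq_le
      have h4 : (5 / 2 / s) ^ 2 = 25 / 4 * (s ^ 2)⁻¹ := by
        field_simp
        ring
      rw [h4]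
      have : 0 < (s ^ 2)⁻¹ := by positivity
      nlinarith
    have h4 : 0 < 5 / 2 / s := by positivity
    calc 5 * L / √(8 * (s ^ 2)⁻¹) ≤ 5 * L / (5 / 2 / s) :=
          div_le_div_of_nonneg_left (by positivity) h4 h3
      _ = 2 * L * s := by
          field_simp
  have h3 : ‖P Δ x - Φ x‖ ≤ CK * (6 * Cq * s + 2 * L * s) :=
    h1.trans (mul_le_mul_of_nonneg_left (by linarith) hCK.le)
  have h4 : ‖P Δ x - Δ x‖ ≤ ‖P Δ x - Φ x‖ + ‖Δ x - Φ x‖ := by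
    have : P Δ x - Δ x = (P Δ x - Φ x) - (Δ x - Φ x) := by ring
    rw [this]
    exact norm_sub_le _ _
  have h5 : s ^ 2 ≤ s := by nlinarith
  calc ‖P Δ x - Δ x‖ ≤ CK * (6 * Cq * s + 2 * L * s) + 2 * s ^ 2 := by linarith
    _ ≤ CK * (6 * Cq * s + 2 * L * s) + 2 * s := by linarith
    _ ≤ (CK * (6 * Cq + 2) + 2) * (L + 1) * s := by
        have e1 : 0 ≤ CK * Cq * L * s := by positivity
        have e2 : 0 ≤ CK * s := by positivity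
        have e3 : 0 ≤ L * s := by positivity
        nlinarith

omit [FiniteDimensional ℂ E] in
/-- the bound of `P Δ` away from the boundary -/
private theorem A1_case2 (𝓖 : CX.Geo E) {P : (E → ℂ) → E → ℂ} {CK : ℝ} (hK : 𝓖.Ker P CK)
    {t L : ℝ} (ht : 0 < t) (hL : 0 ≤ L) {Δ : E → ℂ} {x : E}
    (hΔc : ContinuousOn Δ (𝓖.B 1)) (hΔ : ∀ w ∈ 𝓖.B 1, (1 - 𝓖.g w) * ‖Δ w‖ ≤ L * t)
    (hx : 0 < 1 - 𝓖.g x) (hx1 : 8 * (1 - 𝓖.g x) ≤ 1) :
    ‖P Δ x‖ ≤ 2 * CK * (L * t / (8 * (1 - 𝓖.g x))) := by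
  have hCK := hK.pos
  set t' : ℝ := 8 * (1 - 𝓖.g x) with ht'
  have ht'0 : 0 < t' := by linarith
  set G : ℝ := L * t / t' with hG
  have hG0 : 0 ≤ G := by positivity
  have hGt : G * t' = L * t := by rw [hG]; field_simp
  have h1 := hK.k1 t' 8 x Δ (fun _ => 0) G G 0 ht'0 hx1 le_rfl
    (by rw [ht']; linarith) (by rw [ht']; linarith) hG0 hG0 hΔc
    (by
      intro w hw
      rw [hGt]
      exact hΔ w hw)
    (by exact differentiableOn_const 0)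
    (by
      intro w _ _
      simp)
    (by
      intro w hw _
      rw [sub_zero]
      refine (hΔ w hw).trans ?_
      rw [← hGt]
      apply mul_le_mul_of_nonneg_left _ hG0
      apply Real.le_sqrt_of_sq_le
      have := 𝓖.q_nonneg w x
      nlinarith)
  rw [sub_zero] at h1
  refine h1.trans ?_
  have h2 : G / √8 ≤ G := by
    apply div_le_self hG0
    rw [Real.one_le_sqrt]
    norm_num
  calc CK * (G + G / √8) ≤ CK * (G + G) := mul_le_mul_of_nonneg_left (by linarith) hCK.le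
    _ = 2 * CK * G := by ring

omit [FiniteDimensional ℂ E] in
/-- the bound of `P Δ` in the interior -/
private theorem A1_case3 [Nontrivial E] (𝓖 : CX.Geo E) {P : (E → ℂ) → E → ℂ} {CK : ℝ}
    (hK : 𝓖.Ker P CK) {t L : ℝ} (ht : 0 < t) (hL : 0 ≤ L) {Δ : E → ℂ} {x : E}
    (hΔc : ContinuousOn Δ (𝓖.B 1)) (hΔ : ∀ w ∈ 𝓖.B 1, (1 - 𝓖.g w) * ‖Δ w‖ ≤ L * t)
    (hP : DifferentiableOn ℂ (P Δ) (𝓖.B 1)) (hx : 𝓖.g x < 7 / 8) :
    ‖P Δ x‖ ≤ 2 * CK * (L * t) := by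
  have hcont := A1_cont 𝓖
  set U : Set E := {z | 𝓖.g z < 7 / 8} with hU
  have hUo : IsOpen U := isOpen_lt hcont continuous_const
  have hcl : closure U ⊆ {z | 𝓖.g z ≤ 7 / 8} := by
    apply closure_minimal
    · intro z hz
      have : 𝓖.g z < 7 / 8 := hz
      exact this.le
    · exact isClosed_le hcont continuous_const
  have hclB : closure U ⊆ 𝓖.B 1 := by
    intro z hz
    have h1 : 𝓖.g z ≤ 7 / 8 := hcl hz
    have h2 : 𝓖.g z < 1 := by linarith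
    exact h2
  have hbd : Bornology.IsBounded U := by
    refine (Metric.isBounded_closedBall (x := (0 : E)) (r := 𝓖.R₀)).subset ?_
    intro z hz
    rw [mem_closedBall_zero_iff]
    have h1 := 𝓖.norm_le z
    have h2 : 𝓖.g z < 7 / 8 := hz
    have h3 := 𝓖.R₀_ge
    have h4 := 𝓖.g_nonneg z
    nlinarith
  have hd : DiffContOnCl ℂ (P Δ) U := (hP.mono hclB).diffContOnCl
  have hfr : ∀ z ∈ frontier U, ‖P Δ z‖ ≤ 2 * CK * (L * t) := by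
    intro z hz
    have h1 : 𝓖.g z ≤ 7 / 8 := hcl (frontier_subset_closure hz)
    have h2 : ¬ 𝓖.g z < 7 / 8 := by
      intro h
      have h3 : z ∉ interior U := hz.2
      rw [hUo.interior_eq] at h3
      exact h3 h
    have h3 : 𝓖.g z = 7 / 8 := le_antisymm h1 (not_lt.1 h2)
    have h4 := A1_case2 𝓖 hK ht hL hΔc hΔ (x := z) (by rw [h3]; norm_num) (by rw [h3]; norm_num)
    rw [h3] at h4
    norm_num at h4
    exact h4
  exact Complex.norm_le_of_forall_mem_frontier_norm_le hbd hd hfr (subset_closure hx)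

/-- One step: for `Δ` the kernel operator reproduces `Δ` up to a small error.
PROOF. `t = (1/2)^j`, `d = t`, `x` with `g x ≤ 1 - t/40`. Write `τ = t ^ (-1/500) ≥ 1` (so `τ² = t ^ (-2/500)`).
CASE 1: `8 (1 - g x) ≤ t ^ (499/500) = t τ`. Use `hK.k1` with `t' = 8 (1 - g x)` (`t' ≤ 1` as `t ^ (499/500) ≤ 1`; `t' > 0`), `X = 8 τ ≥ 8`, `z = x`,
`1 - t'/8 = g x ≤ g x` and `g x ≤ 1 - t'/40`; `Φ` from `hΦ`: `t' X = 64 (1 - g x) τ`; `G = 5 L`: `(1 - g w) ‖Δ w‖ ≤ L t ≤ 5 L t'` as `t' = 8 (1 - g x) ≥ t/5`.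
`G' = 4 Cq τ^(1/2) ε` with `ε = 2 t ^ (1/500)`: for `q w x < t' X`: `(1 - g w) ‖Δ w - Φ w‖ ≤ (1 - g w) ε`, and `1 - g w ≤ Cq q w x`, `q = √q √q ≤ √q √(t' X)`,
`√(t' (q + t')) ≥ √(t' q)`, so `(1 - g w) ε ≤ Cq √X ε √(t' q)`, `√X = √8 τ^(1/2)`. The result is
`‖P Δ x - Φ x‖ ≤ CK (3 Cq τ^(1/2) ε + 5 L / √(8 τ))`, and `‖Φ x - Δ x‖ ≤ ε` (`q x x < t' X`? NOT known; so the hypothesis `hΦx` is given:
the approximation holds at `x`, see below). All are at most `C (L + 1) t ^ (1/1000)`: `τ^(1/2) ε = 2 t ^ (1/500 - 1/1000)`.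
CASE 2: `t ^ (499/500) < 8 (1 - g x) ≤ 1`: `hK.k1` with `t' = 8 (1 - g x)`, `X = 8`, `Φ = 0`, `MΦ = 0`, `G = G' = L t / t' ≤ L t ^ (1/500)`:
`(1 - g w) ‖Δ w‖ ≤ L t = G t' ≤ G' √(t' (q + t'))` (as `√(t' (q + t')) ≥ t'`). So `‖P Δ x‖ ≤ 2 CK L t ^ (1/500)`, and
`‖Δ x‖ ≤ L t / (1 - g x) = 8 L t / t'`.
CASE 3: `8 (1 - g x) > 1`. `P Δ` is holomorphic on `B 1` (`k2`), and `≤ 2 CK L t ^ (1/500)` on `{g = 7/8}` (case 2, `t ^ (499/500) < 1` as `j ≥ 1`; note `1 - g = 1/8 ≥ t/40`).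
The maximum principle on the set `{g < 7/8}` (bounded, as `‖z‖ ≤ R₀ g z`, open, `g` is continuous: `g_add` and `g_le`;
`Complex.norm_le_of_forall_mem_frontier_norm_le`; its frontier is in `{g = 7/8}`; if `E` is trivial then `g x = 0`, `x = 0` is the only point: handle `{g = 7/8}` empty separately: if `E` has a
nonzero vector the function `‖·‖` of the maximum principle needs `Nontrivial`; if every vector is zero then `B 1 = {0}`, and `E` is a point: here case 3 for `x = 0` fails in general, so we ASSUME `Nontrivial E`).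
`‖Δ x‖ ≤ 8 L t`. -/
theorem la_step [Nontrivial E] (𝓖 : CX.Geo E) {P : (E → ℂ) → E → ℂ} {CK : ℝ} (hK : 𝓖.Ker P CK) {Cq : ℝ} (hCq : 1 ≤ Cq)
    (hq : ∀ w x, 𝓖.g w < 1 → 𝓖.g x < 1 → 1 - 𝓖.g w ≤ Cq * 𝓖.q w x) :
    ∃ C : ℝ, 1 ≤ C ∧ ∀ (j : ℕ) (Δ : E → ℂ) (M L : ℝ), 1 ≤ j → 0 ≤ M → 0 ≤ L →
      ContinuousOn Δ (𝓖.B 1) → (∀ w ∈ 𝓖.B 1, ‖Δ w‖ ≤ M) →
      (∀ w ∈ 𝓖.B 1, (1 - 𝓖.g w) * ‖Δ w‖ ≤ L * (1 / 2) ^ j) →
      (∀ x ∈ 𝓖.B 1, (1 / 2 : ℝ) ^ j / 40 ≤ 1 - 𝓖.g x → 8 * (1 - 𝓖.g x) ≤ ((1 / 2 : ℝ) ^ j) ^ (499 / 500 : ℝ) →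
        ∃ Φ : E → ℂ, DifferentiableOn ℂ Φ {w | w ∈ 𝓖.B 1 ∧ 𝓖.q w x < 64 * (1 - 𝓖.g x) * ((1 / 2 : ℝ) ^ j) ^ (-(1 / 500) : ℝ)} ∧
          (∃ MΦ : ℝ, ∀ w ∈ 𝓖.B 1, 𝓖.q w x < 64 * (1 - 𝓖.g x) * ((1 / 2 : ℝ) ^ j) ^ (-(1 / 500) : ℝ) → ‖Φ w‖ ≤ MΦ) ∧
          (∀ w ∈ 𝓖.B 1, 𝓖.q w x < 64 * (1 - 𝓖.g x) * ((1 / 2 : ℝ) ^ j) ^ (-(1 / 500) : ℝ) →
            ‖Δ w - Φ w‖ ≤ 2 * ((1 / 2 : ℝ) ^ j) ^ (1 / 500 : ℝ)) ∧
          ‖Δ x - Φ x‖ ≤ 2 * ((1 / 2 : ℝ) ^ j) ^ (1 / 500 : ℝ)) →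
      DifferentiableOn ℂ (P Δ) (𝓖.B 1) ∧ ∀ x, 𝓖.g x ≤ 1 - (1 / 2) ^ j / 40 →
        ‖P Δ x - Δ x‖ ≤ C * (L + 1) * ((1 / 2 : ℝ) ^ j) ^ (1 / 1000 : ℝ) := by
  have hCK := hK.pos
  refine ⟨CK * (6 * Cq + 2) + 10, ?_, ?_⟩
  · have : 0 ≤ CK * (6 * Cq + 2) := by positivity
    linarith
  intro j Δ M L hj hM hL hΔc hΔM hΔ hΦ
  have hP : DifferentiableOn ℂ (P Δ) (𝓖.B 1) := hK.k2 Δ M hΔc hΔM
  refine ⟨hP, ?_⟩
  intro x hx
  set t : ℝ := (1 / 2 : ℝ) ^ j with ht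
  have ht0 : 0 < t := by positivity
  have ht1 : t ≤ 1 := pow_le_one₀ (by norm_num) (by norm_num)
  set s : ℝ := t ^ (1 / 1000 : ℝ) with hs
  have hs0 : 0 < s := Real.rpow_pos_of_pos ht0 _
  have hs1 : s ≤ 1 := Real.rpow_le_one ht0.le ht1 (by norm_num)
  have hs2 : t ^ (1 / 500 : ℝ) = s ^ 2 := by
    rw [hs, ← Real.rpow_natCast, ← Real.rpow_mul ht0.le]
    norm_num
  have hsi : t ^ (-(1 / 500) : ℝ) = (s ^ 2)⁻¹ := by
    rw [Real.rpow_neg ht0.le, hs2]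
  have hs3 : t ^ (499 / 500 : ℝ) * s ^ 2 = t := by
    rw [← hs2, ← Real.rpow_add ht0]
    norm_num
  have hs21 : s ^ 2 ≤ 1 := pow_le_one₀ hs0.le hs1
  have hs2s : s ^ 2 ≤ s := by nlinarith
  have hxB : x ∈ 𝓖.B 1 := by
    have : 𝓖.g x < 1 := by linarith
    exact this
  have hxg : 0 < 1 - 𝓖.g x := by linarith
  have hbig : ∀ a : ℝ, a ≤ (2 * CK + 8) * L * s → a ≤ (CK * (6 * Cq + 2) + 10) * (L + 1) * s := by
    intro a ha
    refine ha.trans ?_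
    apply mul_le_mul_of_nonneg_right _ hs0.le
    have e1 : 0 ≤ CK * Cq * L := by positivity
    have e2 : 0 ≤ CK * Cq := by positivity
    nlinarith
  rcases le_or_gt (8 * (1 - 𝓖.g x)) (t ^ (499 / 500 : ℝ)) with h1 | h1
  · -- near the boundary
    obtain ⟨Φ, hΦ1, ⟨MΦ, hΦ2⟩, hΦ3, hΦ4⟩ := hΦ x hxB (by linarith) h1
    rw [hsi] at hΦ1
    simp only [hsi] at hΦ2 hΦ3
    rw [hs2] at hΦ4
    simp only [hs2] at hΦ3
    have h2 : 8 * (1 - 𝓖.g x) ≤ 1 := h1.trans (Real.rpow_le_one ht0.le ht1 (by norm_num))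
    have h3 := A1_case1 𝓖 hK hCq hq ht0 hs0 hs1 hL hΔc hΔ (by linarith) h2 hΦ1 hΦ2 hΦ3 hΦ4
    refine h3.trans ?_
    apply mul_le_mul_of_nonneg_right _ hs0.le
    apply mul_le_mul_of_nonneg_right _ (by linarith)
    linarith
  · -- away from the boundary
    have h2 : ‖P Δ x - Δ x‖ ≤ ‖P Δ x‖ + ‖Δ x‖ := norm_sub_le _ _
    have hΔx := hΔ x hxB
    rcases le_or_gt (8 * (1 - 𝓖.g x)) 1 with h3 | h3
    · have h4 := A1_case2 𝓖 hK ht0 hL hΔc hΔ hxg h3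
      set t' : ℝ := 8 * (1 - 𝓖.g x) with ht'
      have ht'0 : 0 < t' := by linarith
      have h5 : t ≤ s ^ 2 * t' := by
        calc t = t ^ (499 / 500 : ℝ) * s ^ 2 := hs3.symm
          _ ≤ t' * s ^ 2 := mul_le_mul_of_nonneg_right h1.le (by positivity)
          _ = s ^ 2 * t' := by ring
      have h6 : L * t / t' ≤ L * s ^ 2 := by
        rw [div_le_iff₀ ht'0]
        calc L * t ≤ L * (s ^ 2 * t') := mul_le_mul_of_nonneg_left h5 hL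
          _ = L * s ^ 2 * t' := by ring
      have h7 : ‖Δ x‖ ≤ 8 * (L * t / t') := by
        have h8 : 1 - 𝓖.g x = t' / 8 := by rw [ht']; ring
        rw [h8] at hΔx
        have h9 : ‖Δ x‖ = 8 * ((t' / 8 * ‖Δ x‖) / t') := by
          field_simp
        rw [h9]
        apply mul_le_mul_of_nonneg_left _ (by norm_num)
        exact div_le_div_of_nonneg_right hΔx ht'0.le
      apply hbig
      have h8 : L * t / t' ≤ L * s := h6.trans (mul_le_mul_of_nonneg_left hs2s hL)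
      calc ‖P Δ x - Δ x‖ ≤ ‖P Δ x‖ + ‖Δ x‖ := h2
        _ ≤ 2 * CK * (L * t / t') + 8 * (L * t / t') := add_le_add h4 h7
        _ = (2 * CK + 8) * (L * t / t') := by ring
        _ ≤ (2 * CK + 8) * (L * s) := mul_le_mul_of_nonneg_left h8 (by positivity)
        _ = (2 * CK + 8) * L * s := by ring
    · have h4 := A1_case3 𝓖 hK ht0 hL hΔc hΔ hP (x := x) (by linarith)
      have h5 : ‖Δ x‖ ≤ 8 * (L * t) := by
        have h6 : 1 / 8 * ‖Δ x‖ ≤ (1 - 𝓖.g x) * ‖Δ x‖ :=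
          mul_le_mul_of_nonneg_right (by linarith) (norm_nonneg _)
        linarith
      have hts : t ≤ s := by
        calc t = t ^ (1 : ℝ) := (Real.rpow_one t).symm
          _ ≤ t ^ (1 / 1000 : ℝ) :=
            Real.rpow_le_rpow_of_exponent_ge ht0 ht1 (by norm_num)
      apply hbig
      have h8 : L * t ≤ L * s := mul_le_mul_of_nonneg_left hts hL
      calc ‖P Δ x - Δ x‖ ≤ ‖P Δ x‖ + ‖Δ x‖ := h2
        _ ≤ 2 * CK * (L * t) + 8 * (L * t) := add_le_add h4 h5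
        _ = (2 * CK + 8) * (L * t) := by ring
        _ ≤ (2 * CK + 8) * (L * s) := mul_le_mul_of_nonneg_left h8 (by positivity)
        _ = (2 * CK + 8) * L * s := by ring

/-- The abstract approximation theorem.
PROOF. `t_j = (1/2)^j`, `Δ_j w = F ((al (j+1) * be j) • w) - F ((al j * be j) • w)` for `w ∈ B 1` (`0 ≤ al j * be j < al (j+1) * be j < 1`). By the radial hypothesis at the point
`(al (j+1) be j) • w` (in `B 1`, `g` = `al (j+1) be j g w`) with `1 - h = al j / al (j+1)`, `h = t_{j+1} / al (j+1) ≤ t_j` (`j ≥ 1`):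
`(1 - g w) ‖Δ_j w‖ ≤ (1 - g (al (j+1) be j w)) ‖Δ_j w‖ ≤ L t_j`. Continuity: composition. `G_{j₀} = G₀`, `G_{j+1} z = G_j z + P (Δ_j) (z / be j)`. By induction on `j ≥ j₀`:
`G_j` is differentiable on `{g z < be j}`, and for `g z < be j`: `‖G_j z - F (al j z)‖ ≤ E₀ + ∑_{i = j₀}^{j-1} C' (L+1) t_i ^ (1/1000)`:
`G_{j+1} z - F (al (j+1) z) = (G_j z - F (al j z)) + (P Δ_j w - Δ_j w)` with `w = z / be j`, and `g z < be (j+1)` gives `g w < be (j+1) / be j ≤ 1 - t_j/40` (`be (j+1) = 1 + t_j/32`).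
(`P Δ_j (z / be j)` is differentiable in `z` for `g z < be j`.) `∑_i t_i ^ (1/1000)` is a geometric series with the ratio `(1/2) ^ (1/1000) < 1`: it is `≤ C'' t_{j₀} ^ (1/1000)`.
So on `B 1`: `‖G_j z‖ ≤ M + E₀ + C` and `SL.ultra_holo` for `𝒰 = Ultrafilter.of atTop`, `i ↦ G_{j₀ + i}` gives `Fs`, the limit along `𝒰`; `F (al j z) → F z` (continuity at the interior point `z`,
`B 1` is open since `g` is continuous), so `‖F z - Fs z‖ ≤ E₀ + C ...`. -/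
theorem la_abs [Nontrivial E] (𝓖 : CX.Geo E) {P : (E → ℂ) → E → ℂ} {CK : ℝ} (hK : 𝓖.Ker P CK) {Cq : ℝ} (hCq : 1 ≤ Cq)
    (hq : ∀ w x, 𝓖.g w < 1 → 𝓖.g x < 1 → 1 - 𝓖.g w ≤ Cq * 𝓖.q w x) :
    ∃ C : ℝ, 1 ≤ C ∧ ∀ (j₀ : ℕ) (F : E → ℂ) (M L E₀ : ℝ), 1 ≤ j₀ → 0 ≤ M → 0 ≤ L → 0 ≤ E₀ →
      ContinuousOn F (𝓖.B 1) → (∀ w ∈ 𝓖.B 1, ‖F w‖ ≤ M) →
      (∀ w ∈ 𝓖.B 1, ∀ h, 0 ≤ h → h ≤ 1 → ‖F w - F (((1 - h : ℝ) : ℂ) • w)‖ * (1 - 𝓖.g w) ≤ L * h) →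
      (∀ j, j₀ ≤ j → ∀ x ∈ 𝓖.B 1, (1 / 2 : ℝ) ^ j / 40 ≤ 1 - 𝓖.g x →
        8 * (1 - 𝓖.g x) ≤ ((1 / 2 : ℝ) ^ j) ^ (499 / 500 : ℝ) →
        ∀ a : ℝ, (a = al j * be j ∨ a = al (j + 1) * be j) →
        ∃ Φ : E → ℂ, DifferentiableOn ℂ Φ {w | w ∈ 𝓖.B 1 ∧ 𝓖.q w x < 64 * (1 - 𝓖.g x) * ((1 / 2 : ℝ) ^ j) ^ (-(1 / 500) : ℝ)} ∧
          (∃ MΦ : ℝ, ∀ w ∈ 𝓖.B 1, 𝓖.q w x < 64 * (1 - 𝓖.g x) * ((1 / 2 : ℝ) ^ j) ^ (-(1 / 500) : ℝ) → ‖Φ w‖ ≤ MΦ) ∧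
          (∀ w ∈ 𝓖.B 1, 𝓖.q w x < 64 * (1 - 𝓖.g x) * ((1 / 2 : ℝ) ^ j) ^ (-(1 / 500) : ℝ) →
            ‖F ((a : ℂ) • w) - Φ w‖ ≤ ((1 / 2 : ℝ) ^ j) ^ (1 / 500 : ℝ)) ∧
          ‖F ((a : ℂ) • x) - Φ x‖ ≤ ((1 / 2 : ℝ) ^ j) ^ (1 / 500 : ℝ)) →
      (∃ G₀ : E → ℂ, DifferentiableOn ℂ G₀ {z | 𝓖.g z < be j₀} ∧
        ∀ z, 𝓖.g z < be j₀ → ‖G₀ z - F (((al j₀ : ℝ) : ℂ) • z)‖ ≤ E₀) →
      ∃ Fs : E → ℂ, DifferentiableOn ℂ Fs (𝓖.B 1) ∧
        ∀ w ∈ 𝓖.B 1, ‖F w - Fs w‖ ≤ E₀ + C * (L + 1) * ((1 / 2 : ℝ) ^ j₀) ^ (1 / 1000 : ℝ) := by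
  obtain ⟨C', hC', hstep⟩ := la_step 𝓖 hK hCq hq
  set r : ℝ := (1 / 2 : ℝ) ^ (1 / 1000 : ℝ) with hr
  have hr0 : 0 < r := Real.rpow_pos_of_pos (by norm_num) _
  have hr1 : r < 1 := Real.rpow_lt_one (by norm_num) (by norm_num) (by norm_num)
  have hti : ∀ i : ℕ, ((1 / 2 : ℝ) ^ i) ^ (1 / 1000 : ℝ) = r ^ i := by
    intro i
    rw [hr, ← Real.rpow_natCast, ← Real.rpow_natCast, ← Real.rpow_mul (by norm_num),
      ← Real.rpow_mul (by norm_num), mul_comm]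
  have h1r : 0 < 1 - r := by linarith
  refine ⟨C' * (1 - r)⁻¹, ?_, ?_⟩
  · have h1 : 1 ≤ (1 - r)⁻¹ := one_le_inv_iff₀.2 ⟨h1r, by linarith⟩
    nlinarith
  intro j₀ F M L E₀ hj₀ hM hL hE₀ hFc hFM hrad hap hG₀
  obtain ⟨G₀, hG₀d, hG₀b⟩ := hG₀
  have hcont := A1_cont 𝓖
  have hBo : IsOpen (𝓖.B 1) := isOpen_lt hcont continuous_const
  -- dilations
  have hdil : ∀ a : ℝ, 0 ≤ a → a < 1 → ∀ w ∈ 𝓖.B 1, ((a : ℂ) • w) ∈ 𝓖.B 1 := by
    intro a ha0 ha1 w hw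
    have h1 : 𝓖.g w < 1 := hw
    have h2 : 𝓖.g ((a : ℂ) • w) < 1 := by
      rw [𝓖.g_smul a w ha0]
      have := 𝓖.g_nonneg w
      nlinarith
    exact h2
  have hFa : ∀ a : ℝ, 0 ≤ a → a < 1 → ContinuousOn (fun w => F ((a : ℂ) • w)) (𝓖.B 1) := by
    intro a ha0 ha1
    refine hFc.comp ?_ (hdil a ha0 ha1)
    exact (continuous_const_smul (a : ℂ)).continuousOn
  let Δ : ℕ → E → ℂ := fun j w =>
    F (((al (j + 1) * be j : ℝ) : ℂ) • w) - F (((al j * be j : ℝ) : ℂ) • w)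
  have hinc : ∀ j, j₀ ≤ j → DifferentiableOn ℂ (P (Δ j)) (𝓖.B 1) ∧
      ∀ x, 𝓖.g x ≤ 1 - (1 / 2) ^ j / 40 → ‖P (Δ j) x - Δ j x‖ ≤ C' * (L + 1) * r ^ j := by
    intro j hj
    have hj1 : 1 ≤ j := hj₀.trans hj
    obtain ⟨ha0, ha1, hb0, hb1, hh, hpos⟩ := A1_num hj1
    have hres := hstep j (Δ j) (2 * M) L hj1 (by positivity) hL
      ((hFa _ ha0 ha1).sub (hFa _ hb0 hb1))
      (by
        intro w hw
        have e1 := hFM _ (hdil _ ha0 ha1 w hw)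
        have e2 := hFM _ (hdil _ hb0 hb1 w hw)
        exact (norm_sub_le _ _).trans (by linarith))
      (by
        intro w hw
        have hw' := hdil _ ha0 ha1 w hw
        have e1 := hrad _ hw' (1 - al j / al (j + 1)) hh.1 hh.2.1
        have e2 : (((1 - (1 - al j / al (j + 1)) : ℝ) : ℂ) •
            (((al (j + 1) * be j : ℝ) : ℂ) • w)) = ((al j * be j : ℝ) : ℂ) • w := by
          rw [smul_smul, ← Complex.ofReal_mul]
          congr 2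
          field_simp
          ring
        rw [e2] at e1
        have e3 : 𝓖.g (((al (j + 1) * be j : ℝ) : ℂ) • w) ≤ 𝓖.g w := by
          rw [𝓖.g_smul _ w ha0]
          have := 𝓖.g_nonneg w
          nlinarith
        have e4 : (1 - 𝓖.g w) * ‖Δ j w‖ ≤
            ‖Δ j w‖ * (1 - 𝓖.g (((al (j + 1) * be j : ℝ) : ℂ) • w)) := by
          rw [mul_comm]
          exact mul_le_mul_of_nonneg_left (by linarith) (norm_nonneg _)
        refine e4.trans (e1.trans ?_)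
        exact mul_le_mul_of_nonneg_left hh.2.2 hL)
      (by
        intro x hx hx1 hx2
        obtain ⟨Φ₁, p1, ⟨M₁, p2⟩, p3, p4⟩ := hap j hj x hx hx1 hx2 (al (j + 1) * be j) (Or.inr rfl)
        obtain ⟨Φ₂, q1, ⟨M₂, q2⟩, q3, q4⟩ := hap j hj x hx hx1 hx2 (al j * be j) (Or.inl rfl)
        have key : ∀ a b c d : ℂ, (a - b) - (c - d) = (a - c) - (b - d) := by
          intro a b c d
          ring
        refine ⟨fun w => Φ₁ w - Φ₂ w, p1.sub q1, ⟨M₁ + M₂, ?_⟩, ?_, ?_⟩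
        · intro w hw hqw
          exact (norm_sub_le _ _).trans (add_le_add (p2 w hw hqw) (q2 w hw hqw))
        · intro w hw hqw
          have e1 := p3 w hw hqw
          have e2 := q3 w hw hqw
          show ‖(F (((al (j + 1) * be j : ℝ) : ℂ) • w) - F (((al j * be j : ℝ) : ℂ) • w)) -
            (Φ₁ w - Φ₂ w)‖ ≤ _
          rw [key]
          exact (norm_sub_le _ _).trans (by linarith)
        · show ‖(F (((al (j + 1) * be j : ℝ) : ℂ) • x) - F (((al j * be j : ℝ) : ℂ) • x)) -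
            (Φ₁ x - Φ₂ x)‖ ≤ _
          rw [key]
          exact (norm_sub_le _ _).trans (by linarith))
    refine ⟨hres.1, ?_⟩
    intro x hx
    have e := hres.2 x hx
    rw [hti] at e
    exact e
  -- the approximations
  let Gf : ℕ → E → ℂ := fun i z =>
    G₀ z + ∑ k ∈ Finset.range i, P (Δ (j₀ + k)) ((((be (j₀ + k))⁻¹ : ℝ) : ℂ) • z)
  have hGf : ∀ i, DifferentiableOn ℂ (Gf i) {z | 𝓖.g z < be (j₀ + i)} ∧
      ∀ z, 𝓖.g z < be (j₀ + i) → ‖Gf i z - F (((al (j₀ + i) : ℝ) : ℂ) • z)‖ ≤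
        E₀ + ∑ k ∈ Finset.range i, C' * (L + 1) * r ^ (j₀ + k) := by
    intro i
    induction i with
    | zero =>
      constructor
      · simpa [Gf] using hG₀d
      · intro z hz
        simpa [Gf] using hG₀b z (by simpa using hz)
    | succ i ih =>
      obtain ⟨ih1, ih2⟩ := ih
      have hj : j₀ ≤ j₀ + i := Nat.le_add_right _ _
      obtain ⟨hd, hb⟩ := hinc (j₀ + i) hj
      have hbpos : 0 < be (j₀ + i) := A1_be_pos _
      have hble : be (j₀ + (i + 1)) ≤ be (j₀ + i) := A1_be_anti _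
      have hquo : be (j₀ + (i + 1)) ≤ (1 - (1 / 2) ^ (j₀ + i) / 40) * be (j₀ + i) := A1_be_quo _
      have hw : ∀ z, 𝓖.g z < be (j₀ + (i + 1)) →
          𝓖.g ((((be (j₀ + i))⁻¹ : ℝ) : ℂ) • z) ≤ 1 - (1 / 2) ^ (j₀ + i) / 40 := by
        intro z hz
        rw [𝓖.g_smul _ z (by positivity), inv_mul_le_iff₀ hbpos]
        linarith
      have hGs : ∀ z, Gf (i + 1) z =
          Gf i z + P (Δ (j₀ + i)) ((((be (j₀ + i))⁻¹ : ℝ) : ℂ) • z) := by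
        intro z
        simp only [Gf]
        rw [Finset.sum_range_succ, add_assoc]
      constructor
      · have e1 : DifferentiableOn ℂ
            (fun z => P (Δ (j₀ + i)) ((((be (j₀ + i))⁻¹ : ℝ) : ℂ) • z))
            {z | 𝓖.g z < be (j₀ + (i + 1))} := by
          refine hd.comp ?_ ?_
          · exact (differentiable_id.const_smul _).differentiableOn
          · intro z hz
            have e2 := hw z hz
            have e3 : (0 : ℝ) < (1 / 2) ^ (j₀ + i) := by positivity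
            have e4 : 𝓖.g ((((be (j₀ + i))⁻¹ : ℝ) : ℂ) • z) < 1 := by linarith
            exact e4
        have e2 : DifferentiableOn ℂ (Gf i) {z | 𝓖.g z < be (j₀ + (i + 1))} :=
          ih1.mono fun z hz => lt_of_lt_of_le hz hble
        exact (e2.add e1).congr fun z _ => hGs z
      · intro z hz
        have e1 := ih2 z (lt_of_lt_of_le hz hble)
        have e2 := hb _ (hw z hz)
        rw [hGs, Finset.sum_range_succ]
        have e3 : Δ (j₀ + i) ((((be (j₀ + i))⁻¹ : ℝ) : ℂ) • z) =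
            F (((al (j₀ + (i + 1)) : ℝ) : ℂ) • z) - F (((al (j₀ + i) : ℝ) : ℂ) • z) := by
          simp only [Δ]
          rw [smul_smul, smul_smul, ← Complex.ofReal_mul, ← Complex.ofReal_mul,
            mul_assoc, mul_assoc, mul_inv_cancel₀ hbpos.ne', mul_one, mul_one]
          rfl
        rw [e3] at e2
        have e4 : Gf i z + P (Δ (j₀ + i)) ((((be (j₀ + i))⁻¹ : ℝ) : ℂ) • z) -
            F (((al (j₀ + (i + 1)) : ℝ) : ℂ) • z) =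
            (Gf i z - F (((al (j₀ + i) : ℝ) : ℂ) • z)) +
            (P (Δ (j₀ + i)) ((((be (j₀ + i))⁻¹ : ℝ) : ℂ) • z) -
              (F (((al (j₀ + (i + 1)) : ℝ) : ℂ) • z) - F (((al (j₀ + i) : ℝ) : ℂ) • z))) := by
          ring
        rw [e4]
        exact (norm_add_le _ _).trans (by linarith)
  -- the geometric series
  set K : ℝ := C' * (1 - r)⁻¹ * (L + 1) * r ^ j₀ with hKdef
  have hK0 : 0 ≤ K := by positivity
  have hgeo : ∀ i, ∑ k ∈ Finset.range i, C' * (L + 1) * r ^ (j₀ + k) ≤ K := by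
    intro i
    have e1 : ∑ k ∈ Finset.range i, C' * (L + 1) * r ^ (j₀ + k) =
        C' * (L + 1) * r ^ j₀ * ∑ k ∈ Finset.range i, r ^ k := by
      rw [Finset.mul_sum]
      refine Finset.sum_congr rfl fun k _ => ?_
      rw [pow_add]
      ring
    have e2 : ∑ k ∈ Finset.range i, r ^ k ≤ (1 - r)⁻¹ := by
      have e3 := (summable_geometric_of_lt_one hr0.le hr1).sum_le_tsum (Finset.range i)
        (fun k _ => by positivity)
      rwa [tsum_geometric_of_lt_one hr0.le hr1] at e3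
    rw [e1, hKdef]
    calc C' * (L + 1) * r ^ j₀ * ∑ k ∈ Finset.range i, r ^ k
        ≤ C' * (L + 1) * r ^ j₀ * (1 - r)⁻¹ := mul_le_mul_of_nonneg_left e2 (by positivity)
      _ = C' * (1 - r)⁻¹ * (L + 1) * r ^ j₀ := by ring
  have hBbe : ∀ i, 𝓖.B 1 ⊆ {z | 𝓖.g z < be i} := by
    intro i z hz
    have e1 : 𝓖.g z < 1 := hz
    have e2 : 1 < be i := by
      unfold be
      have : (0 : ℝ) < (1 / 2) ^ i / 16 := by positivity
      linarith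
    exact e1.trans e2
  have hal : ∀ i, 0 ≤ al i ∧ al i < 1 := by
    intro i
    unfold al
    have e1 : (0 : ℝ) < (1 / 2) ^ i := by positivity
    have e2 : (1 / 2 : ℝ) ^ i ≤ 1 := pow_le_one₀ (by norm_num) (by norm_num)
    constructor <;> linarith
  have hclose : ∀ i, ∀ z ∈ 𝓖.B 1, ‖Gf i z - F (((al (j₀ + i) : ℝ) : ℂ) • z)‖ ≤ E₀ + K := by
    intro i z hz
    have e1 := (hGf i).2 z (hBbe _ hz)
    have e2 := hgeo i
    linarith
  obtain ⟨Fs, hFs1, hFs2, hFs3⟩ := SL.ultra_holo (Ultrafilter.of (atTop : Filter ℕ)) (G := Gf)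
    hBo (M := M + (E₀ + K)) (by positivity) (fun i => (hGf i).1.mono (hBbe _)) (by
      intro i z hz
      have e1 := hclose i z hz
      have e2 := hFM _ (hdil _ (hal (j₀ + i)).1 (hal (j₀ + i)).2 z hz)
      have e3 : Gf i z = F (((al (j₀ + i) : ℝ) : ℂ) • z) +
          (Gf i z - F (((al (j₀ + i) : ℝ) : ℂ) • z)) := by ring
      rw [e3]
      exact (norm_add_le _ _).trans (add_le_add e2 e1))
  refine ⟨Fs, hFs1, ?_⟩
  intro w hw
  have hlim : Tendsto (fun i : ℕ => F (((al (j₀ + i) : ℝ) : ℂ) • w)) atTop (𝓝 (F w)) := by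
    have e1 : Tendsto (fun i : ℕ => al (j₀ + i)) atTop (𝓝 1) := by
      have e2 : Tendsto (fun i : ℕ => (1 / 2 : ℝ) ^ (j₀ + i)) atTop (𝓝 0) := by
        have e3 := tendsto_pow_atTop_nhds_zero_of_lt_one (r := (1 / 2 : ℝ)) (by norm_num)
          (by norm_num)
        have e4 : Tendsto (fun i : ℕ => j₀ + i) atTop atTop :=
          tendsto_atTop_mono (fun i => Nat.le_add_left i j₀) tendsto_id
        exact e3.comp e4
      have e5 := (tendsto_const_nhds (x := (1 : ℝ))).sub e2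
      rw [sub_zero] at e5
      exact e5
    have e3 : Tendsto (fun i : ℕ => ((al (j₀ + i) : ℝ) : ℂ) • w) atTop (𝓝 w) := by
      have e4 : Tendsto (fun i : ℕ => ((al (j₀ + i) : ℝ) : ℂ)) atTop (𝓝 ((1 : ℝ) : ℂ)) :=
        (Complex.continuous_ofReal.tendsto 1).comp e1
      have e5 := e4.smul_const w
      rwa [Complex.ofReal_one, one_smul] at e5
    have e4 : ContinuousAt F w := hFc.continuousAt (hBo.mem_nhds hw)
    exact e4.tendsto.comp e3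
  have hlim2 : Tendsto (fun i : ℕ => ‖F (((al (j₀ + i) : ℝ) : ℂ) • w) - Gf i w‖)
      (Ultrafilter.of (atTop : Filter ℕ) : Filter ℕ) (𝓝 ‖F w - Fs w‖) :=
    ((hlim.mono_left (Ultrafilter.of_le atTop)).sub (hFs3 w hw)).norm
  have hfin : ‖F w - Fs w‖ ≤ E₀ + K := by
    refine le_of_tendsto hlim2 (Eventually.of_forall fun i => ?_)
    rw [norm_sub_rev]
    exact hclose i w hw
  rw [hti]
  exact hfin

end Pool.Agent.MPca0fc2.EQ
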