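import Pool.Agent.Lib.MP_ca0fc2_an.EQ.G1
import Pool.Agent.Lib.MP_ca0fc2_an.Mg.G082

/-! Campaign EQ, task B1: the data in the zones of the nodes: heights, mismatch of consecutive maps, radial variation. -/

set_option autoImplicit false

open Metric Set Filter Topology

namespace Pool.Agent.MPca0fc2.EQ

open Pool.Agent.MPca0fc2.TB (En)

variable {n N : ℕ}

private theorem B1_kn (n : ℕ) : 4 ≤ kn n := by
  unfold kn
  have : (0 : ℝ) ≤ n := Nat.cast_nonneg n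
  linarith

private theorem B1_cube {a b : ℝ} (ha : 0 ≤ a) (hb : 0 ≤ b) : (a + b) ^ 3 ≤ 4 * (a ^ 3 + b ^ 3) := by
  nlinarith [mul_nonneg (add_nonneg ha hb) (sq_nonneg (a - b))]

/-- Heights in the zones.
PROOF. `θ = 1 - ‖y‖ ≤ 10 lam`, `‖y - ν.q‖ ≤ (kn + 4)(rs k + θ) ≤ (kn + 4) 11 lam` (`rs_le`). `Sy.qual` (`‖y‖ ≤ 2`): `-ρ (Ψ y) = u y (1 - ‖y‖²) + err`, `|err| ≤ Cs ((kn + 5)(rs k + θ))³ ≤ C' (rs k ^ 3 + θ³)`; `C' rs k ^ 3 ≤ ts (k+1) / 64 ≤ θ / 16` (`ineqs`), `C' θ³ ≤ C' (10 lam)² θ ≤ θ / 16`.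
`1 - ‖y‖² = θ (2 - θ)`. The last part: `‖Ψ y - e‖ ≤ ‖Ψ y - y‖ + ‖y - q‖ + ‖q - e‖` (`nid`, `qe`). -/
theorem dl (T : Tg n) (Cs : ℝ) : ∃ C : ℝ, 1 ≤ C ∧ ∀ᶠ lam in 𝓝[>] (0 : ℝ), ∀ (sh : ℕ → ℝ) (Sy : Sys T Cs lam sh) (k : ℕ) (ν : Nd n) (y : En n),
    Sy.Good k ν → Zone lam k ν y → 3 / 2 * (1 - ‖y‖) ≤ -T.ρ (ν.Ψ y) ∧ -T.ρ (ν.Ψ y) ≤ 5 / 2 * (1 - ‖y‖) ∧ ‖ν.Ψ y - T.e‖ ≤ C * lam := by
  have hkn := B1_kn n
  obtain ⟨A, hA⟩ : ∃ A : ℝ, A = kn n + 5 := ⟨_, rfl⟩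
  obtain ⟨C', hC'⟩ : ∃ C' : ℝ, C' = 4 * |Cs| * A ^ 3 := ⟨_, rfl⟩
  have hA0 : 0 ≤ A := by linarith
  have hC'0 : 0 ≤ C' := by rw [hC']; positivity
  refine ⟨2 * |Cs| + 11 * (kn n + 4), by have := abs_nonneg Cs; linarith, ?_⟩
  filter_upwards [ineqs (1600 * C' + 16 * |Cs| + 160)] with lam hl sh Sy k ν y hg hz
  obtain ⟨hl0, hl1, hk⟩ := hl
  have hlam : 1600 * (C' * lam) + 16 * (|Cs| * lam) + 160 * lam ≤ 1 := by linarith
  have hCl : 0 ≤ C' * lam := mul_nonneg hC'0 hl0.le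
  have hCsl : 0 ≤ |Cs| * lam := mul_nonneg (abs_nonneg _) hl0.le
  have hl2 : lam ≤ 1 := by linarith
  have hr0 := rs_pos hl0 k
  have hrl := rs_le hl0 hl2 k
  have hk1 := (hk k).1
  obtain ⟨θ, hθ⟩ : ∃ θ : ℝ, θ = 1 - ‖y‖ := ⟨_, rfl⟩
  have hθ0 : 0 < θ := by have := hz.lt; linarith
  have hθ1 : θ ≤ 10 * lam := by have := hz.up; linarith
  have hlo := hz.lo
  have hcen := hz.cen
  rw [← hθ] at hlo hcen
  rw [← hθ]
  have hyn : ‖y‖ = 1 - θ := by linarith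
  have hy2 : ‖y‖ ≤ 2 := by linarith
  obtain ⟨u, hu1, hu2⟩ := Sy.qual k ν hg
  have hu1 := hu1 y hy2
  have hu2 := hu2 y hy2
  have hCs := le_abs_self Cs
  have e1 : rs lam k + ‖y - ν.q‖ ≤ A * (rs lam k + θ) := by
    have h1 : A * (rs lam k + θ) = (kn n + 4) * (rs lam k + θ) + (rs lam k + θ) := by rw [hA]; ring
    linarith
  have e2 : (rs lam k + ‖y - ν.q‖) ^ 3 ≤ (A * (rs lam k + θ)) ^ 3 :=
    pow_le_pow_left₀ (by positivity) e1 3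
  have e3 : Cs * (rs lam k + ‖y - ν.q‖) ^ 3 ≤ C' * (rs lam k ^ 3 + θ ^ 3) := by
    calc Cs * (rs lam k + ‖y - ν.q‖) ^ 3 ≤ |Cs| * (rs lam k + ‖y - ν.q‖) ^ 3 :=
          mul_le_mul_of_nonneg_right hCs (by positivity)
      _ ≤ |Cs| * (A * (rs lam k + θ)) ^ 3 := mul_le_mul_of_nonneg_left e2 (abs_nonneg _)
      _ = |Cs| * A ^ 3 * (rs lam k + θ) ^ 3 := by ring
      _ ≤ |Cs| * A ^ 3 * (4 * (rs lam k ^ 3 + θ ^ 3)) :=
          mul_le_mul_of_nonneg_left (B1_cube hr0.le hθ0.le) (by positivity)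
      _ = C' * (rs lam k ^ 3 + θ ^ 3) := by rw [hC']; ring
  have e4 : C' * rs lam k ^ 3 ≤ θ / 16 := by
    have h1 : 64 * (C' * rs lam k ^ 3) ≤ (1600 * C' + 16 * |Cs| + 160) * rs lam k ^ 3 := by
      have h2 : 0 ≤ rs lam k ^ 3 := by positivity
      have h3 : 0 ≤ C' * rs lam k ^ 3 := mul_nonneg hC'0 h2
      have h4 : 0 ≤ |Cs| * rs lam k ^ 3 := mul_nonneg (abs_nonneg _) h2
      have h5 : (1600 * C' + 16 * |Cs| + 160) * rs lam k ^ 3 =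
        1600 * (C' * rs lam k ^ 3) + 16 * (|Cs| * rs lam k ^ 3) + 160 * rs lam k ^ 3 := by ring
      rw [h5]
      linarith
    linarith
  have e5 : C' * θ ^ 3 ≤ θ / 16 := by
    have h1 : θ ^ 2 ≤ 100 * lam := by
      have h2 : θ * θ ≤ (10 * lam) * (10 * lam) := mul_le_mul hθ1 hθ1 hθ0.le (by linarith)
      have h3 : lam * lam ≤ lam * 1 := mul_le_mul_of_nonneg_left hl2 hl0.le
      nlinarith
    have h4 : C' * θ ^ 2 ≤ C' * (100 * lam) := mul_le_mul_of_nonneg_left h1 hC'0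
    have h5 : C' * θ ^ 2 ≤ 1 / 16 := by linarith
    have h6 : C' * θ ^ 3 = C' * θ ^ 2 * θ := by ring
    rw [h6]
    have h7 : C' * θ ^ 2 * θ ≤ 1 / 16 * θ := mul_le_mul_of_nonneg_right h5 hθ0.le
    linarith
  have e6 : |T.ρ (ν.Ψ y) - u y * (‖y‖ ^ 2 - 1)| ≤ θ / 8 := by
    refine hu2.trans (e3.trans ?_)
    rw [mul_add]
    linarith
  have e7 : |u y - 1| ≤ 1 / 16 := by
    refine hu1.trans ?_
    have h1 : Cs * lam ≤ |Cs| * lam := mul_le_mul_of_nonneg_right hCs hl0.le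
    linarith
  rw [abs_le] at e6 e7
  have e8 : ‖y‖ ^ 2 - 1 = -(θ * (2 - θ)) := by rw [hyn]; ring
  rw [e8] at e6
  have e9 : 31 / 16 * θ ≤ θ * (2 - θ) := by
    have h1 : θ ≤ 1 / 16 := by linarith
    nlinarith
  have e10 : θ * (2 - θ) ≤ 2 * θ := by nlinarith
  have e11 : 15 / 16 * (31 / 16 * θ) ≤ u y * (θ * (2 - θ)) := by
    have h0 : 0 ≤ θ * (2 - θ) := by linarith
    have h1 : 15 / 16 * (θ * (2 - θ)) ≤ u y * (θ * (2 - θ)) :=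
      mul_le_mul_of_nonneg_right (by linarith) h0
    linarith
  have e12 : u y * (θ * (2 - θ)) ≤ 17 / 16 * (2 * θ) := by
    have h0 : 0 ≤ θ * (2 - θ) := by linarith
    have h1 : u y * (θ * (2 - θ)) ≤ 17 / 16 * (θ * (2 - θ)) :=
      mul_le_mul_of_nonneg_right (by linarith) h0
    linarith
  have e13 : u y * -(θ * (2 - θ)) = -(u y * (θ * (2 - θ))) := by ring
  rw [e13] at e6
  refine ⟨by linarith, by linarith, ?_⟩
  have f1 := Sy.nid k ν hg y (by linarith)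
  have f2 := Sy.qe k ν hg
  have f3 : Cs * lam ≤ |Cs| * lam := mul_le_mul_of_nonneg_right hCs hl0.le
  have f4 : ν.Ψ y - T.e = (ν.Ψ y - y) + (y - ν.q) + (ν.q - T.e) := by abel
  have f5 : ‖ν.Ψ y - T.e‖ ≤ ‖ν.Ψ y - y‖ + ‖y - ν.q‖ + ‖ν.q - T.e‖ := by
    rw [f4]
    exact norm_add₃_le
  have f6 : (kn n + 4) * (rs lam k + θ) ≤ (kn n + 4) * (11 * lam) :=
    mul_le_mul_of_nonneg_left (by linarith) (by linarith)
  have f7 : (2 * |Cs| + 11 * (kn n + 4)) * lam = 2 * (|Cs| * lam) + (kn n + 4) * (11 * lam) := by ring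
  rw [f7]
  linarith

/-- In the zones the points are in the domain of the data. -/
theorem dl_mem (T : Tg n) (Cs : ℝ) {s : ℝ} (hs : 0 < s) : ∀ᶠ lam in 𝓝[>] (0 : ℝ), ∀ (sh : ℕ → ℝ) (Sy : Sys T Cs lam sh) (k : ℕ) (ν : Nd n) (y : En n),
    Sy.Good k ν → Zone lam k ν y → ν.Ψ y ∈ T.D ∩ ball T.e s := by
  obtain ⟨C, hC1, hC⟩ := dl T Cs
  have hC0 : 0 < C := by linarith
  filter_upwards [hC, ev_lt (div_pos hs hC0)] with lam h1 h2 sh Sy k ν y hg hz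
  obtain ⟨a1, a2, a3⟩ := h1 sh Sy k ν y hg hz
  have h3 : C * lam < s := by
    have := h2.2
    rw [lt_div_iff₀ hC0] at this
    linarith
  refine ⟨?_, ?_⟩
  · change T.ρ (ν.Ψ y) < 0
    have := hz.lt
    linarith
  · rw [mem_ball, dist_eq_norm]
    linarith

/-- The variation of the data between two points, one of them in a zone.
PROOF. `fl` for `G = f` at `x = ν.Ψ y`, `M = 1`: `-ρ x ≤ 25 lam`, the set of `fl` is in `T.D ∩ ball T.e s`: `‖x' - e‖ < √(25 lam) + C lam < s`, `ρ x' < 0`. `-ρ x ≥ (3/2) (1 - ‖y‖)`. -/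
theorem flz (T : Tg n) (Cs : ℝ) {s : ℝ} (hs : 0 < s) : ∀ᶠ lam in 𝓝[>] (0 : ℝ), ∀ (sh : ℕ → ℝ) (Sy : Sys T Cs lam sh) (f : En n → En N) (k : ℕ) (ν : Nd n)
    (y w : En n), Dat T s f → Sy.Good k ν → Zone lam k ν y → ‖f (ν.Ψ y + w)‖ ≤ 1 →
    ‖f (ν.Ψ y + w) - f (ν.Ψ y)‖ ≤ 16 * T.C * (‖pd T.ρ (ν.Ψ y) w‖ / (1 - ‖y‖) + ‖w‖ / Real.sqrt (1 - ‖y‖)) := by
  obtain ⟨C, hC1, hC⟩ := dl T Cs
  have hC0 : 0 < C := by linarith
  have ha : 0 < s / (2 * C) := by positivity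
  have hb : 0 < s ^ 2 / 100 := by positivity
  filter_upwards [hC, ev_lt ha, ev_lt hb] with lam h1 h2 h3 sh Sy f k ν y w hf hg hz hw
  obtain ⟨a1, a2, a3⟩ := h1 sh Sy k ν y hg hz
  have hl0 := h2.1
  have h4 : C * lam < s / 2 := by
    have := h2.2
    rw [lt_div_iff₀ (by positivity)] at this
    linarith
  have hθ0 : 0 < 1 - ‖y‖ := by have := hz.lt; linarith
  have hθ1 := hz.up
  obtain ⟨δ, hδ⟩ : ∃ δ : ℝ, δ = -T.ρ (ν.Ψ y) := ⟨_, rfl⟩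
  rw [← hδ] at a1 a2
  have hδ0 : 0 < δ := by linarith
  have h5 : Real.sqrt δ ≤ s / 2 := by
    rw [Real.sqrt_le_left (by linarith)]
    have h6 : (s / 2) ^ 2 = 25 * (s ^ 2 / 100) := by ring
    rw [h6]
    have := h3.2
    linarith
  have hin : ∀ x', ‖x' - ν.Ψ y‖ < Real.sqrt (-T.ρ (ν.Ψ y)) → -T.ρ (ν.Ψ y) / 2 < -T.ρ x' →
      x' ∈ T.D ∩ ball T.e s := by
    intro x' h7 h8
    rw [← hδ] at h7 h8
    refine ⟨?_, ?_⟩
    · change T.ρ x' < 0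
      linarith
    · rw [mem_ball, dist_eq_norm]
      have h9 : x' - T.e = (x' - ν.Ψ y) + (ν.Ψ y - T.e) := by abel
      have h10 : ‖x' - T.e‖ ≤ ‖x' - ν.Ψ y‖ + ‖ν.Ψ y - T.e‖ := by
        rw [h9]
        exact norm_add_le _ _
      linarith
  have h11 := fl T f (x := ν.Ψ y) (w := w) (M := 1) (by linarith)
    (hf.hol.mono fun x' hx' => hin x' hx'.1 hx'.2) (fun x' h7 h8 => hf.bd x' (hin x' h7 h8)) hw
  rw [← hδ] at h11
  refine h11.trans ?_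
  rw [mul_one]
  have hTC : 0 ≤ 16 * T.C := by have := T.one_le; linarith
  refine mul_le_mul_of_nonneg_left (add_le_add ?_ ?_) hTC
  · exact div_le_div_of_nonneg_left (norm_nonneg _) hθ0 (by linarith)
  · exact div_le_div_of_nonneg_left (norm_nonneg _) (Real.sqrt_pos.2 hθ0)
      (Real.sqrt_le_sqrt (by linarith))

/-- The mismatch of consecutive maps.
PROOF. `w = ν'.Ψ y - ν.Ψ y`, `ν' = nx k ν c`; `flz` (`f (ν'.Ψ y)` is bounded by `1`: `dl_mem` for `ν'`). `t = ‖y - ν'.q‖ ≤ (kn + 4) (rs (k+1) + θ)`, `θ ≥ ts (k+1) / 4 = rs k ^ 2.7 / 4`, `θ ≤ 10 lam`. `Sy.est'`: `‖pd w‖ / θ ≤ Cs (rs k ^ 3 + rs k ^ 2 t + rs k t²) / θ`: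
`rs k ^ 3 / θ ≤ 4 rs k ^ 0.3`; `rs k ^ 2 (rs (k+1) + θ) / θ ≤ 4 rs k ^ 0.5 + rs k ^ 2`; `rs k (rs (k+1) + θ)² / θ ≤ 2 rs k (rs (k+1)² / θ + θ) ≤ 8 rs k ^ 0.7 + 20 lam rs k`. `Sy.est`: `‖w‖ / √θ ≤ Cs (rs k ^ 3 + rs k t) / √θ`: `rs k ^ 3 / √θ ≤ 2 rs k ^ 1.65`,
`rs k rs (k+1) / √θ ≤ 2 rs k ^ 0.85`, `rs k √θ ≤ 4 rs k`. All are `≤ C rs k ^ 0.3` (`rs k ≤ 1`). -/
theorem mm (T : Tg n) (Cs : ℝ) (N : ℕ) : ∃ C : ℝ, 1 ≤ C ∧ ∀ s > 0, ∀ᶠ lam in 𝓝[>] (0 : ℝ), ∀ (sh : ℕ → ℝ) (Sy : Sys T Cs lam sh) (f : En n → En N) (k : ℕ)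
    (ν : Nd n) (c : Fin n → ℤ × ℤ) (y : En n), Dat T s f → Sy.Good k ν → Zone lam k ν y → Zone lam (k + 1) (Sy.nx k ν c) y →
    ‖f ((Sy.nx k ν c).Ψ y) - f (ν.Ψ y)‖ ≤ C * rs lam k ^ (3 / 10 : ℝ) := by
  have hkn := B1_kn n
  obtain ⟨B, hB⟩ : ∃ B : ℝ, B = kn n + 4 := ⟨_, rfl⟩
  have hB0 : 0 ≤ B := by linarith
  have hTC := T.one_le
  have hTC0 : 0 ≤ T.C := by linarith
  refine ⟨1 + 16 * T.C * (|Cs| * (6 + 8 * B + 10 * B ^ 2)), ?_, ?_⟩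
  · have : 0 ≤ 16 * T.C * (|Cs| * (6 + 8 * B + 10 * B ^ 2)) := by positivity
    linarith
  intro s hs
  filter_upwards [flz (N := N) T Cs hs, dl_mem T Cs hs, ev_lt (show (0 : ℝ) < 1 / 10 by norm_num)]
    with lam h1 h2 h3 sh Sy f k ν c y hf hg hz hz'
  obtain ⟨hl0, hl1⟩ := h3
  have hl2 : lam ≤ 1 := by linarith
  have hg' := Sy.good_nx k ν c hg
  have hy1 := hz.lt
  have hfy : ‖f ((Sy.nx k ν c).Ψ y)‖ ≤ 1 := hf.bd _ (h2 sh Sy (k + 1) _ y hg' hz')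
  obtain ⟨w, hw⟩ : ∃ w : En n, w = (Sy.nx k ν c).Ψ y - ν.Ψ y := ⟨_, rfl⟩
  have hw' : ν.Ψ y + w = (Sy.nx k ν c).Ψ y := by rw [hw]; abel
  have h4 := h1 sh Sy f k ν y w hf hg hz (by rw [hw']; exact hfy)
  rw [hw'] at h4
  refine h4.trans ?_
  obtain ⟨θ, hθ⟩ : ∃ θ : ℝ, θ = 1 - ‖y‖ := ⟨_, rfl⟩
  have hθ0 : 0 < θ := by linarith
  have hθ1 : θ ≤ 1 := by have := hz.up; linarith
  have hlo := hz.lo
  have hcen := hz'.cen
  rw [← hθ, ts_succ hl0] at hlo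
  rw [← hθ] at hcen
  rw [← hθ]
  have hest := Sy.est k ν c hg y (by linarith)
  have hest' := Sy.est' k ν c hg y (by linarith)
  rw [← hw] at hest hest'
  obtain ⟨t, ht⟩ : ∃ t : ℝ, t = ‖y - (Sy.nx k ν c).q‖ := ⟨_, rfl⟩
  have ht0 : 0 ≤ t := by rw [ht]; exact norm_nonneg _
  rw [← ht] at hest hest' hcen
  rw [rs_succ hl0] at hcen
  obtain ⟨r, hr⟩ : ∃ r : ℝ, r = rs lam k := ⟨_, rfl⟩
  have hr0 : 0 < r := by rw [hr]; exact rs_pos hl0 k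
  have hr1 : r ≤ 1 := by rw [hr]; exact (rs_le hl0 hl2 k).trans hl2
  rw [← hr] at hest hest' hcen hlo
  rw [← hr]
  rw [← hB] at hcen
  obtain ⟨X, hX⟩ : ∃ X : ℝ, X = r ^ (3 / 10 : ℝ) := ⟨_, rfl⟩
  rw [← hX]
  have hX0 : 0 < X := by rw [hX]; positivity
  obtain ⟨q, hq⟩ : ∃ q : ℝ, q = r ^ (6 / 5 : ℝ) := ⟨_, rfl⟩
  rw [← hq] at hcen
  have hq0 : 0 < q := by rw [hq]; positivity
  have hle : ∀ a : ℝ, 3 / 10 ≤ a → r ^ a ≤ X := fun a ha => by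
    rw [hX]
    exact Real.rpow_le_rpow_of_exponent_ge hr0 hr1 ha
  have hθp : ∀ a : ℝ, 3 ≤ a → r ^ a ≤ 4 * X * θ := fun a ha => by
    have e1 : r ^ a ≤ r ^ (3 / 10 + 27 / 10 : ℝ) :=
      Real.rpow_le_rpow_of_exponent_ge hr0 hr1 (by norm_num; exact ha)
    rw [Real.rpow_add hr0, ← hX] at e1
    have e2 : X * r ^ (27 / 10 : ℝ) ≤ X * (4 * θ) := mul_le_mul_of_nonneg_left hlo hX0.le
    linarith
  have hs1 : r ^ (27 / 20 : ℝ) ≤ 2 * Real.sqrt θ := by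
    have e1 : Real.sqrt (r ^ (27 / 10 : ℝ)) ≤ Real.sqrt (4 * θ) := Real.sqrt_le_sqrt hlo
    have e2 : Real.sqrt (4 * θ) = 2 * Real.sqrt θ := by
      rw [Real.sqrt_mul (by norm_num), show (4 : ℝ) = 2 ^ 2 by norm_num, Real.sqrt_sq (by norm_num)]
    have e3 : Real.sqrt (r ^ (27 / 10 : ℝ)) = r ^ (27 / 20 : ℝ) := by
      rw [Real.sqrt_eq_rpow, ← Real.rpow_mul hr0.le]
      norm_num
    rw [e2, e3] at e1
    exact e1
  have hsp : ∀ a : ℝ, 33 / 20 ≤ a → r ^ a ≤ 2 * X * Real.sqrt θ := fun a ha => by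
    have e1 : r ^ a ≤ r ^ (3 / 10 + 27 / 20 : ℝ) :=
      Real.rpow_le_rpow_of_exponent_ge hr0 hr1 (by norm_num; exact ha)
    rw [Real.rpow_add hr0, ← hX] at e1
    have e2 : X * r ^ (27 / 20 : ℝ) ≤ X * (2 * Real.sqrt θ) := mul_le_mul_of_nonneg_left hs1 hX0.le
    linarith
  have hsq0 : 0 < Real.sqrt θ := Real.sqrt_pos.2 hθ0
  have hθs : θ ≤ Real.sqrt θ := by
    apply Real.le_sqrt_of_sq_le
    nlinarith
  have p3 : r ^ 3 = r ^ (3 : ℝ) := by norm_cast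
  have p2 : r ^ 2 = r ^ (2 : ℝ) := by norm_cast
  have p1 : r = r ^ (1 : ℝ) := (Real.rpow_one r).symm
  have c1 : r ^ 3 ≤ 4 * X * θ := by rw [p3]; exact hθp 3 le_rfl
  have c2 : r ^ 2 * q ≤ 4 * X * θ := by
    rw [p2, hq, ← Real.rpow_add hr0]
    exact hθp _ (by norm_num)
  have c3 : r * q ^ 2 ≤ 4 * X * θ := by
    have e1 : r * q ^ 2 = r ^ (17 / 5 : ℝ) := by
      rw [hq, ← Real.rpow_natCast, ← Real.rpow_mul hr0.le]
      conv_lhs => rw [p1, ← Real.rpow_mul hr0.le, ← Real.rpow_add hr0]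
      norm_num
    rw [e1]
    exact hθp _ (by norm_num)
  have c4 : r ^ 2 * θ ≤ X * θ := by
    rw [p2]
    exact mul_le_mul_of_nonneg_right (hle 2 (by norm_num)) hθ0.le
  have hrX : r ≤ X := by
    have := hle 1 (by norm_num)
    rwa [Real.rpow_one] at this
  have c5 : r * θ ^ 2 ≤ X * θ := by
    have e1 : r * θ ≤ X * 1 := mul_le_mul hrX hθ1 hθ0.le hX0.le
    have e2 : r * θ ^ 2 = r * θ * θ := by ring
    rw [e2]
    have e3 := mul_le_mul_of_nonneg_right e1 hθ0.le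
    linarith
  have c6 : r ^ 3 ≤ 2 * X * Real.sqrt θ := by rw [p3]; exact hsp 3 (by norm_num)
  have c7 : r * q ≤ 2 * X * Real.sqrt θ := by
    have e1 : r * q = r ^ (11 / 5 : ℝ) := by
      rw [hq]
      conv_lhs => rw [p1, ← Real.rpow_mul hr0.le, ← Real.rpow_add hr0]
      norm_num
    rw [e1]
    exact hsp _ (by norm_num)
  have c8 : r * θ ≤ X * Real.sqrt θ := mul_le_mul hrX hθs hθ0.le hX0.le
  have hCs := le_abs_self Cs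
  have hC0 := abs_nonneg Cs
  have g1 : r ^ 2 * t ≤ B * (5 * X * θ) := by
    have e1 : r ^ 2 * t ≤ r ^ 2 * (B * (q + θ)) := mul_le_mul_of_nonneg_left hcen (by positivity)
    have e2 : r ^ 2 * (B * (q + θ)) = B * (r ^ 2 * q + r ^ 2 * θ) := by ring
    rw [e2] at e1
    have e3 : B * (r ^ 2 * q + r ^ 2 * θ) ≤ B * (5 * X * θ) :=
      mul_le_mul_of_nonneg_left (by linarith) hB0
    linarith
  have g2 : r * t ^ 2 ≤ B ^ 2 * (10 * X * θ) := by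
    have e0 : t ^ 2 ≤ (B * (q + θ)) ^ 2 := pow_le_pow_left₀ ht0 hcen 2
    have e1 : r * t ^ 2 ≤ r * (B * (q + θ)) ^ 2 := mul_le_mul_of_nonneg_left e0 hr0.le
    have e2 : r * (B * (q + θ)) ^ 2 = B ^ 2 * (r * (q + θ) ^ 2) := by ring
    have e4 : r * (q + θ) ^ 2 ≤ r * (2 * q ^ 2 + 2 * θ ^ 2) :=
      mul_le_mul_of_nonneg_left (by nlinarith [sq_nonneg (q - θ)]) hr0.le
    have e5 : r * (2 * q ^ 2 + 2 * θ ^ 2) = 2 * (r * q ^ 2) + 2 * (r * θ ^ 2) := by ring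
    have e6 : B ^ 2 * (r * (q + θ) ^ 2) ≤ B ^ 2 * (10 * X * θ) :=
      mul_le_mul_of_nonneg_left (by linarith) (by positivity)
    linarith
  have g3 : r * t ≤ B * (3 * X * Real.sqrt θ) := by
    have e1 : r * t ≤ r * (B * (q + θ)) := mul_le_mul_of_nonneg_left hcen hr0.le
    have e2 : r * (B * (q + θ)) = B * (r * q + r * θ) := by ring
    rw [e2] at e1
    have e3 : B * (r * q + r * θ) ≤ B * (3 * X * Real.sqrt θ) :=
      mul_le_mul_of_nonneg_left (by linarith) hB0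
    linarith
  have i1 : ‖pd T.ρ (ν.Ψ y) w‖ ≤ |Cs| * (4 + 5 * B + 10 * B ^ 2) * X * θ := by
    have e1 : 0 ≤ r ^ 3 + r ^ 2 * t + r * t ^ 2 := by positivity
    have e2 : Cs * (r ^ 3 + r ^ 2 * t + r * t ^ 2) ≤ |Cs| * (r ^ 3 + r ^ 2 * t + r * t ^ 2) :=
      mul_le_mul_of_nonneg_right hCs e1
    have e3 : |Cs| * (r ^ 3 + r ^ 2 * t + r * t ^ 2) ≤
        |Cs| * (4 * X * θ + B * (5 * X * θ) + B ^ 2 * (10 * X * θ)) :=
      mul_le_mul_of_nonneg_left (by linarith) hC0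
    have e4 : |Cs| * (4 * X * θ + B * (5 * X * θ) + B ^ 2 * (10 * X * θ)) =
      |Cs| * (4 + 5 * B + 10 * B ^ 2) * X * θ := by ring
    linarith
  have i2 : ‖w‖ ≤ |Cs| * (2 + 3 * B) * X * Real.sqrt θ := by
    have e1 : 0 ≤ r ^ 3 + r * t := by positivity
    have e2 : Cs * (r ^ 3 + r * t) ≤ |Cs| * (r ^ 3 + r * t) := mul_le_mul_of_nonneg_right hCs e1
    have e3 : |Cs| * (r ^ 3 + r * t) ≤ |Cs| * (2 * X * Real.sqrt θ + B * (3 * X * Real.sqrt θ)) :=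
      mul_le_mul_of_nonneg_left (by linarith) hC0
    have e4 : |Cs| * (2 * X * Real.sqrt θ + B * (3 * X * Real.sqrt θ)) =
      |Cs| * (2 + 3 * B) * X * Real.sqrt θ := by ring
    linarith
  have j1 : ‖pd T.ρ (ν.Ψ y) w‖ / θ ≤ |Cs| * (4 + 5 * B + 10 * B ^ 2) * X := by
    rw [div_le_iff₀ hθ0]
    exact i1
  have j2 : ‖w‖ / Real.sqrt θ ≤ |Cs| * (2 + 3 * B) * X := by
    rw [div_le_iff₀ hsq0]
    exact i2
  have k1 : 16 * T.C * (‖pd T.ρ (ν.Ψ y) w‖ / θ + ‖w‖ / Real.sqrt θ) ≤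
      16 * T.C * (|Cs| * (4 + 5 * B + 10 * B ^ 2) * X + |Cs| * (2 + 3 * B) * X) :=
    mul_le_mul_of_nonneg_left (add_le_add j1 j2) (by positivity)
  refine k1.trans ?_
  have k2 : (1 + 16 * T.C * (|Cs| * (6 + 8 * B + 10 * B ^ 2))) * X =
      X + 16 * T.C * (|Cs| * (4 + 5 * B + 10 * B ^ 2) * X + |Cs| * (2 + 3 * B) * X) := by ring
  rw [k2]
  linarith

/-- The radial variation.
PROOF. WLOG `a ≥ b`. `y = a • u`, `w = ν.Ψ (b • u) - ν.Ψ (a • u)`, `‖w‖ ≤ 2 (a - b) ‖u‖` (`Sy.lip`, `Cs lam ≤ 1`), `‖pd w‖ ≤ ‖dρ‖ ‖w‖ ≤ 3 ‖w‖` (`pd_le`, `fd_le`, the point is near `e`). `flz`; `θ = 1 - a ‖u‖ ≤ 1`, `1/√θ ≤ 1/θ`. -/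
theorem rlf (T : Tg n) (Cs : ℝ) (N : ℕ) : ∃ C : ℝ, 1 ≤ C ∧ ∀ s > 0, ∀ᶠ lam in 𝓝[>] (0 : ℝ), ∀ (sh : ℕ → ℝ) (Sy : Sys T Cs lam sh) (f : En n → En N) (k : ℕ)
    (ν : Nd n) (u : En n) (a b : ℝ), Dat T s f → Sy.Good k ν → ‖u‖ ≤ 1 → 0 ≤ a → 0 ≤ b → a ≤ 1 → b ≤ 1 → Zone lam k ν (a • u) → Zone lam k ν (b • u) →
    ‖f (ν.Ψ (a • u)) - f (ν.Ψ (b • u))‖ ≤ C * |a - b| / (1 - max a b * ‖u‖) := by
  have hTC := T.one_le
  refine ⟨128 * T.C, by linarith, ?_⟩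
  intro s hs
  obtain ⟨C1, hC11, hC1⟩ := dl T Cs
  have hpos : 0 < 1 / (T.C * C1 + |Cs| + 1) := by
    have h1 : 0 < T.C * C1 := mul_pos (by linarith) (by linarith)
    have := abs_nonneg Cs
    positivity
  filter_upwards [flz (N := N) T Cs hs, dl_mem T Cs hs, hC1, ev_lt hpos]
    with lam h1 h2 h3 h4 sh Sy f k ν u a b hf hg hu ha hb ha1 hb1 hza hzb
  obtain ⟨hl0, hl1⟩ := h4
  have hTC1 : 0 < T.C * C1 := mul_pos (by linarith) (by linarith)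
  have hden : 0 < T.C * C1 + |Cs| + 1 := by
    have := abs_nonneg Cs
    linarith
  rw [lt_div_iff₀ hden] at hl1
  have hl2 : T.C * (C1 * lam) + |Cs| * lam ≤ 1 := by nlinarith
  have hCl : 0 ≤ |Cs| * lam := mul_nonneg (abs_nonneg _) hl0.le
  have hCl' : 0 ≤ T.C * (C1 * lam) := by
    have := mul_pos hTC1 hl0
    nlinarith
  have key : ∀ a b : ℝ, 0 ≤ a → 0 ≤ b → a ≤ 1 → b ≤ 1 → b ≤ a → Zone lam k ν (a • u) →
      Zone lam k ν (b • u) → ‖f (ν.Ψ (a • u)) - f (ν.Ψ (b • u))‖ ≤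
        128 * T.C * |a - b| / (1 - a * ‖u‖) := by
    intro a b ha hb ha1 hb1 hab hza hzb
    obtain ⟨w, hw⟩ : ∃ w : En n, w = ν.Ψ (b • u) - ν.Ψ (a • u) := ⟨_, rfl⟩
    have hw' : ν.Ψ (a • u) + w = ν.Ψ (b • u) := by rw [hw]; abel
    have hfb : ‖f (ν.Ψ (b • u))‖ ≤ 1 := hf.bd _ (h2 sh Sy k ν _ hg hzb)
    have h5 := h1 sh Sy f k ν (a • u) w hf hg hza (by rw [hw']; exact hfb)
    rw [hw'] at h5
    have hna : ‖a • u‖ = a * ‖u‖ := by rw [norm_smul, Real.norm_of_nonneg ha]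
    have hnb : ‖b • u‖ = b * ‖u‖ := by rw [norm_smul, Real.norm_of_nonneg hb]
    have hlt := hza.lt
    rw [hna] at h5 hlt
    obtain ⟨θ, hθ⟩ : ∃ θ : ℝ, θ = 1 - a * ‖u‖ := ⟨_, rfl⟩
    rw [← hθ] at h5
    rw [← hθ]
    have hθ0 : 0 < θ := by linarith
    have hau : 0 ≤ a * ‖u‖ := mul_nonneg ha (norm_nonneg _)
    have hθ1 : θ ≤ 1 := by linarith
    have ha4 : ‖a • u‖ ≤ 4 := by rw [hna]; linarith
    have hb4 : ‖b • u‖ ≤ 4 := by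
      have := hzb.lt
      linarith
    have h6 := Sy.lip k ν hg (b • u) (a • u) hb4 ha4
    rw [← hw] at h6
    have h7 : ‖b • u - a • u‖ ≤ |a - b| := by
      rw [← sub_smul, norm_smul, Real.norm_eq_abs, abs_sub_comm]
      have := abs_nonneg (a - b)
      nlinarith
    have h8 : w = (w - (b • u - a • u)) + (b • u - a • u) := by abel
    have h9 : ‖w‖ ≤ 2 * |a - b| := by
      have e1 : ‖w‖ ≤ ‖w - (b • u - a • u)‖ + ‖b • u - a • u‖ := by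
        conv_lhs => rw [h8]
        exact norm_add_le _ _
      have e2 : Cs * lam * ‖b • u - a • u‖ ≤ 1 * ‖b • u - a • u‖ := by
        refine mul_le_mul_of_nonneg_right ?_ (norm_nonneg _)
        have : Cs * lam ≤ |Cs| * lam := mul_le_mul_of_nonneg_right (le_abs_self _) hl0.le
        linarith
      linarith
    have h10 : ‖fderiv ℝ T.ρ (ν.Ψ (a • u))‖ ≤ 3 := by
      have e1 := fd_le T (ν.Ψ (a • u))
      have e2 := (h3 sh Sy k ν (a • u) hg hza).2.2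
      have e3 : T.C * ‖ν.Ψ (a • u) - T.e‖ ≤ T.C * (C1 * lam) :=
        mul_le_mul_of_nonneg_left e2 (by linarith)
      linarith
    have h11 : ‖pd T.ρ (ν.Ψ (a • u)) w‖ ≤ 6 * |a - b| := by
      refine (pd_le _ _ _).trans ?_
      have e1 : ‖fderiv ℝ T.ρ (ν.Ψ (a • u))‖ * ‖w‖ ≤ 3 * (2 * |a - b|) :=
        mul_le_mul h10 h9 (norm_nonneg _) (by norm_num)
      linarith
    have hθs : θ ≤ Real.sqrt θ := by
      apply Real.le_sqrt_of_sq_le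
      nlinarith
    have h12 : ‖pd T.ρ (ν.Ψ (a • u)) w‖ / θ ≤ 6 * |a - b| / θ :=
      div_le_div_of_nonneg_right h11 hθ0.le
    have h13 : ‖w‖ / Real.sqrt θ ≤ 2 * |a - b| / θ :=
      div_le_div₀ (by positivity) h9 hθ0 hθs
    rw [norm_sub_rev]
    refine h5.trans ?_
    have h14 : 128 * T.C * |a - b| / θ = 16 * T.C * (6 * |a - b| / θ + 2 * |a - b| / θ) := by ring
    rw [h14]
    exact mul_le_mul_of_nonneg_left (add_le_add h12 h13) (by linarith)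
  rcases le_total b a with hab | hab
  · rw [max_eq_left hab]
    exact key a b ha hb ha1 hb1 hab hza hzb
  · rw [max_eq_right hab, norm_sub_rev, abs_sub_comm]
    exact key b a hb ha hb1 ha1 hab hzb hza

/-- The points of evaluation are in the zones.
PROOF. `t = ts (k+1)`, `θ = 1 - (1 - S - t) ‖u‖ = (1 - ‖u‖) + (S + t) ‖u‖`. `S ‖u‖ ≤ 1 - (1 - S) ‖u‖ ≤ 6 lam`, so `S ≤ 12 lam` and `0 ≤ 1 - S - t`, `‖(1 - S - t) • u‖ = (1 - S - t) ‖u‖`. `lt`: clear. `lo`: `θ ≥ t ‖u‖ ≥ t/2`. `up`: `θ ≤ 1 - (1 - S) ‖u‖ + t ≤ 6 lam`.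
`cen`: `‖y - q‖ ≤ (S + t) ‖u‖ + ‖u - rad v‖ + ‖rad v - q‖ ≤ (S + t) ‖u‖ + rs (k + m) + (1 - ‖u‖) + (kn + 1) rs k ≤ θ + (kn + 2) rs k` (`rs_anti`). -/
theorem ev_zone (n : ℕ) : ∀ᶠ lam in 𝓝[>] (0 : ℝ), ∀ (m k : ℕ) (ν : Nd n) (S : ℝ) (v u : En n), EV lam m k ν S v u →
    Zone lam k ν ((1 - S - ts lam (k + 1)) • u) := by
  have hkn := B1_kn n
  filter_upwards [ev_lt (show (0 : ℝ) < 1 / 15 by norm_num)] with lam hl m k ν S v u h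
  obtain ⟨hl0, hl1⟩ := hl
  have ht0 := ts_pos hl0 (k + 1)
  obtain ⟨t, ht⟩ : ∃ t : ℝ, t = ts lam (k + 1) := ⟨_, rfl⟩
  have hup := h.up
  rw [← ht] at ht0 hup
  rw [← ht]
  have hlt := h.lt
  have hge := h.ge
  have hS := h.S0
  have hSu : S * (1 / 2) ≤ S * ‖u‖ := mul_le_mul_of_nonneg_left hge hS
  have htu : t * (1 / 2) ≤ t * ‖u‖ := mul_le_mul_of_nonneg_left hge ht0.le
  have htu1 : t * ‖u‖ ≤ t * 1 := mul_le_mul_of_nonneg_left hlt.le ht0.le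
  have e1 : (1 - S) * ‖u‖ = ‖u‖ - S * ‖u‖ := by ring
  rw [e1] at hup
  have hc : 0 ≤ 1 - S - t := by linarith
  have hn : ‖(1 - S - t) • u‖ = ‖u‖ - S * ‖u‖ - t * ‖u‖ := by
    rw [norm_smul, Real.norm_of_nonneg hc]
    ring
  have hr0 := rs_pos hl0 k
  refine ⟨?_, ?_, ?_, ?_⟩
  · rw [hn]
    linarith
  · rw [hn, ← ht]
    linarith
  · rw [hn]
    linarith
  · rw [hn]
    have e2 : (1 - S - t) • u - ν.q = -((S + t) • u) + (u - rad v) + (rad v - ν.q) := by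
      rw [sub_smul, sub_smul, one_smul, add_smul]
      abel
    have e3 : ‖(1 - S - t) • u - ν.q‖ ≤ ‖-((S + t) • u)‖ + ‖u - rad v‖ + ‖rad v - ν.q‖ := by
      rw [e2]
      exact norm_add₃_le
    have e4 : ‖-((S + t) • u)‖ = S * ‖u‖ + t * ‖u‖ := by
      rw [norm_neg, norm_smul, Real.norm_of_nonneg (by linarith)]
      ring
    rw [e4] at e3
    have e5 := h.near
    have e6 := h.cen
    have e7 : rs lam (k + m) ≤ rs lam k := rs_anti hl0 (by linarith) (Nat.le_add_right k m)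
    obtain ⟨θ, hθ⟩ : ∃ θ : ℝ, θ = 1 - (‖u‖ - S * ‖u‖ - t * ‖u‖) := ⟨_, rfl⟩
    rw [← hθ]
    have hθ0 : 0 ≤ θ := by linarith
    have e8 : (kn n + 4) * (rs lam k + θ) = (kn n + 1) * rs lam k + 3 * rs lam k + (kn n + 4) * θ := by
      ring
    have e9 : 1 * θ ≤ (kn n + 4) * θ := mul_le_mul_of_nonneg_right (by linarith) hθ0
    rw [e8]
    linarith

/-- The same without the last shift, if the point is not too near to the boundary. -/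
theorem ev_zone' (n : ℕ) : ∀ᶠ lam in 𝓝[>] (0 : ℝ), ∀ (m k : ℕ) (ν : Nd n) (S : ℝ) (v u : En n), EV lam m k ν S v u →
    ts lam (k + 1) ≤ 2 * (1 - (1 - S) * ‖u‖) → Zone lam k ν ((1 - S) • u) := by
  have hkn := B1_kn n
  filter_upwards [ev_lt (show (0 : ℝ) < 1 / 15 by norm_num)] with lam hl m k ν S v u h hh
  obtain ⟨hl0, hl1⟩ := hl
  have ht0 := ts_pos hl0 (k + 1)
  obtain ⟨t, ht⟩ : ∃ t : ℝ, t = ts lam (k + 1) := ⟨_, rfl⟩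
  have hup := h.up
  rw [← ht] at ht0 hup hh
  have hlt := h.lt
  have hge := h.ge
  have hS := h.S0
  have hSu : S * (1 / 2) ≤ S * ‖u‖ := mul_le_mul_of_nonneg_left hge hS
  have e1 : (1 - S) * ‖u‖ = ‖u‖ - S * ‖u‖ := by ring
  rw [e1] at hup hh
  have hc : 0 ≤ 1 - S := by linarith
  have hn : ‖(1 - S) • u‖ = ‖u‖ - S * ‖u‖ := by
    rw [norm_smul, Real.norm_of_nonneg hc]
    ring
  have hr0 := rs_pos hl0 k
  refine ⟨?_, ?_, ?_, ?_⟩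
  · rw [hn]
    linarith
  · rw [hn, ← ht]
    linarith
  · rw [hn]
    linarith
  · rw [hn]
    have e2 : (1 - S) • u - ν.q = -(S • u) + (u - rad v) + (rad v - ν.q) := by
      rw [sub_smul, one_smul]
      abel
    have e3 : ‖(1 - S) • u - ν.q‖ ≤ ‖-(S • u)‖ + ‖u - rad v‖ + ‖rad v - ν.q‖ := by
      rw [e2]
      exact norm_add₃_le
    have e4 : ‖-(S • u)‖ = S * ‖u‖ := by
      rw [norm_neg, norm_smul, Real.norm_of_nonneg hS]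
    rw [e4] at e3
    have e5 := h.near
    have e6 := h.cen
    have e7 : rs lam (k + m) ≤ rs lam k := rs_anti hl0 (by linarith) (Nat.le_add_right k m)
    obtain ⟨θ, hθ⟩ : ∃ θ : ℝ, θ = 1 - (‖u‖ - S * ‖u‖) := ⟨_, rfl⟩
    rw [← hθ]
    have hθ0 : 0 ≤ θ := by linarith
    have e8 : (kn n + 4) * (rs lam k + θ) = (kn n + 1) * rs lam k + 3 * rs lam k + (kn n + 4) * θ := by
      ring
    have e9 : 1 * θ ≤ (kn n + 4) * θ := mul_le_mul_of_nonneg_right (by linarith) hθ0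
    rw [e8]
    linarith

private theorem B1_cs {lam : ℝ} (h : 0 < lam) (sh : ℕ → ℝ) (k : ℕ) (ν : Nd n) (v : En n) :
    0 ≤ cw lam sh k ν v ∧ cw lam sh k ν v ≤ 1 ∧
    0 ≤ sw lam sh k ν v ∧ sw lam sh k ν v ≤ ts lam (k + 1) ∧
    (cw lam sh k ν v < 1 → sw lam sh k ν v = ts lam (k + 1)) := by
  have ht := ts_pos h (k + 1)
  have hs0 : 0 ≤ sig (es lam (k + 1)) (wk lam sh (k + 1) (ν.Ψ (rad v))) := clp_nonneg _
  have hs1 : sig (es lam (k + 1)) (wk lam sh (k + 1) (ν.Ψ (rad v))) ≤ 1 := clp_le_one _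
  refine ⟨clp_nonneg _, clp_le_one _, ?_, ?_, ?_⟩
  · unfold sw
    positivity
  · unfold sw
    have h1 : sig (es lam (k + 1)) (wk lam sh (k + 1) (ν.Ψ (rad v))) ^ 4 ≤ 1 :=
      pow_le_one₀ hs0 hs1
    have h2 := mul_le_mul_of_nonneg_left h1 ht.le
    linarith
  · intro hc
    have h1 := sig_of_chi (es_pos h (k + 1)) hc
    unfold sw
    rw [h1]
    ring

/-- The next level.
PROOF. `0 ≤ sw ≤ ts (k+1)` (`0 ≤ sig ≤ 1`). `up`: `1 - (1 - S - sw) ‖u‖ + 2 ts (k+2) ≤ 1 - (1 - S) ‖u‖ + ts (k+1) + ts (k+1)` (`2 ts (k+2) ≤ ts (k+1)`: `ineqs`). `cen`: `Sy.cen` for `w = rad v` (`‖rad v‖ = 1`), and `kn / 2 ≤ kn + 1`. `near`: `k + (m + 1) = (k + 1) + m`. -/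
theorem ev_next (T : Tg n) (Cs : ℝ) : ∀ᶠ lam in 𝓝[>] (0 : ℝ), ∀ (sh : ℕ → ℝ) (Sy : Sys T Cs lam sh) (m k : ℕ) (ν : Nd n) (S : ℝ) (v u : En n),
    Sy.Good k ν → EV lam (m + 1) k ν S v u →
    EV lam m (k + 1) (nn lam sh Sy.nx k ν v) (S + sw lam sh k ν v) v u ∧ Sy.Good (k + 1) (nn lam sh Sy.nx k ν v) := by
  filter_upwards [ineqs 2] with lam hl sh Sy m k ν S v u hg h
  obtain ⟨hl0, -, hk⟩ := hl
  have hts : 2 * ts lam (k + 2) ≤ ts lam (k + 1) := (hk k).2.2.2.2.1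
  obtain ⟨-, -, hs0, hs1, -⟩ := B1_cs hl0 sh k ν v
  have hrad : ‖rad v‖ = 1 := by
    unfold rad
    rw [norm_smul, norm_inv, norm_norm]
    exact inv_mul_cancel₀ (norm_ne_zero_iff.2 h.v0)
  refine ⟨⟨h.lt, h.ge, by have := h.S0; linarith, ?_, ?_, ?_, h.v0⟩, Sy.good_nx k ν _ hg⟩
  · have hup := h.up
    have hlt := h.lt
    have hge := h.ge
    change 1 - (1 - (S + sw lam sh k ν v)) * ‖u‖ + 2 * ts lam (k + 2) ≤ 6 * lam
    have e1 : (1 - (S + sw lam sh k ν v)) * ‖u‖ = (1 - S) * ‖u‖ - sw lam sh k ν v * ‖u‖ := by ring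
    have e2 : sw lam sh k ν v * ‖u‖ ≤ sw lam sh k ν v * 1 := mul_le_mul_of_nonneg_left hlt.le hs0
    rw [e1]
    linarith
  · have e1 := Sy.cen k ν (rad v) hg hrad h.cen
    have e2 : kn n / 2 * rs lam (k + 1) ≤ (kn n + 1) * rs lam (k + 1) := by
      refine mul_le_mul_of_nonneg_right ?_ (rs_pos hl0 _).le
      have := B1_kn n
      linarith
    exact e1.trans e2
  · have e1 := h.near
    rw [show k + 1 + m = k + (m + 1) by omega]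
    exact e1

/-- PROOF. `0 ≤ cw ≤ 1`, `0 ≤ sw ≤ ts (k+1)`. -/
theorem cw_sw {lam : ℝ} (h : 0 < lam) (sh : ℕ → ℝ) (k : ℕ) (ν : Nd n) (v : En n) : 0 ≤ cw lam sh k ν v ∧ cw lam sh k ν v ≤ 1 ∧
    0 ≤ sw lam sh k ν v ∧ sw lam sh k ν v ≤ ts lam (k + 1) ∧ (cw lam sh k ν v < 1 → sw lam sh k ν v = ts lam (k + 1)) := by
  exact B1_cs h sh k ν v

end Pool.Agent.MPca0fc2.EQ
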