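import Pool.Agent.Lib.MP_ca0fc2_an.EQ.B1

/-! Campaign EQ, task B2: the transplanted function: bounds, holomorphy, radial variation. -/

set_option autoImplicit false

open Metric Set Filter Topology

namespace Pool.Agent.MPca0fc2.EQ

open Pool.Agent.MPca0fc2.TB (En)

variable {n N : ℕ}

private theorem B2_cvx {c M : ℝ} (h0 : 0 ≤ c) (h1 : c ≤ 1) {x y : En N} (hx : ‖x‖ ≤ M) (hy : ‖y‖ ≤ M) :
    ‖(1 - c) • x + c • y‖ ≤ M := by
  calc ‖(1 - c) • x + c • y‖ ≤ ‖(1 - c) • x‖ + ‖c • y‖ := norm_add_le _ _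
    _ = (1 - c) * ‖x‖ + c * ‖y‖ := by
        rw [norm_smul, norm_smul, Real.norm_of_nonneg h0, Real.norm_of_nonneg (by linarith)]
    _ ≤ (1 - c) * M + c * M :=
        add_le_add (mul_le_mul_of_nonneg_left hx (by linarith)) (mul_le_mul_of_nonneg_left hy h0)
    _ = M := by ring

private theorem B2_S {lam : ℝ} (hp : 0 < lam) (h6 : lam < 1 / 6) {m k : ℕ} {ν : Nd n} {S : ℝ} {v u : En n}
    (h : EV lam m k ν S v u) : 0 ≤ 1 - S - ts lam (k + 1) ∧ 1 - S - ts lam (k + 1) ≤ 1 ∧ 0 ≤ 1 - S ∧ 1 - S ≤ 1 := by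
  have ht := ts_pos hp (k + 1)
  have h1 := h.lt
  have h2 := h.ge
  have h3 := h.up
  have h4 := h.S0
  have hpos : 0 < (1 - S) * ‖u‖ := by linarith
  have hS : 0 < 1 - S := by
    by_contra hc
    push Not at hc
    have := mul_nonpos_of_nonpos_of_nonneg hc (norm_nonneg u)
    linarith
  have h5 : (1 - S) * ‖u‖ ≤ (1 - S) * 1 := mul_le_mul_of_nonneg_left h1.le hS.le
  refine ⟨by linarith, by linarith, hS.le, by linarith⟩

private theorem B2_zone {lam : ℝ} (hp : 0 < lam) (hl1 : lam ≤ 1) {m k : ℕ} {ν : Nd n} {S S' : ℝ} {v u : En n}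
    (h : EV lam m k ν S v u) (h0 : 0 ≤ S') (h1 : 0 ≤ 1 - S') (hlo : ts lam (k + 1) ≤ 4 * (1 - (1 - S') * ‖u‖))
    (hup : 1 - (1 - S') * ‖u‖ ≤ 10 * lam) : Zone lam k ν ((1 - S') • u) := by
  have hn : ‖(1 - S') • u‖ = (1 - S') * ‖u‖ := by rw [norm_smul, Real.norm_of_nonneg h1]
  have hlt := h.lt
  refine ⟨?_, by rw [hn]; exact hlo, by rw [hn]; exact hup, ?_⟩
  · rw [hn]
    have : (1 - S') * ‖u‖ ≤ 1 * ‖u‖ := mul_le_mul_of_nonneg_right (by linarith) (norm_nonneg _)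
    linarith
  · rw [hn]
    have e : (1 - S') • u - ν.q = -(S' • u) + ((u - rad v) + (rad v - ν.q)) := by
      rw [sub_smul, one_smul]
      abel
    have h2 : ‖-(S' • u)‖ = S' * ‖u‖ := by rw [norm_neg, norm_smul, Real.norm_of_nonneg h0]
    have h3 : ‖(1 - S') • u - ν.q‖ ≤ S' * ‖u‖ + (‖u - rad v‖ + ‖rad v - ν.q‖) := by
      rw [e, ← h2]
      exact (norm_add_le _ _).trans (add_le_add le_rfl (norm_add_le _ _))
    have h4 := h.near
    have h5 := h.cen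
    have h6 : rs lam (k + m) ≤ rs lam k := rs_anti hp hl1 (Nat.le_add_right k m)
    have h7 := rs_pos hp k
    have hk : 0 ≤ kn n := by unfold kn; positivity
    have h8 : 0 ≤ 1 - (1 - S') * ‖u‖ := by
      have : (1 - S') * ‖u‖ ≤ 1 * 1 := mul_le_mul (by linarith) hlt.le (norm_nonneg _) zero_le_one
      linarith
    have h9 := mul_nonneg hk h8
    nlinarith [h9, h8, h7, hk]

private theorem B2_rl (T : Tg n) (Cs : ℝ) (N : ℕ) : ∃ C : ℝ, 1 ≤ C ∧ ∀ s > 0, ∀ᶠ lam in 𝓝[>] (0 : ℝ), ∀ (sh : ℕ → ℝ) (Sy : Sys T Cs lam sh) (f : En n → En N) (m k : ℕ)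
    (ν : Nd n) (S S' a : ℝ) (v u : En n), Dat T s f → Sy.Good k ν → 0 < a → a ≤ 1 → EV lam m k ν S v u → EV lam m k ν S' v (a • u) →
    ‖f (ν.Ψ ((1 - S - ts lam (k + 1)) • u)) - f (ν.Ψ ((1 - S' - ts lam (k + 1)) • (a • u)))‖ ≤
      C * (|S - S'| + (1 - a)) / (1 - ‖u‖) := by
  obtain ⟨C, hC, h⟩ := rlf T Cs N
  refine ⟨C, hC, fun s hs => ?_⟩
  filter_upwards [h s hs, ev_zone n, ev_lt (show (0 : ℝ) < 1 / 6 by norm_num)] with lam hrl hz hp
  intro sh Sy f m k ν S S' a v u hD hG ha0 ha1 hE hE'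
  have e1 := B2_S hp.1 hp.2 hE
  have e2 := B2_S hp.1 hp.2 hE'
  have z1 := hz m k ν S v u hE
  have z2 := hz m k ν S' v (a • u) hE'
  have hu := hE.lt
  set b1 : ℝ := (1 - S' - ts lam (k + 1)) * a with hb1
  have hb0 : 0 ≤ b1 := mul_nonneg e2.1 ha0.le
  have hb1' : b1 ≤ 1 := by
    calc b1 ≤ 1 * 1 := mul_le_mul e2.2.1 ha1 ha0.le zero_le_one
      _ = 1 := one_mul 1
  have es : (1 - S' - ts lam (k + 1)) • (a • u) = b1 • u := by rw [smul_smul]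
  rw [es] at z2 ⊢
  refine (hrl sh Sy f k ν u _ _ hD hG hu.le e1.1 hb0 e1.2.1 hb1' z1 z2).trans ?_
  have h1 : |(1 - S - ts lam (k + 1)) - b1| ≤ |S - S'| + (1 - a) := by
    have e : (1 - S - ts lam (k + 1)) - b1 = -(S - S') + (1 - S' - ts lam (k + 1)) * (1 - a) := by
      rw [hb1]
      ring
    rw [e]
    refine (abs_add_le _ _).trans ?_
    rw [abs_neg]
    refine add_le_add le_rfl ?_
    rw [abs_of_nonneg (mul_nonneg e2.1 (by linarith))]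
    calc (1 - S' - ts lam (k + 1)) * (1 - a) ≤ 1 * (1 - a) :=
          mul_le_mul_of_nonneg_right e2.2.1 (by linarith)
      _ = 1 - a := one_mul _
  have h2 : 1 - ‖u‖ ≤ 1 - max (1 - S - ts lam (k + 1)) b1 * ‖u‖ := by
    have : max (1 - S - ts lam (k + 1)) b1 * ‖u‖ ≤ 1 * ‖u‖ :=
      mul_le_mul_of_nonneg_right (max_le e1.2.1 hb1') (norm_nonneg _)
    linarith
  have h3 : 0 < 1 - ‖u‖ := by linarith
  have hC0 : 0 ≤ C := by linarith
  have h4 : 0 ≤ |S - S'| + (1 - a) := add_nonneg (abs_nonneg _) (by linarith)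
  calc C * |(1 - S - ts lam (k + 1)) - b1| / (1 - max (1 - S - ts lam (k + 1)) b1 * ‖u‖)
      ≤ C * (|S - S'| + (1 - a)) / (1 - max (1 - S - ts lam (k + 1)) b1 * ‖u‖) :=
        div_le_div_of_nonneg_right (mul_le_mul_of_nonneg_left h1 hC0) (by linarith)
    _ ≤ C * (|S - S'| + (1 - a)) / (1 - ‖u‖) :=
        div_le_div_of_nonneg_left (mul_nonneg hC0 h4) h3 h2

/-- PROOF. Induction on `m`: `f` at the points `ν.Ψ ((1 - S - t) • u)` is bounded by `1` (`ev_zone`, `dl_mem`), `0 ≤ cw ≤ 1`, convexity; `ev_next`. -/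
theorem fz_bd (T : Tg n) (Cs : ℝ) {s : ℝ} (hs : 0 < s) : ∀ᶠ lam in 𝓝[>] (0 : ℝ), ∀ (sh : ℕ → ℝ) (Sy : Sys T Cs lam sh) (f : En n → En N) (m k : ℕ)
    (ν : Nd n) (S : ℝ) (v u : En n), Dat T s f → Sy.Good k ν → EV lam m k ν S v u → ‖Fz lam sh Sy.nx f m k ν S v u‖ ≤ 1 := by
  filter_upwards [ev_zone n, dl_mem T Cs hs, ev_next T Cs, ev_lt one_pos] with lam hz hm hn hp
  intro sh Sy f m
  induction m with
  | zero =>
    intro k ν S v u hD hG hE
    exact hD.bd _ (hm sh Sy k ν _ hG (hz 0 k ν S v u hE))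
  | succ m ih =>
    intro k ν S v u hD hG hE
    have hc := cw_sw hp.1 sh k ν v
    have hx := hn sh Sy m k ν S v u hG hE
    exact B2_cvx hc.1 hc.2.1 (hD.bd _ (hm sh Sy k ν _ hG (hz (m + 1) k ν S v u hE)))
      (ih _ _ _ v u hD hx.2 hx.1)

/-- PROOF. Induction on `m`: `u ↦ f (ν.Ψ ((1 - S - t) • u))` is differentiable on `U` (composition; `ev_zone`, `dl_mem`, `Dat.hol` on the open set `T.D ∩ ball`); the cutoffs do not depend on `u`. -/
theorem fz_hol (T : Tg n) (Cs : ℝ) {s : ℝ} (hs : 0 < s) : ∀ᶠ lam in 𝓝[>] (0 : ℝ), ∀ (sh : ℕ → ℝ) (Sy : Sys T Cs lam sh) (f : En n → En N) (m k : ℕ)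
    (ν : Nd n) (S : ℝ) (v : En n) (U : Set (En n)), Dat T s f → Sy.Good k ν → IsOpen U → (∀ u ∈ U, EV lam m k ν S v u) →
    DifferentiableOn ℂ (fun u => Fz lam sh Sy.nx f m k ν S v u) U := by
  filter_upwards [ev_zone n, dl_mem T Cs hs, ev_next T Cs] with lam hz hm hn
  intro sh Sy f m
  have base : ∀ (m k : ℕ) (ν : Nd n) (S : ℝ) (v : En n) (U : Set (En n)), Dat T s f → Sy.Good k ν →
      (∀ u ∈ U, EV lam m k ν S v u) →
      DifferentiableOn ℂ (fun u => f (ν.Ψ ((1 - S - ts lam (k + 1)) • u))) U := by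
    intro m k ν S v U hD hG hE
    have h1 : Differentiable ℂ (fun u : En n => (1 - S - ts lam (k + 1)) • u) :=
      differentiable_id.const_smul (1 - S - ts lam (k + 1))
    have h2 : Differentiable ℂ (fun u : En n => ν.Ψ ((1 - S - ts lam (k + 1)) • u)) :=
      (Sy.hol k ν hG).comp h1
    exact hD.hol.comp h2.differentiableOn
      (fun u hu => hm sh Sy k ν _ hG (hz m k ν S v u (hE u hu)))
  induction m with
  | zero =>
    intro k ν S v U hD hG _ hE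
    exact base 0 k ν S v U hD hG hE
  | succ m ih =>
    intro k ν S v U hD hG hU hE
    rcases U.eq_empty_or_nonempty with hem | ⟨u0, hu0⟩
    · rw [hem]
      exact differentiableOn_empty
    · have hG' := (hn sh Sy m k ν S v u0 hG (hE u0 hu0)).2
      have h1 := (base (m + 1) k ν S v U hD hG hE).const_smul (1 - cw lam sh k ν v)
      have h2 := (ih (k + 1) (nn lam sh Sy.nx k ν v) (S + sw lam sh k ν v) v U hD hG' hU
        (fun u hu => (hn sh Sy m k ν S v u hG (hE u hu)).1)).const_smul (cw lam sh k ν v)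
      exact h1.add h2

/-- The variation in the radial direction and in the shift (the cutoffs and cells are those of `v`).
PROOF. Induction on `m`, with the constant `C` of the terms: `rlf` for `a' = 1 - S - t` and `b' = (1 - S' - t) a`: `|a' - b'| ≤ |S - S'| + (1 - a)`, and `1 - max a' b' ‖u‖ ≥ 1 - ‖u‖`. The convex combination has the same weights on both sides, and at the next level the
shifts `S + sw`, `S' + sw` have the same difference. (`(b') • u = (1 - S' - t) • (a • u)`.) -/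
theorem fz_rl (T : Tg n) (Cs : ℝ) (N : ℕ) : ∃ C : ℝ, 1 ≤ C ∧ ∀ s > 0, ∀ᶠ lam in 𝓝[>] (0 : ℝ), ∀ (sh : ℕ → ℝ) (Sy : Sys T Cs lam sh) (f : En n → En N) (m k : ℕ)
    (ν : Nd n) (S S' a : ℝ) (v u : En n), Dat T s f → Sy.Good k ν → 0 < a → a ≤ 1 → EV lam m k ν S v u → EV lam m k ν S' v (a • u) →
    ‖Fz lam sh Sy.nx f m k ν S v u - Fz lam sh Sy.nx f m k ν S' v (a • u)‖ ≤ C * (|S - S'| + (1 - a)) / (1 - ‖u‖) := by
  obtain ⟨C, hC, h⟩ := B2_rl T Cs N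
  refine ⟨C, hC, fun s hs => ?_⟩
  filter_upwards [h s hs, ev_next T Cs, ev_lt one_pos] with lam hrl hn hp
  intro sh Sy f m
  induction m with
  | zero =>
    intro k ν S S' a v u hD hG ha0 ha1 hE hE'
    exact hrl sh Sy f 0 k ν S S' a v u hD hG ha0 ha1 hE hE'
  | succ m ih =>
    intro k ν S S' a v u hD hG ha0 ha1 hE hE'
    have hc := cw_sw hp.1 sh k ν v
    have hx := hn sh Sy m k ν S v u hG hE
    have hx' := hn sh Sy m k ν S' v (a • u) hG hE'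
    have h1 := hrl sh Sy f (m + 1) k ν S S' a v u hD hG ha0 ha1 hE hE'
    have h2 := ih (k + 1) (nn lam sh Sy.nx k ν v) (S + sw lam sh k ν v) (S' + sw lam sh k ν v) a v u hD hx.2
      ha0 ha1 hx.1 hx'.1
    rw [add_sub_add_right_eq_sub] at h2
    have e : Fz lam sh Sy.nx f (m + 1) k ν S v u - Fz lam sh Sy.nx f (m + 1) k ν S' v (a • u) =
        (1 - cw lam sh k ν v) • (f (ν.Ψ ((1 - S - ts lam (k + 1)) • u)) -
          f (ν.Ψ ((1 - S' - ts lam (k + 1)) • (a • u)))) +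
        cw lam sh k ν v • (Fz lam sh Sy.nx f m (k + 1) (nn lam sh Sy.nx k ν v) (S + sw lam sh k ν v) v u -
          Fz lam sh Sy.nx f m (k + 1) (nn lam sh Sy.nx k ν v) (S' + sw lam sh k ν v) v (a • u)) := by
      simp only [Fz, smul_sub]
      abel
    rw [e]
    exact B2_cvx hc.1 hc.2.1 h1 h2

/-- The function is near the value of `f` with the map of the first level, if the height is large compared with the next frozen height.
PROOF. `θ = 1 - (1 - S) ‖u‖`, `t = ts (k+1)`. Induction on `m`, claim with `C₅ = 4 C₆`. Level 0 and the first term: `rlf` between `1 - S` and `1 - S - t`: `≤ C₆ t / θ` (`ev_zone`, `ev_zone'`). If `cw > 0`: `ν' = nn ..`, `S' = S + sw`, `S ≤ S' ≤ S + t`, `θ' = 1 - (1 - S') ‖u‖ ≥ θ`,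
`ts (k+2) ≤ ts (k+1) ≤ 2 θ ≤ 2 θ'`: the induction hypothesis: `‖Fz m (k+1) ν' S' - f (ν'.Ψ ((1 - S') • u))‖ ≤ C₅ (ts (k+2)/θ + rs (k+1) ^ 0.3)`; `mm` at `y = (1 - S') • u` (zones of both: `ev_zone'` for both levels; for `ν`, `EV (m+1) k ν S' v u` holds too, except `up`: use
`1 - (1 - S') ‖u‖ + 2 ts (k+2)` of `ev_next` and that `ev_zone'` only needs the upper bound `10 lam`; prove the zone directly): `≤ C₆ rs k ^ 0.3`; `rlf` for `ν` between `1 - S'` and `1 - S`: `≤ C₆ t / θ`. Sum: `≤ C₆ (t/θ + rs k ^ 0.3) + C₅ (ts (k+2)/θ + rs (k+1) ^ 0.3) ≤ C₅ (t/θ + rs k ^ 0.3)`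
as `2 ts (k+2) ≤ ts (k+1)` and `2 rs (k+1) ^ 0.3 ≤ rs k ^ 0.3` (`ineqs`, `half`). -/
theorem fz_cl (T : Tg n) (Cs : ℝ) (N : ℕ) : ∃ C : ℝ, 1 ≤ C ∧ ∀ s > 0, ∀ᶠ lam in 𝓝[>] (0 : ℝ), ∀ (sh : ℕ → ℝ) (Sy : Sys T Cs lam sh) (f : En n → En N) (m k : ℕ)
    (ν : Nd n) (S : ℝ) (v u : En n), Dat T s f → Sy.Good k ν → EV lam m k ν S v u → ts lam (k + 1) ≤ 2 * (1 - (1 - S) * ‖u‖) →
    ‖Fz lam sh Sy.nx f m k ν S v u - f (ν.Ψ ((1 - S) • u))‖ ≤ C * (ts lam (k + 1) / (1 - (1 - S) * ‖u‖) + rs lam k ^ (3 / 10 : ℝ)) := by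
  obtain ⟨C1, hC1, h1⟩ := rlf T Cs N
  obtain ⟨C2, hC2, h2⟩ := mm T Cs N
  set C6 : ℝ := max C1 C2 with hC6
  have hC61 : C1 ≤ C6 := le_max_left _ _
  have hC62 : C2 ≤ C6 := le_max_right _ _
  have hC60 : 1 ≤ C6 := hC1.trans hC61
  refine ⟨4 * C6, by linarith, fun s hs => ?_⟩
  filter_upwards [h1 s hs, h2 s hs, ev_zone n, ev_zone' n, ev_next T Cs,
    ev_lt (show (0 : ℝ) < 1 / 6 by norm_num), ineqs 2,
    half 2 (show (0 : ℝ) < 3 / 10 by norm_num)] with lam hrl hmm hz hz' hn hp hin hhalf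
  have hlam1 : lam ≤ 1 := by linarith [hp.2]
  intro sh Sy f
  -- the first term
  have first : ∀ (m k : ℕ) (ν : Nd n) (S : ℝ) (v u : En n), Dat T s f → Sy.Good k ν →
      EV lam m k ν S v u → ts lam (k + 1) ≤ 2 * (1 - (1 - S) * ‖u‖) →
      ‖f (ν.Ψ ((1 - S - ts lam (k + 1)) • u)) - f (ν.Ψ ((1 - S) • u))‖ ≤
        C6 * (ts lam (k + 1) / (1 - (1 - S) * ‖u‖)) := by
    intro m k ν S v u hD hG hE hθ
    have e1 := B2_S hp.1 hp.2 hE
    have ht := ts_pos hp.1 (k + 1)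
    have hθ0 : 0 < 1 - (1 - S) * ‖u‖ := by linarith
    have h3 := hrl sh Sy f k ν u (1 - S - ts lam (k + 1)) (1 - S) hD hG hE.lt.le e1.1 e1.2.2.1 e1.2.1
      e1.2.2.2 (hz m k ν S v u hE) (hz' m k ν S v u hE hθ)
    rw [max_eq_right (show 1 - S - ts lam (k + 1) ≤ 1 - S by linarith)] at h3
    have e2 : |1 - S - ts lam (k + 1) - (1 - S)| = ts lam (k + 1) := by
      rw [show 1 - S - ts lam (k + 1) - (1 - S) = -ts lam (k + 1) by ring, abs_neg, abs_of_pos ht]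
    rw [e2] at h3
    refine h3.trans ?_
    rw [mul_div_assoc]
    exact mul_le_mul_of_nonneg_right hC61 (div_nonneg ht.le hθ0.le)
  intro m
  induction m with
  | zero =>
    intro k ν S v u hD hG hE hθ
    have ht := ts_pos hp.1 (k + 1)
    have hθ0 : 0 < 1 - (1 - S) * ‖u‖ := by linarith
    refine (first 0 k ν S v u hD hG hE hθ).trans ?_
    have h3 : 0 ≤ ts lam (k + 1) / (1 - (1 - S) * ‖u‖) := div_nonneg ht.le hθ0.le
    have h4 : 0 ≤ rs lam k ^ (3 / 10 : ℝ) := Real.rpow_nonneg (rs_pos hp.1 k).le _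
    nlinarith
  | succ m ih =>
    intro k ν S v u hD hG hE hθ
    have ht := ts_pos hp.1 (k + 1)
    have hθ0 : 0 < 1 - (1 - S) * ‖u‖ := by linarith
    have hA : 0 ≤ ts lam (k + 1) / (1 - (1 - S) * ‖u‖) := div_nonneg ht.le hθ0.le
    have hR : 0 ≤ rs lam k ^ (3 / 10 : ℝ) := Real.rpow_nonneg (rs_pos hp.1 k).le _
    have hc := cw_sw hp.1 sh k ν v
    have hf := first (m + 1) k ν S v u hD hG hE hθ
    have hb : ‖f (ν.Ψ ((1 - S - ts lam (k + 1)) • u)) - f (ν.Ψ ((1 - S) • u))‖ ≤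
        4 * C6 * (ts lam (k + 1) / (1 - (1 - S) * ‖u‖) + rs lam k ^ (3 / 10 : ℝ)) := by
      refine hf.trans ?_
      nlinarith
    have hx := hn sh Sy m k ν S v u hG hE
    set S' : ℝ := S + sw lam sh k ν v with hS'
    set ν' := nn lam sh Sy.nx k ν v with hν'
    have e1 := B2_S hp.1 hp.2 hE
    have e1' := B2_S hp.1 hp.2 hx.1
    have hu0 := norm_nonneg u
    have hu1 := hE.lt
    have hSS : S ≤ S' := by rw [hS']; linarith [hc.2.2.1]
    have hSt : S' ≤ S + ts lam (k + 1) := by rw [hS']; linarith [hc.2.2.2.1]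
    have hθθ : 1 - (1 - S) * ‖u‖ ≤ 1 - (1 - S') * ‖u‖ := by
      have : (1 - S') * ‖u‖ ≤ (1 - S) * ‖u‖ := mul_le_mul_of_nonneg_right (by linarith) hu0
      linarith
    have ht2 : 2 * ts lam (k + 1 + 1) ≤ ts lam (k + 1) := (hin.2.2 k).2.2.2.2.1
    have ht2p := ts_pos hp.1 (k + 1 + 1)
    have hθ' : ts lam (k + 1 + 1) ≤ 2 * (1 - (1 - S') * ‖u‖) := by linarith
    have hih := ih (k + 1) ν' S' v u hD hx.2 hx.1 hθ'
    have z0 : Zone lam k ν ((1 - S') • u) := by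
      refine B2_zone hp.1 hlam1 hE (by linarith [hE.S0]) e1'.2.2.1 (by linarith) ?_
      have h3 := hE.up
      have h4 : (1 - S) * ‖u‖ - ts lam (k + 1) ≤ (1 - S') * ‖u‖ := by
        have h5 : (1 - S - ts lam (k + 1)) * ‖u‖ ≤ (1 - S') * ‖u‖ :=
          mul_le_mul_of_nonneg_right (by linarith) hu0
        have h6 : ts lam (k + 1) * ‖u‖ ≤ ts lam (k + 1) * 1 := mul_le_mul_of_nonneg_left hu1.le ht.le
        nlinarith
      linarith [hp.1]
    have z1 : Zone lam (k + 1) ν' ((1 - S') • u) := hz' m (k + 1) ν' S' v u hx.1 hθ'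
    have hm1 : ‖f (ν'.Ψ ((1 - S') • u)) - f (ν.Ψ ((1 - S') • u))‖ ≤ C6 * rs lam k ^ (3 / 10 : ℝ) :=
      (hmm sh Sy f k ν _ _ hD hG z0 z1).trans (mul_le_mul_of_nonneg_right hC62 hR)
    have hr1 : ‖f (ν.Ψ ((1 - S') • u)) - f (ν.Ψ ((1 - S) • u))‖ ≤
        C6 * (ts lam (k + 1) / (1 - (1 - S) * ‖u‖)) := by
      have h3 := hrl sh Sy f k ν u (1 - S') (1 - S) hD hG hu1.le e1'.2.2.1 e1.2.2.1 e1'.2.2.2
        e1.2.2.2 z0 (hz' (m + 1) k ν S v u hE hθ)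
      rw [max_eq_right (show 1 - S' ≤ 1 - S by linarith)] at h3
      have e2 : |1 - S' - (1 - S)| ≤ ts lam (k + 1) := by
        rw [abs_le]
        constructor <;> linarith
      refine h3.trans ?_
      rw [mul_div_assoc]
      refine mul_le_mul hC61 (div_le_div_of_nonneg_right e2 hθ0.le)
        (div_nonneg (abs_nonneg _) hθ0.le) (by linarith)
    have hdiv : ts lam (k + 1 + 1) / (1 - (1 - S') * ‖u‖) ≤
        1 / 2 * (ts lam (k + 1) / (1 - (1 - S) * ‖u‖)) := by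
      calc ts lam (k + 1 + 1) / (1 - (1 - S') * ‖u‖) ≤ ts lam (k + 1 + 1) / (1 - (1 - S) * ‖u‖) :=
            div_le_div_of_nonneg_left ht2p.le hθ0 hθθ
        _ ≤ (1 / 2 * ts lam (k + 1)) / (1 - (1 - S) * ‖u‖) :=
            div_le_div_of_nonneg_right (by linarith) hθ0.le
        _ = 1 / 2 * (ts lam (k + 1) / (1 - (1 - S) * ‖u‖)) := by ring
    have hrs : rs lam (k + 1) ^ (3 / 10 : ℝ) ≤ 1 / 2 * rs lam k ^ (3 / 10 : ℝ) := by
      have := hhalf k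
      linarith
    have hF : ‖Fz lam sh Sy.nx f m (k + 1) ν' S' v u - f (ν.Ψ ((1 - S) • u))‖ ≤
        4 * C6 * (ts lam (k + 1) / (1 - (1 - S) * ‖u‖) + rs lam k ^ (3 / 10 : ℝ)) := by
      have e3 : Fz lam sh Sy.nx f m (k + 1) ν' S' v u - f (ν.Ψ ((1 - S) • u)) =
          (Fz lam sh Sy.nx f m (k + 1) ν' S' v u - f (ν'.Ψ ((1 - S') • u))) +
          ((f (ν'.Ψ ((1 - S') • u)) - f (ν.Ψ ((1 - S') • u))) +
            (f (ν.Ψ ((1 - S') • u)) - f (ν.Ψ ((1 - S) • u)))) := by abel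
      rw [e3]
      refine (norm_add_le _ _).trans ((add_le_add le_rfl (norm_add_le _ _)).trans ?_)
      have h5 : 4 * C6 * (ts lam (k + 1 + 1) / (1 - (1 - S') * ‖u‖) + rs lam (k + 1) ^ (3 / 10 : ℝ)) ≤
          4 * C6 * (1 / 2 * (ts lam (k + 1) / (1 - (1 - S) * ‖u‖)) + 1 / 2 * rs lam k ^ (3 / 10 : ℝ)) :=
        mul_le_mul_of_nonneg_left (add_le_add hdiv hrs) (by linarith)
      have h6 := hih.trans h5
      have h7 : 0 ≤ C6 * (ts lam (k + 1) / (1 - (1 - S) * ‖u‖)) := mul_nonneg (by linarith) hA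
      have h8 : 0 ≤ C6 * rs lam k ^ (3 / 10 : ℝ) := mul_nonneg (by linarith) hR
      linarith
    have e : Fz lam sh Sy.nx f (m + 1) k ν S v u - f (ν.Ψ ((1 - S) • u)) =
        (1 - cw lam sh k ν v) • (f (ν.Ψ ((1 - S - ts lam (k + 1)) • u)) - f (ν.Ψ ((1 - S) • u))) +
        cw lam sh k ν v • (Fz lam sh Sy.nx f m (k + 1) ν' S' v u - f (ν.Ψ ((1 - S) • u))) := by
      simp only [Fz, smul_sub, sub_smul, one_smul]
      abel
    rw [e]
    exact B2_cvx hc.1 hc.2.1 hb hF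

/-- At each point the function is near a value of `f`.
PROOF. Induction on `m`. `m = 0` or `cw = 0`: the value `f (ν.Ψ ((1 - S - t) • u))` itself. `cw = 1`: the induction hypothesis (`rs (k+1) ^ 0.3 ≤ rs k ^ 0.3`). `0 < cw < 1`: then `sw = t = ts (k+1)` (`cw_sw`), `S' = S + t`, and by `fz_cl` at the level `k + 1`
(`θ' = 1 - (1 - S') ‖u‖ ≥ t ‖u‖ ≥ t / 2`, `ts (k+2) ≤ t ≤ 2 θ'`): `‖Fz m (k+1) ν' S' - f (ν'.Ψ ((1 - S') • u))‖ ≤ C (2 ts (k+2)/ts (k+1) + rs (k+1) ^ 0.3)`, `ts (k+2) / ts (k+1) = rs (k+1) ^ 0.45 ≤ rs k ^ 0.3`; `mm`: `‖f (ν'.Ψ y) - f (ν.Ψ y)‖ ≤ C rs k ^ 0.3`, `y = (1 - S - t) • u`.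
So the convex combination is near `f (ν.Ψ y)`. -/
theorem fz_lb (T : Tg n) (Cs : ℝ) (N : ℕ) : ∃ C : ℝ, 1 ≤ C ∧ ∀ s > 0, ∀ᶠ lam in 𝓝[>] (0 : ℝ), ∀ (sh : ℕ → ℝ) (Sy : Sys T Cs lam sh) (f : En n → En N) (m k : ℕ)
    (ν : Nd n) (S : ℝ) (v u : En n), Dat T s f → Sy.Good k ν → EV lam m k ν S v u →
    ∃ x ∈ T.D ∩ ball T.e s, ‖Fz lam sh Sy.nx f m k ν S v u - f x‖ ≤ C * rs lam k ^ (3 / 10 : ℝ) := by
  obtain ⟨C4, hC4, h4⟩ := fz_cl T Cs N
  obtain ⟨C2, hC2, h2⟩ := mm T Cs N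
  refine ⟨3 * C4 + C2, by linarith, fun s hs => ?_⟩
  filter_upwards [h4 s hs, h2 s hs, ev_zone n, ev_zone' n, ev_next T Cs, dl_mem T Cs hs,
    ev_lt (show (0 : ℝ) < 1 / 6 by norm_num), ineqs 2] with lam hcl hmm hz hz' hn hdl hp hin
  have hlam1 : lam ≤ 1 := by linarith [hp.2]
  intro sh Sy f m
  induction m with
  | zero =>
    intro k ν S v u hD hG hE
    refine ⟨_, hdl sh Sy k ν _ hG (hz 0 k ν S v u hE), ?_⟩
    have e : Fz lam sh Sy.nx f 0 k ν S v u = f (ν.Ψ ((1 - S - ts lam (k + 1)) • u)) := rfl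
    rw [e, sub_self, norm_zero]
    exact mul_nonneg (by linarith) (Real.rpow_nonneg (rs_pos hp.1 k).le _)
  | succ m ih =>
    intro k ν S v u hD hG hE
    have hc := cw_sw hp.1 sh k ν v
    have hR : 0 ≤ rs lam k ^ (3 / 10 : ℝ) := Real.rpow_nonneg (rs_pos hp.1 k).le _
    have hx := hn sh Sy m k ν S v u hG hE
    have hrsle : rs lam (k + 1) ^ (3 / 10 : ℝ) ≤ rs lam k ^ (3 / 10 : ℝ) :=
      Real.rpow_le_rpow (rs_pos hp.1 (k + 1)).le (rs_anti hp.1 hlam1 (Nat.le_succ k)) (by norm_num)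
    have eF : Fz lam sh Sy.nx f (m + 1) k ν S v u =
        (1 - cw lam sh k ν v) • f (ν.Ψ ((1 - S - ts lam (k + 1)) • u)) +
        cw lam sh k ν v • Fz lam sh Sy.nx f m (k + 1) (nn lam sh Sy.nx k ν v) (S + sw lam sh k ν v) v u :=
      rfl
    rcases eq_or_lt_of_le hc.1 with hc0 | hc0
    · refine ⟨_, hdl sh Sy k ν _ hG (hz (m + 1) k ν S v u hE), ?_⟩
      rw [eF, ← hc0, sub_zero, one_smul, zero_smul, add_zero, sub_self, norm_zero]
      exact mul_nonneg (by linarith) hR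
    rcases eq_or_lt_of_le hc.2.1 with hc1 | hc1
    · obtain ⟨x, hxm, hxx⟩ := ih (k + 1) (nn lam sh Sy.nx k ν v) (S + sw lam sh k ν v) v u hD hx.2 hx.1
      refine ⟨x, hxm, ?_⟩
      rw [eF, hc1, sub_self, zero_smul, zero_add, one_smul]
      exact hxx.trans (mul_le_mul_of_nonneg_left hrsle (by linarith))
    have hsw := hc.2.2.2.2 hc1
    rw [hsw] at hx eF
    have ht := ts_pos hp.1 (k + 1)
    have ht2p := ts_pos hp.1 (k + 1 + 1)
    have ht2 : 2 * ts lam (k + 1 + 1) ≤ ts lam (k + 1) := (hin.2.2 k).2.2.2.2.1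
    have e1 := B2_S hp.1 hp.2 hE
    have hu0 := norm_nonneg u
    have hu1 := hE.lt
    have hu2 := hE.ge
    set ν' := nn lam sh Sy.nx k ν v with hν'
    have hθlo : 1 / 2 * ts lam (k + 1) ≤ 1 - (1 - (S + ts lam (k + 1))) * ‖u‖ := by
      have h5 : (1 - S) * ‖u‖ ≤ 1 * 1 := mul_le_mul e1.2.2.2 hu1.le hu0 zero_le_one
      have h6 : ts lam (k + 1) * (1 / 2) ≤ ts lam (k + 1) * ‖u‖ := mul_le_mul_of_nonneg_left hu2 ht.le
      nlinarith
    have hθ0 : 0 < 1 - (1 - (S + ts lam (k + 1))) * ‖u‖ := by linarith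
    have hθ' : ts lam (k + 1 + 1) ≤ 2 * (1 - (1 - (S + ts lam (k + 1))) * ‖u‖) := by linarith
    have hcl' := hcl sh Sy f m (k + 1) ν' (S + ts lam (k + 1)) v u hD hx.2 hx.1 hθ'
    have es : 1 - (S + ts lam (k + 1)) = 1 - S - ts lam (k + 1) := by ring
    have z1 := hz' m (k + 1) ν' (S + ts lam (k + 1)) v u hx.1 hθ'
    have z0 := hz (m + 1) k ν S v u hE
    have hdiv : ts lam (k + 1 + 1) / (1 - (1 - (S + ts lam (k + 1))) * ‖u‖) ≤
        2 * rs lam (k + 1) ^ (3 / 10 : ℝ) := by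
      rw [div_le_iff₀ hθ0]
      have hr0 := rs_pos hp.1 (k + 1)
      have hr1 : rs lam (k + 1) ≤ 1 := (rs_le hp.1 hlam1 (k + 1)).trans hlam1
      have h7 : ts lam (k + 1 + 1) = rs lam (k + 1) ^ (9 / 20 : ℝ) * ts lam (k + 1) := by
        rw [ts_succ hp.1 (k + 1), ts, ← Real.rpow_add hr0]
        norm_num
      have h8 : rs lam (k + 1) ^ (9 / 20 : ℝ) ≤ rs lam (k + 1) ^ (3 / 10 : ℝ) :=
        Real.rpow_le_rpow_of_exponent_ge hr0 hr1 (by norm_num)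
      have h9 : 0 ≤ rs lam (k + 1) ^ (3 / 10 : ℝ) := Real.rpow_nonneg hr0.le _
      rw [h7]
      calc rs lam (k + 1) ^ (9 / 20 : ℝ) * ts lam (k + 1) ≤ rs lam (k + 1) ^ (3 / 10 : ℝ) * ts lam (k + 1) :=
            mul_le_mul_of_nonneg_right h8 ht.le
        _ = 2 * rs lam (k + 1) ^ (3 / 10 : ℝ) * (1 / 2 * ts lam (k + 1)) := by ring
        _ ≤ 2 * rs lam (k + 1) ^ (3 / 10 : ℝ) * (1 - (1 - (S + ts lam (k + 1))) * ‖u‖) :=
            mul_le_mul_of_nonneg_left hθlo (by linarith)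
    have hcl2 := hcl'.trans (mul_le_mul_of_nonneg_left (add_le_add hdiv (le_refl (rs lam (k + 1) ^ (3 / 10 : ℝ))))
      (by linarith : (0 : ℝ) ≤ C4))
    rw [es] at z1 hcl2
    have hm1 : ‖f (ν'.Ψ ((1 - S - ts lam (k + 1)) • u)) - f (ν.Ψ ((1 - S - ts lam (k + 1)) • u))‖ ≤
        C2 * rs lam k ^ (3 / 10 : ℝ) := hmm sh Sy f k ν _ _ hD hG z0 z1
    refine ⟨_, hdl sh Sy k ν _ hG z0, ?_⟩
    have e : Fz lam sh Sy.nx f (m + 1) k ν S v u - f (ν.Ψ ((1 - S - ts lam (k + 1)) • u)) =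
        cw lam sh k ν v • ((Fz lam sh Sy.nx f m (k + 1) ν' (S + ts lam (k + 1)) v u -
            f (ν'.Ψ ((1 - S - ts lam (k + 1)) • u))) +
          (f (ν'.Ψ ((1 - S - ts lam (k + 1)) • u)) - f (ν.Ψ ((1 - S - ts lam (k + 1)) • u)))) := by
      rw [eF]
      simp only [smul_sub, sub_smul, one_smul, smul_add]
      abel
    rw [e, norm_smul, Real.norm_of_nonneg hc.1]
    have h10 : ‖(Fz lam sh Sy.nx f m (k + 1) ν' (S + ts lam (k + 1)) v u -
            f (ν'.Ψ ((1 - S - ts lam (k + 1)) • u))) +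
          (f (ν'.Ψ ((1 - S - ts lam (k + 1)) • u)) - f (ν.Ψ ((1 - S - ts lam (k + 1)) • u)))‖ ≤
        (3 * C4 + C2) * rs lam k ^ (3 / 10 : ℝ) := by
      refine (norm_add_le _ _).trans ?_
      have h11 : C4 * (2 * rs lam (k + 1) ^ (3 / 10 : ℝ) + rs lam (k + 1) ^ (3 / 10 : ℝ)) ≤
          3 * C4 * rs lam k ^ (3 / 10 : ℝ) := by
        have := mul_le_mul_of_nonneg_left hrsle (by linarith : (0 : ℝ) ≤ 3 * C4)
        linarith
      linarith
    calc cw lam sh k ν v * ‖_‖ ≤ 1 * ‖_‖ := mul_le_mul_of_nonneg_right hc.2.1 (norm_nonneg _)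
      _ = ‖_‖ := one_mul _
      _ ≤ _ := h10

end Pool.Agent.MPca0fc2.EQ
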