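import Pool.Agent.Lib.MP_ca0fc2_an.EQ.B2

/-! Campaign EQ, task B3: the transplanted function and the function with frozen cutoffs. -/

set_option autoImplicit false

open Metric Set Filter Topology

namespace Pool.Agent.MPca0fc2.EQ

open Pool.Agent.MPca0fc2.TB (En)

variable {n N : ℕ}

/-- The fourth powers of the shift functions.
PROOF. `m = min a b`, `D = |a - b|`, `x = D (t/d)^(1/4) ≤ 1`. `|a⁴ - b⁴| ≤ 4 (m + D)³ D ≤ 16 (m³ D + D⁴)`. `t m³ D = t^(1/4) (t m⁴)^(3/4) D ≤ D (t/d)^(1/4) d^(1/4) (t m⁴)^(3/4) ≤ x (d + t m⁴)`; `t D⁴ = x⁴ d ≤ x d`. So `t |a⁴ - b⁴| ≤ 32 x (d + t m⁴)`.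
With `S`: the numerator `≤ |S - S'| + t |a⁴ - b⁴|`, the denominator `d + min (S + t a⁴) (S' + t b⁴) ≥ d + min S S' + t m⁴`. -/
theorem quartic {d t S S' a b : ℝ} (hd : 0 < d) (ht : 0 < t) (hS : 0 ≤ S) (hS' : 0 ≤ S') (ha : 0 ≤ a) (hb : 0 ≤ b) (ha1 : a ≤ 1) (hb1 : b ≤ 1)
    (h : |a - b| * (t / d) ^ (1 / 4 : ℝ) ≤ 1) :
    |(S + t * a ^ 4) - (S' + t * b ^ 4)| / (d + min (S + t * a ^ 4) (S' + t * b ^ 4)) ≤
      |S - S'| / (d + min S S') + 32 * (|a - b| * (t / d) ^ (1 / 4 : ℝ)) := by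
  obtain ⟨τ, hτ, hτt⟩ : ∃ τ : ℝ, 0 < τ ∧ τ ^ 4 = t := by
    refine ⟨t ^ (1 / 4 : ℝ), Real.rpow_pos_of_pos ht _, ?_⟩
    rw [← Real.rpow_natCast, ← Real.rpow_mul ht.le]
    norm_num
  obtain ⟨δ, hδ, hδd⟩ : ∃ δ : ℝ, 0 < δ ∧ δ ^ 4 = d := by
    refine ⟨d ^ (1 / 4 : ℝ), Real.rpow_pos_of_pos hd _, ?_⟩
    rw [← Real.rpow_natCast, ← Real.rpow_mul hd.le]
    norm_num
  have hq : (t / d) ^ (1 / 4 : ℝ) = τ / δ := by
    rw [← hτt, ← hδd, ← div_pow, ← Real.rpow_natCast, ← Real.rpow_mul (div_pos hτ hδ).le]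
    norm_num
  rw [hq] at h ⊢
  set x : ℝ := |a - b| * (τ / δ) with hx
  have hx0 : 0 ≤ x := mul_nonneg (abs_nonneg _) (div_pos hτ hδ).le
  set D : ℝ := |a - b| with hD
  have hD0 : 0 ≤ D := abs_nonneg _
  set m : ℝ := min a b with hm
  have hm0 : 0 ≤ m := le_min ha hb
  have hxD : x * δ = D * τ := by
    rw [hx]
    field_simp
  have hmax : max a b = m + D := by
    rcases le_total a b with h1 | h1
    · rw [hm, hD, max_eq_right h1, min_eq_left h1, abs_of_nonpos (by linarith)]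
      ring
    · rw [hm, hD, max_eq_left h1, min_eq_right h1, abs_of_nonneg (by linarith)]
      ring
  have ha' : a ≤ m + D := hmax ▸ le_max_left a b
  have hb' : b ≤ m + D := hmax ▸ le_max_right a b
  have h1 : |a ^ 4 - b ^ 4| ≤ 16 * (m ^ 3 * D + D ^ 4) := by
    have h2 : a ^ 4 - b ^ 4 = (a - b) * ((a + b) * (a ^ 2 + b ^ 2)) := by ring
    have h3 : (a + b) * (a ^ 2 + b ^ 2) ≤ 4 * (m + D) ^ 3 := by
      have h4 : a + b ≤ 2 * (m + D) := by linarith
      have h5 : a ^ 2 + b ^ 2 ≤ 2 * (m + D) ^ 2 := by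
        have h6 : a ^ 2 ≤ (m + D) ^ 2 := pow_le_pow_left₀ ha ha' 2
        have h7 : b ^ 2 ≤ (m + D) ^ 2 := pow_le_pow_left₀ hb hb' 2
        linarith
      calc (a + b) * (a ^ 2 + b ^ 2) ≤ (2 * (m + D)) * (2 * (m + D) ^ 2) :=
            mul_le_mul h4 h5 (by positivity) (by positivity)
        _ = 4 * (m + D) ^ 3 := by ring
    have h4 : (m + D) ^ 3 ≤ 4 * (m ^ 3 + D ^ 3) := by
      nlinarith [mul_nonneg (add_nonneg hm0 hD0) (sq_nonneg (m - D))]
    rw [h2, abs_mul, abs_of_nonneg (show 0 ≤ (a + b) * (a ^ 2 + b ^ 2) by positivity)]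
    calc D * ((a + b) * (a ^ 2 + b ^ 2)) ≤ D * (4 * (4 * (m ^ 3 + D ^ 3))) :=
          mul_le_mul_of_nonneg_left (by linarith) hD0
      _ = 16 * (m ^ 3 * D + D ^ 4) := by ring
  have h2 : t * (m ^ 3 * D) ≤ x * (d + t * m ^ 4) := by
    have h3 : t * (m ^ 3 * D) = x * (δ * (τ * m) ^ 3) := by
      rw [← hτt]
      linear_combination (-(τ * m) ^ 3) * hxD
    have h4 : δ * (τ * m) ^ 3 ≤ δ ^ 4 + (τ * m) ^ 4 := by
      have h5 : 0 ≤ τ * m := mul_nonneg hτ.le hm0
      rcases le_total δ (τ * m) with h6 | h6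
      · have h7 : δ * (τ * m) ^ 3 ≤ (τ * m) * (τ * m) ^ 3 :=
          mul_le_mul_of_nonneg_right h6 (by positivity)
        nlinarith [pow_pos hδ 4]
      · have h7 : (τ * m) ^ 3 ≤ δ ^ 3 := pow_le_pow_left₀ h5 h6 3
        have h8 : δ * (τ * m) ^ 3 ≤ δ * δ ^ 3 := mul_le_mul_of_nonneg_left h7 hδ.le
        nlinarith [pow_nonneg h5 4]
    rw [h3]
    refine mul_le_mul_of_nonneg_left (h4.trans (le_of_eq ?_)) hx0
    rw [← hτt, ← hδd]
    ring
  have h3 : t * D ^ 4 ≤ x * d := by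
    have h4 : t * D ^ 4 = x ^ 4 * d := by
      rw [← hτt, ← hδd, ← mul_pow, ← mul_pow, hxD]
      ring
    rw [h4]
    refine mul_le_mul_of_nonneg_right ?_ hd.le
    exact pow_le_of_le_one hx0 h (by norm_num)
  have h4 : t * |a ^ 4 - b ^ 4| ≤ 32 * x * (d + t * m ^ 4) := by
    have h5 : x * d ≤ x * (d + t * m ^ 4) :=
      mul_le_mul_of_nonneg_left (by nlinarith [mul_nonneg ht.le (pow_nonneg hm0 4)]) hx0
    calc t * |a ^ 4 - b ^ 4| ≤ t * (16 * (m ^ 3 * D + D ^ 4)) :=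
          mul_le_mul_of_nonneg_left h1 ht.le
      _ = 16 * (t * (m ^ 3 * D)) + 16 * (t * D ^ 4) := by ring
      _ ≤ 32 * x * (d + t * m ^ 4) := by linarith
  have hmS : 0 ≤ min S S' := le_min hS hS'
  have htm : 0 ≤ t * m ^ 4 := mul_nonneg ht.le (pow_nonneg hm0 4)
  have h5 : d + min S S' + t * m ^ 4 ≤ d + min (S + t * a ^ 4) (S' + t * b ^ 4) := by
    have h6 : t * m ^ 4 ≤ t * a ^ 4 :=
      mul_le_mul_of_nonneg_left (pow_le_pow_left₀ hm0 (min_le_left _ _) 4) ht.le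
    have h7 : t * m ^ 4 ≤ t * b ^ 4 :=
      mul_le_mul_of_nonneg_left (pow_le_pow_left₀ hm0 (min_le_right _ _) 4) ht.le
    have h8 : min S S' + t * m ^ 4 ≤ min (S + t * a ^ 4) (S' + t * b ^ 4) :=
      le_min (add_le_add (min_le_left _ _) h6) (add_le_add (min_le_right _ _) h7)
    linarith
  have h6 : |(S + t * a ^ 4) - (S' + t * b ^ 4)| ≤ |S - S'| + 32 * x * (d + t * m ^ 4) := by
    have h7 : (S + t * a ^ 4) - (S' + t * b ^ 4) = (S - S') + t * (a ^ 4 - b ^ 4) := by ring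
    rw [h7]
    refine (abs_add_le _ _).trans (add_le_add le_rfl ?_)
    rw [abs_mul, abs_of_pos ht]
    exact h4
  have hQ : 0 < d + min S S' + t * m ^ 4 := by linarith
  calc |(S + t * a ^ 4) - (S' + t * b ^ 4)| / (d + min (S + t * a ^ 4) (S' + t * b ^ 4))
      ≤ (|S - S'| + 32 * x * (d + t * m ^ 4)) / (d + min S S' + t * m ^ 4) :=
        div_le_div₀ (by positivity) h6 hQ h5
    _ = |S - S'| / (d + min S S' + t * m ^ 4) +
        32 * x * ((d + t * m ^ 4) / (d + min S S' + t * m ^ 4)) := by ring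
    _ ≤ |S - S'| / (d + min S S') + 32 * x * 1 := by
        refine add_le_add ?_ ?_
        · exact div_le_div_of_nonneg_left (abs_nonneg _) (by linarith) (by linarith)
        · refine mul_le_mul_of_nonneg_left ?_ (by positivity)
          rw [div_le_one hQ]
          linarith
    _ = _ := by ring

/-- The comparison with frozen cutoffs, at one level.
PROOF. `x = ν.Ψ (rad u)`, `x' = ν.Ψ (rad v)`, `‖x - x'‖ ≤ 2 ϱ` (`Sy.lip`); `|wk x - wk x'| ≤ 2 ϱ / rs` (`wd_lip`), so `|cw - cw'| ≤ 2 ϱ / (es rs)`, same for `sig`. If `cw (v) > 0`: `wk x' > es` (`lt_of_chi`), and `‖x - x'‖ ≤ 2 ϱ < rs es < rs wk x'` : `cell_eq`, so `nn` are equal. -/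
theorem frz_one (T : Tg n) (Cs : ℝ) : ∀ᶠ lam in 𝓝[>] (0 : ℝ), ∀ (sh : ℕ → ℝ) (Sy : Sys T Cs lam sh) (k : ℕ) (ν : Nd n) (u v : En n) (ϱ : ℝ),
    Sy.Good k ν → u ≠ 0 → v ≠ 0 → ‖rad u - rad v‖ ≤ ϱ → 4 * (ϱ / (es lam (k + 1) * rs lam (k + 1))) ≤ 1 →
    |cw lam sh k ν u - cw lam sh k ν v| ≤ 2 * (ϱ / (es lam (k + 1) * rs lam (k + 1))) ∧
    |sig (es lam (k + 1)) (wk lam sh (k + 1) (ν.Ψ (rad u))) - sig (es lam (k + 1)) (wk lam sh (k + 1) (ν.Ψ (rad v)))| ≤
      2 * (ϱ / (es lam (k + 1) * rs lam (k + 1))) ∧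
    (0 < cw lam sh k ν v → nn lam sh Sy.nx k ν u = nn lam sh Sy.nx k ν v) := by
  filter_upwards [ineqs Cs] with lam hlam sh Sy k ν u v ϱ hg hu hv huv hϱ
  obtain ⟨hl0, hl1, -⟩ := hlam
  have hr : 0 < rs lam (k + 1) := rs_pos hl0 _
  have he : 0 < es lam (k + 1) := es_pos hl0 _
  have her : 0 < es lam (k + 1) * rs lam (k + 1) := mul_pos he hr
  have hn : ∀ w : En n, w ≠ 0 → ‖rad w‖ ≤ 4 := by
    intro w hw
    have hw' : 0 < ‖w‖ := norm_pos_iff.2 hw
    have h1 : ‖rad w‖ = 1 := by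
      unfold rad
      rw [norm_smul, Real.norm_eq_abs, abs_of_pos (inv_pos.2 hw'), inv_mul_cancel₀ hw'.ne']
    rw [h1]
    norm_num
  have h1 : ‖ν.Ψ (rad u) - ν.Ψ (rad v)‖ ≤ 2 * ϱ := by
    have h2 := Sy.lip k ν hg (rad u) (rad v) (hn u hu) (hn v hv)
    have h3 : Cs * lam * ‖rad u - rad v‖ ≤ 1 * ‖rad u - rad v‖ :=
      mul_le_mul_of_nonneg_right hl1 (norm_nonneg _)
    have h4 : ν.Ψ (rad u) - ν.Ψ (rad v) = (ν.Ψ (rad u) - ν.Ψ (rad v) - (rad u - rad v)) +
      (rad u - rad v) := by abel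
    rw [h4]
    refine (norm_add_le _ _).trans ?_
    linarith
  have h2 : |wk lam sh (k + 1) (ν.Ψ (rad u)) - wk lam sh (k + 1) (ν.Ψ (rad v))| ≤
      2 * ϱ / rs lam (k + 1) :=
    (wd_lip hr (sh (k + 1)) _ _).trans (div_le_div_of_nonneg_right h1 hr.le)
  have h3 : 2 * ϱ / rs lam (k + 1) / es lam (k + 1) =
      2 * (ϱ / (es lam (k + 1) * rs lam (k + 1))) := by
    field_simp
  refine ⟨?_, ?_, ?_⟩
  · rw [← h3]
    exact (chi_lip he _ _).trans (div_le_div_of_nonneg_right h2 he.le)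
  · rw [← h3]
    exact (sig_lip he _ _).trans (div_le_div_of_nonneg_right h2 he.le)
  · intro hc
    have h4 : es lam (k + 1) < wk lam sh (k + 1) (ν.Ψ (rad v)) := lt_of_chi he hc
    have h5 : 4 * ϱ ≤ es lam (k + 1) * rs lam (k + 1) := by
      have h6 : 4 * (ϱ / (es lam (k + 1) * rs lam (k + 1))) = 4 * ϱ /
        (es lam (k + 1) * rs lam (k + 1)) := by ring
      rw [h6, div_le_one her] at hϱ
      exact hϱ
    have h6 : ‖ν.Ψ (rad v) - ν.Ψ (rad u)‖ <
        rs lam (k + 1) * wd (rs lam (k + 1)) (sh (k + 1)) (ν.Ψ (rad v)) := by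
      rw [norm_sub_rev]
      have h7 : es lam (k + 1) * rs lam (k + 1) <
          rs lam (k + 1) * wd (rs lam (k + 1)) (sh (k + 1)) (ν.Ψ (rad v)) := by
        rw [mul_comm]
        exact mul_lt_mul_of_pos_left h4 hr
      have h8 : 0 ≤ ϱ := (norm_nonneg _).trans huv
      linarith
    unfold nn ck
    rw [cell_eq hr (sh (k + 1)) h6]

/-- The comparison with frozen cutoffs. `p` = number of the visible levels.
PROOF. Let `C₀` be the constant of `fz_rl`/`rlf`, `C₅` of `fz_cl`, `C' = 100 (C₀ + C₅)`. Induction on `p` (with `m`, `k`, `ν`, `S`, `S'` general): claim: `‖..‖ ≤ C₀ |S - S'| / (d + min S S') + C' ∑ .. + C' (if ..)`.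
`p = 0`: the right function is `f (ν.Ψ ((1 - S' - t) • u))`, `t = ts (k+1)`. If `m = 0`: `rlf` between `1 - S - t` and `1 - S' - t`: the denominator is `1 - max (..) ‖u‖ = (1 - ‖u‖) + (min S S' + t) ‖u‖ ≥ (d + min S S') / 2` (`‖u‖ ≥ 1/2`) [so take `C₀` twice the constant of `rlf`].
If `m > 0`: `t ≤ d`: `fz_cl` for `m`, `S` (`θ ≥ d ≥ t`) and `rlf` between `1 - S` and `1 - S' - t`: `≤ C (|S - S'| + t)/(d + min S S')`.
`p + 1` (`m = m' + 1`): `a = f (ν.Ψ ((1 - S - t) • u))`, `a'` with `S'`, `b = Fz m' (k+1) (nn u) (S + sw u) u u`, `b' = Fz p (k+1) (nn v) (S' + sw v) v u`, `c = cw u`, `c' = cw v`. `‖a - a'‖ ≤ C₀ |S - S'| / (d + min S S')` as before; `‖a‖, ‖a'‖, ‖b‖, ‖b'‖ ≤ 1` (`fz_bd`).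
The difference is `(1 - c')(a - a') + c' (b - b') + (c - c') (b - a)`, the last term is `≤ 2 |c - c'| ≤ 4 ϱ/(es rs)` (`frz_one`). If `c' = 0` done. If `c' > 0`: `nn u = nn v`, the induction hypothesis for `b - b'` (the `EV`s: `ev_next`; `k + (p + 1) = (k + 1) + p`), with the first term
`C₀ |S + sw u - S' - sw v| / (d + min ..) ≤ C₀ |S - S'| / (d + min S S') + 32 C₀ 2 ϱ/(es rs) (t/d)^(1/4)` by `quartic` (its hypothesis: `|Δ sig| (t/d)^(1/4) ≤ 2 ϱ/(es rs) (t/d)^(1/4) ≤ 1`). The sum over `Ioc k (k+p+1)` is the term `k + 1` plus the sum over `Ioc (k+1) (k+1+p)`. -/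
theorem fz_me (T : Tg n) (Cs : ℝ) (N : ℕ) : ∃ C : ℝ, 1 ≤ C ∧ ∀ s > 0, ∀ᶠ lam in 𝓝[>] (0 : ℝ), ∀ (sh : ℕ → ℝ) (Sy : Sys T Cs lam sh) (f : En n → En N) (m p k : ℕ)
    (ν : Nd n) (S S' d ϱ : ℝ) (v u : En n), Dat T s f → Sy.Good k ν → p ≤ m → 0 < d → d ≤ 1 - ‖u‖ → EV lam m k ν S u u → EV lam p k ν S' v u →
    ‖rad u - rad v‖ ≤ ϱ →
    (∀ l ∈ Finset.Ioc k (k + p), 4 * (ϱ / (es lam l * rs lam l) * (1 + (ts lam l / d) ^ (1 / 4 : ℝ))) ≤ 1) →
    (p < m → ts lam (k + p + 1) ≤ d) →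
    ‖Fz lam sh Sy.nx f m k ν S u u - Fz lam sh Sy.nx f p k ν S' v u‖ ≤
      C * (|S - S'| / (d + min S S') + ∑ l ∈ Finset.Ioc k (k + p), ϱ / (es lam l * rs lam l) * (1 + (ts lam l / d) ^ (1 / 4 : ℝ)) +
        if p < m then ts lam (k + p + 1) / d + rs lam (k + p) ^ (3 / 10 : ℝ) else 0) := by
  obtain ⟨Cr, hCr, hr⟩ := rlf T Cs N
  obtain ⟨C5, hC5, h5⟩ := fz_cl T Cs N
  refine ⟨100 * (2 * Cr + C5), by linarith, fun s hs => ?_⟩
  filter_upwards [hr s hs, h5 s hs, fz_bd (N := N) T Cs hs, dl_mem T Cs hs, ev_zone n, ev_zone' n,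
    ev_next T Cs, frz_one T Cs, ev_lt (show (0 : ℝ) < 1 / 12 by norm_num)] with lam hrl hcl hbd hmem
    hz hz' hnx hfo hlam
  obtain ⟨hl0, hl1⟩ := hlam
  intro sh Sy f m p k ν S S' d ϱ v u hf hg hpm hd hdu hE hE' hϱ hl hts
  have hu1 : ‖u‖ ≤ 1 := hE.lt.le
  have hu2 : 1 / 2 ≤ ‖u‖ := hE.ge
  have hu0 : u ≠ 0 := hE.v0
  have hv0 : v ≠ 0 := hE'.v0
  have hϱ0 : 0 ≤ ϱ := (norm_nonneg _).trans hϱ
  -- the shifts are small
  have hS1 : ∀ (m k : ℕ) (ν : Nd n) (S : ℝ) (v : En n), EV lam m k ν S v u →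
      0 ≤ 1 - S - ts lam (k + 1) := by
    intro m k ν S v h
    have h1 := h.up
    have h2 := h.S0
    have h3 : S * (1 / 2) ≤ S * ‖u‖ := mul_le_mul_of_nonneg_left hu2 h2
    have h4 := h.lt
    have h6 : 0 < ts lam (k + 1) := ts_pos hl0 _
    nlinarith
  -- the variation between two values of the same map
  have hgen : ∀ (k : ℕ) (ν : Nd n) (α β μ : ℝ), Sy.Good k ν → 0 ≤ α → 0 ≤ β → α ≤ 1 - μ →
      β ≤ 1 - μ → 0 ≤ μ → Zone lam k ν (α • u) → Zone lam k ν (β • u) →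
      ‖f (ν.Ψ (α • u)) - f (ν.Ψ (β • u))‖ ≤ 2 * Cr * (|α - β| / (d + μ)) := by
    intro k ν α β μ hg hα hβ hα1 hβ1 hμ hzα hzβ
    have h1 := hrl sh Sy f k ν u α β hf hg hu1 hα hβ (by linarith) (by linarith) hzα hzβ
    have h2 : max α β * ‖u‖ ≤ (1 - μ) * ‖u‖ :=
      mul_le_mul_of_nonneg_right (max_le hα1 hβ1) (norm_nonneg _)
    have h3 : μ * (1 / 2) ≤ μ * ‖u‖ := mul_le_mul_of_nonneg_left hu2 hμ
    have h4 : (d + μ) / 2 ≤ 1 - max α β * ‖u‖ := by nlinarith
    have h6 : 0 < d + μ := by linarith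
    calc ‖f (ν.Ψ (α • u)) - f (ν.Ψ (β • u))‖ ≤ Cr * |α - β| / (1 - max α β * ‖u‖) := h1
      _ ≤ Cr * |α - β| / ((d + μ) / 2) :=
          div_le_div_of_nonneg_left (by positivity) (by linarith) h4
      _ = 2 * Cr * (|α - β| / (d + μ)) := by
          field_simp
  have hsame : ∀ (m m' k : ℕ) (ν : Nd n) (S S' : ℝ) (v v' : En n), Sy.Good k ν →
      EV lam m k ν S v u → EV lam m' k ν S' v' u →
      ‖f (ν.Ψ ((1 - S - ts lam (k + 1)) • u)) - f (ν.Ψ ((1 - S' - ts lam (k + 1)) • u))‖ ≤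
        2 * Cr * (|S - S'| / (d + min S S')) := by
    intro m m' k ν S S' v v' hg hE hE'
    have h6 : 0 < ts lam (k + 1) := ts_pos hl0 _
    have h1 := hgen k ν (1 - S - ts lam (k + 1)) (1 - S' - ts lam (k + 1)) (min S S') hg
      (hS1 _ _ _ _ _ hE) (hS1 _ _ _ _ _ hE') (by linarith [min_le_left S S'])
      (by linarith [min_le_right S S']) (le_min hE.S0 hE'.S0) (hz _ _ _ _ _ _ hE)
      (hz _ _ _ _ _ _ hE')
    have h2 : (1 - S - ts lam (k + 1)) - (1 - S' - ts lam (k + 1)) = -(S - S') := by ring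
    rwa [h2, abs_neg] at h1
  have key : ∀ (p m k : ℕ) (ν : Nd n) (S S' : ℝ), Sy.Good k ν → p ≤ m → EV lam m k ν S u u →
      EV lam p k ν S' v u →
      (∀ l ∈ Finset.Ioc k (k + p),
        4 * (ϱ / (es lam l * rs lam l) * (1 + (ts lam l / d) ^ (1 / 4 : ℝ))) ≤ 1) →
      (p < m → ts lam (k + p + 1) ≤ d) →
      ‖Fz lam sh Sy.nx f m k ν S u u - Fz lam sh Sy.nx f p k ν S' v u‖ ≤
        2 * Cr * (|S - S'| / (d + min S S')) + 100 * (2 * Cr + C5) *
          ∑ l ∈ Finset.Ioc k (k + p),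
            ϱ / (es lam l * rs lam l) * (1 + (ts lam l / d) ^ (1 / 4 : ℝ)) +
        100 * (2 * Cr + C5) *
          (if p < m then ts lam (k + p + 1) / d + rs lam (k + p) ^ (3 / 10 : ℝ) else 0) := by
    intro p
    induction p with
    | zero =>
      intro m k ν S S' hg hpm hE hE' hl hts
      rw [Nat.add_zero, Finset.Ioc_self, Finset.sum_empty, mul_zero, add_zero]
      have hmin0 : 0 ≤ min S S' := le_min hE.S0 hE'.S0
      rcases Nat.eq_zero_or_pos m with hm | hm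
      · subst hm
        rw [if_neg (lt_irrefl 0), mul_zero, add_zero]
        exact hsame _ _ _ _ _ _ _ _ hg hE hE'
      · rw [if_pos hm]
        have ht := hts hm
        rw [Nat.add_zero] at ht
        have htp : 0 < ts lam (k + 1) := ts_pos hl0 _
        have hrp : 0 ≤ rs lam k ^ (3 / 10 : ℝ) := Real.rpow_nonneg (rs_pos hl0 _).le _
        have hθ : d ≤ 1 - (1 - S) * ‖u‖ := by
          have := mul_nonneg hE.S0 (norm_nonneg u)
          nlinarith
        have h1 := hcl sh Sy f m k ν S u u hf hg hE (by linarith)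
        have h2 : ts lam (k + 1) / (1 - (1 - S) * ‖u‖) ≤ ts lam (k + 1) / d :=
          div_le_div_of_nonneg_left htp.le hd hθ
        have h3 := hgen k ν (1 - S) (1 - S' - ts lam (k + 1)) (min S S') hg
          (by linarith [hS1 _ _ _ _ _ hE]) (hS1 _ _ _ _ _ hE') (by linarith [min_le_left S S'])
          (by linarith [min_le_right S S']) hmin0 (hz' _ _ _ _ _ _ hE (by linarith))
          (hz _ _ _ _ _ _ hE')
        have h4 : |(1 - S) - (1 - S' - ts lam (k + 1))| ≤ |S - S'| + ts lam (k + 1) := by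
          have h6 : (1 - S) - (1 - S' - ts lam (k + 1)) = -(S - S') + ts lam (k + 1) := by ring
          rw [h6]
          refine (abs_add_le _ _).trans ?_
          rw [abs_neg, abs_of_pos htp]
        have h6 : |(1 - S) - (1 - S' - ts lam (k + 1))| / (d + min S S') ≤
            |S - S'| / (d + min S S') + ts lam (k + 1) / d := by
          calc |(1 - S) - (1 - S' - ts lam (k + 1))| / (d + min S S')
              ≤ (|S - S'| + ts lam (k + 1)) / (d + min S S') :=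
                div_le_div_of_nonneg_right h4 (by linarith)
            _ = |S - S'| / (d + min S S') + ts lam (k + 1) / (d + min S S') := add_div _ _ _
            _ ≤ _ := add_le_add le_rfl
                (div_le_div_of_nonneg_left htp.le hd (by linarith))
        have h7 : ‖Fz lam sh Sy.nx f m k ν S u u - f (ν.Ψ ((1 - S' - ts lam (k + 1)) • u))‖ ≤
            C5 * (ts lam (k + 1) / (1 - (1 - S) * ‖u‖) + rs lam k ^ (3 / 10 : ℝ)) +
            2 * Cr * (|(1 - S) - (1 - S' - ts lam (k + 1))| / (d + min S S')) := by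
          calc _ = ‖(Fz lam sh Sy.nx f m k ν S u u - f (ν.Ψ ((1 - S) • u))) +
                (f (ν.Ψ ((1 - S) • u)) - f (ν.Ψ ((1 - S' - ts lam (k + 1)) • u)))‖ := by
                congr 1; abel
            _ ≤ _ := (norm_add_le _ _).trans (add_le_add h1 h3)
        have h8 : C5 * (ts lam (k + 1) / (1 - (1 - S) * ‖u‖) + rs lam k ^ (3 / 10 : ℝ)) ≤
            C5 * (ts lam (k + 1) / d + rs lam k ^ (3 / 10 : ℝ)) :=
          mul_le_mul_of_nonneg_left (by linarith) (by linarith)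
        have h9 : 2 * Cr * (|(1 - S) - (1 - S' - ts lam (k + 1))| / (d + min S S')) ≤
            2 * Cr * (|S - S'| / (d + min S S') + ts lam (k + 1) / d) :=
          mul_le_mul_of_nonneg_left h6 (by linarith)
        have h10 : 0 ≤ ts lam (k + 1) / d := div_nonneg htp.le hd.le
        have h11 : Fz lam sh Sy.nx f 0 k ν S' v u = f (ν.Ψ ((1 - S' - ts lam (k + 1)) • u)) := rfl
        rw [h11]
        have h12 : 0 ≤ (100 * (2 * Cr + C5) - 2 * Cr - C5) * (ts lam (k + 1) / d) :=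
          mul_nonneg (by linarith) h10
        have h13 : 0 ≤ (100 * (2 * Cr + C5) - C5) * (rs lam k ^ (3 / 10 : ℝ)) :=
          mul_nonneg (by linarith) hrp
        nlinarith
    | succ p ih =>
      intro m k ν S S' hg hpm hE hE' hl hts
      obtain ⟨m', rfl⟩ : ∃ m', m = m' + 1 := ⟨m - 1, by omega⟩
      obtain ⟨hEn, hgn⟩ := hnx sh Sy m' k ν S u u hg hE
      obtain ⟨hEn', hgn'⟩ := hnx sh Sy p k ν S' v u hg hE'
      have hr1 : 0 < rs lam (k + 1) := rs_pos hl0 _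
      have he1 : 0 < es lam (k + 1) := es_pos hl0 _
      have ht1 : 0 < ts lam (k + 1) := ts_pos hl0 _
      have hX0 : 0 ≤ ϱ / (es lam (k + 1) * rs lam (k + 1)) := div_nonneg hϱ0 (mul_pos he1 hr1).le
      set X : ℝ := ϱ / (es lam (k + 1) * rs lam (k + 1)) with hX
      have hR0 : 0 ≤ (ts lam (k + 1) / d) ^ (1 / 4 : ℝ) :=
        Real.rpow_nonneg (div_pos ht1 hd).le _
      set R : ℝ := (ts lam (k + 1) / d) ^ (1 / 4 : ℝ) with hR
      have hlk := hl (k + 1) (Finset.mem_Ioc.2 ⟨Nat.lt_succ_self k, by omega⟩)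
      have hXR : 4 * (X * (1 + R)) ≤ 1 := hlk
      have hXR0 : 0 ≤ X * R := mul_nonneg hX0 hR0
      obtain ⟨hc1, hs1, hn1⟩ := hfo sh Sy k ν u v ϱ hg hu0 hv0 hϱ (by
        show 4 * X ≤ 1
        nlinarith)
      -- the sum
      have hsum : ∑ l ∈ Finset.Ioc k (k + (p + 1)),
            ϱ / (es lam l * rs lam l) * (1 + (ts lam l / d) ^ (1 / 4 : ℝ)) =
          X * (1 + R) + ∑ l ∈ Finset.Ioc (k + 1) (k + 1 + p),
            ϱ / (es lam l * rs lam l) * (1 + (ts lam l / d) ^ (1 / 4 : ℝ)) := by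
        rw [← Finset.sum_Ioc_consecutive _ (Nat.le_succ k) (show k + 1 ≤ k + (p + 1) by omega),
          Nat.Ioc_succ_singleton, Finset.sum_singleton]
        have h1 : k + (p + 1) = k + 1 + p := by omega
        rw [h1]
      have hsum0 : 0 ≤ ∑ l ∈ Finset.Ioc (k + 1) (k + 1 + p),
            ϱ / (es lam l * rs lam l) * (1 + (ts lam l / d) ^ (1 / 4 : ℝ)) := by
        refine Finset.sum_nonneg fun l _ => ?_
        have h1 : 0 < rs lam l := rs_pos hl0 _
        have h2 : 0 < es lam l := es_pos hl0 _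
        have h3 : 0 < ts lam l := ts_pos hl0 _
        positivity
      rw [hsum]
      set Sg : ℝ := ∑ l ∈ Finset.Ioc (k + 1) (k + 1 + p),
            ϱ / (es lam l * rs lam l) * (1 + (ts lam l / d) ^ (1 / 4 : ℝ)) with hSg
      have hidx : k + (p + 1) + 1 = k + 1 + p + 1 := by omega
      have hidx' : k + (p + 1) = k + 1 + p := by omega
      rw [hidx, hidx']
      rw [hidx] at hts
      have hI0 : 0 ≤ (if p + 1 < m' + 1 then ts lam (k + 1 + p + 1) / d +
          rs lam (k + 1 + p) ^ (3 / 10 : ℝ) else 0) := by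
        split_ifs
        · have h1 : 0 < rs lam (k + 1 + p) := rs_pos hl0 _
          have h2 : 0 < ts lam (k + 1 + p + 1) := ts_pos hl0 _
          positivity
        · exact le_rfl
      set I' : ℝ := (if p + 1 < m' + 1 then ts lam (k + 1 + p + 1) / d +
          rs lam (k + 1 + p) ^ (3 / 10 : ℝ) else 0) with hI
      -- the terms
      set c := cw lam sh k ν u with hc
      set c' := cw lam sh k ν v with hc'
      have hc'0 : 0 ≤ c' := (cw_sw hl0 sh k ν v).1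
      have hc'1 : c' ≤ 1 := (cw_sw hl0 sh k ν v).2.1
      set a := f (ν.Ψ ((1 - S - ts lam (k + 1)) • u)) with ha
      set a' := f (ν.Ψ ((1 - S' - ts lam (k + 1)) • u)) with ha'
      set b := Fz lam sh Sy.nx f m' (k + 1) (nn lam sh Sy.nx k ν u) (S + sw lam sh k ν u) u u with hb
      set b' := Fz lam sh Sy.nx f p (k + 1) (nn lam sh Sy.nx k ν v) (S' + sw lam sh k ν v) v u
        with hb'
      have haa : ‖a - a'‖ ≤ 2 * Cr * (|S - S'| / (d + min S S')) :=
        hsame _ _ _ _ _ _ _ _ hg hE hE'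
      have ha1 : ‖a‖ ≤ 1 := hf.bd _ (hmem sh Sy k ν _ hg (hz _ _ _ _ _ _ hE))
      have hb1 : ‖b‖ ≤ 1 := hbd sh Sy f m' (k + 1) _ _ u u hf hgn hEn
      have hbin : c' * ‖b - b'‖ ≤ c' * (2 * Cr * (|S - S'| / (d + min S S')) +
          128 * Cr * (X * R) + 100 * (2 * Cr + C5) * Sg + 100 * (2 * Cr + C5) * I') := by
        rcases hc'0.eq_or_lt with h0 | h0
        · rw [← h0, zero_mul, zero_mul]
        · refine mul_le_mul_of_nonneg_left ?_ hc'0
          have hnn := hn1 h0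
          have hih := ih m' (k + 1) (nn lam sh Sy.nx k ν v) (S + sw lam sh k ν u)
            (S' + sw lam sh k ν v) hgn' (by omega) (by rw [← hnn]; exact hEn) hEn'
            (fun l hlm => hl l (Finset.mem_Ioc.2 ⟨by
              have := (Finset.mem_Ioc.1 hlm).1
              omega, by
              have := (Finset.mem_Ioc.1 hlm).2
              omega⟩))
            (fun hpm' => hts (by omega))
          rw [← hnn] at hih
          have hI' : (if p < m' then ts lam (k + 1 + p + 1) / d +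
              rs lam (k + 1 + p) ^ (3 / 10 : ℝ) else 0) = I' := by
            rw [hI]
            by_cases hpm' : p < m'
            · rw [if_pos hpm', if_pos (by omega)]
            · rw [if_neg hpm', if_neg (by omega)]
          rw [hI'] at hih
          rw [← hnn] at hb'
          have hsig0 : ∀ w, 0 ≤ sig (es lam (k + 1)) w := fun w => clp_nonneg _
          have hsig1 : ∀ w, sig (es lam (k + 1)) w ≤ 1 := fun w => clp_le_one _
          have hq := quartic hd ht1 hE.S0 hE'.S0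
            (hsig0 (wk lam sh (k + 1) (ν.Ψ (rad u)))) (hsig0 (wk lam sh (k + 1) (ν.Ψ (rad v))))
            (hsig1 _) (hsig1 _) (by
              refine (mul_le_mul_of_nonneg_right hs1 hR0).trans ?_
              show 2 * X * R ≤ 1
              nlinarith)
          have hq2 : |(S + sw lam sh k ν u) - (S' + sw lam sh k ν v)| /
              (d + min (S + sw lam sh k ν u) (S' + sw lam sh k ν v)) ≤
              |S - S'| / (d + min S S') + 64 * (X * R) := by
            refine le_trans hq ?_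
            have h1 : |sig (es lam (k + 1)) (wk lam sh (k + 1) (ν.Ψ (rad u))) -
              sig (es lam (k + 1)) (wk lam sh (k + 1) (ν.Ψ (rad v)))| *
              (ts lam (k + 1) / d) ^ (1 / 4 : ℝ) ≤ 2 * X * R :=
              mul_le_mul_of_nonneg_right hs1 hR0
            linarith
          have h2 := mul_le_mul_of_nonneg_left hq2 (show 0 ≤ 2 * Cr by linarith)
          rw [hb']
          linarith
      have hdiff : Fz lam sh Sy.nx f (m' + 1) k ν S u u - Fz lam sh Sy.nx f (p + 1) k ν S' v u =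
          (1 - c') • (a - a') + c' • (b - b') + (c - c') • (b - a) := by
        have h1 : Fz lam sh Sy.nx f (m' + 1) k ν S u u = (1 - c) • a + c • b := rfl
        have h2 : Fz lam sh Sy.nx f (p + 1) k ν S' v u = (1 - c') • a' + c' • b' := rfl
        rw [h1, h2]
        module
      rw [hdiff]
      have hn1' : ‖(1 - c') • (a - a')‖ ≤ (1 - c') * (2 * Cr * (|S - S'| / (d + min S S'))) := by
        rw [norm_smul, Real.norm_eq_abs, abs_of_nonneg (by linarith)]
        exact mul_le_mul_of_nonneg_left haa (by linarith)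
      have hn2' : ‖c' • (b - b')‖ ≤ c' * (2 * Cr * (|S - S'| / (d + min S S')) +
          128 * Cr * (X * R) + 100 * (2 * Cr + C5) * Sg + 100 * (2 * Cr + C5) * I') := by
        rw [norm_smul, Real.norm_eq_abs, abs_of_nonneg hc'0]
        exact hbin
      have hn3' : ‖(c - c') • (b - a)‖ ≤ 2 * X * 2 := by
        rw [norm_smul, Real.norm_eq_abs]
        refine mul_le_mul hc1 ?_ (norm_nonneg _) (by linarith)
        refine (norm_sub_le _ _).trans ?_
        linarith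
      have hfin : ‖(1 - c') • (a - a') + c' • (b - b') + (c - c') • (b - a)‖ ≤
          (1 - c') * (2 * Cr * (|S - S'| / (d + min S S'))) + c' * (2 * Cr * (|S - S'| /
          (d + min S S')) + 128 * Cr * (X * R) + 100 * (2 * Cr + C5) * Sg +
          100 * (2 * Cr + C5) * I') + 2 * X * 2 :=
        (norm_add_le _ _).trans (add_le_add ((norm_add_le _ _).trans (add_le_add hn1' hn2')) hn3')
      refine hfin.trans ?_
      have hY0 : 0 ≤ 128 * Cr * (X * R) + 100 * (2 * Cr + C5) * Sg + 100 * (2 * Cr + C5) * I' := by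
        have h1 : 0 ≤ 128 * Cr * (X * R) := mul_nonneg (by linarith) hXR0
        have h2 : 0 ≤ 100 * (2 * Cr + C5) * Sg := mul_nonneg (by linarith) hsum0
        have h3 : 0 ≤ 100 * (2 * Cr + C5) * I' := mul_nonneg (by linarith) hI0
        linarith
      have hY1 : c' * (128 * Cr * (X * R) + 100 * (2 * Cr + C5) * Sg +
          100 * (2 * Cr + C5) * I') ≤
          1 * (128 * Cr * (X * R) + 100 * (2 * Cr + C5) * Sg + 100 * (2 * Cr + C5) * I') :=
        mul_le_mul_of_nonneg_right hc'1 hY0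
      have hY2 : 0 ≤ (100 * (2 * Cr + C5) - 128 * Cr) * (X * R) :=
        mul_nonneg (by linarith) hXR0
      have hY3 : 0 ≤ (100 * (2 * Cr + C5) - 4) * X := mul_nonneg (by linarith) hX0
      linarith
  have hk := key p m k ν S S' hg hpm hE hE' hl hts
  refine hk.trans ?_
  have hmin0 : 0 ≤ min S S' := le_min hE.S0 hE'.S0
  have h1 : 0 ≤ |S - S'| / (d + min S S') := div_nonneg (abs_nonneg _) (by linarith)
  have h2 : 2 * Cr * (|S - S'| / (d + min S S')) ≤
      100 * (2 * Cr + C5) * (|S - S'| / (d + min S S')) :=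
    mul_le_mul_of_nonneg_right (by linarith) h1
  linarith

end Pool.Agent.MPca0fc2.EQ
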