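import Pool.Agent.Lib.MP_ca0fc2_an.EQ.B1
import Pool.Agent.Lib.MP_ca0fc2_an.Mg.G086

/-! Campaign EQ, task B4: the map of the ball into a small neighbourhood of `e`. -/

set_option autoImplicit false

open Metric Set Filter Topology

namespace Pool.Agent.MPca0fc2.EQ

open Pool.Agent.MPca0fc2.TB (En)

variable {n N : ℕ}

/-- PROOF. `Re ζ = 1 - Re ⟨w, e⟩ ≥ 1 - ‖w‖`; `‖w - e‖² = ‖w‖² - 2 Re ⟨w, e⟩ + 1 = 2 Re ζ - (1 - ‖w‖²)`; `‖ζ‖ = ‖⟨e - w, e⟩‖ ≤ ‖w - e‖`. -/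
theorem zt_facts {e w : En n} (he : ‖e‖ = 1) : 1 - ‖w‖ ≤ (zt e w).re ∧ ‖w - e‖ ^ 2 = 2 * (zt e w).re - (1 - ‖w‖ ^ 2) ∧
    ‖zt e w‖ ≤ ‖w - e‖ := by
  have hee : (inner ℂ e e : ℂ) = 1 := by
    rw [inner_self_eq_norm_sq_to_K, he]
    norm_num
  have hre : (zt e w).re = 1 - (inner ℂ e w : ℂ).re := by
    unfold zt
    rw [Complex.sub_re, Complex.one_re]
  refine ⟨?_, ?_, ?_⟩
  · have h1 : (inner ℂ e w : ℂ).re ≤ ‖e‖ * ‖w‖ :=
      (Complex.re_le_norm _).trans (norm_inner_le_norm _ _)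
    rw [he, one_mul] at h1
    rw [hre]
    linarith
  · have h1 := norm_sub_sq (𝕜 := ℂ) w e
    have h2 : RCLike.re (inner ℂ w e : ℂ) = (inner ℂ e w : ℂ).re := by
      rw [← inner_conj_symm w e]
      exact Complex.conj_re _
    rw [h1, h2, hre, he]
    ring
  · have h1 : zt e w = inner ℂ e (e - w) := by
      unfold zt
      rw [inner_sub_right, hee]
    rw [h1]
    refine (norm_inner_le_norm _ _).trans ?_
    rw [he, one_mul, norm_sub_rev]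

/-- `ζ` varies little near `v` in the directions tangential at `v`.
PROOF. `zt e y - zt e v = -inner ℂ e (y - v)`, `inner ℂ e (y - v) = inner ℂ v (y - v) + inner ℂ (e - v) (y - v)`. -/
theorem zt_var (e v y : En n) : ‖zt e y - zt e v‖ ≤ ‖(inner ℂ v (y - v) : ℂ)‖ + ‖v - e‖ * ‖y - v‖ := by
  have h1 : zt e y - zt e v = -(inner ℂ v (y - v) + inner ℂ (e - v) (y - v)) := by
    unfold zt
    rw [inner_sub_left, inner_sub_right, inner_sub_right]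
    ring
  rw [h1, norm_neg]
  refine (norm_add_le _ _).trans ?_
  refine add_le_add le_rfl ((norm_inner_le_norm _ _).trans ?_)
  rw [norm_sub_rev e v]

private theorem B4_sub (K : ℝ) : ∀ᶠ lam in 𝓝[>] (0 : ℝ), ∃ p : ℝ, 0 < p ∧ p ≤ 1 ∧ K * p ≤ 1 ∧
    lam = p ^ 10 ∧ lam ^ (-(7 / 5) : ℝ) = (p ^ 14)⁻¹ ∧ t0 lam = p ^ 24 ∧ lam ^ (1 / 5 : ℝ) = p ^ 2 ∧
    lam ^ (23 / 10 : ℝ) = p ^ 23 ∧ lam ^ (1 / 10 : ℝ) = p := by
  filter_upwards [ev_lt (a := 1) one_pos, small' K (α := 1 / 10) (β := 0) (by norm_num)] with lam h1 h2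
  have hl := h1.1
  have h3 := h2 lam hl le_rfl
  rw [Real.rpow_zero] at h3
  have hk : ∀ k : ℕ, (lam ^ (1 / 10 : ℝ)) ^ k = lam ^ ((k : ℝ) / 10) := by
    intro k
    rw [← Real.rpow_natCast, ← Real.rpow_mul hl.le]
    congr 1
    ring
  refine ⟨lam ^ (1 / 10 : ℝ), Real.rpow_pos_of_pos hl _, ?_, h3, ?_, ?_, ?_, ?_, ?_, rfl⟩
  · exact Real.rpow_le_one hl.le h1.2.le (by norm_num)
  · rw [hk]
    norm_num
  · rw [hk, ← Real.rpow_neg hl.le]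
    norm_num
  · unfold t0
    rw [hk]
    norm_num
  · rw [hk]
    norm_num
  · rw [hk]
    norm_num

private theorem B4_one_le {e y : En n} (he : ‖e‖ = 1) (hy : ‖y‖ < 1) {M : ℝ} (hM : 0 ≤ M) :
    1 ≤ ‖1 + (M : ℂ) * zt e y‖ := by
  obtain ⟨h1, -, -⟩ := zt_facts (w := y) he
  refine le_trans ?_ (Complex.re_le_norm _)
  rw [Complex.add_re, Complex.one_re, Complex.re_ofReal_mul]
  have : 0 ≤ M * (zt e y).re := mul_nonneg hM (by linarith)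
  linarith

private theorem B4_diff {e : En n} (he : ‖e‖ = 1) (lam : ℝ) (hl : 0 ≤ lam ^ (-(7 / 5) : ℝ)) :
    DifferentiableOn ℂ (Ph lam e) (ball 0 1) := by
  intro w hw
  rw [mem_ball_zero_iff] at hw
  have hA := B4_one_le he hw hl
  have hA0 : (1 + ((lam ^ (-(7 / 5) : ℝ) : ℝ) : ℂ) * zt e w) ≠ 0 := by
    intro h0
    rw [h0, norm_zero] at hA
    linarith
  have h1 : DifferentiableAt ℂ (fun w : En n => zt e w) w := by
    unfold zt
    exact (differentiableAt_const _).sub ((innerSL ℂ e).differentiableAt)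
  apply DifferentiableAt.differentiableWithinAt
  have h20 : DifferentiableAt ℂ
      (fun w : En n => 1 + ((lam ^ (-(7 / 5) : ℝ) : ℝ) : ℂ) * zt e w) w :=
    (h1.const_mul _).const_add _
  have h2 : DifferentiableAt ℂ
      (fun w : En n => 1 / (1 + ((lam ^ (-(7 / 5) : ℝ) : ℝ) : ℂ) * zt e w)) w := by
    simp only [one_div]
    exact h20.inv hA0
  have h3 : DifferentiableAt ℂ (fun w : En n => w - e) w := differentiableAt_id.sub_const e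
  exact (h2.smul h3).const_add e

private theorem B4_ph {e y : En n} (he : ‖e‖ = 1) (hy : ‖y‖ < 1) {M lam : ℝ} (hM : 0 ≤ M)
    (hl : lam ^ (-(7 / 5) : ℝ) = M) : ∃ q : ℝ, 1 + M ^ 2 * (zt e y).re ^ 2 ≤ q ∧ 1 ≤ q ∧
      ‖Ph lam e y‖ ^ 2 - 1 = -((1 - ‖y‖ ^ 2 + 2 * M * ((zt e y).re ^ 2 + (zt e y).im ^ 2)) / q) ∧
      ‖Ph lam e y - e‖ ^ 2 * q = 2 * (zt e y).re - (1 - ‖y‖ ^ 2) := by
  obtain ⟨h1, h2, -⟩ := zt_facts (w := y) he
  have hA := B4_one_le he hy hM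
  set u : ℝ := (zt e y).re with hu
  set v : ℝ := (zt e y).im with hv
  have hu0 : 0 < u := by linarith
  have hq : ‖1 + (M : ℂ) * zt e y‖ ^ 2 = (1 + M * u) ^ 2 + (M * v) ^ 2 := by
    rw [← Complex.normSq_eq_norm_sq, Complex.normSq_apply, Complex.add_re, Complex.add_im,
      Complex.one_re, Complex.one_im, Complex.re_ofReal_mul, Complex.im_ofReal_mul]
    ring
  have hMu : 0 ≤ M * u := mul_nonneg hM hu0.le
  have hq1 : 1 + M ^ 2 * u ^ 2 ≤ (1 + M * u) ^ 2 + (M * v) ^ 2 := by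
    nlinarith [sq_nonneg (M * v)]
  have hq0 : 0 < (1 + M * u) ^ 2 + (M * v) ^ 2 := by nlinarith [sq_nonneg (M * u)]
  have hPe : Ph lam e y - e = (1 / (1 + (M : ℂ) * zt e y)) • (y - e) := by
    unfold Ph
    rw [hl]
    abel
  have hn : ‖Ph lam e y - e‖ ^ 2 * ((1 + M * u) ^ 2 + (M * v) ^ 2) = 2 * u - (1 - ‖y‖ ^ 2) := by
    rw [hPe, norm_smul, mul_pow, norm_div, norm_one, div_pow, one_pow, hq, h2]
    field_simp
  refine ⟨(1 + M * u) ^ 2 + (M * v) ^ 2, hq1, ?_, ?_, hn⟩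
  · nlinarith [sq_nonneg (M * u)]
  · have h3 : Ph lam e y = e + (Ph lam e y - e) := by abel
    have h4 : ‖Ph lam e y‖ ^ 2 = 1 + 2 * (inner ℂ e (Ph lam e y - e) : ℂ).re + ‖Ph lam e y - e‖ ^ 2 := by
      conv_lhs => rw [h3]
      rw [norm_add_sq (𝕜 := ℂ), he, one_pow]
      rfl
    have hee : (inner ℂ e e : ℂ) = 1 := by
      rw [inner_self_eq_norm_sq_to_K, he]
      norm_num
    have h5 : (inner ℂ e (Ph lam e y - e) : ℂ) = -(zt e y / (1 + (M : ℂ) * zt e y)) := by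
      rw [hPe, inner_smul_right, inner_sub_right, hee]
      unfold zt
      ring
    have h6 : (zt e y / (1 + (M : ℂ) * zt e y)).re = (u + M * (u ^ 2 + v ^ 2)) /
        ((1 + M * u) ^ 2 + (M * v) ^ 2) := by
      rw [Complex.div_re, Complex.normSq_eq_norm_sq, hq, Complex.add_re, Complex.add_im,
        Complex.one_re, Complex.one_im, Complex.re_ofReal_mul, Complex.im_ofReal_mul]
      field_simp
      ring
    have h7 : ‖Ph lam e y - e‖ ^ 2 = (2 * u - (1 - ‖y‖ ^ 2)) / ((1 + M * u) ^ 2 + (M * v) ^ 2) := by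
      rw [eq_div_iff hq0.ne']
      exact hn
    rw [h4, h5, Complex.neg_re, h6, h7]
    field_simp
    ring

/-- The map is holomorphic on the ball, and maps the points which are not too near to the boundary into the domain.
PROOF. `M = lam ^ (-7/5)`, `ζ = zt e y`, `Re ζ > 0`, so `1 + M ζ ≠ 0`, `‖1 + M ζ‖ ≥ max 1 (M ‖ζ‖)` . `‖Ph y‖² = 1 - (1 - ‖y‖² + 2 M ‖ζ‖²) / ‖1 + M ζ‖²` : expand `‖e + a (y - e)‖²` with `a = 1/(1 + M ζ)`, `⟨y - e, e⟩ = -ζ`, `‖y - e‖² = 2 Re ζ - (1 - ‖y‖²)`: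
`1 - 2 Re (a ζ) + |a|² (2 Re ζ - 1 + ‖y‖²)` and `2 Re (a ζ) = |a|² (2 Re ζ + 2 M |ζ|²)`. `‖Ph y - e‖ = ‖y - e‖ / ‖1 + M ζ‖ ≤ √(2 ‖ζ‖) / max 1 (M ‖ζ‖) ≤ 2 M ^ (-1/2) = 2 lam ^ (7/10)`. `T.osc`: `ρ (Ph y) ≤ ‖Ph y‖² - 1 + C ‖Ph y - e‖³`, so we need
`C (2 ‖ζ‖) ^ (3/2) / ‖1 + M ζ‖ < 1 - ‖y‖² + 2 M ‖ζ‖²`: for `M ‖ζ‖ ≥ 1` the left side is `≤ 3 C ‖ζ‖ ^ (1/2) / M`, the right side `≥ 2 M ‖ζ‖²`, and `‖ζ‖ ^ (3/2) ≥ M ^ (-3/2)`, `3 C M ^ (-2) < M ^ (-3/2)`. For `M ‖ζ‖ ≤ 1`, left `≤ 3 C ‖ζ‖ ^ (3/2)`: if `‖ζ‖ ≥ (3 C / M)²` it is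
`≤ M ‖ζ‖²`; if `‖ζ‖ < (3 C/M)²` it is `≤ 3 C (3 C / M) ^ 3 = C' lam ^ 4.2 < t0 / 2 ≤ 1 - ‖y‖ ≤ 1 - ‖y‖²`. -/
theorem ph_mem (T : Tg n) {s : ℝ} (hs : 0 < s) : ∀ᶠ lam in 𝓝[>] (0 : ℝ), DifferentiableOn ℂ (Ph lam T.e) (ball 0 1) ∧
    ∀ y : En n, ‖y‖ < 1 → t0 lam ≤ 2 * (1 - ‖y‖) → Ph lam T.e y ∈ T.D ∩ ball T.e s := by
  filter_upwards [B4_sub (256 * T.C ^ 8 + 1 + 2 / s ^ 2)] with lam hlam
  obtain ⟨p, hp, hp1, hKp, -, hM, ht, -, -, -⟩ := hlam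
  have hC := T.one_le
  have hC8 : 1 ≤ T.C ^ 8 := one_le_pow₀ hC
  have hs2 : 0 < 2 / s ^ 2 := by positivity
  have hM0 : 0 < lam ^ (-(7 / 5) : ℝ) := by rw [hM]; positivity
  refine ⟨B4_diff T.he lam hM0.le, ?_⟩
  intro y hy hty
  obtain ⟨q, hq1, hq2, hq3, hq4⟩ := B4_ph T.he hy hM0.le (lam := lam) rfl
  obtain ⟨hz1, hz2, -⟩ := zt_facts (w := y) T.he
  set M : ℝ := lam ^ (-(7 / 5) : ℝ) with hMdef
  set u : ℝ := (zt T.e y).re with hu
  set v : ℝ := (zt T.e y).im with hv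
  set d : ℝ := ‖Ph lam T.e y - T.e‖ with hd
  set η : ℝ := 1 - ‖y‖ ^ 2 with hη
  have hd0 : 0 ≤ d := norm_nonneg _
  have hy0 : 0 ≤ ‖y‖ := norm_nonneg _
  have hη1 : p ^ 24 ≤ 2 * η := by
    rw [← ht]
    have : 1 - ‖y‖ ≤ η := by rw [hη]; nlinarith
    linarith
  have hp24 : 0 < p ^ 24 := by positivity
  have hη0 : 0 < η := by linarith
  have hu0 : 0 < u := by linarith
  have hq0 : 0 < q := by
    have : 0 ≤ M ^ 2 * u ^ 2 := by positivity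
    linarith
  -- the distance
  have hd2 : d ^ 2 * q ≤ 2 * u := by rw [hq4]; linarith
  have hMp : M * p ^ 14 = 1 := by
    rw [hM]
    field_simp
  have hball : d ^ 2 ≤ p ^ 14 := by
    have h1 : 2 * M * u ≤ q := by nlinarith [sq_nonneg (M * u - 1)]
    have h2 : d ^ 2 * (2 * M * u) ≤ 2 * u := le_trans (mul_le_mul_of_nonneg_left h1 (sq_nonneg d)) hd2
    have h3 : d ^ 2 * M ≤ 1 := by
      by_contra hcon
      push Not at hcon
      have : 2 * u < 2 * u * (d ^ 2 * M) := by nlinarith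
      linarith
    calc d ^ 2 = d ^ 2 * M * p ^ 14 := by rw [mul_assoc, hMp, mul_one]
      _ ≤ 1 * p ^ 14 := mul_le_mul_of_nonneg_right h3 (by positivity)
      _ = p ^ 14 := one_mul _
  have hpn : ∀ k : ℕ, 1 ≤ k → p ^ k ≤ p := by
    intro k hk
    calc p ^ k ≤ p ^ 1 := pow_le_pow_of_le_one hp.le hp1 hk
      _ = p := pow_one p
  constructor
  · change T.ρ (Ph lam T.e y) < 0
    have hosc := (abs_le.1 (T.osc (Ph lam T.e y))).2
    rw [hq3] at hosc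
    -- main inequality
    have hmain : T.C * d ^ 3 * q < η + 2 * M * (u ^ 2 + v ^ 2) := by
      have h1 : T.C * d ^ 3 * q ≤ 2 * T.C * d * u := by
        calc T.C * d ^ 3 * q = T.C * d * (d ^ 2 * q) := by ring
          _ ≤ T.C * d * (2 * u) := mul_le_mul_of_nonneg_left hd2 (by positivity)
          _ = 2 * T.C * d * u := by ring
      have h2 : 2 * T.C * d * u < η + 2 * M * u ^ 2 := by
        have hpos : 0 < η + 2 * M * u ^ 2 := by positivity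
        refine lt_of_pow_lt_pow_left₀ 2 hpos.le ?_
        have h3 : d ^ 2 * (1 + M ^ 2 * u ^ 2) ≤ 2 * u :=
          le_trans (mul_le_mul_of_nonneg_left hq1 (sq_nonneg d)) hd2
        have hw : 0 < 1 + M ^ 2 * u ^ 2 := by positivity
        have h3' : d ^ 2 ≤ 2 * u := by
          have : d ^ 2 * 1 ≤ d ^ 2 * (1 + M ^ 2 * u ^ 2) := by
            apply mul_le_mul_of_nonneg_left _ (sq_nonneg d)
            linarith [sq_nonneg (M * u), mul_pow M u 2]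
          linarith
        have h4 : (2 * T.C * d * u) ^ 2 ≤ 8 * T.C ^ 2 * u ^ 3 := by
          calc (2 * T.C * d * u) ^ 2 = 4 * T.C ^ 2 * u ^ 2 * d ^ 2 := by ring
            _ ≤ 4 * T.C ^ 2 * u ^ 2 * (2 * u) := mul_le_mul_of_nonneg_left h3' (by positivity)
            _ = 8 * T.C ^ 2 * u ^ 3 := by ring
        rcases le_or_gt (2 * T.C ^ 2) (M ^ 2 * u) with hcase | hcase
        · calc (2 * T.C * d * u) ^ 2 ≤ 8 * T.C ^ 2 * u ^ 3 := h4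
            _ = 4 * u ^ 3 * (2 * T.C ^ 2) := by ring
            _ ≤ 4 * u ^ 3 * (M ^ 2 * u) := mul_le_mul_of_nonneg_left hcase (by positivity)
            _ = (2 * M * u ^ 2) ^ 2 := by ring
            _ < (η + 2 * M * u ^ 2) ^ 2 := by
                apply pow_lt_pow_left₀ (by linarith) (by positivity) (by norm_num)
        · have h5 : u ≤ 2 * T.C ^ 2 * p ^ 28 := by
            have : M ^ 2 * p ^ 28 = 1 := by
              calc M ^ 2 * p ^ 28 = (M * p ^ 14) ^ 2 := by ring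
                _ = 1 := by rw [hMp, one_pow]
            calc u = (M ^ 2 * p ^ 28) * u := by rw [this, one_mul]
              _ = (M ^ 2 * u) * p ^ 28 := by ring
              _ ≤ 2 * T.C ^ 2 * p ^ 28 := mul_le_mul_of_nonneg_right hcase.le (by positivity)
          have h6 : 8 * T.C ^ 2 * u ^ 3 ≤ 64 * T.C ^ 8 * p ^ 84 := by
            calc 8 * T.C ^ 2 * u ^ 3 ≤ 8 * T.C ^ 2 * (2 * T.C ^ 2 * p ^ 28) ^ 3 := by
                  apply mul_le_mul_of_nonneg_left _ (by positivity)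
                  exact pow_le_pow_left₀ hu0.le h5 3
              _ = 64 * T.C ^ 8 * p ^ 84 := by ring
          have h7 : 256 * T.C ^ 8 * p ^ 36 < 1 := by
            have h8 : 256 * T.C ^ 8 * p ^ 36 ≤ 256 * T.C ^ 8 * p :=
              mul_le_mul_of_nonneg_left (hpn 36 (by norm_num)) (by positivity)
            have h9 : (256 * T.C ^ 8 + 1 + 2 / s ^ 2) * p = 256 * T.C ^ 8 * p + p + 2 / s ^ 2 * p := by
              ring
            have h10 : 0 < 2 / s ^ 2 * p := mul_pos hs2 hp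
            linarith
          have h8 : p ^ 48 ≤ 4 * η ^ 2 := by
            calc p ^ 48 = (p ^ 24) ^ 2 := by ring
              _ ≤ (2 * η) ^ 2 := pow_le_pow_left₀ hp24.le hη1 2
              _ = 4 * η ^ 2 := by ring
          have h9 : 64 * T.C ^ 8 * p ^ 84 * 4 < p ^ 48 := by
            have hp48 : 0 < p ^ 48 := by positivity
            calc 64 * T.C ^ 8 * p ^ 84 * 4 = 256 * T.C ^ 8 * p ^ 36 * p ^ 48 := by ring
              _ < 1 * p ^ 48 := mul_lt_mul_of_pos_right h7 hp48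
              _ = p ^ 48 := one_mul _
          have h10 : η ^ 2 ≤ (η + 2 * M * u ^ 2) ^ 2 := by
            apply pow_le_pow_left₀ hη0.le
            have : 0 ≤ 2 * M * u ^ 2 := by positivity
            linarith
          linarith
      have h3 : 2 * M * u ^ 2 ≤ 2 * M * (u ^ 2 + v ^ 2) := by
        apply mul_le_mul_of_nonneg_left _ (by positivity)
        linarith [sq_nonneg v]
      linarith
    have h5 : T.C * d ^ 3 < (η + 2 * M * (u ^ 2 + v ^ 2)) / q := by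
      rw [lt_div_iff₀ hq0]
      exact hmain
    linarith
  · rw [mem_ball, dist_eq_norm]
    refine lt_of_pow_lt_pow_left₀ 2 hs.le ?_
    have h1 : p ^ 14 ≤ p := hpn 14 (by norm_num)
    have h2 : (256 * T.C ^ 8 + 1 + 2 / s ^ 2) * p = 256 * T.C ^ 8 * p + p + 2 / s ^ 2 * p := by ring
    have h3 : 0 < 256 * T.C ^ 8 * p := by positivity
    have h4 : 2 / s ^ 2 * p < 1 := by linarith
    have h5 : p < s ^ 2 := by
      rw [div_mul_eq_mul_div, div_lt_one (by positivity)] at h4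
      linarith
    exact lt_of_le_of_lt (hball.trans h1) h5

/-- In the first transition zone the two definitions nearly agree.
PROOF. `y` with `‖ζ‖ ≤ 2 lam²`, `ζ = zt e y`, `δ = 1 - ‖y‖ ≥ t0/2`. `‖y - e‖ ≤ 2 lam`, `|ρ y - (‖y‖² - 1)| ≤ C 8 lam³ ≤ t0/8`, so `-ρ y ≥ δ/2`... (`1 - ‖y‖² ≥ δ`), `y ∈ T.D`. `w = Ph y - y = -(M ζ / (1 + M ζ)) (y - e)`: `‖w‖ ≤ M ‖ζ‖ ‖y - e‖ ≤ 4 lam ^ (8/5)`. `pd ρ y (y - e)`:
`pd_inner`: `‖.. - inner ℂ y (y - e)‖ ≤ C ‖y - e‖³ ≤ 8 C lam³`; `inner ℂ y (y - e) = ‖y‖² - 1 + conj ζ`, `‖..‖ ≤ 2 δ + ‖ζ‖ ≤ 3 ‖ζ‖` (`δ ≤ Re ζ`). So `‖pd ρ y w‖ ≤ M ‖ζ‖ (3 ‖ζ‖ + 8 C lam³) ≤ C' lam ^ (13/5)`. `fl` for `G = f` at `x = y` (the set of `fl` is in `T.D ∩ ball T.e s`, `f (Ph y)` is bounded by `1`: `ph_mem`):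
`≤ C'' (lam ^ 2.6 / (δ/2) + lam ^ 1.6 / √(δ/2)) ≤ C''' lam ^ (1/5)`, as `δ ≥ lam ^ 2.4 / 2`. -/
theorem ph_near (T : Tg n) (N : ℕ) : ∃ C : ℝ, 1 ≤ C ∧ ∀ s > 0, ∀ᶠ lam in 𝓝[>] (0 : ℝ), ∀ (f : En n → En N) (y : En n), Dat T s f → ‖y‖ < 1 →
    t0 lam ≤ 2 * (1 - ‖y‖) → ‖zt T.e y‖ ≤ 2 * lam ^ 2 → y ∈ T.D ∩ ball T.e s ∧ ‖f (Ph lam T.e y) - f y‖ ≤ C * lam ^ (1 / 5 : ℝ) := by
  have hC := T.one_le
  refine ⟨1920 * T.C ^ 2, by nlinarith, ?_⟩
  intro s hs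
  filter_upwards [B4_sub (64 * T.C + 8 / s), ph_mem T hs] with lam hlam hmem f y hf hy hty hzy
  obtain ⟨p, hp, hp1, hKp, hl, hM, ht, h15, -, -⟩ := hlam
  have hpn : ∀ k : ℕ, 1 ≤ k → p ^ k ≤ p := by
    intro k hk
    calc p ^ k ≤ p ^ 1 := pow_le_pow_of_le_one hp.le hp1 hk
      _ = p := pow_one p
  have hs8 : 0 < 8 / s := by positivity
  have hKp' : 64 * T.C * p + 8 / s * p ≤ 1 := by linarith [add_mul (64 * T.C) (8 / s) p]
  have hCp : 64 * T.C * p ≤ 1 := by linarith [mul_pos hs8 hp]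
  have hsp : 8 * p < s := by
    have h1 : 0 < 64 * T.C * p := by positivity
    have h2 : 8 / s * p < 1 := by linarith
    rw [div_mul_eq_mul_div, div_lt_one hs] at h2
    exact h2
  obtain ⟨hz1, hz2, -⟩ := zt_facts (w := y) T.he
  have hre : (zt T.e y).re ≤ ‖zt T.e y‖ := Complex.re_le_norm _
  set z : ℝ := ‖zt T.e y‖ with hz
  set δ : ℝ := 1 - ‖y‖ with hδ
  have hy0 : 0 ≤ ‖y‖ := norm_nonneg _
  rw [hl] at hzy
  rw [ht] at hty
  have hzy' : z ≤ 2 * p ^ 20 := by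
    calc z ≤ 2 * (p ^ 10) ^ 2 := hzy
      _ = 2 * p ^ 20 := by ring
  have hp24 : 0 < p ^ 24 := by positivity
  have hδ0 : 0 < δ := by linarith
  have hδz : δ ≤ z := hz1.trans hre
  have hz0 : 0 < z := lt_of_lt_of_le hδ0 hδz
  have hη1 : δ ≤ 1 - ‖y‖ ^ 2 := by rw [hδ]; nlinarith
  have hη2 : 1 - ‖y‖ ^ 2 ≤ 2 * δ := by rw [hδ]; nlinarith [sq_nonneg (1 - ‖y‖)]
  -- the distance to `e`
  have hD : ‖y - T.e‖ ≤ 2 * p ^ 10 := by
    refine (sq_le_sq₀ (norm_nonneg _) (by positivity)).1 ?_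
    rw [hz2]
    nlinarith
  have hD0 : 0 ≤ ‖y - T.e‖ := norm_nonneg _
  have hD3 : T.C * ‖y - T.e‖ ^ 3 ≤ 8 * T.C * p ^ 30 := by
    calc T.C * ‖y - T.e‖ ^ 3 ≤ T.C * (2 * p ^ 10) ^ 3 :=
          mul_le_mul_of_nonneg_left (pow_le_pow_left₀ hD0 hD 3) (by linarith)
      _ = 8 * T.C * p ^ 30 := by ring
  have h30 : 64 * T.C * p ^ 30 ≤ p ^ 24 := by
    calc 64 * T.C * p ^ 30 = 64 * T.C * p ^ 6 * p ^ 24 := by ring
      _ ≤ 1 * p ^ 24 := by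
          apply mul_le_mul_of_nonneg_right _ hp24.le
          calc 64 * T.C * p ^ 6 ≤ 64 * T.C * p :=
                mul_le_mul_of_nonneg_left (hpn 6 (by norm_num)) (by positivity)
            _ ≤ 1 := hCp
      _ = p ^ 24 := one_mul _
  have hosc := abs_le.1 (T.osc y)
  have hρ1 : δ / 2 ≤ -T.ρ y := by linarith [hosc.2]
  have hρ2 : -T.ρ y ≤ 9 * (p ^ 10) ^ 2 := by
    have h1 : 64 * T.C * p ^ 30 ≤ p ^ 20 :=
      h30.trans (pow_le_pow_of_le_one hp.le hp1 (by norm_num))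
    have h2 : 0 < p ^ 20 := by positivity
    have h3 : (p ^ 10) ^ 2 = p ^ 20 := by ring
    rw [h3]
    linarith [hosc.1]
  have hρ0 : 0 < -T.ρ y := by linarith
  have hyD : T.ρ y < 0 := by linarith
  have hp10 : p ^ 10 ≤ p := hpn 10 (by norm_num)
  have hyb : y ∈ T.D ∩ ball T.e s := by
    refine ⟨hyD, ?_⟩
    rw [mem_ball, dist_eq_norm]
    linarith
  refine ⟨hyb, ?_⟩
  -- the displacement
  set M : ℝ := lam ^ (-(7 / 5) : ℝ) with hMdef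
  have hM0 : 0 < M := by rw [hM]; positivity
  have hMp : M * p ^ 14 = 1 := by
    rw [hM]
    field_simp
  set b : ℂ := 1 / (1 + ((M : ℝ) : ℂ) * zt T.e y) - 1 with hb
  have hPh : Ph lam T.e y = y + b • (y - T.e) := by
    rw [hb, sub_smul, one_smul]
    unfold Ph
    abel
  have hA := B4_one_le T.he hy hM0.le
  have hbn : ‖b‖ ≤ M * z := by
    have hA0 : (1 + ((M : ℝ) : ℂ) * zt T.e y) ≠ 0 := by
      intro h0
      rw [h0, norm_zero] at hA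
      linarith
    have h1 : b = -(((M : ℝ) : ℂ) * zt T.e y / (1 + ((M : ℝ) : ℂ) * zt T.e y)) := by
      rw [hb]
      field_simp
      ring
    rw [h1, norm_neg, norm_div, norm_mul, Complex.norm_real, Real.norm_eq_abs, abs_of_pos hM0]
    exact div_le_self (by positivity) hA
  have hMz : M * z ≤ 2 * p ^ 6 := by
    calc M * z ≤ M * (2 * p ^ 20) := mul_le_mul_of_nonneg_left hzy' hM0.le
      _ = 2 * (M * p ^ 14) * p ^ 6 := by ring
      _ = 2 * p ^ 6 := by rw [hMp, mul_one]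
  have hb6 : ‖b‖ ≤ 2 * p ^ 6 := hbn.trans hMz
  have hwn : ‖b • (y - T.e)‖ ≤ 4 * p ^ 16 := by
    rw [norm_smul]
    calc ‖b‖ * ‖y - T.e‖ ≤ 2 * p ^ 6 * (2 * p ^ 10) :=
          mul_le_mul hb6 hD hD0 (by positivity)
      _ = 4 * p ^ 16 := by ring
  have hpd1 : ‖pd T.ρ y (y - T.e)‖ ≤ 14 * T.C * p ^ 20 := by
    have h1 := pd_inner T y (y - T.e)
    have h2 : ‖(inner ℂ y (y - T.e) : ℂ)‖ ≤ 3 * z := by
      have h3 : (inner ℂ y (y - T.e) : ℂ) = ((‖y‖ ^ 2 - 1 : ℝ) : ℂ) + starRingEnd ℂ (zt T.e y) := by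
        have h31 : (inner ℂ y y : ℂ) = ((‖y‖ ^ 2 : ℝ) : ℂ) := by
          rw [inner_self_eq_norm_sq_to_K]
          simp
        unfold zt
        rw [inner_sub_right, h31, map_sub, map_one, inner_conj_symm]
        push_cast
        ring
      rw [h3]
      refine (norm_add_le _ _).trans ?_
      rw [Complex.norm_real, RCLike.norm_conj, Real.norm_eq_abs, abs_of_nonpos (by linarith)]
      linarith
    have h4 : T.C * ‖y - T.e‖ ^ 2 * ‖y - T.e‖ ≤ 8 * T.C * p ^ 30 := by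
      calc T.C * ‖y - T.e‖ ^ 2 * ‖y - T.e‖ = T.C * ‖y - T.e‖ ^ 3 := by ring
        _ ≤ _ := hD3
    have h5 : ‖pd T.ρ y (y - T.e)‖ ≤ 8 * T.C * p ^ 30 + 3 * z := by
      calc ‖pd T.ρ y (y - T.e)‖ = ‖(pd T.ρ y (y - T.e) - inner ℂ y (y - T.e)) + inner ℂ y (y - T.e)‖ := by
            rw [sub_add_cancel]
        _ ≤ _ := (norm_add_le _ _).trans (add_le_add (h1.trans h4) h2)
    have h6 : p ^ 30 ≤ p ^ 20 := pow_le_pow_of_le_one hp.le hp1 (by norm_num)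
    have h7 : T.C * p ^ 30 ≤ T.C * p ^ 20 := mul_le_mul_of_nonneg_left h6 (by linarith)
    have h8 : p ^ 20 ≤ T.C * p ^ 20 := le_mul_of_one_le_left (by positivity) hC
    linarith
  have hpd : ‖pd T.ρ y (b • (y - T.e))‖ ≤ 28 * T.C * p ^ 26 := by
    rw [pd_smul, norm_mul]
    calc ‖b‖ * ‖pd T.ρ y (y - T.e)‖ ≤ 2 * p ^ 6 * (14 * T.C * p ^ 20) :=
          mul_le_mul hb6 hpd1 (norm_nonneg _) (by positivity)
      _ = 28 * T.C * p ^ 26 := by ring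
  have hsq1 : Real.sqrt (-T.ρ y) ≤ 3 * p ^ 10 := by
    rw [Real.sqrt_le_left (by positivity)]
    calc -T.ρ y ≤ 9 * (p ^ 10) ^ 2 := hρ2
      _ = (3 * p ^ 10) ^ 2 := by ring
  have hsub : {x' | ‖x' - y‖ < Real.sqrt (-T.ρ y) ∧ -T.ρ y / 2 < -T.ρ x'} ⊆ T.D ∩ ball T.e s := by
    rintro x' ⟨h1, h2⟩
    refine ⟨?_, ?_⟩
    · change T.ρ x' < 0
      linarith
    · rw [mem_ball, dist_eq_norm]
      have h3 : x' - T.e = (x' - y) + (y - T.e) := by abel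
      rw [h3]
      refine lt_of_le_of_lt (norm_add_le _ _) ?_
      linarith
  have hPm := hmem.2 y hy (by rw [ht]; exact hty)
  have hfl := fl T f (x := y) (w := b • (y - T.e)) (M := 1) hyD (hf.hol.mono hsub)
    (fun x' h1 h2 => hf.bd x' (hsub ⟨h1, h2⟩)) (by rw [← hPh]; exact hf.bd _ hPm)
  rw [← hPh] at hfl
  refine hfl.trans ?_
  rw [h15]
  have hA1 : ‖pd T.ρ y (b • (y - T.e))‖ / (-T.ρ y) ≤ 112 * T.C * p ^ 2 := by
    rw [div_le_iff₀ hρ0]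
    calc ‖pd T.ρ y (b • (y - T.e))‖ ≤ 28 * T.C * p ^ 26 := hpd
      _ = 112 * T.C * p ^ 2 * (p ^ 24 / 4) := by ring
      _ ≤ 112 * T.C * p ^ 2 * (-T.ρ y) := by
          apply mul_le_mul_of_nonneg_left _ (by positivity)
          linarith
  have hsq2 : p ^ 12 / 2 ≤ Real.sqrt (-T.ρ y) := by
    apply Real.le_sqrt_of_sq_le
    calc (p ^ 12 / 2) ^ 2 = p ^ 24 / 4 := by ring
      _ ≤ -T.ρ y := by linarith
  have hsq0 : 0 < Real.sqrt (-T.ρ y) := Real.sqrt_pos.2 hρ0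
  have hA2 : ‖b • (y - T.e)‖ / Real.sqrt (-T.ρ y) ≤ 8 * p ^ 2 := by
    rw [div_le_iff₀ hsq0]
    calc ‖b • (y - T.e)‖ ≤ 4 * p ^ 16 := hwn
      _ = 8 * p ^ 4 * (p ^ 12 / 2) := by ring
      _ ≤ 8 * p ^ 2 * Real.sqrt (-T.ρ y) := by
          apply mul_le_mul _ hsq2 (by positivity) (by positivity)
          apply mul_le_mul_of_nonneg_left _ (by norm_num)
          exact pow_le_pow_of_le_one hp.le hp1 (by norm_num)
  calc 16 * T.C * 1 * (‖pd T.ρ y (b • (y - T.e))‖ / (-T.ρ y) + ‖b • (y - T.e)‖ / Real.sqrt (-T.ρ y))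
      ≤ 16 * T.C * 1 * (112 * T.C * p ^ 2 + 8 * p ^ 2) := by
        apply mul_le_mul_of_nonneg_left (add_le_add hA1 hA2) (by positivity)
    _ ≤ 16 * T.C * 1 * (120 * T.C * p ^ 2) := by
        apply mul_le_mul_of_nonneg_left _ (by positivity)
        have : p ^ 2 ≤ T.C * p ^ 2 := le_mul_of_one_le_left (by positivity) hC
        linarith
    _ = 1920 * T.C ^ 2 * p ^ 2 := by ring

/-- The function `w ↦ f (Ph ((1 - t0) • w))` on the ball: holomorphic, bounded by `1`, radial estimate (`rad_ball`). -/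
theorem ph_fun (T : Tg n) {s : ℝ} (hs : 0 < s) : ∀ᶠ lam in 𝓝[>] (0 : ℝ), ∀ (f : En n → En N), Dat T s f →
    DifferentiableOn ℂ (fun w => f (Ph lam T.e ((1 - t0 lam) • w))) (ball 0 1) ∧
    (∀ w ∈ ball (0 : En n) 1, ‖f (Ph lam T.e ((1 - t0 lam) • w))‖ ≤ 1) ∧
    ∀ w ∈ ball (0 : En n) 1, ∀ h : ℝ, 0 ≤ h → h ≤ 1 →
      ‖f (Ph lam T.e ((1 - t0 lam) • w)) - f (Ph lam T.e ((1 - t0 lam) • ((1 - h) • w)))‖ * (1 - ‖w‖) ≤ 2 * h := by
  filter_upwards [B4_sub 2, ph_mem T hs] with lam hlam hmem f hf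
  obtain ⟨p, hp, hp1, hKp, -, -, ht, -, -, -⟩ := hlam
  have ht0 : 0 < t0 lam := by rw [ht]; positivity
  have ht1 : t0 lam ≤ 1 := by rw [ht]; exact pow_le_one₀ hp.le hp1
  have hin : ∀ w : En n, ‖w‖ < 1 → ‖(1 - t0 lam) • w‖ < 1 ∧ t0 lam ≤ 2 * (1 - ‖(1 - t0 lam) • w‖) := by
    intro w hw
    have h1 : ‖(1 - t0 lam) • w‖ = (1 - t0 lam) * ‖w‖ := by
      rw [norm_smul, Real.norm_eq_abs, abs_of_nonneg (by linarith)]
    have h2 : (1 - t0 lam) * ‖w‖ ≤ (1 - t0 lam) * 1 :=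
      mul_le_mul_of_nonneg_left hw.le (by linarith)
    rw [h1]
    constructor
    · linarith
    · linarith
  have hm : ∀ w ∈ ball (0 : En n) 1, Ph lam T.e ((1 - t0 lam) • w) ∈ T.D ∩ ball T.e s := by
    intro w hw
    rw [mem_ball_zero_iff] at hw
    exact hmem.2 _ (hin w hw).1 (hin w hw).2
  have hdiff : DifferentiableOn ℂ (fun w => f (Ph lam T.e ((1 - t0 lam) • w))) (ball 0 1) := by
    have h1 : DifferentiableOn ℂ (fun w : En n => (1 - t0 lam) • w) (ball 0 1) :=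
      (differentiable_id.const_smul (1 - t0 lam)).differentiableOn
    have h2 : DifferentiableOn ℂ (fun w : En n => Ph lam T.e ((1 - t0 lam) • w)) (ball 0 1) := by
      refine hmem.1.comp h1 ?_
      intro w hw
      rw [mem_ball_zero_iff] at hw ⊢
      exact (hin w hw).1
    exact hf.hol.comp h2 hm
  have hbd : ∀ w ∈ ball (0 : En n) 1, ‖f (Ph lam T.e ((1 - t0 lam) • w))‖ ≤ 1 :=
    fun w hw => hf.bd _ (hm w hw)
  refine ⟨hdiff, hbd, ?_⟩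
  intro w hw h h0 h1
  have h2 := rad_ball hdiff hbd (mem_ball_zero_iff.1 hw) h0 h1
  rw [mul_one] at h2
  exact h2

/-- The comparison at a larger height.
PROOF. `G z = f (Ph z)` is holomorphic and bounded by `1` on `ball 0 (1 - t0/2)` (`ph_mem`); for `‖y‖ ≤ 1 - lam ^ (23/10) / 2`: `‖G y - G ((1 - t0) • y)‖ ≤ 4 t0 / (lam ^ (23/10) / 4)` (Schwarz on the disc `y + ζ y`, or `rad_ball` for the dilated function `w ↦ G ((1 - t0/2) • w)`), and `t0 / lam ^ (23/10) = lam ^ (1/10)`. -/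
theorem ph_rad (T : Tg n) {s : ℝ} (hs : 0 < s) : ∀ᶠ lam in 𝓝[>] (0 : ℝ), ∀ (f : En n → En N), Dat T s f →
    ∀ y : En n, lam ^ (23 / 10 : ℝ) ≤ 4 * (1 - ‖y‖) →
      ‖f (Ph lam T.e y) - f (Ph lam T.e ((1 - t0 lam) • y))‖ ≤ 64 * lam ^ (1 / 10 : ℝ) := by
  filter_upwards [B4_sub 4, ph_mem T hs] with lam hlam hmem f hf y hy
  obtain ⟨p, hp, hp1, hKp, -, -, ht, -, h23, h110⟩ := hlam
  rw [h23] at hy
  rw [h110]
  have hp24 : 0 < p ^ 24 := by positivity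
  have ht1 : p ^ 24 ≤ 1 := pow_le_one₀ hp.le hp1
  have hp23 : 0 < p ^ 23 := by positivity
  have h4 : 4 * p ^ 24 ≤ p ^ 23 := by
    calc 4 * p ^ 24 = 4 * p * p ^ 23 := by ring
      _ ≤ 1 * p ^ 23 := mul_le_mul_of_nonneg_right hKp hp23.le
      _ = p ^ 23 := one_mul _
  set κ : ℝ := 1 - p ^ 24 / 2 with hκ
  have hκ0 : 0 < κ := by rw [hκ]; linarith
  have hκ1 : κ ≤ 1 := by rw [hκ]; linarith
  have hm : ∀ w ∈ ball (0 : En n) 1, Ph lam T.e (κ • w) ∈ T.D ∩ ball T.e s := by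
    intro w hw
    rw [mem_ball_zero_iff] at hw
    have h1 : ‖κ • w‖ = κ * ‖w‖ := by
      rw [norm_smul, Real.norm_eq_abs, abs_of_pos hκ0]
    have h2 : κ * ‖w‖ ≤ κ * 1 := mul_le_mul_of_nonneg_left hw.le hκ0.le
    apply hmem.2
    · rw [h1]; linarith
    · rw [h1, ht]; linarith
  have hdiff : DifferentiableOn ℂ (fun w => f (Ph lam T.e (κ • w))) (ball 0 1) := by
    have h1 : DifferentiableOn ℂ (fun w : En n => κ • w) (ball 0 1) :=
      (differentiable_id.const_smul κ).differentiableOn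
    have h2 : DifferentiableOn ℂ (fun w : En n => Ph lam T.e (κ • w)) (ball 0 1) := by
      refine hmem.1.comp h1 ?_
      intro w hw
      rw [mem_ball_zero_iff] at hw ⊢
      have h1 : ‖κ • w‖ = κ * ‖w‖ := by
        rw [norm_smul, Real.norm_eq_abs, abs_of_pos hκ0]
      have h2 : κ * ‖w‖ ≤ κ * 1 := mul_le_mul_of_nonneg_left hw.le hκ0.le
      rw [h1]
      linarith
    exact hf.hol.comp h2 hm
  have hbd : ∀ w ∈ ball (0 : En n) 1, ‖f (Ph lam T.e (κ • w))‖ ≤ 1 :=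
    fun w hw => hf.bd _ (hm w hw)
  have hκw : κ • (κ⁻¹ • y) = y := by rw [smul_smul, mul_inv_cancel₀ hκ0.ne', one_smul]
  have hwn : ‖κ⁻¹ • y‖ = κ⁻¹ * ‖y‖ := by
    rw [norm_smul, Real.norm_eq_abs, abs_of_pos (inv_pos.2 hκ0)]
  have hlow : p ^ 23 / 8 ≤ 1 - ‖κ⁻¹ • y‖ := by
    rw [hwn]
    have h5 : κ * (κ⁻¹ * ‖y‖) = ‖y‖ := by rw [← mul_assoc, mul_inv_cancel₀ hκ0.ne', one_mul]
    have h6 : 0 ≤ κ⁻¹ * ‖y‖ := by positivity
    have h7 : p ^ 23 / 8 ≤ κ * (1 - κ⁻¹ * ‖y‖) := by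
      rw [mul_sub, h5, mul_one, hκ]
      linarith
    have h8 : 0 ≤ 1 - κ⁻¹ * ‖y‖ := by
      by_contra hcon
      push Not at hcon
      have := mul_neg_of_pos_of_neg hκ0 hcon
      linarith
    calc p ^ 23 / 8 ≤ κ * (1 - κ⁻¹ * ‖y‖) := h7
      _ ≤ 1 * (1 - κ⁻¹ * ‖y‖) := mul_le_mul_of_nonneg_right hκ1 h8
      _ = 1 - κ⁻¹ * ‖y‖ := one_mul _
  have h5 := rad_ball hdiff hbd (w := κ⁻¹ • y) (by linarith) (h := t0 lam) (by rw [ht]; positivity)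
    (by rw [ht]; exact ht1)
  have h6 : κ • ((1 - t0 lam) • (κ⁻¹ • y)) = (1 - t0 lam) • y := by
    rw [smul_comm, hκw]
  simp only [hκw, h6] at h5
  have h7 : 0 ≤ ‖f (Ph lam T.e y) - f (Ph lam T.e ((1 - t0 lam) • y))‖ := norm_nonneg _
  have h8 : ‖f (Ph lam T.e y) - f (Ph lam T.e ((1 - t0 lam) • y))‖ * (p ^ 23 / 8) ≤
      2 * p ^ 24 := by
    calc ‖f (Ph lam T.e y) - f (Ph lam T.e ((1 - t0 lam) • y))‖ * (p ^ 23 / 8) ≤
        ‖f (Ph lam T.e y) - f (Ph lam T.e ((1 - t0 lam) • y))‖ * (1 - ‖κ⁻¹ • y‖) :=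
          mul_le_mul_of_nonneg_left hlow h7
      _ ≤ 2 * 1 * t0 lam := h5
      _ = 2 * p ^ 24 := by rw [ht]; ring
  by_contra hcon
  push Not at hcon
  have h9 : 64 * p * (p ^ 23 / 8) < ‖f (Ph lam T.e y) - f (Ph lam T.e ((1 - t0 lam) • y))‖ *
      (p ^ 23 / 8) := mul_lt_mul_of_pos_right hcon (by positivity)
  have h10 : 64 * p * (p ^ 23 / 8) = 8 * p ^ 24 := by ring
  linarith

end Pool.Agent.MPca0fc2.EQ
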