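import Pool.Agent.Lib.MP_ca0fc2_an.EQ.B2
import Pool.Agent.Lib.MP_ca0fc2_an.EQ.B4

/-! Campaign EQ, task B5: the transplanted function on the ball: bounds and radial variation. -/

set_option autoImplicit false

open Metric Set Filter Topology

namespace Pool.Agent.MPca0fc2.EQ

open Pool.Agent.MPca0fc2.TB (En)

variable {n N : ℕ}

/-- `Fz` depends on `v` only by `v / |v|`. PROOF. Induction on `m` (`nn`, `cw`, `sw` depend on `rad v`). -/
theorem fz_rad (lam : ℝ) (sh : ℕ → ℝ) (nx : ℕ → Nd n → (Fin n → ℤ × ℤ) → Nd n) (f : En n → En N) (m k : ℕ) (ν : Nd n) (S : ℝ) {v v' : En n}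
    (h : rad v = rad v') (u : En n) : Fz lam sh nx f m k ν S v u = Fz lam sh nx f m k ν S v' u := by
  induction m generalizing k ν S with
  | zero => rfl
  | succ m ih =>
    have h1 : cw lam sh k ν v = cw lam sh k ν v' := by simp only [cw, h]
    have h2 : sw lam sh k ν v = sw lam sh k ν v' := by simp only [sw, h]
    have h3 : nn lam sh nx k ν v = nn lam sh nx k ν v' := by simp only [nn, h]
    simp only [Fz]
    rw [h1, h2, h3, ih]

/-- PROOF. `rad (a • w) = rad w`. -/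
theorem rad_smul {a : ℝ} (ha : 0 < a) (w : En n) : rad (a • w) = rad w := by
  unfold rad
  rw [smul_smul, norm_smul, Real.norm_eq_abs, abs_of_pos ha, mul_inv]
  congr 1
  field_simp

/-- B5 -/
theorem B5_sub_rad {w : En n} (hw : w ≠ 0) (h1 : ‖w‖ ≤ 1) : ‖w - rad w‖ = 1 - ‖w‖ := by
  have h0 : 0 < ‖w‖ := norm_pos_iff.mpr hw
  have : w - rad w = (1 - ‖w‖⁻¹ : ℝ) • w := by unfold rad; module
  rw [this, norm_smul, Real.norm_eq_abs, abs_of_nonpos]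
  · field_simp
    ring
  · have : 1 ≤ ‖w‖⁻¹ := (one_le_inv₀ h0).mpr h1
    linarith

/-- B5 -/
theorem B5_t0_lam : ∀ᶠ lam in 𝓝[>] (0 : ℝ), 16 * t0 lam ≤ lam ^ 2 := by
  filter_upwards [small 16 (α := 12 / 5) (β := 2) (by norm_num)] with lam h
  have := h 0
  rw [rs_zero] at this
  rw [← Real.rpow_natCast lam 2]
  exact this

/-- B5 -/
theorem B5_t0_le : ∀ᶠ lam in 𝓝[>] (0 : ℝ), t0 lam ≤ lam := by
  filter_upwards [ev_lt (a := 1) (by norm_num)] with lam h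
  calc t0 lam ≤ lam ^ (1 : ℝ) := Real.rpow_le_rpow_of_exponent_ge h.1 h.2.le (by norm_num)
    _ = lam := Real.rpow_one _

/-- B5 -/
theorem B5_S {t x : ℝ} (ht : 0 ≤ t) (h0 : 0 ≤ x) (h1 : x ≤ 1) : 0 ≤ t * x ^ 4 ∧ t * x ^ 4 ≤ t :=
  ⟨by positivity, mul_le_of_le_one_right ht (pow_le_one₀ h0 h1)⟩

/-- B5 -/
theorem B5_conv {c : ℝ} (h0 : 0 ≤ c) (h1 : c ≤ 1) {a b : En N} (ha : ‖a‖ ≤ 1) (hb : ‖b‖ ≤ 1) : ‖(1 - c) • a + c • b‖ ≤ 1 := by
  refine le_trans (norm_add_le _ _) ?_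
  rw [norm_smul, norm_smul, Real.norm_eq_abs, Real.norm_eq_abs, abs_of_nonneg h0, abs_of_nonneg (by linarith : (0 : ℝ) ≤ 1 - c)]
  nlinarith

/-- B5 -/
theorem B5_inner_smul (a : ℝ) (e w : En n) : (inner ℂ e (a • w) : ℂ) = (a : ℂ) * inner ℂ e w := by
  have : (a • w : En n) = (a : ℂ) • w := (Complex.coe_smul a w).symm
  rw [this, inner_smul_right]

/-- B5 -/
theorem B5_pow4 {x y : ℝ} (hx : 0 ≤ x) (hx1 : x ≤ 1) (hy : 0 ≤ y) (hy1 : y ≤ 1) : |x ^ 4 - y ^ 4| ≤ 4 * |x - y| := by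
  have : x ^ 4 - y ^ 4 = (x ^ 3 + x ^ 2 * y + x * y ^ 2 + y ^ 3) * (x - y) := by ring
  rw [this, abs_mul]
  apply mul_le_mul_of_nonneg_right _ (abs_nonneg _)
  rw [abs_of_nonneg (by positivity)]
  have a1 : x ^ 3 ≤ 1 := pow_le_one₀ hx hx1
  have a2 : y ^ 3 ≤ 1 := pow_le_one₀ hy hy1
  have a3 : x ^ 2 * y ≤ 1 := mul_le_one₀ (pow_le_one₀ hx hx1) hy hy1
  have a4 : x * y ^ 2 ≤ 1 := mul_le_one₀ hx1 (by positivity) (pow_le_one₀ hy hy1)
  linarith

/-- B5 -/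
theorem B5_fin {c c' h D C : ℝ} {A A' B B' : En N} (h0 : 0 ≤ c) (h1 : c ≤ 1) (hD : 0 ≤ D) (hA' : ‖A'‖ ≤ 1) (hB' : ‖B'‖ ≤ 1)
    (hA : ‖A - A'‖ * D ≤ 2 * h) (hc : |c - c'| * D ≤ 4 * h) (hB : ‖B - B'‖ * D ≤ 2 * C * h) :
    ‖(1 - c) • A + c • B - ((1 - c') • A' + c' • B')‖ * D ≤ (10 + 2 * C) * h := by
  have e : (1 - c) • A + c • B - ((1 - c') • A' + c' • B') = ((1 - c) • (A - A') + c • (B - B')) + ((c - c') • B' - (c - c') • A') := by
    module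
  rw [e]
  have k1 : ‖(1 - c) • (A - A') + c • (B - B')‖ ≤ ‖A - A'‖ + ‖B - B'‖ := by
    refine le_trans (norm_add_le _ _) ?_
    rw [norm_smul, norm_smul, Real.norm_eq_abs, Real.norm_eq_abs, abs_of_nonneg h0, abs_of_nonneg (by linarith : (0 : ℝ) ≤ 1 - c)]
    exact add_le_add (mul_le_of_le_one_left (norm_nonneg _) (by linarith)) (mul_le_of_le_one_left (norm_nonneg _) h1)
  have k2 : ‖(c - c') • B' - (c - c') • A'‖ ≤ 2 * |c - c'| := by
    refine le_trans (norm_sub_le _ _) ?_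
    rw [norm_smul, norm_smul, Real.norm_eq_abs]
    nlinarith [abs_nonneg (c - c')]
  have k3 := norm_add_le ((1 - c) • (A - A') + c • (B - B')) ((c - c') • B' - (c - c') • A')
  have k4 : ‖(1 - c) • (A - A') + c • (B - B') + ((c - c') • B' - (c - c') • A')‖ * D ≤ (‖A - A'‖ + ‖B - B'‖ + 2 * |c - c'|) * D :=
    mul_le_mul_of_nonneg_right (by linarith) hD
  nlinarith

/-- The root: the points near `e`.
PROOF. `zt_facts`: `1 - ‖w‖ ≤ Re ζ ≤ 3 lam²`, `‖w - e‖² ≤ 2 Re ζ ≤ 6 lam²`, `‖rad w - e‖ ≤ ‖w - e‖ + (1 - ‖w‖) ≤ 3 lam ≤ (kn + 1) rs 0` (`rs_zero`, `kn n ≥ 4`). `up`: `(1 - ‖w‖) + S + 2 ts 1 ≤ 3 lam² + t0 + 2 ts 1 ≤ 6 lam`. `near`: `‖w - rad w‖ = 1 - ‖w‖`. -/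
theorem root_ev (T : Tg n) : ∀ᶠ lam in 𝓝[>] (0 : ℝ), ∀ (K : ℕ) (S : ℝ) (w : En n), ‖w‖ < 1 → 0 ≤ S → S ≤ t0 lam → ‖zt T.e w‖ ≤ 3 * lam ^ 2 →
    EV lam K 0 (root T.e) S w w := by
  have hk : (4 : ℝ) ≤ kn n := by unfold kn; have : (0 : ℝ) ≤ n := Nat.cast_nonneg n; linarith
  filter_upwards [ev_lt (a := 1 / 100) (by norm_num), ineqs 1, B5_t0_le] with lam h1 h2 h3 K S w hw hS hS' hz
  obtain ⟨hl, hl1⟩ := h1
  obtain ⟨z1, z2, z3⟩ := zt_facts (w := w) T.he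
  have hre : (zt T.e w).re ≤ 3 * lam ^ 2 := le_trans (Complex.re_le_norm _) hz
  have hts := (h2.2.2 0).2.2.2.2.2.2.2.2.1
  have hD : 1 - ‖w‖ ≤ 3 * lam ^ 2 := by linarith
  have hl2 : lam ^ 2 ≤ lam / 100 := by nlinarith
  have hw2 : 1 / 2 ≤ ‖w‖ := by nlinarith
  have hw0 : w ≠ 0 := by
    intro h
    rw [h, norm_zero] at hw2
    norm_num at hw2
  have hwr : ‖w - rad w‖ = 1 - ‖w‖ := B5_sub_rad hw0 hw.le
  refine ⟨hw, hw2, hS, ?_, ?_, ?_, hw0⟩
  · have hSw : S * ‖w‖ ≤ S := by nlinarith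
    simp only [zero_add] at hts ⊢
    nlinarith
  · have he : ‖w - T.e‖ ≤ 5 / 2 * lam := by
      have h6 : ‖w - T.e‖ ^ 2 ≤ (5 / 2 * lam) ^ 2 := by
        rw [z2]
        have : ‖w‖ ^ 2 ≤ 1 := by nlinarith [norm_nonneg w]
        nlinarith
      exact (pow_le_pow_iff_left₀ (norm_nonneg _) (by positivity) two_ne_zero).mp h6
    have : ‖rad w - (root T.e).q‖ ≤ ‖w - rad w‖ + ‖w - T.e‖ := by
      have : rad w - (root T.e).q = (w - T.e) - (w - rad w) := by simp only [root]; abel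
      rw [this]
      refine le_trans (norm_sub_le _ _) (by linarith)
    rw [rs_zero]
    nlinarith
  · rw [hwr]
    have := rs_pos hl (0 + K)
    linarith

/-- PROOF. `0 ≤ c0 ≤ 1`, `0 ≤ s0 ≤ 1`; `c0 > 0` implies `‖ζ‖ < lam²`; `c0 < 1` implies `‖ζ‖ > lam² / 2`, hence `s0 = 1`; Lipschitz with the constants `2 / lam²` and `4 / lam²` in `ζ`. -/
theorem c0_facts {lam : ℝ} (h : 0 < lam) (e w w' : En n) : 0 ≤ c0 lam e w ∧ c0 lam e w ≤ 1 ∧ 0 ≤ s0 lam e w ∧ s0 lam e w ≤ 1 ∧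
    (0 < c0 lam e w → ‖zt e w‖ < lam ^ 2) ∧ (c0 lam e w < 1 → s0 lam e w = 1) ∧ (‖zt e w‖ ≤ lam ^ 2 / 4 → c0 lam e w = 1 ∧ s0 lam e w = 0) ∧
    |c0 lam e w - c0 lam e w'| ≤ 4 * ‖zt e w - zt e w'‖ / lam ^ 2 ∧ |s0 lam e w - s0 lam e w'| ≤ 4 * ‖zt e w - zt e w'‖ / lam ^ 2 := by
  have hl : 0 < lam ^ 2 := by positivity
  have hd : |‖zt e w‖ - ‖zt e w'‖| ≤ ‖zt e w - zt e w'‖ := abs_norm_sub_norm_le _ _
  refine ⟨clp_nonneg _, clp_le_one _, clp_nonneg _, clp_le_one _, ?_, ?_, ?_, ?_, ?_⟩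
  · intro h0
    have := clp_pos h0
    have h2 : 2 * ‖zt e w‖ / lam ^ 2 < 2 := by linarith
    rw [div_lt_iff₀ hl] at h2
    linarith
  · intro h0
    have := clp_lt h0
    have h2 : 1 < 2 * ‖zt e w‖ / lam ^ 2 := by linarith
    rw [lt_div_iff₀ hl] at h2
    apply clp_one
    have h3 : 2 ≤ 4 * ‖zt e w‖ / lam ^ 2 := by
      rw [le_div_iff₀ hl]
      linarith
    linarith
  · intro h0
    constructor
    · apply clp_one
      have h3 : 2 * ‖zt e w‖ / lam ^ 2 ≤ 1 := by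
        rw [div_le_iff₀ hl]
        linarith
      linarith
    · apply clp_zero
      have h3 : 4 * ‖zt e w‖ / lam ^ 2 ≤ 1 := by
        rw [div_le_iff₀ hl]
        linarith
      linarith
  · refine le_trans (clp_lip _ _) ?_
    have : (2 - 2 * ‖zt e w‖ / lam ^ 2) - (2 - 2 * ‖zt e w'‖ / lam ^ 2) = -(2 * (‖zt e w‖ - ‖zt e w'‖) / lam ^ 2) := by ring
    rw [this, abs_neg, abs_div, abs_of_pos hl, abs_mul, abs_of_pos (by norm_num : (0 : ℝ) < 2)]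
    apply div_le_div_of_nonneg_right _ hl.le
    linarith [abs_nonneg (‖zt e w‖ - ‖zt e w'‖)]
  · refine le_trans (clp_lip _ _) ?_
    have : (4 * ‖zt e w‖ / lam ^ 2 - 1) - (4 * ‖zt e w'‖ / lam ^ 2 - 1) = (4 * (‖zt e w‖ - ‖zt e w'‖) / lam ^ 2) := by ring
    rw [this, abs_div, abs_of_pos hl, abs_mul, abs_of_pos (by norm_num : (0 : ℝ) < 4)]
    apply div_le_div_of_nonneg_right _ hl.le
    linarith

/-- PROOF. Convexity, `ph_fun`, `fz_bd` (if `c0 > 0`: `root_ev`; `Sy.good0`). -/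
theorem fb_bd (T : Tg n) (Cs : ℝ) {s : ℝ} (hs : 0 < s) : ∀ᶠ lam in 𝓝[>] (0 : ℝ), ∀ (sh : ℕ → ℝ) (Sy : Sys T Cs lam sh) (f : En n → En N) (K : ℕ),
    Dat T s f → ∀ w ∈ ball (0 : En n) 1, ‖FB T lam sh Sy.nx f K w w‖ ≤ 1 := by
  filter_upwards [ph_fun (N := N) T hs, fz_bd (N := N) T Cs hs, root_ev T, ev_lt (a := 1) (by norm_num)] with lam h1 h2 h3 h4 sh Sy f K hf w hw
  have hw' : ‖w‖ < 1 := by simpa using hw
  obtain ⟨hl, hl1⟩ := h4
  have c := c0_facts hl T.e w w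
  have hA := (h1 f hf).2.1 w hw
  have ht0 : 0 < t0 lam := Real.rpow_pos_of_pos hl _
  unfold FB
  rcases eq_or_lt_of_le c.1 with h0 | h0
  · rw [← h0]
    simpa using hA
  · have hz := c.2.2.2.2.1 h0
    have hS := B5_S ht0.le c.2.2.1 c.2.2.2.1
    have hB := h2 sh Sy f K 0 (root T.e) _ w w hf Sy.good0 (h3 K _ w hw' hS.1 hS.2 (by nlinarith))
    exact B5_conv c.1 c.2.1 hA hB

/-- At each point the function is near a value of `f`.
PROOF. `c0 = 0`: the value at `Ph ((1 - t0) • w)` (`ph_mem`). `c0 = 1`: `fz_lb` at the level `0` (`rs_zero`; `lam ^ 0.3 ≤ lam ^ 0.1`). `0 < c0 < 1`: `s0 = 1`, `S = t0`: with `y = (1 - t0) • w`, `θ = 1 - ‖y‖ ≥ t0 / 2`: `fz_cl`: `‖Fz .. - f y‖ ≤ C (ts 1 / θ + lam ^ 0.3)`, `ts 1 = lam ^ 2.7`,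
`t0 = lam ^ 2.4` (`root`: `Ψ = id`); `ph_near` at `y` (`‖zt e y‖ ≤ ‖zt e w‖ + t0 ≤ 2 lam²`). So `FB` is near `f y`. -/
theorem fb_lb (T : Tg n) (Cs : ℝ) (N : ℕ) : ∃ C : ℝ, 1 ≤ C ∧ ∀ s > 0, ∀ᶠ lam in 𝓝[>] (0 : ℝ), ∀ (sh : ℕ → ℝ) (Sy : Sys T Cs lam sh) (f : En n → En N)
    (K : ℕ), Dat T s f → ∀ w ∈ ball (0 : En n) 1, ∃ x ∈ T.D ∩ ball T.e s, ‖FB T lam sh Sy.nx f K w w - f x‖ ≤ C * lam ^ (1 / 10 : ℝ) := by
  obtain ⟨C1, hC1, H1⟩ := fz_lb T Cs N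
  obtain ⟨C2, hC2, H2⟩ := fz_cl T Cs N
  obtain ⟨C3, hC3, H3⟩ := ph_near T N
  refine ⟨C1 + 2 * C2 + C3, by linarith, fun s hs => ?_⟩
  filter_upwards [H1 s hs, H2 s hs, H3 s hs, root_ev T, ph_mem T hs, ev_lt (a := 1) (by norm_num)] with
    lam h1 h2 h3 h4 h5 h6 sh Sy f K hf w hw
  have hw' : ‖w‖ < 1 := by simpa using hw
  obtain ⟨hl, hl1⟩ := h6
  have c := c0_facts hl T.e w w
  have ht0 : 0 < t0 lam := Real.rpow_pos_of_pos hl _
  have ht1 : t0 lam < 1 := Real.rpow_lt_one hl.le hl1 (by norm_num)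
  have hny : ‖(1 - t0 lam) • w‖ = (1 - t0 lam) * ‖w‖ := by
    rw [norm_smul, Real.norm_eq_abs, abs_of_pos (by linarith)]
  have hny1 : ‖(1 - t0 lam) • w‖ < 1 := by rw [hny]; nlinarith [norm_nonneg w]
  have hny2 : t0 lam ≤ 1 - ‖(1 - t0 lam) • w‖ := by rw [hny]; nlinarith [norm_nonneg w]
  have hp1 : lam ^ (3 / 10 : ℝ) ≤ lam ^ (1 / 10 : ℝ) := Real.rpow_le_rpow_of_exponent_ge hl hl1.le (by norm_num)
  have hp2 : lam ^ (1 / 5 : ℝ) ≤ lam ^ (1 / 10 : ℝ) := Real.rpow_le_rpow_of_exponent_ge hl hl1.le (by norm_num)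
  have hp0 : 0 < lam ^ (1 / 10 : ℝ) := Real.rpow_pos_of_pos hl _
  have hS := B5_S ht0.le c.2.2.1 c.2.2.2.1
  unfold FB
  rcases eq_or_lt_of_le c.1 with h0 | h0
  · refine ⟨Ph lam T.e ((1 - t0 lam) • w), h5.2 _ hny1 (by linarith), ?_⟩
    rw [← h0]
    simp only [sub_zero, one_smul, zero_smul, add_zero, sub_self, norm_zero]
    positivity
  · have hz := c.2.2.2.2.1 h0
    have hev := h4 K _ w hw' hS.1 hS.2 (by nlinarith)
    rcases eq_or_lt_of_le c.2.1 with h1' | h1'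
    · obtain ⟨x, hx, hx2⟩ := h1 sh Sy f K 0 (root T.e) _ w w hf Sy.good0 hev
      refine ⟨x, hx, ?_⟩
      rw [h1', rs_zero] at *
      simp only [sub_self, one_smul, zero_smul, zero_add]
      refine le_trans hx2 ?_
      nlinarith
    · have hs0 := c.2.2.2.2.2.1 h1'
      rw [hs0] at hev ⊢
      simp only [one_pow, mul_one] at hev ⊢
      set y : En n := (1 - t0 lam) • w with hy
      have hzy : ‖zt T.e y‖ ≤ 2 * lam ^ 2 := by
        have e1 : zt T.e y - zt T.e w = (t0 lam : ℂ) * inner ℂ T.e w := by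
          simp only [zt, hy]
          rw [B5_inner_smul]
          push_cast
          ring
        have e2 : ‖zt T.e y - zt T.e w‖ ≤ t0 lam := by
          rw [e1, norm_mul, Complex.norm_real, Real.norm_eq_abs, abs_of_pos ht0]
          have : ‖(inner ℂ T.e w : ℂ)‖ ≤ 1 := by
            refine le_trans (norm_inner_le_norm _ _) ?_
            rw [T.he, one_mul]; exact hw'.le
          nlinarith
        have e3 : t0 lam ≤ lam ^ 2 := by
          rw [← Real.rpow_natCast lam 2]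
          exact Real.rpow_le_rpow_of_exponent_ge hl hl1.le (by norm_num)
        have e4 : ‖zt T.e y‖ ≤ ‖zt T.e y - zt T.e w‖ + ‖zt T.e w‖ := by
          have := norm_add_le (zt T.e y - zt T.e w) (zt T.e w)
          simpa using this
        linarith
      obtain ⟨hyD, hyn⟩ := h3 f y hf hny1 (by linarith) hzy
      refine ⟨y, hyD, ?_⟩
      have hθ : t0 lam ≤ 1 - (1 - t0 lam) * ‖w‖ := by rw [← hny]; exact hny2
      have hts : ts lam (0 + 1) ≤ t0 lam := by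
        rw [ts_succ hl, rs_zero]
        exact Real.rpow_le_rpow_of_exponent_ge hl hl1.le (by norm_num)
      have hcl := h2 sh Sy f K 0 (root T.e) (t0 lam) w w hf Sy.good0 hev (by linarith)
      have hid : (root T.e).Ψ ((1 - t0 lam) • w) = y := rfl
      rw [hid, rs_zero] at hcl
      have hq : ts lam (0 + 1) / (1 - (1 - t0 lam) * ‖w‖) ≤ lam ^ (3 / 10 : ℝ) := by
        rw [div_le_iff₀ (by linarith)]
        have : ts lam (0 + 1) = lam ^ (3 / 10 : ℝ) * t0 lam := by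
          rw [ts_succ hl, rs_zero, t0, ← Real.rpow_add hl]
          norm_num
        rw [this]
        have := Real.rpow_nonneg hl.le (3 / 10 : ℝ)
        nlinarith
      have hb : ‖Fz lam sh Sy.nx f K 0 (root T.e) (t0 lam) w w - f y‖ ≤ 2 * C2 * lam ^ (1 / 10 : ℝ) := by
        refine le_trans hcl ?_
        nlinarith
      have ha : ‖f (Ph lam T.e y) - f y‖ ≤ C3 * lam ^ (1 / 10 : ℝ) := by
        refine le_trans hyn ?_
        nlinarith
      have hid2 : (1 - c0 lam T.e w) • f (Ph lam T.e y) + c0 lam T.e w • Fz lam sh Sy.nx f K 0 (root T.e) (t0 lam) w w - f y =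
          (1 - c0 lam T.e w) • (f (Ph lam T.e y) - f y) + c0 lam T.e w • (Fz lam sh Sy.nx f K 0 (root T.e) (t0 lam) w w - f y) := by
        module
      rw [hid2]
      refine le_trans (norm_add_le _ _) ?_
      rw [norm_smul, norm_smul, Real.norm_eq_abs, Real.norm_eq_abs, abs_of_nonneg c.1, abs_of_nonneg (by linarith [c.2.1] : (0 : ℝ) ≤ 1 - c0 lam T.e w)]
      have k1 : (1 - c0 lam T.e w) * ‖f (Ph lam T.e y) - f y‖ ≤ C3 * lam ^ (1 / 10 : ℝ) :=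
        le_trans (mul_le_of_le_one_left (norm_nonneg _) (by linarith)) ha
      have k2 : c0 lam T.e w * ‖Fz lam sh Sy.nx f K 0 (root T.e) (t0 lam) w w - f y‖ ≤ 2 * C2 * lam ^ (1 / 10 : ℝ) :=
        le_trans (mul_le_of_le_one_left (norm_nonneg _) c.2.1) hb
      nlinarith

/-- The radial variation.
PROOF. `w' = (1 - h) • w`, `D = 1 - ‖w‖`. If `h ≥ D` (in particular if `h = 1` or `w = 0`..): `2 D ≤ 2 h`. Let `h < D`. If `c0 w = c0 w' = 0`: `ph_fun`. Otherwise `D ≤ lam²` (`1 - ‖w‖ ≤ 1 - ‖w'‖ ≤ Re ζ(w')`), and `‖ζ(w) - ζ(w')‖ ≤ h < lam²` (`= h |⟨w, e⟩|`), so both `‖ζ‖ ≤ 2 lam²`: `root_ev` for `w` and `w'`.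
`FB w w - FB w' w' = (c0 w' - c0 w)(A - B') + (1 - c0 w)(A - A') + c0 w (B - B')` (or similar) with `A`, `A'` the first functions, `B`, `B'` the second: `|c0 w - c0 w'| ≤ 4 h / lam² ≤ 4 h / D`; `‖A - A'‖ D ≤ 2 h` (`ph_fun`); `B' = Fz K 0 root S' w w'` (`fz_rad`, `rad_smul`), `fz_rl` with `a = 1 - h`
(`EV K 0 root S' w w'`: from `root_ev` for `w'` and `rad w = rad w'`): `‖B - B'‖ D ≤ C (|S - S'| + h)`, `|S - S'| ≤ t0 4 |s0 w - s0 w'| ≤ 16 t0 h / lam² ≤ h`. -/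
theorem fb_rl (T : Tg n) (Cs : ℝ) (N : ℕ) : ∃ C : ℝ, 1 ≤ C ∧ ∀ s > 0, ∀ᶠ lam in 𝓝[>] (0 : ℝ), ∀ (sh : ℕ → ℝ) (Sy : Sys T Cs lam sh) (f : En n → En N)
    (K : ℕ), Dat T s f → ∀ w ∈ ball (0 : En n) 1, ∀ h : ℝ, 0 ≤ h → h ≤ 1 →
      ‖FB T lam sh Sy.nx f K w w - FB T lam sh Sy.nx f K ((1 - h) • w) ((1 - h) • w)‖ * (1 - ‖w‖) ≤ C * h := by
  obtain ⟨C1, hC1, H1⟩ := fz_rl T Cs N
  refine ⟨10 + 2 * C1, by linarith, fun s hs => ?_⟩
  filter_upwards [H1 s hs, ph_fun (N := N) T hs, fz_bd (N := N) T Cs hs, root_ev T, fb_bd (N := N) T Cs hs, ev_lt (a := 1) (by norm_num), B5_t0_lam] with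
    lam h1 h2 h3 h4 h5 h6 h7 sh Sy f K hf w hw h hh0 hh1
  have hw' : ‖w‖ < 1 := by simpa using hw
  obtain ⟨hl, hl1⟩ := h6
  have ht0 : 0 < t0 lam := Real.rpow_pos_of_pos hl _
  have hw2 : (1 - h) • w ∈ ball (0 : En n) 1 := by
    simp only [mem_ball, dist_zero_right]
    rw [norm_smul, Real.norm_eq_abs, abs_of_nonneg (by linarith)]
    nlinarith [norm_nonneg w]
  have hnw : ‖(1 - h) • w‖ = (1 - h) * ‖w‖ := by rw [norm_smul, Real.norm_eq_abs, abs_of_nonneg (by linarith)]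
  have hb1 := h5 sh Sy f K hf w hw
  have hb2 := h5 sh Sy f K hf _ hw2
  rcases le_or_gt (1 - ‖w‖) h with hD | hD
  · have : ‖FB T lam sh Sy.nx f K w w - FB T lam sh Sy.nx f K ((1 - h) • w) ((1 - h) • w)‖ ≤ 2 :=
      le_trans (norm_sub_le _ _) (by linarith)
    have h9 := mul_le_mul this hD (by linarith) (by norm_num)
    nlinarith
  · have hA := (h2 f hf).2.2 w hw h hh0 hh1
    have hA' := (h2 f hf).2.1 _ hw2
    have c := c0_facts hl T.e w ((1 - h) • w)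
    have c' := c0_facts hl T.e ((1 - h) • w) w
    have hzd : ‖zt T.e w - zt T.e ((1 - h) • w)‖ ≤ h := by
      have e1 : zt T.e w - zt T.e ((1 - h) • w) = -((h : ℂ) * inner ℂ T.e w) := by
        simp only [zt]
        rw [B5_inner_smul]
        push_cast
        ring
      rw [e1, norm_neg, norm_mul, Complex.norm_real, Real.norm_eq_abs, abs_of_nonneg hh0]
      have : ‖(inner ℂ T.e w : ℂ)‖ ≤ 1 := by
        refine le_trans (norm_inner_le_norm _ _) ?_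
        rw [T.he, one_mul]; exact hw'.le
      nlinarith
    by_cases hcc : c0 lam T.e w = 0 ∧ c0 lam T.e ((1 - h) • w) = 0
    · unfold FB
      rw [hcc.1, hcc.2]
      simp only [sub_zero, one_smul, zero_smul, add_zero]
      refine le_trans hA ?_
      nlinarith
    · have hzn : ‖zt T.e w‖ ≤ ‖zt T.e w - zt T.e ((1 - h) • w)‖ + ‖zt T.e ((1 - h) • w)‖ := by
        have := norm_add_le (zt T.e w - zt T.e ((1 - h) • w)) (zt T.e ((1 - h) • w))
        simpa using this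
      have hzn' : ‖zt T.e ((1 - h) • w)‖ ≤ ‖zt T.e w - zt T.e ((1 - h) • w)‖ + ‖zt T.e w‖ := by
        have := norm_sub_le (zt T.e w) (zt T.e w - zt T.e ((1 - h) • w))
        simp only [sub_sub_cancel] at this
        linarith
      have z1 := (zt_facts (w := w) T.he).1
      have z2 := (zt_facts (w := (1 - h) • w) T.he).1
      have r1 := Complex.re_le_norm (zt T.e w)
      have r2 := Complex.re_le_norm (zt T.e ((1 - h) • w))
      have hD2 : 1 - ‖w‖ ≤ lam ^ 2 ∧ ‖zt T.e w‖ ≤ 2 * lam ^ 2 ∧ ‖zt T.e ((1 - h) • w)‖ ≤ 2 * lam ^ 2 := by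
        rcases eq_or_lt_of_le c.1 with h0 | h0
        · rcases eq_or_lt_of_le c'.1 with h0' | h0'
          · exact absurd ⟨h0.symm, h0'.symm⟩ hcc
          · have := c'.2.2.2.2.1 h0'
            have hD3 : 1 - ‖w‖ ≤ lam ^ 2 := by
              have : ‖(1 - h) • w‖ ≤ ‖w‖ := by rw [hnw]; nlinarith [norm_nonneg w]
              linarith
            exact ⟨hD3, by linarith, by linarith⟩
        · have := c.2.2.2.2.1 h0
          have hD3 : 1 - ‖w‖ ≤ lam ^ 2 := by linarith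
          exact ⟨hD3, by linarith, by linarith⟩
      obtain ⟨hD3, hz3, hz4⟩ := hD2
      have hl2 : 0 < lam ^ 2 := by positivity
      have hl3 : lam ^ 2 < 1 := by nlinarith
      have hSw := B5_S ht0.le c.2.2.1 c.2.2.2.1
      have hSw' := B5_S ht0.le c'.2.2.1 c'.2.2.2.1
      have ev1 := h4 K _ w hw' hSw.1 hSw.2 (by linarith)
      have ev2 := h4 K _ ((1 - h) • w) (by simpa using hw2) hSw'.1 hSw'.2 (by linarith)
      have ha : 0 < 1 - h := by linarith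
      have hrad : rad ((1 - h) • w) = rad w := rad_smul ha w
      have ev3 : EV lam K 0 (root T.e) (t0 lam * s0 lam T.e ((1 - h) • w) ^ 4) w ((1 - h) • w) :=
        ⟨ev2.lt, ev2.ge, ev2.S0, ev2.up, by rw [← hrad]; exact ev2.cen, by rw [← hrad]; exact ev2.near, ev1.v0⟩
      have hrl := h1 sh Sy f K 0 (root T.e) _ _ (1 - h) w w hf Sy.good0 ha (by linarith) ev1 ev3
      have hfr := fz_rad lam sh Sy.nx f K 0 (root T.e) (t0 lam * s0 lam T.e ((1 - h) • w) ^ 4) hrad ((1 - h) • w)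
      have hB' := h3 sh Sy f K 0 (root T.e) _ _ _ hf Sy.good0 ev2
      unfold FB
      rw [hfr] at hB' ⊢
      have hSS : |t0 lam * s0 lam T.e w ^ 4 - t0 lam * s0 lam T.e ((1 - h) • w) ^ 4| ≤ h := by
        rw [← mul_sub, abs_mul, abs_of_pos ht0]
        have q1 := B5_pow4 c.2.2.1 c.2.2.2.1 c'.2.2.1 c'.2.2.2.1
        have q2 := c.2.2.2.2.2.2.2.2
        have q3 : 4 * ‖zt T.e w - zt T.e ((1 - h) • w)‖ / lam ^ 2 ≤ 4 * h / lam ^ 2 :=
          div_le_div_of_nonneg_right (by linarith) hl2.le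
        have q4 : |s0 lam T.e w ^ 4 - s0 lam T.e ((1 - h) • w) ^ 4| ≤ 16 * h / lam ^ 2 := by
          refine le_trans q1 ?_
          have : 16 * h / lam ^ 2 = 4 * (4 * h / lam ^ 2) := by ring
          rw [this]
          linarith
        have q5 : t0 lam * |s0 lam T.e w ^ 4 - s0 lam T.e ((1 - h) • w) ^ 4| ≤ t0 lam * (16 * h / lam ^ 2) :=
          mul_le_mul_of_nonneg_left q4 ht0.le
        refine le_trans q5 ?_
        have : t0 lam * (16 * h / lam ^ 2) = (16 * t0 lam) * h / lam ^ 2 := by ring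
        rw [this, div_le_iff₀ hl2]
        nlinarith
      have hcd : |c0 lam T.e w - c0 lam T.e ((1 - h) • w)| * (1 - ‖w‖) ≤ 4 * h := by
        have q2 := c.2.2.2.2.2.2.2.1
        have q3 : 4 * ‖zt T.e w - zt T.e ((1 - h) • w)‖ / lam ^ 2 ≤ 4 * h / lam ^ 2 :=
          div_le_div_of_nonneg_right (by linarith) hl2.le
        have q4 : |c0 lam T.e w - c0 lam T.e ((1 - h) • w)| ≤ 4 * h / lam ^ 2 := le_trans q2 q3
        calc |c0 lam T.e w - c0 lam T.e ((1 - h) • w)| * (1 - ‖w‖) ≤ (4 * h / lam ^ 2) * lam ^ 2 :=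
              mul_le_mul q4 hD3 (by linarith) (by positivity)
          _ = 4 * h := by field_simp
      have hBB : ‖Fz lam sh Sy.nx f K 0 (root T.e) (t0 lam * s0 lam T.e w ^ 4) w w -
          Fz lam sh Sy.nx f K 0 (root T.e) (t0 lam * s0 lam T.e ((1 - h) • w) ^ 4) w ((1 - h) • w)‖ * (1 - ‖w‖) ≤ 2 * C1 * h := by
        have hD0 : 0 < 1 - ‖w‖ := by linarith
        have q1 := mul_le_mul_of_nonneg_right hrl hD0.le
        refine le_trans q1 ?_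
        rw [div_mul_cancel₀ _ hD0.ne']
        nlinarith
      exact B5_fin c.1 c.2.1 (by linarith) hA' hB' hA hcd hBB

end Pool.Agent.MPca0fc2.EQ
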