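import Pool.Agent.Lib.MP_ca0fc2_an.EQ.B3
import Pool.Agent.Lib.MP_ca0fc2_an.EQ.B5

/-! Campaign EQ, task B6: the transplanted function on the ball: continuity, almost holomorphy. -/

set_option autoImplicit false

open Metric Set Filter Topology

namespace Pool.Agent.MPca0fc2.EQ

open Pool.Agent.MPca0fc2.TB (En)

variable {n N : ℕ}

private theorem B6_radn {w : En n} (h0 : w ≠ 0) (h1 : ‖w‖ < 1) : ‖w - rad w‖ = 1 - ‖w‖ := by
  have h2 : 0 < ‖w‖ := norm_pos_iff.mpr h0
  have h3 : w - rad w = (1 - ‖w‖⁻¹) • w := by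
    unfold rad
    rw [sub_smul, one_smul]
  have h4 : 1 ≤ ‖w‖⁻¹ := by
    rw [one_le_inv₀ h2]
    exact h1.le
  rw [h3, norm_smul, Real.norm_eq_abs, abs_of_nonpos (by linarith)]
  field_simp
  ring

private theorem B6_rad_cont {w : En n} (h0 : w ≠ 0) : ContinuousAt (rad : En n → En n) w := by
  unfold rad
  exact ((continuous_norm.continuousAt).inv₀ (norm_ne_zero_iff.mpr h0)).smul continuousAt_id

private theorem B6_zt_cont (e : En n) : Continuous (fun w : En n => zt e w) := by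
  unfold zt
  fun_prop

private theorem B6_c0_cont (lam : ℝ) (e : En n) : Continuous (fun w : En n => c0 lam e w) := by
  unfold c0 clp
  have := B6_zt_cont e
  fun_prop

private theorem B6_s0_cont (lam : ℝ) (e : En n) : Continuous (fun w : En n => s0 lam e w) := by
  unfold s0 clp
  have := B6_zt_cont e
  fun_prop

/-- the frozen points near `w₀` are points of evaluation -/
private theorem B6_ev {lam : ℝ} {K : ℕ} {e : En n} {S : ℝ} {w₀ w : En n} (h0 : EV lam K 0 (root e) S w₀ w₀)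
    (h : EV lam K 0 (root e) S w w) (hn : 2 * ‖w - w₀‖ ≤ rs lam K) : EV lam K 0 (root e) S w₀ w := by
  refine ⟨h.lt, h.ge, h.S0, h.up, h0.cen, ?_, h0.v0⟩
  have h1 := B6_radn h0.v0 h0.lt
  have h2 : ‖w - rad w₀‖ ≤ ‖w - w₀‖ + ‖w₀ - rad w₀‖ := by
    have h3 : w - rad w₀ = (w - w₀) + (w₀ - rad w₀) := by abel
    rw [h3]
    exact norm_add_le _ _
  have h4 : ‖w‖ - ‖w₀‖ ≤ ‖w - w₀‖ := norm_sub_norm_le _ _
  rw [Nat.zero_add]
  linarith

private theorem B6_near {e w : En n} {lam : ℝ} (he : ‖e‖ = 1) (hl : 0 < lam) (hw : ‖w‖ < 1) (h : ‖zt e w‖ < lam ^ 2) :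
    ‖w - e‖ ≤ 3 / 2 * lam := by
  obtain ⟨-, h2, -⟩ := zt_facts (w := w) he
  have h3 : (zt e w).re ≤ ‖zt e w‖ := Complex.re_le_norm _
  have h4 : 0 ≤ 1 - ‖w‖ ^ 2 := by nlinarith [norm_nonneg w]
  have h5 : ‖w - e‖ ^ 2 ≤ (3 / 2 * lam) ^ 2 := by nlinarith
  exact le_of_sq_le_sq h5 (by positivity)

private theorem B6_rad_lip {y v : En n} (hy : 1 / 2 ≤ ‖y‖) (hv : 1 / 2 ≤ ‖v‖) : ‖rad y - rad v‖ ≤ 4 * ‖y - v‖ := by
  have hy0 : 0 < ‖y‖ := by linarith
  have hv0 : 0 < ‖v‖ := by linarith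
  have h1 : rad y - rad v = ‖y‖⁻¹ • (y - v) + (‖y‖⁻¹ - ‖v‖⁻¹) • v := by
    unfold rad
    module
  have h2 : |‖v‖ - ‖y‖| ≤ ‖y - v‖ := by
    rw [norm_sub_rev]
    exact abs_norm_sub_norm_le _ _
  have h3 : ‖(‖y‖⁻¹ - ‖v‖⁻¹) • v‖ = ‖y‖⁻¹ * |‖v‖ - ‖y‖| := by
    rw [norm_smul, Real.norm_eq_abs]
    have h4 : ‖y‖⁻¹ - ‖v‖⁻¹ = (‖v‖ - ‖y‖) * (‖y‖⁻¹ * ‖v‖⁻¹) := by
      field_simp
    rw [h4, abs_mul, abs_of_pos (a := ‖y‖⁻¹ * ‖v‖⁻¹) (by positivity)]
    field_simp
  have h5 : ‖y‖⁻¹ ≤ 2 := by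
    rw [inv_le_comm₀ hy0 two_pos]
    linarith
  rw [h1]
  refine (norm_add_le _ _).trans ?_
  rw [h3, norm_smul, norm_inv, norm_norm]
  have h6 : ‖y‖⁻¹ * |‖v‖ - ‖y‖| ≤ 2 * ‖y - v‖ := mul_le_mul h5 h2 (abs_nonneg _) two_pos.le
  have h7 : ‖y‖⁻¹ * ‖y - v‖ ≤ 2 * ‖y - v‖ := mul_le_mul_of_nonneg_right h5 (norm_nonneg _)
  linarith

private theorem B6_q4 {x d : ℝ} (hx : 0 ≤ x) (hd : 0 < d) : (x / (d / 4)) ^ (1 / 4 : ℝ) ≤ 2 * (x / d) ^ (1 / 4 : ℝ) := by
  have h1 : x / (d / 4) = 4 * (x / d) := by field_simp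
  rw [h1, Real.mul_rpow (by norm_num) (by positivity)]
  refine mul_le_mul_of_nonneg_right ?_ (by positivity)
  have h2 : (4 : ℝ) ^ (1 / 4 : ℝ) ≤ 4 ^ (1 / 2 : ℝ) := Real.rpow_le_rpow_of_exponent_le (by norm_num) (by norm_num)
  have h3 : (4 : ℝ) ^ (1 / 2 : ℝ) = 2 := by
    rw [← Real.sqrt_eq_rpow]
    have : (4 : ℝ) = 2 ^ 2 := by norm_num
    rw [this, Real.sqrt_sq two_pos.le]
  linarith

private theorem B6_open (C d : ℝ) (v : En n) (a b : ℝ) : IsOpen {y : En n | d / 4 < 1 - ‖y‖ ∧ 1 - ‖y‖ < C * a ∧ ‖y - v‖ < C * b ∧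
    ‖(inner ℂ v (y - v) : ℂ)‖ < C * a} := by
  refine IsOpen.and (isOpen_lt continuous_const (by fun_prop)) (IsOpen.and (isOpen_lt (by fun_prop) continuous_const)
    (IsOpen.and (isOpen_lt (by fun_prop) continuous_const) (isOpen_lt (by fun_prop) continuous_const)))

/-- Continuity.
PROOF. At `w₀`. `c0`, `s0` are continuous; the first function is continuous (`ph_fun`); all functions are bounded by `1`, so if `c0 w₀ = 0` done: `‖FB w w - FB w₀ w₀‖ ≤ 2 c0 w + ‖A w - A w₀‖`. If `c0 w₀ > 0`: for `w` near `w₀`, `c0 w > 0`, and `EV K 0 root S_w w w`, `EV K 0 root S₀ w₀ w` (`S₀ = t0 s0(w₀)^4`;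
`near`: `‖w - rad w₀‖ ≤ ‖w - w₀‖ + 1 - ‖w₀‖ ≤ rs K + (1 - ‖w‖)` as `2 ‖w - w₀‖ ≤ rs K`). `fz_me` with `m = p = K`, `d = (1 - ‖w₀‖)/2`, `ϱ = ‖rad w - rad w₀‖ → 0` (`rad` is continuous at `w₀ ≠ 0`): the right side tends to `0` (finite sum). And `w ↦ Fz K 0 root S₀ w₀ w` is continuous at `w₀` (`fz_hol` on a small ball). -/
theorem fb_cont (T : Tg n) (Cs : ℝ) {s : ℝ} (hs : 0 < s) : ∀ᶠ lam in 𝓝[>] (0 : ℝ), ∀ (sh : ℕ → ℝ) (Sy : Sys T Cs lam sh) (f : En n → En N) (K : ℕ),
    Dat T s f → ContinuousOn (fun w => FB T lam sh Sy.nx f K w w) (ball (0 : En n) 1) := by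
  obtain ⟨C, hC, hme⟩ := fz_me T Cs N
  filter_upwards [root_ev T, ph_fun (N := N) T hs, fz_bd (N := N) T Cs hs, fz_hol (N := N) T Cs hs, hme s hs,
    ev_lt (a := 1 / 2) (by norm_num)] with lam h1 h2 h3 h4 h5 h6 sh Sy f K hf w₀ hw₀
  obtain ⟨hlam, hlam1⟩ := h6
  have hw₁ : ‖w₀‖ < 1 := by rwa [mem_ball_zero_iff] at hw₀
  have ht0 : 0 < t0 lam := Real.rpow_pos_of_pos hlam _
  refine ContinuousAt.continuousWithinAt ?_
  obtain ⟨A, hA⟩ : ∃ A : En n → En N, A = fun w => f (Ph lam T.e ((1 - t0 lam) • w)) := ⟨_, rfl⟩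
  obtain ⟨B, hB⟩ : ∃ B : En n → En N, B = fun w => Fz lam sh Sy.nx f K 0 (root T.e) (t0 lam * s0 lam T.e w ^ 4) w w := ⟨_, rfl⟩
  have hFB : (fun w => FB T lam sh Sy.nx f K w w) = fun w => (1 - c0 lam T.e w) • A w + c0 lam T.e w • B w := by
    rw [hA, hB]
    rfl
  obtain ⟨hA1, hA2, -⟩ := h2 f hf
  have hA1' : DifferentiableOn ℂ A (ball 0 1) := by rw [hA]; exact hA1
  have hA2' : ∀ w ∈ ball (0 : En n) 1, ‖A w‖ ≤ 1 := by rw [hA]; exact hA2
  have hAc : ContinuousAt A w₀ := (hA1'.differentiableAt (isOpen_ball.mem_nhds hw₀)).continuousAt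
  have hc0 : ContinuousAt (fun w : En n => c0 lam T.e w) w₀ := (B6_c0_cont lam T.e).continuousAt
  have hfa := fun w => c0_facts hlam T.e w w
  have hEV : ∀ w : En n, ‖w‖ < 1 → ‖zt T.e w‖ ≤ 3 * lam ^ 2 → EV lam K 0 (root T.e) (t0 lam * s0 lam T.e w ^ 4) w w := by
    intro w hw hz
    obtain ⟨-, -, hs0, hs1, -⟩ := hfa w
    refine h1 K _ w hw (by positivity) ?_ hz
    have : s0 lam T.e w ^ 4 ≤ 1 := pow_le_one₀ hs0 hs1
    exact mul_le_of_le_one_right ht0.le this
  have hball : ∀ᶠ w in 𝓝 w₀, w ∈ ball (0 : En n) 1 := isOpen_ball.mem_nhds hw₀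
  rw [hFB]
  by_cases hc : c0 lam T.e w₀ = 0
  · have h7 : (fun w => (1 - c0 lam T.e w) • A w + c0 lam T.e w • B w) = fun w => A w + c0 lam T.e w • (B w - A w) := by
      funext w
      module
    have h8 : Tendsto (fun w => c0 lam T.e w • (B w - A w)) (𝓝 w₀) (𝓝 0) := by
      refine squeeze_zero_norm' (a := fun w => c0 lam T.e w * 2) ?_ ?_
      · filter_upwards [hball] with w hw
        obtain ⟨hc1, -, -, -, hc2, -⟩ := hfa w
        rcases hc1.eq_or_lt with h9 | h9
        · rw [← h9]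
          simp
        · have h10 : ‖B w‖ ≤ 1 := by
            rw [hB]
            refine h3 sh Sy f K 0 _ _ _ _ hf Sy.good0 (hEV w (by rwa [mem_ball_zero_iff] at hw) ?_)
            have := hc2 h9
            linarith [sq_nonneg lam]
          rw [norm_smul, Real.norm_of_nonneg hc1]
          refine mul_le_mul_of_nonneg_left ?_ hc1
          have h11 := norm_sub_le (B w) (A w)
          have h12 := hA2' w hw
          linarith
      · have h9 : Tendsto (fun w => c0 lam T.e w * 2) (𝓝 w₀) (𝓝 (c0 lam T.e w₀ * 2)) := hc0.tendsto.mul_const 2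
        rwa [hc, zero_mul] at h9
    have h9 : Tendsto (fun w => A w + c0 lam T.e w • (B w - A w)) (𝓝 w₀) (𝓝 (A w₀ + 0)) := hAc.tendsto.add h8
    rw [h7]
    have h12 : A w₀ + 0 = (fun w => A w + c0 lam T.e w • (B w - A w)) w₀ := by
      simp only
      rw [hc, zero_smul]
    rw [h12] at h9
    exact h9
  · have hc' : 0 < c0 lam T.e w₀ := lt_of_le_of_ne (hfa w₀).1 (Ne.symm hc)
    have hz₀ : ‖zt T.e w₀‖ < lam ^ 2 := (hfa w₀).2.2.2.2.1 hc'
    have hE₀ := hEV w₀ hw₁ (by linarith [sq_nonneg lam])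
    have hrs : 0 < rs lam K := rs_pos hlam K
    obtain ⟨S, hS⟩ : ∃ S : En n → ℝ, S = fun w => t0 lam * s0 lam T.e w ^ 4 := ⟨_, rfl⟩
    have hSc : ContinuousAt S w₀ := by
      rw [hS]
      exact ((B6_s0_cont lam T.e).pow 4).continuousAt.const_mul _
    have hSS : ∀ w, t0 lam * s0 lam T.e w ^ 4 = S w := fun w => by rw [hS]
    have hS0 : ∀ w, 0 ≤ S w := by
      intro w
      rw [← hSS]
      have := (hfa w).2.2.1
      positivity
    -- the neighbourhoods
    have n1 : ∀ᶠ w in 𝓝 w₀, ‖zt T.e w‖ < lam ^ 2 := (B6_zt_cont T.e).norm.continuousAt.eventually_lt continuousAt_const hz₀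
    have n2 : ∀ᶠ w in 𝓝 w₀, 2 * ‖w - w₀‖ < rs lam K := by
      refine (continuousAt_const.mul (continuousAt_id.sub continuousAt_const).norm).eventually_lt continuousAt_const ?_
      simpa using hrs
    have n3 : ∀ᶠ w in 𝓝 w₀, (1 - ‖w₀‖) / 2 < 1 - ‖w‖ := by
      refine continuousAt_const.eventually_lt (continuousAt_const.sub continuous_norm.continuousAt) ?_
      linarith
    have hgood : ∀ᶠ w in 𝓝 w₀, EV lam K 0 (root T.e) (S w₀) w₀ w ∧ EV lam K 0 (root T.e) (S w) w w := by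
      filter_upwards [hball, n1, n2] with w hw m1 m2
      have hw1 : ‖w‖ < 1 := by rwa [mem_ball_zero_iff] at hw
      constructor
      · refine B6_ev ?_ ?_ m2.le
        · rw [← hSS]
          exact hE₀
        · refine h1 K _ w hw1 (hS0 _) ?_ (by linarith [sq_nonneg lam])
          rw [← hSS]
          have h8 := (hfa w₀).2.2.1
          have h9 := (hfa w₀).2.2.2.1
          have : s0 lam T.e w₀ ^ 4 ≤ 1 := pow_le_one₀ h8 h9
          exact mul_le_of_le_one_right ht0.le this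
      · rw [← hSS]
        exact hEV w hw1 (by linarith [sq_nonneg lam])
    -- the frozen function is continuous
    have hfr : ContinuousAt (fun w => Fz lam sh Sy.nx f K 0 (root T.e) (S w₀) w₀ w) w₀ := by
      obtain ⟨U, hU1, hU2, hU3⟩ := _root_.eventually_nhds_iff.mp hgood
      have := h4 sh Sy f K 0 (root T.e) (S w₀) w₀ U hf Sy.good0 hU2 (fun u hu => (hU1 u hu).1)
      exact (this.differentiableAt (hU2.mem_nhds hU3)).continuousAt
    -- the radial projection
    have hv0 : w₀ ≠ 0 := hE₀.v0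
    have hrad : Tendsto (fun w => ‖rad w - rad w₀‖) (𝓝 w₀) (𝓝 0) := by
      have h9 : ContinuousAt (fun w : En n => ‖rad w - rad w₀‖) w₀ := ((B6_rad_cont hv0).sub continuousAt_const).norm
      have h10 := h9.tendsto
      simpa using h10
    obtain ⟨d, hd⟩ : ∃ d, d = (1 - ‖w₀‖) / 2 := ⟨_, rfl⟩
    have hd0 : 0 < d := by rw [hd]; linarith
    have hterm : ∀ l : ℕ, Tendsto (fun w => ‖rad w - rad w₀‖ / (es lam l * rs lam l) * (1 + (ts lam l / d) ^ (1 / 4 : ℝ))) (𝓝 w₀) (𝓝 0) := by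
      intro l
      have := (hrad.div_const (es lam l * rs lam l)).mul_const (1 + (ts lam l / d) ^ (1 / 4 : ℝ))
      simpa using this
    have hBt : Tendsto (fun w => B w - Fz lam sh Sy.nx f K 0 (root T.e) (S w₀) w₀ w) (𝓝 w₀) (𝓝 0) := by
      refine squeeze_zero_norm' (a := fun w => C * (|S w - S w₀| / (d + min (S w) (S w₀)) +
        ∑ l ∈ Finset.Ioc 0 (0 + K), ‖rad w - rad w₀‖ / (es lam l * rs lam l) * (1 + (ts lam l / d) ^ (1 / 4 : ℝ)) + 0)) ?_ ?_
      · have n4 : ∀ᶠ w in 𝓝 w₀, ∀ l ∈ Finset.Ioc 0 (0 + K),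
            4 * (‖rad w - rad w₀‖ / (es lam l * rs lam l) * (1 + (ts lam l / d) ^ (1 / 4 : ℝ))) ≤ 1 := by
          rw [Filter.eventually_all_finset]
          intro l _
          have := (hterm l).const_mul 4
          rw [mul_zero] at this
          exact this.eventually_le_const one_pos
        filter_upwards [hgood, n3, n4] with w g1 g3 g4
        have h9 := h5 sh Sy f K K 0 (root T.e) (S w) (S w₀) d ‖rad w - rad w₀‖ w₀ w hf Sy.good0 le_rfl hd0 (by rw [hd]; exact g3.le) g1.2 g1.1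
          le_rfl g4 (fun h => absurd h (lt_irrefl _))
        rw [if_neg (lt_irrefl K)] at h9
        have h10 : B w = Fz lam sh Sy.nx f K 0 (root T.e) (S w) w w := by
          rw [hB, ← hSS]
        rw [h10]
        exact h9
      · have t1 : Tendsto (fun w => |S w - S w₀| / (d + min (S w) (S w₀))) (𝓝 w₀) (𝓝 0) := by
          have u1 : ContinuousAt (fun w => |S w - S w₀| / (d + min (S w) (S w₀))) w₀ := by
            refine ContinuousAt.div ?_ ?_ ?_
            · exact (hSc.sub continuousAt_const).abs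
            · exact continuousAt_const.add (hSc.min continuousAt_const)
            · have := hS0 w₀
              rw [min_self]
              positivity
          have u2 := u1.tendsto
          simpa using u2
        have t2 := tendsto_finsetSum (Finset.Ioc 0 (0 + K)) (fun l _ => hterm l)
        have t3 := ((t1.add t2).add_const 0).const_mul C
        simpa using t3
    have hBc : ContinuousAt B w₀ := by
      have h9 := hBt.add hfr.tendsto
      have h10 : (fun w => B w - Fz lam sh Sy.nx f K 0 (root T.e) (S w₀) w₀ w + Fz lam sh Sy.nx f K 0 (root T.e) (S w₀) w₀ w) = B := by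
        funext w
        abel
      have h11 : 0 + Fz lam sh Sy.nx f K 0 (root T.e) (S w₀) w₀ w₀ = B w₀ := by
        rw [zero_add, hB, ← hSS]
      rw [h10, h11] at h9
      exact h9
    exact ((continuousAt_const.sub hc0).smul hAc).add (hc0.smul hBc)

/-- Almost holomorphy.
PROOF. `R` = the region. Let `C₂` be a large constant depending on `C₁`, `T`, `N`. For `y ∈ R`: `Δ = ‖ζ(y) - ζ(v)‖ ≤ C₁ d^.996 + ‖v - e‖ C₁ d^.498` (`zt_var`).
CASE 1: `c0 v = 0`. `G y = A y := f (Ph ((1 - t0) • y))`, `FB y y - G y = c0 y (B - A)`: `≤ 2 c0 y`. If `c0 y > 0`: `‖y - e‖² ≤ 2 lam²`, so `‖v - e‖ ≤ 3 lam` (`d^.498 ≤ lam`), and `c0 y = c0 y - c0 v ≤ 4 Δ / lam² ≤ d ^ (1/100)` by `vis0`.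
CASE 2: `c0 v > 0`, `‖v - e‖ ≤ 2 lam`, `v ≠ 0`. `vis` (constant `C₂`) gives `κ ≤ K`. `S' = t0 s0(v)^4`. `G y = (1 - c0 v) • A y + c0 v • Fz κ 0 root S' v y`. `EV κ 0 root S' v y` for `y ∈ R`: `up`: `(1 - ‖y‖) + S' + 2 ts 1 ≤ C₁ d^.996 + ..`; `cen`: `‖rad v - e‖ ≤ 3 lam`;
`near`: `‖y - rad v‖ ≤ ‖y - v‖ + (1 - ‖v‖) ≤ C₁ d^.498 + 3 d^.998 ≤ rs κ`. Holomorphic: `fz_hol`, `ph_fun`; bounded by `1`: `fz_bd`. `|c0 y - c0 v| ≤ 4 Δ / lam² ≤ d ^ (1/100) / C`. If `c0 y = 0`: `‖FB y y - G y‖ ≤ 2 c0 v`, small. If `c0 y > 0`: `root_ev` for `y`, `S = t0 s0(y)^4`, and `fz_me` with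
`m = K`, `p = κ`, `k = 0`, the height `d/4`, `ϱ = 4 C₁ d^.498` (`‖rad y - rad v‖ ≤ 4 ‖y - v‖`): the conditions and the sum by `vis` (`(ts/(d/4))^(1/4) ≤ 2 (ts/d)^(1/4)`), the last term by `vis` (`κ < K`), the first term: `quartic` with `t = t0`, `S = S' = 0`:
`|S - S'| / (d/4 + min S S') ≤ 32 |s0 y - s0 v| (4 t0/d)^(1/4)`, by `vis0`. All together `≤ C d ^ (1/100) / C₂ ≤ d ^ (1/500)` (`pow_small`). -/
theorem fb_nh (T : Tg n) (Cs : ℝ) (C₁ : ℝ) {s : ℝ} (hs : 0 < s) : ∀ᶠ lam in 𝓝[>] (0 : ℝ), ∀ (sh : ℕ → ℝ) (Sy : Sys T Cs lam sh) (f : En n → En N) (K : ℕ),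
    Dat T s f → ∀ (d : ℝ) (v : En n), 0 < d → d ≤ lam ^ (11 / 5 : ℝ) → 7 / 16 * d ≤ 1 - ‖v‖ → 1 - ‖v‖ ≤ 3 * d ^ (499 / 500 : ℝ) →
    ∃ G : En n → En N, DifferentiableOn ℂ G {y | d / 4 < 1 - ‖y‖ ∧ 1 - ‖y‖ < C₁ * d ^ (249 / 250 : ℝ) ∧ ‖y - v‖ < C₁ * d ^ (249 / 500 : ℝ) ∧
        ‖(inner ℂ v (y - v) : ℂ)‖ < C₁ * d ^ (249 / 250 : ℝ)} ∧
      ∀ y, d / 4 < 1 - ‖y‖ → 1 - ‖y‖ < C₁ * d ^ (249 / 250 : ℝ) → ‖y - v‖ < C₁ * d ^ (249 / 500 : ℝ) →
        ‖(inner ℂ v (y - v) : ℂ)‖ < C₁ * d ^ (249 / 250 : ℝ) → ‖G y‖ ≤ 1 ∧ ‖FB T lam sh Sy.nx f K y y - G y‖ ≤ d ^ (1 / 500 : ℝ) := by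
  obtain ⟨C, hC, hme⟩ := fz_me T Cs N
  obtain ⟨D, hD1, hD⟩ : ∃ D : ℝ, 1 ≤ D ∧ C₁ ≤ D := ⟨max 1 C₁, le_max_left _ _, le_max_right _ _⟩
  obtain ⟨M, hM⟩ : ∃ M : ℝ, M = 10000 * (C * D) := ⟨_, rfl⟩
  have hCD : 1 ≤ C * D := one_le_mul_of_one_le_of_one_le hC hD1
  have hCD1 : C ≤ C * D := le_mul_of_one_le_right (by linarith) hD1
  have hCD2 : D ≤ C * D := le_mul_of_one_le_left (by linarith) hC
  filter_upwards [root_ev T, ph_fun (N := N) T hs, fz_bd (N := N) T Cs hs, fz_hol (N := N) T Cs hs, hme s hs, vis M, vis0 M, ineqs 1,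
    ev_lt (a := 1 / 100) (by norm_num)] with lam h1 h2 h3 h4 h5 h6 h7 h8 h9 sh Sy f K hf d v hd hd1 hv1 hv2
  obtain ⟨hlam, hlam1⟩ := h9
  have ht0 : 0 < t0 lam := Real.rpow_pos_of_pos hlam _
  have ht0l : t0 lam ≤ lam := by
    unfold t0
    calc lam ^ (12 / 5 : ℝ) ≤ lam ^ (1 : ℝ) := Real.rpow_le_rpow_of_exponent_ge hlam (by linarith) (by norm_num)
      _ = lam := Real.rpow_one _
  have hts : ts lam 1 ≤ lam := by
    have := (h8.2.2 0).2.2.2.2.2.2.2.2.1
    simpa using this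
  have hd2 : d ≤ 1 := hd1.trans (Real.rpow_le_one hlam.le (by linarith) (by norm_num))
  have h7' := h7 d hd hd1
  obtain ⟨h6a, κ, hκK, hκ1, hκ2, hκ3, hκ4⟩ := h6 K d hd hd1
  have hv3 : d ^ (499 / 500 : ℝ) ≤ d ^ (249 / 250 : ℝ) := Real.rpow_le_rpow_of_exponent_ge hd hd2 (by norm_num)
  have ha0 : 0 < d ^ (249 / 250 : ℝ) := Real.rpow_pos_of_pos hd _
  have hb0 : 0 < d ^ (249 / 500 : ℝ) := Real.rpow_pos_of_pos hd _
  have hab : d ^ (249 / 250 : ℝ) ≤ d ^ (249 / 500 : ℝ) := Real.rpow_le_rpow_of_exponent_ge hd hd2 (by norm_num)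
  have hE1 : d ^ (1 / 100 : ℝ) ≤ 1 := Real.rpow_le_one hd.le hd2 (by norm_num)
  have hE0 : 0 < d ^ (1 / 100 : ℝ) := Real.rpow_pos_of_pos hd _
  have hE2 : d ^ (1 / 100 : ℝ) ≤ d ^ (1 / 500 : ℝ) := Real.rpow_le_rpow_of_exponent_ge hd hd2 (by norm_num)
  generalize d ^ (249 / 250 : ℝ) = a at *
  generalize d ^ (249 / 500 : ℝ) = b at *
  generalize d ^ (1 / 100 : ℝ) = E at *
  generalize d ^ (1 / 500 : ℝ) = E' at *
  generalize d ^ (499 / 500 : ℝ) = a' at *
  have hq0 : 0 ≤ (t0 lam / d) ^ (1 / 4 : ℝ) := by positivity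
  obtain ⟨q, hq⟩ : ∃ q, q = (t0 lam / d) ^ (1 / 4 : ℝ) := ⟨_, rfl⟩
  rw [← hq] at h7' hq0
  obtain ⟨X, hX⟩ : ∃ X, X = (a + lam * b) / lam ^ 2 := ⟨_, rfl⟩
  rw [← hX] at h7'
  have hX0 : 0 ≤ X := by rw [hX]; positivity
  have hlX : a + lam * b = lam ^ 2 * X := by rw [hX]; field_simp
  -- `X` is small
  have hXE : 10000 * (C * D * (X * (1 + q))) ≤ E := by
    rw [hM] at h7'
    linarith [h7']
  have hX1 : X ≤ X * (1 + q) := le_mul_of_one_le_right hX0 (by linarith)
  have hDX : 10000 * (D * (X * (1 + q))) ≤ E := by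
    have : D * (X * (1 + q)) ≤ C * D * (X * (1 + q)) := mul_le_mul_of_nonneg_right hCD2 (by positivity)
    linarith
  have hDX' : 10000 * (D * X) ≤ E := by
    have : D * X ≤ D * (X * (1 + q)) := mul_le_mul_of_nonneg_left hX1 (by linarith)
    linarith
  have hDa : D * a ≤ lam ^ 2 / 10000 := by
    have u1 : a ≤ lam ^ 2 * X := by
      rw [← hlX]
      have : 0 < lam * b := by positivity
      linarith
    have u2 : D * a ≤ D * (lam ^ 2 * X) := mul_le_mul_of_nonneg_left u1 (by linarith)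
    have u3 : D * (lam ^ 2 * X) = lam ^ 2 * (D * X) := by ring
    have u4 : lam ^ 2 * (D * X) ≤ lam ^ 2 * (1 / 10000) := mul_le_mul_of_nonneg_left (by linarith) (by positivity)
    linarith
  have hDb : D * b ≤ lam / 10000 := by
    have u1 : lam * b ≤ lam ^ 2 * X := by
      rw [← hlX]
      linarith
    have u2 : D * (lam * b) ≤ D * (lam ^ 2 * X) := mul_le_mul_of_nonneg_left u1 (by linarith)
    have u3 : D * (lam ^ 2 * X) = lam ^ 2 * (D * X) := by ring
    have u4 : lam ^ 2 * (D * X) ≤ lam ^ 2 * (1 / 10000) := mul_le_mul_of_nonneg_left (by linarith) (by positivity)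
    have u5 : lam * (D * b) ≤ lam * (lam / 10000) := by
      have : lam * (lam / 10000) = lam ^ 2 * (1 / 10000) := by ring
      rw [this]
      linarith
    exact le_of_mul_le_mul_left u5 hlam
  have haD : a ≤ D * a := le_mul_of_one_le_left ha0.le hD1
  have hbD : b ≤ D * b := le_mul_of_one_le_left hb0.le hD1
  have hCa : C₁ * a ≤ D * a := mul_le_mul_of_nonneg_right hD ha0.le
  have hCb : C₁ * b ≤ D * b := mul_le_mul_of_nonneg_right hD hb0.le
  have hll : lam ^ 2 ≤ lam / 100 := by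
    have := mul_le_mul_of_nonneg_left hlam1.le hlam.le
    linarith
  have hvl : ‖v‖ < 1 := by linarith
  have hv12 : 1 / 2 ≤ ‖v‖ := by linarith
  have hv0 : v ≠ 0 := by
    intro h
    rw [h, norm_zero] at hv12
    linarith
  -- the first functions
  obtain ⟨A, hA⟩ : ∃ A : En n → En N, A = fun w => f (Ph lam T.e ((1 - t0 lam) • w)) := ⟨_, rfl⟩
  obtain ⟨hA1, hA2, -⟩ := h2 f hf
  rw [← hA] at hA1
  have hA2' : ∀ w ∈ ball (0 : En n) 1, ‖A w‖ ≤ 1 := by rw [hA]; exact hA2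
  have hfa := fun w => c0_facts hlam T.e w v
  have hvv := c0_facts hlam T.e v v
  have hRb : {y : En n | d / 4 < 1 - ‖y‖ ∧ 1 - ‖y‖ < C₁ * a ∧ ‖y - v‖ < C₁ * b ∧ ‖(inner ℂ v (y - v) : ℂ)‖ < C₁ * a} ⊆ ball (0 : En n) 1 := by
    intro y hy
    rw [mem_ball_zero_iff]
    linarith [hy.1]
  have hFB : ∀ y, FB T lam sh Sy.nx f K y y = (1 - c0 lam T.e y) • A y +
      c0 lam T.e y • Fz lam sh Sy.nx f K 0 (root T.e) (t0 lam * s0 lam T.e y ^ 4) y y := by
    intro y
    rw [hA]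
    rfl
  -- the bounds of the second function
  have hEV : ∀ w : En n, ‖w‖ < 1 → ‖zt T.e w‖ ≤ 3 * lam ^ 2 → EV lam K 0 (root T.e) (t0 lam * s0 lam T.e w ^ 4) w w := by
    intro w hw hz
    obtain ⟨-, -, hs0, hs1, -⟩ := hfa w
    refine h1 K _ w hw (by positivity) ?_ hz
    have : s0 lam T.e w ^ 4 ≤ 1 := pow_le_one₀ hs0 hs1
    exact mul_le_of_le_one_right ht0.le this
  have hlam2 : 0 < lam ^ 2 := by positivity
  have hB1 : ∀ w : En n, ‖w‖ < 1 → 0 < c0 lam T.e w →
      ‖Fz lam sh Sy.nx f K 0 (root T.e) (t0 lam * s0 lam T.e w ^ 4) w w‖ ≤ 1 := by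
    intro w hw hc
    refine h3 sh Sy f K 0 _ _ _ _ hf Sy.good0 (hEV w hw ?_)
    have := (hfa w).2.2.2.2.1 hc
    linarith
  -- the variation of the first coordinate
  have hΔ : ∀ y : En n, ‖v - T.e‖ ≤ 2 * lam → ‖y - v‖ < C₁ * b → ‖(inner ℂ v (y - v) : ℂ)‖ < C₁ * a →
      4 * ‖zt T.e y - zt T.e v‖ / lam ^ 2 ≤ 8 * (D * X) := by
    intro y hve hy3 hy4
    have u1 := zt_var T.e v y
    have u2 : ‖v - T.e‖ * ‖y - v‖ ≤ 2 * lam * (D * b) := mul_le_mul hve (by linarith) (norm_nonneg _) (by positivity)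
    have u3 : ‖zt T.e y - zt T.e v‖ ≤ 2 * (lam ^ 2 * (D * X)) := by
      have u4 : lam ^ 2 * (D * X) = D * a + lam * (D * b) := by
        have : lam ^ 2 * (D * X) = D * (lam ^ 2 * X) := by ring
        rw [this, ← hlX]
        ring
      rw [u4]
      have : 0 < D * a := by positivity
      linarith
    rw [div_le_iff₀ hlam2]
    linarith
  have hne := fun (y : En n) (hy : ‖y‖ < 1) (h : 0 < c0 lam T.e y) => B6_near T.he hlam hy ((hfa y).2.2.2.2.1 h)
  rcases hvv.1.eq_or_lt with hc | hc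
  · -- the case `c0 v = 0`
    refine ⟨A, hA1.mono hRb, fun y hy1 hy2 hy3 hy4 => ?_⟩
    have hyl : ‖y‖ < 1 := by linarith
    have hyb : y ∈ ball (0 : En n) 1 := by rwa [mem_ball_zero_iff]
    refine ⟨hA2' y hyb, ?_⟩
    have u1 : FB T lam sh Sy.nx f K y y - A y =
        c0 lam T.e y • (Fz lam sh Sy.nx f K 0 (root T.e) (t0 lam * s0 lam T.e y ^ 4) y y - A y) := by
      rw [hFB]
      module
    rw [u1]
    rcases (hfa y).1.eq_or_lt with h10 | h10
    · rw [← h10, zero_smul, norm_zero]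
      linarith
    · have u2 := hne y hyl h10
      have u3 : ‖v - T.e‖ ≤ 2 * lam := by
        have u4 : v - T.e = (y - T.e) - (y - v) := by abel
        rw [u4]
        refine (norm_sub_le _ _).trans ?_
        linarith
      have u5 := (hΔ y u3 hy3 hy4)
      have u6 := (hfa y).2.2.2.2.2.2.2.1
      rw [← hc, sub_zero, abs_of_pos h10] at u6
      rw [norm_smul, Real.norm_of_nonneg h10.le]
      have u7 : ‖Fz lam sh Sy.nx f K 0 (root T.e) (t0 lam * s0 lam T.e y ^ 4) y y - A y‖ ≤ 2 := by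
        refine (norm_sub_le _ _).trans ?_
        have := hB1 y hyl h10
        have := hA2' y hyb
        linarith
      have u8 := mul_le_mul_of_nonneg_left u7 h10.le
      linarith
  · -- the case `c0 v > 0`
    have hzv := hvv.2.2.2.2.1 hc
    have hve := hne v hvl hc
    obtain ⟨S', hS'⟩ : ∃ S', S' = t0 lam * s0 lam T.e v ^ 4 := ⟨_, rfl⟩
    have hS'0 : 0 ≤ S' := by rw [hS']; have := hvv.2.2.1; positivity
    have hS'1 : S' ≤ t0 lam := by
      rw [hS']
      have : s0 lam T.e v ^ 4 ≤ 1 := pow_le_one₀ hvv.2.2.1 hvv.2.2.2.1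
      exact mul_le_of_le_one_right ht0.le this
    have hes : es lam κ ≤ 1 := by
      have := (h8.2.2 κ).2.2.2.2.2.2.2.1
      linarith
    have hrsκ : 0 < rs lam κ := rs_pos hlam κ
    have hbr : 10000 * (D * b) ≤ rs lam κ := by
      have u1 : 10000 * (D * b) ≤ M * b := by
        rw [hM]
        have : D * b ≤ C * D * b := mul_le_mul_of_nonneg_right hCD2 hb0.le
        linarith
      have u2 : es lam κ * rs lam κ ≤ 1 * rs lam κ := mul_le_mul_of_nonneg_right hes hrsκ.le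
      linarith
    have hradv := B6_radn hv0 hvl
    -- the points of evaluation
    have hEVv : ∀ y : En n, d / 4 < 1 - ‖y‖ → 1 - ‖y‖ < C₁ * a → ‖y - v‖ < C₁ * b → EV lam κ 0 (root T.e) S' v y := by
      intro y hy1 hy2 hy3
      refine ⟨by linarith, by linarith, hS'0, ?_, ?_, ?_, hv0⟩
      · have u1 : S' * ‖y‖ ≤ S' * 1 := mul_le_mul_of_nonneg_left (by linarith) hS'0
        rw [Nat.zero_add]
        have u2 : 1 - (1 - S') * ‖y‖ = (1 - ‖y‖) + S' * ‖y‖ := by ring
        rw [u2]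
        linarith
      · have u1 : rad v - (root T.e).q = (v - T.e) - (v - rad v) := by
          unfold root
          abel
        have u2 : 4 ≤ kn n := by
          unfold kn
          have : (0 : ℝ) ≤ n := Nat.cast_nonneg n
          linarith
        rw [u1, rs_zero]
        refine (norm_sub_le _ _).trans ?_
        rw [hradv]
        have u3 : 5 * lam ≤ (kn n + 1) * lam := mul_le_mul_of_nonneg_right (by linarith) hlam.le
        linarith
      · have u1 : y - rad v = (y - v) + (v - rad v) := by abel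
        rw [u1, Nat.zero_add]
        refine (norm_add_le _ _).trans ?_
        rw [hradv]
        linarith
    refine ⟨fun y => (1 - c0 lam T.e v) • A y + c0 lam T.e v • Fz lam sh Sy.nx f κ 0 (root T.e) S' v y, ?_, fun y hy1 hy2 hy3 hy4 => ?_⟩
    · have u1 := h4 sh Sy f κ 0 (root T.e) S' v _ hf Sy.good0 (B6_open C₁ d v a b) (fun u hu => hEVv u hu.1 hu.2.1 hu.2.2.1)
      exact ((hA1.mono hRb).const_smul (1 - c0 lam T.e v)).add (u1.const_smul (c0 lam T.e v))
    · have hyl : ‖y‖ < 1 := by linarith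
      have hyb : y ∈ ball (0 : En n) 1 := by rwa [mem_ball_zero_iff]
      have hAy := hA2' y hyb
      have hEy := hEVv y hy1 hy2 hy3
      have hB' : ‖Fz lam sh Sy.nx f κ 0 (root T.e) S' v y‖ ≤ 1 := h3 sh Sy f κ 0 _ _ _ _ hf Sy.good0 hEy
      have hΔy := hΔ y (by linarith) hy3 hy4
      have hcc := (hfa y).2.2.2.2.2.2.2.1
      constructor
      · refine (norm_add_le _ _).trans ?_
        rw [norm_smul, norm_smul, Real.norm_of_nonneg hc.le, Real.norm_of_nonneg (by linarith [hvv.2.1])]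
        have u1 : (1 - c0 lam T.e v) * ‖A y‖ ≤ (1 - c0 lam T.e v) * 1 := mul_le_mul_of_nonneg_left hAy (by linarith [hvv.2.1])
        have u2 := mul_le_mul_of_nonneg_left hB' hc.le
        linarith
      · rw [hFB]
        beta_reduce
        generalize hB'' : Fz lam sh Sy.nx f κ 0 (root T.e) S' v y = B' at *
        rcases (hfa y).1.eq_or_lt with h10 | h10
        · -- `c0 y = 0`
          rw [← h10] at hcc ⊢
          have u1 : ((1 - (0 : ℝ)) • A y + (0 : ℝ) • Fz lam sh Sy.nx f K 0 (root T.e) (t0 lam * s0 lam T.e y ^ 4) y y) -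
              ((1 - c0 lam T.e v) • A y + c0 lam T.e v • B') = c0 lam T.e v • (A y - B') := by
            module
          rw [u1, norm_smul, Real.norm_of_nonneg hc.le]
          rw [zero_sub, abs_neg, abs_of_pos hc] at hcc
          have u2 : ‖A y - B'‖ ≤ 2 := (norm_sub_le _ _).trans (by linarith)
          have u3 := mul_le_mul_of_nonneg_left u2 hc.le
          linarith
        · -- `c0 y > 0`
          have hzy := (hfa y).2.2.2.2.1 h10
          obtain ⟨S, hS⟩ : ∃ S, S = t0 lam * s0 lam T.e y ^ 4 := ⟨_, rfl⟩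
          have hEyy := hEV y hyl (by linarith)
          rw [← hS] at hEyy ⊢
          have hry : ‖rad y - rad v‖ ≤ 4 * (D * b) := (B6_rad_lip hEy.ge hv12).trans (by linarith)
          have hts0 : ∀ l, 0 < ts lam l := fun l => ts_pos hlam l
          have hers : ∀ l, 0 < es lam l * rs lam l := fun l => mul_pos (es_pos hlam l) (rs_pos hlam l)
          -- the terms of the sum
          have hterm : ∀ l, 4 * (D * b) / (es lam l * rs lam l) * (1 + (ts lam l / (d / 4)) ^ (1 / 4 : ℝ)) ≤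
              8 * D * (b / (es lam l * rs lam l) * (1 + (ts lam l / d) ^ (1 / 4 : ℝ))) := by
            intro l
            have w1 := B6_q4 (hts0 l).le hd
            have w2 : 0 ≤ (ts lam l / d) ^ (1 / 4 : ℝ) := by have := hts0 l; positivity
            have w3 : 4 * (D * b) / (es lam l * rs lam l) = 4 * D * (b / (es lam l * rs lam l)) := by ring
            have w4 : 0 ≤ b / (es lam l * rs lam l) := by have := hers l; positivity
            have w5 : 1 + (ts lam l / (d / 4)) ^ (1 / 4 : ℝ) ≤ 2 * (1 + (ts lam l / d) ^ (1 / 4 : ℝ)) := by linarith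
            rw [w3]
            have w6 := mul_le_mul_of_nonneg_left w5 (show 0 ≤ 4 * D * (b / (es lam l * rs lam l)) by positivity)
            linarith
          have hterm0 : ∀ l, 0 ≤ b / (es lam l * rs lam l) * (1 + (ts lam l / d) ^ (1 / 4 : ℝ)) := by
            intro l
            have := hts0 l
            have := hers l
            positivity
          obtain ⟨Sg, hSg⟩ : ∃ Sg, Sg = ∑ l ∈ Finset.Ioc 0 κ, b / (es lam l * rs lam l) * (1 + (ts lam l / d) ^ (1 / 4 : ℝ)) := ⟨_, rfl⟩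
          rw [← hSg] at hκ2
          have hSg0 : 0 ≤ Sg := by rw [hSg]; exact Finset.sum_nonneg fun l _ => hterm0 l
          have hSg1 : 10000 * (C * D * Sg) ≤ E := by rw [hM] at hκ2; linarith
          have hSg2 : 10000 * (D * Sg) ≤ E := by
            have : D * Sg ≤ C * D * Sg := mul_le_mul_of_nonneg_right hCD2 hSg0
            linarith
          have hcond : ∀ l ∈ Finset.Ioc 0 (0 + κ),
              4 * (4 * (D * b) / (es lam l * rs lam l) * (1 + (ts lam l / (d / 4)) ^ (1 / 4 : ℝ))) ≤ 1 := by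
            intro l hl
            rw [Nat.zero_add] at hl
            have w1 : b / (es lam l * rs lam l) * (1 + (ts lam l / d) ^ (1 / 4 : ℝ)) ≤ Sg := by
              rw [hSg]
              exact Finset.single_le_sum (f := fun l => b / (es lam l * rs lam l) * (1 + (ts lam l / d) ^ (1 / 4 : ℝ)))
                (fun i _ => hterm0 i) hl
            have w2 := mul_le_mul_of_nonneg_left w1 (show 0 ≤ 8 * D by linarith)
            have w3 := hterm l
            linarith
          have hfin : κ < K → ts lam (0 + κ + 1) ≤ d / 4 := by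
            intro hlt
            rw [Nat.zero_add]
            have w1 := (hκ4 hlt).2.2.1
            have w2 := hts0 (κ + 1)
            rw [hM] at w1
            have w3 : 10000 * (1 * ts lam (κ + 1)) ≤ 10000 * (C * D * ts lam (κ + 1)) := by
              have := mul_le_mul_of_nonneg_right hCD w2.le
              linarith
            linarith
          have hmain := h5 sh Sy f K κ 0 (root T.e) S S' (d / 4) (4 * (D * b)) v y hf Sy.good0 hκK (by linarith) hy1.le hEyy hEy hry hcond hfin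
          rw [hB''] at hmain
          -- the first term
          have hss := (hfa y).2.2.2.2.2.2.2.2
          have hab4 : |s0 lam T.e y - s0 lam T.e v| * (t0 lam / (d / 4)) ^ (1 / 4 : ℝ) ≤ 16 * (D * (X * (1 + q))) := by
            have w1 := B6_q4 ht0.le hd
            rw [← hq] at w1
            have w2 : |s0 lam T.e y - s0 lam T.e v| ≤ 8 * (D * X) := hss.trans hΔy
            have w3 : |s0 lam T.e y - s0 lam T.e v| * (t0 lam / (d / 4)) ^ (1 / 4 : ℝ) ≤ 8 * (D * X) * (2 * q) :=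
              mul_le_mul w2 w1 (by positivity) (by positivity)
            have w4 : 0 ≤ D * X := by positivity
            linarith
          have hfirst : |S - S'| / (d / 4 + min S S') ≤ 32 * (16 * (D * (X * (1 + q)))) := by
            have w1 := quartic (d := d / 4) (t := t0 lam) (S := 0) (S' := 0) (by linarith) ht0 le_rfl le_rfl (hfa y).2.2.1 hvv.2.2.1
              (hfa y).2.2.2.1 hvv.2.2.2.1 (hab4.trans (by linarith))
            simp only [zero_add, sub_zero, abs_zero, zero_div, min_self, add_zero] at w1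
            rw [← hS, ← hS'] at w1
            linarith
          have hsum : ∑ l ∈ Finset.Ioc 0 (0 + κ), 4 * (D * b) / (es lam l * rs lam l) * (1 + (ts lam l / (d / 4)) ^ (1 / 4 : ℝ)) ≤ 8 * D * Sg := by
            rw [Nat.zero_add, hSg, Finset.mul_sum]
            exact Finset.sum_le_sum fun l _ => hterm l
          have hlast : C * (if κ < K then ts lam (0 + κ + 1) / (d / 4) + rs lam (0 + κ) ^ (3 / 10 : ℝ) else 0) ≤ E / 1000 := by
            split_ifs with hlt
            · rw [Nat.zero_add]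
              have w1 := (hκ4 hlt).2.1
              rw [hM] at w1
              have w2 : 0 ≤ ts lam (κ + 1) / d := by have := hts0 (κ + 1); positivity
              have w3 : 0 ≤ rs lam κ ^ (3 / 10 : ℝ) := by positivity
              have w4 : ts lam (κ + 1) / (d / 4) = 4 * (ts lam (κ + 1) / d) := by field_simp
              rw [w4]
              have w5 : C * (ts lam (κ + 1) / d + rs lam κ ^ (3 / 10 : ℝ)) ≤ C * D * (ts lam (κ + 1) / d + rs lam κ ^ (3 / 10 : ℝ)) :=
                mul_le_mul_of_nonneg_right hCD1 (by positivity)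
              have w6 : C * (4 * (ts lam (κ + 1) / d) + rs lam κ ^ (3 / 10 : ℝ)) ≤ 4 * (C * (ts lam (κ + 1) / d + rs lam κ ^ (3 / 10 : ℝ))) := by
                have : 0 ≤ C * rs lam κ ^ (3 / 10 : ℝ) := by positivity
                linarith
              linarith
            · rw [mul_zero]
              positivity
          have hBB : ‖Fz lam sh Sy.nx f K 0 (root T.e) S y y - B'‖ ≤ E / 4 := by
            refine hmain.trans ?_
            have w1 : C * (|S - S'| / (d / 4 + min S S')) ≤ C * (32 * (16 * (D * (X * (1 + q))))) := mul_le_mul_of_nonneg_left hfirst (by linarith)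
            have w2 := mul_le_mul_of_nonneg_left hsum (show 0 ≤ C by linarith)
            have w3 : C * (32 * (16 * (D * (X * (1 + q))))) = 512 * (C * D * (X * (1 + q))) := by ring
            have w4 : C * (8 * D * Sg) = 8 * (C * D * Sg) := by ring
            rw [mul_add, mul_add]
            linarith
          have hdec : ((1 - c0 lam T.e y) • A y + c0 lam T.e y • Fz lam sh Sy.nx f K 0 (root T.e) S y y) -
              ((1 - c0 lam T.e v) • A y + c0 lam T.e v • B') =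
              (c0 lam T.e y - c0 lam T.e v) • (B' - A y) + c0 lam T.e y • (Fz lam sh Sy.nx f K 0 (root T.e) S y y - B') := by
            module
          rw [hdec]
          refine (norm_add_le _ _).trans ?_
          rw [norm_smul, norm_smul, Real.norm_of_nonneg h10.le, Real.norm_eq_abs]
          have w1 : ‖B' - A y‖ ≤ 2 := (norm_sub_le _ _).trans (by linarith)
          have w2 : |c0 lam T.e y - c0 lam T.e v| * ‖B' - A y‖ ≤ 8 * (D * X) * 2 :=
            mul_le_mul (hcc.trans hΔy) w1 (norm_nonneg _) (by positivity)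
          have w3 : c0 lam T.e y * ‖Fz lam sh Sy.nx f K 0 (root T.e) S y y - B'‖ ≤ 1 * (E / 4) :=
            mul_le_mul (hfa y).2.1 hBB (norm_nonneg _) one_pos.le
          linarith

end Pool.Agent.MPca0fc2.EQ
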