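import Pool.Agent.Lib.MP_ca0fc2_an.EQ.A3

/-! Campaign EQ, task G1: the Schwarz lemma on complex lines, nonisotropic Lipschitz estimate. -/

set_option autoImplicit false

open Metric Set Filter Topology

namespace Pool.Agent.MPca0fc2.EQ

open Pool.Agent.MPca0fc2.TB (En)

variable {n N : ℕ}

/-- Taylor's formula of the order one for `ρ`. PROOF. `T.d1` and the mean value inequality on the segment. -/
theorem taylor_one (T : Tg n) (x w : En n) : |T.ρ (x + w) - T.ρ x - fderiv ℝ T.ρ x w| ≤ T.C * ‖w‖ ^ 2 := by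
  have hd : Differentiable ℝ T.ρ := T.sm.differentiable (by norm_num)
  have h1 : ∀ y ∈ closedBall x ‖w‖, HasFDerivWithinAt T.ρ (fderiv ℝ T.ρ y) (closedBall x ‖w‖) y :=
    fun y _ => (hd y).hasFDerivAt.hasFDerivWithinAt
  have h2 : ∀ y ∈ closedBall x ‖w‖, ‖fderiv ℝ T.ρ y - fderiv ℝ T.ρ x‖ ≤ T.C * ‖w‖ := by
    intro y hy
    have h3 := T.d1 y x
    have h4 : ‖y - x‖ ≤ ‖w‖ := by
      rw [mem_closedBall, dist_eq_norm] at hy
      exact hy
    have h5 := T.one_le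
    exact h3.trans (mul_le_mul_of_nonneg_left h4 (by linarith))
  have h6 : x ∈ closedBall x ‖w‖ := mem_closedBall_self (norm_nonneg _)
  have h7 : x + w ∈ closedBall x ‖w‖ := by
    rw [mem_closedBall, dist_eq_norm]
    simp
  have h8 := Convex.norm_image_sub_le_of_norm_hasFDerivWithin_le' h1 h2 (convex_closedBall x ‖w‖) h6 h7
  rw [add_sub_cancel_left, Real.norm_eq_abs] at h8
  calc |T.ρ (x + w) - T.ρ x - fderiv ℝ T.ρ x w| ≤ T.C * ‖w‖ * ‖w‖ := h8
    _ = T.C * ‖w‖ ^ 2 := by ring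

/-- The nonisotropic Lipschitz estimate at interior points.
PROOF. Put `δ = -ρ x`, `κ = ‖pd ρ x w‖ / δ + ‖w‖ / √δ`. If `8 T.C κ ≥ 1` then `‖G (x + w) - G x‖ ≤ 2 M ≤ 16 T.C κ M` (`x` itself is in the set). Otherwise let `R = 1 / (8 T.C κ) > 1` (if `κ = 0` then `w = 0`, trivial; so `κ > 0`). For `|ζ| < R` the
point `x + ζ w` is in the set: `‖ζ w‖ < R ‖w‖ ≤ √δ / (8 T.C) ≤ √δ`, and by `taylor_one`, `pd_re`, `pd_smul`: `ρ (x + ζ w) ≤ -δ + 2 |ζ| ‖pd ρ x w‖ + T.C |ζ|² ‖w‖² ≤ -δ + 2 R κ δ + T.C R² κ² δ ≤ -δ + δ/4 + δ/64 < -δ/2`.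
`ζ ↦ G (x + ζ w)` is holomorphic on `ball 0 R`, with the values in `closedBall 0 M`: the Schwarz lemma (`Complex.dist_le_div_mul_dist_of_mapsTo_ball` with the image radius `2 M + ε`, `ε → 0`, or a closed ball version)
gives `‖G (x + w) - G x‖ ≤ 2 M / R = 16 T.C κ M`. -/
theorem fl (T : Tg n) (G : En n → En N) {x w : En n} {M : ℝ} (hx : T.ρ x < 0)
    (hG : DifferentiableOn ℂ G {x' | ‖x' - x‖ < Real.sqrt (-T.ρ x) ∧ -T.ρ x / 2 < -T.ρ x'})
    (hM : ∀ x', ‖x' - x‖ < Real.sqrt (-T.ρ x) → -T.ρ x / 2 < -T.ρ x' → ‖G x'‖ ≤ M) (hw : ‖G (x + w)‖ ≤ M) :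
    ‖G (x + w) - G x‖ ≤ 16 * T.C * M * (‖pd T.ρ x w‖ / (-T.ρ x) + ‖w‖ / Real.sqrt (-T.ρ x)) := by
  obtain ⟨d, hd⟩ : ∃ d, d = -T.ρ x := ⟨_, rfl⟩
  rw [← hd] at hG hM ⊢
  have hd0 : 0 < d := by rw [hd]; linarith
  obtain ⟨s, hs⟩ : ∃ s, s = Real.sqrt d := ⟨_, rfl⟩
  rw [← hs] at hG hM ⊢
  have hs0 : 0 < s := by rw [hs]; exact Real.sqrt_pos.mpr hd0
  have hss : s ^ 2 = d := by rw [hs]; exact Real.sq_sqrt hd0.le
  have hC := T.one_le
  obtain ⟨κ, hκ⟩ : ∃ κ, κ = ‖pd T.ρ x w‖ / d + ‖w‖ / s := ⟨_, rfl⟩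
  rw [← hκ]
  have hk1 : 0 ≤ ‖pd T.ρ x w‖ / d := by positivity
  have hk2 : 0 ≤ ‖w‖ / s := by positivity
  have hp : ‖pd T.ρ x w‖ ≤ κ * d := by
    rw [← div_le_iff₀ hd0]; linarith
  have hw' : ‖w‖ ≤ κ * s := by
    rw [← div_le_iff₀ hs0]; linarith
  have hx0 : ‖G x‖ ≤ M := by
    refine hM x ?_ ?_
    · simpa using hs0
    · rw [← hd]; linarith
  have hM0 : 0 ≤ M := (norm_nonneg _).trans hx0
  have hκ0 : 0 ≤ κ := by rw [hκ]; positivity
  rcases le_or_gt 1 (8 * T.C * κ) with h8 | h8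
  · calc ‖G (x + w) - G x‖ ≤ ‖G (x + w)‖ + ‖G x‖ := norm_sub_le _ _
      _ ≤ 2 * M * 1 := by linarith
      _ ≤ 2 * M * (8 * T.C * κ) := mul_le_mul_of_nonneg_left h8 (by linarith)
      _ = 16 * T.C * M * κ := by ring
  · rcases eq_or_lt_of_le hκ0 with h0 | h0
    · have hw0 : w = 0 := by
        rw [← norm_le_zero_iff]
        rw [← h0] at hw'
        linarith
      rw [hw0]
      simp only [add_zero, sub_self, norm_zero]
      positivity
    obtain ⟨R, hR⟩ : ∃ R, R = 1 / (8 * T.C * κ) := ⟨_, rfl⟩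
    have h8C : 0 < 8 * T.C * κ := by positivity
    have hR1 : 1 < R := by
      rw [hR, lt_div_iff₀ h8C]; linarith
    have hRk : R * κ ≤ 1 / 8 := by
      rw [hR, div_mul_eq_mul_div, div_le_iff₀ h8C]
      nlinarith
    have hRk' : T.C * (R * κ) = 1 / 8 := by
      rw [hR]; field_simp
    have hz1 : ∀ ζ : ℂ, ‖ζ‖ < R → ‖ζ • w‖ ≤ R * κ * s := by
      intro ζ hζ
      rw [norm_smul]
      calc ‖ζ‖ * ‖w‖ ≤ R * (κ * s) := mul_le_mul hζ.le hw' (norm_nonneg _) (by linarith)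
        _ = R * κ * s := by ring
    have hin : ∀ ζ : ℂ, ‖ζ‖ < R → ‖x + ζ • w - x‖ < s ∧ d / 2 < -T.ρ (x + ζ • w) := by
      intro ζ hζ
      have e1 := hz1 ζ hζ
      constructor
      · rw [add_sub_cancel_left]
        nlinarith
      · have e2 := taylor_one T x (ζ • w)
        rw [pd_re, pd_smul] at e2
        have e3 : (ζ * pd T.ρ x w).re ≤ ‖ζ‖ * ‖pd T.ρ x w‖ := by
          rw [← norm_mul]; exact Complex.re_le_norm _
        have e4 : ‖ζ‖ * ‖pd T.ρ x w‖ ≤ R * (κ * d) := mul_le_mul hζ.le hp (norm_nonneg _) (by linarith)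
        have e5 : T.C * ‖ζ • w‖ ^ 2 ≤ T.C * (R * κ * s) ^ 2 :=
          mul_le_mul_of_nonneg_left (pow_le_pow_left₀ (norm_nonneg _) e1 2) (by linarith)
        have e6 : T.C * (R * κ * s) ^ 2 = 1 / 8 * (R * κ) * d := by
          rw [← hss, ← hRk']; ring
        have e7 := (abs_le.mp e2).2
        have e8 : R * (κ * d) ≤ 1 / 8 * d := by nlinarith
        have e9 : 1 / 8 * (R * κ) * d ≤ 1 / 64 * d := by nlinarith
        linarith
    have hgd : DifferentiableOn ℂ (fun ζ : ℂ => G (x + ζ • w)) (ball 0 R) := by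
      refine hG.comp (f := fun ζ : ℂ => x + ζ • w) ?_ ?_
      · exact ((differentiable_id.smul_const w).const_add x).differentiableOn
      · intro ζ hζ
        rw [mem_ball_zero_iff] at hζ
        exact hin ζ hζ
    have hmap : MapsTo (fun ζ : ℂ => G (x + ζ • w)) (ball 0 R)
        (closedBall ((fun ζ : ℂ => G (x + ζ • w)) 0) (2 * M)) := by
      intro ζ hζ
      rw [mem_ball_zero_iff] at hζ
      have e1 := hin ζ hζ
      have e2 := hM _ e1.1 e1.2
      rw [mem_closedBall, dist_eq_norm]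
      simp only [zero_smul, add_zero]
      calc ‖G (x + ζ • w) - G x‖ ≤ ‖G (x + ζ • w)‖ + ‖G x‖ := norm_sub_le _ _
        _ ≤ 2 * M := by linarith
    have h1m : (1 : ℂ) ∈ ball (0 : ℂ) R := by
      rw [mem_ball_zero_iff, norm_one]; exact hR1
    have hS := Complex.dist_le_div_mul_dist_of_mapsTo_ball hgd hmap h1m
    simp only [one_smul, zero_smul, add_zero, dist_eq_norm, sub_zero, norm_one, mul_one] at hS
    calc ‖G (x + w) - G x‖ ≤ 2 * M / R := hS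
      _ = 16 * T.C * M * κ := by
        rw [hR]; field_simp; ring

/-- The radial estimate for a bounded holomorphic function on the ball.
PROOF. The function `ζ ↦ G (ζ • (‖w‖⁻¹ • w))` on the unit disc; or directly: the disc `w + ζ w`, `|ζ| ‖w‖ < 1 - ‖w‖`, is in the ball. If `h ‖w‖ ≥ (1 - ‖w‖)` use `2 M`. Otherwise the Schwarz lemma with the radius `(1 - ‖w‖)/‖w‖`. -/
theorem rad_ball {G : En n → En N} {M : ℝ} (hG : DifferentiableOn ℂ G (ball 0 1)) (hM : ∀ w ∈ ball (0 : En n) 1, ‖G w‖ ≤ M)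
    {w : En n} (hw : ‖w‖ < 1) {h : ℝ} (h0 : 0 ≤ h) (h1 : h ≤ 1) : ‖G w - G ((1 - h) • w)‖ * (1 - ‖w‖) ≤ 2 * M * h := by
  have hwm : w ∈ ball (0 : En n) 1 := by rwa [mem_ball_zero_iff]
  have hGw := hM w hwm
  have hM0 : 0 ≤ M := (norm_nonneg _).trans hGw
  have hw2 : ‖(1 - h) • w‖ ≤ ‖w‖ := by
    rw [norm_smul, Real.norm_of_nonneg (by linarith)]
    nlinarith [norm_nonneg w]
  have hGw2 := hM ((1 - h) • w) (by rw [mem_ball_zero_iff]; linarith)
  have hn := norm_nonneg w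
  have htri : ‖G w - G ((1 - h) • w)‖ ≤ 2 * M := by
    calc ‖G w - G ((1 - h) • w)‖ ≤ ‖G w‖ + ‖G ((1 - h) • w)‖ := norm_sub_le _ _
      _ ≤ 2 * M := by linarith
  rcases eq_or_ne w 0 with h00 | h00
  · rw [h00]
    simp only [smul_zero, sub_self, norm_zero, zero_mul]
    positivity
  have hn0 : 0 < ‖w‖ := norm_pos_iff.mpr h00
  rcases le_or_gt (1 - ‖w‖) (h * ‖w‖) with hc | hc
  · calc ‖G w - G ((1 - h) • w)‖ * (1 - ‖w‖) ≤ 2 * M * (h * ‖w‖) :=
        mul_le_mul htri hc (by linarith) (by linarith)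
      _ = 2 * M * h * ‖w‖ := by ring
      _ ≤ 2 * M * h * 1 := mul_le_mul_of_nonneg_left hw.le (by positivity)
      _ = 2 * M * h := by ring
  · obtain ⟨R, hR⟩ : ∃ R, R = (1 - ‖w‖) / ‖w‖ := ⟨_, rfl⟩
    have hRw : R * ‖w‖ = 1 - ‖w‖ := by rw [hR]; field_simp
    have hR0 : 0 < R := by rw [hR]; exact div_pos (by linarith) hn0
    have hhR : h < R := by
      rw [hR, lt_div_iff₀ hn0]; exact hc
    have hin : ∀ ζ : ℂ, ‖ζ‖ < R → w + ζ • w ∈ ball (0 : En n) 1 := by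
      intro ζ hζ
      rw [mem_ball_zero_iff]
      calc ‖w + ζ • w‖ ≤ ‖w‖ + ‖ζ • w‖ := norm_add_le _ _
        _ = ‖w‖ + ‖ζ‖ * ‖w‖ := by rw [norm_smul]
        _ < ‖w‖ + R * ‖w‖ := by
          have := mul_lt_mul_of_pos_right hζ hn0
          linarith
        _ = 1 := by rw [hRw]; ring
    have hgd : DifferentiableOn ℂ (fun ζ : ℂ => G (w + ζ • w)) (ball 0 R) := by
      refine hG.comp (f := fun ζ : ℂ => w + ζ • w) ?_ ?_
      · exact ((differentiable_id.smul_const w).const_add w).differentiableOn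
      · intro ζ hζ
        rw [mem_ball_zero_iff] at hζ
        exact hin ζ hζ
    have hmap : MapsTo (fun ζ : ℂ => G (w + ζ • w)) (ball 0 R)
        (closedBall ((fun ζ : ℂ => G (w + ζ • w)) 0) (2 * M)) := by
      intro ζ hζ
      rw [mem_ball_zero_iff] at hζ
      have e2 := hM _ (hin ζ hζ)
      rw [mem_closedBall, dist_eq_norm]
      simp only [zero_smul, add_zero]
      calc ‖G (w + ζ • w) - G w‖ ≤ ‖G (w + ζ • w)‖ + ‖G w‖ := norm_sub_le _ _
        _ ≤ 2 * M := by linarith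
    have hhm : (((-h : ℝ) : ℂ)) ∈ ball (0 : ℂ) R := by
      rw [mem_ball_zero_iff, Complex.norm_real, Real.norm_eq_abs, abs_neg, abs_of_nonneg h0]
      exact hhR
    have hS := Complex.dist_le_div_mul_dist_of_mapsTo_ball hgd hmap hhm
    have he : w + (((-h : ℝ) : ℂ)) • w = (1 - h) • w := by
      rw [Complex.coe_smul, sub_smul, one_smul, neg_smul, sub_eq_add_neg]
    simp only [zero_smul, add_zero, dist_eq_norm, sub_zero] at hS
    rw [he, Complex.norm_real, Real.norm_eq_abs, abs_neg, abs_of_nonneg h0, norm_sub_rev] at hS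
    have h1w : 0 < 1 - ‖w‖ := by linarith
    calc ‖G w - G ((1 - h) • w)‖ * (1 - ‖w‖) ≤ 2 * M / R * h * (1 - ‖w‖) :=
        mul_le_mul_of_nonneg_right hS h1w.le
      _ = 2 * M * h * ‖w‖ := by
        rw [← hRw]; field_simp
      _ ≤ 2 * M * h * 1 := mul_le_mul_of_nonneg_left hw.le (by positivity)
      _ = 2 * M * h := by ring

end Pool.Agent.MPca0fc2.EQ
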