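import Pool.Agent.Lib.MP_ca0fc2_an.Mg.G082
import Pool.Agent.Lib.MP_ca0fc2_an.EQ.G1
import Pool.Agent.Lib.MP_ca0fc2_an.Mg.G086

/-! Campaign EQ, task D1: the inverse maps of the nodes. -/

set_option autoImplicit false

open Metric Set Filter Topology

namespace Pool.Agent.MPca0fc2.EQ

open Pool.Agent.MPca0fc2.TB (En)

variable {n N : ℕ}

private theorem D1_kn (n : ℕ) : 4 ≤ kn n := by
  unfold kn
  have : (0 : ℝ) ≤ n := Nat.cast_nonneg n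
  linarith

private theorem D1_cube {a b : ℝ} (ha : 0 ≤ a) (hb : 0 ≤ b) : (a + b) ^ 3 ≤ 4 * (a ^ 3 + b ^ 3) := by
  nlinarith [mul_nonneg (add_nonneg ha hb) (sq_nonneg (a - b))]

private theorem D1_ev (C : ℝ) : ∀ᶠ lam in 𝓝[>] (0 : ℝ), 0 < lam ∧ lam ≤ 1 ∧ C * lam ≤ 1 := by
  have h0 : (0 : ℝ) < 1 / (|C| + 1) := by positivity
  filter_upwards [ev_lt h0] with lam h
  have hC : 0 < |C| + 1 := by positivity
  have h1 : lam * (|C| + 1) < 1 := by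
    have := h.2
    rwa [lt_div_iff₀ hC] at this
  have h2 : C * lam ≤ |C| * lam := mul_le_mul_of_nonneg_right (le_abs_self C) h.1.le
  have h3 : 0 ≤ lam * |C| := mul_nonneg h.1.le (abs_nonneg _)
  refine ⟨h.1, ?_, ?_⟩
  · linarith
  · linarith

private theorem D1_nn {T : Tg n} {Cs lam : ℝ} {sh : ℕ → ℝ} (Sy : Sys T Cs lam sh) {k : ℕ} {ν : Nd n} (hg : Sy.Good k ν) :
    0 ≤ Cs * lam := by
  have h := Sy.nid k ν hg 0 (by simp)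
  exact (norm_nonneg _).trans h

/-- PROOF. `inv_facts` with `κ = |Cs| lam ≤ 1/5`, from `Sy.hol`, `Sy.lip`, `Sy.nid`. -/
theorem inv_ok (T : Tg n) (Cs : ℝ) : ∀ᶠ lam in 𝓝[>] (0 : ℝ), ∀ (sh : ℕ → ℝ) (Sy : Sys T Cs lam sh) (k : ℕ) (ν : Nd n), Sy.Good k ν →
    (∀ z, ‖z‖ ≤ 5 / 2 → ‖ν.inv z‖ ≤ 3 ∧ ν.Ψ (ν.inv z) = z ∧ ‖ν.inv z - z‖ ≤ Cs * lam) ∧ (∀ y, ‖y‖ ≤ 2 → ν.inv (ν.Ψ y) = y) ∧
    (∀ y y', ‖y‖ ≤ 4 → ‖y'‖ ≤ 4 → ‖ν.Ψ y - ν.Ψ y'‖ ≤ (1 + Cs * lam) * ‖y - y'‖ ∧ ‖y - y'‖ ≤ (1 + 2 * Cs * lam) * ‖ν.Ψ y - ν.Ψ y'‖) ∧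
    (∀ z z', ‖z‖ ≤ 5 / 2 → ‖z'‖ ≤ 5 / 2 → ‖ν.inv z - ν.inv z'‖ ≤ (1 + 2 * Cs * lam) * ‖z - z'‖) ∧ DifferentiableOn ℂ ν.inv (ball 0 2) := by
  filter_upwards [D1_ev (4 * Cs)] with lam h sh Sy k ν hg
  have hκ0 := D1_nn Sy hg
  have hκ1 : Cs * lam ≤ 1 / 4 := by linarith [h.2.2]
  obtain ⟨f1, f2, f3, f4, f5⟩ := inv_facts ν hκ0 hκ1 (Sy.hol k ν hg) (Sy.lip k ν hg) (Sy.nid k ν hg)
  have key : ∀ a b : ℝ, 0 ≤ a → (1 - Cs * lam) * a ≤ b → a ≤ (1 + 2 * Cs * lam) * b := by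
    intro a b ha hab
    have e1 : (1 + 2 * Cs * lam) * ((1 - Cs * lam) * a) ≤ (1 + 2 * Cs * lam) * b :=
      mul_le_mul_of_nonneg_left hab (by linarith)
    have e2 : (1 + 2 * Cs * lam) * ((1 - Cs * lam) * a) = a + (Cs * lam) * (1 - 2 * (Cs * lam)) * a := by ring
    have e3 : 0 ≤ (Cs * lam) * (1 - 2 * (Cs * lam)) * a :=
      mul_nonneg (mul_nonneg hκ0 (by linarith)) ha
    linarith
  refine ⟨f1, f2, ?_, ?_, f5⟩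
  · intro y y' hy hy'
    exact ⟨(f3 y y' hy hy').2, key _ _ (norm_nonneg _) (f3 y y' hy hy').1⟩
  · intro z z' hz hz'
    exact key _ _ (norm_nonneg _) (f4 z z' hz hz')

private theorem D1_near (T : Tg n) (Cs : ℝ) : ∀ᶠ lam in 𝓝[>] (0 : ℝ), ∀ (sh : ℕ → ℝ) (Sy : Sys T Cs lam sh) (k : ℕ) (ν : Nd n) (z : En n),
    Sy.Good k ν → ‖z - ν.Ψ ν.q‖ ≤ 1 / 10 →
    ‖z‖ < 2 ∧ ‖ν.inv z‖ ≤ 2 ∧ 1 / 2 ≤ ‖ν.inv z‖ ∧ ν.Ψ (ν.inv z) = z ∧ ‖ν.inv z - ν.q‖ ≤ 2 * ‖z - ν.Ψ ν.q‖ ∧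
    ‖z - T.e‖ ≤ ‖z - ν.Ψ ν.q‖ + 1 / 10 ∧
    ∃ u : ℝ, |u - 1| ≤ 1 / 20 ∧ |T.ρ z - u * (‖ν.inv z‖ ^ 2 - 1)| ≤ |Cs| * (rs lam k + ‖ν.inv z - ν.q‖) ^ 3 := by
  filter_upwards [D1_ev (20 * Cs), inv_ok T Cs] with lam h hi sh Sy k ν z hg hz
  obtain ⟨f1, f2, f3, f4, f5⟩ := hi sh Sy k ν hg
  obtain ⟨hl0, hl1, hl2⟩ := h
  have hκ0 := D1_nn Sy hg
  have hκ1 : Cs * lam ≤ 1 / 20 := by linarith
  have hq1 := Sy.q1 k ν hg
  have hq2 := Sy.nid k ν hg ν.q (by rw [hq1]; norm_num)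
  have hqe := Sy.qe k ν hg
  have n1 : ‖ν.Ψ ν.q‖ ≤ 1 + 1 / 20 := by
    have e : ν.Ψ ν.q = (ν.Ψ ν.q - ν.q) + ν.q := by abel
    calc ‖ν.Ψ ν.q‖ = ‖(ν.Ψ ν.q - ν.q) + ν.q‖ := by rw [← e]
      _ ≤ ‖ν.Ψ ν.q - ν.q‖ + ‖ν.q‖ := norm_add_le _ _
      _ ≤ 1 + 1 / 20 := by rw [hq1]; linarith
  have n2 : ‖z‖ ≤ 1 / 10 + (1 + 1 / 20) := by
    have e : z = (z - ν.Ψ ν.q) + ν.Ψ ν.q := by abel
    calc ‖z‖ = ‖(z - ν.Ψ ν.q) + ν.Ψ ν.q‖ := by rw [← e]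
      _ ≤ ‖z - ν.Ψ ν.q‖ + ‖ν.Ψ ν.q‖ := norm_add_le _ _
      _ ≤ 1 / 10 + (1 + 1 / 20) := by linarith
  obtain ⟨g1, g2, g3⟩ := f1 z (by linarith)
  have n3 : ‖ν.inv z‖ ≤ 2 := by
    have e : ν.inv z = (ν.inv z - z) + z := by abel
    calc ‖ν.inv z‖ = ‖(ν.inv z - z) + z‖ := by rw [← e]
      _ ≤ ‖ν.inv z - z‖ + ‖z‖ := norm_add_le _ _
      _ ≤ 2 := by linarith
  have n4 : ν.inv (ν.Ψ ν.q) = ν.q := f2 ν.q (by rw [hq1]; norm_num)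
  have n5 : ‖ν.inv z - ν.q‖ ≤ (1 + 2 * Cs * lam) * ‖z - ν.Ψ ν.q‖ := by
    have := f4 z (ν.Ψ ν.q) (by linarith) (by linarith)
    rwa [n4] at this
  have hp : 0 ≤ ‖z - ν.Ψ ν.q‖ := norm_nonneg _
  have n6 : (1 + 2 * Cs * lam) * ‖z - ν.Ψ ν.q‖ ≤ 2 * ‖z - ν.Ψ ν.q‖ :=
    mul_le_mul_of_nonneg_right (by linarith) hp
  have n7 : 1 / 2 ≤ ‖ν.inv z‖ := by
    have e : ν.q = ν.inv z - (ν.inv z - ν.q) := by abel
    have e2 : ‖ν.q‖ ≤ ‖ν.inv z‖ + ‖ν.inv z - ν.q‖ := by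
      calc ‖ν.q‖ = ‖ν.inv z - (ν.inv z - ν.q)‖ := by rw [← e]
        _ ≤ _ := norm_sub_le _ _
    rw [hq1] at e2
    linarith
  have n8 : ‖z - T.e‖ ≤ ‖z - ν.Ψ ν.q‖ + 1 / 10 := by
    have e : z - T.e = (z - ν.Ψ ν.q) + ((ν.Ψ ν.q - ν.q) + (ν.q - T.e)) := by abel
    rw [e]
    have e1 := norm_add_le (z - ν.Ψ ν.q) ((ν.Ψ ν.q - ν.q) + (ν.q - T.e))
    have e2 := norm_add_le (ν.Ψ ν.q - ν.q) (ν.q - T.e)
    linarith
  refine ⟨by linarith, n3, n7, g2, n5.trans n6, n8, ?_⟩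
  obtain ⟨u, hu1, hu2⟩ := Sy.qual k ν hg
  refine ⟨u (ν.inv z), (hu1 _ n3).trans hκ1, ?_⟩
  have h2 := hu2 _ n3
  rw [g2] at h2
  refine h2.trans ?_
  have hr0 := (rs_pos hl0 k).le
  exact mul_le_mul_of_nonneg_right (le_abs_self Cs) (by positivity)

/-- heights from the quadratic relation -/
private theorem D1_height {d u y E : ℝ} (hy : 0 ≤ y) (hu : |u - 1| ≤ 1 / 20) (h : |-d - u * (y ^ 2 - 1)| ≤ E) :
    |1 - y| ≤ (|d| + E) / (19 / 20) := by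
  have h1 := abs_le.mp hu
  have h2 := abs_le.mp h
  have hu0 : 19 / 20 ≤ u := by linarith
  have e1 : |u * (1 - y ^ 2)| ≤ |d| + E := by
    have e : u * (1 - y ^ 2) = d + (-d - u * (y ^ 2 - 1)) := by ring
    rw [e]
    exact (abs_add_le _ _).trans (by linarith)
  rw [abs_mul, abs_of_pos (by linarith : (0 : ℝ) < u)] at e1
  have e2 : |1 - y| ≤ |1 - y ^ 2| := by
    have e : 1 - y ^ 2 = (1 - y) * (1 + y) := by ring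
    rw [e, abs_mul, abs_of_nonneg (by linarith : (0 : ℝ) ≤ 1 + y)]
    have := mul_le_mul_of_nonneg_left (show (1 : ℝ) ≤ 1 + y by linarith) (abs_nonneg (1 - y))
    linarith
  rw [le_div_iff₀ (by norm_num)]
  have e3 : 19 / 20 * |1 - y ^ 2| ≤ u * |1 - y ^ 2| := mul_le_mul_of_nonneg_right hu0 (abs_nonneg _)
  linarith

/-- Heights of the preimages.
PROOF. `δ = -ρ z ≤ lam ^ (1/4)`, `y = ν.inv z`. `‖z - ν.Ψ ν.q‖ ≤ (kn + 8)(lam + lam ^ (1/8))` is small and `‖ν.Ψ ν.q‖ ≤ 1 + Cs lam`, so `‖z‖ < 2`, `‖y‖ ≤ 2`. `‖y - ν.q‖ ≤ 2 (kn + 8)(rs k + √δ)` (`ν.inv (ν.Ψ ν.q) = ν.q`). `Sy.qual`: `δ = u y (1 - ‖y‖²) + err`, `|err| ≤ C (rs k ^ 3 + δ ^ (3/2))`;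
`rs k ^ 3 = rs k ^ 0.36 rs (k+1) ^ 2.2 ≤ 4 rs k ^ 0.36 δ` and `δ ^ (3/2) ≤ lam ^ (1/8) δ`: `|err| ≤ δ/20`; `|u y - 1| ≤ Cs lam`. So `1 - ‖y‖² ∈ [0.9 δ, 1.1 δ]`, `‖y‖ < 1`, `‖y‖ ≥ 1/2`.. -/
theorem dz (T : Tg n) (Cs : ℝ) : ∀ᶠ lam in 𝓝[>] (0 : ℝ), ∀ (sh : ℕ → ℝ) (Sy : Sys T Cs lam sh) (k : ℕ) (ν : Nd n) (z : En n), Sy.Good k ν → ZZ T lam k ν z →
    ‖z‖ < 2 ∧ ‖ν.inv z‖ < 1 ∧ -T.ρ z ≤ 3 * (1 - ‖ν.inv z‖) ∧ 1 - ‖ν.inv z‖ ≤ -T.ρ z := by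
  have hkn := D1_kn n
  obtain ⟨B, hB⟩ : ∃ B : ℝ, B = kn n + 8 := ⟨_, rfl⟩
  obtain ⟨E, hE⟩ : ∃ E : ℝ, E = 4 * |Cs| * (1 + 2 * B) ^ 3 := ⟨_, rfl⟩
  have hB0 : 0 ≤ B := by linarith
  have hE0 : 0 ≤ E := by rw [hE]; positivity
  filter_upwards [D1_ev 1, D1_near T Cs, small (160 * E) (show (66 / 25 : ℝ) < 3 by norm_num),
    small' (20 * B + 40 * E) (show (0 : ℝ) < 1 / 8 by norm_num)] with lam h hn hs1 hs2 sh Sy k ν z hg hz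
  obtain ⟨hl0, hl1, -⟩ := h
  have hr0 := rs_pos hl0 k
  have hrl := rs_le hl0 hl1 k
  obtain ⟨r, hr⟩ : ∃ r : ℝ, r = rs lam k := ⟨_, rfl⟩
  obtain ⟨d, hd⟩ : ∃ d : ℝ, d = -T.ρ z := ⟨_, rfl⟩
  obtain ⟨s, hs⟩ : ∃ s : ℝ, s = Real.sqrt d := ⟨_, rfl⟩
  have hd0 : 0 < d := by rw [hd]; linarith [hz.lt]
  have hs0 : 0 < s := by rw [hs]; exact Real.sqrt_pos.mpr hd0
  have hss : s ^ 2 = d := by rw [hs]; exact Real.sq_sqrt hd0.le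
  have hlo := hz.lo
  have hup := hz.up
  have hcen := hz.cen
  rw [← hd] at hlo hup hcen
  rw [← hr] at hcen hr0 hrl
  rw [← hs, ← hB] at hcen
  -- the root of the height
  have hs8 : s ≤ lam ^ (1 / 8 : ℝ) := by
    rw [hs]
    have e1 : Real.sqrt d ≤ Real.sqrt (lam ^ (1 / 4 : ℝ)) := Real.sqrt_le_sqrt hup
    have e2 : Real.sqrt (lam ^ (1 / 4 : ℝ)) = lam ^ (1 / 8 : ℝ) := by
      rw [Real.sqrt_eq_rpow, ← Real.rpow_mul hl0.le]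
      norm_num
    rw [e2] at e1
    exact e1
  have hl8 : lam ≤ lam ^ (1 / 8 : ℝ) := by
    conv_lhs => rw [← Real.rpow_one lam]
    exact Real.rpow_le_rpow_of_exponent_ge hl0 hl1 (by norm_num)
  have h8 := hs2 lam hl0 le_rfl
  rw [Real.rpow_zero] at h8
  obtain ⟨X, hX⟩ : ∃ X : ℝ, X = lam ^ (1 / 8 : ℝ) := ⟨_, rfl⟩
  rw [← hX] at hs8 hl8 h8
  have hX0 : 0 < X := by rw [hX]; positivity
  have hBX : 20 * (B * X) ≤ 1 := by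
    have : 0 ≤ E * X := mul_nonneg hE0 hX0.le
    linarith
  have hEX : 40 * (E * X) ≤ 1 := by
    have : 0 ≤ B * X := mul_nonneg hB0 hX0.le
    linarith
  have hsmall : ‖z - ν.Ψ ν.q‖ ≤ 1 / 10 := by
    refine hcen.trans ?_
    have : B * (r + s) ≤ B * (X + X) := mul_le_mul_of_nonneg_left (by linarith) hB0
    linarith
  obtain ⟨a1, a2, a3, a4, a5, -, u, hu1, hu2⟩ := hn sh Sy k ν z hg hsmall
  have hρ : T.ρ z = -d := by rw [hd]; ring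
  rw [hρ, ← hr] at hu2
  obtain ⟨y, hy⟩ : ∃ y : ℝ, y = ‖ν.inv z‖ := ⟨_, rfl⟩
  rw [← hy] at hu2 a2 a3
  rw [← hd, ← hy]
  -- the error
  have hr3 : r ^ 3 = r ^ (3 : ℝ) := by norm_cast
  have hlo' : 160 * (E * r ^ 3) ≤ 4 * d := by
    have e1 := hs1 k
    rw [← hr, ← hr3] at e1
    have e2 : rs lam (k + 1) ^ (11 / 5 : ℝ) = r ^ (66 / 25 : ℝ) := by
      rw [rs_succ hl0, ← hr, ← Real.rpow_mul hr0.le]
      norm_num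
    rw [e2] at hlo
    linarith
  have herr : |Cs| * (r + ‖ν.inv z - ν.q‖) ^ 3 ≤ d / 20 := by
    have e1 : r + ‖ν.inv z - ν.q‖ ≤ (1 + 2 * B) * (r + s) := by
      have : (1 + 2 * B) * (r + s) = (r + s) + 2 * (B * (r + s)) := by ring
      linarith
    have e2 : (r + ‖ν.inv z - ν.q‖) ^ 3 ≤ ((1 + 2 * B) * (r + s)) ^ 3 :=
      pow_le_pow_left₀ (add_nonneg hr0.le (norm_nonneg _)) e1 3
    calc |Cs| * (r + ‖ν.inv z - ν.q‖) ^ 3 ≤ |Cs| * ((1 + 2 * B) * (r + s)) ^ 3 :=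
        mul_le_mul_of_nonneg_left e2 (abs_nonneg _)
      _ = |Cs| * (1 + 2 * B) ^ 3 * (r + s) ^ 3 := by ring
      _ ≤ |Cs| * (1 + 2 * B) ^ 3 * (4 * (r ^ 3 + s ^ 3)) :=
        mul_le_mul_of_nonneg_left (D1_cube hr0.le hs0.le) (by positivity)
      _ = E * r ^ 3 + (E * s) * s ^ 2 := by rw [hE]; ring
      _ ≤ d / 40 + (1 / 40) * s ^ 2 := by
        have e3 : E * s ≤ 1 / 40 := by
          have : E * s ≤ E * X := mul_le_mul_of_nonneg_left hs8 hE0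
          linarith
        have e4 : (E * s) * s ^ 2 ≤ (1 / 40) * s ^ 2 := mul_le_mul_of_nonneg_right e3 (by positivity)
        linarith
      _ = d / 20 := by rw [hss]; ring
  have hu3 := abs_le.mp (hu2.trans herr)
  have hu4 := abs_le.mp hu1
  have hu0 : 19 / 20 ≤ u := by linarith
  have hu5 : u ≤ 21 / 20 := by linarith
  -- u (1 - y ^ 2) is between 0.95 d and 1.05 d
  have k1 : 19 / 20 * d ≤ u * (1 - y ^ 2) := by nlinarith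
  have k2 : u * (1 - y ^ 2) ≤ 21 / 20 * d := by nlinarith
  have k3 : 0 < 1 - y ^ 2 := by
    by_contra hc
    push Not at hc
    have : u * (1 - y ^ 2) ≤ 0 := mul_nonpos_of_nonneg_of_nonpos (by linarith) hc
    linarith
  have k4 : 19 / 20 * d ≤ 21 / 20 * (1 - y ^ 2) := k1.trans (mul_le_mul_of_nonneg_right hu5 k3.le)
  have k5 : 19 / 20 * (1 - y ^ 2) ≤ 21 / 20 * d := (mul_le_mul_of_nonneg_right hu0 k3.le).trans k2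
  have k6 : y < 1 := by nlinarith
  have k7 : 1 - y ^ 2 = (1 - y) * (1 + y) := by ring
  refine ⟨a1, k6, ?_, ?_⟩
  · have : (1 - y) * (1 + y) ≤ (1 - y) * 2 := mul_le_mul_of_nonneg_left (by linarith) (by linarith)
    linarith
  · have : (1 - y) * (3 / 2) ≤ (1 - y) * (1 + y) := mul_le_mul_of_nonneg_left (by linarith) (by linarith)
    linarith

/-- The same without a lower bound of the height.
PROOF. As before: `‖y - ν.q‖ ≤ 2 (kn + 1) rs k`, `|err| ≤ C rs k ^ 3`. -/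
theorem dz0 (T : Tg n) (Cs : ℝ) : ∃ C : ℝ, 1 ≤ C ∧ ∀ᶠ lam in 𝓝[>] (0 : ℝ), ∀ (sh : ℕ → ℝ) (Sy : Sys T Cs lam sh) (k : ℕ) (ν : Nd n) (z : En n),
    Sy.Good k ν → T.ρ z < 0 → ‖z - ν.Ψ ν.q‖ ≤ (kn n + 1) * rs lam k → ‖z‖ < 2 ∧ |1 - ‖ν.inv z‖| ≤ 2 * (-T.ρ z) + C * rs lam k ^ 3 := by
  have hkn := D1_kn n
  obtain ⟨B, hB⟩ : ∃ B : ℝ, B = kn n + 1 := ⟨_, rfl⟩
  have hB0 : 0 ≤ B := by linarith
  refine ⟨1 + 2 * |Cs| * (1 + 2 * B) ^ 3, ?_, ?_⟩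
  · have : 0 ≤ 2 * |Cs| * (1 + 2 * B) ^ 3 := by positivity
    linarith
  filter_upwards [D1_ev (10 * B), D1_near T Cs] with lam h hn sh Sy k ν z hg hz hcen
  obtain ⟨hl0, hl1, hl2⟩ := h
  have hr0 := rs_pos hl0 k
  have hrl := rs_le hl0 hl1 k
  rw [← hB] at hcen
  have hsmall : ‖z - ν.Ψ ν.q‖ ≤ 1 / 10 := by
    refine hcen.trans ?_
    have : B * rs lam k ≤ B * lam := mul_le_mul_of_nonneg_left hrl hB0
    linarith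
  obtain ⟨a1, a2, a3, a4, a5, -, u, hu1, hu2⟩ := hn sh Sy k ν z hg hsmall
  refine ⟨a1, ?_⟩
  obtain ⟨r, hr⟩ : ∃ r : ℝ, r = rs lam k := ⟨_, rfl⟩
  obtain ⟨d, hd⟩ : ∃ d : ℝ, d = -T.ρ z := ⟨_, rfl⟩
  have hd0 : 0 < d := by rw [hd]; linarith
  have hρ : T.ρ z = -d := by rw [hd]; ring
  rw [← hr] at hu2 hr0 hcen
  rw [hρ] at hu2
  rw [← hr, ← hd]
  have e1 : r + ‖ν.inv z - ν.q‖ ≤ (1 + 2 * B) * r := by linarith
  have e2 : (r + ‖ν.inv z - ν.q‖) ^ 3 ≤ ((1 + 2 * B) * r) ^ 3 :=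
    pow_le_pow_left₀ (add_nonneg hr0.le (norm_nonneg _)) e1 3
  have e3 : |Cs| * (r + ‖ν.inv z - ν.q‖) ^ 3 ≤ |Cs| * (1 + 2 * B) ^ 3 * r ^ 3 := by
    calc |Cs| * (r + ‖ν.inv z - ν.q‖) ^ 3 ≤ |Cs| * ((1 + 2 * B) * r) ^ 3 :=
        mul_le_mul_of_nonneg_left e2 (abs_nonneg _)
      _ = |Cs| * (1 + 2 * B) ^ 3 * r ^ 3 := by ring
  have e4 := D1_height (norm_nonneg (ν.inv z)) hu1 (hu2.trans e3)
  rw [abs_of_pos hd0] at e4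
  refine e4.trans ?_
  have e5 : 0 ≤ |Cs| * (1 + 2 * B) ^ 3 * r ^ 3 := by positivity
  have e6 : 0 ≤ r ^ 3 := by positivity
  rw [div_le_iff₀ (by norm_num)]
  nlinarith

/-- The variation of a function which is transplanted to the domain.
PROOF. `fl` for `G = H ∘ ν.inv` at `x = z`, `w = z' - z`, `M = A`, `δ = -ρ z`. For `x'` with `‖x' - z‖ < √δ`, `δ/2 < -ρ x'`: `ZZ k ν x'`: `lo`: `rs (k+1) ^ 2.2 ≤ 2 δ < 4 (-ρ x')`; `up`: `-ρ x' ≤ δ + 4 √δ ≤ lam ^ (1/4)` (`δ ≤ 2 rs k ≤ 2 lam`; `taylor_one`, `fd_le`); `cen`: `√δ ≤ √2 √(-ρ x')`,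
`‖x' - ν.Ψ ν.q‖ ≤ √δ + (kn + 3) rs k`. So `ν.inv x' ∈ ball 0 1` (`dz`) and `‖x'‖ < 2`: `G` is holomorphic and bounded by `A` there. -/
theorem var_inv (T : Tg n) (Cs : ℝ) (N : ℕ) : ∀ᶠ lam in 𝓝[>] (0 : ℝ), ∀ (sh : ℕ → ℝ) (Sy : Sys T Cs lam sh) (H : En n → En N) (A : ℝ) (k : ℕ) (ν : Nd n)
    (z w : En n), DifferentiableOn ℂ H (ball 0 1) → (∀ y ∈ ball (0 : En n) 1, ‖H y‖ ≤ A) → Sy.Good k ν → T.ρ z < 0 →
    rs lam (k + 1) ^ (11 / 5 : ℝ) ≤ 2 * (-T.ρ z) → -T.ρ z ≤ 2 * rs lam k → ‖z - ν.Ψ ν.q‖ ≤ (kn n + 3) * rs lam k → ‖H (ν.inv (z + w))‖ ≤ A →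
    ‖H (ν.inv (z + w)) - H (ν.inv z)‖ ≤ 16 * T.C * A * (‖pd T.ρ z w‖ / (-T.ρ z) + ‖w‖ / Real.sqrt (-T.ρ z)) := by
  have hkn := D1_kn n
  have hTC := T.one_le
  filter_upwards [D1_ev (20 * (kn n + 3)), D1_near T Cs, dz T Cs, inv_ok T Cs,
    small' (2 * (3 + 2 * T.C)) (show (1 / 4 : ℝ) < 1 / 2 by norm_num)]
    with lam h hn hdz hi hs2 sh Sy H A k ν z w hH hA hg hz hlo hup hcen hw
  obtain ⟨hl0, hl1, hl2⟩ := h
  have hr0 := rs_pos hl0 k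
  have hrl := rs_le hl0 hl1 k
  have hsm : (kn n + 3) * rs lam k ≤ (kn n + 3) * lam := mul_le_mul_of_nonneg_left hrl (by linarith)
  obtain ⟨-, -, -, -, -, b6, -⟩ := hn sh Sy k ν z hg (by linarith)
  have hze : ‖z - T.e‖ ≤ 1 := by linarith
  have hfd : ‖fderiv ℝ T.ρ z‖ ≤ 2 + T.C := by
    refine (fd_le T z).trans ?_
    have : T.C * ‖z - T.e‖ ≤ T.C * 1 := mul_le_mul_of_nonneg_left hze (by linarith)
    linarith
  obtain ⟨d, hd⟩ : ∃ d : ℝ, d = -T.ρ z := ⟨_, rfl⟩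
  have hd0 : 0 < d := by rw [hd]; linarith
  obtain ⟨s, hs⟩ : ∃ s : ℝ, s = Real.sqrt d := ⟨_, rfl⟩
  have hs0 : 0 < s := by rw [hs]; exact Real.sqrt_pos.mpr hd0
  have hss : s ^ 2 = d := by rw [hs]; exact Real.sq_sqrt hd0.le
  rw [← hd] at hlo hup
  have hlam2 : 2 * lam ≤ 1 := by nlinarith
  have hd1 : d ≤ 1 := by linarith
  have hs1 : s ≤ 1 := by nlinarith
  have hs4 : s ≤ 2 * lam ^ (1 / 2 : ℝ) := by
    have e1 : s ^ 2 ≤ (2 * lam ^ (1 / 2 : ℝ)) ^ 2 := by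
      have e2 : (2 * lam ^ (1 / 2 : ℝ)) ^ 2 = 4 * lam := by
        rw [mul_pow, ← Real.rpow_natCast (lam ^ (1 / 2 : ℝ)), ← Real.rpow_mul hl0.le]
        norm_num
      rw [e2, hss]
      linarith
    exact (sq_le_sq₀ hs0.le (by positivity)).mp e1
  have hset : ∀ x' : En n, ‖x' - z‖ < Real.sqrt (-T.ρ z) → -T.ρ z / 2 < -T.ρ x' → ZZ T lam k ν x' := by
    intro x' h1 h2
    rw [← hd, ← hs] at h1
    rw [← hd] at h2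
    refine ⟨by linarith, by linarith, ?_, ?_⟩
    · have t1 := taylor_one T z (x' - z)
      rw [add_sub_cancel] at t1
      have t2 := (abs_le.mp t1).1
      have t3 : |fderiv ℝ T.ρ z (x' - z)| ≤ (2 + T.C) * s := by
        have := (fderiv ℝ T.ρ z).le_opNorm (x' - z)
        rw [Real.norm_eq_abs] at this
        exact this.trans (mul_le_mul hfd h1.le (norm_nonneg _) (by linarith))
      have t4 := (abs_le.mp t3).1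
      have t5 : T.C * ‖x' - z‖ ^ 2 ≤ T.C * (s * 1) := by
        refine mul_le_mul_of_nonneg_left ?_ (by linarith)
        have : ‖x' - z‖ ^ 2 = ‖x' - z‖ * ‖x' - z‖ := by ring
        rw [this]
        exact mul_le_mul h1.le (by linarith) (norm_nonneg _) hs0.le
      have t6 : d ≤ s := by nlinarith
      have t7 : -T.ρ x' ≤ (3 + 2 * T.C) * s := by
        have : T.ρ z = -d := by rw [hd]; ring
        linarith
      have t8 : (3 + 2 * T.C) * s ≤ (3 + 2 * T.C) * (2 * lam ^ (1 / 2 : ℝ)) :=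
        mul_le_mul_of_nonneg_left hs4 (by linarith)
      have t9 := hs2 lam hl0 le_rfl
      linarith
    · have t1 : ‖x' - ν.Ψ ν.q‖ ≤ ‖x' - z‖ + ‖z - ν.Ψ ν.q‖ := by
        have e : x' - ν.Ψ ν.q = (x' - z) + (z - ν.Ψ ν.q) := by abel
        rw [e]
        exact norm_add_le _ _
      have t2 : s ≤ 2 * Real.sqrt (-T.ρ x') := by
        rw [hs]
        have e1 : Real.sqrt d ≤ Real.sqrt (2 ^ 2 * (-T.ρ x')) := Real.sqrt_le_sqrt (by linarith)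
        rw [Real.sqrt_mul (by norm_num), Real.sqrt_sq (by norm_num)] at e1
        exact e1
      have t3 : 0 ≤ Real.sqrt (-T.ρ x') := Real.sqrt_nonneg _
      nlinarith [mul_nonneg (show (0 : ℝ) ≤ kn n by linarith) t3]
  obtain ⟨f1, f2, f3, f4, f5⟩ := hi sh Sy k ν hg
  have hin : ∀ x' : En n, ‖x' - z‖ < Real.sqrt (-T.ρ z) → -T.ρ z / 2 < -T.ρ x' → ‖x'‖ < 2 ∧ ‖ν.inv x'‖ < 1 := by
    intro x' h1 h2
    have := hdz sh Sy k ν x' hg (hset x' h1 h2)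
    exact ⟨this.1, this.2.1⟩
  have hres := fl T (fun x' => H (ν.inv x')) (x := z) (w := w) (M := A) hz ?_ ?_ hw
  · exact hres
  · refine DifferentiableOn.comp (t := ball 0 1) hH (f5.mono ?_) ?_
    · intro x' hx'
      rw [mem_ball_zero_iff]
      exact (hin x' hx'.1 hx'.2).1
    · intro x' hx'
      rw [mem_ball_zero_iff]
      exact (hin x' hx'.1 hx'.2).2
  · intro x' h1 h2
    apply hA
    rw [mem_ball_zero_iff]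
    exact (hin x' h1 h2).2

/-- The isotropic version. PROOF. `var_inv`, `‖pd ρ z w‖ ≤ 3 ‖w‖` (`pd_le`, `fd_le`), `δ ≤ 1` so `1/√δ ≤ 1/δ`. -/
theorem lip_inv (T : Tg n) (Cs : ℝ) (N : ℕ) : ∃ C : ℝ, 1 ≤ C ∧ ∀ᶠ lam in 𝓝[>] (0 : ℝ), ∀ (sh : ℕ → ℝ) (Sy : Sys T Cs lam sh) (H : En n → En N) (A : ℝ) (k : ℕ) (ν : Nd n)
    (z z' : En n), DifferentiableOn ℂ H (ball 0 1) → (∀ y ∈ ball (0 : En n) 1, ‖H y‖ ≤ A) → Sy.Good k ν → T.ρ z < 0 →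
    rs lam (k + 1) ^ (11 / 5 : ℝ) ≤ 2 * (-T.ρ z) → -T.ρ z ≤ 2 * rs lam k → ‖z - ν.Ψ ν.q‖ ≤ (kn n + 3) * rs lam k → ‖H (ν.inv z')‖ ≤ A →
    ‖H (ν.inv z') - H (ν.inv z)‖ ≤ C * A * ‖z' - z‖ / (-T.ρ z) := by
  have hkn := D1_kn n
  have hTC := T.one_le
  refine ⟨16 * T.C * (3 + T.C), by nlinarith, ?_⟩
  filter_upwards [D1_ev (20 * (kn n + 3)), D1_near T Cs, var_inv T Cs N]
    with lam h hn hv sh Sy H A k ν z z' hH hA hg hz hlo hup hcen hw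
  obtain ⟨hl0, hl1, hl2⟩ := h
  have hr0 := rs_pos hl0 k
  have hrl := rs_le hl0 hl1 k
  have hsm : (kn n + 3) * rs lam k ≤ (kn n + 3) * lam := mul_le_mul_of_nonneg_left hrl (by linarith)
  obtain ⟨-, -, -, -, -, b6, -⟩ := hn sh Sy k ν z hg (by linarith)
  have hze : ‖z - T.e‖ ≤ 1 := by linarith
  have hfd : ‖fderiv ℝ T.ρ z‖ ≤ 2 + T.C := by
    refine (fd_le T z).trans ?_
    have : T.C * ‖z - T.e‖ ≤ T.C * 1 := mul_le_mul_of_nonneg_left hze (by linarith)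
    linarith
  have hv' := hv sh Sy H A k ν z (z' - z) hH hA hg hz hlo hup hcen (by rw [add_sub_cancel]; exact hw)
  rw [add_sub_cancel] at hv'
  refine hv'.trans ?_
  have hA0 : 0 ≤ A := (norm_nonneg _).trans hw
  obtain ⟨d, hd⟩ : ∃ d : ℝ, d = -T.ρ z := ⟨_, rfl⟩
  have hd0 : 0 < d := by rw [hd]; linarith
  rw [← hd] at hup ⊢
  have hlam2 : 2 * lam ≤ 1 := by nlinarith
  have hd1 : d ≤ 1 := by linarith
  have p1 : ‖pd T.ρ z (z' - z)‖ ≤ (2 + T.C) * ‖z' - z‖ :=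
    (pd_le T.ρ z (z' - z)).trans (mul_le_mul_of_nonneg_right hfd (norm_nonneg _))
  have p2 : ‖pd T.ρ z (z' - z)‖ / d ≤ (2 + T.C) * ‖z' - z‖ / d := div_le_div_of_nonneg_right p1 hd0.le
  have p3 : ‖z' - z‖ / Real.sqrt d ≤ ‖z' - z‖ / d := by
    apply div_le_div_of_nonneg_left (norm_nonneg _) hd0
    apply Real.le_sqrt_of_sq_le
    nlinarith
  have p4 : ‖pd T.ρ z (z' - z)‖ / d + ‖z' - z‖ / Real.sqrt d ≤ (3 + T.C) * ‖z' - z‖ / d := by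
    have : (3 + T.C) * ‖z' - z‖ / d = (2 + T.C) * ‖z' - z‖ / d + ‖z' - z‖ / d := by ring
    linarith
  have p5 := mul_le_mul_of_nonneg_left p4 (show 0 ≤ 16 * T.C * A by positivity)
  refine p5.trans (le_of_eq ?_)
  ring

/-- The mismatch of consecutive inverse maps.
PROOF. `ν' = nx k ν c`, `y' = ν'.inv z` (`‖y'‖ < 1` by `dz` for `ν'`: `ZZ (k+1) ν' z`: `rs (k+2) ^ 2.2 ≤ rs (k+1) ^ 2.2`), `x = ν.Ψ y'`, `w = z - x = ν'.Ψ y' - ν.Ψ y'`. `‖y' - ν'.q‖ ≤ 2 (kn + 2) rs (k+1)`. `Sy.est`, `Sy.est'` at `y'`: `‖w‖ ≤ C (rs k ^ 3 + rs k rs (k+1)) ≤ C' rs k ^ 2.2`,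
`‖pd ρ x w‖ ≤ C (rs k ^ 3 + rs k ^ 2 rs (k+1) + rs k rs (k+1) ^ 2) ≤ C' rs k ^ 3`. With `δ = -ρ z ≥ rs (k+1) ^ 2.2 = rs k ^ 2.64`: `|ρ z - ρ x| ≤ 2 ‖pd ρ x w‖ + T.C ‖w‖² ≤ δ/10` (`taylor_one`, `pd_re`), so `-ρ x ∈ [0.9 δ, 1.1 δ]`. `var_inv` at `x` (`‖x - ν.Ψ ν.q‖ ≤ ‖w‖ + (kn + 2) rs k`;
`-ρ x ≤ 1.1 rs (k+1) ≤ 2 rs k`; `rs (k+1) ^ 2.2 ≤ δ ≤ 2 (-ρ x)`), with `H (ν.inv x) = H y'` (`inv_ok`) and `H (ν.inv (x + w)) = H (ν.inv z)` bounded by `A` (`ZZ k ν z`, `dz`): `≤ C A (rs k ^ 3 / δ + rs k ^ 2.2 / √δ) ≤ C A (rs k ^ 0.36 + rs k ^ 0.88)`. -/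
theorem mm_inv (T : Tg n) (Cs : ℝ) (N : ℕ) : ∃ C : ℝ, 1 ≤ C ∧ ∀ᶠ lam in 𝓝[>] (0 : ℝ), ∀ (sh : ℕ → ℝ) (Sy : Sys T Cs lam sh) (H : En n → En N) (A : ℝ) (k : ℕ) (ν : Nd n)
    (c : Fin n → ℤ × ℤ) (z : En n), DifferentiableOn ℂ H (ball 0 1) → (∀ y ∈ ball (0 : En n) 1, ‖H y‖ ≤ A) → Sy.Good k ν → T.ρ z < 0 →
    rs lam (k + 1) ^ (11 / 5 : ℝ) ≤ -T.ρ z → -T.ρ z ≤ rs lam (k + 1) → ‖z - ν.Ψ ν.q‖ ≤ (kn n + 2) * rs lam k →
    ‖z - (Sy.nx k ν c).Ψ (Sy.nx k ν c).q‖ ≤ (kn n + 2) * rs lam (k + 1) →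
    ‖H ((Sy.nx k ν c).inv z) - H (ν.inv z)‖ ≤ C * A * rs lam k ^ (3 / 10 : ℝ) := by
  have hkn := D1_kn n
  have hTC := T.one_le
  obtain ⟨B, hB⟩ : ∃ B : ℝ, B = 2 * (kn n + 2) := ⟨_, rfl⟩
  have hB0 : 0 ≤ B := by linarith
  obtain ⟨C1, hC1⟩ : ∃ C1 : ℝ, C1 = |Cs| * (1 + B) := ⟨_, rfl⟩
  obtain ⟨C2, hC2⟩ : ∃ C2 : ℝ, C2 = |Cs| * (1 + B + B ^ 2) := ⟨_, rfl⟩
  have hC10 : 0 ≤ C1 := by rw [hC1]; positivity
  have hC20 : 0 ≤ C2 := by rw [hC2]; positivity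
  refine ⟨1 + 16 * T.C * (2 * C2 + 2 * C1), ?_, ?_⟩
  · have : 0 ≤ 16 * T.C * (2 * C2 + 2 * C1) := by positivity
    linarith
  filter_upwards [D1_ev (20 * (kn n + 3)), D1_near T Cs, var_inv T Cs N, dz T Cs, inv_ok T Cs,
    small (10 * (2 * C2 + T.C * C1 ^ 2)) (show (66 / 25 : ℝ) < 3 by norm_num),
    small C1 (show (1 : ℝ) < 11 / 5 by norm_num)]
    with lam h hn hv hdz hi hs1 hs2 sh Sy H A k ν c z hH hA hg hz hlo hup hcen hcen'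
  obtain ⟨hl0, hl1, hl2⟩ := h
  have hr0 := rs_pos hl0 k
  have hrl := rs_le hl0 hl1 k
  have hr10 := rs_pos hl0 (k + 1)
  have hr1l := rs_le hl0 hl1 (k + 1)
  have hanti := rs_anti hl0 hl1 (show k + 1 ≤ k + 1 + 1 by omega)
  have hanti' := rs_anti hl0 hl1 (show k ≤ k + 1 by omega)
  have hg' := Sy.good_nx k ν c hg
  have hlam20 : 20 * (kn n + 3) * lam ≤ 1 := hl2
  obtain ⟨ν', hν'⟩ : ∃ ν' : Nd n, ν' = Sy.nx k ν c := ⟨_, rfl⟩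
  have hest := Sy.est k ν c hg
  have hest' := Sy.est' k ν c hg
  rw [← hν'] at hcen' hg' hest hest' ⊢
  -- the height
  obtain ⟨d, hd⟩ : ∃ d : ℝ, d = -T.ρ z := ⟨_, rfl⟩
  have hd0 : 0 < d := by rw [hd]; linarith
  have hl4 : lam ≤ lam ^ (1 / 4 : ℝ) := by
    conv_lhs => rw [← Real.rpow_one lam]
    exact Real.rpow_le_rpow_of_exponent_ge hl0 hl1 (by norm_num)
  have hZ' : ZZ T lam (k + 1) ν' z := by
    refine ⟨hz, ?_, ?_, ?_⟩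
    · have e1 : rs lam (k + 1 + 1) ^ (11 / 5 : ℝ) ≤ rs lam (k + 1) ^ (11 / 5 : ℝ) :=
        Real.rpow_le_rpow (rs_pos hl0 _).le hanti (by norm_num)
      linarith
    · linarith
    · refine hcen'.trans ?_
      have e1 : 0 ≤ Real.sqrt (-T.ρ z) := Real.sqrt_nonneg _
      nlinarith [mul_nonneg (show (0 : ℝ) ≤ kn n by linarith) e1]
  have hZ : ZZ T lam k ν z := by
    refine ⟨hz, by linarith, by linarith, ?_⟩
    refine hcen.trans ?_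
    have e1 : 0 ≤ Real.sqrt (-T.ρ z) := Real.sqrt_nonneg _
    nlinarith [mul_nonneg (show (0 : ℝ) ≤ kn n by linarith) e1]
  obtain ⟨a1, a2, a3, a4⟩ := hdz sh Sy (k + 1) ν' z hg' hZ'
  obtain ⟨b1, b2, b3, b4⟩ := hdz sh Sy k ν z hg hZ
  have hHz : ‖H (ν.inv z)‖ ≤ A := hA _ (by rw [mem_ball_zero_iff]; exact b2)
  have hA0 : 0 ≤ A := (norm_nonneg _).trans hHz
  -- the distances
  have hsm1 : (kn n + 2) * rs lam (k + 1) ≤ (kn n + 3) * lam :=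
    mul_le_mul (by linarith) hr1l hr10.le (by linarith)
  obtain ⟨-, c2, -, c4, c5, -, -⟩ := hn sh Sy (k + 1) ν' z hg' (by linarith)
  obtain ⟨y, hy⟩ : ∃ y : En n, y = ν'.inv z := ⟨_, rfl⟩
  rw [← hy] at a2 c2 c4 c5 ⊢
  obtain ⟨w, hw⟩ : ∃ w : En n, w = ν'.Ψ y - ν.Ψ y := ⟨_, rfl⟩
  have he := hest y c2
  have he' := hest' y c2
  rw [← hw] at he he'
  obtain ⟨t, ht⟩ : ∃ t : ℝ, t = ‖y - ν'.q‖ := ⟨_, rfl⟩
  have ht0 : 0 ≤ t := by rw [ht]; exact norm_nonneg _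
  rw [← ht] at he he' c5
  obtain ⟨r, hr⟩ : ∃ r : ℝ, r = rs lam k := ⟨_, rfl⟩
  have hr1 : rs lam (k + 1) = r ^ (6 / 5 : ℝ) := by rw [rs_succ hl0, hr]
  obtain ⟨q, hq⟩ : ∃ q : ℝ, q = r ^ (6 / 5 : ℝ) := ⟨_, rfl⟩
  have hlo2 : r ^ (66 / 25 : ℝ) ≤ d := by
    rw [hr1, ← Real.rpow_mul (by rw [hr]; exact hr0.le)] at hlo
    rw [hd]
    refine le_trans (le_of_eq ?_) hlo
    norm_num
  rw [hr1, ← hq] at hcen' hup
  rw [← hd] at hup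
  have hs1k := hs1 k
  have hs2k := hs2 k
  have hxcen0 := hcen
  rw [← hr] at he he' hs1k hs2k hr0 hrl hcen
  rw [← hr]
  have hr1' : r ≤ 1 := by linarith
  have hq0 : 0 < q := by rw [hq]; positivity
  have p3 : r ^ 3 = r ^ (3 : ℝ) := by norm_cast
  have p2 : r ^ 2 = r ^ (2 : ℝ) := by norm_cast
  have p1 : r = r ^ (1 : ℝ) := (Real.rpow_one r).symm
  have htB : t ≤ B * q := by
    rw [hB]
    linarith
  -- powers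
  have m1 : r * q = r ^ (11 / 5 : ℝ) := by
    rw [hq]
    conv_lhs => rw [p1, ← Real.rpow_mul hr0.le, ← Real.rpow_add hr0]
    norm_num
  have m2 : r ^ 3 ≤ r ^ (11 / 5 : ℝ) := by
    rw [p3]
    exact Real.rpow_le_rpow_of_exponent_ge hr0 hr1' (by norm_num)
  have m3 : r ^ 2 * q ≤ r ^ 3 := by
    rw [p2, p3, hq, ← Real.rpow_add hr0]
    exact Real.rpow_le_rpow_of_exponent_ge hr0 hr1' (by norm_num)
  have m4 : r * q ^ 2 ≤ r ^ 3 := by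
    have e1 : r * q ^ 2 = r ^ (17 / 5 : ℝ) := by
      rw [hq, ← Real.rpow_natCast, ← Real.rpow_mul hr0.le]
      conv_lhs => rw [p1, ← Real.rpow_mul hr0.le, ← Real.rpow_add hr0]
      norm_num
    rw [e1, p3]
    exact Real.rpow_le_rpow_of_exponent_ge hr0 hr1' (by norm_num)
  have hCs := le_abs_self Cs
  have w1 : ‖w‖ ≤ C1 * r ^ (11 / 5 : ℝ) := by
    calc ‖w‖ ≤ Cs * (r ^ 3 + r * t) := he
      _ ≤ |Cs| * (r ^ 3 + r * t) := mul_le_mul_of_nonneg_right hCs (by positivity)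
      _ ≤ |Cs| * (r ^ (11 / 5 : ℝ) + B * r ^ (11 / 5 : ℝ)) := by
        refine mul_le_mul_of_nonneg_left ?_ (abs_nonneg _)
        have : r * t ≤ r * (B * q) := mul_le_mul_of_nonneg_left htB hr0.le
        have e2 : r * (B * q) = B * (r * q) := by ring
        rw [e2, m1] at this
        linarith
      _ = C1 * r ^ (11 / 5 : ℝ) := by rw [hC1]; ring
  have w2 : ‖pd T.ρ (ν.Ψ y) w‖ ≤ C2 * r ^ 3 := by
    calc ‖pd T.ρ (ν.Ψ y) w‖ ≤ Cs * (r ^ 3 + r ^ 2 * t + r * t ^ 2) := he'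
      _ ≤ |Cs| * (r ^ 3 + r ^ 2 * t + r * t ^ 2) := mul_le_mul_of_nonneg_right hCs (by positivity)
      _ ≤ |Cs| * (r ^ 3 + B * r ^ 3 + B ^ 2 * r ^ 3) := by
        refine mul_le_mul_of_nonneg_left ?_ (abs_nonneg _)
        have e1 : r ^ 2 * t ≤ B * r ^ 3 := by
          calc r ^ 2 * t ≤ r ^ 2 * (B * q) := mul_le_mul_of_nonneg_left htB (by positivity)
            _ = B * (r ^ 2 * q) := by ring
            _ ≤ B * r ^ 3 := mul_le_mul_of_nonneg_left m3 hB0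
        have e2 : r * t ^ 2 ≤ B ^ 2 * r ^ 3 := by
          calc r * t ^ 2 ≤ r * (B * q) ^ 2 :=
              mul_le_mul_of_nonneg_left (pow_le_pow_left₀ ht0 htB 2) hr0.le
            _ = B ^ 2 * (r * q ^ 2) := by ring
            _ ≤ B ^ 2 * r ^ 3 := mul_le_mul_of_nonneg_left m4 (by positivity)
        linarith
      _ = C2 * r ^ 3 := by rw [hC2]; ring
  obtain ⟨x, hx⟩ : ∃ x : En n, x = ν.Ψ y := ⟨_, rfl⟩
  have hxw : x + w = z := by rw [hx, hw, c4]; abel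
  rw [← hx] at w2
  -- the height of x
  have t1 := taylor_one T x w
  rw [hxw, pd_re] at t1
  have t2 : |2 * (pd T.ρ x w).re| ≤ 2 * (C2 * r ^ 3) := by
    rw [abs_mul, abs_of_pos (by norm_num : (0 : ℝ) < 2)]
    have := (Complex.abs_re_le_norm (pd T.ρ x w)).trans w2
    linarith
  have t3 : T.C * ‖w‖ ^ 2 ≤ T.C * (C1 ^ 2 * r ^ 3) := by
    refine mul_le_mul_of_nonneg_left ?_ (by linarith)
    calc ‖w‖ ^ 2 ≤ (C1 * r ^ (11 / 5 : ℝ)) ^ 2 := pow_le_pow_left₀ (norm_nonneg _) w1 2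
      _ = C1 ^ 2 * (r ^ (11 / 5 : ℝ)) ^ 2 := by ring
      _ ≤ C1 ^ 2 * r ^ 3 := by
        refine mul_le_mul_of_nonneg_left ?_ (by positivity)
        rw [← Real.rpow_natCast, ← Real.rpow_mul hr0.le, p3]
        exact Real.rpow_le_rpow_of_exponent_ge hr0 hr1' (by norm_num)
  rw [← p3] at hs1k
  have t4 : 2 * (C2 * r ^ 3) + T.C * (C1 ^ 2 * r ^ 3) ≤ d / 10 := by
    have : 10 * (2 * C2 + T.C * C1 ^ 2) * r ^ 3 = 10 * (2 * (C2 * r ^ 3) + T.C * (C1 ^ 2 * r ^ 3)) := by ring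
    linarith
  have t5 := abs_le.mp t1
  have t6 := abs_le.mp t2
  have hρz : T.ρ z = -d := by rw [hd]; ring
  have hx1 : 9 / 10 * d ≤ -T.ρ x := by linarith [t5.1, t5.2, t6.1, t6.2]
  have hx2 : -T.ρ x ≤ 11 / 10 * d := by linarith [t5.1, t5.2, t6.1, t6.2]
  rw [Real.rpow_one] at hs2k
  have hqr : q ≤ r := by
    rw [hr, hq, hr, ← rs_succ hl0]
    exact hanti'
  have hxc : ‖x - ν.Ψ ν.q‖ ≤ (kn n + 3) * rs lam k := by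
    rw [← hr]
    have e : x - ν.Ψ ν.q = (z - ν.Ψ ν.q) - w := by rw [← hxw]; abel
    rw [e]
    have := norm_sub_le (z - ν.Ψ ν.q) w
    linarith
  have hv' := hv sh Sy H A k ν x w hH hA hg (by linarith)
    (by linarith) (by rw [← hr]; linarith) hxc (by rw [hxw]; exact hHz)
  rw [hxw] at hv'
  have hinvx : ν.inv x = y := by
    rw [hx]
    exact (hi sh Sy k ν hg).2.1 y c2
  rw [hinvx, norm_sub_rev] at hv'
  refine hv'.trans ?_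
  -- final estimate
  obtain ⟨X, hX⟩ : ∃ X : ℝ, X = r ^ (3 / 10 : ℝ) := ⟨_, rfl⟩
  rw [← hX]
  have hX0 : 0 < X := by rw [hX]; positivity
  have hρx : 0 < -T.ρ x := by linarith
  have u1 : ‖pd T.ρ x w‖ / (-T.ρ x) ≤ 2 * C2 * X := by
    rw [div_le_iff₀ hρx]
    have e1 : r ^ 3 ≤ X * r ^ (66 / 25 : ℝ) := by
      rw [hX, ← Real.rpow_add hr0, p3]
      exact Real.rpow_le_rpow_of_exponent_ge hr0 hr1' (by norm_num)
    have e2 : X * r ^ (66 / 25 : ℝ) ≤ X * d := mul_le_mul_of_nonneg_left hlo2 hX0.le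
    have e3 : C2 * r ^ 3 ≤ C2 * (X * d) := mul_le_mul_of_nonneg_left (e1.trans e2) hC20
    have e4 : 2 * C2 * X * (9 / 10 * d) ≤ 2 * C2 * X * (-T.ρ x) :=
      mul_le_mul_of_nonneg_left hx1 (by positivity)
    have e5 : 0 ≤ C2 * (X * d) := by positivity
    have e6 : 2 * C2 * X * (9 / 10 * d) = 9 / 5 * (C2 * (X * d)) := by ring
    linarith
  have u2 : ‖w‖ / Real.sqrt (-T.ρ x) ≤ 2 * C1 * X := by
    have hsq : 0 < Real.sqrt (-T.ρ x) := Real.sqrt_pos.mpr hρx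
    rw [div_le_iff₀ hsq]
    have e1 : r ^ (33 / 25 : ℝ) ≤ 2 * Real.sqrt (-T.ρ x) := by
      have e2 : Real.sqrt (r ^ (66 / 25 : ℝ)) ≤ Real.sqrt (2 ^ 2 * (-T.ρ x)) := Real.sqrt_le_sqrt (by linarith)
      rw [Real.sqrt_mul (by norm_num), Real.sqrt_sq (by norm_num)] at e2
      have e3 : Real.sqrt (r ^ (66 / 25 : ℝ)) = r ^ (33 / 25 : ℝ) := by
        rw [Real.sqrt_eq_rpow, ← Real.rpow_mul hr0.le]
        norm_num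
      rw [e3] at e2
      exact e2
    have e4 : r ^ (11 / 5 : ℝ) ≤ X * r ^ (33 / 25 : ℝ) := by
      rw [hX, ← Real.rpow_add hr0]
      exact Real.rpow_le_rpow_of_exponent_ge hr0 hr1' (by norm_num)
    have e5 : X * r ^ (33 / 25 : ℝ) ≤ X * (2 * Real.sqrt (-T.ρ x)) := mul_le_mul_of_nonneg_left e1 hX0.le
    have e6 := mul_le_mul_of_nonneg_left (e4.trans e5) hC10
    refine w1.trans (e6.trans (le_of_eq ?_))
    ring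
  have u3 := mul_le_mul_of_nonneg_left (add_le_add u1 u2) (show 0 ≤ 16 * T.C * A by positivity)
  refine u3.trans ?_
  have u4 : 0 ≤ A * X := mul_nonneg hA0 hX0.le
  have u5 : (1 + 16 * T.C * (2 * C2 + 2 * C1)) * A * X = A * X + 16 * T.C * A * (2 * C2 * X + 2 * C1 * X) := by ring
  linarith

end Pool.Agent.MPca0fc2.EQ
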