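import Pool.Agent.Lib.MP_ca0fc2_an.EQ.D1
import Pool.Agent.Lib.MP_ca0fc2_an.Mg.G082

/-! Campaign EQ, task D2: the chains of maps on the domain, bounds and variation of the transplanted solution. -/

set_option autoImplicit false

open Metric Set Filter Topology

namespace Pool.Agent.MPca0fc2.EQ

open Pool.Agent.MPca0fc2.TB (En)

variable {n N : ℕ}

private theorem D2_kn (n : ℕ) : 4 ≤ kn n := by
  unfold kn
  have : (0 : ℝ) ≤ n := Nat.cast_nonneg n
  linarith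

private theorem D2_rT {lam : ℝ} (hl : 0 < lam) (hl1 : lam ≤ 1) (k : ℕ) :
    rs lam (k + 1) ^ (11 / 5 : ℝ) ≤ Ts lam (k + 1) := by
  unfold Ts
  exact Real.rpow_le_rpow_of_exponent_ge (rs_pos hl _) ((rs_le hl hl1 _).trans hl1) (by norm_num)

private theorem D2_rho (T : Tg n) (Cs : ℝ) : ∀ᶠ lam in 𝓝[>] (0 : ℝ), ∀ (sh : ℕ → ℝ) (Sy : Sys T Cs lam sh) (k : ℕ)
    (ν : Nd n) (z z' : En n), Sy.Good k ν → ‖z - ν.Ψ ν.q‖ ≤ kn n * rs lam k → 160 * ‖z - z'‖ ≤ lam →
    |T.ρ z - T.ρ z'| ≤ 3 * ‖z - z'‖ := by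
  have hC := T.one_le
  have hkn : 4 ≤ kn n := D2_kn n
  filter_upwards [ineqs (1 + T.C * (kn n + 2 * |Cs| + 1))] with lam hin sh Sy k ν z z' hg hcen hΔ
  obtain ⟨hl, hKl, -⟩ := hin
  have hcs0 : 0 ≤ |Cs| := abs_nonneg _
  have hX : 0 ≤ T.C * (kn n + 2 * |Cs| + 1) := by
    have : 0 ≤ kn n + 2 * |Cs| + 1 := by linarith
    positivity
  have hX2 : T.C * (kn n + 2 * |Cs| + 1) * lam ≤ 1 := by nlinarith
  have hl1 : lam ≤ 1 := by nlinarith
  have hq1 := Sy.q1 k ν hg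
  have h1 : ‖ν.Ψ ν.q - ν.q‖ ≤ |Cs| * lam :=
    (Sy.nid k ν hg ν.q (by rw [hq1]; norm_num)).trans
      (mul_le_mul_of_nonneg_right (le_abs_self _) hl.le)
  have h2 : ‖ν.q - T.e‖ ≤ |Cs| * lam :=
    (Sy.qe k ν hg).trans (mul_le_mul_of_nonneg_right (le_abs_self _) hl.le)
  have h3 : ‖z - T.e‖ ≤ (kn n + 2 * |Cs|) * lam := by
    have t1 := norm_add_le (z - ν.Ψ ν.q) (ν.Ψ ν.q - ν.q)
    have t2 := norm_add_le (z - ν.Ψ ν.q + (ν.Ψ ν.q - ν.q)) (ν.q - T.e)
    have t3 : z - ν.Ψ ν.q + (ν.Ψ ν.q - ν.q) + (ν.q - T.e) = z - T.e := by abel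
    rw [t3] at t2
    have t4 : kn n * rs lam k ≤ kn n * lam :=
      mul_le_mul_of_nonneg_left (rs_le hl hl1 k) (by linarith)
    linarith
  have h4 := taylor_one T z (z' - z)
  rw [add_sub_cancel] at h4
  have h5 : |fderiv ℝ T.ρ z (z' - z)| ≤ (2 + T.C * ‖z - T.e‖) * ‖z' - z‖ := by
    rw [← Real.norm_eq_abs]
    refine ((fderiv ℝ T.ρ z).le_opNorm _).trans ?_
    exact mul_le_mul_of_nonneg_right (fd_le T z) (norm_nonneg _)
  rw [norm_sub_rev z' z] at h4 h5
  set Δ := ‖z - z'‖ with hΔdef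
  have hΔ0 : 0 ≤ Δ := norm_nonneg _
  have h6 : T.C * ‖z - T.e‖ ≤ T.C * ((kn n + 2 * |Cs|) * lam) :=
    mul_le_mul_of_nonneg_left h3 (by linarith)
  have h7 : T.C * Δ ≤ T.C * lam := mul_le_mul_of_nonneg_left (by linarith) (by linarith)
  have h8 : T.C * ‖z - T.e‖ + T.C * Δ ≤ 1 := by
    have : T.C * ((kn n + 2 * |Cs|) * lam) + T.C * lam = T.C * (kn n + 2 * |Cs| + 1) * lam := by ring
    linarith
  have h9 : (2 + T.C * ‖z - T.e‖) * Δ + T.C * Δ ^ 2 ≤ 3 * Δ := by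
    have : (2 + T.C * ‖z - T.e‖) * Δ + T.C * Δ ^ 2 = 2 * Δ + (T.C * ‖z - T.e‖ + T.C * Δ) * Δ := by ring
    have h10 := mul_le_mul_of_nonneg_right h8 hΔ0
    linarith
  rw [abs_le] at h4 h5 ⊢
  constructor <;> linarith [h4.1, h4.2, h5.1, h5.2]

/-- One step of the chain, away from the walls.
PROOF. `y = ν.inv z`, `a = rad y`: by `dz0` `|1 - ‖y‖| ≤ 4 Ts (k+1) + C rs k ^ 3 ≤ 5 Ts (k+1)`, `‖y - a‖ = |1 - ‖y‖|`, so `‖ν.Ψ a - z‖ ≤ 2 ‖a - y‖ ≤ 10 Ts (k+1) ≤ es (k+1) rs (k+1)` (`ineqs`), and `ck (ν.Ψ a) = ck z` by `cell_eq` (`‖..‖ < rs * wk z`, `wk z ≥ 4 es`).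
`‖a - ν.q‖ ≤ ‖a - y‖ + ‖y - ν.q‖ ≤ small + (1 + 2 Cs lam) kn rs k ≤ (kn + 1) rs k`: `Sy.cen` for `a`: `‖a - ν'.q‖ ≤ kn/2 rs (k+1)`, `ν' = nx k ν (ck z)`. Then `‖z - ν'.Ψ ν'.q‖ ≤ ‖z - ν.Ψ a‖ + ‖ν.Ψ a - ν'.Ψ a‖ + ‖ν'.Ψ a - ν'.Ψ ν'.q‖ ≤ es rs (k+1) + C (rs k ^ 3 + rs k rs (k+1)) + (1 + Cs lam) kn/2 rs (k+1) ≤ kn rs (k+1)`
(`kn ≥ 4`; `es ≤ 1/10`; `ineqs`). Last part: `cell_eq` and `wd_lip`: `wk (ν.Ψ (rad y')) ≥ 4 es - es = 3 es`, `chi_far`. -/
theorem dch (T : Tg n) (Cs : ℝ) : ∀ᶠ lam in 𝓝[>] (0 : ℝ), ∀ (sh : ℕ → ℝ) (Sy : Sys T Cs lam sh) (k : ℕ) (ν : Nd n) (z : En n), Sy.Good k ν → T.ρ z < 0 →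
    -T.ρ z < 2 * Ts lam (k + 1) → 4 * es lam (k + 1) ≤ wk lam sh (k + 1) z → ‖z - ν.Ψ ν.q‖ ≤ kn n * rs lam k →
    ‖z - (Sy.nx k ν (ck lam sh (k + 1) z)).Ψ (Sy.nx k ν (ck lam sh (k + 1) z)).q‖ ≤ kn n * rs lam (k + 1) ∧
    Sy.Good (k + 1) (Sy.nx k ν (ck lam sh (k + 1) z)) ∧
    ∀ y, ‖ν.Ψ (rad y) - z‖ ≤ es lam (k + 1) * rs lam (k + 1) → nn lam sh Sy.nx k ν y = Sy.nx k ν (ck lam sh (k + 1) z) ∧
      cw lam sh k ν y = 1 ∧ sw lam sh k ν y = 0 := by
  obtain ⟨C, hC1, hC⟩ := dz0 T Cs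
  have hkn : 4 ≤ kn n := D2_kn n
  have hcs0 : 0 ≤ |Cs| := abs_nonneg _
  have hcs : Cs ≤ |Cs| := le_abs_self _
  have hsk : 0 ≤ |Cs| * kn n := mul_nonneg hcs0 (by linarith)
  obtain ⟨K, hK⟩ : ∃ K : ℝ, K = 100 + C + 4 * |Cs| * (kn n + 4) := ⟨_, rfl⟩
  have hK100 : 100 ≤ K := by linarith [mul_add (4 * |Cs|) (kn n) 4]
  have hKC : C ≤ K := by linarith [mul_add (4 * |Cs|) (kn n) 4]
  have hKs : 4 * |Cs| * (kn n + 4) ≤ K := by linarith
  have hKs1 : |Cs| ≤ K := by linarith [mul_add (4 * |Cs|) (kn n) 4]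
  have up : ∀ c X Y : ℝ, c ≤ K → 0 ≤ X → K * X ≤ Y → c * X ≤ Y :=
    fun c X Y h h0 h1 => (mul_le_mul_of_nonneg_right h h0).trans h1
  filter_upwards [ineqs K, inv_ok T Cs, hC] with lam hin hinv hdz sh Sy k ν z hg hρ hlt hw hcen
  obtain ⟨hl, hKl, hin⟩ := hin
  obtain ⟨h1, h2, h3, h4, -, -, h7, -, -, -⟩ := hin k
  have h8 := (hin (k + 1)).2.2.2.2.2.2.2.1
  have hrk := rs_pos hl k
  have hrk1 := rs_pos hl (k + 1)
  have hts := ts_pos hl (k + 1)
  have hTs := Ts_pos hl (k + 1)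
  have hes := es_pos hl (k + 1)
  have hl100 : 100 * lam ≤ 1 := up _ _ _ hK100 hl.le hKl
  have hl1 : lam ≤ 1 := by linarith
  have hrkl := rs_le hl hl1 k
  have hX0 : 0 ≤ |Cs| * lam := mul_nonneg hcs0 hl.le
  have hX1 : |Cs| * lam * kn n ≤ 1 / 4 := by
    have e1 := up _ _ _ hKs hl.le hKl
    have e2 : 4 * |Cs| * (kn n + 4) * lam = 4 * (|Cs| * lam * kn n) + 16 * (|Cs| * lam) := by ring
    linarith
  have hX2 : |Cs| * lam ≤ 1 / 16 := by
    have e1 : |Cs| * lam * 4 ≤ |Cs| * lam * kn n := mul_le_mul_of_nonneg_left hkn hX0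
    linarith
  have hX3 : Cs * lam ≤ |Cs| * lam := mul_le_mul_of_nonneg_right hcs hl.le
  obtain ⟨hi1, hi2, hi3, hi4, -⟩ := hinv sh Sy k ν hg
  obtain ⟨hz2, hdz1⟩ := hdz sh Sy k ν z hg hρ (by linarith [add_mul (kn n) 1 (rs lam k)])
  obtain ⟨hy3, hyz, -⟩ := hi1 z (by linarith)
  set y0 := ν.inv z with hy0
  have hr3 : C * rs lam k ^ 3 ≤ ts lam (k + 1) := up _ _ _ hKC (by positivity) h1
  have hr3' : |Cs| * rs lam k ^ 3 ≤ ts lam (k + 1) := up _ _ _ hKs1 (by positivity) h1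
  have htT : 100 * ts lam (k + 1) ≤ Ts lam (k + 1) := up _ _ _ hK100 hts.le h2
  have hTr : 100 * Ts lam (k + 1) ≤ rs lam (k + 1) := up _ _ _ hK100 hTs.le h7
  have hTer : 100 * Ts lam (k + 1) ≤ es lam (k + 1) * rs lam (k + 1) := up _ _ _ hK100 hTs.le h3
  have hrr : 4 * |Cs| * (kn n + 4) * (rs lam k * rs lam (k + 1)) ≤ es lam (k + 1) * rs lam (k + 1) :=
    up _ _ _ hKs (by positivity) h4
  have hes1 : 100 * es lam (k + 1) ≤ 1 := up _ _ _ hK100 hes.le h8
  have hrs1 : rs lam (k + 1) ≤ rs lam k := rs_anti hl hl1 (Nat.le_succ k)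
  have hy1 : |1 - ‖y0‖| ≤ 5 * Ts lam (k + 1) := by linarith
  have hrk1l : rs lam (k + 1) ≤ lam := rs_le hl hl1 _
  have hy0pos : 0 < ‖y0‖ := by
    have := (abs_le.1 hy1).2
    linarith
  have hy02 : ‖y0‖ ≤ 2 := by
    have := (abs_le.1 hy1).1
    linarith
  set a := rad y0 with ha
  have ha1 : ‖a‖ = 1 := by
    rw [ha]
    unfold rad
    rw [norm_smul, norm_inv, norm_norm, inv_mul_cancel₀ hy0pos.ne']
  have hay : ‖a - y0‖ ≤ 5 * Ts lam (k + 1) := by
    have e1 : a - y0 = (‖y0‖⁻¹ - 1) • y0 := by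
      rw [ha]
      unfold rad
      rw [sub_smul, one_smul]
    have e2 : (‖y0‖⁻¹ - 1) * ‖y0‖ = 1 - ‖y0‖ := by
      rw [sub_mul, inv_mul_cancel₀ hy0pos.ne', one_mul]
    rw [e1, norm_smul, Real.norm_eq_abs]
    calc |‖y0‖⁻¹ - 1| * ‖y0‖ = |(‖y0‖⁻¹ - 1) * ‖y0‖| := by
          rw [abs_mul, abs_of_pos hy0pos]
      _ = |1 - ‖y0‖| := by rw [e2]
      _ ≤ _ := hy1
  have hq1 := Sy.q1 k ν hg
  have hΨa : ‖ν.Ψ a - z‖ ≤ 10 * Ts lam (k + 1) := by
    have e1 := (hi3 a y0 (by rw [ha1]; norm_num) (by linarith)).1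
    rw [hyz] at e1
    refine e1.trans ?_
    calc (1 + Cs * lam) * ‖a - y0‖ ≤ 2 * ‖a - y0‖ :=
          mul_le_mul_of_nonneg_right (by linarith) (norm_nonneg _)
      _ ≤ 2 * (5 * Ts lam (k + 1)) := by linarith
      _ = 10 * Ts lam (k + 1) := by ring
  have hcell : ∀ x, ‖x - z‖ ≤ es lam (k + 1) * rs lam (k + 1) → ck lam sh (k + 1) x = ck lam sh (k + 1) z := by
    intro x hx
    unfold ck
    symm
    apply cell_eq hrk1
    rw [norm_sub_rev]
    refine lt_of_le_of_lt hx ?_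
    have e1 : es lam (k + 1) < wk lam sh (k + 1) z := by linarith
    rw [mul_comm]
    exact mul_lt_mul_of_pos_left e1 hrk1
  have hcellA : ck lam sh (k + 1) (ν.Ψ a) = ck lam sh (k + 1) z := hcell _ (by linarith)
  have haq : ‖a - ν.q‖ ≤ (kn n + 1) * rs lam k := by
    have e1 := (hi3 y0 ν.q (by linarith) (by rw [hq1]; norm_num)).2
    rw [hyz] at e1
    have e2 : ‖a - ν.q‖ ≤ ‖a - y0‖ + ‖y0 - ν.q‖ := by
      have := norm_add_le (a - y0) (y0 - ν.q)
      rwa [sub_add_sub_cancel] at this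
    have e3 : (1 + 2 * Cs * lam) * ‖z - ν.Ψ ν.q‖ ≤ (1 + 2 * |Cs| * lam) * (kn n * rs lam k) := by
      apply mul_le_mul _ hcen (norm_nonneg _) (by linarith)
      linarith
    have e4 : |Cs| * lam * kn n * rs lam k ≤ 1 / 4 * rs lam k :=
      mul_le_mul_of_nonneg_right hX1 hrk.le
    have e5 : (1 + 2 * |Cs| * lam) * (kn n * rs lam k) =
        kn n * rs lam k + 2 * (|Cs| * lam * kn n * rs lam k) := by ring
    linarith [add_mul (kn n) 1 (rs lam k)]
  have hgood := Sy.good_nx k ν (ck lam sh (k + 1) z) hg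
  have hcenA := Sy.cen k ν a hg ha1 haq
  have e0 : cell (rs lam (k + 1)) (sh (k + 1)) (ν.Ψ a) = ck lam sh (k + 1) z := hcellA
  rw [e0] at hcenA
  refine ⟨?_, hgood, ?_⟩
  · set ν' := Sy.nx k ν (ck lam sh (k + 1) z) with hν'
    have e1 : ‖z - ν'.Ψ ν'.q‖ ≤ ‖z - ν.Ψ a‖ + ‖ν.Ψ a - ν'.Ψ a‖ + ‖ν'.Ψ a - ν'.Ψ ν'.q‖ := by
      have t1 := norm_add_le (z - ν.Ψ a) (ν.Ψ a - ν'.Ψ a)
      have t2 := norm_add_le (z - ν.Ψ a + (ν.Ψ a - ν'.Ψ a)) (ν'.Ψ a - ν'.Ψ ν'.q)
      have t3 : z - ν.Ψ a + (ν.Ψ a - ν'.Ψ a) + (ν'.Ψ a - ν'.Ψ ν'.q) = z - ν'.Ψ ν'.q := by abel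
      rw [t3] at t2
      linarith
    have e2 := Sy.est k ν (ck lam sh (k + 1) z) hg a (by rw [ha1]; norm_num)
    rw [← hν'] at e2
    have e3 : Cs * (rs lam k ^ 3 + rs lam k * ‖a - ν'.q‖) ≤
        |Cs| * (rs lam k ^ 3 + rs lam k * (kn n / 2 * rs lam (k + 1))) := by
      apply mul_le_mul hcs _ (by positivity) hcs0
      have := mul_le_mul_of_nonneg_left hcenA hrk.le
      linarith
    have e4 : |Cs| * (rs lam k ^ 3 + rs lam k * (kn n / 2 * rs lam (k + 1))) =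
        |Cs| * rs lam k ^ 3 + |Cs| * (kn n / 2) * (rs lam k * rs lam (k + 1)) := by ring
    have e5 : |Cs| * (kn n / 2) * (rs lam k * rs lam (k + 1)) ≤
        4 * |Cs| * (kn n + 4) * (rs lam k * rs lam (k + 1)) := by
      apply mul_le_mul_of_nonneg_right _ (by positivity)
      linarith [mul_add (4 * |Cs|) (kn n) 4]
    have hq1' := Sy.q1 (k + 1) ν' hgood
    have e6 := ((hinv sh Sy (k + 1) ν' hgood).2.2.1 a ν'.q (by rw [ha1]; norm_num)
      (by rw [hq1']; norm_num)).1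
    have e7 : (1 + Cs * lam) * ‖a - ν'.q‖ ≤ (1 + |Cs| * lam) * (kn n / 2 * rs lam (k + 1)) := by
      apply mul_le_mul _ hcenA (norm_nonneg _) (by linarith)
      linarith
    have e8 : |Cs| * lam * kn n * rs lam (k + 1) ≤ 1 / 4 * rs lam (k + 1) :=
      mul_le_mul_of_nonneg_right hX1 hrk1.le
    have e8' : (1 + |Cs| * lam) * (kn n / 2 * rs lam (k + 1)) =
        kn n * rs lam (k + 1) / 2 + |Cs| * lam * kn n * rs lam (k + 1) / 2 := by ring
    have e9 : 100 * es lam (k + 1) * rs lam (k + 1) ≤ 1 * rs lam (k + 1) :=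
      mul_le_mul_of_nonneg_right hes1 hrk1.le
    have e10 : 4 * rs lam (k + 1) ≤ kn n * rs lam (k + 1) := mul_le_mul_of_nonneg_right hkn hrk1.le
    rw [norm_sub_rev] at hΨa
    rw [norm_sub_rev] at e2
    linarith
  · intro y hy
    have e1 := hcell _ hy
    have hwy : 3 * es lam (k + 1) ≤ wk lam sh (k + 1) (ν.Ψ (rad y)) := by
      have t1 := wd_lip hrk1 (sh (k + 1)) z (ν.Ψ (rad y))
      have t2 : ‖z - ν.Ψ (rad y)‖ / rs lam (k + 1) ≤ es lam (k + 1) := by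
        rw [div_le_iff₀ hrk1, norm_sub_rev]
        exact hy
      have t3 := (abs_le.1 t1).2
      unfold wk at hw ⊢
      linarith
    obtain ⟨c1, c2⟩ := chi_far hes hwy
    refine ⟨?_, c1, ?_⟩
    · unfold nn
      rw [e1]
    · unfold sw
      rw [c2]
      ring

/-- PROOF. `dch`; `4 (-ρ z) ≤ 8 Ts (k+1) ≤ rs (k+1)`; `k + 1 + m + 1 = k + (m + 1) + 1`. -/
theorem dv_next (T : Tg n) (Cs : ℝ) : ∀ᶠ lam in 𝓝[>] (0 : ℝ), ∀ (sh : ℕ → ℝ) (Sy : Sys T Cs lam sh) (m k : ℕ) (ν : Nd n) (z : En n), Sy.Good k ν →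
    DV T lam sh (m + 1) k ν z → -T.ρ z < 2 * Ts lam (k + 1) →
    DV T lam sh m (k + 1) (Sy.nx k ν (ck lam sh (k + 1) z)) z ∧ Sy.Good (k + 1) (Sy.nx k ν (ck lam sh (k + 1) z)) := by
  filter_upwards [dch T Cs, ineqs 8] with lam hd hin sh Sy m k ν z hg hz hlt
  obtain ⟨hl, hKl, hin⟩ := hin
  obtain ⟨-, -, -, -, -, -, h7, -, -, -⟩ := hin k
  obtain ⟨e1, e2, -⟩ := hd sh Sy k ν z hg hz.lt hlt (hz.leg (k + 1) (by omega) (by omega) hlt) hz.cen
  refine ⟨⟨hz.lt, ?_, ?_, e1, ?_⟩, e2⟩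
  · linarith
  · have := hz.lo
    rw [show k + (m + 1) + 1 = k + 1 + m + 1 by ring] at this
    exact this
  · intro l h1 h2 h3
    exact hz.leg l (by omega) (by omega) h3

/-- PROOF. `up`: `rs k ≤ lam ≤ lam ^ (1/4)`. -/
theorem dv_zz (T : Tg n) : ∀ᶠ lam in 𝓝[>] (0 : ℝ), ∀ (sh : ℕ → ℝ) (m k : ℕ) (ν : Nd n) (z : En n), DV T lam sh m k ν z →
    rs lam (k + 1) ^ (11 / 5 : ℝ) ≤ 4 * (-T.ρ z) → ZZ T lam k ν z := by
  filter_upwards [ev_lt (a := 1) one_pos] with lam hl sh m k ν z hz hlo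
  obtain ⟨hl, hl1⟩ := hl
  have hkn : 4 ≤ kn n := D2_kn n
  have hrk := rs_pos hl k
  have hrkl := rs_le hl hl1.le k
  refine ⟨hz.lt, hlo, ?_, ?_⟩
  · have e1 : lam ^ (1 : ℝ) ≤ lam ^ (1 / 4 : ℝ) :=
      Real.rpow_le_rpow_of_exponent_ge hl hl1.le (by norm_num)
    rw [Real.rpow_one] at e1
    have e2 := hz.up
    have e3 := hz.lt
    linarith
  · refine hz.cen.trans ?_
    have e1 : 0 ≤ Real.sqrt (-T.ρ z) := Real.sqrt_nonneg _
    apply mul_le_mul (by linarith) (by linarith) hrk.le (by linarith)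

/-- PROOF. `-ρ z ≥ Ts k` gives `Yc = ..`: `Yc T lam k z = 0` if `-ρ z ≥ 2 Ts k`, `= 1` if `-ρ z ≤ Ts k`; `|Yc z - Yc z'| ≤ |ρ z - ρ z'| / Ts k`. Same for `Vc` with `2 Ts k`. -/
theorem yv_facts (T : Tg n) {lam : ℝ} (h : 0 < lam) (k : ℕ) (z z' : En n) : (0 ≤ Yc T lam k z ∧ Yc T lam k z ≤ 1) ∧ (0 ≤ Vc T lam k z ∧ Vc T lam k z ≤ 1) ∧
    (2 * Ts lam k ≤ -T.ρ z → Yc T lam k z = 0) ∧ (-T.ρ z ≤ Ts lam k → Yc T lam k z = 1) ∧
    (4 * Ts lam k ≤ -T.ρ z → Vc T lam k z = 0) ∧ (-T.ρ z ≤ 2 * Ts lam k → Vc T lam k z = 1) ∧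
    |Yc T lam k z - Yc T lam k z'| ≤ |T.ρ z - T.ρ z'| / Ts lam k ∧ |Vc T lam k z - Vc T lam k z'| ≤ |T.ρ z - T.ρ z'| / (2 * Ts lam k) := by
  have hT := Ts_pos h k
  refine ⟨⟨clp_nonneg _, clp_le_one _⟩, ⟨clp_nonneg _, clp_le_one _⟩, ?_, ?_, ?_, ?_, ?_, ?_⟩
  · intro h1
    apply clp_zero
    have : T.ρ z / Ts lam k ≤ -2 := by
      rw [div_le_iff₀ hT]
      linarith
    linarith
  · intro h1
    apply clp_one
    have : -1 ≤ T.ρ z / Ts lam k := by
      rw [le_div_iff₀ hT]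
      linarith
    linarith
  · intro h1
    apply clp_zero
    have : T.ρ z / (2 * Ts lam k) ≤ -2 := by
      rw [div_le_iff₀ (by linarith)]
      linarith
    linarith
  · intro h1
    apply clp_one
    have : -1 ≤ T.ρ z / (2 * Ts lam k) := by
      rw [le_div_iff₀ (by linarith)]
      linarith
    linarith
  · unfold Yc
    refine (clp_lip _ _).trans (le_of_eq ?_)
    rw [add_sub_add_left_eq_sub, ← sub_div, abs_div, abs_of_pos hT]
  · unfold Vc
    refine (clp_lip _ _).trans (le_of_eq ?_)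
    rw [add_sub_add_left_eq_sub, ← sub_div, abs_div, abs_of_pos (by linarith : 0 < 2 * Ts lam k)]

/-- The transplanted solution is bounded.
PROOF. Induction on `m`. `H (ν.inv z)` is bounded by `A` if `rs (k+1) ^ 2.2 ≤ 4 (-ρ z)` (`dv_zz`, `dz`). `m = 0`: `Ts (k+1) ≤ -ρ z` and `rs (k+1) ^ 2.2 ≤ Ts (k+1)`. `m + 1`: if `1 - Yc ≠ 0` then `-ρ z > Ts (k+1)`; if `Yc ≠ 0` then `-ρ z < 2 Ts (k+1)`: `dv_next`. Convexity. -/
theorem hz_bd (T : Tg n) (Cs : ℝ) (N : ℕ) : ∀ᶠ lam in 𝓝[>] (0 : ℝ), ∀ (sh : ℕ → ℝ) (Sy : Sys T Cs lam sh) (H : En n → En N) (A : ℝ) (m k : ℕ) (ν : Nd n) (z : En n),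
    (∀ y ∈ ball (0 : En n) 1, ‖H y‖ ≤ A) → Sy.Good k ν → DV T lam sh m k ν z → ‖Hz T lam sh Sy.nx H m k ν z‖ ≤ A := by
  filter_upwards [ev_lt (a := 1) one_pos, dv_next T Cs, dv_zz T, dz T Cs] with lam hl hdv hzz hdz sh Sy H A m
  obtain ⟨hl, hl1⟩ := hl
  induction m with
  | zero =>
    intro k ν z hH hg hz
    have h1 := D2_rT hl hl1.le k
    have h2 := hz.lo
    have h3 := hz.lt
    rw [show k + 0 + 1 = k + 1 by ring] at h2
    have h4 := (hdz sh Sy k ν z hg (hzz sh 0 k ν z hz (by linarith))).2.1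
    exact hH _ (mem_ball_zero_iff.2 h4)
  | succ m ih =>
    intro k ν z hH hg hz
    obtain ⟨⟨hY0, hY1⟩, -, hYa, hYb, -⟩ := yv_facts T hl (k + 1) z z
    have hA : ∀ v : En N, ‖v‖ ≤ A → (1 - Yc T lam (k + 1) z) * ‖v‖ ≤ (1 - Yc T lam (k + 1) z) * A :=
      fun v hv => mul_le_mul_of_nonneg_left hv (by linarith)
    have h1 : ‖(1 - Yc T lam (k + 1) z) • H (ν.inv z)‖ ≤ (1 - Yc T lam (k + 1) z) * A := by
      rw [norm_smul, Real.norm_eq_abs, abs_of_nonneg (by linarith)]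
      rcases hY1.lt_or_eq with h | h
      · apply hA
        have h2 : Ts lam (k + 1) < -T.ρ z := by
          by_contra hc
          rw [hYb (not_lt.1 hc)] at h
          exact lt_irrefl _ h
        have h3 := D2_rT hl hl1.le k
        have h4 := hz.lt
        have h5 := (hdz sh Sy k ν z hg (hzz sh (m + 1) k ν z hz (by linarith))).2.1
        exact hH _ (mem_ball_zero_iff.2 h5)
      · rw [h]
        simp
    have h2 : ‖Yc T lam (k + 1) z • Hz T lam sh Sy.nx H m (k + 1) (Sy.nx k ν (ck lam sh (k + 1) z)) z‖ ≤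
        Yc T lam (k + 1) z * A := by
      rw [norm_smul, Real.norm_eq_abs, abs_of_nonneg hY0]
      rcases hY0.lt_or_eq with h | h
      · apply mul_le_mul_of_nonneg_left _ hY0
        have h3 : -T.ρ z < 2 * Ts lam (k + 1) := by
          by_contra hc
          rw [hYa (not_lt.1 hc)] at h
          exact lt_irrefl _ h
        obtain ⟨h4, h5⟩ := hdv sh Sy m k ν z hg hz h3
        exact ih (k + 1) _ z hH h5 h4
      · rw [← h]
        simp
    change ‖(1 - Yc T lam (k + 1) z) • H (ν.inv z) + Yc T lam (k + 1) z •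
      Hz T lam sh Sy.nx H m (k + 1) (Sy.nx k ν (ck lam sh (k + 1) z)) z‖ ≤ A
    refine (norm_add_le _ _).trans ((add_le_add h1 h2).trans (le_of_eq ?_))
    ring

/-- The transplanted solution is near the one with the first map, at large heights.
PROOF. `m = 0`: equality. `m + 1`: if `-ρ z ≥ 2 Ts (k+1)`: `Yc = 0`, equality. Otherwise `dv_next`: `ν'`, and `Hz m (k+1) ν' z = H (ν'.inv z)`: `m = 0` clear, else `Yc (k+2) z = 0` as `-ρ z ≥ rs (k+1) ^ 2.2 ≥ 2 Ts (k+2)` (`ineqs`). So `Hz (m+1) - H (ν.inv z) = Yc (H (ν'.inv z) - H (ν.inv z))`: `mm_inv`. -/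
theorem hz_cl (T : Tg n) (Cs : ℝ) (N : ℕ) : ∃ C : ℝ, 1 ≤ C ∧ ∀ᶠ lam in 𝓝[>] (0 : ℝ), ∀ (sh : ℕ → ℝ) (Sy : Sys T Cs lam sh) (H : En n → En N) (A : ℝ) (m k : ℕ) (ν : Nd n) (z : En n),
    0 ≤ A → DifferentiableOn ℂ H (ball 0 1) → (∀ y ∈ ball (0 : En n) 1, ‖H y‖ ≤ A) → Sy.Good k ν → DV T lam sh m k ν z → rs lam (k + 1) ^ (11 / 5 : ℝ) ≤ -T.ρ z →
    ‖Hz T lam sh Sy.nx H m k ν z - H (ν.inv z)‖ ≤ C * A * rs lam k ^ (3 / 10 : ℝ) := by
  obtain ⟨C, hC1, hC⟩ := mm_inv T Cs N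
  refine ⟨C, hC1, ?_⟩
  filter_upwards [ineqs 2, dv_next T Cs, hC] with lam hin hdv hmm sh Sy H A m k ν z hA hH hHb hg hz hlo
  obtain ⟨hl, hKl, hin⟩ := hin
  have hrk := rs_pos hl k
  have hR : 0 ≤ C * A * rs lam k ^ (3 / 10 : ℝ) := by
    have := Real.rpow_nonneg hrk.le (3 / 10 : ℝ)
    positivity
  cases m with
  | zero =>
    change ‖H (ν.inv z) - H (ν.inv z)‖ ≤ _
    rw [sub_self, norm_zero]
    exact hR
  | succ m =>
    obtain ⟨⟨hY0, hY1⟩, -, hYa, -, -⟩ := yv_facts T hl (k + 1) z z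
    change ‖(1 - Yc T lam (k + 1) z) • H (ν.inv z) + Yc T lam (k + 1) z •
      Hz T lam sh Sy.nx H m (k + 1) (Sy.nx k ν (ck lam sh (k + 1) z)) z - H (ν.inv z)‖ ≤ _
    rcases le_or_gt (2 * Ts lam (k + 1)) (-T.ρ z) with hcase | hcase
    · rw [hYa hcase]
      simp only [sub_zero, one_smul, zero_smul, add_zero, sub_self, norm_zero]
      exact hR
    · obtain ⟨h1, h2⟩ := hdv sh Sy m k ν z hg hz hcase
      set ν' := Sy.nx k ν (ck lam sh (k + 1) z) with hν'
      have h3 : Hz T lam sh Sy.nx H m (k + 1) ν' z = H (ν'.inv z) := by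
        cases m with
        | zero => rfl
        | succ m =>
          obtain ⟨-, -, hYa', -, -⟩ := yv_facts T hl (k + 1 + 1) z z
          have h6 := (hin k).2.2.2.2.2.1
          have h7 : Yc T lam (k + 1 + 1) z = 0 := hYa' (by
            rw [show k + 1 + 1 = k + 2 by ring]
            linarith)
          change (1 - Yc T lam (k + 1 + 1) z) • H (ν'.inv z) + Yc T lam (k + 1 + 1) z • _ = _
          rw [h7, sub_zero, one_smul, zero_smul, add_zero]
      rw [h3]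
      have h4 : (1 - Yc T lam (k + 1) z) • H (ν.inv z) + Yc T lam (k + 1) z • H (ν'.inv z) - H (ν.inv z) =
          Yc T lam (k + 1) z • (H (ν'.inv z) - H (ν.inv z)) := by
        rw [sub_smul, one_smul, smul_sub]
        abel
      rw [h4, norm_smul, Real.norm_eq_abs, abs_of_nonneg hY0]
      have h5 := hmm sh Sy H A k ν (ck lam sh (k + 1) z) z hH hHb hg hz.lt hlo
        (by have := h1.up; have := hz.lt; linarith) (by have := hz.cen; nlinarith)
        (by have := h1.cen; have := rs_pos hl (k + 1); rw [← hν']; nlinarith)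
      calc Yc T lam (k + 1) z * ‖H (ν'.inv z) - H (ν.inv z)‖ ≤ 1 * ‖H (ν'.inv z) - H (ν.inv z)‖ :=
            mul_le_mul_of_nonneg_right hY1 (norm_nonneg _)
        _ = ‖H (ν'.inv z) - H (ν.inv z)‖ := one_mul _
        _ ≤ _ := h5

/-- PROOF. For `l` with `D ≤ 4 Ts l`: `1 / Ts l ≤ 4 / D`, and `Ts (l+1) ≤ Ts l / 2` (`ineqs`), so `1/Ts l` grows at least by a factor two: the sum is at most twice its last nonzero term. -/
theorem ts_sum : ∀ᶠ lam in 𝓝[>] (0 : ℝ), ∀ (s : Finset ℕ) (D : ℝ), 0 < D → ∑ l ∈ s, (if D ≤ 4 * Ts lam l then 1 / Ts lam l else 0) ≤ 8 / D := by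
  filter_upwards [half 2 (β := 43 / 20) (by norm_num), ev_lt (a := 1) one_pos] with lam hh hl s D hD
  obtain ⟨hl, hl1⟩ := hl
  have hT := Ts_pos hl
  have hhalf : ∀ k, 2 * Ts lam (k + 1) ≤ Ts lam k := fun k => hh k
  have h2 : ∀ k, 2 / Ts lam k ≤ 1 / Ts lam (k + 1) := by
    intro k
    rw [div_le_div_iff₀ (hT k) (hT (k + 1))]
    linarith [hhalf k]
  have hf0 : ∀ l, (0 : ℝ) ≤ if D ≤ 4 * Ts lam l then 1 / Ts lam l else 0 := by
    intro l
    split_ifs
    · exact (one_div_pos.2 (hT l)).le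
    · exact le_rfl
  have hf1 : ∀ l, (if D ≤ 4 * Ts lam l then 1 / Ts lam l else 0) ≤ 1 / Ts lam l := by
    intro l
    split_ifs
    · exact le_rfl
    · exact (one_div_pos.2 (hT l)).le
  have hQ : ∀ m : ℕ, ∑ l ∈ Finset.range m, (if D ≤ 4 * Ts lam l then 1 / Ts lam l else 0) ≤ 1 / Ts lam m := by
    intro m
    induction m with
    | zero =>
      rw [Finset.sum_range_zero]
      exact (one_div_pos.2 (hT 0)).le
    | succ m ih =>
      rw [Finset.sum_range_succ]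
      have := h2 m
      have h3 : 2 / Ts lam m = 1 / Ts lam m + 1 / Ts lam m := by ring
      linarith [hf1 m]
  have hP : ∀ m : ℕ, ∑ l ∈ Finset.range m, (if D ≤ 4 * Ts lam l then 1 / Ts lam l else 0) ≤ 8 / D := by
    intro m
    induction m with
    | zero =>
      rw [Finset.sum_range_zero]
      positivity
    | succ m ih =>
      rw [Finset.sum_range_succ]
      by_cases hc : D ≤ 4 * Ts lam m
      · rw [if_pos hc]
        have h3 : 1 / Ts lam m ≤ 4 / D := by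
          rw [div_le_div_iff₀ (hT m) hD]
          linarith
        have h4 : 8 / D = 4 / D + 4 / D := by ring
        linarith [hQ m]
      · rw [if_neg hc, add_zero]
        exact ih
  refine le_trans ?_ (hP (s.sup id + 1))
  apply Finset.sum_le_sum_of_subset_of_nonneg
  · intro l hl'
    rw [Finset.mem_range]
    exact Nat.lt_succ_of_le (Finset.le_sup (f := id) hl')
  · intro l _ _
    exact hf0 l

/-- The variation of the transplanted solution.
PROOF. `D = -ρ z`, `Δ = ‖z - z'‖ ≤ D / 40`, `|ρ z - ρ z'| ≤ 3 Δ` (the points are near `e`), so `-ρ z' ∈ [0.9 D, 1.1 D]`. Claim by induction on `m`: `‖..‖ ≤ C A Δ (1/D + ∑_{l ∈ Ioc k (k+m)} (if D ≤ 4 Ts l then 1/Ts l else 0))`, with `ts_sum` at the end. Let `Y`, `Y'` be the values of `Yc (k+1)`: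
`|Y - Y'| ≤ 3 Δ / Ts (k+1)`, and `Y = Y' = 0` if `D > 4 Ts (k+1)`. If `Y = Y' = 1`: only the second parts, `dv_next` for both, the cells of `z` and `z'` are equal (`cell_eq`: `wk z ≥ 4 es` by `leg`, `Δ ≤ D/40 ≤ Ts (k+1) < rs es`). If `Y < 1` or `Y' < 1`: then `D ≥ 0.9 Ts (k+1)`, `H (ν.inv z)` and `H (ν.inv z')` are
bounded by `A` and `lip_inv` applies. If `Y = 0` or `Y' = 0`, say `Y' = 0`: the difference is `(H(z) - H(z')) + Y (b - H(z))`.. `≤ C A Δ / D + 2 A |Y - Y'|` (if `Y > 0`, `b = Hz m (k+1) .. z` is bounded by `A`: `dv_next`, `hz_bd`). If both are positive: `dv_next` for both, the same cell, and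
`(1 - Y) a + Y b - (1 - Y') a' - Y' b' = (1 - Y)(a - a') + Y (b - b') + (Y - Y')(b' - a')` (the last with `‖b' - a'‖ ≤ 2 A`; if `Y = Y' = 1` it is absent). `m = 0`: `lip_inv`. -/
theorem hz_lip (T : Tg n) (Cs : ℝ) (N : ℕ) : ∃ C : ℝ, 1 ≤ C ∧ ∀ᶠ lam in 𝓝[>] (0 : ℝ), ∀ (sh : ℕ → ℝ) (Sy : Sys T Cs lam sh) (H : En n → En N) (A : ℝ) (m k : ℕ) (ν : Nd n) (z z' : En n),
    0 ≤ A → DifferentiableOn ℂ H (ball 0 1) → (∀ y ∈ ball (0 : En n) 1, ‖H y‖ ≤ A) → Sy.Good k ν → DV T lam sh m k ν z → DV T lam sh m k ν z' →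
    40 * ‖z - z'‖ ≤ -T.ρ z →
    ‖Hz T lam sh Sy.nx H m k ν z - Hz T lam sh Sy.nx H m k ν z'‖ ≤ C * A * ‖z - z'‖ / (-T.ρ z) := by
  obtain ⟨C, hC1, hC⟩ := lip_inv T Cs N
  refine ⟨9 * (C + 6), by linarith, ?_⟩
  filter_upwards [ineqs 8, dv_next T Cs, hC, D2_rho T Cs, dv_zz T, dz T Cs, hz_bd T Cs N, ts_sum]
    with lam hin hdv hlip hrho hzz hdz hbd hsum sh Sy H A m k ν z z' hA hH hHb hg hz hz' hΔ
  obtain ⟨hl, hKl, hin⟩ := hin
  have hl1 : lam ≤ 1 := by linarith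
  set D := -T.ρ z with hD
  set Δ := ‖z - z'‖ with hΔdef
  have hD0 : 0 < D := by have := hz.lt; linarith
  have hΔ0 : 0 ≤ Δ := norm_nonneg _
  set t : ℕ → ℝ := fun l => if D ≤ 4 * Ts lam l then 1 / Ts lam l else 0 with ht
  have ht0 : ∀ l, 0 ≤ t l := by
    intro l
    simp only [ht]
    split_ifs
    · exact (one_div_pos.2 (Ts_pos hl l)).le
    · exact le_rfl
  have hrk := rs_pos hl k
  have hrkl := rs_le hl hl1 k
  have hρ : |T.ρ z - T.ρ z'| ≤ 3 * Δ := by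
    apply hrho sh Sy k ν z z' hg hz.cen
    have := hz.up
    linarith
  have hD'1 : 37 / 40 * D ≤ -T.ρ z' := by have := (abs_le.1 hρ).1; linarith
  have hD'2 : -T.ρ z' ≤ 43 / 40 * D := by have := (abs_le.1 hρ).2; linarith
  -- the values of the first parts
  have hval : ∀ (k : ℕ) (ν : Nd n) (m : ℕ) (x : En n), Sy.Good k ν → DV T lam sh m k ν x → x = z ∨ x = z' →
      7 / 10 * Ts lam (k + 1) ≤ D → ‖H (ν.inv x)‖ ≤ A := by
    intro k ν m x hg hx hxz hT
    have h1 := D2_rT hl hl1 k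
    have hTk := Ts_pos hl (k + 1)
    have h2 : rs lam (k + 1) ^ (11 / 5 : ℝ) ≤ 4 * (-T.ρ x) := by
      rcases hxz with rfl | rfl <;> linarith
    exact hHb _ (mem_ball_zero_iff.2 (hdz sh Sy k ν x hg (hzz sh m k ν x hx h2)).2.1)
  have hfst : ∀ (k : ℕ) (ν : Nd n) (m : ℕ), Sy.Good k ν → DV T lam sh m k ν z → DV T lam sh m k ν z' →
      7 / 10 * Ts lam (k + 1) ≤ D → ‖H (ν.inv z) - H (ν.inv z')‖ ≤ C * A * Δ / D := by
    intro k ν m hg hx hx' hT
    have h1 := D2_rT hl hl1 k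
    have hTk := Ts_pos hl (k + 1)
    have hrk := rs_pos hl k
    have h2 := hlip sh Sy H A k ν z z' hH hHb hg hx.lt (by linarith) (by have := hx.up; linarith)
      (by have := hx.cen; nlinarith) (hval k ν m z' hg hx' (Or.inr rfl) hT)
    rw [norm_sub_rev z' z, norm_sub_rev] at h2
    exact h2
  have key : ∀ (m k : ℕ) (ν : Nd n), Sy.Good k ν → DV T lam sh m k ν z → DV T lam sh m k ν z' →
      ‖Hz T lam sh Sy.nx H m k ν z - Hz T lam sh Sy.nx H m k ν z'‖ ≤
        (C + 6) * A * Δ * (1 / D + ∑ j ∈ Finset.range m, t (k + 1 + j)) := by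
    intro m
    induction m with
    | zero =>
      intro k ν hg hz hz'
      rw [Finset.sum_range_zero, add_zero]
      have h1 := hz.lo
      rw [show k + 0 + 1 = k + 1 by ring] at h1
      have h2 := hfst k ν 0 hg hz hz' (by have := Ts_pos hl (k + 1); linarith)
      change ‖H (ν.inv z) - H (ν.inv z')‖ ≤ _
      refine h2.trans ?_
      rw [mul_one_div]
      apply div_le_div_of_nonneg_right _ hD0.le
      apply mul_le_mul_of_nonneg_right _ hΔ0
      apply mul_le_mul_of_nonneg_right _ hA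
      linarith
    | succ m ih =>
      intro k ν hg hz hz'
      have hTk := Ts_pos hl (k + 1)
      have hrk1 := rs_pos hl (k + 1)
      have hes := es_pos hl (k + 1)
      obtain ⟨⟨hY0, hY1⟩, -, hYa, hYb, -, -, hYL, -⟩ := yv_facts T hl (k + 1) z z'
      obtain ⟨⟨hY0', hY1'⟩, -, hYa', hYb', -⟩ := yv_facts T hl (k + 1) z' z'
      have hS : ∑ j ∈ Finset.range (m + 1), t (k + 1 + j) =
          ∑ j ∈ Finset.range m, t (k + 1 + 1 + j) + t (k + 1) := by
        rw [Finset.sum_range_succ']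
        congr 1
        apply Finset.sum_congr rfl
        intro j _
        congr 1
        ring
      have hS0 : 0 ≤ ∑ j ∈ Finset.range m, t (k + 1 + 1 + j) := Finset.sum_nonneg fun j _ => ht0 _
      have hCA : 0 ≤ C * A * Δ := by positivity
      change ‖((1 - Yc T lam (k + 1) z) • H (ν.inv z) + Yc T lam (k + 1) z •
          Hz T lam sh Sy.nx H m (k + 1) (Sy.nx k ν (ck lam sh (k + 1) z)) z) -
        ((1 - Yc T lam (k + 1) z') • H (ν.inv z') + Yc T lam (k + 1) z' •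
          Hz T lam sh Sy.nx H m (k + 1) (Sy.nx k ν (ck lam sh (k + 1) z')) z')‖ ≤ _
      rw [hS]
      set Y := Yc T lam (k + 1) z with hY
      set Y' := Yc T lam (k + 1) z' with hY'
      set a := H (ν.inv z) with ha
      set a' := H (ν.inv z') with ha'
      set b := Hz T lam sh Sy.nx H m (k + 1) (Sy.nx k ν (ck lam sh (k + 1) z)) z with hb
      set b' := Hz T lam sh Sy.nx H m (k + 1) (Sy.nx k ν (ck lam sh (k + 1) z')) z' with hb'
      have hYd : |Y - Y'| ≤ 3 * Δ / Ts lam (k + 1) :=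
        hYL.trans (div_le_div_of_nonneg_right hρ hTk.le)
      -- the expression of the bound
      have hRHS : (C + 6) * A * Δ * (1 / D + (∑ j ∈ Finset.range m, t (k + 1 + 1 + j) + t (k + 1))) =
          (C + 6) * A * Δ * (1 / D + ∑ j ∈ Finset.range m, t (k + 1 + 1 + j)) +
            (C + 6) * A * Δ * t (k + 1) := by ring
      have hbase : C * A * Δ / D ≤ (C + 6) * A * Δ * (1 / D + ∑ j ∈ Finset.range m, t (k + 1 + 1 + j)) := by
        have e1 : C * A * Δ / D = C * A * Δ * (1 / D) := by ring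
        rw [e1]
        apply mul_le_mul _ _ (by positivity) (by positivity)
        · apply mul_le_mul_of_nonneg_right _ hΔ0
          apply mul_le_mul_of_nonneg_right _ hA
          linarith
        · linarith
      have ht1 : D ≤ 4 * Ts lam (k + 1) → 2 * A * (3 * Δ / Ts lam (k + 1)) ≤ (C + 6) * A * Δ * t (k + 1) := by
        intro hc
        have e1 : t (k + 1) = 1 / Ts lam (k + 1) := by
          simp only [ht]
          rw [if_pos hc]
        rw [e1]
        have e2 : 2 * A * (3 * Δ / Ts lam (k + 1)) = 6 * A * Δ * (1 / Ts lam (k + 1)) := by ring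
        rw [e2]
        apply mul_le_mul_of_nonneg_right _ (by positivity)
        apply mul_le_mul_of_nonneg_right _ hΔ0
        apply mul_le_mul_of_nonneg_right _ hA
        linarith
      have ht1' : 0 ≤ (C + 6) * A * Δ * t (k + 1) := by
        have := ht0 (k + 1)
        positivity
      rcases le_or_gt (2 * Ts lam (k + 1)) D with hcD | hcD
      · have hY0z : Y = 0 := hYa hcD
        have haa := hfst k ν (m + 1) hg hz hz' (by linarith)
        rcases le_or_gt (2 * Ts lam (k + 1)) (-T.ρ z') with hcD' | hcD'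
        · have hY0z' : Y' = 0 := hYa' hcD'
          have e1 : ((1 - Y) • a + Y • b) - ((1 - Y') • a' + Y' • b') = a - a' := by
            rw [hY0z, hY0z']
            module
          rw [e1, hRHS]
          linarith
        · obtain ⟨h1, h2⟩ := hdv sh Sy m k ν z' hg hz' hcD'
          have hb'A : ‖b'‖ ≤ A := hbd sh Sy H A m (k + 1) _ z' hHb h2 h1
          have ha'A := hval k ν (m + 1) z' hg hz' (Or.inr rfl) (by linarith)
          have e1 : ((1 - Y) • a + Y • b) - ((1 - Y') • a' + Y' • b') = (a - a') + Y' • (a' - b') := by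
            rw [hY0z]
            module
          have e2 : ‖Y' • (a' - b')‖ ≤ 2 * A * (3 * Δ / Ts lam (k + 1)) := by
            rw [norm_smul, Real.norm_eq_abs]
            have e3 : |Y'| ≤ 3 * Δ / Ts lam (k + 1) := by
              rw [hY0z, zero_sub, abs_neg] at hYd
              exact hYd
            have e4 : ‖a' - b'‖ ≤ 2 * A := (norm_sub_le _ _).trans (by linarith)
            rw [mul_comm]
            exact mul_le_mul e4 e3 (abs_nonneg _) (by linarith)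
          rw [e1, hRHS]
          refine (norm_add_le _ _).trans ?_
          linarith [ht1 (by linarith)]
      · obtain ⟨h1, h2⟩ := hdv sh Sy m k ν z hg hz hcD
        have hbA : ‖b‖ ≤ A := hbd sh Sy H A m (k + 1) _ z hHb h2 h1
        rcases le_or_gt (2 * Ts lam (k + 1)) (-T.ρ z') with hcD' | hcD'
        · have hY0z' : Y' = 0 := hYa' hcD'
          have haa := hfst k ν (m + 1) hg hz hz' (by linarith)
          have haA := hval k ν (m + 1) z hg hz (Or.inl rfl) (by linarith)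
          have e1 : ((1 - Y) • a + Y • b) - ((1 - Y') • a' + Y' • b') = (a - a') + Y • (b - a) := by
            rw [hY0z']
            module
          have e2 : ‖Y • (b - a)‖ ≤ 2 * A * (3 * Δ / Ts lam (k + 1)) := by
            rw [norm_smul, Real.norm_eq_abs]
            have e3 : |Y| ≤ 3 * Δ / Ts lam (k + 1) := by
              rw [hY0z', sub_zero] at hYd
              exact hYd
            have e4 : ‖b - a‖ ≤ 2 * A := (norm_sub_le _ _).trans (by linarith)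
            rw [mul_comm]
            exact mul_le_mul e4 e3 (abs_nonneg _) (by linarith)
          rw [e1, hRHS]
          refine (norm_add_le _ _).trans ?_
          linarith [ht1 (by linarith)]
        · -- the same cell
          have hcell : ck lam sh (k + 1) z = ck lam sh (k + 1) z' := by
            unfold ck
            apply cell_eq hrk1
            have e1 := hz.leg (k + 1) (by omega) (by omega) hcD
            have e2 := (hin k).2.2.1
            unfold wk at e1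
            have e3 : Δ < Ts lam (k + 1) := by linarith
            calc ‖z - z'‖ = Δ := rfl
              _ < Ts lam (k + 1) := e3
              _ ≤ es lam (k + 1) * rs lam (k + 1) := by linarith
              _ ≤ rs lam (k + 1) * wd (rs lam (k + 1)) (sh (k + 1)) z := by
                  rw [mul_comm]
                  apply mul_le_mul_of_nonneg_left _ hrk1.le
                  linarith
          obtain ⟨h1', h2'⟩ := hdv sh Sy m k ν z' hg hz' hcD'
          have hb'A : ‖b'‖ ≤ A := hbd sh Sy H A m (k + 1) _ z' hHb h2' h1'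
          have hbb : ‖b - b'‖ ≤ (C + 6) * A * Δ * (1 / D + ∑ j ∈ Finset.range m, t (k + 1 + 1 + j)) := by
            rw [hb', ← hcell] at *
            exact ih (k + 1) _ h2 h1 h1'
          have e1 : ((1 - Y) • a + Y • b) - ((1 - Y') • a' + Y' • b') =
              ((1 - Y) • (a - a') + Y • (b - b')) + (Y - Y') • (b' - a') := by
            module
          set R := (C + 6) * A * Δ * (1 / D + ∑ j ∈ Finset.range m, t (k + 1 + 1 + j)) with hR
          have e2 : ‖(1 - Y) • (a - a')‖ ≤ (1 - Y) * R := by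
            rw [norm_smul, Real.norm_eq_abs, abs_of_nonneg (by linarith)]
            rcases hY1.lt_or_eq with h | h
            · apply mul_le_mul_of_nonneg_left _ (by linarith)
              have h3 : Ts lam (k + 1) < D := by
                by_contra hc
                rw [hYb (not_lt.1 hc)] at h
                exact lt_irrefl _ h
              exact (hfst k ν (m + 1) hg hz hz' (by linarith)).trans hbase
            · rw [h]
              simp
          have e3 : ‖Y • (b - b')‖ ≤ Y * R := by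
            rw [norm_smul, Real.norm_eq_abs, abs_of_nonneg hY0]
            exact mul_le_mul_of_nonneg_left hbb hY0
          have e4 : ‖(Y - Y') • (b' - a')‖ ≤ (C + 6) * A * Δ * t (k + 1) := by
            by_cases hYY : Y = Y'
            · rw [hYY, sub_self, zero_smul, norm_zero]
              exact ht1'
            · have h3 : 7 / 10 * Ts lam (k + 1) ≤ D := by
                by_contra hc
                push Not at hc
                apply hYY
                rw [hYb (by linarith), hYb' (by linarith)]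
              have ha'A := hval k ν (m + 1) z' hg hz' (Or.inr rfl) h3
              rw [norm_smul, Real.norm_eq_abs]
              have e5 : ‖b' - a'‖ ≤ 2 * A := (norm_sub_le _ _).trans (by linarith)
              refine le_trans ?_ (ht1 (by linarith))
              rw [mul_comm]
              exact mul_le_mul e5 hYd (abs_nonneg _) (by linarith)
          rw [e1, hRHS]
          refine (norm_add_le _ _).trans ?_
          refine (add_le_add ((norm_add_le _ _).trans (add_le_add e2 e3)) e4).trans ?_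
          apply le_of_eq
          ring
  refine (key m k ν hg hz hz').trans ?_
  have hs : ∑ j ∈ Finset.range m, t (k + 1 + j) ≤ 8 / D := by
    have h1 := hsum (Finset.Ico (k + 1) (k + 1 + m)) D hD0
    rw [Finset.sum_Ico_eq_sum_range] at h1
    rw [show k + 1 + m - (k + 1) = m by omega] at h1
    exact h1
  have hCA : 0 ≤ (C + 6) * A * Δ := by positivity
  calc (C + 6) * A * Δ * (1 / D + ∑ j ∈ Finset.range m, t (k + 1 + j)) ≤
      (C + 6) * A * Δ * (1 / D + 8 / D) := by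
        apply mul_le_mul_of_nonneg_left _ hCA
        linarith
    _ = 9 * (C + 6) * A * Δ / D := by ring

end Pool.Agent.MPca0fc2.EQ
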