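import Pool.Agent.Lib.MP_ca0fc2_an.EQ.D2

/-! Campaign EQ, task D4: the weights. -/

set_option autoImplicit false

open Metric Set Filter Topology

namespace Pool.Agent.MPca0fc2.EQ

open Pool.Agent.MPca0fc2.TB (En)

variable {n N : ℕ}

/-- PROOF. `0 ≤ Vc ≤ 1`, `0 ≤ xx ≤ 1`; the sum: `count_xx` (`η = es lam k`, `L η ≥ 1`): `∑ xw ≥ L - 22 n es L ≥ L / 2`. -/
theorem xw_facts (T : Tg n) {lam : ℝ} (hl : 0 < lam) {L k : ℕ} (hL : 1 ≤ L) (hLe : 1 ≤ L * es lam k) (he : 44 * n * es lam k ≤ 1) (z : En n) :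
    (∀ i : Fin L, 0 ≤ xw T lam L k i z ∧ xw T lam L k i z ≤ 1) ∧ (L : ℝ) / 2 ≤ ∑ i, xw T lam L k i z := by
  have hn : 1 ≤ n := by
    rcases Nat.eq_zero_or_pos n with h0 | h0
    · exfalso
      subst h0
      have h1 := T.he
      rw [Subsingleton.elim T.e 0, norm_zero] at h1
      exact zero_ne_one h1
    · exact h0
  have hV := (yv_facts T hl k z z).2.1
  have hxx : ∀ w, 0 ≤ xx (es lam k) w ∧ xx (es lam k) w ≤ 1 := fun w =>
    ⟨le_max_left _ _, max_le zero_le_one (min_le_left _ _)⟩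
  have hr := rs_pos hl k
  have he0 := es_pos hl k
  have h1 : ∀ i : Fin L, 0 ≤ xw T lam L k i z ∧ xw T lam L k i z ≤ 1 := by
    intro i
    have h2 := hxx (wd (rs lam k) ((i : ℝ) / L) z)
    unfold xw
    constructor
    · nlinarith [mul_le_mul hV.2 h2.2 h2.1 zero_le_one]
    · nlinarith [mul_nonneg hV.1 h2.1]
  refine ⟨h1, ?_⟩
  have hc := count_xx hn hr z hL he0 hLe
  have h3 : ∀ i : Fin L, 1 - xx (es lam k) (wd (rs lam k) ((i : ℝ) / L) z) ≤ xw T lam L k i z := by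
    intro i
    have h2 := hxx (wd (rs lam k) ((i : ℝ) / L) z)
    unfold xw
    nlinarith
  have h4 : ∑ i : Fin L, (1 - xx (es lam k) (wd (rs lam k) ((i : ℝ) / L) z)) ≤ ∑ i, xw T lam L k i z :=
    Finset.sum_le_sum fun i _ => h3 i
  rw [Finset.sum_sub_distrib] at h4
  simp only [Finset.sum_const, Finset.card_univ, Fintype.card_fin, nsmul_eq_mul, mul_one] at h4
  have hLp : (0 : ℝ) ≤ L := Nat.cast_nonneg L
  nlinarith

/-- PROOF. The sum of the quotients is one. If `wt ≠ 0` and `-ρ z ≤ 2 Ts k` then `Vc = 1` (`yv_facts`), so `xx < 1`: `lt_of_xx`. -/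
theorem wt_facts (T : Tg n) {lam : ℝ} (hl : 0 < lam) {L k : ℕ} (hL : 1 ≤ L) (hLe : 1 ≤ L * es lam k) (he : 44 * n * es lam k ≤ 1) (z : En n) :
    (∀ i : Fin L, 0 ≤ wt T lam L k i z) ∧ ∑ i, wt T lam L k i z = 1 ∧
    ∀ i : Fin L, wt T lam L k i z ≠ 0 → -T.ρ z ≤ 2 * Ts lam k → 4 * es lam k ≤ wd (rs lam k) ((i : ℝ) / L) z := by
  obtain ⟨h1, h2⟩ := xw_facts T hl hL hLe he z
  have hLp : (0 : ℝ) < L := by exact_mod_cast hL
  have hs : 0 < ∑ i, xw T lam L k i z := lt_of_lt_of_le (by positivity) h2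
  refine ⟨fun i => div_nonneg (h1 i).1 hs.le, ?_, fun i hi hz => ?_⟩
  · unfold wt
    rw [← Finset.sum_div]
    exact div_self hs.ne'
  · have hV := (yv_facts T hl k z z).2.2.2.2.2.1 hz
    have h3 : xw T lam L k i z ≠ 0 := fun h0 => hi (by unfold wt; rw [h0, zero_div])
    have h4 : xx (es lam k) (wd (rs lam k) ((i : ℝ) / L) z) < 1 := by
      by_contra hge
      push Not at hge
      have h5 : xx (es lam k) (wd (rs lam k) ((i : ℝ) / L) z) ≤ 1 := max_le zero_le_one (min_le_left _ _)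
      apply h3
      unfold xw
      rw [hV, le_antisymm h5 hge]
      ring
    exact (lt_of_xx (es_pos hl k) h4).le

/-- The variation of the weights.
PROOF. `wt = x_i / d`, `wt' = x_i' / d'`: `∑ |x_i/d - x_i'/d'| ≤ ∑ |x_i - x_i'| / d + |d - d'| / d ≤ 2 ∑ |x_i - x_i'| / d ≤ (4/L) ∑ |x_i - x_i'|`, and `|V xx - V' xx'| ≤ |V - V'| xx' + V |xx - xx'|`; `∑ xx' ≤ 22 n es L` (`count_xx`), `|xx - xx'| ≤ ‖z - z'‖ / (rs es)` (`xx_lip`, `wd_lip`). -/
theorem wt_var (T : Tg n) {lam : ℝ} (hl : 0 < lam) {L k : ℕ} (hL : 1 ≤ L) (hLe : 1 ≤ L * es lam k) (he : 44 * n * es lam k ≤ 1) (z z' : En n) :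
    ∑ i : Fin L, |wt T lam L k i z - wt T lam L k i z'| ≤ 88 * n * es lam k * |Vc T lam k z - Vc T lam k z'| +
      4 * Vc T lam k z * (‖z - z'‖ / (es lam k * rs lam k)) := by
  have hn : 1 ≤ n := by
    rcases Nat.eq_zero_or_pos n with h0 | h0
    · exfalso
      subst h0
      have h1 := T.he
      rw [Subsingleton.elim T.e 0, norm_zero] at h1
      exact zero_ne_one h1
    · exact h0
  have hr := rs_pos hl k
  have he0 := es_pos hl k
  have hLp : (0 : ℝ) < L := by exact_mod_cast hL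
  obtain ⟨h1, h2⟩ := xw_facts T hl hL hLe he z
  obtain ⟨h1', h2'⟩ := xw_facts T hl hL hLe he z'
  set d := ∑ i, xw T lam L k i z with hd
  set d' := ∑ i, xw T lam L k i z' with hd'
  have hd0 : 0 < d := lt_of_lt_of_le (by positivity) h2
  have hd0' : 0 < d' := lt_of_lt_of_le (by positivity) h2'
  set S := ∑ i : Fin L, |xw T lam L k i z - xw T lam L k i z'| with hS
  have hS0 : 0 ≤ S := Finset.sum_nonneg fun i _ => abs_nonneg _
  have hdd : |d' - d| ≤ S := by
    rw [hd, hd', ← Finset.sum_sub_distrib, hS]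
    refine (Finset.abs_sum_le_sum_abs _ _).trans (le_of_eq ?_)
    exact Finset.sum_congr rfl fun i _ => abs_sub_comm _ _
  have h3 : ∑ i : Fin L, |wt T lam L k i z - wt T lam L k i z'| ≤ 2 * S / d := by
    have h4 : ∀ i : Fin L, |wt T lam L k i z - wt T lam L k i z'| ≤
        |xw T lam L k i z - xw T lam L k i z'| / d + xw T lam L k i z' * (|d' - d| / (d * d')) := by
      intro i
      have h5 : wt T lam L k i z - wt T lam L k i z' =
          (xw T lam L k i z - xw T lam L k i z') / d + xw T lam L k i z' * ((d' - d) / (d * d')) := by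
        unfold wt
        rw [← hd, ← hd']
        field_simp
        ring
      rw [h5]
      refine (abs_add_le _ _).trans ?_
      rw [abs_div, abs_of_pos hd0, abs_mul, abs_of_nonneg (h1' i).1, abs_div, abs_of_pos (mul_pos hd0 hd0')]
    refine (Finset.sum_le_sum fun i _ => h4 i).trans ?_
    rw [Finset.sum_add_distrib, ← Finset.sum_div, ← Finset.sum_mul, ← hS, ← hd']
    have h6 : d' * (|d' - d| / (d * d')) = |d' - d| / d := by
      field_simp
    rw [h6, ← add_div]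
    exact div_le_div_of_nonneg_right (by linarith) hd0.le
  have h4 : 2 * S / d ≤ 4 / L * S := by
    rw [div_mul_eq_mul_div, div_le_div_iff₀ hd0 hLp]
    nlinarith
  have h5 : S ≤ |Vc T lam k z - Vc T lam k z'| * (22 * n * es lam k * L) +
      Vc T lam k z * (L * (‖z - z'‖ / (es lam k * rs lam k))) := by
    have hV := (yv_facts T hl k z z').2.1
    have h6 : ∀ i : Fin L, |xw T lam L k i z - xw T lam L k i z'| ≤
        |Vc T lam k z - Vc T lam k z'| * xx (es lam k) (wd (rs lam k) ((i : ℝ) / L) z') +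
        Vc T lam k z * (‖z - z'‖ / (es lam k * rs lam k)) := by
      intro i
      have h7 : xw T lam L k i z - xw T lam L k i z' =
          -((Vc T lam k z - Vc T lam k z') * xx (es lam k) (wd (rs lam k) ((i : ℝ) / L) z')) -
          Vc T lam k z * (xx (es lam k) (wd (rs lam k) ((i : ℝ) / L) z) - xx (es lam k) (wd (rs lam k) ((i : ℝ) / L) z')) := by
        unfold xw
        ring
      rw [h7]
      refine (abs_sub _ _).trans ?_
      rw [abs_neg, abs_mul, abs_mul, abs_of_nonneg hV.1, abs_of_nonneg (show 0 ≤ xx (es lam k) (wd (rs lam k) ((i : ℝ) / L) z') from le_max_left _ _)]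
      refine add_le_add le_rfl (mul_le_mul_of_nonneg_left ?_ hV.1)
      refine (xx_lip he0 _ _).trans ?_
      refine (div_le_div_of_nonneg_right (wd_lip hr _ z z') he0.le).trans (le_of_eq ?_)
      rw [div_div, mul_comm (rs lam k)]
    refine (Finset.sum_le_sum fun i _ => h6 i).trans ?_
    rw [Finset.sum_add_distrib, ← Finset.mul_sum]
    simp only [Finset.sum_const, Finset.card_univ, Fintype.card_fin, nsmul_eq_mul]
    refine add_le_add (mul_le_mul_of_nonneg_left (count_xx hn hr z' hL he0 hLe) (abs_nonneg _)) (le_of_eq (by ring))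
  refine h3.trans (h4.trans ?_)
  refine (mul_le_mul_of_nonneg_left h5 (by positivity)).trans (le_of_eq ?_)
  field_simp
  ring

private theorem D4_sum_cons {K L : ℕ} (F : (Fin (K + 1) → Fin L) → ℝ) :
    ∑ ω, F ω = ∑ i, ∑ ω : Fin K → Fin L, F (Fin.cons i ω) := by
  rw [← Fintype.sum_prod_type']
  exact (Fintype.sum_equiv (Fin.consEquiv (fun _ => Fin L)) _ _ fun x => rfl).symm

private theorem D4_prod_one {K L : ℕ} (p : Fin K → Fin L → ℝ) (h1 : ∀ l, ∑ i, p l i = 1) :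
    ∑ ω : Fin K → Fin L, ∏ l, p l (ω l) = 1 := by
  induction K with
  | zero => simp
  | succ K ih =>
    rw [D4_sum_cons]
    simp only [Fin.prod_univ_succ, Fin.cons_zero, Fin.cons_succ]
    simp only [← Finset.mul_sum]
    rw [ih (fun l => p l.succ) (fun l => h1 l.succ)]
    simp only [mul_one]
    exact h1 0

private theorem D4_prod_var {K L : ℕ} (p p' : Fin K → Fin L → ℝ) (hp : ∀ l i, 0 ≤ p l i) (hp' : ∀ l i, 0 ≤ p' l i)
    (h1 : ∀ l, ∑ i, p l i = 1) (h1' : ∀ l, ∑ i, p' l i = 1) :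
    ∑ ω : Fin K → Fin L, |∏ l, p l (ω l) - ∏ l, p' l (ω l)| ≤ ∑ l, ∑ i, |p l i - p' l i| := by
  induction K with
  | zero => simp
  | succ K ih =>
    rw [D4_sum_cons]
    simp only [Fin.prod_univ_succ, Fin.cons_zero, Fin.cons_succ]
    have h2 : ∀ (i : Fin L) (ω : Fin K → Fin L),
        |p 0 i * ∏ l : Fin K, p l.succ (ω l) - p' 0 i * ∏ l : Fin K, p' l.succ (ω l)| ≤
          |p 0 i - p' 0 i| * ∏ l : Fin K, p l.succ (ω l) +
          p' 0 i * |∏ l : Fin K, p l.succ (ω l) - ∏ l : Fin K, p' l.succ (ω l)| := by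
      intro i ω
      have h3 : 0 ≤ ∏ l : Fin K, p l.succ (ω l) := Finset.prod_nonneg fun l _ => hp _ _
      have h4 : p 0 i * ∏ l : Fin K, p l.succ (ω l) - p' 0 i * ∏ l : Fin K, p' l.succ (ω l) =
          (p 0 i - p' 0 i) * ∏ l : Fin K, p l.succ (ω l) +
          p' 0 i * (∏ l : Fin K, p l.succ (ω l) - ∏ l : Fin K, p' l.succ (ω l)) := by ring
      rw [h4]
      refine (abs_add_le _ _).trans (le_of_eq ?_)
      rw [abs_mul, abs_mul, abs_of_nonneg h3, abs_of_nonneg (hp' 0 i)]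
    refine (Finset.sum_le_sum fun i _ => Finset.sum_le_sum fun ω _ => h2 i ω).trans ?_
    simp only [Finset.sum_add_distrib, ← Finset.mul_sum]
    rw [D4_prod_one (fun l => p l.succ) (fun l => h1 l.succ)]
    simp only [mul_one]
    rw [← Finset.sum_mul, h1' 0, one_mul, Fin.sum_univ_succ]
    exact add_le_add le_rfl (ih (fun l => p l.succ) (fun l => p' l.succ) (fun l => hp l.succ) (fun l => hp' l.succ)
      (fun l => h1 l.succ) (fun l => h1' l.succ))

/-- Products of probability vectors.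
PROOF. `∑_ω ∏_l p l (ω l) = ∏_l ∑_i p l i` (`Finset.prod_univ_sum` or `Fintype.piFinset`; `Finset.prod_sum`). The variation: replace the factors one after the other (induction on `K` with `Fin.consEquiv`/`Fin.cons`, or on a Finset): `|∏ p - ∏ p'| ≤ ∑_l (∏_{j<l} p') |p l - p' l| (∏_{j>l} p)`. -/
theorem prod_prob {K L : ℕ} (p p' : Fin K → Fin L → ℝ) (hp : ∀ l i, 0 ≤ p l i) (hp' : ∀ l i, 0 ≤ p' l i) (h1 : ∀ l, ∑ i, p l i = 1) (h1' : ∀ l, ∑ i, p' l i = 1) :
    ∑ ω : Fin K → Fin L, ∏ l, p l (ω l) = 1 ∧ ∑ ω : Fin K → Fin L, |∏ l, p l (ω l) - ∏ l, p' l (ω l)| ≤ ∑ l, ∑ i, |p l i - p' l i| :=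
  ⟨D4_prod_one p h1, D4_prod_var p p' hp hp' h1 h1'⟩

/-- The weights of the shifts of all generations.
PROOF. `es` is antitone, so `L es k ≥ L es K ≥ 1` for `k ≤ K`, and `44 n es k ≤ 44 n es 0 ≤ 1` (`ineqs`). `prod_prob`, `wt_facts`, `wt_var`. `Leg`: `Wt ≠ 0` implies each factor is `≠ 0`; `wk lam (shO L K ω) l z = wd (rs l) (ω (l-1) / L) z` for `1 ≤ l ≤ K`. -/
theorem Wt_facts (T : Tg n) : ∀ᶠ lam in 𝓝[>] (0 : ℝ), ∀ (L K : ℕ), 1 ≤ L → 1 ≤ L * es lam K →
    (∀ ω z, 0 ≤ Wt T lam L K ω z) ∧ (∀ z, ∑ ω, Wt T lam L K ω z = 1) ∧ (∀ ω z, Wt T lam L K ω z ≠ 0 → Leg T lam (shO L K ω) K 0 z) ∧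
    ∀ z z', ∑ ω, |Wt T lam L K ω z - Wt T lam L K ω z'| ≤ ∑ l ∈ Finset.Ioc 0 K, (88 * n * es lam l * |Vc T lam l z - Vc T lam l z'| +
      4 * Vc T lam l z * (‖z - z'‖ / (es lam l * rs lam l))) := by
  filter_upwards [ineqs (44 * n), ev_lt (a := 1) one_pos] with lam hin hl1 L K hL hLe
  obtain ⟨hl, -, hk⟩ := hin
  have hes : ∀ k, 44 * n * es lam k ≤ 1 := fun k => (hk k).2.2.2.2.2.2.2.1
  have hLe' : ∀ k, k ≤ K → 1 ≤ L * es lam k := fun k hk' =>
    hLe.trans (mul_le_mul_of_nonneg_left (es_anti hl hl1.2.le hk') (Nat.cast_nonneg L))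
  have hw : ∀ z (l : Fin K), _ := fun z (l : Fin K) => wt_facts T hl hL (hLe' (l + 1) l.2) (hes (l + 1)) z
  have h0 : ∀ ω z, 0 ≤ Wt T lam L K ω z := fun ω z => Finset.prod_nonneg fun l _ => (hw z l).1 _
  refine ⟨h0, fun z => ?_, fun ω z hne l hl0 hlK hz => ?_, fun z z' => ?_⟩
  · exact D4_prod_one (fun l i => wt T lam L (l + 1) i z) fun l => (hw z l).2.1
  · have hlK' : l ≤ K := by omega
    obtain ⟨l', hl'⟩ : ∃ l' : Fin K, (l' : ℕ) + 1 = l := ⟨⟨l - 1, by omega⟩, by show l - 1 + 1 = l; omega⟩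
    have h1 : wt T lam L (l' + 1) (ω l') z ≠ 0 := fun h2 => hne (Finset.prod_eq_zero (Finset.mem_univ l') h2)
    have h2 := (hw z l').2.2 (ω l') h1
    rw [hl'] at h2
    have h3 := h2 hz.le
    unfold wk shO
    rw [dif_pos ⟨hl0, hlK'⟩]
    have h4 : (⟨l - 1, by omega⟩ : Fin K) = l' := by
      apply Fin.ext
      show l - 1 = (l' : ℕ)
      omega
    rw [h4]
    exact h3
  · have h1 := D4_prod_var (fun (l : Fin K) i => wt T lam L (l + 1) i z) (fun (l : Fin K) i => wt T lam L (l + 1) i z')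
      (fun l i => (hw z l).1 i) (fun l i => (hw z' l).1 i) (fun l => (hw z l).2.1) (fun l => (hw z' l).2.1)
    refine h1.trans ?_
    have h2 : ∀ l : Fin K, _ := fun l : Fin K => wt_var T hl hL (hLe' (l + 1) l.2) (hes (l + 1)) z z'
    refine (Finset.sum_le_sum fun l _ => h2 l).trans (le_of_eq ?_)
    rw [← Finset.sum_range (fun l => 88 * n * es lam (l + 1) * |Vc T lam (l + 1) z - Vc T lam (l + 1) z'| +
      4 * Vc T lam (l + 1) z * (‖z - z'‖ / (es lam (l + 1) * rs lam (l + 1))))]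
    rw [Finset.range_eq_Ico, Finset.sum_Ico_add' (fun l => 88 * n * es lam l * |Vc T lam l z - Vc T lam l z'| +
      4 * Vc T lam l z * (‖z - z'‖ / (es lam l * rs lam l))) 0 K 1]
    refine Finset.sum_congr ?_ fun _ _ => rfl
    ext l
    simp only [Finset.mem_Ico, Finset.mem_Ioc]
    omega

end Pool.Agent.MPca0fc2.EQ
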