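import Pool.Agent.Lib.MP_ca0fc2_an.Mg.G088
import Pool.Agent.Lib.MP_ca0fc2_an.Mg.G086

/-! Campaign EQ, task D6: the averaged solution is almost holomorphic. -/

set_option autoImplicit false

open Metric Set Filter Topology

namespace Pool.Agent.MPca0fc2.EQ

open Pool.Agent.MPca0fc2.TB (En)

variable {n N : ℕ}

/-- The chain of `v` and the one of `z` agree for the visible generations.
PROOF. Induction on `κ` (for general `k`, `ν`). For `l ∈ (k, k + κ]`: `Yc l z = 1` (`yv_facts`), `ck l z = ck l v` (`cell_eq`: `‖z - v‖ < 4 es l rs l ≤ rs l wk l v`). -/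
theorem hz_chn (T : Tg n) {lam : ℝ} (hl : 0 < lam) (sh : ℕ → ℝ) (nx : ℕ → Nd n → (Fin n → ℤ × ℤ) → Nd n) (H : En n → En N) (κ m k : ℕ) (ν : Nd n) (z v : En n)
    (h : ∀ l, k < l → l ≤ k + κ → -T.ρ z ≤ Ts lam l ∧ ‖z - v‖ < 4 * es lam l * rs lam l ∧ 4 * es lam l ≤ wk lam sh l v) :
    Hz T lam sh nx H (κ + m) k ν z = Hz T lam sh nx H m (k + κ) (chn lam sh nx κ k ν v) z := by
  induction κ generalizing k ν with
  | zero =>
    rw [Nat.zero_add, Nat.add_zero]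
    rfl
  | succ κ ih =>
    have h1 := h (k + 1) (by omega) (by omega)
    have hY : Yc T lam (k + 1) z = 1 := (yv_facts T hl (k + 1) z z).2.2.2.1 h1.1
    have hc : ck lam sh (k + 1) v = ck lam sh (k + 1) z := by
      unfold ck
      refine cell_eq (rs_pos hl (k + 1)) (sh (k + 1)) ?_
      rw [norm_sub_rev]
      refine h1.2.1.trans_le ?_
      have h2 := mul_le_mul_of_nonneg_right h1.2.2 (rs_pos hl (k + 1)).le
      refine h2.trans (le_of_eq ?_)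
      unfold wk
      ring
    have h3 := ih (k + 1) (nx k ν (ck lam sh (k + 1) v)) (fun l hl1 hl2 => h l (by omega) (by omega))
    rw [show κ + 1 + m = (κ + m) + 1 by omega, show k + (κ + 1) = k + 1 + κ by omega]
    change (1 - Yc T lam (k + 1) z) • H (ν.inv z) +
      Yc T lam (k + 1) z • Hz T lam sh nx H (κ + m) (k + 1) (nx k ν (ck lam sh (k + 1) z)) z =
      Hz T lam sh nx H m (k + 1 + κ) (chn lam sh nx κ (k + 1) (nx k ν (ck lam sh (k + 1) v)) v) z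
    rw [hY, ← hc, sub_self, zero_smul, zero_add, one_smul, h3]

/-- PROOF. Induction on `κ`, `dch` (`-ρ v ≤ Ts l < 2 Ts l`). -/
theorem chn_good (T : Tg n) (Cs : ℝ) : ∀ᶠ lam in 𝓝[>] (0 : ℝ), ∀ (sh : ℕ → ℝ) (Sy : Sys T Cs lam sh) (κ k : ℕ) (ν : Nd n) (v : En n), Sy.Good k ν → T.ρ v < 0 →
    ‖v - ν.Ψ ν.q‖ ≤ kn n * rs lam k → (∀ l, k < l → l ≤ k + κ → -T.ρ v ≤ Ts lam l ∧ 4 * es lam l ≤ wk lam sh l v) →
    Sy.Good (k + κ) (chn lam sh Sy.nx κ k ν v) ∧ ‖v - (chn lam sh Sy.nx κ k ν v).Ψ (chn lam sh Sy.nx κ k ν v).q‖ ≤ kn n * rs lam (k + κ) := by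
  filter_upwards [dch T Cs, ev_lt one_pos] with lam hd hl sh Sy κ k ν v hG hv hc h
  induction κ generalizing k ν with
  | zero => exact ⟨hG, hc⟩
  | succ κ ih =>
    have h1 := h (k + 1) (by omega) (by omega)
    have hT := Ts_pos hl.1 (k + 1)
    have h2 := hd sh Sy k ν v hG hv (by linarith) h1.2 hc
    have h3 := ih (k + 1) (Sy.nx k ν (ck lam sh (k + 1) v)) h2.2.1 h2.1 (fun l hl1 hl2 => h l (by omega) (by omega))
    rw [show k + (κ + 1) = k + 1 + κ by omega]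
    exact h3

/-- The chains of two points with the same cells agree. -/
private theorem D6_chn_eq (lam : ℝ) (sh : ℕ → ℝ) (nx : ℕ → Nd n → (Fin n → ℤ × ℤ) → Nd n) (κ k : ℕ) (ν : Nd n) (y v : En n)
    (h : ∀ l, k < l → l ≤ k + κ → ck lam sh l y = ck lam sh l v) : chn lam sh nx κ k ν y = chn lam sh nx κ k ν v := by
  induction κ generalizing k ν with
  | zero => rfl
  | succ κ ih =>
    have h1 := ih (k + 1) (nx k ν (ck lam sh (k + 1) v)) (fun l hl1 hl2 => h l (by omega) (by omega))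
    change chn lam sh nx κ (k + 1) (nx k ν (ck lam sh (k + 1) y)) y = chn lam sh nx κ (k + 1) (nx k ν (ck lam sh (k + 1) v)) v
    rw [h (k + 1) (by omega) (by omega)]
    exact h1

/-- The sum of the variations of the weights. -/
private theorem D6_wsum (T : Tg n) {lam B C₂ d : ℝ} (hl : 0 < lam) (hB : 1 ≤ B) (hC : 8 * B + 88 * n ≤ C₂) (hd : 0 < d) (hd1 : d ≤ 1)
    {K κ : ℕ} (hκ : κ ≤ K) (y v : En n) (hdy : d < B * (-T.ρ y)) (hdv : d < B * (-T.ρ v))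
    (hyv : ‖y - v‖ ≤ B * d ^ (249 / 500 : ℝ)) (hyT : ∀ l, 1 ≤ l → l ≤ κ → -T.ρ y ≤ Ts lam l) (hvT : ∀ l, 1 ≤ l → l ≤ κ → -T.ρ v ≤ Ts lam l)
    (h1 : ∀ l, 1 ≤ l → d ≤ C₂ * Ts lam l →
      C₂ * (d ^ (249 / 500 : ℝ) / (es lam l * rs lam l) * (1 + (ts lam l / d) ^ (1 / 4 : ℝ))) ≤ d ^ (1 / 100 : ℝ))
    (h2 : C₂ * ∑ l ∈ Finset.Ioc 0 κ, d ^ (249 / 500 : ℝ) / (es lam l * rs lam l) * (1 + (ts lam l / d) ^ (1 / 4 : ℝ)) ≤ d ^ (1 / 100 : ℝ))
    (h3 : κ < K → C₂ * es lam (κ + 1) ≤ d ^ (3 / 1000 : ℝ) ∧ ∀ l, κ + 2 ≤ l → C₂ * Ts lam l ≤ d) :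
    C₂ * ∑ l ∈ Finset.Ioc 0 K, (88 * n * es lam l * |Vc T lam l y - Vc T lam l v| + 4 * Vc T lam l y * (‖y - v‖ / (es lam l * rs lam l))) ≤
      (8 * B + 88 * n) * d ^ (3 / 1000 : ℝ) := by
  have hn0 : (0 : ℝ) ≤ n := Nat.cast_nonneg n
  have hC0 : 0 < C₂ := by linarith
  have hpw : d ^ (1 / 100 : ℝ) ≤ d ^ (3 / 1000 : ℝ) := Real.rpow_le_rpow_of_exponent_ge hd hd1 (by norm_num)
  have hp0 : 0 ≤ d ^ (3 / 1000 : ℝ) := (Real.rpow_pos_of_pos hd _).le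
  have hq0 : 0 ≤ d ^ (249 / 500 : ℝ) := (Real.rpow_pos_of_pos hd _).le
  obtain ⟨X, hX⟩ : ∃ X : ℕ → ℝ, X = fun l => d ^ (249 / 500 : ℝ) / (es lam l * rs lam l) * (1 + (ts lam l / d) ^ (1 / 4 : ℝ)) := ⟨_, rfl⟩
  obtain ⟨F, hF⟩ : ∃ F : ℕ → ℝ, F = fun l => 88 * n * es lam l * |Vc T lam l y - Vc T lam l v| + 4 * Vc T lam l y * (‖y - v‖ / (es lam l * rs lam l)) := ⟨_, rfl⟩
  have hXl : ∀ l, X l = d ^ (249 / 500 : ℝ) / (es lam l * rs lam l) * (1 + (ts lam l / d) ^ (1 / 4 : ℝ)) := fun l => by rw [hX]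
  have hFl : ∀ l, F l = 88 * n * es lam l * |Vc T lam l y - Vc T lam l v| + 4 * Vc T lam l y * (‖y - v‖ / (es lam l * rs lam l)) := fun l => by rw [hF]
  have hpos : ∀ l, 0 < es lam l * rs lam l := fun l => mul_pos (es_pos hl l) (rs_pos hl l)
  have hyX : ∀ l, ‖y - v‖ / (es lam l * rs lam l) ≤ B * X l := by
    intro l
    have h4 : ‖y - v‖ / (es lam l * rs lam l) ≤ B * d ^ (249 / 500 : ℝ) / (es lam l * rs lam l) := div_le_div_of_nonneg_right hyv (hpos l).le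
    have h5 : 0 ≤ (ts lam l / d) ^ (1 / 4 : ℝ) := Real.rpow_nonneg (div_nonneg (ts_pos hl l).le hd.le) _
    have h6 : 0 ≤ d ^ (249 / 500 : ℝ) / (es lam l * rs lam l) := div_nonneg hq0 (hpos l).le
    rw [hXl]
    calc ‖y - v‖ / (es lam l * rs lam l) ≤ B * d ^ (249 / 500 : ℝ) / (es lam l * rs lam l) := h4
      _ = B * (d ^ (249 / 500 : ℝ) / (es lam l * rs lam l) * 1) := by ring
      _ ≤ B * (d ^ (249 / 500 : ℝ) / (es lam l * rs lam l) * (1 + (ts lam l / d) ^ (1 / 4 : ℝ))) := by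
        refine mul_le_mul_of_nonneg_left (mul_le_mul_of_nonneg_left ?_ h6) (by linarith)
        linarith
  have hsmall : ∀ l ∈ Finset.Ioc 0 κ, F l ≤ 4 * B * X l := by
    intro l hl'
    rw [Finset.mem_Ioc] at hl'
    have hT := Ts_pos hl l
    have hV1 : Vc T lam l y = 1 := (yv_facts T hl l y y).2.2.2.2.2.1 (by linarith [hyT l hl'.1 hl'.2])
    have hV2 : Vc T lam l v = 1 := (yv_facts T hl l v v).2.2.2.2.2.1 (by linarith [hvT l hl'.1 hl'.2])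
    rw [hFl, hV1, hV2, sub_self, abs_zero, mul_zero, zero_add, mul_one]
    have := hyX l
    linarith
  have hsum1 : C₂ * ∑ l ∈ Finset.Ioc 0 κ, F l ≤ 4 * B * d ^ (3 / 1000 : ℝ) := by
    have h4 : ∑ l ∈ Finset.Ioc 0 κ, F l ≤ 4 * B * ∑ l ∈ Finset.Ioc 0 κ, X l := by
      rw [Finset.mul_sum]
      exact Finset.sum_le_sum hsmall
    have h5 : C₂ * ∑ l ∈ Finset.Ioc 0 κ, X l ≤ d ^ (1 / 100 : ℝ) := by
      rw [hX]
      exact h2
    calc C₂ * ∑ l ∈ Finset.Ioc 0 κ, F l ≤ C₂ * (4 * B * ∑ l ∈ Finset.Ioc 0 κ, X l) := mul_le_mul_of_nonneg_left h4 hC0.le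
      _ = 4 * B * (C₂ * ∑ l ∈ Finset.Ioc 0 κ, X l) := by ring
      _ ≤ 4 * B * d ^ (3 / 1000 : ℝ) := mul_le_mul_of_nonneg_left (h5.trans hpw) (by linarith)
  have hgoal : ∑ l ∈ Finset.Ioc 0 K, (88 * n * es lam l * |Vc T lam l y - Vc T lam l v| + 4 * Vc T lam l y * (‖y - v‖ / (es lam l * rs lam l))) =
      ∑ l ∈ Finset.Ioc 0 K, F l := by rw [hF]
  rw [hgoal]
  rcases hκ.eq_or_lt with hk | hk
  · rw [← hk]
    refine hsum1.trans (mul_le_mul_of_nonneg_right ?_ hp0)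
    linarith
  · obtain ⟨h3a, h3b⟩ := h3 hk
    have hsp : ∑ l ∈ Finset.Ioc 0 K, F l = ∑ l ∈ Finset.Ioc 0 κ, F l + F (κ + 1) + ∑ l ∈ Finset.Ioc (κ + 1) K, F l := by
      rw [← Finset.sum_Ioc_consecutive F (Nat.zero_le (κ + 1)) (Nat.succ_le_of_lt hk), ← Finset.sum_Ioc_consecutive F (Nat.zero_le κ) (Nat.le_succ κ),
        Nat.Ioc_succ_singleton, Finset.sum_singleton]
    have hz : ∑ l ∈ Finset.Ioc (κ + 1) K, F l = 0 := by
      refine Finset.sum_eq_zero fun l hl' => ?_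
      rw [Finset.mem_Ioc] at hl'
      have hT := Ts_pos hl l
      have h4 := h3b l (by omega)
      have h5 : ∀ x : En n, d < B * (-T.ρ x) → Vc T lam l x = 0 := by
        intro x hx
        refine (yv_facts T hl l x x).2.2.2.2.1 ?_
        have h6 : (4 * Ts lam l) * B ≤ (-T.ρ x) * B := by
          have h7 : (4 * B) * Ts lam l ≤ C₂ * Ts lam l := mul_le_mul_of_nonneg_right (by linarith) hT.le
          linarith
        exact le_of_mul_le_mul_right h6 (by linarith)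
      rw [hFl, h5 y hdy, h5 v hdv]
      simp
    have hm : C₂ * F (κ + 1) ≤ 88 * n * d ^ (3 / 1000 : ℝ) + 4 * B * d ^ (3 / 1000 : ℝ) := by
      obtain ⟨⟨_, _⟩, ⟨hVy0, hVy1⟩, -⟩ := yv_facts T hl (κ + 1) y y
      obtain ⟨⟨_, _⟩, ⟨hVv0, hVv1⟩, -⟩ := yv_facts T hl (κ + 1) v v
      have he := es_pos hl (κ + 1)
      have h4 : |Vc T lam (κ + 1) y - Vc T lam (κ + 1) v| ≤ 1 := by
        rw [abs_le]
        constructor <;> linarith
      have h5 : C₂ * (88 * n * es lam (κ + 1) * |Vc T lam (κ + 1) y - Vc T lam (κ + 1) v|) ≤ 88 * n * d ^ (3 / 1000 : ℝ) := by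
        calc C₂ * (88 * n * es lam (κ + 1) * |Vc T lam (κ + 1) y - Vc T lam (κ + 1) v|)
            = 88 * n * (C₂ * es lam (κ + 1)) * |Vc T lam (κ + 1) y - Vc T lam (κ + 1) v| := by ring
          _ ≤ 88 * n * (C₂ * es lam (κ + 1)) * 1 := mul_le_mul_of_nonneg_left h4 (by positivity)
          _ = 88 * n * (C₂ * es lam (κ + 1)) := by ring
          _ ≤ 88 * n * d ^ (3 / 1000 : ℝ) := mul_le_mul_of_nonneg_left h3a (by positivity)
      have h6 : C₂ * (4 * Vc T lam (κ + 1) y * (‖y - v‖ / (es lam (κ + 1) * rs lam (κ + 1)))) ≤ 4 * B * d ^ (3 / 1000 : ℝ) := by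
        rcases hVy0.eq_or_lt with h0 | h0
        · rw [← h0]
          simp only [mul_zero, zero_mul]
          positivity
        · have hlt : -T.ρ y < 4 * Ts lam (κ + 1) := by
            by_contra hcon
            have := (yv_facts T hl (κ + 1) y y).2.2.2.2.1 (not_lt.1 hcon)
            linarith
          have h7 : d ≤ C₂ * Ts lam (κ + 1) := by
            have hT := Ts_pos hl (κ + 1)
            have h8 : B * (-T.ρ y) ≤ B * (4 * Ts lam (κ + 1)) := mul_le_mul_of_nonneg_left hlt.le (by linarith)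
            have h9 : (4 * B) * Ts lam (κ + 1) ≤ C₂ * Ts lam (κ + 1) := mul_le_mul_of_nonneg_right (by linarith) hT.le
            linarith
          have h8 := h1 (κ + 1) (by omega) h7
          rw [← hXl] at h8
          have h9 := hyX (κ + 1)
          have h10 : 0 ≤ ‖y - v‖ / (es lam (κ + 1) * rs lam (κ + 1)) := div_nonneg (norm_nonneg _) (hpos _).le
          calc C₂ * (4 * Vc T lam (κ + 1) y * (‖y - v‖ / (es lam (κ + 1) * rs lam (κ + 1))))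
              ≤ C₂ * (4 * 1 * (B * X (κ + 1))) := by
                refine mul_le_mul_of_nonneg_left ?_ hC0.le
                refine mul_le_mul ?_ h9 h10 (by norm_num)
                linarith
            _ = 4 * B * (C₂ * X (κ + 1)) := by ring
            _ ≤ 4 * B * d ^ (3 / 1000 : ℝ) := mul_le_mul_of_nonneg_left (h8.trans hpw) (by linarith)
      rw [hFl, mul_add]
      linarith
    rw [hsp, hz, add_zero, mul_add]
    have h9 : (8 * B + 88 * n) * d ^ (3 / 1000 : ℝ) = 4 * B * d ^ (3 / 1000 : ℝ) + (88 * n * d ^ (3 / 1000 : ℝ) + 4 * B * d ^ (3 / 1000 : ℝ)) := by ring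
    rw [h9]
    exact add_le_add hsum1 hm

/-- The main statement, for a constant `B ≥ 1`. -/
private theorem D6_main (T : Tg n) (Cs A B : ℝ) (N : ℕ) (hB : 1 ≤ B) : ∀ᶠ lam in 𝓝[>] (0 : ℝ), ∀ (L K : ℕ) (Φ : Fam T Cs lam A L K N) (d : ℝ) (v : En n),
    0 < d → d ≤ lam ^ (11 / 5 : ℝ) → NE T lam K v → d < B * (-T.ρ v) → -T.ρ v < B * (d ^ (249 / 250 : ℝ) + Ts lam (K + 1)) →
    ∃ G : En n → En N, DifferentiableOn ℂ G {y | Ts lam (K + 1) < -T.ρ y ∧ d < B * (-T.ρ y) ∧ -T.ρ y < B * (d ^ (249 / 250 : ℝ) + Ts lam (K + 1)) ∧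
        ‖y - v‖ < B * d ^ (249 / 500 : ℝ)} ∧
      ∀ y, Ts lam (K + 1) < -T.ρ y → d < B * (-T.ρ y) → -T.ρ y < B * (d ^ (249 / 250 : ℝ) + Ts lam (K + 1)) → ‖y - v‖ < B * d ^ (249 / 500 : ℝ) →
        ‖G y‖ ≤ A ∧ ‖hs T Φ y - G y‖ ≤ d ^ (1 / 400 : ℝ) := by
  obtain ⟨Ch, hCh1, hcl⟩ := hz_cl T Cs N
  have hn0 : (0 : ℝ) ≤ n := Nat.cast_nonneg n
  obtain ⟨C₂, hC₂⟩ : ∃ C₂ : ℝ, C₂ = 8 * B + 88 * n + Ch := ⟨_, rfl⟩
  filter_upwards [hcl, vis C₂, Wt_facts T, chn_good T Cs, inv_ok T Cs, dz T Cs, hz_bd T Cs N, ineqs (8 * B), half (2 * B) (show (0 : ℝ) < 43 / 20 by norm_num),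
    pow_small (8 * B) (show (5 / 11 : ℝ) < 249 / 250 by norm_num), pow_small (8 * B) (show (5 / 11 : ℝ) < 249 / 500 by norm_num),
    pow_small A (show (1 / 400 : ℝ) < 3 / 1000 by norm_num)] with lam hcl hvis hWt hchn hinv hdz hbd hin hhalf hps1 hps2 hps3 L K Φ d v hd hdl hNE hdv hvd
  obtain ⟨hl, hBl, hin⟩ := hin
  have hl1 : lam ≤ 1 := by nlinarith
  have hd1 : d ≤ 1 := hdl.trans (Real.rpow_le_one hl.le hl1 (by norm_num))
  have hC0 : 0 < C₂ := by linarith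
  have hdlam : d ^ (5 / 11 : ℝ) ≤ lam := by
    calc d ^ (5 / 11 : ℝ) ≤ (lam ^ (11 / 5 : ℝ)) ^ (5 / 11 : ℝ) := Real.rpow_le_rpow hd.le hdl (by norm_num)
      _ = lam := by rw [← Real.rpow_mul hl.le]; norm_num
  have hq1 : 8 * B * d ^ (249 / 250 : ℝ) ≤ lam := (hps1 d hd hdl).trans hdlam
  have hq2 : 8 * B * d ^ (249 / 500 : ℝ) ≤ lam := (hps2 d hd hdl).trans hdlam
  have hTK : ∀ k, 8 * B * Ts lam (k + 1) ≤ lam := fun k => ((hin k).2.2.2.2.2.2.1).trans (rs_le hl hl1 (k + 1))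
  have hTK2 : ∀ k, 2 * B * Ts lam (k + 1) ≤ Ts lam k := fun k => hhalf k
  have hll : lam ≤ lam ^ (1 / 4 : ℝ) := by
    calc lam = lam ^ (1 : ℝ) := (Real.rpow_one lam).symm
      _ ≤ lam ^ (1 / 4 : ℝ) := Real.rpow_le_rpow_of_exponent_ge hl hl1 (by norm_num)
  have hT0 := Ts_pos hl (K + 1)
  have hL1 := Φ.L1
  have hLe := Φ.Le
  have hA0 : 0 ≤ A := by
    have : Nonempty (Fin L) := ⟨⟨0, by omega⟩⟩
    obtain ⟨ω⟩ : Nonempty (Fin K → Fin L) := inferInstance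
    exact (norm_nonneg _).trans (Φ.bd ω 0 (mem_ball_self one_pos))
  obtain ⟨hW0, hW1, hWL, hWv⟩ := hWt L K hL1 hLe
  obtain ⟨hv1, κ, hκ, hv2, hv3, hv4, hv5⟩ := hvis K d hd hdl
  -- the heights
  have hup : ∀ y : En n, -T.ρ y < B * (d ^ (249 / 250 : ℝ) + Ts lam (K + 1)) → 4 * (-T.ρ y) ≤ lam := by
    intro y hy
    have := hTK K
    linarith
  have hTl : ∀ y : En n, -T.ρ y < B * (d ^ (249 / 250 : ℝ) + Ts lam (K + 1)) → ∀ l, 1 ≤ l → l ≤ κ → -T.ρ y ≤ Ts lam l := by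
    intro y hy l h1 h2
    have h3 := hv2 l h1 h2
    have h4 : Ts lam K ≤ Ts lam l := Ts_anti hl hl1 (h2.trans hκ)
    have h5 := hTK2 K
    have h6 : (2 * B) * d ^ (249 / 250 : ℝ) ≤ C₂ * d ^ (249 / 250 : ℝ) := mul_le_mul_of_nonneg_right (by linarith) (Real.rpow_pos_of_pos hd _).le
    linarith
  have hq0 : 0 < d ^ (249 / 500 : ℝ) := Real.rpow_pos_of_pos hd _
  have hnear : ∀ y : En n, ‖y - v‖ < B * d ^ (249 / 500 : ℝ) → ∀ l, l ≤ κ → ‖y - v‖ < es lam l * rs lam l := by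
    intro y hy l h2
    have h6 : B * d ^ (249 / 500 : ℝ) ≤ C₂ * d ^ (249 / 500 : ℝ) := mul_le_mul_of_nonneg_right (by linarith) hq0.le
    have h7 : es lam κ * rs lam κ ≤ es lam l * rs lam l := mul_le_mul (es_anti hl hl1 h2) (rs_anti hl hl1 h2) (rs_pos hl κ).le (es_pos hl l).le
    linarith
  have hkn : 4 ≤ kn n := by unfold kn; nlinarith
  have hr0 : rs lam 0 = lam := rs_zero lam
  have hve : ‖v - T.e‖ ≤ lam ^ 2 := hNE.near
  have hlam2 : lam ^ 2 ≤ lam := by nlinarith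
  -- the nodes
  obtain ⟨nd, hnd⟩ : ∃ nd : (Fin K → Fin L) → Nd n, nd = fun ω => chn lam (shO L K ω) (Φ.Sy ω).nx κ 0 (root T.e) v := ⟨_, rfl⟩
  have hndl : ∀ ω, nd ω = chn lam (shO L K ω) (Φ.Sy ω).nx κ 0 (root T.e) v := fun ω => by rw [hnd]
  have hgood : ∀ ω, Wt T lam L K ω v ≠ 0 → (Φ.Sy ω).Good κ (nd ω) ∧ ‖v - (nd ω).Ψ (nd ω).q‖ ≤ kn n * rs lam κ := by
    intro ω hω
    have h1 := hchn (shO L K ω) (Φ.Sy ω) κ 0 (root T.e) v (Φ.Sy ω).good0 hNE.lt (by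
      change ‖v - T.e‖ ≤ kn n * rs lam 0
      rw [hr0]
      nlinarith) (fun l hl1' hl2 => ⟨hTl v hvd l hl1' (by omega), hWL ω v hω l hl1' (by omega) (by
        have := hTl v hvd l hl1' (by omega)
        have := Ts_pos hl l
        linarith)⟩)
    rw [Nat.zero_add, ← hndl] at h1
    exact h1
  have hZZ : ∀ ω, Wt T lam L K ω v ≠ 0 → ∀ y, Ts lam (K + 1) < -T.ρ y → d < B * (-T.ρ y) → -T.ρ y < B * (d ^ (249 / 250 : ℝ) + Ts lam (K + 1)) →
      ‖y - v‖ < B * d ^ (249 / 500 : ℝ) → ZZ T lam κ (nd ω) y := by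
    intro ω hω y hy1 hy2 hy3 hy4
    obtain ⟨hg1, hg2⟩ := hgood ω hω
    have hny := hnear y hy4 κ le_rfl
    have hrk := rs_pos hl κ
    have hsq := Real.sqrt_nonneg (-T.ρ y)
    have he1 : es lam κ ≤ 1 := by
      have h8 := (hin κ).2.2.2.2.2.2.2.1
      have h9 := es_pos hl κ
      nlinarith
    refine ⟨by linarith, ?_, ?_, ?_⟩
    · rcases hκ.eq_or_lt with hk | hk
      · rw [hk]
        have h7 : rs lam (K + 1) ^ (11 / 5 : ℝ) ≤ Ts lam (K + 1) := by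
          unfold Ts
          exact Real.rpow_le_rpow_of_exponent_ge (rs_pos hl _) ((rs_le hl hl1 _).trans hl1) (by norm_num)
        linarith
      · obtain ⟨-, -, -, -, h5, -⟩ := hv5 hk
        have h6 : 0 < rs lam (κ + 1) ^ (11 / 5 : ℝ) := Real.rpow_pos_of_pos (rs_pos hl _) _
        have h7 : B * rs lam (κ + 1) ^ (11 / 5 : ℝ) ≤ C₂ * rs lam (κ + 1) ^ (11 / 5 : ℝ) := mul_le_mul_of_nonneg_right (by linarith) h6.le
        have h8 : B * rs lam (κ + 1) ^ (11 / 5 : ℝ) ≤ B * (-T.ρ y) := by linarith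
        have h9 := le_of_mul_le_mul_left h8 (by linarith)
        linarith
    · have := hup y hy3
      linarith
    · have h1 : ‖y - (nd ω).Ψ (nd ω).q‖ ≤ ‖y - v‖ + ‖v - (nd ω).Ψ (nd ω).q‖ := norm_sub_le_norm_sub_add_norm_sub _ _ _
      nlinarith
  have hHnd : ∀ ω, Wt T lam L K ω v ≠ 0 → ∀ y, Ts lam (K + 1) < -T.ρ y → d < B * (-T.ρ y) → -T.ρ y < B * (d ^ (249 / 250 : ℝ) + Ts lam (K + 1)) →
      ‖y - v‖ < B * d ^ (249 / 500 : ℝ) → ‖y‖ < 2 ∧ ‖(nd ω).inv y‖ < 1 := by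
    intro ω hω y hy1 hy2 hy3 hy4
    obtain ⟨h1, h2, -, -⟩ := hdz (shO L K ω) (Φ.Sy ω) κ (nd ω) y (hgood ω hω).1 (hZZ ω hω y hy1 hy2 hy3 hy4)
    exact ⟨h1, h2⟩
  refine ⟨fun y => ∑ ω, Wt T lam L K ω v • Φ.H ω ((nd ω).inv y), ?_, ?_⟩
  · refine DifferentiableOn.fun_sum fun ω _ => ?_
    by_cases hω : Wt T lam L K ω v = 0
    · simp only [hω, zero_smul]
      exact differentiableOn_const _
    · have hcomp : DifferentiableOn ℂ (fun y => Φ.H ω ((nd ω).inv y)) {y | Ts lam (K + 1) < -T.ρ y ∧ d < B * (-T.ρ y) ∧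
          -T.ρ y < B * (d ^ (249 / 250 : ℝ) + Ts lam (K + 1)) ∧ ‖y - v‖ < B * d ^ (249 / 500 : ℝ)} := by
        refine (Φ.hol ω).comp (t := ball 0 1) (((hinv (shO L K ω) (Φ.Sy ω) κ (nd ω) (hgood ω hω).1).2.2.2.2).mono ?_) ?_
        · intro y hy
          rw [mem_ball_zero_iff]
          exact (hHnd ω hω y hy.1 hy.2.1 hy.2.2.1 hy.2.2.2).1
        · intro y hy
          rw [mem_ball_zero_iff]
          exact (hHnd ω hω y hy.1 hy.2.1 hy.2.2.1 hy.2.2.2).2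
      exact hcomp.const_smul (Wt T lam L K ω v)
  · intro y hy1 hy2 hy3 hy4
    have hy0 : T.ρ y < 0 := by linarith
    have hHb : ∀ ω, Wt T lam L K ω v ≠ 0 → ‖Φ.H ω ((nd ω).inv y)‖ ≤ A := fun ω hω => Φ.bd ω _ (by
      rw [mem_ball_zero_iff]
      exact (hHnd ω hω y hy1 hy2 hy3 hy4).2)
    constructor
    · calc ‖∑ ω, Wt T lam L K ω v • Φ.H ω ((nd ω).inv y)‖ ≤ ∑ ω, ‖Wt T lam L K ω v • Φ.H ω ((nd ω).inv y)‖ := norm_sum_le _ _
        _ ≤ ∑ ω, Wt T lam L K ω v * A := by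
          refine Finset.sum_le_sum fun ω _ => ?_
          rw [norm_smul, Real.norm_of_nonneg (hW0 ω v)]
          by_cases hω : Wt T lam L K ω v = 0
          · rw [hω, zero_mul, zero_mul]
          · exact mul_le_mul_of_nonneg_left (hHb ω hω) (hW0 ω v)
        _ = A := by rw [← Finset.sum_mul, hW1, one_mul]
    · -- the evaluation points
      have hye : ‖y - T.e‖ ≤ kn n * lam := by
        have h1 : ‖y - T.e‖ ≤ ‖y - v‖ + ‖v - T.e‖ := norm_sub_le_norm_sub_add_norm_sub _ _ _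
        nlinarith
      have hDV0 : ∀ ω, Wt T lam L K ω y ≠ 0 → DV T lam (shO L K ω) K 0 (root T.e) y := by
        intro ω hω
        refine ⟨hy0, ?_, ?_, ?_, hWL ω y hω⟩
        · rw [hr0]
          exact hup y hy3
        · rw [Nat.zero_add]
          exact hy1.le
        · change ‖y - T.e‖ ≤ kn n * rs lam 0
          rw [hr0]
          exact hye
      have hdiff : ∀ ω, Wt T lam L K ω y ≠ 0 → Wt T lam L K ω v ≠ 0 →
          ‖Hz T lam (shO L K ω) (Φ.Sy ω).nx (Φ.H ω) K 0 (root T.e) y - Φ.H ω ((nd ω).inv y)‖ ≤ Ch * A * (d ^ (3 / 1000 : ℝ) / C₂) := by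
        intro ω hωy hωv
        have hlegv : ∀ l, 0 < l → l ≤ 0 + κ → 4 * es lam l ≤ wk lam (shO L K ω) l v := by
          intro l h1 h2
          refine hWL ω v hωv l h1 (by omega) ?_
          have := hTl v hvd l h1 (by omega)
          have := Ts_pos hl l
          linarith
        have hlegy : ∀ l, 0 < l → l ≤ 0 + κ → 4 * es lam l ≤ wk lam (shO L K ω) l y := by
          intro l h1 h2
          refine hWL ω y hωy l h1 (by omega) ?_
          have := hTl y hy3 l h1 (by omega)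
          have := Ts_pos hl l
          linarith
        have hn4 : ∀ l, l ≤ κ → ‖y - v‖ < 4 * es lam l * rs lam l := by
          intro l h2
          have h3 := hnear y hy4 l h2
          have h4 := mul_pos (es_pos hl l) (rs_pos hl l)
          linarith
        have hchn1 := hz_chn T hl (shO L K ω) (Φ.Sy ω).nx (Φ.H ω) κ (K - κ) 0 (root T.e) y v (fun l h1 h2 => ⟨hTl y hy3 l h1 (by omega), hn4 l (by omega), hlegv l h1 h2⟩)
        rw [Nat.zero_add, ← hndl, show κ + (K - κ) = K by omega] at hchn1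
        rw [hchn1]
        rcases hκ.eq_or_lt with hk | hk
        · rw [hk, Nat.sub_self]
          change ‖Φ.H ω ((nd ω).inv y) - Φ.H ω ((nd ω).inv y)‖ ≤ _
          rw [sub_self, norm_zero]
          have := Real.rpow_pos_of_pos hd (3 / 1000 : ℝ)
          have : 0 ≤ Ch := by linarith
          positivity
        · obtain ⟨-, h5a, -, -, h5b, -⟩ := hv5 hk
          have hceq : chn lam (shO L K ω) (Φ.Sy ω).nx κ 0 (root T.e) y = nd ω := by
            rw [hndl]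
            refine D6_chn_eq lam (shO L K ω) (Φ.Sy ω).nx κ 0 (root T.e) y v fun l h1 h2 => ?_
            unfold ck
            refine (cell_eq (rs_pos hl l) (shO L K ω l) ?_).symm
            rw [norm_sub_rev]
            have h3 := hn4 l (by omega)
            have h4 := mul_le_mul_of_nonneg_right (hlegv l h1 h2) (rs_pos hl l).le
            unfold wk at h4
            linarith
          have hgy := hchn (shO L K ω) (Φ.Sy ω) κ 0 (root T.e) y (Φ.Sy ω).good0 hy0 (by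
            change ‖y - T.e‖ ≤ kn n * rs lam 0
            rw [hr0]
            exact hye) (fun l h1 h2 => ⟨hTl y hy3 l h1 (by omega), hlegy l h1 h2⟩)
          rw [Nat.zero_add, hceq] at hgy
          have hDV : DV T lam (shO L K ω) (K - κ) κ (nd ω) y := by
            refine ⟨hy0, ?_, ?_, hgy.2, ?_⟩
            · rcases Nat.eq_zero_or_pos κ with h0 | h0
              · rw [h0, hr0]
                exact hup y hy3
              · have h1 := hTl y hy3 κ h0 le_rfl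
                obtain ⟨k, hk'⟩ : ∃ k, κ = k + 1 := ⟨κ - 1, by omega⟩
                have h2 := (hin k).2.2.2.2.2.2.1
                rw [← hk'] at h2
                have h3 := Ts_pos hl κ
                nlinarith
            · rw [show κ + (K - κ) + 1 = K + 1 by omega]
              exact hy1.le
            · intro l h1 h2 h3
              exact hWL ω y hωy l (by omega) (by omega) h3
          have hlo : rs lam (κ + 1) ^ (11 / 5 : ℝ) ≤ -T.ρ y := by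
            have h6 : 0 < rs lam (κ + 1) ^ (11 / 5 : ℝ) := Real.rpow_pos_of_pos (rs_pos hl _) _
            have h7 : B * rs lam (κ + 1) ^ (11 / 5 : ℝ) ≤ C₂ * rs lam (κ + 1) ^ (11 / 5 : ℝ) := mul_le_mul_of_nonneg_right (by linarith) h6.le
            have h8 : B * rs lam (κ + 1) ^ (11 / 5 : ℝ) ≤ B * (-T.ρ y) := by linarith
            exact le_of_mul_le_mul_left h8 (by linarith)
          have h6 := hcl (shO L K ω) (Φ.Sy ω) (Φ.H ω) A (K - κ) κ (nd ω) y hA0 (Φ.hol ω) (Φ.bd ω) hgy.1 hDV hlo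
          refine h6.trans (mul_le_mul_of_nonneg_left ?_ (mul_nonneg (by linarith) hA0))
          rw [le_div_iff₀ hC0]
          have h7 : 0 ≤ ts lam (κ + 1) / d := div_nonneg (ts_pos hl _).le hd.le
          have h8 : d ^ (1 / 100 : ℝ) ≤ d ^ (3 / 1000 : ℝ) := Real.rpow_le_rpow_of_exponent_ge hd hd1 (by norm_num)
          have h9 : 0 ≤ C₂ * (ts lam (κ + 1) / d) := mul_nonneg hC0.le h7
          linarith
      have hws := D6_wsum T hl hB (by linarith) hd hd1 hκ y v hy2 hdv hy4.le (hTl y hy3) (hTl v hvd) hv1 hv3 (fun hk => by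
        obtain ⟨-, -, -, h5a, -, h5b⟩ := hv5 hk
        exact ⟨h5a, h5b⟩)
      have hW2 := hWv y v
      have hp0 : 0 ≤ d ^ (3 / 1000 : ℝ) := (Real.rpow_pos_of_pos hd _).le
      have hsv := sum_var (W := fun ω => Wt T lam L K ω y) (W' := fun ω => Wt T lam L K ω v)
        (a := fun ω => Hz T lam (shO L K ω) (Φ.Sy ω).nx (Φ.H ω) K 0 (root T.e) y) (a' := fun ω => Φ.H ω ((nd ω).inv y)) hA0
        (B := Ch * A * (d ^ (3 / 1000 : ℝ) / C₂)) (mul_nonneg (mul_nonneg (by linarith) hA0) (div_nonneg hp0 hC0.le)) (fun ω => hW0 ω y) (fun ω => hW0 ω v) (hW1 y)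
        (fun ω hω => hbd (shO L K ω) (Φ.Sy ω) (Φ.H ω) A K 0 (root T.e) y (Φ.bd ω) (Φ.Sy ω).good0 (hDV0 ω hω)) hHb hdiff
      have hfin : A * ∑ ω, |Wt T lam L K ω y - Wt T lam L K ω v| + Ch * A * (d ^ (3 / 1000 : ℝ) / C₂) ≤ A * d ^ (3 / 1000 : ℝ) := by
        have h1 : ∑ ω, |Wt T lam L K ω y - Wt T lam L K ω v| ≤ (8 * B + 88 * n) * d ^ (3 / 1000 : ℝ) / C₂ := by
          rw [le_div_iff₀ hC0, mul_comm]
          exact (mul_le_mul_of_nonneg_left hW2 hC0.le).trans hws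
        have h2 := mul_le_mul_of_nonneg_left h1 hA0
        have h3 : A * ((8 * B + 88 * n) * d ^ (3 / 1000 : ℝ) / C₂) + Ch * A * (d ^ (3 / 1000 : ℝ) / C₂) = A * d ^ (3 / 1000 : ℝ) := by
          have h4 : A * ((8 * B + 88 * n) * d ^ (3 / 1000 : ℝ) / C₂) + Ch * A * (d ^ (3 / 1000 : ℝ) / C₂) = A * d ^ (3 / 1000 : ℝ) * ((8 * B + 88 * n + Ch) / C₂) := by ring
          rw [h4, ← hC₂, div_self hC0.ne', mul_one]
        linarith
      exact hsv.trans (hfin.trans (hps3 d hd hdl))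

/-- Almost holomorphy of the averaged solution.
PROOF. Let `C₂` be large (depending on `C₁`, `A`, `n`), `vis` with `C₂`, `K`, `d` gives `κ ≤ K`. Write `W = Wt .. y`, `W' = Wt .. v`, `U` = the region.
(0) For `y ∈ U ∪ {v}` and `1 ≤ l ≤ κ`: `-ρ y ≤ C₁ (d^.996 + Ts (K+1)) ≤ Ts l` (`C₂ d^.996 ≤ Ts l`, `C₂ Ts (K+1) ≤ Ts K ≤ Ts l`: `ineqs`), so `Yc l y = Vc l y = 1`; and `‖y - v‖ ≤ C₁ d^.498 ≤ es κ rs κ ≤ es l rs l`.
(1) `G y = ∑_ω if Wt ω v = 0 then 0 else Wt ω v • H_ω ((chn κ 0 root v).inv y)`. For `ω` with `Wt ω v ≠ 0`: `Leg` at `v` (`Wt_facts`), `chn_good`: `ν := chn ..` is `Good κ`, `‖v - ν.Ψ ν.q‖ ≤ kn rs κ`. For `y ∈ U`: `ZZ κ ν y`: `lo`: if `κ < K`: `C₂ rs (κ+1) ^ 2.2 ≤ d ≤ C₁ (-ρ y)`; if `κ = K`: `rs (K+1) ^ 2.2 ≤ Ts (K+1) ≤ -ρ y`;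
`up`: `-ρ y ≤ C₁ (..) ≤ lam ^ (1/4)`; `cen`: `‖y - v‖ ≤ rs κ`. So `y ↦ H_ω (ν.inv y)` is holomorphic on the open set `U` (`inv_ok`, `dz`) and bounded by `A`: `‖G y‖ ≤ A`.
(2) For `ω` with `Wt ω v ≠ 0` and `Wt ω y ≠ 0`: `ne_dv` for `y` (`‖y - e‖ ≤ lam²`): `DV K 0 root y`. `hz_chn`: `Hz K 0 root y = Hz (K - κ) κ ν y`, and `DV (K - κ) κ ν y` (iterate `dv_next` for `y`: `-ρ y < 2 Ts l`, the cells of `y` and `v` agree). If `κ = K`: it is `H (ν.inv y)`. If `κ < K`: `hz_cl` (`rs (κ+1) ^ 2.2 ≤ -ρ y`):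
`‖Hz - H (ν.inv y)‖ ≤ C A rs κ ^ 0.3 ≤ d ^ (1/100) / ..` (`vis`).
(3) `sum_var` (`W`, `W'`, `a = Hz_ω`, `a' = H_ω (ν.inv y)`): `‖hs y - G y‖ ≤ A ∑ |W - W'| + C A rs κ ^ 0.3`. `∑ |W - W'|` by `Wt_facts`: for `l ≤ κ`: the first term is `0`, the sum of the second ones is `≤ 4 C₁ ∑ d^.498/(es l rs l) ≤ d ^ (1/100)/..` (`vis`). For `l = κ + 1 ≤ K`: `88 n es (κ+1) ≤ d ^ (3/1000)/..` (`vis`), and
if `Vc y ≠ 0` then `d/C₁ < -ρ y < 4 Ts (κ+1)`: the first part of `vis`: `4 C₁ d^.498 / (es rs) ≤ d ^ (1/100)/..`. For `κ + 2 ≤ l ≤ K`: `-ρ y > d / C₁ ≥ 4 Ts l` and the same for `v` (hypothesis on `v`): `Vc = 0`: both terms are `0`. The total is `≤ d ^ (1/400)` (`pow_small`: `A C d ^ (3/1000) ≤ d ^ (1/400)`). -/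
theorem hs_nh (T : Tg n) (Cs A C₁ : ℝ) (N : ℕ) : ∀ᶠ lam in 𝓝[>] (0 : ℝ), ∀ (L K : ℕ) (Φ : Fam T Cs lam A L K N) (d : ℝ) (v : En n), 0 < d → d ≤ lam ^ (11 / 5 : ℝ) →
    NE T lam K v → 2 * ‖v - T.e‖ ≤ lam ^ 2 → d < C₁ * (-T.ρ v) → -T.ρ v < C₁ * (d ^ (249 / 250 : ℝ) + Ts lam (K + 1)) →
    ∃ G : En n → En N, DifferentiableOn ℂ G {y | Ts lam (K + 1) < -T.ρ y ∧ d < C₁ * (-T.ρ y) ∧ -T.ρ y < C₁ * (d ^ (249 / 250 : ℝ) + Ts lam (K + 1)) ∧
        ‖y - v‖ < C₁ * d ^ (249 / 500 : ℝ)} ∧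
      ∀ y, Ts lam (K + 1) < -T.ρ y → d < C₁ * (-T.ρ y) → -T.ρ y < C₁ * (d ^ (249 / 250 : ℝ) + Ts lam (K + 1)) → ‖y - v‖ < C₁ * d ^ (249 / 500 : ℝ) →
        ‖G y‖ ≤ A ∧ ‖hs T Φ y - G y‖ ≤ d ^ (1 / 400 : ℝ) := by
  have hB : (1 : ℝ) ≤ max C₁ 1 := le_max_right _ _
  have hBC : C₁ ≤ max C₁ 1 := le_max_left _ _
  filter_upwards [D6_main T Cs A (max C₁ 1) N hB, ev_lt one_pos] with lam hm hl L K Φ d v hd hdl hNE hve hdv hvd
  have hT0 := Ts_pos hl.1 (K + 1)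
  have hp1 := Real.rpow_pos_of_pos hd (249 / 250 : ℝ)
  have hp2 := Real.rpow_pos_of_pos hd (249 / 500 : ℝ)
  have e1 : ∀ y : En n, T.ρ y < 0 → d < C₁ * (-T.ρ y) → d < max C₁ 1 * (-T.ρ y) := fun y hy h =>
    h.trans_le (mul_le_mul_of_nonneg_right hBC (by linarith))
  have e2 : ∀ y : En n, -T.ρ y < C₁ * (d ^ (249 / 250 : ℝ) + Ts lam (K + 1)) → -T.ρ y < max C₁ 1 * (d ^ (249 / 250 : ℝ) + Ts lam (K + 1)) := fun y h =>
    h.trans_le (mul_le_mul_of_nonneg_right hBC (by linarith))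
  have e3 : ∀ y : En n, ‖y - v‖ < C₁ * d ^ (249 / 500 : ℝ) → ‖y - v‖ < max C₁ 1 * d ^ (249 / 500 : ℝ) := fun y h =>
    h.trans_le (mul_le_mul_of_nonneg_right hBC hp2.le)
  obtain ⟨G, hG1, hG2⟩ := hm L K Φ d v hd hdl hNE (e1 v hNE.lt hdv) (e2 v hvd)
  refine ⟨G, hG1.mono ?_, ?_⟩
  · rintro y ⟨h1, h2, h3, h4⟩
    exact ⟨h1, e1 y (by linarith) h2, e2 y h3, e3 y h4⟩
  · intro y h1 h2 h3 h4
    exact hG2 y h1 (e1 y (by linarith) h2) (e2 y h3) (e3 y h4)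

end Pool.Agent.MPca0fc2.EQ
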