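import Pool.Agent.Lib.MP_ca0fc2_an.EQ.D6
import Pool.Agent.Lib.MP_ca0fc2_an.EQ.A4

/-! Campaign EQ, task D7: the localized averaged solution. -/

set_option autoImplicit false

open Metric Set Filter Topology

namespace Pool.Agent.MPca0fc2.EQ

open Pool.Agent.MPca0fc2.TB (En)

variable {n N : ℕ}

private theorem D7_zt_eq (e z : En n) (he : ‖e‖ = 1) : zt e z = inner ℂ e (e - z) := by
  unfold zt
  rw [inner_sub_right, inner_self_eq_norm_sq_to_K, he]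
  simp

private theorem D7_zt_le (e z : En n) (he : ‖e‖ = 1) : (zt e z).re ≤ ‖z - e‖ := by
  rw [D7_zt_eq e z he]
  refine (Complex.re_le_norm _).trans ((norm_inner_le_norm _ _).trans ?_)
  rw [he, one_mul, norm_sub_rev]

private theorem D7_pk_norm (lam : ℝ) (e z : En n) :
    ‖pk lam e z‖ = Real.exp (-(lam ^ (-6 : ℝ) * (zt e z).re)) := by
  unfold pk
  rw [Complex.norm_exp]
  congr 1
  rw [Complex.neg_re, Complex.re_ofReal_mul]

/-- PROOF. -/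
theorem pk_facts (T : Tg n) {lam : ℝ} (hl : 0 < lam) : Differentiable ℂ (pk lam T.e : En n → ℂ) ∧
    (∀ z : En n, T.ρ z ≤ 0 → ‖pk lam T.e z‖ ≤ 1 ∧ ‖pk lam T.e z‖ ≤ Real.exp (-(lam ^ (-6 : ℝ) * (-T.ρ z) / 2))) ∧
    ∀ z : En n, ‖z - T.e‖ ≤ lam ^ (6 : ℝ) / 2 → 1 / 2 ≤ ‖pk lam T.e z‖ := by
  have hL : 0 < lam ^ (-6 : ℝ) := Real.rpow_pos_of_pos hl _
  refine ⟨?_, ?_, ?_⟩
  · have h1 : Differentiable ℂ (fun w : En n => zt T.e w) := by
      have h2 : (fun w : En n => zt T.e w) = fun w => 1 - innerSL ℂ T.e w := by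
        funext w
        rfl
      rw [h2]
      exact (differentiable_const _).sub (innerSL ℂ T.e).differentiable
    have h3 : (pk lam T.e : En n → ℂ) = fun z => Complex.exp (-(((lam ^ (-6 : ℝ) : ℝ) : ℂ) * zt T.e z)) := rfl
    rw [h3]
    exact ((h1.const_mul _).neg).cexp
  · intro z hz
    have h1 := re_zt T z
    have h2 : 0 ≤ T.c * ‖z - T.e‖ ^ 2 := mul_nonneg T.cpos.le (sq_nonneg _)
    have h3 : -T.ρ z ≤ 2 * (zt T.e z).re := by linarith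
    have h4 : lam ^ (-6 : ℝ) * (-T.ρ z) / 2 ≤ lam ^ (-6 : ℝ) * (zt T.e z).re := by
      have := mul_le_mul_of_nonneg_left h3 hL.le
      linarith
    have h5 : 0 ≤ lam ^ (-6 : ℝ) * (-T.ρ z) / 2 := by
      have : 0 ≤ lam ^ (-6 : ℝ) * (-T.ρ z) := mul_nonneg hL.le (by linarith)
      linarith
    rw [D7_pk_norm]
    refine ⟨?_, Real.exp_le_exp.2 (by linarith)⟩
    rw [Real.exp_le_one_iff]
    linarith
  · intro z hz
    rw [D7_pk_norm]
    have h1 := D7_zt_le T.e z T.he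
    have h2 : lam ^ (-6 : ℝ) * (zt T.e z).re ≤ 1 / 2 := by
      calc lam ^ (-6 : ℝ) * (zt T.e z).re ≤ lam ^ (-6 : ℝ) * (lam ^ (6 : ℝ) / 2) :=
            mul_le_mul_of_nonneg_left (h1.trans hz) hL.le
        _ = (lam ^ (-6 : ℝ) * lam ^ (6 : ℝ)) / 2 := by ring
        _ = 1 / 2 := by rw [← Real.rpow_add hl]; norm_num
    have h3 := Real.add_one_le_exp (-(lam ^ (-6 : ℝ) * (zt T.e z).re))
    linarith

/-- PROOF. -/
theorem X0_facts {lam : ℝ} (hl : 0 < lam) (e z z' : En n) : 0 ≤ X0 lam e z ∧ X0 lam e z ≤ 1 ∧ (X0 lam e z ≠ 0 → ‖z - e‖ < 2 * lam ^ (5 / 2 : ℝ)) ∧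
    (‖z - e‖ ≤ lam ^ (5 / 2 : ℝ) → X0 lam e z = 1) ∧ |X0 lam e z - X0 lam e z'| ≤ ‖z - z'‖ / lam ^ (5 / 2 : ℝ) := by
  have hs : 0 < lam ^ (5 / 2 : ℝ) := Real.rpow_pos_of_pos hl _
  unfold X0
  refine ⟨clp_nonneg _, clp_le_one _, ?_, ?_, ?_⟩
  · intro h
    have h1 : 0 < clp (2 - ‖z - e‖ / lam ^ (5 / 2 : ℝ)) := lt_of_le_of_ne (clp_nonneg _) (Ne.symm h)
    have h2 := clp_pos h1
    have h3 : ‖z - e‖ / lam ^ (5 / 2 : ℝ) < 2 := by linarith
    rwa [div_lt_iff₀ hs] at h3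
  · intro h
    apply clp_one
    have h3 : ‖z - e‖ / lam ^ (5 / 2 : ℝ) ≤ 1 := by
      rw [div_le_iff₀ hs]; linarith
    linarith
  · refine (clp_lip _ _).trans ?_
    have h1 : (2 - ‖z - e‖ / lam ^ (5 / 2 : ℝ)) - (2 - ‖z' - e‖ / lam ^ (5 / 2 : ℝ)) =
        (‖z' - e‖ - ‖z - e‖) / lam ^ (5 / 2 : ℝ) := by ring
    rw [h1, abs_div, abs_of_pos hs]
    gcongr
    have h2 := abs_norm_sub_norm_le (z' - e) (z - e)
    have h3 : z' - e - (z - e) = -(z - z') := by abel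
    rw [h3, norm_neg] at h2
    exact h2

private theorem D7_small : ∀ᶠ lam in 𝓝[>] (0 : ℝ), 0 < lam ∧ lam < 1 ∧ 6 * lam ^ (5 / 2 : ℝ) ≤ lam ^ 2 := by
  filter_upwards [ev_lt (a := 1) one_pos, small' 6 (α := 5 / 2) (β := 2) (by norm_num)] with lam h1 h2
  refine ⟨h1.1, h1.2, ?_⟩
  have h3 := h2 lam h1.1 le_rfl
  rwa [Real.rpow_two] at h3

private theorem D7_height (T : Tg n) (z : En n) : -T.ρ z ≤ 2 * ‖z - T.e‖ := by
  have h1 := re_zt T z
  have h2 := D7_zt_le T.e z T.he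
  have h3 : 0 ≤ T.c * ‖z - T.e‖ ^ 2 := mul_nonneg T.cpos.le (sq_nonneg _)
  linarith

private theorem D7_FD_norm (T : Tg n) {Cs lam A : ℝ} {L K : ℕ} (Φ : Fam T Cs lam A L K N) (hl : 0 < lam) (z : En n) :
    ‖FD T Φ z‖ = X0 lam T.e z * ‖pk lam T.e z‖ * ‖hs T Φ z‖ := by
  unfold FD
  rw [norm_smul, norm_mul, Complex.norm_real, Real.norm_of_nonneg (X0_facts hl T.e z z).1]

private theorem D7_pk_lip (T : Tg n) {lam : ℝ} (hl : 0 < lam) {z z' : En n} (hz : T.ρ z < 0) (hz' : T.ρ z' < 0)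
    (h1 : -T.ρ z ≤ 1) (h2 : ‖z - T.e‖ ≤ 1) :
    ‖pk lam T.e z' - pk lam T.e z‖ ≤ 16 * T.C * (3 + T.C) * (‖z - z'‖ / (-T.ρ z)) := by
  obtain ⟨hd, hn, -⟩ := pk_facts T hl
  obtain ⟨u, hu⟩ : ∃ u : En 1, ‖u‖ = 1 := ⟨EuclideanSpace.single 0 1, by simp⟩
  have hC := T.one_le
  have hD : 0 < -T.ρ z := by linarith
  have h3 := fl T (fun x => pk lam T.e x • u) (x := z) (w := z' - z) (M := 1) hz
    ((hd.smul_const u).differentiableOn) ?_ ?_
  · have e1 : z + (z' - z) = z' := by abel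
    rw [e1, ← sub_smul, norm_smul, hu, mul_one] at h3
    refine h3.trans ?_
    have h4 : ‖pd T.ρ z (z' - z)‖ ≤ (2 + T.C) * ‖z - z'‖ := by
      refine (pd_le T.ρ z (z' - z)).trans ?_
      rw [norm_sub_rev z' z]
      refine mul_le_mul_of_nonneg_right ((fd_le T z).trans ?_) (norm_nonneg _)
      nlinarith
    have h5 : -T.ρ z ≤ Real.sqrt (-T.ρ z) := by
      apply Real.le_sqrt_of_sq_le
      nlinarith
    have h6 : ‖z' - z‖ / Real.sqrt (-T.ρ z) ≤ ‖z - z'‖ / (-T.ρ z) := by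
      rw [norm_sub_rev z' z]
      gcongr
    have h7 : ‖pd T.ρ z (z' - z)‖ / (-T.ρ z) ≤ (2 + T.C) * (‖z - z'‖ / (-T.ρ z)) := by
      rw [← mul_div_assoc]
      gcongr
    have h8 : 0 ≤ ‖z - z'‖ / (-T.ρ z) := by positivity
    calc 16 * T.C * 1 * (‖pd T.ρ z (z' - z)‖ / (-T.ρ z) + ‖z' - z‖ / Real.sqrt (-T.ρ z))
        ≤ 16 * T.C * 1 * ((2 + T.C) * (‖z - z'‖ / (-T.ρ z)) + ‖z - z'‖ / (-T.ρ z)) := by
          apply mul_le_mul_of_nonneg_left _ (by linarith)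
          linarith
      _ = 16 * T.C * (3 + T.C) * (‖z - z'‖ / (-T.ρ z)) := by ring
  · intro x' _ hx'
    simp only [norm_smul, hu, mul_one]
    exact (hn x' (by linarith)).1
  · have e1 : z + (z' - z) = z' := by abel
    simp only [e1, norm_smul, hu, mul_one]
    exact (hn z' hz'.le).1

/-- Bounds and variation. -/
theorem fd_lip (T : Tg n) (Cs : ℝ) (N : ℕ) : ∃ C : ℝ, 1 ≤ C ∧ ∀ᶠ lam in 𝓝[>] (0 : ℝ), ∀ (A : ℝ) (L K : ℕ) (Φ : Fam T Cs lam A L K N), 0 ≤ A →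
    (∀ z, T.ρ z < 0 → Ts lam (K + 1) ≤ -T.ρ z → ‖FD T Φ z‖ ≤ A * ‖pk lam T.e z‖) ∧
    ∀ z z', T.ρ z < 0 → T.ρ z' < 0 → Ts lam (K + 1) ≤ -T.ρ z → Ts lam (K + 1) ≤ -T.ρ z' → 40 * ‖z - z'‖ ≤ -T.ρ z →
      ‖FD T Φ z - FD T Φ z'‖ ≤ C * A * ‖z - z'‖ / (-T.ρ z) := by
  obtain ⟨Ch, hCh1, hCh⟩ := hs_lip T Cs N
  have hC := T.one_le
  refine ⟨6 + 16 * T.C * (3 + T.C) + Ch, by nlinarith, ?_⟩
  filter_upwards [hCh, hs_bd T Cs N, D7_small] with lam h1 h2 h3 A L K Φ hA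
  obtain ⟨hl, hl1, h3⟩ := h3
  have hsp : 0 < lam ^ (5 / 2 : ℝ) := Real.rpow_pos_of_pos hl _
  have hl2 : lam ^ 2 ≤ 1 := by nlinarith
  refine ⟨?_, ?_⟩
  · intro z hz hzT
    obtain ⟨a1, a2, a3, -, -⟩ := X0_facts hl T.e z z
    rw [D7_FD_norm T Φ hl]
    by_cases h0 : X0 lam T.e z = 0
    · rw [h0]
      simp only [zero_mul]
      positivity
    · have h4 : NE T lam K z := ⟨hz, hzT, by have := a3 h0; linarith⟩
      have h5 := h2 A L K Φ z h4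
      calc X0 lam T.e z * ‖pk lam T.e z‖ * ‖hs T Φ z‖ ≤ 1 * ‖pk lam T.e z‖ * A := by gcongr
        _ = A * ‖pk lam T.e z‖ := by ring
  · intro z z' hz hz' hzT hzT' hzz
    obtain ⟨D, hD⟩ : ∃ D, D = -T.ρ z := ⟨_, rfl⟩
    obtain ⟨Δ, hΔ⟩ : ∃ Δ, Δ = ‖z - z'‖ := ⟨_, rfl⟩
    have hD0 : 0 < D := by rw [hD]; linarith
    have hΔ0 : 0 ≤ Δ := by rw [hΔ]; exact norm_nonneg _
    obtain ⟨a1, a2, a3, -, a5⟩ := X0_facts hl T.e z z'
    obtain ⟨b1, b2, b3, -, -⟩ := X0_facts hl T.e z' z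
    have hgoal0 : 0 ≤ (6 + 16 * T.C * (3 + T.C) + Ch) * A * Δ / D := by
      have : 0 ≤ 6 + 16 * T.C * (3 + T.C) + Ch := by nlinarith
      positivity
    by_cases h00 : X0 lam T.e z = 0 ∧ X0 lam T.e z' = 0
    · have e1 : FD T Φ z = 0 := by unfold FD; rw [h00.1]; simp
      have e2 : FD T Φ z' = 0 := by unfold FD; rw [h00.2]; simp
      rw [e1, e2, sub_zero, norm_zero, ← hΔ, ← hD]
      exact hgoal0
    · have hDe := D7_height T z
      rw [← hD] at hDe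
      have hzz2 : 40 * Δ ≤ D := by rw [hD, hΔ]; exact hzz
      have t1 : ‖z - T.e‖ ≤ ‖z' - T.e‖ + Δ := by
        have e : z - T.e = (z' - T.e) + (z - z') := by abel
        calc ‖z - T.e‖ = ‖(z' - T.e) + (z - z')‖ := by rw [← e]
          _ ≤ _ := by rw [hΔ]; exact norm_add_le _ _
      have t2 : ‖z' - T.e‖ ≤ ‖z - T.e‖ + Δ := by
        have e : z' - T.e = (z - T.e) - (z - z') := by abel
        calc ‖z' - T.e‖ = ‖(z - T.e) - (z - z')‖ := by rw [← e]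
          _ ≤ _ := by rw [hΔ]; exact norm_sub_le _ _
      have hnear : ‖z - T.e‖ ≤ 3 * lam ^ (5 / 2 : ℝ) ∧ ‖z' - T.e‖ ≤ 3 * lam ^ (5 / 2 : ℝ) := by
        rw [not_and_or] at h00
        rcases h00 with h0 | h0
        · have := a3 h0
          constructor <;> linarith
        · have := b3 h0
          constructor <;> linarith
      have hN : NE T lam K z := ⟨hz, hzT, by linarith [hnear.1]⟩
      have hN' : NE T lam K z' := ⟨hz', hzT', by linarith [hnear.2]⟩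
      have g1 := h2 A L K Φ z hN
      have g2 := h2 A L K Φ z' hN'
      have g3 := h1 A L K Φ z z' hA hN hN' hzz
      rw [← hΔ, ← hD] at g3
      have p1 := ((pk_facts T hl).2.1 z hz.le).1
      have p2 := ((pk_facts T hl).2.1 z' hz'.le).1
      have hD6 : D ≤ 6 * lam ^ (5 / 2 : ℝ) := by linarith [hnear.1]
      have p3 := D7_pk_lip T hl hz hz' (by rw [← hD]; linarith) (by linarith [hnear.1])
      rw [← hΔ, ← hD] at p3
      have x1 : |X0 lam T.e z - X0 lam T.e z'| ≤ 6 * (Δ / D) := by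
        refine a5.trans ?_
        rw [← hΔ, ← mul_div_assoc, div_le_div_iff₀ hsp hD0]
        nlinarith
      have hq : 0 ≤ Δ / D := by positivity
      have e1 : FD T Φ z - FD T Φ z' = ((((X0 lam T.e z - X0 lam T.e z' : ℝ) : ℂ)) * pk lam T.e z) • hs T Φ z +
          ((((X0 lam T.e z' : ℝ) : ℂ)) * (pk lam T.e z - pk lam T.e z')) • hs T Φ z +
          ((((X0 lam T.e z' : ℝ) : ℂ)) * pk lam T.e z') • (hs T Φ z - hs T Φ z') := by
        unfold FD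
        push_cast
        rw [smul_sub]
        module
      have n1 : ‖((((X0 lam T.e z - X0 lam T.e z' : ℝ) : ℂ)) * pk lam T.e z) • hs T Φ z‖ ≤ (6 * (Δ / D)) * 1 * A := by
        rw [norm_smul, norm_mul, Complex.norm_real, Real.norm_eq_abs]
        gcongr
      have n2 : ‖((((X0 lam T.e z' : ℝ) : ℂ)) * (pk lam T.e z - pk lam T.e z')) • hs T Φ z‖ ≤
          1 * (16 * T.C * (3 + T.C) * (Δ / D)) * A := by
        rw [norm_smul, norm_mul, Complex.norm_real, Real.norm_of_nonneg b1, norm_sub_rev]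
        gcongr
      have n3 : ‖((((X0 lam T.e z' : ℝ) : ℂ)) * pk lam T.e z') • (hs T Φ z - hs T Φ z')‖ ≤
          1 * 1 * (Ch * A * Δ / D) := by
        rw [norm_smul, norm_mul, Complex.norm_real, Real.norm_of_nonneg b1]
        gcongr
      rw [e1, ← hΔ, ← hD]
      refine (norm_add₃_le).trans ?_
      calc _ ≤ (6 * (Δ / D)) * 1 * A + 1 * (16 * T.C * (3 + T.C) * (Δ / D)) * A + 1 * 1 * (Ch * A * Δ / D) :=
            add_le_add (add_le_add n1 n2) n3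
        _ = _ := by ring

private theorem D7_fam_nonneg (T : Tg n) {Cs lam A : ℝ} {L K : ℕ} (Φ : Fam T Cs lam A L K N) : 0 ≤ A := by
  have h1 := Φ.L1
  have h2 := Φ.bd (fun _ => ⟨0, by omega⟩) 0 (mem_ball_self one_pos)
  exact (norm_nonneg _).trans h2

private theorem D7_pow {lam d : ℝ} (hl : 0 < lam) (hl1 : lam < 1) (hd : 0 < d) (hd1 : d ≤ lam ^ (59 / 10 : ℝ)) :
    d ^ (249 / 500 : ℝ) / lam ^ (5 / 2 : ℝ) ≤ d ^ (7 / 100 : ℝ) := by
  have hd2 : d ≤ 1 := hd1.trans (Real.rpow_le_one hl.le hl1.le (by norm_num))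
  have h1 : d ^ (25 / 59 : ℝ) ≤ lam ^ (5 / 2 : ℝ) := by
    calc d ^ (25 / 59 : ℝ) ≤ (lam ^ (59 / 10 : ℝ)) ^ (25 / 59 : ℝ) :=
          Real.rpow_le_rpow hd.le hd1 (by norm_num)
      _ = lam ^ (5 / 2 : ℝ) := by
          rw [← Real.rpow_mul hl.le]; norm_num
  have h2 : 0 < d ^ (25 / 59 : ℝ) := Real.rpow_pos_of_pos hd _
  calc d ^ (249 / 500 : ℝ) / lam ^ (5 / 2 : ℝ) ≤ d ^ (249 / 500 : ℝ) / d ^ (25 / 59 : ℝ) := by
        gcongr
    _ = d ^ (249 / 500 - 25 / 59 : ℝ) := by rw [Real.rpow_sub hd]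
    _ ≤ d ^ (7 / 100 : ℝ) := Real.rpow_le_rpow_of_exponent_ge hd hd2 (by norm_num)

/-- Almost holomorphy, at small heights. -/
theorem fd_nh (T : Tg n) (Cs A C₁ : ℝ) (N : ℕ) : ∀ᶠ lam in 𝓝[>] (0 : ℝ), ∀ (L K : ℕ) (Φ : Fam T Cs lam A L K N) (d : ℝ) (v : En n), 0 < d → d ≤ lam ^ (59 / 10 : ℝ) →
    T.ρ v < 0 → Ts lam (K + 1) ≤ -T.ρ v → d < C₁ * (-T.ρ v) → -T.ρ v < C₁ * (d ^ (249 / 250 : ℝ) + Ts lam (K + 1)) →
    ∃ (G : En n → En N) (M' : ℝ), DifferentiableOn ℂ G {y | Ts lam (K + 1) < -T.ρ y ∧ d < C₁ * (-T.ρ y) ∧ -T.ρ y < C₁ * (d ^ (249 / 250 : ℝ) + Ts lam (K + 1)) ∧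
        ‖y - v‖ < C₁ * d ^ (249 / 500 : ℝ)} ∧
      ∀ y, Ts lam (K + 1) < -T.ρ y → d < C₁ * (-T.ρ y) → -T.ρ y < C₁ * (d ^ (249 / 250 : ℝ) + Ts lam (K + 1)) → ‖y - v‖ < C₁ * d ^ (249 / 500 : ℝ) →
        ‖G y‖ ≤ M' ∧ ‖FD T Φ y - G y‖ ≤ d ^ (1 / 500 : ℝ) := by
  filter_upwards [hs_nh T Cs A C₁ N, hs_bd T Cs N, D7_small,
    small' (2 * (A * C₁)) (α := 7 / 100) (β := 1 / 500) (by norm_num),
    small' 2 (α := 1 / 400) (β := 1 / 500) (by norm_num),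
    small' (2 * C₁) (α := 249 / 500 * (59 / 10)) (β := 2) (by norm_num)] with lam h1 h2 h3 k1 k2 k3 L K Φ d v hd hd1 hv hvT hdv hvd
  obtain ⟨hl, hl1, h3⟩ := h3
  have hA := D7_fam_nonneg T Φ
  have hsp : 0 < lam ^ (5 / 2 : ℝ) := Real.rpow_pos_of_pos hl _
  have hT0 := Ts_pos hl (K + 1)
  have hC0 : 0 < C₁ := by
    by_contra hc
    have : C₁ * (-T.ρ v) ≤ 0 := mul_nonpos_of_nonpos_of_nonneg (by linarith) (by linarith)
    linarith
  have hdl : d ≤ lam := by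
    calc d ≤ lam ^ (59 / 10 : ℝ) := hd1
      _ ≤ lam ^ (1 : ℝ) := Real.rpow_le_rpow_of_exponent_ge hl hl1.le (by norm_num)
      _ = lam := Real.rpow_one _
  have hpow := D7_pow hl hl1 hd hd1
  have hk1 := k1 d hd hdl
  have hk2 := k2 d hd hdl
  have hk3 : C₁ * d ^ (249 / 500 : ℝ) ≤ lam ^ 2 / 2 := by
    have e1 := k3 lam hl le_rfl
    rw [Real.rpow_two] at e1
    have e2 : d ^ (249 / 500 : ℝ) ≤ lam ^ (249 / 500 * (59 / 10) : ℝ) := by
      calc d ^ (249 / 500 : ℝ) ≤ (lam ^ (59 / 10 : ℝ)) ^ (249 / 500 : ℝ) :=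
            Real.rpow_le_rpow hd.le hd1 (by norm_num)
        _ = lam ^ (249 / 500 * (59 / 10) : ℝ) := by
            rw [← Real.rpow_mul hl.le]; congr 1; ring
    have e3 := mul_le_mul_of_nonneg_left e2 hC0.le
    linarith
  have hd400 : 0 ≤ d ^ (1 / 400 : ℝ) := Real.rpow_nonneg hd.le _
  have hd500 : 0 ≤ d ^ (1 / 500 : ℝ) := Real.rpow_nonneg hd.le _
  -- the variation of the cutoff
  have hX : ∀ y : En n, ‖y - v‖ < C₁ * d ^ (249 / 500 : ℝ) →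
      |X0 lam T.e y - X0 lam T.e v| ≤ C₁ * d ^ (7 / 100 : ℝ) := by
    intro y hy
    refine ((X0_facts hl T.e y v).2.2.2.2).trans ?_
    calc ‖y - v‖ / lam ^ (5 / 2 : ℝ) ≤ C₁ * d ^ (249 / 500 : ℝ) / lam ^ (5 / 2 : ℝ) := by gcongr
      _ = C₁ * (d ^ (249 / 500 : ℝ) / lam ^ (5 / 2 : ℝ)) := by ring
      _ ≤ C₁ * d ^ (7 / 100 : ℝ) := mul_le_mul_of_nonneg_left hpow hC0.le
  by_cases h0 : X0 lam T.e v = 0
  · refine ⟨fun _ => 0, 0, differentiableOn_const 0, fun y hy1 hy2 hy3 hy4 => ⟨by simp, ?_⟩⟩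
    rw [sub_zero, D7_FD_norm T Φ hl]
    have hy : T.ρ y < 0 := by linarith
    have hx := hX y hy4
    rw [h0, sub_zero] at hx
    obtain ⟨a1, a2, a3, -, -⟩ := X0_facts hl T.e y y
    rw [abs_of_nonneg a1] at hx
    by_cases h00 : X0 lam T.e y = 0
    · rw [h00]; simp only [zero_mul]; exact hd500
    · have hN : NE T lam K y := ⟨hy, hy1.le, by have := a3 h00; linarith⟩
      have g1 := h2 A L K Φ y hN
      have p1 := ((pk_facts T hl).2.1 y hy.le).1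
      calc X0 lam T.e y * ‖pk lam T.e y‖ * ‖hs T Φ y‖ ≤ (C₁ * d ^ (7 / 100 : ℝ)) * 1 * A := by gcongr
        _ ≤ d ^ (1 / 500 : ℝ) := by linarith
  · have hv3 := (X0_facts hl T.e v v).2.2.1 h0
    have hNv : NE T lam K v := ⟨hv, hvT, by linarith⟩
    have hd115 : d ≤ lam ^ (11 / 5 : ℝ) :=
      hd1.trans (Real.rpow_le_rpow_of_exponent_ge hl hl1.le (by norm_num))
    obtain ⟨G, hG1, hG2⟩ := h1 L K Φ d v hd hd115 hNv (by linarith) hdv hvd
    have hpd := (pk_facts T hl).1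
    refine ⟨fun y => (((X0 lam T.e v : ℝ) : ℂ) * pk lam T.e y) • G y, A,
      ((hpd.const_mul _).differentiableOn).smul hG1, fun y hy1 hy2 hy3 hy4 => ?_⟩
    have hy : T.ρ y < 0 := by linarith
    obtain ⟨b1, b2⟩ := hG2 y hy1 hy2 hy3 hy4
    have p1 := ((pk_facts T hl).2.1 y hy.le).1
    obtain ⟨c1, c2, -, -, -⟩ := X0_facts hl T.e v v
    have hN : NE T lam K y := by
      refine ⟨hy, hy1.le, ?_⟩
      have e : y - T.e = (y - v) + (v - T.e) := by abel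
      calc ‖y - T.e‖ = ‖(y - v) + (v - T.e)‖ := by rw [← e]
        _ ≤ ‖y - v‖ + ‖v - T.e‖ := norm_add_le _ _
        _ ≤ lam ^ 2 := by linarith
    have g1 := h2 A L K Φ y hN
    constructor
    · rw [norm_smul, norm_mul, Complex.norm_real, Real.norm_of_nonneg c1]
      calc X0 lam T.e v * ‖pk lam T.e y‖ * ‖G y‖ ≤ 1 * 1 * A := by gcongr
        _ = A := by ring
    · have e1 : FD T Φ y - (((X0 lam T.e v : ℝ) : ℂ) * pk lam T.e y) • G y =
          ((((X0 lam T.e y - X0 lam T.e v : ℝ) : ℂ)) * pk lam T.e y) • hs T Φ y +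
          ((((X0 lam T.e v : ℝ) : ℂ)) * pk lam T.e y) • (hs T Φ y - G y) := by
        unfold FD
        push_cast
        module
      have n1 : ‖((((X0 lam T.e y - X0 lam T.e v : ℝ) : ℂ)) * pk lam T.e y) • hs T Φ y‖ ≤
          (C₁ * d ^ (7 / 100 : ℝ)) * 1 * A := by
        rw [norm_smul, norm_mul, Complex.norm_real, Real.norm_eq_abs]
        have := hX y hy4
        gcongr
      have n2 : ‖((((X0 lam T.e v : ℝ) : ℂ)) * pk lam T.e y) • (hs T Φ y - G y)‖ ≤ 1 * 1 * d ^ (1 / 400 : ℝ) := by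
        rw [norm_smul, norm_mul, Complex.norm_real, Real.norm_of_nonneg c1]
        gcongr
      show ‖FD T Φ y - (((X0 lam T.e v : ℝ) : ℂ) * pk lam T.e y) • G y‖ ≤ _
      rw [e1]
      refine (norm_add_le _ _).trans ?_
      linarith

/-- The holomorphic solution near the averaged one. -/
theorem fd_hol (T : Tg n) (Cs A : ℝ) (N : ℕ) (hA : 1 ≤ A) {ε : ℝ} (hε : 0 < ε) : ∃ Cg : ℝ, 1 ≤ Cg ∧ (∀ z, T.ρ z < 0 → ∀ τ, 0 ≤ τ → τ ≤ 1 → τ ≤ Cg * (-T.ρ ((1 - τ) • z))) ∧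
    ∀ᶠ lam in 𝓝[>] (0 : ℝ), ∀ (L K : ℕ) (Φ : Fam T Cs lam A L K N), 2 * Cg * Ts lam (K + 1) ≤ lam ^ (7 : ℝ) →
      ∃ Fs : En n → En N, DifferentiableOn ℂ Fs T.D ∧ ∀ z ∈ T.D, ‖FD T Φ ((1 - 2 * Cg * Ts lam (K + 1)) • z) - Fs z‖ ≤ ε := by
  obtain ⟨hopen, -, -, hg1, hg0, hgs, -, -, Cg, hCg1, hR, hcomp⟩ := tg_basic T
  have hCg0 : 0 < Cg := by linarith
  -- the shrinking
  have hsh : ∀ z, T.ρ z < 0 → ∀ τ : ℝ, 0 ≤ τ → τ ≤ 1 → T.ρ ((1 - τ) • z) < 0 ∧ τ ≤ 1 - T.g ((1 - τ) • z) ∧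
      1 - T.g z ≤ 1 - T.g ((1 - τ) • z) ∧ 1 - T.g ((1 - τ) • z) ≤ 1 - T.g z + τ := by
    intro z hz τ h0 h1
    have a1 := (hg1 z).2 hz
    have a2 := hg0 z
    have a3 := hgs (1 - τ) z (by linarith)
    have a4 : T.g ((1 - τ) • z) ≤ T.g z := by rw [a3]; nlinarith
    refine ⟨(hg1 _).1 (by linarith), ?_, by linarith, ?_⟩
    · rw [a3]; nlinarith
    · rw [a3]; nlinarith
  have hmid : ∀ z, T.ρ z < 0 → ∀ τ : ℝ, 0 ≤ τ → τ ≤ 1 → τ ≤ Cg * (-T.ρ ((1 - τ) • z)) := by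
    intro z hz τ h0 h1
    obtain ⟨b1, b2, -, -⟩ := hsh z hz τ h0 h1
    exact b2.trans (hcomp _ b1.le).1
  refine ⟨Cg, hCg1, hmid, ?_⟩
  obtain ⟨CL, hCL1, hCL⟩ := fd_lip T Cs N
  obtain ⟨Cl, hCl1, hla⟩ := la T N
  obtain ⟨C₁, hC₁⟩ : ∃ C₁, C₁ = 100 * Cg ^ 2 * Cl := ⟨_, rfl⟩
  have hCgsq : Cg ≤ Cg ^ 2 := by nlinarith
  have hCC : Cg ^ 2 ≤ Cg ^ 2 * Cl := by nlinarith [sq_nonneg Cg]
  obtain ⟨LL, hLL⟩ : ∃ LL, LL = (CL + 80) * Cg ^ 2 * A := ⟨_, rfl⟩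
  have hLL0 : 0 ≤ LL := by rw [hLL]; positivity
  have hlim : ∀ᶠ lam in 𝓝[>] (0 : ℝ),
      N * (8 * A * Cg * lam ^ (1 / 10 : ℝ) + Cl * (LL + 1) * (lam ^ (59 / 10 : ℝ)) ^ (1 / 1000 : ℝ)) ≤ ε := by
    have hc : Continuous (fun lam : ℝ => (N : ℝ) * (8 * A * Cg * lam ^ (1 / 10 : ℝ) +
        Cl * (LL + 1) * (lam ^ (59 / 10 : ℝ)) ^ (1 / 1000 : ℝ))) := by
      have c1 : Continuous (fun lam : ℝ => lam ^ (1 / 10 : ℝ)) := Real.continuous_rpow_const (by norm_num)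
      have c2 : Continuous (fun lam : ℝ => (lam ^ (59 / 10 : ℝ)) ^ (1 / 1000 : ℝ)) :=
        (Real.continuous_rpow_const (by norm_num)).comp (Real.continuous_rpow_const (by norm_num))
      exact continuous_const.mul ((continuous_const.mul c1).add (continuous_const.mul c2))
    have ht := (hc.tendsto 0).mono_left (nhdsWithin_le_nhds (s := Ioi (0 : ℝ)))
    have h0 : (N : ℝ) * (8 * A * Cg * (0 : ℝ) ^ (1 / 10 : ℝ) +
        Cl * (LL + 1) * ((0 : ℝ) ^ (59 / 10 : ℝ)) ^ (1 / 1000 : ℝ)) = 0 := by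
      rw [Real.zero_rpow (by norm_num), Real.zero_rpow (by norm_num), Real.zero_rpow (by norm_num)]
      ring
    rw [h0] at ht
    exact ht.eventually_le_const hε
  filter_upwards [hCL, fd_nh T Cs A C₁ N, ev_lt (a := 1 / 2) (by norm_num), hlim] with lam k1 k2 k3 k4 L K Φ hT
  obtain ⟨hl, hl12⟩ := k3
  have hl1 : lam < 1 := by linarith
  have hA0 : 0 ≤ A := by linarith
  obtain ⟨F1, F2⟩ := k1 A L K Φ hA0
  have hT0 := Ts_pos hl (K + 1)
  obtain ⟨τ, hτ⟩ : ∃ τ, τ = 2 * Cg * Ts lam (K + 1) := ⟨_, rfl⟩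
  rw [← hτ] at hT ⊢
  have hτ0 : 0 ≤ τ := by rw [hτ]; positivity
  have hτ1 : τ ≤ 1 := hT.trans (Real.rpow_le_one hl.le hl1.le (by norm_num))
  have hρT : ∀ z, T.ρ z < 0 → Ts lam (K + 1) < -T.ρ ((1 - τ) • z) := by
    intro z hz
    have h1 := hmid z hz τ hτ0 hτ1
    rw [hτ] at h1
    rw [hτ]
    by_contra hc
    have h2 : Cg * (-T.ρ ((1 - 2 * Cg * Ts lam (K + 1)) • z)) ≤ Cg * Ts lam (K + 1) :=
      mul_le_mul_of_nonneg_left (not_lt.1 hc) hCg0.le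
    nlinarith
  have hρ0 : ∀ z, T.ρ z < 0 → T.ρ ((1 - τ) • z) < 0 := fun z hz => (hsh z hz τ hτ0 hτ1).1
  -- j₀
  obtain ⟨x, hx⟩ : ∃ x, x = lam ^ (59 / 10 : ℝ) := ⟨_, rfl⟩
  have hx0 : 0 < x := by rw [hx]; exact Real.rpow_pos_of_pos hl _
  have hx1 : x ≤ 1 := by rw [hx]; exact Real.rpow_le_one hl.le hl1.le (by norm_num)
  obtain ⟨j, hj1, hj2⟩ := exists_nat_pow_near_of_lt_one hx0 hx1 (y := (1 / 2 : ℝ)) (by norm_num) (by norm_num)
  have hjx : x ≤ 2 * (1 / 2 : ℝ) ^ (j + 1) := by rw [pow_succ]; linarith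
  obtain ⟨t, ht⟩ : ∃ t, t = (1 / 2 : ℝ) ^ (j + 1) := ⟨_, rfl⟩
  rw [← ht] at hj1 hjx
  have ht0 : 0 < t := by rw [ht]; positivity
  have hfin := hla (j + 1) (fun z => FD T Φ ((1 - τ) • z)) A LL
    (8 * A * Cg * lam ^ (1 / 10 : ℝ)) (by omega) hA0 hLL0 (by positivity) ?_ ?_ ?_ ?_ ?_
  · obtain ⟨Fs, hFs1, hFs2⟩ := hfin
    refine ⟨Fs, hFs1, fun z hz => (hFs2 z hz).trans ?_⟩
    refine le_trans ?_ k4
    rw [← ht, ← hx]
    have hcl : 0 ≤ Cl * (LL + 1) := by positivity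
    have : t ^ (1 / 1000 : ℝ) ≤ x ^ (1 / 1000 : ℝ) := Real.rpow_le_rpow ht0.le hj1.le (by norm_num)
    gcongr
  · -- continuity
    intro z hz
    have hz' := hρ0 z hz
    have hD : 0 < -T.ρ ((1 - τ) • z) := by linarith
    apply ContinuousAt.continuousWithinAt
    rw [ContinuousAt, tendsto_iff_norm_sub_tendsto_zero]
    have hn1 : ∀ᶠ w in 𝓝 z, w ∈ T.D := hopen.mem_nhds hz
    have hn2 : ∀ᶠ w in 𝓝 z, 40 * ‖w - z‖ < -T.ρ ((1 - τ) • z) := by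
      have hc : Continuous (fun w : En n => 40 * ‖w - z‖) := by fun_prop
      have h1 := hc.tendsto z
      simp only [sub_self, norm_zero, mul_zero] at h1
      exact h1.eventually_lt_const hD
    have hlim2 : Tendsto (fun w : En n => CL * A * ‖w - z‖ / (-T.ρ ((1 - τ) • z))) (𝓝 z) (𝓝 0) := by
      have hc : Continuous (fun w : En n => CL * A * ‖w - z‖ / (-T.ρ ((1 - τ) • z))) := by fun_prop
      have h1 := hc.tendsto z
      simp only [sub_self, norm_zero, mul_zero, zero_div] at h1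
      exact h1
    refine squeeze_zero' (Eventually.of_forall fun w => norm_nonneg _) ?_ hlim2
    filter_upwards [hn1, hn2] with w hw1 hw2
    have e1 : ‖(1 - τ) • z - (1 - τ) • w‖ ≤ ‖w - z‖ := by
      rw [← smul_sub, norm_smul, Real.norm_of_nonneg (by linarith), norm_sub_rev w z]
      nlinarith [norm_nonneg (z - w)]
    have e2 := F2 ((1 - τ) • z) ((1 - τ) • w) hz' (hρ0 w hw1) (hρT z hz).le (hρT w hw1).le (by linarith)
    rw [norm_sub_rev]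
    refine e2.trans ?_
    gcongr
  · -- bound
    intro w hw
    refine (F1 _ (hρ0 w hw) (hρT w hw).le).trans ?_
    have := ((pk_facts T hl).2.1 ((1 - τ) • w) (hρ0 w hw).le).1
    calc A * ‖pk lam T.e ((1 - τ) • w)‖ ≤ A * 1 := mul_le_mul_of_nonneg_left this hA0
      _ = A := mul_one _
  · -- radial
    intro w hw h h0 h1
    have hw' : (1 - h) • w ∈ T.D := (hsh w hw h h0 h1).1
    have hρw := hρ0 w hw
    have hgw : T.g w < 1 := (hg1 w).2 hw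
    obtain ⟨D, hD⟩ : ∃ D, D = -T.ρ ((1 - τ) • w) := ⟨_, rfl⟩
    have hD0 : 0 < D := by rw [hD]; linarith
    have e0 : (1 - τ) • w - (1 - τ) • ((1 - h) • w) = h • ((1 - τ) • w) := by
      module
    have e1 : ‖(1 - τ) • w - (1 - τ) • ((1 - h) • w)‖ ≤ Cg * h := by
      rw [e0, norm_smul, Real.norm_of_nonneg h0, mul_comm Cg]
      refine mul_le_mul_of_nonneg_left ?_ h0
      have a1 := hR ((1 - τ) • w)
      have a2 : T.g ((1 - τ) • w) < 1 := (hg1 _).2 hρw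
      nlinarith
    have hgD : 1 - T.g w ≤ Cg * D := by
      rw [hD]
      exact ((hsh w hw τ hτ0 hτ1).2.2.1).trans (hcomp _ hρw.le).1
    have hg1w : 0 ≤ 1 - T.g w := by linarith
    rcases le_or_gt (40 * (Cg * h)) D with hc | hc
    · have e2 := F2 ((1 - τ) • w) ((1 - τ) • ((1 - h) • w)) hρw (hρ0 _ hw') (hρT w hw).le (hρT _ hw').le
        (by rw [← hD]; linarith)
      rw [← hD] at e2
      calc ‖FD T Φ ((1 - τ) • w) - FD T Φ ((1 - τ) • ((1 - h) • w))‖ * (1 - T.g w)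
          ≤ (CL * A * (Cg * h) / D) * (Cg * D) := by
            apply mul_le_mul _ hgD hg1w (by positivity)
            refine e2.trans ?_
            gcongr
        _ = CL * Cg ^ 2 * A * h := by field_simp
        _ ≤ LL * h := by
            rw [hLL]
            apply mul_le_mul_of_nonneg_right _ h0
            have : 0 ≤ 80 * Cg ^ 2 * A := by positivity
            nlinarith
    · have b1 : ∀ y, y ∈ T.D → ‖FD T Φ ((1 - τ) • y)‖ ≤ A := by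
        intro y hy
        refine (F1 _ (hρ0 y hy) (hρT y hy).le).trans ?_
        have := ((pk_facts T hl).2.1 ((1 - τ) • y) (hρ0 y hy).le).1
        calc A * ‖pk lam T.e ((1 - τ) • y)‖ ≤ A * 1 := mul_le_mul_of_nonneg_left this hA0
          _ = A := mul_one _
      have b2 : ‖FD T Φ ((1 - τ) • w) - FD T Φ ((1 - τ) • ((1 - h) • w))‖ ≤ 2 * A := by
        refine (norm_sub_le _ _).trans ?_
        linarith [b1 w hw, b1 _ hw']
      calc ‖FD T Φ ((1 - τ) • w) - FD T Φ ((1 - τ) • ((1 - h) • w))‖ * (1 - T.g w)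
          ≤ (2 * A) * (Cg * (40 * (Cg * h))) := by
            apply mul_le_mul b2 _ hg1w (by positivity)
            exact hgD.trans (mul_le_mul_of_nonneg_left hc.le hCg0.le)
        _ = 80 * Cg ^ 2 * A * h := by ring
        _ ≤ LL * h := by
            rw [hLL]
            apply mul_le_mul_of_nonneg_right _ h0
            have : 0 ≤ CL * Cg ^ 2 * A := by positivity
            nlinarith
  · -- almost holomorphy
    intro i hi v hv1 hv2
    obtain ⟨d, hd⟩ : ∃ d, d = (1 / 2 : ℝ) ^ i := ⟨_, rfl⟩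
    rw [← hd] at hv1 hv2 ⊢
    have hd0 : 0 < d := by rw [hd]; positivity
    have hdt : d ≤ t := by
      rw [hd, ht]
      exact pow_le_pow_of_le_one (by norm_num) (by norm_num) hi
    have hdx : d ≤ lam ^ (59 / 10 : ℝ) := by rw [← hx]; linarith
    have hd1 : d ≤ 1 := by linarith
    have hvD : T.ρ v < 0 := (hg1 v).1 (by linarith)
    have hp1 : d ^ (499 / 500 : ℝ) ≤ d ^ (249 / 250 : ℝ) :=
      Real.rpow_le_rpow_of_exponent_ge hd0 hd1 (by norm_num)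
    have hp0 : 0 < d ^ (249 / 250 : ℝ) := Real.rpow_pos_of_pos hd0 _
    have hp498 : 0 < d ^ (249 / 500 : ℝ) := Real.rpow_pos_of_pos hd0 _
    have hC₁0 : 0 < C₁ := by rw [hC₁]; positivity
    -- heights
    have hlow : ∀ y, T.ρ y < 0 → d / 4 < 1 - T.g y → d < C₁ * (-T.ρ ((1 - τ) • y)) := by
      intro y hy hgy
      obtain ⟨b1, b2, b3, b4⟩ := hsh y hy τ hτ0 hτ1
      have c1 := (hcomp _ b1.le).1
      have c2 : d < 4 * Cg * (-T.ρ ((1 - τ) • y)) := by nlinarith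
      have c3 : 4 * Cg ≤ C₁ := by rw [hC₁]; nlinarith
      have c4 := mul_le_mul_of_nonneg_right c3 (by linarith : 0 ≤ -T.ρ ((1 - τ) • y))
      linarith
    have hup : ∀ y, T.ρ y < 0 → ∀ M, 0 ≤ M → M ≤ 3 * Cl → 1 - T.g y ≤ M * d ^ (249 / 250 : ℝ) →
        -T.ρ ((1 - τ) • y) < C₁ * (d ^ (249 / 250 : ℝ) + Ts lam (K + 1)) := by
      intro y hy M hM0 hM hgy
      obtain ⟨b1, b2, b3, b4⟩ := hsh y hy τ hτ0 hτ1
      have c1 := (hcomp _ b1.le).2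
      have c2 : -T.ρ ((1 - τ) • y) ≤ Cg * (M * d ^ (249 / 250 : ℝ) + τ) :=
        c1.trans (mul_le_mul_of_nonneg_left (by linarith) hCg0.le)
      refine c2.trans_lt ?_
      rw [hτ]
      have c3 : Cg * M < C₁ := by
        rw [hC₁]
        have : Cg * M ≤ Cg ^ 2 * (3 * Cl) := mul_le_mul hCgsq hM hM0 (by positivity)
        nlinarith
      have c4 : Cg * (2 * Cg) < C₁ := by rw [hC₁]; nlinarith
      have c5 := mul_lt_mul_of_pos_right c3 hp0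
      have c6 := mul_lt_mul_of_pos_right c4 hT0
      nlinarith
    have hv' := hρ0 v hvD
    obtain ⟨G, M', hG1, hG2⟩ := k2 L K Φ d ((1 - τ) • v) hd0 hdx hv' (hρT v hvD).le
      (hlow v hvD (by linarith)) (hup v hvD 3 (by norm_num) (by linarith) (by nlinarith))
    -- points of the region
    have hreg : ∀ y, y ∈ T.Reg Cl d v → T.ρ y < 0 ∧ Ts lam (K + 1) < -T.ρ ((1 - τ) • y) ∧ d < C₁ * (-T.ρ ((1 - τ) • y)) ∧
        -T.ρ ((1 - τ) • y) < C₁ * (d ^ (249 / 250 : ℝ) + Ts lam (K + 1)) ∧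
        ‖(1 - τ) • y - (1 - τ) • v‖ < C₁ * d ^ (249 / 500 : ℝ) := by
      intro y hy
      obtain ⟨y1, y2, y3, -⟩ := hy
      have hyD : T.ρ y < 0 := (hg1 y).1 (by linarith)
      refine ⟨hyD, hρT y hyD, hlow y hyD y1, hup y hyD Cl (by linarith) (by linarith) y2.le, ?_⟩
      rw [← smul_sub, norm_smul, Real.norm_of_nonneg (by linarith)]
      have c1 : (1 - τ) * ‖y - v‖ ≤ ‖y - v‖ := by nlinarith [norm_nonneg (y - v)]
      have c2 : Cl ≤ C₁ := by rw [hC₁]; nlinarith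
      have c3 := mul_le_mul_of_nonneg_right c2 hp498.le
      linarith
    refine ⟨fun y => G ((1 - τ) • y), M', ?_, ?_⟩
    · refine hG1.comp (f := fun y : En n => (1 - τ) • y) ?_ ?_
      · have hd3 : Differentiable ℂ (fun y : En n => (1 - τ) • y) := by
          have e : (fun y : En n => (1 - τ) • y) = fun y => ((1 - τ : ℝ) : ℂ) • y := by
            funext y
            rw [Complex.coe_smul]
          rw [e]
          exact (differentiable_id (𝕜 := ℂ) (E := En n)).const_smul (((1 - τ : ℝ)) : ℂ)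
        exact hd3.differentiableOn
      · intro y hy
        obtain ⟨-, r1, r2, r3, r4⟩ := hreg y hy
        exact ⟨r1, r2, r3, r4⟩
    · intro y hy
      obtain ⟨-, r1, r2, r3, r4⟩ := hreg y hy
      exact hG2 _ r1 r2 r3 r4
  · -- start
    refine ⟨fun _ => 0, differentiableOn_const 0, fun z hz => ?_⟩
    have hal : al (j + 1) = 1 - t := by rw [ht]; rfl
    have hbe : be (j + 1) = 1 + t / 16 := by rw [ht]; rfl
    have ht1 : t < 1 := by linarith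
    rw [hal]
    rw [hbe] at hz
    have hgz := hg0 z
    have e1 : T.g ((1 - t) • z) = (1 - t) * T.g z := hgs _ z (by linarith)
    have e2 : T.g ((1 - t) • z) ≤ 1 - 15 / 16 * t := by
      rw [e1]
      have : (1 - t) * T.g z ≤ (1 - t) * (1 + t / 16) := mul_le_mul_of_nonneg_left hz.le (by linarith)
      nlinarith
    have hyD : T.ρ ((1 - t) • z) < 0 := (hg1 _).1 (by linarith)
    obtain ⟨b1, b2, b3, b4⟩ := hsh _ hyD τ hτ0 hτ1
    have c1 := (hcomp _ b1.le).1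
    obtain ⟨D, hD⟩ : ∃ D, D = -T.ρ ((1 - τ) • (1 - t) • z) := ⟨_, rfl⟩
    rw [← hD] at c1
    have c2 : x ≤ 4 * Cg * D := by nlinarith
    have p := ((pk_facts T hl).2.1 _ b1.le).2
    rw [← hD] at p
    have hf := F1 _ b1 (hρT _ hyD).le
    rw [zero_sub, norm_neg]
    refine hf.trans ?_
    -- the exponential
    have q0 : lam ^ (-(1 / 10) : ℝ) ≤ 4 * Cg * (lam ^ (-6 : ℝ) * D) := by
      calc lam ^ (-(1 / 10) : ℝ) = lam ^ (-6 : ℝ) * x := by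
            rw [hx, ← Real.rpow_add hl]; norm_num
        _ ≤ lam ^ (-6 : ℝ) * (4 * Cg * D) := mul_le_mul_of_nonneg_left c2 (Real.rpow_nonneg hl.le _)
        _ = 4 * Cg * (lam ^ (-6 : ℝ) * D) := by ring
    obtain ⟨u, hu⟩ : ∃ u, u = lam ^ (-6 : ℝ) * D / 2 := ⟨_, rfl⟩
    rw [← hu] at p
    have hw0 : 0 < lam ^ (-(1 / 10) : ℝ) := Real.rpow_pos_of_pos hl _
    have hu8 : lam ^ (-(1 / 10) : ℝ) ≤ 8 * Cg * u := by rw [hu]; linarith
    have hu0 : 0 < u := by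
      by_contra hc
      have : 8 * Cg * u ≤ 0 := mul_nonpos_of_nonneg_of_nonpos (by positivity) (by linarith)
      linarith
    have q1 : Real.exp (-u) ≤ 1 / u := by
      rw [Real.exp_neg, ← one_div]
      apply one_div_le_one_div_of_le hu0
      have := Real.add_one_le_exp u
      linarith
    have q2 : 1 / u ≤ 8 * Cg * lam ^ (1 / 10 : ℝ) := by
      rw [div_le_iff₀ hu0]
      have q3 : lam ^ (1 / 10 : ℝ) * lam ^ (-(1 / 10) : ℝ) = 1 := by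
        rw [← Real.rpow_add hl]; norm_num
      have q4 := mul_le_mul_of_nonneg_left hu8 (Real.rpow_nonneg hl.le (1 / 10 : ℝ))
      rw [q3] at q4
      linarith
    calc A * ‖pk lam T.e ((1 - τ) • (1 - t) • z)‖ ≤ A * (8 * Cg * lam ^ (1 / 10 : ℝ)) :=
          mul_le_mul_of_nonneg_left (p.trans (q1.trans q2)) hA0
      _ = 8 * A * Cg * lam ^ (1 / 10 : ℝ) := by ring

end Pool.Agent.MPca0fc2.EQ
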