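import Pool.Agent.Lib.MP_ca0fc2_an.EQ.A3
import Pool.Agent.Lib.MP_ca0fc2_an.Mg.G075
import Pool.Agent.Lib.MP_ca0fc2_an.LV.S5

/-! Campaign EQ, task L1: a strictly pseudoconvex domain osculates the ball to the third order at each boundary point, in suitable
holomorphic coordinates. -/

set_option autoImplicit false

open Metric Set Filter Topology
open scoped ContDiff

namespace Pool.Agent.MPca0fc2.EQ

open Pool.Agent.MPca0fc2
open Pool.Agent.MPca0fc2.TB (En Lh Eh)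
open Pool.Agent.Lib.MP_ca0fc2_an

section

variable {E : Type*} [NormedAddCommGroup E] [NormedSpace ℝ E]

private theorem L1_lip {g : E → ℝ} {e : E} (h : ContDiffAt ℝ 3 g e) :
    ∃ s > 0, ∃ M : ℝ, 0 ≤ M ∧ (∀ y ∈ ball e s, ContDiffAt ℝ 3 g y) ∧
      ∀ y ∈ ball e s, ‖fderiv ℝ (fderiv ℝ g) y - fderiv ℝ (fderiv ℝ g) e‖ ≤ M * ‖y - e‖ := by
  have h1 : ContDiffAt ℝ 2 (fderiv ℝ g) e := h.fderiv_right (by norm_num)
  have h2 : ContDiffAt ℝ 1 (fderiv ℝ (fderiv ℝ g)) e := h1.fderiv_right (by norm_num)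
  obtain ⟨K, t, ht, hK⟩ := h2.exists_lipschitzOnWith
  have h3 : ∀ᶠ y in 𝓝 e, ContDiffAt ℝ 3 g y := h.eventually (by simp)
  obtain ⟨s, hs, hst⟩ := Metric.mem_nhds_iff.1 (Filter.inter_mem ht h3)
  refine ⟨s, hs, K, K.2, fun y hy => (hst hy).2, fun y hy => ?_⟩
  have h4 := hK.dist_le_mul y (hst hy).1 e (hst (mem_ball_self hs)).1
  rwa [dist_eq_norm, dist_eq_norm] at h4

private theorem L1_d1 {g : E → ℝ} {e : E} {s M : ℝ} (h0 : 0 ≤ M) (h1 : ∀ y ∈ ball e s, ContDiffAt ℝ 3 g y)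
    (h2 : ∀ y ∈ ball e s, ‖fderiv ℝ (fderiv ℝ g) y - fderiv ℝ (fderiv ℝ g) e‖ ≤ M * ‖y - e‖) (y : E)
    (hy : y ∈ ball e s) :
    ‖fderiv ℝ g y - fderiv ℝ g e - fderiv ℝ (fderiv ℝ g) e (y - e)‖ ≤ M * ‖y - e‖ ^ 2 := by
  have hsub : ∀ z ∈ closedBall e ‖y - e‖, z ∈ ball e s := by
    intro z hz
    rw [mem_closedBall] at hz
    rw [mem_ball, dist_eq_norm] at hy
    rw [mem_ball]
    linarith
  have h3 := Convex.norm_image_sub_le_of_norm_fderiv_le' (𝕜 := ℝ) (f := fderiv ℝ g)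
    (s := closedBall e ‖y - e‖) (φ := fderiv ℝ (fderiv ℝ g) e) (C := M * ‖y - e‖) (x := e) (y := y)
    (fun z hz => ((h1 z (hsub z hz)).fderiv_right (m := 1) (by norm_num)).differentiableAt (by norm_num))
    (fun z hz => by
      refine (h2 z (hsub z hz)).trans ?_
      rw [mem_closedBall, dist_eq_norm] at hz
      exact mul_le_mul_of_nonneg_left hz h0)
    (convex_closedBall _ _) (mem_closedBall_self (norm_nonneg _))
    (by rw [mem_closedBall, dist_eq_norm])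
  calc _ ≤ M * ‖y - e‖ * ‖y - e‖ := h3
    _ = M * ‖y - e‖ ^ 2 := by ring

private theorem L1_taylor {g : E → ℝ} {e : E} {s M : ℝ} (h0 : 0 ≤ M) (hs : 0 < s)
    (h1 : ∀ y ∈ ball e s, ContDiffAt ℝ 3 g y)
    (h2 : ∀ y ∈ ball e s, ‖fderiv ℝ (fderiv ℝ g) y - fderiv ℝ (fderiv ℝ g) e‖ ≤ M * ‖y - e‖) (y : E)
    (hy : y ∈ ball e s) :
    |g y - g e - fderiv ℝ g e (y - e) - fderiv ℝ (fderiv ℝ g) e (y - e) (y - e) / 2| ≤ M * ‖y - e‖ ^ 3 := by
  have hsub : ∀ z ∈ closedBall e ‖y - e‖, z ∈ ball e s := by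
    intro z hz
    rw [mem_closedBall] at hz
    rw [mem_ball, dist_eq_norm] at hy
    rw [mem_ball]
    linarith
  have hsym : ∀ u v, fderiv ℝ (fderiv ℝ g) e u v = fderiv ℝ (fderiv ℝ g) e v u :=
    fun u v => ((h1 e (mem_ball_self hs)).isSymmSndFDerivAt
      (by simp only [minSmoothness_of_isRCLikeNormedField]; norm_num)).eq u v
  obtain ⟨B, hB⟩ : ∃ B, B = fderiv ℝ (fderiv ℝ g) e := ⟨_, rfl⟩
  have hd : ∀ z ∈ ball e s, HasFDerivAt
      (fun z => g z - fderiv ℝ g e (z - e) - B (z - e) (z - e) / 2)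
      (fderiv ℝ g z - fderiv ℝ g e - B (z - e)) z := by
    intro z hz
    have e1 : HasFDerivAt g (fderiv ℝ g z) z :=
      ((h1 z hz).differentiableAt (by norm_num)).hasFDerivAt
    have e2 : HasFDerivAt (fun z : E => z - e) (ContinuousLinearMap.id ℝ E) z :=
      (hasFDerivAt_id z).sub_const e
    have e3 : HasFDerivAt (fun z => fderiv ℝ g e (z - e)) (fderiv ℝ g e) z :=
      ((fderiv ℝ g e).hasFDerivAt.comp z e2).congr_fderiv (by ext v; simp)
    have e4 := (B.hasFDerivAt_of_bilinear e2 e2).const_mul (1 / 2 : ℝ)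
    have e5 := (e1.sub e3).sub e4
    refine (e5.congr_fderiv ?_).congr_of_eventuallyEq ?_
    · ext v
      have h5 := hsym v (z - e)
      rw [← hB] at h5
      simp only [map_sub, sub_apply] at h5
      simp
      linarith
    · filter_upwards with w
      simp
      ring
  have h3 := Convex.norm_image_sub_le_of_norm_hasFDerivWithin_le (𝕜 := ℝ)
    (f := fun z => g z - fderiv ℝ g e (z - e) - B (z - e) (z - e) / 2)
    (f' := fun z => fderiv ℝ g z - fderiv ℝ g e - B (z - e))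
    (s := closedBall e ‖y - e‖) (C := M * ‖y - e‖ ^ 2) (x := e) (y := y)
    (fun z hz => (hd z (hsub z hz)).hasFDerivWithinAt)
    (fun z hz => by
      have h4 := L1_d1 h0 h1 h2 z (hsub z hz)
      rw [← hB] at h4
      refine h4.trans ?_
      rw [mem_closedBall, dist_eq_norm] at hz
      gcongr)
    (convex_closedBall _ _) (mem_closedBall_self (norm_nonneg _))
    (by rw [mem_closedBall, dist_eq_norm])
  rw [Real.norm_eq_abs] at h3
  simp only [sub_self, map_zero, zero_div, sub_zero] at h3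
  rw [← hB]
  calc _ = |g y - fderiv ℝ g e (y - e) - B (y - e) (y - e) / 2 - g e| := by congr 1; ring
    _ ≤ M * ‖y - e‖ ^ 2 * ‖y - e‖ := h3
    _ = M * ‖y - e‖ ^ 3 := by ring



end

variable {n : ℕ}

section

variable {B : En n →L[ℝ] En n →L[ℝ] ℝ}

/-- the sesquilinear form -/
private noncomputable def L1_s (B : En n →L[ℝ] En n →L[ℝ] ℝ) (u v : En n) : ℂ :=
  (((B u v + B (Complex.I • u) (Complex.I • v)) / 2 : ℝ) : ℂ) -
    (Complex.I / 2) * ((B u (Complex.I • v) - B (Complex.I • u) v : ℝ) : ℂ)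

private theorem L1_s_addr (u v w : En n) : L1_s B u (v + w) = L1_s B u v + L1_s B u w := by
  unfold L1_s
  simp only [smul_add, map_add]
  push_cast
  ring

private theorem L1_smul (c : ℝ) (v : En n) : (c : ℂ) • v = c • v := by
  ext i
  simp

private theorem L1_s_smulr (u v : En n) (c : ℝ) : L1_s B u ((c : ℂ) • v) = (c : ℂ) * L1_s B u v := by
  unfold L1_s
  have h2 : Complex.I • (c : ℂ) • v = c • (Complex.I • v) := by
    rw [smul_comm, L1_smul]
  rw [h2, L1_smul]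
  simp only [map_smul, smul_eq_mul]
  push_cast
  ring

private theorem L1_II (v : En n) : Complex.I • Complex.I • v = -v := by
  rw [smul_smul, Complex.I_mul_I, neg_one_smul]

private theorem L1_s_Ir (u v : En n) : L1_s B u (Complex.I • v) = Complex.I * L1_s B u v := by
  unfold L1_s
  rw [L1_II]
  simp only [map_neg]
  push_cast
  linear_combination (((B u (Complex.I • v) : ℝ) : ℂ) / 2 - ((B (Complex.I • u) v : ℝ) : ℂ) / 2) *
    Complex.I_mul_I

private theorem L1_s_symm (hs : ∀ u v, B u v = B v u) (u v : En n) :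
    L1_s B v u = starRingEnd ℂ (L1_s B u v) := by
  unfold L1_s
  rw [hs u v, hs (Complex.I • u) (Complex.I • v), hs u (Complex.I • v), hs (Complex.I • u) v]
  simp only [map_sub, map_mul, map_div₀, Complex.conj_I, Complex.conj_ofReal, map_ofNat]
  push_cast
  ring

private theorem L1_s_lin (u v : En n) (c : ℂ) : L1_s B u (c • v) = c * L1_s B u v := by
  have h1 : c • v = ((c.re : ℝ) : ℂ) • v + Complex.I • (((c.im : ℝ) : ℂ) • v) := by
    conv_lhs => rw [← Complex.re_add_im c]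
    rw [add_smul, mul_comm, mul_smul]
  rw [h1, L1_s_addr, L1_s_Ir, L1_s_smulr, L1_s_smulr]
  conv_rhs => rw [← Complex.re_add_im c]
  ring

private theorem L1_s_self (hs : ∀ u v, B u v = B v u) (v : En n) :
    L1_s B v v = ((Lh B v : ℝ) : ℂ) := by
  unfold Lh L1_s
  rw [hs (Complex.I • v) v]
  push_cast
  ring

private theorem L1_single (v : En n) : v = ∑ j, v j • EuclideanSpace.single j (1 : ℂ) := by
  ext i
  simp [Pi.single_apply]


/-- linear in the second variable -/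
private noncomputable def L1_sl (B : En n →L[ℝ] En n →L[ℝ] ℝ) (u : En n) : En n →ₗ[ℂ] ℂ where
  toFun := L1_s B u
  map_add' v w := L1_s_addr u v w
  map_smul' c v := L1_s_lin u v c

end

/-- A positive definite hermitian form is `‖T v‖²`. -/
theorem exists_sqrt {B : En n →L[ℝ] En n →L[ℝ] ℝ} (hs : ∀ u v, B u v = B v u) (hp : ∀ v, 0 ≤ Lh B v) :
    ∃ T : En n →L[ℂ] En n, ∀ v, ‖T v‖ ^ 2 = Lh B v := by
  classical
  open scoped MatrixOrder ComplexOrder in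
  have hqs : ∀ u v, L1_s B v u = starRingEnd ℂ (L1_s B u v) := fun u v => L1_s_symm hs u v
  have hqq : ∀ v, L1_s B v v = ((Lh B v : ℝ) : ℂ) := L1_s_self hs
  let M : Matrix (Fin n) (Fin n) ℂ := fun j k =>
    L1_s B (EuclideanSpace.single j 1) (EuclideanSpace.single k 1)
  have hexp : ∀ u v : En n, L1_s B u v =
      ∑ k, v k * L1_s B u (EuclideanSpace.single k 1) := by
    intro u v
    have h2 : L1_sl B u v = L1_sl B u (∑ j, v j • EuclideanSpace.single j (1 : ℂ)) := by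
      rw [← L1_single v]
    rw [map_sum] at h2
    simp only [map_smul, smul_eq_mul] at h2
    exact h2
  have hM : ∀ v : En n, star v.ofLp ⬝ᵥ (M.mulVec v.ofLp) = ((Lh B v : ℝ) : ℂ) := by
    intro v
    rw [← hqq, hexp v v]
    simp only [dotProduct, Matrix.mulVec, Finset.mul_sum, Pi.star_apply]
    rw [Finset.sum_comm]
    refine Finset.sum_congr rfl fun k _ => ?_
    rw [hqs (EuclideanSpace.single k 1) v, hexp (EuclideanSpace.single k 1) v, map_sum,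
      Finset.mul_sum]
    refine Finset.sum_congr rfl fun j _ => ?_
    rw [map_mul, ← hqs]
    show star (v.ofLp j) * (M j k * v.ofLp k) = v k * (starRingEnd ℂ (v j) * M j k)
    rw [Complex.star_def]
    ring
  have hher : M.IsHermitian := by
    ext j k
    show star (M k j) = M j k
    rw [Complex.star_def]
    exact (hqs _ _).symm
  have hpos : M.PosSemidef := by
    refine Matrix.PosSemidef.of_dotProduct_mulVec_nonneg hher ?_
    intro x
    have h1 := hM (WithLp.toLp 2 x)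
    have h2 : 0 ≤ Lh B (WithLp.toLp 2 x) := hp _
    rw [show star x ⬝ᵥ (M.mulVec x) = _ from h1]
    exact_mod_cast h2
  obtain ⟨A, hA⟩ := CStarAlgebra.nonneg_iff_eq_star_mul_self.mp hpos.nonneg
  refine ⟨LinearMap.toContinuousLinearMap (Matrix.toEuclideanLin A), ?_⟩
  intro v
  have h1 := hM v
  have h2 : star v.ofLp ⬝ᵥ (M.mulVec v.ofLp) = star (A.mulVec v.ofLp) ⬝ᵥ (A.mulVec v.ofLp) := by
    rw [hA, Matrix.star_eq_conjTranspose, ← Matrix.mulVec_mulVec, Matrix.dotProduct_mulVec,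
      Matrix.vecMul_conjTranspose, star_star]
  have h3 : star (A.mulVec v.ofLp) ⬝ᵥ (A.mulVec v.ofLp) =
      ((‖Matrix.toEuclideanLin A v‖ ^ 2 : ℝ) : ℂ) := by
    rw [EuclideanSpace.norm_sq_eq]
    simp only [dotProduct, Pi.star_apply]
    push_cast
    refine Finset.sum_congr rfl fun i _ => ?_
    rw [Complex.star_def, Complex.conj_mul']
    rfl
  rw [h2, h3] at h1
  exact_mod_cast h1

/-- Taylor's formula of the order two, with the error `O(|w|³)`. -/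
theorem taylor3 {ρ : En n → ℝ} {p : En n} (h : ContDiffAt ℝ 3 ρ p) : ∃ s > 0, ∃ M : ℝ, ∀ w, ‖w‖ < s →
    |ρ (p + w) - ρ p - fderiv ℝ ρ p w - fderiv ℝ (fderiv ℝ ρ) p w w / 2| ≤ M * ‖w‖ ^ 3 := by
  obtain ⟨s, hs, M, hM, h1, h2⟩ := L1_lip h
  refine ⟨s, hs, M, fun w hw => ?_⟩
  have h3 := L1_taylor hM hs h1 h2 (p + w) (by rw [mem_ball, dist_eq_norm, add_sub_cancel_left]; exact hw)
  rwa [add_sub_cancel_left] at h3

private theorem L1_eh3 {B : En n →L[ℝ] En n →L[ℝ] ℝ} (hs : ∀ u v, B u v = B v u) : ContDiff ℝ 3 (Eh B) := by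
  obtain ⟨a, ha⟩ := TB.eh_poly hs
  have h1 : Eh B = fun v => ∑ j, ∑ k, a j k * v j * v k := by
    funext v
    exact ha v
  rw [h1]
  have hc : ∀ j : Fin n, ContDiff ℝ 3 (fun v : En n => v j) := fun j =>
    ((EuclideanSpace.proj j : En n →L[ℂ] ℂ).restrictScalars ℝ).contDiff
  refine ContDiff.sum fun j _ => ContDiff.sum fun k _ => ?_
  exact ((contDiff_const.mul (hc j)).mul (hc k))

private theorem L1_coord {ρ : En n → ℝ} {p : En n} {B : En n →L[ℝ] En n →L[ℝ] ℝ} {c : ℝ}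
    (hs : ∀ u v, B u v = B v u) (hc : 0 < c) (hL : ∀ v, c * ‖v‖ ^ 2 ≤ Lh B v) (hnd : fderiv ℝ ρ p ≠ 0) :
    ∃ (L : En n →L[ℂ] En n) (e : En n) (K : ℝ), 0 < K ∧ ‖e‖ = 1 ∧ (∀ v, L v = 0 → v = 0) ∧
      (∀ v, pd ρ p (L v) = K * inner ℂ e v) ∧ ∀ v, Lh B (L v) / 2 = K * ‖v‖ ^ 2 := by
  obtain ⟨T, hT⟩ := exists_sqrt hs (fun v => le_trans (by positivity) (hL v))
  have hT0 : ∀ v, T v = 0 → v = 0 := by
    intro v hv
    have h1 := hT v
    rw [hv, norm_zero] at h1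
    have h2 := hL v
    have h3 : c * ‖v‖ ^ 2 ≤ 0 := by
      rw [← h1] at h2
      simpa using h2
    have h4 : ‖v‖ ^ 2 ≤ 0 := by
      by_contra h
      push Not at h
      nlinarith [mul_pos hc h]
    have h5 : ‖v‖ = 0 := by
      have := norm_nonneg v
      nlinarith
    exact norm_eq_zero.1 h5
  have hinj : Function.Injective (T : En n →ₗ[ℂ] En n) := by
    intro x y h
    have h1 : T (x - y) = 0 := by
      rw [map_sub]
      exact sub_eq_zero.2 h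
    exact sub_eq_zero.1 (hT0 _ h1)
  let F := LinearEquiv.ofInjectiveEndo (T : En n →ₗ[ℂ] En n) hinj
  let T' : En n →L[ℂ] En n := LinearMap.toContinuousLinearMap (F.symm : En n →ₗ[ℂ] En n)
  have hT' : ∀ w, T (T' w) = w := fun w => F.apply_symm_apply w
  let l : En n →L[ℂ] ℂ := LinearMap.toContinuousLinearMap
    { toFun := fun w => pd ρ p (T' w)
      map_add' := fun v w => by rw [map_add, pd_add]
      map_smul' := fun a w => by rw [map_smul, pd_smul]; rfl }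
  have hl : ∀ w, l w = pd ρ p (T' w) := fun w => rfl
  obtain ⟨b, hb⟩ : ∃ b : En n, ∀ w, inner ℂ b w = l w :=
    ⟨(InnerProductSpace.toDual ℂ (En n)).symm l, fun w => InnerProductSpace.toDual_symm_apply⟩
  have hb0 : b ≠ 0 := by
    intro h0
    apply hnd
    ext v
    have h1 : T' (T v) = v := hinj (hT' (T v))
    have h2 : pd ρ p v = 0 := by
      rw [← h1, ← hl, ← hb, h0, inner_zero_left]
    rw [pd_re, h2]
    simp
  have ha : 0 < ‖b‖ := norm_pos_iff.2 hb0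
  have hac : ((‖b‖ : ℝ) : ℂ) ≠ 0 := by
    rw [Complex.ofReal_ne_zero]
    exact ha.ne'
  have he : ∀ w, l w = (‖b‖ : ℂ) * inner ℂ (((‖b‖ : ℝ) : ℂ)⁻¹ • b) w := by
    intro w
    rw [inner_smul_left, hb, map_inv₀, Complex.conj_ofReal, ← mul_assoc, mul_inv_cancel₀ hac, one_mul]
  have hTL : ∀ v, T (((2 * ‖b‖ : ℝ) : ℂ) • T' v) = ((2 * ‖b‖ : ℝ) : ℂ) • v := fun v => by
    rw [map_smul, hT']
  refine ⟨((2 * ‖b‖ : ℝ) : ℂ) • T', ((‖b‖ : ℝ) : ℂ)⁻¹ • b, 2 * ‖b‖ ^ 2, by positivity, ?_, ?_, ?_, ?_⟩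
  · rw [norm_smul, norm_inv, Complex.norm_real, norm_norm, inv_mul_cancel₀ ha.ne']
  · intro v hv
    have h1 := hTL v
    rw [show ((2 * ‖b‖ : ℝ) : ℂ) • T' v = (((2 * ‖b‖ : ℝ) : ℂ) • T') v from rfl, hv, map_zero] at h1
    rcases smul_eq_zero.1 h1.symm with h | h
    · exfalso
      rw [Complex.ofReal_eq_zero] at h
      linarith
    · exact h
  · intro v
    rw [show (((2 * ‖b‖ : ℝ) : ℂ) • T') v = ((2 * ‖b‖ : ℝ) : ℂ) • T' v from rfl, pd_smul, ← hl, he]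
    push_cast
    ring
  · intro v
    have h1 := hT (((2 * ‖b‖ : ℝ) : ℂ) • T' v)
    rw [hTL, norm_smul, Complex.norm_real, Real.norm_eq_abs, abs_of_pos (by positivity)] at h1
    rw [show (((2 * ‖b‖ : ℝ) : ℂ) • T') v = ((2 * ‖b‖ : ℝ) : ℂ) • T' v from rfl, ← h1]
    ring

/-- the coordinates -/
private noncomputable def L1_Th (B : En n →L[ℝ] En n →L[ℝ] ℝ) (L : En n →L[ℂ] En n) (p e ν y : En n) : En n :=
  p + L (y - e) - (Eh B (L (y - e)) / 4) • ν

private theorem L1_Th_e (B : En n →L[ℝ] En n →L[ℝ] ℝ) (L : En n →L[ℂ] En n) (p e ν : En n) :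
    L1_Th B L p e ν e = p := by
  have h : Eh B (0 : En n) = 0 := by
    unfold Eh
    simp
  unfold L1_Th
  rw [sub_self, map_zero, h]
  simp

private theorem L1_Th_diff {B : En n →L[ℝ] En n →L[ℝ] ℝ} (hs : ∀ u v, B u v = B v u) (L : En n →L[ℂ] En n)
    (p e ν : En n) : Differentiable ℂ (L1_Th B L p e ν) := by
  have h1 : Differentiable ℂ (fun y : En n => L (y - e)) :=
    L.differentiable.comp (differentiable_id.sub_const e)
  have h2 : Differentiable ℂ (fun y : En n => Eh B (L (y - e))) := (TB.eh_diff hs).1.comp h1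
  have h3 : Differentiable ℂ (fun y : En n => Eh B (L (y - e)) / 4) := by
    simp only [div_eq_mul_inv]
    exact h2.mul_const _
  exact (h1.const_add p).sub (h3.smul_const ν)

private theorem L1_Th_smooth {B : En n →L[ℝ] En n →L[ℝ] ℝ} (hs : ∀ u v, B u v = B v u) (L : En n →L[ℂ] En n)
    (p e ν : En n) : ContDiff ℝ 3 (L1_Th B L p e ν) := by
  have h1 : ContDiff ℝ 3 (fun y : En n => L (y - e)) :=
    (L.restrictScalars ℝ).contDiff.comp (contDiff_id.sub contDiff_const)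
  have h2 : ContDiff ℝ 3 (fun y : En n => Eh B (L (y - e))) := (L1_eh3 hs).comp h1
  exact (contDiff_const.add h1).sub ((h2.div_const 4).smul contDiff_const)

private theorem L1_Th_bound (B : En n →L[ℝ] En n →L[ℝ] ℝ) (L : En n →L[ℂ] En n) (ν : En n) :
    ∃ Q : ℝ, 0 ≤ Q ∧ ∀ v, ‖(Eh B (L v) / 4) • ν‖ ≤ Q * ‖v‖ ^ 2 := by
  obtain ⟨k, hk, hk'⟩ := TB.eh_bound (B := B)
  refine ⟨k * ‖L‖ ^ 2 * ‖ν‖, by positivity, fun v => ?_⟩
  rw [norm_smul, norm_div]
  have h1 : ‖(4 : ℂ)‖ = 4 := by simp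
  rw [h1]
  have h2 := (hk' (L v)).1
  have h3 : ‖L v‖ ≤ ‖L‖ * ‖v‖ := L.le_opNorm v
  calc ‖Eh B (L v)‖ / 4 * ‖ν‖ ≤ ‖Eh B (L v)‖ * ‖ν‖ := by
        refine mul_le_mul_of_nonneg_right ?_ (norm_nonneg _)
        linarith [norm_nonneg (Eh B (L v))]
    _ ≤ (k * ‖L v‖ ^ 2) * ‖ν‖ := mul_le_mul_of_nonneg_right h2 (norm_nonneg _)
    _ ≤ (k * (‖L‖ * ‖v‖) ^ 2) * ‖ν‖ := by gcongr
    _ = _ := by ring

private theorem L1_Th_fderiv (B : En n →L[ℝ] En n →L[ℝ] ℝ) (L : En n →L[ℂ] En n)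
    (p e ν : En n) : fderiv ℂ (L1_Th B L p e ν) e = L := by
  obtain ⟨Q, hQ, hb⟩ := L1_Th_bound B L ν
  refine HasFDerivAt.fderiv ?_
  rw [hasFDerivAt_iff_isLittleO]
  have h1 : (fun y => L1_Th B L p e ν y - L1_Th B L p e ν e - L (y - e)) =O[𝓝 e]
      fun y => ‖y - e‖ ^ 2 := by
    refine Asymptotics.IsBigO.of_bound Q (Eventually.of_forall fun y => ?_)
    rw [L1_Th_e]
    unfold L1_Th
    have h2 : p + L (y - e) - (Eh B (L (y - e)) / 4) • ν - p - L (y - e) =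
        -((Eh B (L (y - e)) / 4) • ν) := by abel
    rw [h2, norm_neg, Real.norm_eq_abs, abs_of_nonneg (by positivity)]
    exact hb (y - e)
  exact h1.trans_isLittleO (Asymptotics.isLittleO_pow_sub_sub e one_lt_two)

/-- The osculating coordinates. -/
theorem local_osc {D : Set (En n)} (hD : IsStrictlyPscDomain D) {p : En n} (hp : p ∈ frontier D) :
    ∃ (e : En n) (Θ : En n → En n) (ρ : En n → ℝ) (s C : ℝ), ‖e‖ = 1 ∧ 0 < s ∧ Θ e = p ∧ Differentiable ℂ Θ ∧ ContDiff ℝ 1 Θ ∧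
      (∀ v, fderiv ℂ Θ e v = 0 → v = 0) ∧ ContDiffOn ℝ 3 ρ (ball e s) ∧
      ∀ y ∈ ball e s, (Θ y ∈ D ↔ ρ y < 0) ∧ |ρ y - (‖y‖ ^ 2 - 1)| ≤ C * ‖y - e‖ ^ 3 := by
  obtain ⟨U, ρ₁, c, hDS⟩ := LV.ds_exists (LV.S5_domain hD)
  have hcl : closure D ⊆ {z | z ∈ U ∧ ρ₁ z ≤ 0} := by
    refine closure_minimal ?_ hDS.cpt.isClosed
    rw [hDS.eq]
    exact fun z hz => ⟨hz.1, hz.2.le⟩
  have hopn : IsOpen D := by
    rw [hDS.eq]
    exact hDS.sm.continuousOn.isOpen_inter_preimage hDS.opn isOpen_Iio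
  have hpU : p ∈ U := (hcl (frontier_subset_closure hp)).1
  have hp0 : ρ₁ p = 0 := by
    refine le_antisymm (hcl (frontier_subset_closure hp)).2 ?_
    by_contra h
    push Not at h
    have h1 : p ∈ D := by
      rw [hDS.eq]
      exact ⟨hpU, h⟩
    exact hp.2 (by rw [hopn.interior_eq]; exact h1)
  have hAt : ∀ z ∈ U, ContDiffAt ℝ 3 ρ₁ z := fun z hz =>
    (hDS.sm.contDiffAt (hDS.opn.mem_nhds hz)).of_le (by exact WithTop.coe_le_coe.2 le_top)
  obtain ⟨B, hB⟩ : ∃ B, B = fderiv ℝ (fderiv ℝ ρ₁) p := ⟨_, rfl⟩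
  have hs : ∀ u v, B u v = B v u := by
    rw [hB]
    exact fun u v => ((hAt p hpU).isSymmSndFDerivAt
      (by simp only [minSmoothness_of_isRCLikeNormedField]; norm_num)).eq u v
  have hL : ∀ v, (2 * c) * ‖v‖ ^ 2 ≤ Lh B v := by
    intro v
    have h1 := hDS.psh p hpU v
    unfold leviForm at h1
    rw [← hB] at h1
    unfold Lh
    linarith
  have hc := hDS.c0
  obtain ⟨L, e, K, hK, he, hL0, hpd, hLh⟩ := L1_coord hs (by linarith) hL (hDS.nd p hpU hp0)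
  obtain ⟨ν, hν⟩ : ∃ ν, pd ρ₁ p ν = 1 := by
    refine ⟨((K : ℂ))⁻¹ • L e, ?_⟩
    rw [pd_smul, hpd, inner_self_eq_norm_sq_to_K, he]
    have : (K : ℂ) ≠ 0 := by
      rw [Complex.ofReal_ne_zero]
      exact hK.ne'
    simp [this]
  obtain ⟨Q, hQ, hQb⟩ := L1_Th_bound B L ν
  obtain ⟨s₁, hs₁, M, hM⟩ := taylor3 (hAt p hpU)
  obtain ⟨Θ, hΘ⟩ : ∃ Θ, Θ = L1_Th B L p e ν := ⟨_, rfl⟩
  have hΘe : Θ e = p := by rw [hΘ]; exact L1_Th_e B L p e ν
  have hΘs : ContDiff ℝ 3 Θ := by rw [hΘ]; exact L1_Th_smooth hs L p e ν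
  obtain ⟨s₂, hs₂, hs₂'⟩ : ∃ s₂ > 0, ∀ y ∈ ball e s₂, Θ y ∈ U := by
    have h1 : Θ ⁻¹' U ∈ 𝓝 e := hΘs.continuous.continuousAt.preimage_mem_nhds
      (by rw [hΘe]; exact hDS.opn.mem_nhds hpU)
    obtain ⟨s₂, h2, h3⟩ := Metric.mem_nhds_iff.1 h1
    exact ⟨s₂, h2, fun y hy => h3 hy⟩
  have ha : 0 ≤ ‖L‖ := norm_nonneg _
  obtain ⟨s, hs0, hss1, hss2, hss3⟩ : ∃ s : ℝ, 0 < s ∧ s ≤ 1 ∧ s ≤ s₂ ∧ (‖L‖ + Q) * s < s₁ := by
    refine ⟨min 1 (min s₂ (s₁ / (‖L‖ + Q + 1))), by positivity, min_le_left _ _,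
      (min_le_right _ _).trans (min_le_left _ _), ?_⟩
    have h1 : min 1 (min s₂ (s₁ / (‖L‖ + Q + 1))) ≤ s₁ / (‖L‖ + Q + 1) :=
      (min_le_right _ _).trans (min_le_right _ _)
    calc (‖L‖ + Q) * _ ≤ (‖L‖ + Q) * (s₁ / (‖L‖ + Q + 1)) := mul_le_mul_of_nonneg_left h1 (by positivity)
      _ < (‖L‖ + Q + 1) * (s₁ / (‖L‖ + Q + 1)) := by
        refine mul_lt_mul_of_pos_right (by linarith) (by positivity)
      _ = s₁ := by field_simp
  refine ⟨e, Θ, fun y => ρ₁ (Θ y) / K, s,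
    (|M| * (‖L‖ + Q) ^ 3 + ‖B‖ * (2 * ‖L‖ * Q + Q ^ 2) / 2) / K, he, hs0, hΘe, ?_, hΘs.of_le (by norm_num), ?_,
    ?_, ?_⟩
  · rw [hΘ]
    exact L1_Th_diff hs L p e ν
  · intro v hv
    rw [hΘ, L1_Th_fderiv] at hv
    exact hL0 v hv
  · intro y hy
    have h1 : Θ y ∈ U := hs₂' y (ball_subset_ball hss2 hy)
    exact (((hAt _ h1).comp y hΘs.contDiffAt).div_const K).contDiffWithinAt
  · intro y hy
    have h1 : Θ y ∈ U := hs₂' y (ball_subset_ball hss2 hy)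
    refine ⟨?_, ?_⟩
    · rw [hDS.eq]
      constructor
      · intro h
        exact div_neg_of_neg_of_pos h.2 hK
      · intro h
        refine ⟨h1, ?_⟩
        by_contra h2
        push Not at h2
        have : 0 ≤ ρ₁ (Θ y) / K := by positivity
        linarith
    · obtain ⟨v, hv⟩ : ∃ v, v = y - e := ⟨_, rfl⟩
      have hvn : ‖v‖ < s := by
        rw [hv, ← dist_eq_norm]
        exact hy
      have hv1 : ‖v‖ ≤ 1 := hvn.le.trans hss1
      have hv0 : 0 ≤ ‖v‖ := norm_nonneg _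
      obtain ⟨q, hq⟩ : ∃ q, q = (Eh B (L v) / 4) • ν := ⟨_, rfl⟩
      have hqn : ‖q‖ ≤ Q * ‖v‖ ^ 2 := by rw [hq]; exact hQb v
      have hqn' : ‖q‖ ≤ Q * ‖v‖ := by
        refine hqn.trans ?_
        have : ‖v‖ ^ 2 ≤ ‖v‖ := by nlinarith
        exact mul_le_mul_of_nonneg_left this hQ
      have hLn : ‖L v‖ ≤ ‖L‖ * ‖v‖ := L.le_opNorm v
      have hw : Θ y = p + (L v - q) := by
        rw [hΘ, hq, hv]
        unfold L1_Th
        abel
      have hwn : ‖L v - q‖ ≤ (‖L‖ + Q) * ‖v‖ := by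
        calc _ ≤ ‖L v‖ + ‖q‖ := norm_sub_le _ _
          _ ≤ ‖L‖ * ‖v‖ + Q * ‖v‖ := add_le_add hLn hqn'
          _ = _ := by ring
      have hws : ‖L v - q‖ < s₁ := by
        refine (hwn.trans ?_).trans_lt hss3
        exact mul_le_mul_of_nonneg_left hvn.le (by positivity)
      have ht := hM _ hws
      rw [← hw, hp0, sub_zero, ← hB] at ht
      -- the first order term
      have hpdw : fderiv ℝ ρ₁ p (L v - q) = 2 * K * (inner ℂ e v : ℂ).re - (Eh B (L v)).re / 2 := by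
        rw [pd_re, sub_eq_add_neg, pd_add, pd_neg, hpd, hq, pd_smul, hν]
        simp only [mul_one, Complex.add_re, Complex.neg_re, Complex.mul_re, Complex.ofReal_re,
          Complex.ofReal_im, zero_mul, sub_zero]
        have h4 : (Eh B (L v) / 4).re = (Eh B (L v)).re / 4 := by
          rw [show (4 : ℂ) = ((4 : ℝ) : ℂ) by norm_num, Complex.div_ofReal_re]
        rw [h4]
        ring
      -- the second order term
      have hb : ∀ x y : En n, |B x y| ≤ ‖B‖ * ‖x‖ * ‖y‖ := by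
        intro x y
        have := B.le_opNorm₂ x y
        rwa [Real.norm_eq_abs] at this
      have hBn : 0 ≤ ‖B‖ := norm_nonneg B
      have hBw : |B (L v - q) (L v - q) - B (L v) (L v)| ≤ ‖B‖ * (2 * ‖L‖ * Q + Q ^ 2) * ‖v‖ ^ 3 := by
        have e1 : B (L v - q) (L v - q) - B (L v) (L v) = -(2 * B (L v) q) + B q q := by
          simp only [map_sub, sub_apply]
          rw [hs q (L v)]
          ring
        rw [e1]
        have h2 : |B (L v) q| ≤ ‖B‖ * (‖L‖ * Q) * ‖v‖ ^ 3 := by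
          calc |B (L v) q| ≤ ‖B‖ * ‖L v‖ * ‖q‖ := hb _ _
            _ ≤ ‖B‖ * (‖L‖ * ‖v‖) * (Q * ‖v‖ ^ 2) := by gcongr
            _ = _ := by ring
        have h3 : |B q q| ≤ ‖B‖ * Q ^ 2 * ‖v‖ ^ 3 := by
          calc |B q q| ≤ ‖B‖ * ‖q‖ * ‖q‖ := hb _ _
            _ ≤ ‖B‖ * (Q * ‖v‖) * (Q * ‖v‖ ^ 2) := by gcongr
            _ = _ := by ring
        rw [abs_le] at h2 h3 ⊢
        constructor <;> nlinarith [h2.1, h2.2, h3.1, h3.2]
      have hBv : B (L v) (L v) / 2 = K * ‖v‖ ^ 2 + (Eh B (L v)).re / 2 := by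
        rw [TB.B_eq, ← hLh]
        ring
      have hy2 : ‖y‖ ^ 2 - 1 = 2 * (inner ℂ e v : ℂ).re + ‖v‖ ^ 2 := by
        have h5 := norm_add_sq (𝕜 := ℂ) e v
        rw [hv, add_sub_cancel, he] at h5
        rw [hv]
        have h6 : RCLike.re (inner ℂ e (y - e)) = (inner ℂ e (y - e) : ℂ).re := rfl
        rw [h6] at h5
        linarith
      have hMn : |ρ₁ (Θ y) - fderiv ℝ ρ₁ p (L v - q) - B (L v - q) (L v - q) / 2| ≤
          |M| * (‖L‖ + Q) ^ 3 * ‖v‖ ^ 3 := by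
        refine ht.trans ?_
        calc M * ‖L v - q‖ ^ 3 ≤ |M| * ‖L v - q‖ ^ 3 :=
            mul_le_mul_of_nonneg_right (le_abs_self M) (by positivity)
          _ ≤ |M| * ((‖L‖ + Q) * ‖v‖) ^ 3 := by gcongr
          _ = _ := by ring
      have hfin : |ρ₁ (Θ y) - K * (‖y‖ ^ 2 - 1)| ≤
          (|M| * (‖L‖ + Q) ^ 3 + ‖B‖ * (2 * ‖L‖ * Q + Q ^ 2) / 2) * ‖v‖ ^ 3 := by
        rw [hy2]
        rw [hpdw] at hMn
        rw [abs_le] at hMn hBw ⊢
        constructor <;> nlinarith [hMn.1, hMn.2, hBw.1, hBw.2, hBv]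
      have h7 : ρ₁ (Θ y) / K - (‖y‖ ^ 2 - 1) = (ρ₁ (Θ y) - K * (‖y‖ ^ 2 - 1)) / K := by
        field_simp
      show |ρ₁ (Θ y) / K - (‖y‖ ^ 2 - 1)| ≤ _
      rw [h7, abs_div, abs_of_pos hK, ← hv, div_mul_eq_mul_div]
      exact div_le_div_of_nonneg_right hfin hK.le

end Pool.Agent.MPca0fc2.EQ
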