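import Pool.Agent.Lib.MP_ca0fc2_an.EQ.L1
import Pool.Agent.Lib.MP_ca0fc2_an.Mg.G086
import Pool.Agent.Lib.MP_ca0fc2_an.Mg.G077
import Pool.Agent.Lib.MP_ca0fc2_an.Mg.G060

/-! Campaign EQ, task L3: from local solutions on the domains `Tg` to solutions on strictly pseudoconvex domains. -/

set_option autoImplicit false

open Metric Set Filter Topology

namespace Pool.Agent.MPca0fc2.EQ

open Pool.Agent.MPca0fc2
open Pool.Agent.MPca0fc2.TB (En Solv IsSol)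
open Pool.Agent.Lib.MP_ca0fc2_an

variable {n : ℕ}

/-- PROOF. `LV.support_of_domain hD` gives `SupportData`; `FD.fibre_loc'`: it is enough to solve near each `p ∈ closure D`. For `p ∈ D`: `FD.solv_interior`. For `p ∈ frontier D`: `local_osc`, `exists_tg`:
`T.e = e`, `Θ`, `ρ`, `s'`: on `ball e s'`: `Θ y ∈ D ↔ T.ρ y < 0`. WLOG (scaling as in the results file UniformBall: divide `f` by a constant `K ≥ 1` with `∑ ‖f j z‖² ≤ K²`) `∑ ‖f j z‖² ≤ 1`, and `δ' = √δ / K`.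
`f' y = WithLp.toLp 2 (fun j => f j (Θ y) / K)` on `T.D ∩ ball e s'`: holomorphic, `δ' ≤ ‖f' y‖ ≤ 1`. `hML` gives `s₁`, `A` and the solution `h'` on `T.D ∩ ball e s₁`; we may decrease `s₁` to `s₁ ≤ s'`. The inverse: `TB.hol_inv`
for `F y = Θ y - p`, at the point `e`, radius `s₁`: `G` holomorphic on `ball 0 a`, `Θ (G w) = p + w`, `G w ∈ ball e s₁`. On `D ∩ ball p a`: `h j z = h' (G (z - p)) j / K`; `y = G (z - p) ∈ ball e s₁`, `Θ y = z ∈ D`, so `y ∈ T.D`.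
`∑ f j z * h j z = 1`, bounded by `A`. -/
theorem psc_of_tg (hn : 2 ≤ n) {N : ℕ}
    (hML : ∀ (T : Tg n) (s δ : ℝ) (f : En n → En N), 0 < s → 0 < δ → DifferentiableOn ℂ f (T.D ∩ ball T.e s) →
      (∀ z ∈ T.D ∩ ball T.e s, δ ≤ ‖f z‖ ∧ ‖f z‖ ≤ 1) → ∃ s₁ > 0, ∃ A : ℝ, Solv f (T.D ∩ ball T.e s₁) A)
    {D : Set (En n)} (hD : IsStrictlyPscDomain D) {f : Fin N → En n → ℂ} (hf : ∀ j, IsHinf D (f j)) {δ : ℝ} (hδ : 0 < δ)
    (hfδ : ∀ z ∈ D, δ ≤ ∑ j, ‖f j z‖ ^ 2) : ∃ C : ℝ, SolvableOn f D C := by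
  obtain ⟨U, ρ₀, hh, c, hs, -⟩ := LV.support_of_domain hD
  have hDo : IsOpen D := by
    rw [hs.eq]
    exact hs.dρ.continuousOn.isOpen_inter_preimage hs.opn (isOpen_Iio (a := (0:ℝ)))
  choose hfd Mf hMf using hf
  refine FD.fibre_loc' hn hs (M := ∑ j, |Mf j|) hfd (fun j z hz => (hMf j z hz).trans ((le_abs_self _).trans
    (Finset.single_le_sum (f := fun j => |Mf j|) (fun _ _ => abs_nonneg _) (Finset.mem_univ j)))) ?_
  intro p hp
  by_cases hpD : p ∈ D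
  · exact FD.solv_interior hDo hfd hδ hfδ hpD
  have hpf : p ∈ frontier D := ⟨hp, by rwa [hDo.interior_eq]⟩
  obtain ⟨e, Θ, ρ, s, C, he, hs0, hΘe, hΘd, hΘc, hinj, hρ, hosc⟩ := local_osc hD hpf
  obtain ⟨T, s', hTe, hs', hs's, hTρ⟩ := exists_tg he hs0 hρ (fun y hy => (hosc y hy).2)
  have hmem : ∀ y ∈ ball e s', (Θ y ∈ D ↔ y ∈ T.D) := by
    intro y hy
    rw [(hosc y (ball_subset_ball hs's hy)).1, ← hTρ y hy]
    rfl
  set K : ℝ := 1 + ∑ j, |Mf j| with hK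
  have hs0' : 0 ≤ ∑ j, |Mf j| := Finset.sum_nonneg fun j _ => abs_nonneg _
  have hK1 : 1 ≤ K := by linarith
  have hK0 : 0 < K := by linarith
  have hup : ∀ z ∈ D, ∑ j, ‖f j z‖ ^ 2 ≤ K ^ 2 := by
    intro z hz
    calc ∑ j, ‖f j z‖ ^ 2 ≤ ∑ j, |Mf j| ^ 2 := Finset.sum_le_sum fun j _ =>
          pow_le_pow_left₀ (norm_nonneg _) ((hMf j z hz).trans (le_abs_self _)) 2
      _ ≤ (∑ j, |Mf j|) ^ 2 := Finset.sum_sq_le_sq_sum_of_nonneg fun j _ => abs_nonneg _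
      _ ≤ K ^ 2 := pow_le_pow_left₀ hs0' (by linarith) 2
  have hng : ∀ j z, ‖((K : ℂ)⁻¹) * f j z‖ ^ 2 = ‖f j z‖ ^ 2 / K ^ 2 := by
    intro j z
    rw [norm_mul, norm_inv, Complex.norm_real, Real.norm_of_nonneg hK0.le]
    field_simp
  set f' : En n → En N := fun y => WithLp.toLp 2 (fun j => (K : ℂ)⁻¹ * f j (Θ y)) with hf'
  have hf'n : ∀ y, ‖f' y‖ ^ 2 = (∑ j, ‖f j (Θ y)‖ ^ 2) / K ^ 2 := by
    intro y
    rw [EuclideanSpace.norm_sq_eq, Finset.sum_div]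
    exact Finset.sum_congr rfl fun j _ => hng j (Θ y)
  have hf'd : DifferentiableOn ℂ f' (T.D ∩ ball T.e s') := by
    intro y hy
    have hyD : Θ y ∈ D := (hmem y (hTe ▸ hy.2)).2 hy.1
    have h1 : DifferentiableAt ℂ (fun y => fun j => (K : ℂ)⁻¹ * f j (Θ y)) y := by
      rw [differentiableAt_pi]
      intro j
      exact (((hfd j).differentiableAt (hDo.mem_nhds hyD)).comp y (hΘd y)).const_mul _
    exact ((PiLp.hasFDerivAt_toLp (𝕜 := ℂ) 2 (fun j => (K : ℂ)⁻¹ * f j (Θ y))).differentiableAt.comp y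
      h1).differentiableWithinAt
  obtain ⟨s₁, hs₁, A, h', hh1, hh2, hh3⟩ := hML T s' (Real.sqrt (δ / K ^ 2)) f' hs'
    (Real.sqrt_pos.2 (by positivity)) hf'd (by
      intro y hy
      have hyD : Θ y ∈ D := (hmem y (hTe ▸ hy.2)).2 hy.1
      constructor
      · rw [Real.sqrt_le_left (norm_nonneg _), hf'n y]
        exact div_le_div_of_nonneg_right (hfδ _ hyD) (by positivity)
      · have h1 : ‖f' y‖ ^ 2 ≤ 1 := by
          rw [hf'n y, div_le_one (by positivity)]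
          exact hup _ hyD
        exact (sq_le_one_iff₀ (norm_nonneg _)).1 h1)
  have hs2 : 0 < min s₁ s' := lt_min hs₁ hs'
  obtain ⟨C', -, a, ha, G, hG, hG'⟩ := TB.hol_inv (F := fun y => Θ y - p) (p := e) hs2
    ((hΘd.sub_const p).differentiableOn) ((hΘc.sub contDiff_const).contDiffOn)
    (by simp only [hΘe, sub_self]) (by
      intro v hv
      apply hinj v
      rwa [fderiv_sub_const] at hv)
  have hy : ∀ z ∈ D ∩ ball p a, z - p ∈ ball (0 : En n) a ∧ Θ (G (z - p)) = z ∧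
      G (z - p) ∈ T.D ∩ ball T.e s₁ := by
    intro z hz
    have h1 : z - p ∈ ball (0 : En n) a := by
      rw [mem_ball_zero_iff, ← dist_eq_norm]
      exact hz.2
    obtain ⟨h2, h3, -⟩ := hG' _ h1
    have h4 : Θ (G (z - p)) = z := sub_left_injective h2
    refine ⟨h1, h4, ?_, ?_⟩
    · rw [← hmem _ (ball_subset_ball (min_le_right _ _) h3), h4]
      exact hz.1
    · rw [hTe]
      exact ball_subset_ball (min_le_left _ _) h3
  have hTo : IsOpen T.D := isOpen_lt T.sm.continuous continuous_const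
  refine ⟨a, ha, A, fun j z => (K : ℂ)⁻¹ * h' (G (z - p)) j, fun j => ?_, fun j z hz => ?_, fun z hz => ?_⟩
  · intro z hz
    obtain ⟨h1, h2, h3⟩ := hy z hz
    have hGd : DifferentiableAt ℂ (fun z => G (z - p)) z :=
      (hG.differentiableAt (isOpen_ball.mem_nhds h1)).comp z (differentiableAt_id.sub_const p)
    have h4 : DifferentiableAt ℂ h' (G (z - p)) :=
      hh1.differentiableAt ((hTo.inter isOpen_ball).mem_nhds h3)
    have h5 : DifferentiableAt ℂ (fun z => h' (G (z - p))) z := h4.comp z hGd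
    have h6 : DifferentiableAt ℂ (fun z => h' (G (z - p)) j) z :=
      ((EuclideanSpace.proj j : En N →L[ℂ] ℂ).differentiableAt).comp z h5
    exact (h6.const_mul _).differentiableWithinAt
  · obtain ⟨-, -, h3⟩ := hy z hz
    have h4 := hh2 _ h3
    have h5 : ‖h' (G (z - p)) j‖ ≤ ‖h' (G (z - p))‖ := PiLp.norm_apply_le _ _
    show ‖(K : ℂ)⁻¹ * h' (G (z - p)) j‖ ≤ A
    rw [norm_mul, norm_inv, Complex.norm_real, Real.norm_of_nonneg hK0.le]
    have h6 : K⁻¹ ≤ 1 := inv_le_one_of_one_le₀ hK1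
    calc K⁻¹ * ‖h' (G (z - p)) j‖ ≤ 1 * ‖h' (G (z - p)) j‖ :=
          mul_le_mul_of_nonneg_right h6 (norm_nonneg _)
      _ ≤ A := by rw [one_mul]; exact h5.trans h4
  · obtain ⟨-, h2, h3⟩ := hy z hz
    have h4 := hh3 _ h3
    rw [← h4]
    refine Finset.sum_congr rfl fun j _ => ?_
    show f j z * ((K : ℂ)⁻¹ * h' (G (z - p)) j) = ((K : ℂ)⁻¹ * f j (Θ (G (z - p)))) * h' (G (z - p)) j
    rw [h2]
    ring

end Pool.Agent.MPca0fc2.EQ
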