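import Pool.Agent.Lib.MP_ca0fc2_an.Mg.G082
import Pool.Agent.Lib.MP_ca0fc2_an.EQ.A3
import Pool.Agent.Lib.MP_ca0fc2_an.Mg.G075

/-! Campaign EQ, task S1: Taylor polynomials of osculating maps. -/

set_option autoImplicit false

open Metric Set Filter Topology

namespace Pool.Agent.MPca0fc2.EQ

open Pool.Agent.MPca0fc2.TB (En Lh Eh)

variable {n : ℕ}

/-- The recentred node has the same map and function. PROOF. `y - q = (y - q') + (q' - q)`; expand. -/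
theorem re_Ψ (ν : Cn n) (q' y : En n) : (ν.re q').Ψ y = ν.Ψ y := by
  have h : y - ν.q = (y - q') + (q' - ν.q) := by abel
  unfold Cn.re Cn.Ψ
  simp only [h, map_add, _root_.add_apply, ContinuousLinearMap.flip_apply]
  abel

theorem re_u (ν : Cn n) (q' y : En n) : (ν.re q').u y = ν.u y := by
  have h : y - ν.q = (y - q') + (q' - ν.q) := by abel
  unfold Cn.re Cn.u
  simp only [h, map_add, Complex.add_re]
  ring

/-- PROOF. `x' - q' = (x - q) + (L - 1) w + b w w`, `w = q' - q`, `‖w‖ ≤ t ≤ 1`: `≤ m + 2 m t`; `‖L' - 1‖ ≤ m + 2 m t`; `|u' - 1| ≤ m + 2 m t`; with `m ≤ 1`. -/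
theorem re_small {T : Tg n} {ν : Cn n} {m t : ℝ} (h : Small T ν m) (hm : m ≤ 1) {q' : En n} (hq : ‖q'‖ = 1)
    (ht : ‖q' - ν.q‖ ≤ t) (ht1 : t ≤ 1) : Small T (ν.re q') (m + 2 * t) := by
  have ht0 : 0 ≤ t := (norm_nonneg _).trans ht
  have hm0 : 0 ≤ m := (norm_nonneg (ν.q - T.e)).trans h.qe
  set w : En n := q' - ν.q with hw
  have hmt : m * t ≤ t := by nlinarith
  have hbw : ‖ν.b w‖ ≤ m * t := (ν.b.le_opNorm w).trans (mul_le_mul h.b ht (norm_nonneg _) hm0)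
  refine ⟨hq, ?_, ?_, ?_, ?_, ?_, ?_⟩
  · have h1 : (ν.re q').q - T.e = w + (ν.q - T.e) := by
      show q' - T.e = _
      rw [hw]; abel
    rw [h1]
    exact (norm_add_le _ _).trans (by linarith [h.qe])
  · have h1 : (ν.re q').x - (ν.re q').q = (ν.x - ν.q) + (ν.L - 1) w + ν.b w w := by
      show ν.Ψ q' - q' = _
      unfold Cn.Ψ
      rw [_root_.sub_apply, one_apply_eq_self, ← hw]
      have h2 : q' = w + ν.q := by rw [hw]; abel
      rw [h2]; abel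
    rw [h1]
    have h3 : ‖(ν.L - 1) w‖ ≤ m * t :=
      ((ν.L - 1).le_opNorm w).trans (mul_le_mul h.L ht (norm_nonneg _) hm0)
    have h4 : ‖ν.b w w‖ ≤ m * t * t :=
      ((ν.b w).le_opNorm w).trans (mul_le_mul hbw ht (norm_nonneg _) (by positivity))
    have h5 : m * t * t ≤ t := by nlinarith
    calc _ ≤ ‖ν.x - ν.q‖ + ‖(ν.L - 1) w‖ + ‖ν.b w w‖ := norm_add₃_le
      _ ≤ _ := by linarith [h.x]
  · have h1 : (ν.re q').L - 1 = (ν.L - 1) + ν.b w + ν.b.flip w := by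
      show ν.L + ν.b (q' - ν.q) + ν.b.flip (q' - ν.q) - 1 = _
      rw [← hw]; abel
    rw [h1]
    have h3 : ‖ν.b.flip w‖ ≤ m * t := by
      refine (ν.b.flip.le_opNorm w).trans ?_
      rw [ContinuousLinearMap.opNorm_flip]
      exact mul_le_mul h.b ht (norm_nonneg _) hm0
    calc _ ≤ ‖ν.L - 1‖ + ‖ν.b w‖ + ‖ν.b.flip w‖ := norm_add₃_le
      _ ≤ _ := by linarith [h.L]
  · exact h.b.trans (by linarith)
  · have h1 : (ν.re q').u0 - 1 = (ν.u0 - 1) + 2 * (ν.l w).re := by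
      show ν.u q' - 1 = _
      unfold Cn.u
      rw [← hw]; ring
    rw [h1]
    have h3 : |(ν.l w).re| ≤ m * t := (Complex.abs_re_le_norm _).trans
      ((ν.l.le_opNorm w).trans (mul_le_mul h.l ht (norm_nonneg _) hm0))
    calc _ ≤ |ν.u0 - 1| + |2 * (ν.l w).re| := abs_add_le _ _
      _ = |ν.u0 - 1| + 2 * |(ν.l w).re| := by rw [abs_mul, abs_of_pos (by norm_num : (0 : ℝ) < 2)]
      _ ≤ _ := by linarith [h.u]
  · exact h.l.trans (by linarith)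

/-- PROOF. `‖y - q'‖ ≤ 3` and `‖q' - q‖ ≤ t ≤ 1` give `‖y - q‖ ≤ 4` and `r + ‖y - q‖ ≤ r + t + ‖y - q'‖`. -/
theorem re_ql {T : Tg n} {A : ℝ} {ν : Cn n} {r t : ℝ} (hA : 0 ≤ A) (h : Ql T A ν r) (hr : 0 ≤ r) {q' : En n} (ht : ‖q' - ν.q‖ ≤ t) (ht1 : t ≤ 1)
    {y : En n} (hy : ‖y - q'‖ ≤ 3) : |T.ρ ((ν.re q').Ψ y) - (ν.re q').u y * (‖y‖ ^ 2 - 1)| ≤ A * (r + t + ‖y - q'‖) ^ 3 := by
  rw [re_Ψ, re_u]
  have h0 : y - ν.q = (y - q') + (q' - ν.q) := by abel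
  have h1 : ‖y - ν.q‖ ≤ ‖y - q'‖ + t := by
    rw [h0]; exact (norm_add_le _ _).trans (by linarith)
  refine (h y (by linarith)).trans ?_
  exact mul_le_mul_of_nonneg_left (pow_le_pow_left₀ (by positivity) (by linarith) 3) hA

/-- Bounds of the second derivative. PROOF. `T.d1`, `T.d2` (`norm_fderiv_le_of_lip'`). -/
theorem bx_le (T : Tg n) (x : En n) : ‖Bx T x‖ ≤ T.C := by
  exact norm_fderiv_le_of_lip' ℝ (by linarith [T.one_le]) (Filter.Eventually.of_forall fun y => T.d1 y x)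

theorem bx_sub (T : Tg n) (x y : En n) : ‖Bx T x - Bx T y‖ ≤ T.C * ‖x - y‖ := by
  exact T.d2 x y

theorem bx_symm (T : Tg n) (x v w : En n) : Bx T x v w = Bx T x w v := by
  have h : IsSymmSndFDerivAt ℝ T.ρ x := by
    apply (T.sm.contDiffAt).isSymmSndFDerivAt
    rw [minSmoothness_of_isRCLikeNormedField]
    norm_num
  exact h v w

private theorem TT2 (T : Tg n) (x w : En n) :
    |T.ρ (x + w) - T.ρ x - fderiv ℝ T.ρ x w - Bx T x w w / 2| ≤ T.C * ‖w‖ ^ 3 := by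
  have hC : 0 ≤ T.C := by linarith [T.one_le]
  have hd1 : Differentiable ℝ T.ρ := T.sm.differentiable (by norm_num)
  have hsm2 : ContDiff ℝ 2 (fderiv ℝ T.ρ) := T.sm.fderiv_right (by norm_num)
  have hd2 : Differentiable ℝ (fderiv ℝ T.ρ) := hsm2.differentiable (by norm_num)
  have key : ∀ z ∈ closedBall x ‖w‖, ‖fderiv ℝ T.ρ z - fderiv ℝ T.ρ x - Bx T x (z - x)‖ ≤ T.C * ‖w‖ * ‖w‖ := by
    intro z hz
    have hz' : ‖z - x‖ ≤ ‖w‖ := by rwa [mem_closedBall, dist_eq_norm] at hz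
    have h1 := (convex_closedBall x ‖w‖).norm_image_sub_le_of_norm_fderiv_le' (𝕜 := ℝ) (f := fderiv ℝ T.ρ)
      (φ := Bx T x) (C := T.C * ‖w‖) (fun y _ => hd2 y) (fun y hy => by
        have hy' : ‖y - x‖ ≤ ‖w‖ := by rwa [mem_closedBall, dist_eq_norm] at hy
        exact (T.d2 y x).trans (mul_le_mul_of_nonneg_left hy' hC))
      (mem_closedBall_self (norm_nonneg w)) hz
    exact h1.trans (mul_le_mul_of_nonneg_left hz' (by positivity))
  have hB : ∀ z : En n, HasFDerivAt (fun y => Bx T x (y - x) (y - x)) ((2 : ℝ) • Bx T x (z - x)) z := by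
    intro z
    have hs : HasFDerivAt (fun y : En n => y - x) (ContinuousLinearMap.id ℝ (En n)) z :=
      (hasFDerivAt_id z).sub_const x
    have h1 : HasFDerivAt (fun y : En n => Bx T x (y - x)) (Bx T x) z := by
      have h0 := (Bx T x).hasFDerivAt.comp z hs
      rw [ContinuousLinearMap.comp_id] at h0
      exact h0
    have h2 := h1.clm_apply hs
    refine h2.congr_fderiv ?_
    ext v
    simp only [_root_.add_apply, ContinuousLinearMap.comp_apply, ContinuousLinearMap.flip_apply,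
      _root_.smul_apply, ContinuousLinearMap.id_apply, smul_eq_mul]
    rw [bx_symm T x v (z - x)]
    ring
  have hh : ∀ z : En n, HasFDerivAt (fun y => T.ρ y - (1 / 2 : ℝ) * Bx T x (y - x) (y - x))
      (fderiv ℝ T.ρ z - Bx T x (z - x)) z := by
    intro z
    have h1 := (hd1 z).hasFDerivAt.sub ((hB z).const_mul (1 / 2 : ℝ))
    refine h1.congr_fderiv ?_
    ext v
    simp
  have h2 := (convex_closedBall x ‖w‖).norm_image_sub_le_of_norm_hasFDerivWithin_le' (𝕜 := ℝ)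
    (f := fun y => T.ρ y - (1 / 2 : ℝ) * Bx T x (y - x) (y - x))
    (f' := fun z => fderiv ℝ T.ρ z - Bx T x (z - x)) (φ := fderiv ℝ T.ρ x) (C := T.C * ‖w‖ * ‖w‖)
    (fun z _ => (hh z).hasFDerivWithinAt) (fun z hz => by
      have := key z hz
      rwa [sub_right_comm] at this)
    (mem_closedBall_self (norm_nonneg w)) (y := x + w) (by
      rw [mem_closedBall, dist_eq_norm]; simp)
  rw [Real.norm_eq_abs] at h2
  simp only [add_sub_cancel_left, sub_self, map_zero, mul_zero, sub_zero] at h2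
  have h3 : T.ρ (x + w) - T.ρ x - fderiv ℝ T.ρ x w - Bx T x w w / 2 =
      T.ρ (x + w) - 1 / 2 * Bx T x w w - T.ρ x - fderiv ℝ T.ρ x w := by ring
  rw [h3]
  refine h2.trans (le_of_eq (by ring))

/-- The Levi form is positive. PROOF. `conv` for `w = x`, `z = x ± t v` and Taylor's formula of the order two give `Bx T x v v ≥ 2 c ‖v‖² ≥ 0`, and `Lh B v = (B v v + B (I v) (I v))/2`. -/
theorem lh_nonneg (T : Tg n) (x v : En n) : 0 ≤ Lh (Bx T x) v := by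
  have hpos : ∀ v : En n, 0 ≤ Bx T x v v := by
    intro v
    by_contra hneg
    push Not at hneg
    have hC : 0 < T.C := by linarith [T.one_le]
    set δ : ℝ := -(Bx T x v v) / 2 with hδ
    have hδ0 : 0 < δ := by rw [hδ]; linarith
    obtain ⟨t, ht0, ht⟩ : ∃ t : ℝ, 0 < t ∧ t * (T.C * ‖v‖ ^ 3) < δ := by
      have hk : 0 ≤ T.C * ‖v‖ ^ 3 := by positivity
      refine ⟨δ / (T.C * ‖v‖ ^ 3 + 1), by positivity, ?_⟩
      rw [div_mul_eq_mul_div, div_lt_iff₀ (by positivity)]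
      nlinarith
    have h1 := T.conv x (x + t • v)
    have h2 := TT2 T x (t • v)
    rw [abs_le] at h2
    have h3 : Bx T x (t • v) (t • v) = t ^ 2 * Bx T x v v := by
      simp only [map_smul, _root_.smul_apply, smul_eq_mul]; ring
    have h4 : ‖t • v‖ = t * ‖v‖ := by rw [norm_smul, Real.norm_of_nonneg ht0.le]
    rw [add_sub_cancel_left] at h1
    rw [h3, h4] at h2
    rw [h4] at h1
    have h5 : 0 ≤ T.c * (t * ‖v‖) ^ 2 := by have := T.cpos; positivity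
    have h6 : 0 ≤ t ^ 2 * Bx T x v v / 2 + T.C * (t * ‖v‖) ^ 3 := by linarith [h2.2]
    have h7 : t ^ 2 * Bx T x v v / 2 + T.C * (t * ‖v‖) ^ 3 = t ^ 2 * (t * (T.C * ‖v‖ ^ 3) - δ) := by
      rw [hδ]; ring
    rw [h7] at h6
    have h8 : t ^ 2 * (t * (T.C * ‖v‖ ^ 3) - δ) < 0 := mul_neg_of_pos_of_neg (by positivity) (by linarith)
    linarith
  unfold Lh
  linarith [hpos v, hpos (Complex.I • v)]

/-- Taylor's formula of the order two, global. PROOF. `T.d2` and the mean value inequality twice (on the segment): `Dρ (x + w) = Dρ x + B w + O(C |w|²)`. -/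
theorem taylor_two (T : Tg n) (x w : En n) :
    |T.ρ (x + w) - T.ρ x - fderiv ℝ T.ρ x w - Bx T x w w / 2| ≤ T.C * ‖w‖ ^ 3 := by
  exact TT2 T x w

private theorem rot (z : ℂ) : ∃ ζ : ℂ, ‖ζ‖ = 1 ∧ ζ * z = ((‖z‖ : ℝ) : ℂ) := by
  by_cases hz : z = 0
  · exact ⟨1, by simp, by simp [hz]⟩
  · have hn : (‖z‖ : ℂ) ≠ 0 := by simpa using hz
    refine ⟨starRingEnd ℂ z / (‖z‖ : ℂ), ?_, ?_⟩
    · rw [norm_div, RCLike.norm_conj, Complex.norm_real, norm_norm]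
      exact div_self (by simpa using hz)
    · rw [div_mul_eq_mul_div, mul_comm (starRingEnd ℂ z) z, Complex.mul_conj, Complex.normSq_eq_norm_sq,
        div_eq_iff hn]
      push_cast; ring

private theorem S1_Eh {B : En n →L[ℝ] En n →L[ℝ] ℝ} (hs : ∀ u v, B u v = B v u) (c : ℂ) (v : En n) :
    Eh B (c • v) = c ^ 2 * Eh B v := by
  obtain ⟨a, ha⟩ := TB.eh_poly hs
  rw [ha, ha, Finset.mul_sum]
  refine Finset.sum_congr rfl fun j _ => ?_
  rw [Finset.mul_sum]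
  refine Finset.sum_congr rfl fun k _ => ?_
  simp only [PiLp.smul_apply, smul_eq_mul]
  ring

private theorem S1_Lh {B : En n →L[ℝ] En n →L[ℝ] ℝ} (c : ℂ) (v : En n) :
    Lh B (c • v) = ‖c‖ ^ 2 * Lh B v := by
  have h1 : c • v = c.re • v + c.im • (Complex.I • v) := by
    ext i
    simp only [PiLp.smul_apply, PiLp.add_apply, smul_eq_mul, Complex.real_smul]
    conv_lhs => rw [← Complex.re_add_im c]
    ring
  have h2 : Complex.I • (c • v) = c.re • (Complex.I • v) - c.im • v := by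
    ext i
    simp only [PiLp.smul_apply, PiLp.sub_apply, smul_eq_mul, Complex.real_smul]
    conv_lhs => rw [← Complex.re_add_im c]
    linear_combination (c.im : ℂ) * v i * Complex.I_mul_I
  have h3 : ‖c‖ ^ 2 = c.re ^ 2 + c.im ^ 2 := by
    rw [← Complex.normSq_eq_norm_sq, Complex.normSq_apply]; ring
  unfold Lh
  rw [h2, h3, h1]
  simp only [map_add, map_sub, map_smul, _root_.add_apply, _root_.sub_apply,
    _root_.smul_apply, smul_eq_mul]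
  ring

/-- The second order expansion of `ρ ∘ Ψ - u (|y|² - 1)` at the centre.
PROOF. `w = L v + b v v`, `‖w‖ ≤ 2 ‖v‖` .. `≤ 3 ‖v‖` for `‖v‖ ≤ 5`, `‖L‖ ≤ 2`, `‖b‖ ≤ 1/10`. `taylor_two` at `ν.x`; `fderiv ρ w = 2 Re pd w` (`pd_re`, `pd_add`); `B w w / 2 = B (L v) (L v) / 2 + O(T.C ‖v‖³)`,
`B (L v) (L v) = Lh B (L v) + Re (Eh B (L v))` (`TB.B_eq`). `‖q + v‖² - 1 = 2 Re inner ℂ q v + ‖v‖²` (`‖q‖ = 1`); `u = u0 + 2 Re (l v)`; the product is `u0 (2 Re s + ‖v‖²) + 4 Re (l v) Re s + 2 Re (l v) ‖v‖²` with `s = inner ℂ q v`,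
and `4 Re a Re b = 2 Re (a b) + 2 Re (a conj b)`. The errors: `T.C (3‖v‖)³ + ..`. -/
theorem node_taylor (T : Tg n) : ∃ A : ℝ, 1 ≤ A ∧ T.C ≤ A ∧ ∀ (ν : Cn n), Small T ν (1 / 10) → ∀ v, ‖v‖ ≤ 5 →
    |T.ρ (ν.Ψ (ν.q + v)) - ν.u (ν.q + v) * (‖ν.q + v‖ ^ 2 - 1) -
      (T.ρ ν.x + 2 * (P1 T ν v).re + 2 * (P2 T ν v).re + P3 T ν v)| ≤ A * ‖v‖ ^ 3 := by
  have hC := T.one_le
  refine ⟨9 * T.C, by linarith, by linarith, ?_⟩
  intro ν hν v hv
  set r : ℝ := ‖v‖ with hr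
  have hr0 : 0 ≤ r := norm_nonneg v
  have hΨ : ν.Ψ (ν.q + v) = ν.x + (ν.L v + ν.b v v) := by
    unfold Cn.Ψ
    rw [add_sub_cancel_left, add_assoc]
  have hu : ν.u (ν.q + v) = ν.u0 + 2 * (ν.l v).re := by
    unfold Cn.u
    rw [add_sub_cancel_left]
  have hL : ‖ν.L v‖ ≤ 11 / 10 * r := by
    have h1 : ν.L v = (ν.L - 1) v + v := by simp
    rw [h1]
    have h2 : ‖(ν.L - 1) v‖ ≤ 1 / 10 * r :=
      ((ν.L - 1).le_opNorm v).trans (mul_le_mul_of_nonneg_right hν.L hr0)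
    exact (norm_add_le _ _).trans (by linarith)
  have hb : ‖ν.b v v‖ ≤ 1 / 10 * r * r :=
    ((ν.b v).le_opNorm v).trans (mul_le_mul_of_nonneg_right
      ((ν.b.le_opNorm v).trans (mul_le_mul_of_nonneg_right hν.b hr0)) hr0)
  have hb' : ‖ν.b v v‖ ≤ 1 / 2 * r := by nlinarith
  have hw : ‖ν.L v + ν.b v v‖ ≤ 2 * r := (norm_add_le _ _).trans (by linarith)
  have h1 := TT2 T ν.x (ν.L v + ν.b v v)
  have h1' : T.C * ‖ν.L v + ν.b v v‖ ^ 3 ≤ 8 * T.C * r ^ 3 := by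
    have h2 : ‖ν.L v + ν.b v v‖ ^ 3 ≤ (2 * r) ^ 3 := pow_le_pow_left₀ (norm_nonneg _) hw 3
    have h3 := mul_le_mul_of_nonneg_left h2 (by linarith : 0 ≤ T.C)
    linarith [h3, (by ring : T.C * (2 * r) ^ 3 = 8 * T.C * r ^ 3)]
  have h2 : fderiv ℝ T.ρ ν.x (ν.L v + ν.b v v) = 2 * (pd T.ρ ν.x (ν.L v)).re + 2 * (pd T.ρ ν.x (ν.b v v)).re := by
    rw [pd_re, pd_add, Complex.add_re]; ring
  have hBb : ∀ p q' : En n, |Bx T ν.x p q'| ≤ T.C * ‖p‖ * ‖q'‖ := by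
    intro p q'
    rw [← Real.norm_eq_abs]
    exact ((Bx T ν.x p).le_opNorm q').trans (mul_le_mul_of_nonneg_right
      (((Bx T ν.x).le_opNorm p).trans (mul_le_mul_of_nonneg_right (bx_le T ν.x) (norm_nonneg _))) (norm_nonneg _))
  have h3 : Bx T ν.x (ν.L v + ν.b v v) (ν.L v + ν.b v v) =
      Bx T ν.x (ν.L v) (ν.L v) + (Bx T ν.x (ν.L v) (ν.b v v) + Bx T ν.x (ν.b v v) (ν.L v) +
        Bx T ν.x (ν.b v v) (ν.b v v)) := by
    simp only [map_add, _root_.add_apply]; ring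
  have h3' : |Bx T ν.x (ν.L v) (ν.b v v) + Bx T ν.x (ν.b v v) (ν.L v) + Bx T ν.x (ν.b v v) (ν.b v v)| ≤
      T.C * r ^ 3 := by
    have e1 : |Bx T ν.x (ν.L v) (ν.b v v)| ≤ T.C * (11 / 10 * r) * (1 / 10 * r * r) :=
      (hBb _ _).trans (mul_le_mul (mul_le_mul_of_nonneg_left hL (by linarith)) hb (norm_nonneg _) (by positivity))
    have e2 : |Bx T ν.x (ν.b v v) (ν.L v)| ≤ T.C * (1 / 10 * r * r) * (11 / 10 * r) :=
      (hBb _ _).trans (mul_le_mul (mul_le_mul_of_nonneg_left hb (by linarith)) hL (norm_nonneg _) (by positivity))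
    have e3 : |Bx T ν.x (ν.b v v) (ν.b v v)| ≤ T.C * (1 / 10 * r * r) * (1 / 2 * r) :=
      (hBb _ _).trans (mul_le_mul (mul_le_mul_of_nonneg_left hb (by linarith)) hb' (norm_nonneg _) (by positivity))
    have e4 := abs_add_three (Bx T ν.x (ν.L v) (ν.b v v)) (Bx T ν.x (ν.b v v) (ν.L v)) (Bx T ν.x (ν.b v v) (ν.b v v))
    have e5 : 0 ≤ T.C * r ^ 3 := by positivity
    nlinarith
  have h4 : Bx T ν.x (ν.L v) (ν.L v) = Lh (Bx T ν.x) (ν.L v) + (Eh (Bx T ν.x) (ν.L v)).re :=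
    TB.B_eq (ν.L v)
  have h5 : ‖ν.q + v‖ ^ 2 = 1 + 2 * (inner ℂ ν.q v : ℂ).re + r ^ 2 := by
    have e1 := norm_add_sq (𝕜 := ℂ) ν.q v
    rw [hν.q1] at e1
    rw [e1, hr]
    simp
  have h6 : |2 * (ν.l v).re * r ^ 2| ≤ 1 / 5 * r ^ 3 := by
    have e1 : |(ν.l v).re| ≤ 1 / 10 * r := (Complex.abs_re_le_norm _).trans
      ((ν.l.le_opNorm v).trans (mul_le_mul_of_nonneg_right hν.l hr0))
    rw [abs_mul, abs_mul, abs_of_pos (by norm_num : (0 : ℝ) < 2), abs_of_nonneg (by positivity : 0 ≤ r ^ 2)]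
    nlinarith [sq_nonneg r]
  rw [h2, h3, h4] at h1
  rw [hΨ, hu, h5]
  unfold P1 P2 P3
  rw [← hr]
  set s : ℂ := inner ℂ ν.q v with hs
  set z : ℂ := ν.l v with hz
  have h7 : (z * s).re + (z * starRingEnd ℂ s).re = 2 * z.re * s.re := by
    simp only [Complex.mul_re, Complex.conj_re, Complex.conj_im]; ring
  have h8 : (pd T.ρ ν.x (ν.L v) - (ν.u0 : ℂ) * s).re = (pd T.ρ ν.x (ν.L v)).re - ν.u0 * s.re := by
    rw [Complex.sub_re, Complex.re_ofReal_mul]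
  have h9 : (pd T.ρ ν.x (ν.b v v) + Eh (Bx T ν.x) (ν.L v) / 4 - z * s).re =
      (pd T.ρ ν.x (ν.b v v)).re + (Eh (Bx T ν.x) (ν.L v)).re / 4 - (z * s).re := by
    rw [Complex.sub_re, Complex.add_re]
    congr 2
    have : (Eh (Bx T ν.x) (ν.L v) / 4 : ℂ) = Eh (Bx T ν.x) (ν.L v) / ((4 : ℝ) : ℂ) := by norm_num
    rw [this, Complex.div_ofReal_re]
  rw [h8, h9]
  have key : T.ρ (ν.x + (ν.L v + ν.b v v)) - (ν.u0 + 2 * z.re) * (1 + 2 * s.re + r ^ 2 - 1) -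
      (T.ρ ν.x + 2 * ((pd T.ρ ν.x (ν.L v)).re - ν.u0 * s.re) +
        2 * ((pd T.ρ ν.x (ν.b v v)).re + (Eh (Bx T ν.x) (ν.L v)).re / 4 - (z * s).re) +
        (Lh (Bx T ν.x) (ν.L v) / 2 - ν.u0 * r ^ 2 - 2 * (z * starRingEnd ℂ s).re)) =
      (T.ρ (ν.x + (ν.L v + ν.b v v)) - T.ρ ν.x - (2 * (pd T.ρ ν.x (ν.L v)).re + 2 * (pd T.ρ ν.x (ν.b v v)).re) -
        (Lh (Bx T ν.x) (ν.L v) + (Eh (Bx T ν.x) (ν.L v)).re + (Bx T ν.x (ν.L v) (ν.b v v) +
          Bx T ν.x (ν.b v v) (ν.L v) + Bx T ν.x (ν.b v v) (ν.b v v))) / 2) +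
      (Bx T ν.x (ν.L v) (ν.b v v) + Bx T ν.x (ν.b v v) (ν.L v) + Bx T ν.x (ν.b v v) (ν.b v v)) / 2 -
        2 * z.re * r ^ 2 := by
    linear_combination 2 * h7
  rw [key]
  rw [abs_le] at h1 h3' h6 ⊢
  have e5 : r ^ 3 ≤ T.C * r ^ 3 := le_mul_of_one_le_left (by positivity) hC
  constructor <;> linarith [h1.1, h1.2, h3'.1, h3'.2, h6.1, h6.2]

/-- The coefficients from a bound of the polynomial.
PROOF. `P v = a + 2 Re λ v + 2 Re Q v + H v`, `|P v| ≤ A (r + ‖v‖)³` for `‖v‖ ≤ 1`, where `λ (c v) = c λ v`, `Q (c v) = c² Q v`, `H (c v) = |c|² H v`. `v = 0`: `|a| ≤ A r³`. For `‖v‖ = r ≤ 1`: `P v - P (-v) = 4 Re λ v`, so `|Re λ v| ≤ 4 A r³`; rotate `v` by a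
unimodular number: `|λ v| ≤ 4 A r³ = 4 A r² ‖v‖`. `P v + P (-v) - 2 a = 4 Re Q v + 2 H v` is `≤ 18 A r³` in absolute value; the same for `I v`: `-4 Re Q v + 2 H v`. So `|H v| ≤ 9 A r³`, `|Re Q v| ≤ 9 A r³ / 2`, and `|Q v| ≤ 9 A r³ / 2` (rotate).
By homogeneity for all `v` (scale `v ≠ 0` to the norm `r`). -/
theorem extract {A r a : ℝ} (hA : 0 ≤ A) (hr : 0 < r) (hr1 : r ≤ 1) {lm Q : En n → ℂ} {H : En n → ℝ}
    (hl : ∀ (c : ℂ) v, lm (c • v) = c * lm v) (hQ : ∀ (c : ℂ) v, Q (c • v) = c ^ 2 * Q v) (hH : ∀ (c : ℂ) v, H (c • v) = ‖c‖ ^ 2 * H v)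
    (h : ∀ v, ‖v‖ ≤ 1 → |a + 2 * (lm v).re + 2 * (Q v).re + H v| ≤ A * (r + ‖v‖) ^ 3) :
    |a| ≤ A * r ^ 3 ∧ ∀ v, ‖lm v‖ ≤ 10 * A * r ^ 2 * ‖v‖ ∧ ‖Q v‖ ≤ 10 * A * r * ‖v‖ ^ 2 ∧ |H v| ≤ 10 * A * r * ‖v‖ ^ 2 := by
  have hl0 : lm 0 = 0 := by have := hl 0 0; simpa using this
  have hQ0 : Q 0 = 0 := by have := hQ 0 0; simpa using this
  have hH0 : H 0 = 0 := by have := hH 0 0; simpa using this
  have ha : |a| ≤ A * r ^ 3 := by
    have := h 0 (by simp)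
    rw [hl0, hQ0, hH0] at this
    simpa using this
  have hb : ∀ v, ‖v‖ = r → |a + 2 * (lm v).re + 2 * (Q v).re + H v| ≤ 8 * A * r ^ 3 := by
    intro v hv
    have := h v (by rw [hv]; exact hr1)
    rw [hv] at this
    refine this.trans (le_of_eq (by ring))
  have hneg : ∀ v : En n, lm (-v) = -lm v ∧ Q (-v) = Q v ∧ H (-v) = H v := by
    intro v
    have e1 := hl (-1) v
    have e2 := hQ (-1) v
    have e3 := hH (-1) v
    rw [neg_one_smul] at e1 e2 e3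
    refine ⟨by rw [e1]; ring, by rw [e2]; ring, by rw [e3]; simp⟩
  have hI : ∀ v : En n, Q (Complex.I • v) = -Q v ∧ H (Complex.I • v) = H v := by
    intro v
    refine ⟨by rw [hQ, Complex.I_sq]; ring, by rw [hH]; simp⟩
  have hrel : ∀ v, ‖v‖ = r → |(lm v).re| ≤ 4 * A * r ^ 3 := by
    intro v hv
    have e1 := hb v hv
    have e2 := hb (-v) (by rw [norm_neg, hv])
    obtain ⟨n1, n2, n3⟩ := hneg v
    rw [n1, n2, n3, Complex.neg_re] at e2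
    rw [abs_le] at e1 e2 ⊢
    constructor <;> linarith [e1.1, e1.2, e2.1, e2.2]
  have hev : ∀ v, ‖v‖ = r → |2 * (Q v).re + H v| ≤ 9 * A * r ^ 3 := by
    intro v hv
    have e1 := hb v hv
    have e2 := hb (-v) (by rw [norm_neg, hv])
    obtain ⟨n1, n2, n3⟩ := hneg v
    rw [n1, n2, n3, Complex.neg_re] at e2
    rw [abs_le] at e1 e2 ha ⊢
    constructor <;> linarith [e1.1, e1.2, e2.1, e2.2, ha.1, ha.2]
  have hHr : ∀ v, ‖v‖ = r → |H v| ≤ 9 * A * r ^ 3 ∧ |(Q v).re| ≤ 9 / 2 * A * r ^ 3 := by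
    intro v hv
    have e1 := hev v hv
    have e2 := hev (Complex.I • v) (by rw [norm_smul, Complex.norm_I, one_mul, hv])
    obtain ⟨n1, n2⟩ := hI v
    rw [n1, n2, Complex.neg_re] at e2
    rw [abs_le] at e1 e2
    constructor
    · rw [abs_le]; constructor <;> linarith [e1.1, e1.2, e2.1, e2.2]
    · rw [abs_le]; constructor <;> linarith [e1.1, e1.2, e2.1, e2.2]
  have hlr : ∀ v, ‖v‖ = r → ‖lm v‖ ≤ 4 * A * r ^ 3 := by
    intro v hv
    by_cases h0 : lm v = 0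
    · rw [h0, norm_zero]; positivity
    · obtain ⟨ζ, hζ, hζ2⟩ := rot (lm v)
      have e1 := hrel (ζ • v) (by rw [norm_smul, hζ, one_mul, hv])
      rw [hl, hζ2, Complex.ofReal_re, abs_of_nonneg (norm_nonneg _)] at e1
      exact e1
  have hQr : ∀ v, ‖v‖ = r → ‖Q v‖ ≤ 9 / 2 * A * r ^ 3 := by
    intro v hv
    obtain ⟨ζ, hζ, hζ2⟩ := rot (Q v)
    obtain ⟨ξ, hξ⟩ := IsAlgClosed.exists_pow_nat_eq ζ (n := 2) (by norm_num)
    have hξ1 : ‖ξ‖ = 1 := by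
      have e0 : ‖ξ‖ ^ 2 = 1 := by rw [← norm_pow, hξ, hζ]
      have e1 := norm_nonneg ξ
      nlinarith
    have e1 := (hHr (ξ • v) (by rw [norm_smul, hξ1, one_mul, hv])).2
    rw [hQ, hξ, hζ2, Complex.ofReal_re, abs_of_nonneg (norm_nonneg _)] at e1
    exact e1
  refine ⟨ha, fun v => ?_⟩
  by_cases hv0 : v = 0
  · subst hv0
    rw [hl0, hQ0, hH0]
    simp
  have hn : 0 < ‖v‖ := norm_pos_iff.mpr hv0
  set c : ℝ := r / ‖v‖ with hc
  have hc0 : 0 < c := by positivity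
  have hcv : c * ‖v‖ = r := by rw [hc]; field_simp
  have hv' : ‖(c : ℂ) • v‖ = r := by
    rw [norm_smul, Complex.norm_real, Real.norm_of_nonneg hc0.le, hcv]
  have e1 := hlr _ hv'
  have e2 := hQr _ hv'
  have e3 := (hHr _ hv').1
  rw [hl, norm_mul, Complex.norm_real, Real.norm_of_nonneg hc0.le] at e1
  rw [hQ, norm_mul, norm_pow, Complex.norm_real, Real.norm_of_nonneg hc0.le] at e2
  rw [hH, Complex.norm_real, Real.norm_of_nonneg hc0.le, abs_mul, abs_of_nonneg (by positivity : 0 ≤ c ^ 2)] at e3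
  have hAv : 0 ≤ A * r ^ 2 * ‖v‖ := by positivity
  have hAv2 : 0 ≤ A * r * ‖v‖ ^ 2 := by positivity
  refine ⟨?_, ?_, ?_⟩
  · have e4 : c * ‖lm v‖ ≤ c * (4 * A * r ^ 2 * ‖v‖) := by
      refine e1.trans (le_of_eq ?_)
      rw [← hcv]; ring
    have e5 := le_of_mul_le_mul_left e4 hc0
    linarith
  · have e4 : c ^ 2 * ‖Q v‖ ≤ c ^ 2 * (9 / 2 * A * r * ‖v‖ ^ 2) := by
      refine e2.trans (le_of_eq ?_)
      have : r ^ 3 = r * (c * ‖v‖) ^ 2 := by rw [hcv]; ring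
      rw [this]; ring
    have e5 := le_of_mul_le_mul_left e4 (by positivity)
    linarith
  · have e4 : c ^ 2 * |H v| ≤ c ^ 2 * (9 * A * r * ‖v‖ ^ 2) := by
      refine e3.trans (le_of_eq ?_)
      have : r ^ 3 = r * (c * ‖v‖) ^ 2 := by rw [hcv]; ring
      rw [this]; ring
    have e5 := le_of_mul_le_mul_left e4 (by positivity)
    linarith

/-- The homogeneity of the three parts. PROOF. `pd_smul`; `TB` (B1.lean) has that `Eh B` is a complex quadratic form (private lemmas there: `Eh B (c • v) = c ^ 2 Eh B v`, `Lh B (c • v) = ‖c‖² Lh B v`; prove them again from the symmetry of `B`). -/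
theorem hom_parts (T : Tg n) (ν : Cn n) : (∀ (c : ℂ) v, P1 T ν (c • v) = c * P1 T ν v) ∧ (∀ (c : ℂ) v, P2 T ν (c • v) = c ^ 2 * P2 T ν v) ∧
    ∀ (c : ℂ) v, P3 T ν (c • v) = ‖c‖ ^ 2 * P3 T ν v := by
  refine ⟨fun c v => ?_, fun c v => ?_, fun c v => ?_⟩
  · unfold P1
    rw [map_smul, pd_smul, inner_smul_right]
    ring
  · unfold P2
    rw [map_smul, map_smul, map_smul, _root_.smul_apply, map_smul, smul_smul, pd_smul,
      inner_smul_right, S1_Eh (bx_symm T ν.x), smul_eq_mul]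
    ring
  · unfold P3
    rw [map_smul, map_smul, inner_smul_right, S1_Lh, norm_smul, smul_eq_mul, map_mul]
    have h1 : c * ν.l v * (starRingEnd ℂ c * starRingEnd ℂ (inner ℂ ν.q v)) =
        ((‖c‖ ^ 2 : ℝ) : ℂ) * (ν.l v * starRingEnd ℂ (inner ℂ ν.q v)) := by
      have h2 : c * starRingEnd ℂ c = ((‖c‖ ^ 2 : ℝ) : ℂ) := by
        rw [Complex.mul_conj, Complex.normSq_eq_norm_sq]
      rw [← h2]; ring
    rw [h1, Complex.re_ofReal_mul]
    ring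

/-- The coefficients of an osculating map at a new centre.
PROOF. `ν' = ν.re q'` is `1/10`-small (`re_small`, `m + 2 K r ≤ 1/10`), `re_ql` with `t = K r`, `node_taylor` for `ν'`: the polynomial is `≤ A ((1 + K) r + ‖v‖)³ + A ‖v‖³ ≤ 2 A ((1 + K) r + ‖v‖)³` for `‖v‖ ≤ 1`; `extract` with `(1 + K) r`. -/
theorem coeffs (T : Tg n) {A K : ℝ} (hK : 1 ≤ K) (hA : 1 ≤ A) (hA' : ∀ (ν : Cn n), Small T ν (1 / 10) → ∀ v, ‖v‖ ≤ 5 →
    |T.ρ (ν.Ψ (ν.q + v)) - ν.u (ν.q + v) * (‖ν.q + v‖ ^ 2 - 1) -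
      (T.ρ ν.x + 2 * (P1 T ν v).re + 2 * (P2 T ν v).re + P3 T ν v)| ≤ A * ‖v‖ ^ 3) {ν : Cn n} {r : ℝ} (hr : 0 < r) (hr1 : 40 * K * r ≤ 1)
    (hν : Small T ν (1 / 50)) (hq : Ql T A ν r) {q' : En n} (hq' : ‖q'‖ = 1) (hqq : ‖q' - ν.q‖ ≤ K * r) :
    |T.ρ (ν.re q').x| ≤ 20 * A * ((1 + K) * r) ^ 3 ∧ ∀ v, ‖P1 T (ν.re q') v‖ ≤ 20 * A * ((1 + K) * r) ^ 2 * ‖v‖ ∧
      ‖P2 T (ν.re q') v‖ ≤ 20 * A * ((1 + K) * r) * ‖v‖ ^ 2 ∧ |P3 T (ν.re q') v| ≤ 20 * A * ((1 + K) * r) * ‖v‖ ^ 2 := by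
  have hKr : 0 ≤ K * r := by positivity
  have hsm := re_small hν (by norm_num) hq' hqq (by nlinarith)
  have hsm' : Small T (ν.re q') (1 / 10) := by
    have hle : 1 / 50 + 2 * (K * r) ≤ 1 / 10 := by nlinarith
    exact ⟨hsm.q1, hsm.qe.trans hle, hsm.x.trans hle, hsm.L.trans hle, hsm.b.trans hle, hsm.u.trans hle,
      hsm.l.trans hle⟩
  obtain ⟨p1, p2, p3⟩ := hom_parts T (ν.re q')
  have hr' : (1 + K) * r ≤ 1 := by nlinarith
  have hmain : ∀ v, ‖v‖ ≤ 1 → |T.ρ (ν.re q').x + 2 * (P1 T (ν.re q') v).re + 2 * (P2 T (ν.re q') v).re +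
      P3 T (ν.re q') v| ≤ (2 * A) * ((1 + K) * r + ‖v‖) ^ 3 := by
    intro v hv
    have e1 := hA' (ν.re q') hsm' v (by linarith)
    have e2 := re_ql (by linarith) hq hr.le (q' := q') hqq (by nlinarith) (y := q' + v)
      (by rw [add_sub_cancel_left]; linarith)
    rw [add_sub_cancel_left] at e2
    have e3 : (ν.re q').q = q' := rfl
    rw [e3] at e1
    have e4 : A * ‖v‖ ^ 3 ≤ A * ((1 + K) * r + ‖v‖) ^ 3 :=
      mul_le_mul_of_nonneg_left (pow_le_pow_left₀ (norm_nonneg _) (by nlinarith [norm_nonneg v]) 3) (by linarith)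
    have e5 : A * (r + K * r + ‖v‖) ^ 3 = A * ((1 + K) * r + ‖v‖) ^ 3 := by ring
    rw [e5] at e2
    rw [abs_le] at e1 e2 ⊢
    constructor <;> linarith [e1.1, e1.2, e2.1, e2.2]
  obtain ⟨q1, q2⟩ := extract (by linarith) (by positivity) hr' p1 p2 p3 hmain
  have hA0 : 0 ≤ A * ((1 + K) * r) ^ 3 := by positivity
  refine ⟨by linarith, fun v => ?_⟩
  obtain ⟨s1, s2, s3⟩ := q2 v
  exact ⟨s1.trans (le_of_eq (by ring)), s2.trans (le_of_eq (by ring)), s3.trans (le_of_eq (by ring))⟩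

end Pool.Agent.MPca0fc2.EQ
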