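import Pool.Agent.Lib.MP_ca0fc2_an.EQ.S1

/-! Campaign EQ, task S2a: the correction of the `(2, 0)` part. -/

set_option autoImplicit false

open Metric Set Filter Topology

namespace Pool.Agent.MPca0fc2.EQ

open Pool.Agent.MPca0fc2.TB (En Lh Eh)

variable {n : ℕ}

/-- the complex bilinear form -/
private noncomputable def S2a_Q (B : En n →L[ℝ] En n →L[ℝ] ℝ) (u v : En n) : ℂ :=
  (((B u v - B (Complex.I • u) (Complex.I • v)) / 2 : ℝ) : ℂ) -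
    (Complex.I / 2) * ((B u (Complex.I • v) + B (Complex.I • u) v : ℝ) : ℂ)

private theorem S2a_Q_addr (B : En n →L[ℝ] En n →L[ℝ] ℝ) (u v w : En n) :
    S2a_Q B u (v + w) = S2a_Q B u v + S2a_Q B u w := by
  unfold S2a_Q
  simp only [smul_add, map_add]
  push_cast
  ring

private theorem S2a_Q_smulr (B : En n →L[ℝ] En n →L[ℝ] ℝ) (u v : En n) (c : ℝ) :
    S2a_Q B u ((c : ℂ) • v) = (c : ℂ) * S2a_Q B u v := by
  unfold S2a_Q
  have h1 : (c : ℂ) • v = c • v := by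
    ext i
    simp
  have h2 : Complex.I • (c : ℂ) • v = c • (Complex.I • v) := by
    rw [smul_comm]
    ext i
    simp
  rw [h2, h1]
  simp only [map_smul, smul_eq_mul]
  push_cast
  ring

private theorem S2a_II (v : En n) : Complex.I • Complex.I • v = -v := by
  rw [smul_smul, Complex.I_mul_I, neg_one_smul]

private theorem S2a_Q_Ir (B : En n →L[ℝ] En n →L[ℝ] ℝ) (u v : En n) :
    S2a_Q B u (Complex.I • v) = Complex.I * S2a_Q B u v := by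
  unfold S2a_Q
  rw [S2a_II]
  simp only [map_neg]
  push_cast
  linear_combination (((B (Complex.I • u) v : ℝ) : ℂ) / 2 + ((B u (Complex.I • v) : ℝ) : ℂ) / 2) *
    Complex.I_mul_I

private theorem S2a_Q_symm (B : En n →L[ℝ] En n →L[ℝ] ℝ) (hs : ∀ u v, B u v = B v u) (u v : En n) :
    S2a_Q B u v = S2a_Q B v u := by
  unfold S2a_Q
  rw [hs u v, hs (Complex.I • u) (Complex.I • v), hs u (Complex.I • v), hs (Complex.I • u) v]
  push_cast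
  ring

private theorem S2a_Q_lin (B : En n →L[ℝ] En n →L[ℝ] ℝ) (c : ℂ) (u v : En n) :
    S2a_Q B u (c • v) = c * S2a_Q B u v := by
  have h1 : c • v = ((c.re : ℝ) : ℂ) • v + Complex.I • (((c.im : ℝ) : ℂ) • v) := by
    conv_lhs => rw [← Complex.re_add_im c]
    rw [add_smul, mul_comm, mul_smul]
  rw [h1, S2a_Q_addr, S2a_Q_Ir, S2a_Q_smulr, S2a_Q_smulr]
  conv_rhs => rw [← Complex.re_add_im c]
  ring

private theorem S2a_Q_le (B : En n →L[ℝ] En n →L[ℝ] ℝ) (u v : En n) :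
    ‖S2a_Q B u v‖ ≤ 2 * ‖B‖ * ‖u‖ * ‖v‖ := by
  have hI : ∀ w : En n, ‖Complex.I • w‖ = ‖w‖ := fun w => by rw [norm_smul, Complex.norm_I, one_mul]
  have h1 : |B u v| ≤ ‖B‖ * ‖u‖ * ‖v‖ := B.le_opNorm₂ u v
  have h2 : |B (Complex.I • u) (Complex.I • v)| ≤ ‖B‖ * ‖u‖ * ‖v‖ := by
    have := B.le_opNorm₂ (Complex.I • u) (Complex.I • v)
    rwa [hI, hI] at this
  have h3 : |B u (Complex.I • v)| ≤ ‖B‖ * ‖u‖ * ‖v‖ := by
    have := B.le_opNorm₂ u (Complex.I • v)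
    rwa [hI] at this
  have h4 : |B (Complex.I • u) v| ≤ ‖B‖ * ‖u‖ * ‖v‖ := by
    have := B.le_opNorm₂ (Complex.I • u) v
    rwa [hI] at this
  have h5 : ‖(((B u v - B (Complex.I • u) (Complex.I • v)) / 2 : ℝ) : ℂ)‖ ≤ ‖B‖ * ‖u‖ * ‖v‖ := by
    rw [Complex.norm_real, Real.norm_eq_abs, abs_le]
    rw [abs_le] at h1 h2
    constructor <;> linarith [h1.1, h1.2, h2.1, h2.2]
  have h6 : ‖(Complex.I / 2) * ((B u (Complex.I • v) + B (Complex.I • u) v : ℝ) : ℂ)‖ ≤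
      ‖B‖ * ‖u‖ * ‖v‖ := by
    rw [norm_mul, norm_div, Complex.norm_I, Complex.norm_real, Real.norm_eq_abs]
    have h7 : |B u (Complex.I • v) + B (Complex.I • u) v| ≤ 2 * (‖B‖ * ‖u‖ * ‖v‖) := by
      rw [abs_le]
      rw [abs_le] at h3 h4
      constructor <;> linarith [h3.1, h3.2, h4.1, h4.2]
    have h8 : ‖(2 : ℂ)‖ = 2 := by simp
    rw [h8]
    linarith
  calc ‖S2a_Q B u v‖ ≤ ‖B‖ * ‖u‖ * ‖v‖ + ‖B‖ * ‖u‖ * ‖v‖ := (norm_sub_le _ _).trans (add_le_add h5 h6)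
    _ = 2 * ‖B‖ * ‖u‖ * ‖v‖ := by ring

/-- The complex bilinear form of `Eh B`.
PROOF. `E2 u v = (B u v - B (I u) (I v)) / 2 - I (B u (I v) + B (I u) v) / 2`; `B` symmetric. Complex linear in `v` and in `u`: check for `I v`: `E2 u (I v) = (B u (I v) + B (I u) v)/2 - I (-B u v + B (I u) (I v))/2 = I E2 u v`.
`E2 v v = Eh B v` (`B v (I v) = B (I v) v`). Build it with `LinearMap.mkContinuous₂` or `mk₂`; `‖E2 u v‖ ≤ 2 ‖B‖ ‖u‖ ‖v‖`. -/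
theorem exists_E2 {B : En n →L[ℝ] En n →L[ℝ] ℝ} (hs : ∀ u v, B u v = B v u) :
    ∃ E2 : En n →L[ℂ] En n →L[ℂ] ℂ, (∀ u v, E2 u v = E2 v u) ∧ ∀ v, E2 v v = Eh B v := by
  let E1 : En n →ₗ[ℂ] En n →ₗ[ℂ] ℂ := LinearMap.mk₂ ℂ (S2a_Q B)
    (fun u v w => by rw [S2a_Q_symm B hs, S2a_Q_addr, S2a_Q_symm B hs w u, S2a_Q_symm B hs w v])
    (fun c u v => by rw [S2a_Q_symm B hs, S2a_Q_lin, S2a_Q_symm B hs v u, smul_eq_mul])
    (fun u v w => S2a_Q_addr B u v w)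
    (fun c u v => by rw [S2a_Q_lin, smul_eq_mul])
  refine ⟨E1.mkContinuous₂ (2 * ‖B‖) (fun u v => S2a_Q_le B u v), fun u v => S2a_Q_symm B hs u v,
    fun v => ?_⟩
  show S2a_Q B v v = Eh B v
  unfold Eh S2a_Q
  rw [hs (Complex.I • v) v]
  push_cast
  ring

/-- Polarization. PROOF. `4 β u v = β (u + v) (u + v) - β (u - v) (u - v)`, so `‖β u v‖ ≤ ε (‖u‖² + ‖v‖²) / 2`; for unit vectors `≤ ε`; by homogeneity `≤ ε ‖u‖ ‖v‖`. -/
theorem polar {β : En n →L[ℂ] En n →L[ℂ] ℂ} (hs : ∀ u v, β u v = β v u) {ε : ℝ} (hε : 0 ≤ ε) (h : ∀ v, ‖β v v‖ ≤ ε * ‖v‖ ^ 2) :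
    ‖β‖ ≤ ε := by
  have h1 : ∀ u v, ‖β u v‖ ≤ ε * (‖u‖ ^ 2 + ‖v‖ ^ 2) / 2 := by
    intro u v
    have h2 : 4 * β u v = β (u + v) (u + v) - β (u - v) (u - v) := by
      simp only [map_add, map_sub, add_apply, sub_apply]
      rw [hs v u]
      ring
    have h3 : 4 * ‖β u v‖ ≤ ε * ‖u + v‖ ^ 2 + ε * ‖u - v‖ ^ 2 := by
      calc 4 * ‖β u v‖ = ‖4 * β u v‖ := by rw [norm_mul]; norm_num
        _ ≤ ‖β (u + v) (u + v)‖ + ‖β (u - v) (u - v)‖ := by rw [h2]; exact norm_sub_le _ _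
        _ ≤ _ := add_le_add (h _) (h _)
    have h4 := parallelogram_law_with_norm ℂ u v
    have h5 : ε * ‖u + v‖ ^ 2 + ε * ‖u - v‖ ^ 2 = 2 * (ε * (‖u‖ ^ 2 + ‖v‖ ^ 2)) := by
      linear_combination ε * h4
    linarith
  refine ContinuousLinearMap.opNorm_le_bound₂ β hε (fun u v => ?_)
  by_cases hu : u = 0
  · rw [hu, map_zero, zero_apply, norm_zero, norm_zero, mul_zero, zero_mul]
  by_cases hv : v = 0
  · rw [hv, map_zero, norm_zero, norm_zero, mul_zero]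
  have hu' : 0 < ‖u‖ := norm_pos_iff.2 hu
  have hv' : 0 < ‖v‖ := norm_pos_iff.2 hv
  have h2 := h1 (((‖u‖⁻¹ : ℝ) : ℂ) • u) (((‖v‖⁻¹ : ℝ) : ℂ) • v)
  have h3 : ∀ w : En n, 0 < ‖w‖ → ‖((‖w‖⁻¹ : ℝ) : ℂ) • w‖ = 1 := by
    intro w hw
    rw [norm_smul, Complex.norm_real, Real.norm_eq_abs, abs_of_pos (inv_pos.2 hw),
      inv_mul_cancel₀ hw.ne']
  rw [h3 u hu', h3 v hv'] at h2
  have h4 : β (((‖u‖⁻¹ : ℝ) : ℂ) • u) (((‖v‖⁻¹ : ℝ) : ℂ) • v) =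
      ((‖u‖⁻¹ : ℝ) : ℂ) * (((‖v‖⁻¹ : ℝ) : ℂ) * β u v) := by
    simp only [map_smul, smul_apply, smul_eq_mul]
    ring
  rw [h4, norm_mul, norm_mul, Complex.norm_real, Complex.norm_real, Real.norm_eq_abs,
    Real.norm_eq_abs, abs_of_pos (inv_pos.2 hu'), abs_of_pos (inv_pos.2 hv')] at h2
  have h5 : ‖β u v‖ = ‖u‖ * ‖v‖ * (‖u‖⁻¹ * (‖v‖⁻¹ * ‖β u v‖)) := by
    field_simp
  rw [h5]
  have h6 : 0 < ‖u‖ * ‖v‖ := mul_pos hu' hv'
  have h7 : ‖u‖⁻¹ * (‖v‖⁻¹ * ‖β u v‖) ≤ ε := by linarith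
  calc ‖u‖ * ‖v‖ * (‖u‖⁻¹ * (‖v‖⁻¹ * ‖β u v‖)) ≤ ‖u‖ * ‖v‖ * ε :=
        mul_le_mul_of_nonneg_left h7 h6.le
    _ = ε * ‖u‖ * ‖v‖ := by ring

/-- The correction of the quadratic part.
PROOF. `β u v = pd ρ x (b u v + b v u) / 2 + E2 (L u) (L v) / 4 - (l u * inner q v + l v * inner q u) / 2`, a symmetric complex bilinear form (`pd ρ x` is complex linear: `pd_add`, `pd_smul`; bounded `pd_le`; `inner ℂ q` is linear: `innerSL ℂ q`),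
`β v v` is the expression of `h`; so `‖β‖ ≤ ε` (`polar`). `b' u v = b u v - β u v • y`, with `pd ρ x y = 1`. `‖b' - b‖ ≤ ε ‖y‖`. -/
theorem quad_corr (T : Tg n) {x y q : En n} (hy : pd T.ρ x y = 1) {L : En n →L[ℂ] En n} {b : En n →L[ℂ] En n →L[ℂ] En n} {l : En n →L[ℂ] ℂ}
    {ε : ℝ} (hε : 0 ≤ ε) (h : ∀ v, ‖pd T.ρ x (b v v) + Eh (Bx T x) (L v) / 4 - l v * inner ℂ q v‖ ≤ ε * ‖v‖ ^ 2) :
    ∃ b' : En n →L[ℂ] En n →L[ℂ] En n, ‖b' - b‖ ≤ ε * ‖y‖ ∧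
      ∀ v, pd T.ρ x (b' v v) + Eh (Bx T x) (L v) / 4 - l v * inner ℂ q v = 0 := by
  obtain ⟨E2, hE1, hE2⟩ := exists_E2 (bx_symm T x)
  let pl : En n →ₗ[ℂ] ℂ :=
    { toFun := pd T.ρ x
      map_add' := pd_add T.ρ x
      map_smul' := fun c v => pd_smul T.ρ x v c }
  let P : En n →L[ℂ] ℂ := pl.mkContinuous ‖fderiv ℝ T.ρ x‖ (fun v => pd_le T.ρ x v)
  have hP : ∀ v, P v = pd T.ρ x v := fun v => rfl
  let S : En n →L[ℂ] En n →L[ℂ] ℂ := l.smulRight (innerSL ℂ q)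
  have hS : ∀ u v, S u v = l u * inner ℂ q v := fun u v => rfl
  let R : En n →L[ℂ] En n →L[ℂ] ℂ := (ContinuousLinearMap.compL ℂ (En n) (En n) ℂ P).comp b
  have hR : ∀ u v, R u v = pd T.ρ x (b u v) := fun u v => rfl
  let β : En n →L[ℂ] En n →L[ℂ] ℂ := (1 / 2 : ℂ) • (R + R.flip) + (1 / 4 : ℂ) • E2.bilinearComp L L -
    (1 / 2 : ℂ) • (S + S.flip)
  have hβ : ∀ u v, β u v = (1 / 2 : ℂ) * (pd T.ρ x (b u v) + pd T.ρ x (b v u)) +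
      (1 / 4 : ℂ) * E2 (L u) (L v) - (1 / 2 : ℂ) * (l u * inner ℂ q v + l v * inner ℂ q u) :=
    fun u v => rfl
  have hβd : ∀ v, β v v = pd T.ρ x (b v v) + Eh (Bx T x) (L v) / 4 - l v * inner ℂ q v := by
    intro v
    rw [hβ, hE2]
    ring
  have hβs : ∀ u v, β u v = β v u := by
    intro u v
    rw [hβ, hβ, hE1]
    ring
  have hβn : ‖β‖ ≤ ε := polar hβs hε (fun v => by rw [hβd]; exact h v)
  let Y : En n →L[ℂ] En n →L[ℂ] En n :=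
    (ContinuousLinearMap.compL ℂ (En n) ℂ (En n) (ContinuousLinearMap.toSpanSingleton ℂ y)).comp β
  have hY : ∀ u v, Y u v = β u v • y := fun u v => rfl
  refine ⟨b - Y, ?_, fun v => ?_⟩
  · have h1 : b - Y - b = -Y := by abel
    rw [h1]
    refine ContinuousLinearMap.opNorm_le_bound₂ (-Y) (mul_nonneg hε (norm_nonneg _)) (fun u v => ?_)
    have h0 : (-Y) u v = -(β u v • y) := rfl
    rw [h0, norm_neg, norm_smul]
    have h2 : ‖β u v‖ ≤ ε * ‖u‖ * ‖v‖ :=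
      (β.le_opNorm₂ u v).trans (by gcongr)
    calc ‖β u v‖ * ‖y‖ ≤ ε * ‖u‖ * ‖v‖ * ‖y‖ := mul_le_mul_of_nonneg_right h2 (norm_nonneg _)
      _ = ε * ‖y‖ * ‖u‖ * ‖v‖ := by ring
  · have h1 : (b - Y) v v = b v v + (-(β v v)) • y := by
      rw [sub_apply, sub_apply, hY, neg_smul, sub_eq_add_neg]
    rw [h1, pd_add, pd_smul, hy, hβd]
    ring

end Pool.Agent.MPca0fc2.EQ
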