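import Pool.Agent.Lib.MP_ca0fc2_an.Mg.G082

/-! Campaign EQ, task S2b: the correction of the `(1, 1)` part: one step of Newton's method for the square root of a hermitian form. -/

set_option autoImplicit false

open Metric Set Filter Topology

namespace Pool.Agent.MPca0fc2.EQ

open Pool.Agent.MPca0fc2.TB (En)

variable {n : ℕ}

private theorem S2b_re_le {E : En n →L[ℂ] En n} (hs : ∀ v w, inner ℂ (E v) w = (inner ℂ v (E w) : ℂ)) {ε : ℝ}
    (h : ∀ v, ‖(inner ℂ (E v) v : ℂ)‖ ≤ ε * ‖v‖ ^ 2) (v w : En n) :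
    4 * (inner ℂ (E v) w : ℂ).re ≤ 2 * ε * (‖v‖ ^ 2 + ‖w‖ ^ 2) := by
  have hsym : (inner ℂ (E w) v : ℂ).re = (inner ℂ (E v) w : ℂ).re := by
    rw [hs w v, ← inner_conj_symm, Complex.conj_re]
  have hA : (inner ℂ (E (v + w)) (v + w) : ℂ).re = (inner ℂ (E v) v : ℂ).re + (inner ℂ (E w) w : ℂ).re
      + 2 * (inner ℂ (E v) w : ℂ).re := by
    rw [map_add, inner_add_left, inner_add_right, inner_add_right]
    simp only [Complex.add_re]
    rw [hsym]; ring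
  have hB : (inner ℂ (E (v - w)) (v - w) : ℂ).re = (inner ℂ (E v) v : ℂ).re + (inner ℂ (E w) w : ℂ).re
      - 2 * (inner ℂ (E v) w : ℂ).re := by
    rw [map_sub, inner_sub_left, inner_sub_right, inner_sub_right]
    simp only [Complex.sub_re]
    rw [hsym]; ring
  have h1 := (Complex.abs_re_le_norm _).trans (h (v + w))
  have h2 := (Complex.abs_re_le_norm _).trans (h (v - w))
  have h3 := parallelogram_law_with_norm ℂ v w
  have h4 := le_abs_self (inner ℂ (E (v + w)) (v + w) : ℂ).re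
  have h5 := neg_abs_le (inner ℂ (E (v - w)) (v - w) : ℂ).re
  have h6 : ‖v + w‖ ^ 2 + ‖v - w‖ ^ 2 = 2 * (‖v‖ ^ 2 + ‖w‖ ^ 2) := by nlinarith [h3]
  have h7 : ε * ‖v + w‖ ^ 2 + ε * ‖v - w‖ ^ 2 = 2 * ε * (‖v‖ ^ 2 + ‖w‖ ^ 2) := by
    rw [← mul_add, h6]; ring
  rw [hA] at h1 h4
  rw [hB] at h2 h5
  linarith

/-- The bound of a hermitian form by its diagonal.
PROOF. `E` self-adjoint (`inner ℂ (E v) w = inner ℂ v (E w)`), `|⟨E v, v⟩| ≤ ε ‖v‖²`. Mathlib may have it (numerical radius of a self-adjoint operator); by hand: `4 inner (E v) w` is a combination of four diagonal values (complex polarization),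
so `‖inner (E v) w‖ ≤ ε (‖v‖² + ‖w‖²)`, thus `≤ 2 ε ‖v‖ ‖w‖` by homogeneity; `w = E v`. -/
theorem herm_le {E : En n →L[ℂ] En n} (hs : ∀ v w, inner ℂ (E v) w = (inner ℂ v (E w) : ℂ)) {ε : ℝ} (hε : 0 ≤ ε)
    (h : ∀ v, ‖(inner ℂ (E v) v : ℂ)‖ ≤ ε * ‖v‖ ^ 2) : ‖E‖ ≤ 2 * ε := by
  refine ContinuousLinearMap.opNorm_le_bound _ (by linarith) fun v => ?_
  have key : ∀ t : ℝ, 4 * t * ‖E v‖ ^ 2 ≤ 2 * ε * (‖v‖ ^ 2 + t ^ 2 * ‖E v‖ ^ 2) := by
    intro t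
    have h1 := S2b_re_le hs h v ((t : ℂ) • E v)
    have h2 : (inner ℂ (E v) ((t : ℂ) • E v) : ℂ).re = t * ‖E v‖ ^ 2 := by
      rw [inner_smul_right, inner_self_eq_norm_sq_to_K]
      simp [← Complex.ofReal_pow]
    have h3 : ‖(t : ℂ) • E v‖ ^ 2 = t ^ 2 * ‖E v‖ ^ 2 := by
      rw [norm_smul, mul_pow]; simp [Complex.norm_real]
    rw [h2, h3] at h1
    linarith
  by_cases hv : E v = 0
  · rw [hv, norm_zero]; positivity
  have hE : 0 < ‖E v‖ := norm_pos_iff.2 hv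
  have h1 := key (‖v‖ / ‖E v‖)
  have h2 : 4 * (‖v‖ / ‖E v‖) * ‖E v‖ ^ 2 = 4 * ‖v‖ * ‖E v‖ := by field_simp
  have h3 : (‖v‖ / ‖E v‖) ^ 2 * ‖E v‖ ^ 2 = ‖v‖ ^ 2 := by field_simp
  rw [h2, h3] at h1
  by_cases hv0 : ‖v‖ = 0
  · have : v = 0 := norm_eq_zero.1 hv0
    exact absurd (by rw [this, map_zero]) hv
  have hvp : 0 < ‖v‖ := lt_of_le_of_ne (norm_nonneg _) (Ne.symm hv0)
  have h4 : ‖v‖ * ‖E v‖ ≤ ‖v‖ * (ε * ‖v‖) := by nlinarith
  have h5 := le_of_mul_le_mul_left h4 hvp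
  nlinarith

/-- The correction.
PROOF. `Π v = v - (inner ℂ q v) • q` (the orthogonal projection, `‖Π‖ ≤ 1`, self-adjoint, `Π² = Π`), `M = S* S` (`ContinuousLinearMap.adjoint`), `‖M‖ ≤ 9`. `E = Π (M - u0) Π` is self-adjoint and `⟨E v, v⟩ = ‖S (Π v)‖² - u0 ‖Π v‖²`, `inner q (Π v) = 0`, so
`|⟨E v, v⟩| ≤ ε ‖v‖²` by `h`, `‖E‖ ≤ 2 ε`. `X = E / (2 u0)` (`u0 ≥ 1/2`): `‖X‖ ≤ 2 ε`, `X = Π X = X Π` is self-adjoint, `inner q (X v) = 0`. `M' = (1 - X) M (1 - X)`: `‖S (v - X v)‖² = ⟨M' v, v⟩`.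
`Π M' Π = Π M Π - X Π M Π - Π M Π X + X M X = (u0 Π + 2 u0 X) - X (u0 Π + 2 u0 X) - (u0 Π + 2 u0 X) X + X M X = u0 Π - 4 u0 X² + X M X`, so `‖Π M' Π - u0 Π‖ ≤ C ε²`.
`l' v = inner ℂ q (M' (Π v)) + (inner ℂ q v) * ((Re (inner ℂ q (M' q)) - u0) / 2 + I * (l q).im)`. With `v = Π v + s q`, `s = inner ℂ q v`: `⟨M' v, v⟩ = ⟨M' Π v, Π v⟩ + 2 Re (conj s * inner q (M' Π v)) + |s|² inner q (M' q)`
(`M'` self-adjoint; `inner ℂ q (M' q)` is real), and `2 Re (l' v * conj s) = 2 Re (conj s * inner q (M' Π v)) + |s|² (inner q (M' q) - u0)`, `‖v‖² = ‖Π v‖² + |s|²`: the difference `‖S (v - X v)‖² - u0 ‖v‖² - 2 Re (l' v conj s)` is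
`⟨(Π M' Π - u0 Π) v, v⟩`: `≤ C ε² ‖v‖²`. `‖l' - l‖ ≤ C ε`: the hermitian form of `M` minus that of `u0 + (l ⊗ q + q ⊗ l)` is `≤ 2 ε` (`herm_le`), `‖M' - M‖ ≤ C ε`: for `v ⊥ q`: `inner q (M v) - l v` is a value of this form (as `inner q v = 0`) [the form of the operator
`R v = u0 v + (l v) • q + (inner ℂ q v) • l*` with `l* ` the vector of `l`: `inner q (R v) = l v` for `v ⊥ q`], and at `v = q`: `Re (inner q (M q)) - u0 = 2 Re (l q) + O(ε)`. -/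
theorem herm_corr : ∃ C : ℝ, 1 ≤ C ∧ ∀ (S : En n →L[ℂ] En n) (l : En n →L[ℂ] ℂ) (u0 ε : ℝ) (q : En n), ‖q‖ = 1 → |u0 - 1| ≤ 1 / 2 → 0 ≤ ε →
    ε ≤ 1 → ‖S‖ ≤ 3 → ‖l‖ ≤ 1 →
    (∀ v, |‖S v‖ ^ 2 - u0 * ‖v‖ ^ 2 - 2 * (l v * starRingEnd ℂ (inner ℂ q v)).re| ≤ ε * ‖v‖ ^ 2) →
    ∃ (X : En n →L[ℂ] En n) (l' : En n →L[ℂ] ℂ), ‖X‖ ≤ C * ε ∧ (∀ v, (inner ℂ q (X v) : ℂ) = 0) ∧ ‖l' - l‖ ≤ C * ε ∧
      ∀ v, |‖S (v - X v)‖ ^ 2 - u0 * ‖v‖ ^ 2 - 2 * (l' v * starRingEnd ℂ (inner ℂ q v)).re| ≤ C * ε ^ 2 * ‖v‖ ^ 2 := by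
  refine ⟨50, by norm_num, ?_⟩
  intro S l u0 ε q hq hu0 hε hε1 hS hl h
  have hu := abs_le.1 hu0
  have hu1 : 1 / 2 ≤ u0 := by linarith [hu.1]
  have hu2 : u0 ≤ 3 / 2 := by linarith [hu.2]
  have hqq : (inner ℂ q q : ℂ) = 1 := by rw [inner_self_eq_norm_sq_to_K, hq]; simp
  -- the projection
  set P : En n →L[ℂ] En n := ContinuousLinearMap.id ℂ (En n) - (innerSL ℂ q).smulRight q with hP
  have hPv : ∀ v, P v = v - (inner ℂ q v : ℂ) • q := by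
    intro v; simp [hP]
  have hqP : ∀ v, (inner ℂ q (P v) : ℂ) = 0 := by
    intro v; rw [hPv, inner_sub_right, inner_smul_right, hqq]; ring
  have hPq : ∀ v, (inner ℂ (P v) q : ℂ) = 0 := by
    intro v; rw [← inner_conj_symm, hqP]; simp
  have hPs : ∀ v w, (inner ℂ (P v) w : ℂ) = inner ℂ v (P w) := by
    intro v w
    rw [hPv, hPv, inner_sub_left, inner_sub_right, inner_smul_left, inner_smul_right, inner_conj_symm]
    ring
  have hPP : ∀ v, (inner ℂ q v : ℂ) = 0 → P v = v := by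
    intro v hv; rw [hPv, hv]; simp
  have hsplit : ∀ v, v = P v + (inner ℂ q v : ℂ) • q := by
    intro v; rw [hPv]; abel
  have hnorm : ∀ v, ‖v‖ ^ 2 = ‖P v‖ ^ 2 + ‖(inner ℂ q v : ℂ)‖ ^ 2 := by
    intro v
    have h1 : (inner ℂ (P v) ((inner ℂ q v : ℂ) • q) : ℂ) = 0 := by rw [inner_smul_right, hPq]; simp
    have h2 := @norm_add_sq ℂ (En n) _ _ _ (P v) ((inner ℂ q v : ℂ) • q)
    rw [← hsplit v, h1] at h2
    rw [h2, norm_smul, hq]; simp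
  have hPle : ∀ v, ‖P v‖ ≤ ‖v‖ := by
    intro v
    have := hnorm v
    have h3 : 0 ≤ ‖(inner ℂ q v : ℂ)‖ ^ 2 := by positivity
    exact abs_le_of_sq_le_sq' (by linarith) (norm_nonneg _) |>.2
  have hqle : ∀ v, ‖(inner ℂ q v : ℂ)‖ ≤ ‖v‖ := by
    intro v
    have := norm_inner_le_norm (𝕜 := ℂ) q v
    rwa [hq, one_mul] at this
  -- the operator E
  set E : En n →L[ℂ] En n := P ∘L ((ContinuousLinearMap.adjoint S ∘L S) - (u0 : ℂ) • ContinuousLinearMap.id ℂ (En n)) ∘L P with hE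
  have hEv : ∀ v w, (inner ℂ (E v) w : ℂ) = inner ℂ (S (P v)) (S (P w)) - u0 * inner ℂ (P v) (P w) := by
    intro v w
    have : E v = P ((ContinuousLinearMap.adjoint S) (S (P v)) - (u0 : ℂ) • P v) := by simp [hE]
    rw [this, hPs, inner_sub_left, ContinuousLinearMap.adjoint_inner_left, inner_smul_left]
    simp
  have hEs : ∀ v w, (inner ℂ (E v) w : ℂ) = inner ℂ v (E w) := by
    intro v w
    rw [hEv v w, ← inner_conj_symm v (E w), hEv w v, map_sub, map_mul, inner_conj_symm, inner_conj_symm]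
    simp
  have hEd : ∀ v, ‖(inner ℂ (E v) v : ℂ)‖ ≤ ε * ‖v‖ ^ 2 := by
    intro v
    have h1 : (inner ℂ (E v) v : ℂ) = ((‖S (P v)‖ ^ 2 - u0 * ‖P v‖ ^ 2 : ℝ) : ℂ) := by
      rw [hEv, inner_self_eq_norm_sq_to_K, inner_self_eq_norm_sq_to_K]
      push_cast; rfl
    have h2 := h (P v)
    rw [hqP] at h2
    simp only [map_zero, mul_zero, Complex.zero_re, sub_zero] at h2
    rw [h1, Complex.norm_real, Real.norm_eq_abs]
    refine h2.trans ?_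
    have := pow_le_pow_left₀ (norm_nonneg _) (hPle v) 2
    exact mul_le_mul_of_nonneg_left this hε
  have hEn := herm_le hEs hε hEd
  -- X
  set X : En n →L[ℂ] En n := ((1 / (2 * u0) : ℝ) : ℂ) • E with hX
  have hXn : ‖X‖ ≤ 2 * ε := by
    rw [hX, norm_smul, Complex.norm_real, Real.norm_eq_abs, abs_of_nonneg (by positivity)]
    have h1 : 1 / (2 * u0) ≤ 1 := by rw [div_le_one (by linarith)]; linarith
    calc 1 / (2 * u0) * ‖E‖ ≤ 1 * ‖E‖ := mul_le_mul_of_nonneg_right h1 (norm_nonneg _)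
      _ ≤ 2 * ε := by linarith
  have hXE : ∀ v w, 2 * (u0 : ℂ) * (inner ℂ (X v) w : ℂ) = inner ℂ (E v) w := by
    intro v w
    have h0 : (u0 : ℂ) ≠ 0 := by
      intro h0; rw [Complex.ofReal_eq_zero] at h0; linarith
    have : X v = ((1 / (2 * u0) : ℝ) : ℂ) • E v := by simp [hX]
    rw [this, inner_smul_left, Complex.conj_ofReal]
    push_cast
    field_simp
  have hXs : ∀ v w, (inner ℂ (X v) w : ℂ) = inner ℂ v (X w) := by
    intro v w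
    have : ∀ v, X v = ((1 / (2 * u0) : ℝ) : ℂ) • E v := by intro v; simp [hX]
    rw [this, this, inner_smul_left, inner_smul_right, Complex.conj_ofReal, hEs]
  have hqX : ∀ v, (inner ℂ q (X v) : ℂ) = 0 := by
    intro v
    have h1 : X v = ((1 / (2 * u0) : ℝ) : ℂ) • P (((ContinuousLinearMap.adjoint S ∘L S) - (u0 : ℂ) • ContinuousLinearMap.id ℂ (En n)) (P v)) := by
      simp [hX, hE]
    rw [h1, inner_smul_right, hqP, mul_zero]
  have hXq : X q = 0 := by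
    have h1 : P q = 0 := by rw [hPv, hqq]; simp
    simp [hX, hE, h1]
  have hXP : ∀ v, X v = X (P v) := by
    intro v
    conv_lhs => rw [hsplit v]
    rw [map_add, map_smul, hXq, smul_zero, add_zero]
  have hXle : ∀ v, ‖X v‖ ≤ 2 * ε * ‖v‖ := fun v => (X.le_opNorm v).trans (mul_le_mul_of_nonneg_right hXn (norm_nonneg _))
  -- the form on the orthogonal complement of q
  have hform : ∀ v w, (inner ℂ q v : ℂ) = 0 → (inner ℂ q w : ℂ) = 0 →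
      (inner ℂ (S v) (S w) : ℂ) = u0 * inner ℂ v w + 2 * u0 * inner ℂ (X v) w := by
    intro v w hv hw
    rw [hXE, hEv, hPP v hv, hPP w hw]; ring
  have hmain : ∀ w, (inner ℂ q w : ℂ) = 0 → |‖S (w - X w)‖ ^ 2 - u0 * ‖w‖ ^ 2| ≤ 42 * ε ^ 2 * ‖w‖ ^ 2 := by
    intro w hw
    have e1 : ((‖S (w - X w)‖ ^ 2 : ℝ) : ℂ) = inner ℂ (S (w - X w)) (S (w - X w)) := by
      rw [inner_self_eq_norm_sq_to_K]; push_cast; rfl
    have hww : (inner ℂ q (w - X w) : ℂ) = 0 := by rw [inner_sub_right, hw, hqX, sub_zero]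
    have e2 : (inner ℂ (S (w - X w)) (S (w - X w)) : ℂ) =
        u0 * inner ℂ w w - 3 * u0 * inner ℂ (X w) (X w) + 2 * u0 * inner ℂ (X (X w)) (X w) := by
      rw [hform _ _ hww hww, map_sub]
      simp only [inner_sub_left, inner_sub_right]
      rw [hXs (X w) w, hXs w (X w), ← hXs w w]
      rw [hXs w w]
      ring_nf
    have e3 : ((‖S (w - X w)‖ ^ 2 - u0 * ‖w‖ ^ 2 : ℝ) : ℂ) =
        - 3 * u0 * ((‖X w‖ ^ 2 : ℝ) : ℂ) + 2 * u0 * inner ℂ (X (X w)) (X w) := by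
      have h1 : ((‖w‖ ^ 2 : ℝ) : ℂ) = inner ℂ w w := by rw [inner_self_eq_norm_sq_to_K]; push_cast; rfl
      have h2 : ((‖X w‖ ^ 2 : ℝ) : ℂ) = inner ℂ (X w) (X w) := by rw [inner_self_eq_norm_sq_to_K]; push_cast; rfl
      rw [Complex.ofReal_sub, Complex.ofReal_mul, e1, e2, h1, h2]; ring
    have e4 : |‖S (w - X w)‖ ^ 2 - u0 * ‖w‖ ^ 2| = ‖((‖S (w - X w)‖ ^ 2 - u0 * ‖w‖ ^ 2 : ℝ) : ℂ)‖ := by
      rw [Complex.norm_real, Real.norm_eq_abs]
    rw [e4, e3]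
    have hx1 := hXle w
    have hx2 := hXle (X w)
    have n1 : ‖(- 3 * u0 * ((‖X w‖ ^ 2 : ℝ) : ℂ) : ℂ)‖ = 3 * u0 * ‖X w‖ ^ 2 := by
      rw [norm_mul, norm_mul, norm_neg, Complex.norm_real, Complex.norm_real, Real.norm_eq_abs, Real.norm_eq_abs,
        abs_of_nonneg (by linarith : 0 ≤ u0), abs_of_nonneg (by positivity)]
      simp
    have n2 : ‖(2 * u0 * inner ℂ (X (X w)) (X w) : ℂ)‖ ≤ 2 * u0 * (‖X (X w)‖ * ‖X w‖) := by
      rw [norm_mul, norm_mul, Complex.norm_real, Real.norm_eq_abs, abs_of_nonneg (by linarith : 0 ≤ u0)]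
      have := norm_inner_le_norm (𝕜 := ℂ) (X (X w)) (X w)
      simp only [RCLike.norm_ofNat]
      exact mul_le_mul_of_nonneg_left this (by linarith)
    refine (norm_add_le _ _).trans ?_
    rw [n1]
    have hw0 := norm_nonneg w
    have hxn := norm_nonneg (X w)
    have a1 : ‖X w‖ ^ 2 ≤ 4 * ε ^ 2 * ‖w‖ ^ 2 := by
      calc ‖X w‖ ^ 2 ≤ (2 * ε * ‖w‖) ^ 2 := pow_le_pow_left₀ hxn hx1 2
        _ = _ := by ring
    have a2 : ‖X (X w)‖ * ‖X w‖ ≤ 8 * ε ^ 2 * ‖w‖ ^ 2 := by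
      calc ‖X (X w)‖ * ‖X w‖ ≤ (2 * ε * ‖X w‖) * ‖X w‖ := mul_le_mul_of_nonneg_right hx2 hxn
        _ = 2 * ε * ‖X w‖ ^ 2 := by ring
        _ ≤ 2 * ε * (4 * ε ^ 2 * ‖w‖ ^ 2) := mul_le_mul_of_nonneg_left a1 (by linarith)
        _ = ε * (8 * ε ^ 2 * ‖w‖ ^ 2) := by ring
        _ ≤ 1 * (8 * ε ^ 2 * ‖w‖ ^ 2) := mul_le_mul_of_nonneg_right hε1 (by positivity)
        _ = _ := by ring
    calc 3 * u0 * ‖X w‖ ^ 2 + ‖(2 * u0 * inner ℂ (X (X w)) (X w) : ℂ)‖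
        ≤ 3 * u0 * (4 * ε ^ 2 * ‖w‖ ^ 2) + 2 * u0 * (8 * ε ^ 2 * ‖w‖ ^ 2) :=
          add_le_add (mul_le_mul_of_nonneg_left a1 (by linarith)) (n2.trans (mul_le_mul_of_nonneg_left a2 (by linarith)))
      _ = u0 * (28 * (ε ^ 2 * ‖w‖ ^ 2)) := by ring
      _ ≤ (3 / 2) * (28 * (ε ^ 2 * ‖w‖ ^ 2)) := mul_le_mul_of_nonneg_right hu2 (by positivity)
      _ = 42 * ε ^ 2 * ‖w‖ ^ 2 := by ring
  -- the functional
  set c' : ℂ := (((‖S q‖ ^ 2 - u0) / 2 : ℝ) : ℂ) + ((l q).im : ℂ) * Complex.I with hc'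
  set l' : En n →L[ℂ] ℂ := (innerSL ℂ (S q)) ∘L S ∘L (P - X) + c' • innerSL ℂ q with hl'
  have hl'v : ∀ v, l' v = inner ℂ (S q) (S (P v - X v)) + c' * inner ℂ q v := by
    intro v; simp [hl']
  have hcl : ‖c' - l q‖ ≤ ε / 2 := by
    have h1 := h q
    rw [hq, hqq] at h1
    simp only [one_pow, mul_one, map_one] at h1
    have h2 : c' - l q = (((‖S q‖ ^ 2 - u0) / 2 - (l q).re : ℝ) : ℂ) := by
      apply Complex.ext <;> simp [hc']
    rw [h2, Complex.norm_real, Real.norm_eq_abs]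
    rw [abs_le] at h1 ⊢
    constructor <;> linarith [h1.1, h1.2]
  have hSle : ∀ v, ‖S v‖ ≤ 3 * ‖v‖ := fun v => (S.le_opNorm v).trans (mul_le_mul_of_nonneg_right hS (norm_nonneg _))
  -- the polarization
  have hpol : ∀ w, (inner ℂ q w : ℂ) = 0 → ‖(inner ℂ (S q) (S w) : ℂ) - l w‖ ≤ 2 * ε * ‖w‖ := by
    intro w hw
    set z : ℂ := inner ℂ (S q) (S w) - l w with hz
    have hwq : (inner ℂ w q : ℂ) = 0 := by rw [← inner_conj_symm, hw, map_zero]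
    have hcr : ∀ t : ℂ, |2 * (starRingEnd ℂ t * z).re| ≤ 2 * ε * (‖w‖ ^ 2 + ‖t‖ ^ 2) := by
      intro t
      have h1 := h (w + t • q)
      have h2 := h w
      have h3 := h (t • q)
      have f1 : ‖S (w + t • q)‖ ^ 2 = ‖S w‖ ^ 2 + ‖S (t • q)‖ ^ 2 + 2 * (starRingEnd ℂ t * inner ℂ (S q) (S w)).re := by
        rw [map_add, map_smul, @norm_add_sq ℂ (En n) _ _ _ (S w) (t • S q)]
        have : (inner ℂ (S w) (t • S q) : ℂ) = starRingEnd ℂ (starRingEnd ℂ t * inner ℂ (S q) (S w)) := by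
          rw [inner_smul_right, map_mul, inner_conj_symm, Complex.conj_conj]
        rw [this]
        simp only [RCLike.re_to_complex, Complex.conj_re]
        ring
      have f2 : ‖w + t • q‖ ^ 2 = ‖w‖ ^ 2 + ‖t‖ ^ 2 := by
        rw [@norm_add_sq ℂ (En n) _ _ _ w (t • q), inner_smul_right, hwq, norm_smul, hq]; simp
      have f3 : ‖t • q‖ ^ 2 = ‖t‖ ^ 2 := by rw [norm_smul, hq, mul_one]
      have f4 : (inner ℂ q (w + t • q) : ℂ) = t := by rw [inner_add_right, hw, inner_smul_right, hqq]; simp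
      have f5 : (inner ℂ q (t • q) : ℂ) = t := by rw [inner_smul_right, hqq, mul_one]
      have f6 : (l (w + t • q) * starRingEnd ℂ t).re = (l (t • q) * starRingEnd ℂ t).re + (starRingEnd ℂ t * l w).re := by
        rw [map_add, add_mul, Complex.add_re, mul_comm (l w)]; ring
      have f7 : (starRingEnd ℂ t * z).re = (starRingEnd ℂ t * inner ℂ (S q) (S w)).re - (starRingEnd ℂ t * l w).re := by
        rw [hz, mul_sub, Complex.sub_re]
      rw [f4, f1, f2, f6] at h1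
      rw [f5, f3] at h3
      rw [hw, map_zero, mul_zero, Complex.zero_re] at h2
      rw [f7]
      rw [abs_le] at h1 h2 h3 ⊢
      constructor <;> linarith [h1.1, h1.2, h2.1, h2.2, h3.1, h3.2]
    by_cases hz0 : z = 0
    · rw [hz0, norm_zero]; positivity
    have hzp : 0 < ‖z‖ := norm_pos_iff.2 hz0
    have h1 := hcr (((‖w‖ / ‖z‖ : ℝ) : ℂ) * z)
    have h2 : (starRingEnd ℂ (((‖w‖ / ‖z‖ : ℝ) : ℂ) * z) * z) = ((‖w‖ * ‖z‖ : ℝ) : ℂ) := by
      rw [map_mul, Complex.conj_ofReal, mul_assoc, Complex.conj_mul']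
      push_cast
      have : (‖z‖ : ℂ) ≠ 0 := by exact_mod_cast hzp.ne'
      field_simp
    have h3 : ‖(((‖w‖ / ‖z‖ : ℝ) : ℂ) * z)‖ = ‖w‖ := by
      rw [norm_mul, Complex.norm_real, Real.norm_eq_abs, abs_of_nonneg (by positivity)]
      field_simp
    rw [h2, h3, Complex.ofReal_re, abs_of_nonneg (by positivity)] at h1
    by_cases hw0 : ‖w‖ = 0
    · have : w = 0 := norm_eq_zero.1 hw0
      exact absurd (by rw [hz, this]; simp) hz0
    have hwp : 0 < ‖w‖ := lt_of_le_of_ne (norm_nonneg _) (Ne.symm hw0)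
    have h4 : ‖w‖ * ‖z‖ ≤ ‖w‖ * (2 * ε * ‖w‖) := by nlinarith
    exact le_of_mul_le_mul_left h4 hwp
  refine ⟨X, l', ?_, hqX, ?_, ?_⟩
  · linarith
  · refine ContinuousLinearMap.opNorm_le_bound _ (by positivity) fun v => ?_
    have hlv : l v = l (P v) + (inner ℂ q v : ℂ) * l q := by
      conv_lhs => rw [hsplit v]
      rw [map_add, map_smul, smul_eq_mul]
    have h1 : (l' - l) v = ((inner ℂ (S q) (S (P v)) : ℂ) - l (P v)) - inner ℂ (S q) (S (X v)) + (c' - l q) * inner ℂ q v := by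
      rw [_root_.sub_apply, hl'v, hlv, map_sub, inner_sub_right]; ring
    rw [h1]
    have b1 := hpol (P v) (hqP v)
    have b2 : ‖(inner ℂ (S q) (S (X v)) : ℂ)‖ ≤ 18 * ε * ‖v‖ := by
      have c1 := norm_inner_le_norm (𝕜 := ℂ) (S q) (S (X v))
      have c2 := hSle q
      have c3 := hSle (X v)
      have c4 := hXle v
      rw [hq] at c2
      calc _ ≤ ‖S q‖ * ‖S (X v)‖ := c1
        _ ≤ 3 * (3 * (2 * ε * ‖v‖)) := mul_le_mul (by linarith) (by linarith) (norm_nonneg _) (by norm_num)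
        _ = _ := by ring
    have b3 : ‖(c' - l q) * inner ℂ q v‖ ≤ ε / 2 * ‖v‖ := by
      rw [norm_mul]
      exact mul_le_mul hcl (hqle v) (norm_nonneg _) (by linarith)
    have b4 := hPle v
    have b5 : 2 * ε * ‖P v‖ ≤ 2 * ε * ‖v‖ := mul_le_mul_of_nonneg_left b4 (by linarith)
    have hv0 := norm_nonneg v
    have hev : 0 ≤ ε * ‖v‖ := by positivity
    calc _ ≤ ‖((inner ℂ (S q) (S (P v)) : ℂ) - l (P v)) - inner ℂ (S q) (S (X v))‖ + ‖(c' - l q) * inner ℂ q v‖ := norm_add_le _ _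
      _ ≤ (‖(inner ℂ (S q) (S (P v)) : ℂ) - l (P v)‖ + ‖(inner ℂ (S q) (S (X v)) : ℂ)‖) + ‖(c' - l q) * inner ℂ q v‖ := by
          gcongr; exact norm_sub_le _ _
      _ ≤ 50 * ε * ‖v‖ := by linarith
  · intro v
    have h1 : S (v - X v) = S (P v - X (P v)) + (inner ℂ q v : ℂ) • S q := by
      rw [← hXP v]
      conv_lhs => rw [show v - X v = (P v - X v) + (inner ℂ q v : ℂ) • q by nth_rw 1 [hsplit v]; abel]
      rw [map_add, map_smul]
    have h2 : ‖S (v - X v)‖ ^ 2 = ‖S (P v - X (P v))‖ ^ 2 + ‖(inner ℂ q v : ℂ)‖ ^ 2 * ‖S q‖ ^ 2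
        + 2 * ((inner ℂ (S q) (S (P v - X (P v))) : ℂ) * starRingEnd ℂ (inner ℂ q v)).re := by
      rw [h1, @norm_add_sq ℂ (En n) _ _ _ (S (P v - X (P v))) ((inner ℂ q v : ℂ) • S q)]
      have : (inner ℂ (S (P v - X (P v))) ((inner ℂ q v : ℂ) • S q) : ℂ) =
          starRingEnd ℂ ((inner ℂ (S q) (S (P v - X (P v))) : ℂ) * starRingEnd ℂ (inner ℂ q v)) := by
        rw [inner_smul_right, map_mul, inner_conj_symm, Complex.conj_conj, mul_comm]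
      rw [this, norm_smul, mul_pow]
      simp only [RCLike.re_to_complex, Complex.conj_re]
      ring
    have h3 : (l' v * starRingEnd ℂ (inner ℂ q v)).re = ((inner ℂ (S q) (S (P v - X (P v))) : ℂ) * starRingEnd ℂ (inner ℂ q v)).re
        + ‖(inner ℂ q v : ℂ)‖ ^ 2 * ((‖S q‖ ^ 2 - u0) / 2) := by
      have hcre : c'.re = (‖S q‖ ^ 2 - u0) / 2 := by
        rw [hc', Complex.add_re, Complex.ofReal_re, Complex.re_ofReal_mul, Complex.I_re, mul_zero, add_zero]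
      rw [hl'v, ← hXP v, add_mul, Complex.add_re, mul_assoc, Complex.mul_conj', ← Complex.ofReal_pow, Complex.re_mul_ofReal, hcre]
      ring
    rw [h2, h3, hnorm v]
    have h4 := hmain (P v) (hqP v)
    have h5 := pow_le_pow_left₀ (norm_nonneg _) (hPle v) 2
    have h6 : ε ^ 2 * ‖P v‖ ^ 2 ≤ ε ^ 2 * ‖v‖ ^ 2 := mul_le_mul_of_nonneg_left h5 (by positivity)
    have h7 : 0 ≤ ε ^ 2 * ‖v‖ ^ 2 := by positivity
    rw [hnorm v] at h6 h7
    rw [abs_le] at h4 ⊢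
    constructor <;> nlinarith [h4.1, h4.2]

end Pool.Agent.MPca0fc2.EQ
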