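import Pool.Agent.Lib.MP_ca0fc2_an.EQ.S2a
import Pool.Agent.Lib.MP_ca0fc2_an.EQ.S2b
import Pool.Agent.Lib.MP_ca0fc2_an.EQ.L1

/-! Campaign EQ, task S3: one step of Newton's method for osculating maps. -/

set_option autoImplicit false

open Metric Set Filter Topology

namespace Pool.Agent.MPca0fc2.EQ

open Pool.Agent.MPca0fc2.TB (En Lh Eh)

variable {n : ℕ}

/-- `∂ρ_x` as a continuous complex linear functional -/
private theorem S3_pdL (ρ : En n → ℝ) (x : En n) : ∃ φ : En n →L[ℂ] ℂ, ∀ w, φ w = pd ρ x w :=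
  ⟨LinearMap.mkContinuous
    { toFun := pd ρ x
      map_add' := fun v w => pd_add ρ x v w
      map_smul' := fun a w => pd_smul ρ x w a } ‖fderiv ℝ ρ x‖ (fun w => pd_le ρ x w), fun _ => rfl⟩

private theorem S3_bil (B B' : En n →L[ℝ] En n →L[ℝ] ℝ) (w w' v v' : En n) :
    |B w v - B' w' v'| ≤ ‖B - B'‖ * ‖w‖ * ‖v‖ + ‖B'‖ * ‖w - w'‖ * ‖v‖ + ‖B'‖ * ‖w'‖ * ‖v - v'‖ := by
  have e : B w v - B' w' v' = (B - B') w v + B' (w - w') v + B' w' (v - v') := by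
    simp only [sub_apply, map_sub]
    ring
  have h1 : ‖(B - B') w v‖ ≤ ‖B - B'‖ * ‖w‖ * ‖v‖ := (B - B').le_opNorm₂ w v
  have h2 : ‖B' (w - w') v‖ ≤ ‖B'‖ * ‖w - w'‖ * ‖v‖ := B'.le_opNorm₂ _ _
  have h3 : ‖B' w' (v - v')‖ ≤ ‖B'‖ * ‖w'‖ * ‖v - v'‖ := B'.le_opNorm₂ _ _
  rw [e, ← Real.norm_eq_abs]
  calc ‖(B - B') w v + B' (w - w') v + B' w' (v - v')‖
      ≤ ‖(B - B') w v‖ + ‖B' (w - w') v‖ + ‖B' w' (v - v')‖ := norm_add₃_le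
    _ ≤ _ := by linarith

private theorem S3_I (v : En n) : ‖Complex.I • v‖ = ‖v‖ := by
  rw [norm_smul, Complex.norm_I, one_mul]

private theorem S3_I' (v w : En n) : ‖Complex.I • v - Complex.I • w‖ = ‖v - w‖ := by
  rw [← smul_sub, S3_I]

private theorem S3_Lh (B B' : En n →L[ℝ] En n →L[ℝ] ℝ) (w w' : En n) :
    |Lh B w - Lh B' w'| ≤ ‖B - B'‖ * ‖w‖ ^ 2 + ‖B'‖ * ‖w - w'‖ * (‖w‖ + ‖w'‖) := by
  have h1 := S3_bil B B' w w' w w'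
  have h2 := S3_bil B B' (Complex.I • w) (Complex.I • w') (Complex.I • w) (Complex.I • w')
  rw [S3_I', S3_I, S3_I] at h2
  unfold Lh
  rw [abs_le] at h1 h2 ⊢
  constructor
  · nlinarith [h1.1, h2.1]
  · nlinarith [h1.2, h2.2]

private theorem S3_Eh (B B' : En n →L[ℝ] En n →L[ℝ] ℝ) (w w' : En n) :
    ‖Eh B w - Eh B' w'‖ ≤ 2 * (‖B - B'‖ * ‖w‖ ^ 2 + ‖B'‖ * ‖w - w'‖ * (‖w‖ + ‖w'‖)) := by
  have h1 := S3_bil B B' w w' w w'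
  have h2 := S3_bil B B' (Complex.I • w) (Complex.I • w') (Complex.I • w) (Complex.I • w')
  have h3 := S3_bil B B' w w' (Complex.I • w) (Complex.I • w')
  rw [S3_I', S3_I, S3_I] at h2
  rw [S3_I', S3_I] at h3
  have e : Eh B w - Eh B' w' =
      ((((B w w - B' w' w') - (B (Complex.I • w) (Complex.I • w) - B' (Complex.I • w') (Complex.I • w'))) / 2 : ℝ) : ℂ) -
        Complex.I * ((B w (Complex.I • w) - B' w' (Complex.I • w') : ℝ) : ℂ) := by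
    unfold Eh
    push_cast
    ring
  rw [e]
  refine (norm_sub_le _ _).trans ?_
  rw [norm_mul, Complex.norm_I, one_mul, Complex.norm_real, Complex.norm_real, Real.norm_eq_abs, Real.norm_eq_abs]
  have h4 : |((B w w - B' w' w') - (B (Complex.I • w) (Complex.I • w) - B' (Complex.I • w') (Complex.I • w'))) / 2| ≤
      ‖B - B'‖ * ‖w‖ ^ 2 + ‖B'‖ * ‖w - w'‖ * (‖w‖ + ‖w'‖) := by
    rw [abs_le] at h1 h2 ⊢
    constructor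
    · nlinarith [h1.1, h2.2]
    · nlinarith [h1.2, h2.1]
  have h5 : |B w (Complex.I • w) - B' w' (Complex.I • w')| ≤
      ‖B - B'‖ * ‖w‖ ^ 2 + ‖B'‖ * ‖w - w'‖ * (‖w‖ + ‖w'‖) := by
    refine h3.trans (le_of_eq ?_)
    ring
  linarith

private theorem S3_eps {ε m a b K : ℝ} (hε : 0 < ε) (ha : 0 < a) (hb : 0 < b) (hK : 0 < K) (hm : m ≤ 1 / 50)
    (h : ε * (a + b + 6 * K + 1) ≤ m) :
    ε ≤ m ∧ ε ≤ 1 ∧ a * ε ≤ 1 ∧ b * ε ≤ 1 ∧ 6 * K * ε ≤ 1 ∧ ε ^ 2 ≤ ε ∧ ε ^ 3 ≤ ε ^ 2 := by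
  have h1 : 0 < ε * a := mul_pos hε ha
  have h2 : 0 < ε * b := mul_pos hε hb
  have h3 : 0 < ε * K := mul_pos hε hK
  have h4 : ε ≤ 1 := by linarith
  have h5 : ε ^ 2 ≤ ε := by
    have := mul_le_mul_of_nonneg_left h4 hε.le
    linarith
  refine ⟨by linarith, h4, by linarith, by linarith, by linarith, h5, ?_⟩
  have := mul_le_mul_of_nonneg_left h5 hε.le
  linarith

private theorem S3_Lh_smul (B : En n →L[ℝ] En n →L[ℝ] ℝ) (c : ℝ) (v : En n) : Lh (c • B) v = c * Lh B v := by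
  unfold Lh
  simp only [smul_apply, smul_eq_mul]
  ring

/-- Near `e` the functional `∂ρ_x` is not small.
PROOF. `pd_inner`: `‖pd ρ x e - inner ℂ x e‖ ≤ C ‖x - e‖²`, `inner ℂ x e - 1 = inner ℂ (x - e) e`. With `m₀ = 1 / (16 T.C)` (`≤ 1/16`): `‖pd ρ x e - 1‖ ≤ 2 m₀ + T.C (2 m₀)² ≤ 1/4` for `‖x - e‖ ≤ 2 m₀`; `y = (pd ρ x e)⁻¹ • e`. -/
theorem exists_normal (T : Tg n) : ∃ m₀ : ℝ, 0 < m₀ ∧ m₀ ≤ 1 / 50 ∧ ∀ x, ‖x - T.e‖ ≤ 3 * m₀ → ∃ y, ‖y‖ ≤ 2 ∧ pd T.ρ x y = 1 := by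
  have hC := T.one_le
  have hC0 : 0 < T.C := lt_of_lt_of_le one_pos hC
  refine ⟨1 / (50 * T.C), by positivity, ?_, ?_⟩
  · apply one_div_le_one_div_of_le (by norm_num)
    linarith
  · intro x hx
    have hx1 : ‖x - T.e‖ ≤ 3 / 50 := by
      refine hx.trans ?_
      have : 1 / (50 * T.C) ≤ 1 / 50 := one_div_le_one_div_of_le (by norm_num) (by linarith)
      linarith
    have hx2 : T.C * ‖x - T.e‖ ≤ 3 / 50 := by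
      have h := mul_le_mul_of_nonneg_left hx hC0.le
      have e : T.C * (3 * (1 / (50 * T.C))) = 3 / 50 := by
        field_simp
      rw [e] at h
      exact h
    have h1 := pd_inner T x T.e
    rw [T.he, mul_one] at h1
    have h2 : T.C * ‖x - T.e‖ ^ 2 ≤ 3 / 50 * (3 / 50) := by
      have := mul_le_mul hx2 hx1 (norm_nonneg _) (by norm_num)
      calc T.C * ‖x - T.e‖ ^ 2 = T.C * ‖x - T.e‖ * ‖x - T.e‖ := by ring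
        _ ≤ _ := this
    have h3 : ‖(inner ℂ x T.e : ℂ) - 1‖ ≤ 3 / 50 := by
      have e1 : (inner ℂ x T.e : ℂ) - 1 = inner ℂ (x - T.e) T.e := by
        rw [inner_sub_left, inner_self_eq_norm_sq_to_K, T.he]
        simp
      rw [e1]
      refine (norm_inner_le_norm _ _).trans ?_
      rw [T.he, mul_one]
      exact hx1
    have h4 : ‖pd T.ρ x T.e - 1‖ ≤ 1 / 2 := by
      have e2 : pd T.ρ x T.e - 1 = (pd T.ρ x T.e - inner ℂ x T.e) + (inner ℂ x T.e - 1) := by ring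
      rw [e2]
      refine (norm_add_le _ _).trans ?_
      have := add_le_add (h1.trans h2) h3
      refine this.trans ?_
      norm_num
    have h5 : 1 / 2 ≤ ‖pd T.ρ x T.e‖ := by
      have h6 : ‖(1 : ℂ)‖ ≤ ‖pd T.ρ x T.e‖ + ‖pd T.ρ x T.e - 1‖ := by
        have e3 : (1 : ℂ) = pd T.ρ x T.e - (pd T.ρ x T.e - 1) := by ring
        calc ‖(1 : ℂ)‖ = ‖pd T.ρ x T.e - (pd T.ρ x T.e - 1)‖ := by rw [← e3]
          _ ≤ _ := norm_sub_le _ _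
      rw [norm_one] at h6
      linarith
    have h0 : pd T.ρ x T.e ≠ 0 := by
      intro h
      rw [h, norm_zero] at h5
      norm_num at h5
    refine ⟨(pd T.ρ x T.e)⁻¹ • T.e, ?_, ?_⟩
    · rw [norm_smul, T.he, mul_one, norm_inv]
      have := inv_anti₀ (by norm_num : (0 : ℝ) < 1 / 2) h5
      refine this.trans (by norm_num)
    · rw [pd_smul, inv_mul_cancel₀ h0]

/-- The correction of an osculating map at its centre.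
PROOF. `x₀ = ν.x`, `‖x₀ - e‖ ≤ 2 m₀`. (0) `y₀` with `pd ρ x₀ y₀ = 1`; `x₁ = x₀ - (ρ x₀ / 2) • y₀`: `‖x₁ - x₀‖ ≤ ε³`, `dρ (−(ρ x₀/2) y₀) = −ρ x₀` (`pd_re`), so `|ρ x₁| ≤ T.C ‖x₁ - x₀‖² ≤ T.C ε⁶` (Taylor, order one).
(1) `y₁` with `pd ρ x₁ y₁ = 1` (`‖x₁ - e‖ ≤ 3 m₀` for a small `ε`); `θ v = u0 inner q v - pd ρ x₁ (L v)`: `‖θ v‖ ≤ ‖P1 v‖ + ‖pd_{x₀} - pd_{x₁}‖ ‖L v‖ ≤ C ε² ‖v‖`; `L₁ v = L v + θ v • y₁`: `pd ρ x₁ (L₁ v) = u0 inner q v`, `‖L₁ - L‖ ≤ C ε²`.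
(2) `exists_sqrt` for `(1/2) Bx T x₁` (`lh_nonneg`): `‖T₁ w‖² = Lh (Bx T x₁) w / 2`; `S = T₁ ∘ L₁`. From `P3`: `|‖S v‖² - u0 ‖v‖² - 2 Re (l v conj (inner q v))| ≤ ε ‖v‖² + C ε² ‖v‖² ≤ C' ε ‖v‖²` (`Lh (B) w - Lh (B') w' ` estimates: `‖Bx x₁ - Bx x₀‖ ≤ C ε³`, `‖L₁ v - L v‖ ≤ C ε² ‖v‖`).
`‖S‖ ≤ 3`: `‖S v‖² ≤ (u0 + 2 ‖l‖ + C' ε) ‖v‖² ≤ 9 ‖v‖²`. `herm_corr` with `C' ε`: `X`, `l'`; `L' v = L₁ (v - X v)`: `‖L' - L‖ ≤ C ε`, `pd ρ x₁ (L' v) = u0 inner q (v - X v) = u0 inner q v` (`P1 = 0`), and `P3` is `≤ C ε² ‖v‖²`.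
(3) `quad_corr` at `x₁` with `L'`, `l'`, `b` and `C'' ε`: the expression differs from `P2` of `ν` by `≤ C ε ‖v‖²`. `b'` with `P2 = 0`.
(4) `pd ρ x₀ ((L' - L) v) = pd ρ x₁ ((L' - L) v) + O(ε³ · ε) ‖v‖`, `pd ρ x₁ (L' v - L v) = u0 inner q v - pd ρ x₁ (L v) = θ v`. `u0' = u0`, `q' = q`. -/
theorem newton (T : Tg n) : ∃ (C ε₀ m₀ : ℝ), 1 ≤ C ∧ 0 < ε₀ ∧ 0 < m₀ ∧ m₀ ≤ 1 / 50 ∧ ∀ (ν : Cn n) (ε : ℝ), 0 < ε → ε ≤ ε₀ → Small T ν m₀ →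
    |T.ρ ν.x| ≤ ε ^ 3 → (∀ v, ‖P1 T ν v‖ ≤ ε ^ 2 * ‖v‖) → (∀ v, ‖P2 T ν v‖ ≤ ε * ‖v‖ ^ 2) → (∀ v, |P3 T ν v| ≤ ε * ‖v‖ ^ 2) →
    ∃ ν' : Cn n, ν'.q = ν.q ∧ |T.ρ ν'.x| ≤ C * ε ^ 6 ∧ (∀ v, P1 T ν' v = 0) ∧ (∀ v, P2 T ν' v = 0) ∧
      (∀ v, |P3 T ν' v| ≤ C * ε ^ 2 * ‖v‖ ^ 2) ∧ ‖ν'.x - ν.x‖ ≤ C * ε ^ 3 ∧ ‖ν'.L - ν.L‖ ≤ C * ε ∧ ‖ν'.b - ν.b‖ ≤ C * ε ∧
      ν'.u0 = ν.u0 ∧ ‖ν'.l - ν.l‖ ≤ C * ε ∧ ∀ v, ‖pd T.ρ ν.x ((ν'.L - ν.L) v)‖ ≤ C * ε ^ 2 * ‖v‖ := by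
  obtain ⟨m₀, hm0, hm1, hnor⟩ := exists_normal T
  obtain ⟨Ch, hCh, hherm⟩ := herm_corr (n := n)
  have hK := T.one_le
  set K := T.C with hKdef
  have hK0 : 0 < K := lt_of_lt_of_le one_pos hK
  have hKK : K ≤ K ^ 2 := by
    have := mul_le_mul_of_nonneg_left hK hK0.le
    linarith
  -- the constants
  obtain ⟨a₁, ha₁⟩ : ∃ a : ℝ, a = 21 * K ^ 2 := ⟨_, rfl⟩
  obtain ⟨a₂, ha₂⟩ : ∃ a : ℝ, a = 6 * K + 3 * (Ch * a₁) := ⟨_, rfl⟩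
  obtain ⟨a₃, ha₃⟩ : ∃ a : ℝ, a = 1 + K + (9 * K + 5 * (K * a₂)) / 2 + Ch * a₁ := ⟨_, rfl⟩
  have ha₁0 : 0 < a₁ := by rw [ha₁]; positivity
  have hCh0 : 0 < Ch := lt_of_lt_of_le one_pos hCh
  have ha₂0 : 0 < a₂ := by rw [ha₂]; positivity
  have ha₃0 : 0 < a₃ := by rw [ha₃]; positivity
  refine ⟨2 * K + a₂ + 2 * a₃ + Ch * a₁ + Ch * a₁ ^ 2 + 3 * K + K * a₂, m₀ / (a₁ + a₂ + 6 * K + 1), m₀, ?_, by positivity, hm0, hm1, ?_⟩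
  · have h1 : 0 < Ch * a₁ := by positivity
    have h2 : 0 < Ch * a₁ ^ 2 := by positivity
    have h3 : 0 < K * a₂ := by positivity
    linarith
  intro ν ε hε hε₀ hS hρ hP1 hP2 hP3
  have hs0 : 0 < a₁ + a₂ + 6 * K + 1 := by positivity
  have hεs : ε * (a₁ + a₂ + 6 * K + 1) ≤ m₀ := (le_div_iff₀ hs0).mp hε₀
  obtain ⟨hεm, hε1, hεa₁, hεa₂, hεK, hε2, hε3⟩ := S3_eps hε ha₁0 ha₂0 hK0 hm1 hεs
  have hε2p : 0 < ε ^ 2 := by positivity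
  have hε3p : 0 < ε ^ 3 := by positivity
  -- the node
  have hone : ‖(1 : En n →L[ℂ] En n)‖ ≤ 1 := ContinuousLinearMap.norm_id_le
  have hL : ‖ν.L‖ ≤ 2 := by
    have e : ν.L = (ν.L - 1) + 1 := by abel
    rw [e]
    refine (norm_add_le _ _).trans ?_
    linarith [hS.L]
  have hLv : ∀ v, ‖ν.L v‖ ≤ 2 * ‖v‖ := fun v =>
    (ν.L.le_opNorm v).trans (mul_le_mul_of_nonneg_right hL (norm_nonneg _))
  have hq1 := hS.q1
  have hinner : ∀ v, ‖(inner ℂ ν.q v : ℂ)‖ ≤ ‖v‖ := fun v => by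
    have := norm_inner_le_norm (𝕜 := ℂ) ν.q v
    rwa [hq1, one_mul] at this
  have hxe : ‖ν.x - T.e‖ ≤ 2 * m₀ := by
    have e : ν.x - T.e = (ν.x - ν.q) + (ν.q - T.e) := by abel
    rw [e]
    refine (norm_add_le _ _).trans ?_
    linarith [hS.x, hS.qe]
  -- the new value
  obtain ⟨y₀, hy₀, hpy₀⟩ := hnor ν.x (by linarith)
  obtain ⟨x₁, hx₁⟩ : ∃ x₁ : En n, x₁ = ν.x + (-(T.ρ ν.x / 2)) • y₀ := ⟨_, rfl⟩
  have hw : x₁ - ν.x = (-(T.ρ ν.x / 2)) • y₀ := by rw [hx₁]; abel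
  have hxx : ‖x₁ - ν.x‖ ≤ ε ^ 3 := by
    rw [hw, norm_smul, Real.norm_eq_abs, abs_neg, abs_div, abs_of_pos (by norm_num : (0 : ℝ) < 2)]
    have := mul_le_mul hρ hy₀ (norm_nonneg _) hε3p.le
    linarith
  have hρ₁ : |T.ρ x₁| ≤ 2 * K * ε ^ 6 := by
    have h1 := taylor_two T ν.x (x₁ - ν.x)
    have h2 : ν.x + (x₁ - ν.x) = x₁ := by abel
    have h3 : fderiv ℝ T.ρ ν.x (x₁ - ν.x) = -T.ρ ν.x := by
      rw [hw, map_smul, pd_re, hpy₀]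
      simp
    rw [h2, h3, ← hKdef] at h1
    have h4 : |Bx T ν.x (x₁ - ν.x) (x₁ - ν.x)| ≤ K * ‖x₁ - ν.x‖ ^ 2 := by
      rw [← Real.norm_eq_abs]
      refine ((Bx T ν.x).le_opNorm₂ _ _).trans ?_
      have := mul_le_mul_of_nonneg_right (bx_le T ν.x) (sq_nonneg ‖x₁ - ν.x‖)
      calc ‖Bx T ν.x‖ * ‖x₁ - ν.x‖ * ‖x₁ - ν.x‖ = ‖Bx T ν.x‖ * ‖x₁ - ν.x‖ ^ 2 := by ring
        _ ≤ _ := this
    have h5 : ‖x₁ - ν.x‖ ^ 2 ≤ ε ^ 6 := by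
      calc ‖x₁ - ν.x‖ ^ 2 ≤ (ε ^ 3) ^ 2 := pow_le_pow_left₀ (norm_nonneg _) hxx 2
        _ = ε ^ 6 := by ring
    have h6 : ‖x₁ - ν.x‖ ^ 3 ≤ ε ^ 6 := by
      calc ‖x₁ - ν.x‖ ^ 3 = ‖x₁ - ν.x‖ ^ 2 * ‖x₁ - ν.x‖ := by ring
        _ ≤ ε ^ 6 * 1 := mul_le_mul h5 (by linarith) (norm_nonneg _) (by positivity)
        _ = ε ^ 6 := mul_one _
    have h7 := mul_le_mul_of_nonneg_left h5 hK0.le
    have h8 := mul_le_mul_of_nonneg_left h6 hK0.le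
    rw [abs_le] at h1 h4 ⊢
    constructor
    · linarith [h1.1, h4.1]
    · linarith [h1.2, h4.2]
  have hx₁e : ‖x₁ - T.e‖ ≤ 3 * m₀ := by
    have e : x₁ - T.e = (x₁ - ν.x) + (ν.x - T.e) := by abel
    rw [e]
    refine (norm_add_le _ _).trans ?_
    linarith
  obtain ⟨y₁, hy₁, hpy₁⟩ := hnor x₁ hx₁e
  obtain ⟨φ, hφ⟩ := S3_pdL T.ρ x₁
  have hpd : ∀ w, ‖pd T.ρ ν.x w - pd T.ρ x₁ w‖ ≤ K * ε ^ 3 * ‖w‖ := by
    intro w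
    refine (pd_sub_le T.ρ ν.x x₁ w).trans ?_
    apply mul_le_mul_of_nonneg_right _ (norm_nonneg _)
    refine (T.d1 ν.x x₁).trans ?_
    rw [norm_sub_rev]
    exact mul_le_mul_of_nonneg_left hxx hK0.le
  -- the linear part, first correction
  obtain ⟨θ, hθ⟩ : ∃ θ : En n →L[ℂ] ℂ, ∀ v, θ v = (ν.u0 : ℂ) * inner ℂ ν.q v - pd T.ρ x₁ (ν.L v) := by
    refine ⟨(ν.u0 : ℂ) • innerSL ℂ ν.q - φ.comp ν.L, fun v => ?_⟩
    simp [hφ]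
  have hθle : ∀ v, ‖θ v‖ ≤ 3 * K * ε ^ 2 * ‖v‖ := by
    intro v
    have e : θ v = -P1 T ν v + (pd T.ρ ν.x (ν.L v) - pd T.ρ x₁ (ν.L v)) := by
      rw [hθ]
      unfold P1
      ring
    rw [e]
    refine (norm_add_le _ _).trans ?_
    rw [norm_neg]
    have h1 := hP1 v
    have h2 := hpd (ν.L v)
    have h3 := mul_le_mul_of_nonneg_left (hLv v) (by positivity : 0 ≤ K * ε ^ 3)
    have h4 : K * ε ^ 3 * (2 * ‖v‖) ≤ 2 * K * ε ^ 2 * ‖v‖ := by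
      calc K * ε ^ 3 * (2 * ‖v‖) = 2 * K * ‖v‖ * ε ^ 3 := by ring
        _ ≤ 2 * K * ‖v‖ * ε ^ 2 := mul_le_mul_of_nonneg_left hε3 (by positivity)
        _ = _ := by ring
    have h5 : ε ^ 2 * ‖v‖ ≤ K * ε ^ 2 * ‖v‖ := by
      calc ε ^ 2 * ‖v‖ = 1 * (ε ^ 2 * ‖v‖) := by ring
        _ ≤ K * (ε ^ 2 * ‖v‖) := mul_le_mul_of_nonneg_right hK (by positivity)
        _ = _ := by ring
    linarith
  obtain ⟨L₁, hL₁⟩ : ∃ L₁ : En n →L[ℂ] En n, ∀ v, L₁ v = ν.L v + θ v • y₁ :=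
    ⟨ν.L + θ.smulRight y₁, fun v => rfl⟩
  have hL₁L : ∀ v, ‖L₁ v - ν.L v‖ ≤ 6 * K * ε ^ 2 * ‖v‖ := by
    intro v
    rw [hL₁, add_sub_cancel_left, norm_smul]
    have := mul_le_mul (hθle v) hy₁ (norm_nonneg _) (by positivity)
    linarith
  have hL₁v : ∀ v, ‖L₁ v‖ ≤ 3 * ‖v‖ := by
    intro v
    have e : L₁ v = (L₁ v - ν.L v) + ν.L v := by abel
    rw [e]
    refine (norm_add_le _ _).trans ?_
    have h1 : 6 * K * ε ^ 2 * ‖v‖ ≤ 1 * ‖v‖ := by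
      apply mul_le_mul_of_nonneg_right _ (norm_nonneg _)
      calc 6 * K * ε ^ 2 = (6 * K * ε) * ε := by ring
        _ ≤ 1 * 1 := mul_le_mul hεK hε1 hε.le zero_le_one
        _ = 1 := one_mul 1
    linarith [hL₁L v, hLv v]
  have hpL₁ : ∀ v, pd T.ρ x₁ (L₁ v) = (ν.u0 : ℂ) * inner ℂ ν.q v := by
    intro v
    rw [hL₁, pd_add, pd_smul, hpy₁, hθ]
    ring
  -- the second derivatives
  have hB₀ := bx_le T ν.x
  have hBB : ‖Bx T x₁ - Bx T ν.x‖ ≤ K * ε ^ 3 :=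
    (bx_sub T x₁ ν.x).trans (mul_le_mul_of_nonneg_left hxx hK0.le)
  have hDel : ∀ (w w' : En n) (s d : ℝ), 0 ≤ s → ‖w‖ ≤ 3 * s → ‖w'‖ ≤ 2 * s → ‖w - w'‖ ≤ d →
      ‖Bx T x₁ - Bx T ν.x‖ * ‖w‖ ^ 2 + ‖Bx T ν.x‖ * ‖w - w'‖ * (‖w‖ + ‖w'‖) ≤
        9 * K * ε ^ 3 * s ^ 2 + 5 * K * d * s := by
    intro w w' s d hs h1 h2 h3
    have hd : 0 ≤ d := (norm_nonneg _).trans h3
    have g1 : ‖Bx T x₁ - Bx T ν.x‖ * ‖w‖ ^ 2 ≤ (K * ε ^ 3) * (3 * s) ^ 2 :=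
      mul_le_mul hBB (pow_le_pow_left₀ (norm_nonneg _) h1 2) (sq_nonneg _) (by positivity)
    have g2 : ‖Bx T ν.x‖ * ‖w - w'‖ * (‖w‖ + ‖w'‖) ≤ K * d * (3 * s + 2 * s) :=
      mul_le_mul (mul_le_mul hB₀ h3 (norm_nonneg _) hK0.le) (add_le_add h1 h2) (by positivity) (by positivity)
    calc _ ≤ (K * ε ^ 3) * (3 * s) ^ 2 + K * d * (3 * s + 2 * s) := add_le_add g1 g2
      _ = _ := by ring
  -- the square root
  obtain ⟨R, hR⟩ := exists_sqrt (B := (1 / 2 : ℝ) • Bx T x₁)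
    (fun u v => by
      change (1 / 2 : ℝ) * Bx T x₁ u v = (1 / 2 : ℝ) * Bx T x₁ v u
      rw [bx_symm])
    (fun v => by
      rw [S3_Lh_smul]
      exact mul_nonneg (by norm_num) (lh_nonneg T x₁ v))
  have hR' : ∀ w, ‖R w‖ ^ 2 = Lh (Bx T x₁) w / 2 := fun w => by
    rw [hR, S3_Lh_smul]
    ring
  have hSv : ∀ v, |‖(R.comp L₁) v‖ ^ 2 - ν.u0 * ‖v‖ ^ 2 - 2 * (ν.l v * starRingEnd ℂ (inner ℂ ν.q v)).re| ≤
      a₁ * ε * ‖v‖ ^ 2 := by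
    intro v
    have h1 := S3_Lh (Bx T x₁) (Bx T ν.x) (L₁ v) (ν.L v)
    have h2 := hDel (L₁ v) (ν.L v) ‖v‖ _ (norm_nonneg _) (hL₁v v) (hLv v) (hL₁L v)
    have h3 := h1.trans h2
    have h4 := hP3 v
    have h5 : ‖(R.comp L₁) v‖ ^ 2 = Lh (Bx T x₁) (L₁ v) / 2 := hR' _
    have h6 : 9 * K * ε ^ 3 * ‖v‖ ^ 2 + 5 * K * (6 * K * ε ^ 2 * ‖v‖) * ‖v‖ ≤ 40 * K ^ 2 * ε * ‖v‖ ^ 2 := by
      have g1 : 9 * K * ε ^ 3 ≤ 10 * K ^ 2 * ε := by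
        have g : ε ^ 3 ≤ ε := hε3.trans hε2
        calc 9 * K * ε ^ 3 ≤ 9 * K * ε := mul_le_mul_of_nonneg_left g (by positivity)
          _ ≤ 10 * K ^ 2 * ε := by
            apply mul_le_mul_of_nonneg_right _ hε.le
            linarith [hKK, sq_nonneg K]
      have g2 : 30 * K ^ 2 * ε ^ 2 ≤ 30 * K ^ 2 * ε := mul_le_mul_of_nonneg_left hε2 (by positivity)
      have g3 := mul_le_mul_of_nonneg_right (add_le_add g1 g2) (sq_nonneg ‖v‖)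
      calc _ = (9 * K * ε ^ 3 + 30 * K ^ 2 * ε ^ 2) * ‖v‖ ^ 2 := by ring
        _ ≤ (10 * K ^ 2 * ε + 30 * K ^ 2 * ε) * ‖v‖ ^ 2 := g3
        _ = _ := by ring
    have h7 : ε * ‖v‖ ^ 2 ≤ K ^ 2 * ε * ‖v‖ ^ 2 := by
      calc ε * ‖v‖ ^ 2 = 1 * (ε * ‖v‖ ^ 2) := by ring
        _ ≤ K ^ 2 * (ε * ‖v‖ ^ 2) := mul_le_mul_of_nonneg_right (hK.trans hKK) (by positivity)
        _ = _ := by ring
    rw [h5, ha₁]
    unfold P3 at h4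
    rw [abs_le] at h3 h4 ⊢
    constructor
    · linarith [h3.1, h4.1]
    · linarith [h3.2, h4.2]
  have hl1 : ‖ν.l‖ ≤ 1 / 50 := hS.l.trans hm1
  have hu := abs_le.mp (hS.u)
  have hSn : ‖R.comp L₁‖ ≤ 3 := by
    apply ContinuousLinearMap.opNorm_le_bound _ (by norm_num)
    intro v
    apply le_of_sq_le_sq _ (by positivity)
    have h1 := (abs_le.mp (hSv v)).2
    have h2 : (ν.l v * starRingEnd ℂ (inner ℂ ν.q v)).re ≤ 1 / 50 * ‖v‖ ^ 2 := by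
      refine (Complex.re_le_norm _).trans ?_
      rw [norm_mul, RCLike.norm_conj]
      calc ‖ν.l v‖ * ‖(inner ℂ ν.q v : ℂ)‖ ≤ (1 / 50 * ‖v‖) * ‖v‖ :=
            mul_le_mul ((ν.l.le_opNorm v).trans (mul_le_mul_of_nonneg_right hl1 (norm_nonneg _))) (hinner v)
              (norm_nonneg _) (by positivity)
        _ = _ := by ring
    have h3 := mul_le_mul_of_nonneg_right hεa₁ (sq_nonneg ‖v‖)
    have h4 : ν.u0 * ‖v‖ ^ 2 ≤ 2 * ‖v‖ ^ 2 := by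
      apply mul_le_mul_of_nonneg_right _ (sq_nonneg _)
      linarith [hu.2]
    linarith [sq_nonneg ‖v‖]
  obtain ⟨X, l', hX, hqX, hl', hXv⟩ := hherm (R.comp L₁) ν.l ν.u0 (a₁ * ε) ν.q hq1
    (by rw [abs_le]; constructor <;> linarith [hu.1, hu.2]) (by positivity) hεa₁ hSn (by linarith) hSv
  obtain ⟨L', hL'⟩ : ∃ L' : En n →L[ℂ] En n, ∀ v, L' v = L₁ (v - X v) :=
    ⟨L₁.comp (1 - X), fun v => rfl⟩
  have hXn : ∀ v, ‖X v‖ ≤ Ch * a₁ * ε * ‖v‖ := fun v => by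
    refine (X.le_opNorm v).trans (mul_le_mul_of_nonneg_right ?_ (norm_nonneg _))
    calc ‖X‖ ≤ Ch * (a₁ * ε) := hX
      _ = _ := by ring
  have hL'L : ∀ v, ‖L' v - ν.L v‖ ≤ a₂ * ε * ‖v‖ := by
    intro v
    have e : L' v - ν.L v = (L₁ v - ν.L v) - L₁ (X v) := by
      rw [hL', map_sub]
      abel
    rw [e]
    refine (norm_sub_le _ _).trans ?_
    have h1 := hL₁L v
    have h2 := (hL₁v (X v)).trans (mul_le_mul_of_nonneg_left (hXn v) (by norm_num : (0 : ℝ) ≤ 3))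
    have h3 : 6 * K * ε ^ 2 * ‖v‖ ≤ 6 * K * ε * ‖v‖ := by
      apply mul_le_mul_of_nonneg_right _ (norm_nonneg _)
      exact mul_le_mul_of_nonneg_left hε2 (by positivity)
    rw [ha₂]
    calc _ ≤ 6 * K * ε * ‖v‖ + 3 * (Ch * a₁ * ε * ‖v‖) := add_le_add (h1.trans h3) h2
      _ = _ := by ring
  have hL'v : ∀ v, ‖L' v‖ ≤ 3 * ‖v‖ := by
    intro v
    have e : L' v = (L' v - ν.L v) + ν.L v := by abel
    rw [e]
    refine (norm_add_le _ _).trans ?_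
    have := mul_le_mul_of_nonneg_right hεa₂ (norm_nonneg v)
    linarith [hL'L v, hLv v]
  have hpL' : ∀ v, pd T.ρ x₁ (L' v) = (ν.u0 : ℂ) * inner ℂ ν.q v := by
    intro v
    rw [hL', hpL₁, inner_sub_right, hqX, sub_zero]
  have hl'' : ‖l' - ν.l‖ ≤ Ch * a₁ * ε := by
    calc ‖l' - ν.l‖ ≤ Ch * (a₁ * ε) := hl'
      _ = _ := by ring
  -- the quadratic part
  have hquad : ∀ v, ‖pd T.ρ x₁ (ν.b v v) + Eh (Bx T x₁) (L' v) / 4 - l' v * inner ℂ ν.q v‖ ≤ a₃ * ε * ‖v‖ ^ 2 := by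
    intro v
    have e : pd T.ρ x₁ (ν.b v v) + Eh (Bx T x₁) (L' v) / 4 - l' v * inner ℂ ν.q v =
        P2 T ν v - (pd T.ρ ν.x (ν.b v v) - pd T.ρ x₁ (ν.b v v)) +
          (Eh (Bx T x₁) (L' v) - Eh (Bx T ν.x) (ν.L v)) / 4 - (l' - ν.l) v * inner ℂ ν.q v := by
      unfold P2
      rw [sub_apply]
      ring
    rw [e]
    have h1 := hP2 v
    have h2 : ‖pd T.ρ ν.x (ν.b v v) - pd T.ρ x₁ (ν.b v v)‖ ≤ K * ε * ‖v‖ ^ 2 := by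
      refine (hpd _).trans ?_
      have g1 : ‖ν.b v v‖ ≤ 1 * ‖v‖ ^ 2 := by
        refine (ν.b.le_opNorm₂ v v).trans ?_
        have := mul_le_mul_of_nonneg_right (hS.b.trans (hm1.trans (by norm_num : (1 : ℝ) / 50 ≤ 1))) (sq_nonneg ‖v‖)
        calc ‖ν.b‖ * ‖v‖ * ‖v‖ = ‖ν.b‖ * ‖v‖ ^ 2 := by ring
          _ ≤ _ := this
      have g2 : K * ε ^ 3 ≤ K * ε := mul_le_mul_of_nonneg_left (hε3.trans hε2) hK0.le
      calc K * ε ^ 3 * ‖ν.b v v‖ ≤ K * ε * (1 * ‖v‖ ^ 2) := mul_le_mul g2 g1 (norm_nonneg _) (by positivity)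
        _ = _ := by ring
    have h3 : ‖(Eh (Bx T x₁) (L' v) - Eh (Bx T ν.x) (ν.L v)) / 4‖ ≤ (9 * K + 5 * (K * a₂)) / 2 * ε * ‖v‖ ^ 2 := by
      rw [norm_div]
      have g1 := S3_Eh (Bx T x₁) (Bx T ν.x) (L' v) (ν.L v)
      have g2 := hDel (L' v) (ν.L v) ‖v‖ _ (norm_nonneg _) (hL'v v) (hLv v) (hL'L v)
      have g3 : 9 * K * ε ^ 3 * ‖v‖ ^ 2 ≤ 9 * K * ε * ‖v‖ ^ 2 := by
        apply mul_le_mul_of_nonneg_right _ (sq_nonneg _)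
        exact mul_le_mul_of_nonneg_left (hε3.trans hε2) (by positivity)
      have g4 : ‖(4 : ℂ)‖ = 4 := by norm_num
      rw [g4]
      have g5 : ‖Eh (Bx T x₁) (L' v) - Eh (Bx T ν.x) (ν.L v)‖ ≤
          2 * (9 * K * ε * ‖v‖ ^ 2 + 5 * K * (a₂ * ε * ‖v‖) * ‖v‖) := by linarith
      have g6 := div_le_div_of_nonneg_right g5 (by norm_num : (0 : ℝ) ≤ 4)
      refine g6.trans (le_of_eq ?_)
      ring
    have h4 : ‖(l' - ν.l) v * inner ℂ ν.q v‖ ≤ Ch * a₁ * ε * ‖v‖ ^ 2 := by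
      rw [norm_mul]
      calc ‖(l' - ν.l) v‖ * ‖(inner ℂ ν.q v : ℂ)‖ ≤ (Ch * a₁ * ε * ‖v‖) * ‖v‖ :=
            mul_le_mul (((l' - ν.l).le_opNorm v).trans (mul_le_mul_of_nonneg_right hl'' (norm_nonneg _))) (hinner v)
              (norm_nonneg _) (by positivity)
        _ = _ := by ring
    have h5 : ∀ a b c d : ℂ, ‖a - b + c - d‖ ≤ ‖a‖ + ‖b‖ + ‖c‖ + ‖d‖ := by
      intro a b c d
      have g1 := norm_sub_le (a - b + c) d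
      have g2 := norm_add_le (a - b) c
      have g3 := norm_sub_le a b
      linarith
    refine (h5 _ _ _ _).trans ?_
    rw [ha₃]
    linarith
  obtain ⟨b', hb', hb'0⟩ := quad_corr T hpy₁ (q := ν.q) (L := L') (b := ν.b) (l := l') (by positivity) hquad
  refine ⟨⟨ν.q, x₁, L', b', ν.u0, l'⟩, rfl, ?_, ?_, ?_, ?_, ?_, ?_, ?_, rfl, ?_, ?_⟩
  · change |T.ρ x₁| ≤ _
    refine hρ₁.trans (mul_le_mul_of_nonneg_right ?_ (by positivity))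
    have h1 : 0 < Ch * a₁ := by positivity
    have h2 : 0 < Ch * a₁ ^ 2 := by positivity
    have h3 : 0 < K * a₂ := by positivity
    linarith
  · intro v
    change pd T.ρ x₁ (L' v) - (ν.u0 : ℂ) * inner ℂ ν.q v = 0
    rw [hpL', sub_self]
  · intro v
    exact hb'0 v
  · intro v
    change |Lh (Bx T x₁) (L' v) / 2 - ν.u0 * ‖v‖ ^ 2 - 2 * (l' v * starRingEnd ℂ (inner ℂ ν.q v)).re| ≤ _
    have h1 := hXv v
    have h2 : ‖(R.comp L₁) (v - X v)‖ ^ 2 = Lh (Bx T x₁) (L' v) / 2 := by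
      rw [hL']
      exact hR' _
    rw [h2] at h1
    refine h1.trans ?_
    have h3 : Ch * (a₁ * ε) ^ 2 * ‖v‖ ^ 2 = Ch * a₁ ^ 2 * (ε ^ 2 * ‖v‖ ^ 2) := by ring
    rw [h3]
    have h4 : 0 < Ch * a₁ := by positivity
    have h5 : 0 < K * a₂ := by positivity
    have h6 := mul_le_mul_of_nonneg_right
      (by linarith : Ch * a₁ ^ 2 ≤ 2 * K + a₂ + 2 * a₃ + Ch * a₁ + Ch * a₁ ^ 2 + 3 * K + K * a₂)
      (by positivity : 0 ≤ ε ^ 2 * ‖v‖ ^ 2)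
    refine h6.trans (le_of_eq ?_)
    ring
  · change ‖x₁ - ν.x‖ ≤ _
    refine hxx.trans ?_
    have h1 : 0 < Ch * a₁ := by positivity
    have h2 : 0 < Ch * a₁ ^ 2 := by positivity
    have h3 : 0 < K * a₂ := by positivity
    have h4 := mul_le_mul_of_nonneg_right
      (by linarith : 1 ≤ 2 * K + a₂ + 2 * a₃ + Ch * a₁ + Ch * a₁ ^ 2 + 3 * K + K * a₂) hε3p.le
    linarith
  · change ‖L' - ν.L‖ ≤ _
    apply ContinuousLinearMap.opNorm_le_bound _ (by positivity)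
    intro v
    refine (hL'L v).trans (mul_le_mul_of_nonneg_right (mul_le_mul_of_nonneg_right ?_ hε.le) (norm_nonneg _))
    have h1 : 0 < Ch * a₁ := by positivity
    have h2 : 0 < Ch * a₁ ^ 2 := by positivity
    have h3 : 0 < K * a₂ := by positivity
    linarith
  · change ‖b' - ν.b‖ ≤ _
    refine hb'.trans ?_
    have h0 := mul_le_mul_of_nonneg_left hy₁ (by positivity : 0 ≤ a₃ * ε)
    refine h0.trans ?_
    have h1 : 0 < Ch * a₁ := by positivity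
    have h2 : 0 < Ch * a₁ ^ 2 := by positivity
    have h3 : 0 < K * a₂ := by positivity
    have h4 := mul_le_mul_of_nonneg_right
      (by linarith : 2 * a₃ ≤ 2 * K + a₂ + 2 * a₃ + Ch * a₁ + Ch * a₁ ^ 2 + 3 * K + K * a₂) hε.le
    linarith
  · change ‖l' - ν.l‖ ≤ _
    refine hl''.trans (mul_le_mul_of_nonneg_right ?_ hε.le)
    have h2 : 0 < Ch * a₁ ^ 2 := by positivity
    have h3 : 0 < K * a₂ := by positivity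
    linarith
  · intro v
    change ‖pd T.ρ ν.x ((L' - ν.L) v)‖ ≤ _
    rw [sub_apply]
    have e : pd T.ρ ν.x (L' v - ν.L v) =
        (pd T.ρ ν.x (L' v - ν.L v) - pd T.ρ x₁ (L' v - ν.L v)) + θ v := by
      have e1 : pd T.ρ x₁ (L' v - ν.L v) = θ v := by
        rw [sub_eq_add_neg, pd_add, pd_neg, hpL', hθ]
        ring
      rw [e1]
      ring
    rw [e]
    refine (norm_add_le _ _).trans ?_
    have h1 := (hpd (L' v - ν.L v)).trans (mul_le_mul_of_nonneg_left (hL'L v) (by positivity : 0 ≤ K * ε ^ 3))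
    have h2 := hθle v
    have h3 : K * ε ^ 3 * (a₂ * ε * ‖v‖) ≤ K * a₂ * ε ^ 2 * ‖v‖ := by
      calc K * ε ^ 3 * (a₂ * ε * ‖v‖) = K * a₂ * ‖v‖ * (ε ^ 3 * ε) := by ring
        _ ≤ K * a₂ * ‖v‖ * (ε ^ 2 * 1) :=
          mul_le_mul_of_nonneg_left (mul_le_mul hε3 hε1 hε.le hε2p.le) (by positivity)
        _ = _ := by ring
    have h4 : 0 < Ch * a₁ := by positivity
    have h5 : 0 < Ch * a₁ ^ 2 := by positivity
    have h6 := mul_le_mul_of_nonneg_right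
      (by linarith : 3 * K + K * a₂ ≤ 2 * K + a₂ + 2 * a₃ + Ch * a₁ + Ch * a₁ ^ 2 + 3 * K + K * a₂)
      (by positivity : 0 ≤ ε ^ 2 * ‖v‖)
    calc _ ≤ K * a₂ * ε ^ 2 * ‖v‖ + 3 * K * ε ^ 2 * ‖v‖ := add_le_add (h1.trans h3) h2
      _ = (3 * K + K * a₂) * (ε ^ 2 * ‖v‖) := by ring
      _ ≤ _ := h6
      _ = _ := by ring

end Pool.Agent.MPca0fc2.EQ
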