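import Pool.Agent.Lib.MP_ca0fc2_an.EQ.Z2
import Pool.Agent.Lib.MP_ca0fc2_an.TB.G4
import Pool.Agent.Lib.MP_ca0fc2_an.Mg.G077

/-! The local corona constants at all boundary points of all strictly pseudoconvex domains are the
constants of the ball. -/

set_option autoImplicit false

open Metric Set Filter Topology
open scoped ENNReal NNReal

namespace Pool.Agent.MPca0fc2.EQ

open Pool.Agent.MPca0fc2
open Pool.Agent.MPca0fc2.TB (En Solv IsSol)
open Pool.Agent.Lib.MP_ca0fc2_an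

variable {n N : ℕ}

/-- all holomorphic `f` on `U` with `δ ≤ |f| ≤ 1` have a solution on `V` which is bounded by `A` -/
def LU (N : ℕ) (δ A : ℝ) (U V : Set (En n)) : Prop :=
  ∀ f : En n → En N, DifferentiableOn ℂ f U → (∀ z ∈ U, δ ≤ ‖f z‖ ∧ ‖f z‖ ≤ 1) → Solv f V A

theorem LU.mono {δ δ' A A' : ℝ} {U U' V V' : Set (En n)} (h : LU N δ A U V) (hδ : δ ≤ δ')
    (hA : A ≤ A') (hU : U ⊆ U') (hV : V' ⊆ V) : LU N δ' A' U' V' := by
  intro f hf hfb
  exact TB.solv_mono (TB.solv_sub (h f (hf.mono hU) fun z hz =>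
    ⟨hδ.trans (hfb z (hU hz)).1, (hfb z (hU hz)).2⟩) hV) hA

/-- From one boundary point of one strictly pseudoconvex domain to the ball, with the same constants. -/
theorem ball_of_local {D : Set (En n)} (hD : IsStrictlyPscDomain D) {p : En n} (hp : p ∈ frontier D)
    {δ A s r : ℝ} (hr : 0 < r) (h : LU N δ A (D ∩ ball p s) (D ∩ ball p r)) :
    LU N δ A (ball (0 : En n) 1) (ball 0 1) := by
  obtain ⟨U, ρ₀, hh, c, hsd, -⟩ := LV.support_of_domain hD
  obtain ⟨e, he⟩ := TB.trans_of_support hsd hp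
  intro f hf hfb
  refine TB.comparison_loc he hr (a := δ) (b := 1) (fun F hF _ hFb => ?_) hf hfb
  exact h F (hF.mono inter_subset_left) fun z hz => hFb z (subset_closure hz.1)

/-- The ball has the smallest corona constants of all strictly pseudoconvex domains. -/
theorem ball_of_global {D : Set (En n)} (hD : IsStrictlyPscDomain D) {p : En n} (hp : p ∈ frontier D)
    {δ A : ℝ} (h : LU N δ A D D) : LU N δ A (ball (0 : En n) 1) (ball 0 1) := by
  obtain ⟨U, ρ₀, hh, c, hsd, -⟩ := LV.support_of_domain hD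
  obtain ⟨e, he⟩ := TB.trans_of_support hsd hp
  intro f hf hfb
  refine TB.comparison_loc he one_pos (a := δ) (b := 1) (fun F hF _ hFb => ?_) hf hfb
  exact TB.solv_sub (h F hF fun z hz => hFb z (subset_closure hz)) inter_subset_left

/-- From the ball to every boundary point of every strictly pseudoconvex domain. -/
theorem local_of_ball {D : Set (En n)} (hD : IsStrictlyPscDomain D) {p : En n} (hp : p ∈ frontier D)
    {δ' δ A A' : ℝ} (hδ' : 0 < δ') (hδ : δ' < δ) (hA : 0 ≤ A) (hAA' : A < A')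
    (h : LU N δ' A (ball (0 : En n) 1) (ball 0 1)) {s : ℝ} (hs : 0 < s) :
    ∃ r > 0, r ≤ s ∧ LU N δ A' (D ∩ ball p s) (D ∩ ball p r) :=
  loc_psc hD hp hA hδ' hδ hAA' hs h

/-- The local corona constants do not depend on the domain and the boundary point. -/
theorem const_univ {D D' : Set (En n)} (hD : IsStrictlyPscDomain D) (hD' : IsStrictlyPscDomain D')
    {p p' : En n} (hp : p ∈ frontier D) (hp' : p' ∈ frontier D') {δ' δ A A' : ℝ} (hδ' : 0 < δ')
    (hδ : δ' < δ) (hA : 0 ≤ A) (hAA' : A < A')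
    (h : ∃ s > 0, ∃ r > 0, LU N δ' A (D ∩ ball p s) (D ∩ ball p r)) :
    ∀ s > 0, ∃ r > 0, LU N δ A' (D' ∩ ball p' s) (D' ∩ ball p' r) := by
  obtain ⟨s, -, r, hr, h⟩ := h
  intro s' hs'
  obtain ⟨r', hr', -, h'⟩ := local_of_ball hD' hp' hδ' hδ hA hAA' (ball_of_local hD hp hr h) hs'
  exact ⟨r', hr', h'⟩

/-- The set of the pairs `(δ, A)` such that the corona theorem with the lower bound `δ` holds near `p` with
the bound `A` has the same interior for all boundary points of all strictly pseudoconvex domains: the one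
of the ball. -/
theorem interior_eq {D : Set (En n)} (hD : IsStrictlyPscDomain D) {p : En n} (hp : p ∈ frontier D)
    (N : ℕ) :
    interior {x : ℝ × ℝ | 0 < x.1 ∧ 0 < x.2 ∧
        ∀ s > 0, ∃ r > 0, LU N x.1 x.2 (D ∩ ball p s) (D ∩ ball p r)} =
      interior {x : ℝ × ℝ | 0 < x.1 ∧ 0 < x.2 ∧ LU (n := n) N x.1 x.2 (ball 0 1) (ball 0 1)} ∧
    interior {x : ℝ × ℝ | 0 < x.1 ∧ 0 < x.2 ∧
        ∃ s > 0, ∃ r > 0, LU N x.1 x.2 (D ∩ ball p s) (D ∩ ball p r)} =
      interior {x : ℝ × ℝ | 0 < x.1 ∧ 0 < x.2 ∧ LU (n := n) N x.1 x.2 (ball 0 1) (ball 0 1)} := by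
  have h12 : {x : ℝ × ℝ | 0 < x.1 ∧ 0 < x.2 ∧
        ∀ s > 0, ∃ r > 0, LU N x.1 x.2 (D ∩ ball p s) (D ∩ ball p r)} ⊆
      {x : ℝ × ℝ | 0 < x.1 ∧ 0 < x.2 ∧
        ∃ s > 0, ∃ r > 0, LU N x.1 x.2 (D ∩ ball p s) (D ∩ ball p r)} :=
    fun x hx => ⟨hx.1, hx.2.1, 1, one_pos, hx.2.2 1 one_pos⟩
  have h2B : {x : ℝ × ℝ | 0 < x.1 ∧ 0 < x.2 ∧
        ∃ s > 0, ∃ r > 0, LU N x.1 x.2 (D ∩ ball p s) (D ∩ ball p r)} ⊆
      {x : ℝ × ℝ | 0 < x.1 ∧ 0 < x.2 ∧ LU (n := n) N x.1 x.2 (ball 0 1) (ball 0 1)} := by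
    rintro x ⟨h1, h2, s, -, r, hr, h⟩
    exact ⟨h1, h2, ball_of_local hD hp hr h⟩
  have hB1 : interior {x : ℝ × ℝ | 0 < x.1 ∧ 0 < x.2 ∧
        LU (n := n) N x.1 x.2 (ball 0 1) (ball 0 1)} ⊆
      interior {x : ℝ × ℝ | 0 < x.1 ∧ 0 < x.2 ∧
        ∀ s > 0, ∃ r > 0, LU N x.1 x.2 (D ∩ ball p s) (D ∩ ball p r)} := by
    refine interior_maximal (fun x hx => ?_) isOpen_interior
    obtain ⟨h1, h2, -⟩ := interior_subset hx
    obtain ⟨ε, hε, hb⟩ := Metric.isOpen_iff.1 isOpen_interior x hx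
    obtain ⟨t, ht0, ht1⟩ := exists_between (lt_min hε (lt_min h1 h2))
    have hy : ((x.1 - t, x.2 - t) : ℝ × ℝ) ∈ ball x ε := by
      rw [mem_ball, Prod.dist_eq, max_lt_iff, Real.dist_eq, Real.dist_eq]
      have h3 : |(-t)| < ε := by
        rw [abs_neg, abs_of_pos ht0]
        exact ht1.trans_le (min_le_left _ _)
      refine ⟨?_, ?_⟩
      · have : x.1 - t - x.1 = -t := by ring
        rw [this]
        exact h3
      · have : x.2 - t - x.2 = -t := by ring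
        rw [this]
        exact h3
    obtain ⟨h4, h5, h6⟩ := interior_subset (hb hy)
    refine ⟨h1, h2, fun s hs => ?_⟩
    obtain ⟨r, hr, -, h7⟩ := local_of_ball hD hp h4 (sub_lt_self _ ht0) h5.le (sub_lt_self _ ht0)
      h6 hs
    exact ⟨r, hr, h7⟩
  have e1 := interior_mono h12
  have e2 := interior_mono h2B
  exact ⟨Subset.antisymm (e1.trans e2) hB1, Subset.antisymm e2 (hB1.trans e1)⟩

/-- the corona constant of the ball -/
noncomputable def cB (n N : ℕ) (δ : ℝ) : ℝ≥0∞ :=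
  ⨅ (A : ℝ≥0) (_ : LU (n := n) N δ A (ball 0 1) (ball 0 1)), (A : ℝ≥0∞)

theorem cB_antitone (n N : ℕ) : Antitone (cB n N) := by
  intro δ δ' h
  refine le_iInf₂ fun A hA => ?_
  exact iInf₂_le A (hA.mono h le_rfl subset_rfl subset_rfl)

theorem lu_of_lt {δ : ℝ} {A : ℝ≥0} (h : cB n N δ < A) : LU (n := n) N δ A (ball 0 1) (ball 0 1) := by
  rw [cB, iInf_lt_iff] at h
  obtain ⟨B, hB⟩ := h
  rw [iInf_lt_iff] at hB
  obtain ⟨hB1, hB2⟩ := hB
  exact hB1.mono le_rfl (NNReal.coe_le_coe.2 (ENNReal.coe_le_coe.1 hB2.le)) subset_rfl subset_rfl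

/-- For all lower bounds `δ` outside a countable set the best local corona constant is the same at all
boundary points of all strictly pseudoconvex domains in `ℂⁿ`, and it is the one of the ball. -/
theorem const_countable (n N : ℕ) : ∃ E : Set ℝ, E.Countable ∧ ∀ δ > 0, δ ∉ E →
    ∃ c : ℝ≥0∞, ∀ A : ℝ≥0,
      (c < A → LU (n := n) N δ A (ball 0 1) (ball 0 1) ∧
        ∀ D : Set (En n), IsStrictlyPscDomain D → ∀ p ∈ frontier D, ∀ s > 0, ∃ r > 0,
          LU N δ A (D ∩ ball p s) (D ∩ ball p r)) ∧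
      (A < c → ¬ LU (n := n) N δ A (ball 0 1) (ball 0 1) ∧
        ∀ D : Set (En n), IsStrictlyPscDomain D → ∀ p ∈ frontier D, ∀ s > 0, ∀ r > 0,
          ¬ LU N δ A (D ∩ ball p s) (D ∩ ball p r)) := by
  refine ⟨{δ | ¬ ContinuousAt (cB n N) δ}, (cB_antitone n N).countable_not_continuousAt, ?_⟩
  intro δ hδ hδE
  have hcont : ContinuousAt (cB n N) δ := by
    by_contra h
    exact hδE h
  refine ⟨cB n N δ, fun A => ⟨fun hA => ⟨lu_of_lt hA, fun D hD p hp s hs => ?_⟩, fun hA => ?_⟩⟩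
  · obtain ⟨B, hB1, hB2⟩ := ENNReal.lt_iff_exists_nnreal_btwn.1 hA
    have h1 : ∀ᶠ x in 𝓝 δ, cB n N x < B := hcont.eventually_lt continuousAt_const hB1
    obtain ⟨η, hη, h2⟩ := Metric.eventually_nhds_iff.1 h1
    obtain ⟨δ', h3, h4, h5⟩ : ∃ δ' : ℝ, 0 < δ' ∧ δ' < δ ∧ dist δ' δ < η := by
      refine ⟨max (δ / 2) (δ - η / 2), lt_max_of_lt_left (by linarith), max_lt (by linarith)
        (by linarith), ?_⟩
      rw [Real.dist_eq, abs_lt]
      constructor
      · linarith [le_max_right (δ / 2) (δ - η / 2)]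
      · have : max (δ / 2) (δ - η / 2) ≤ δ := max_le (by linarith) (by linarith)
        linarith
    obtain ⟨r, hr, -, h6⟩ := local_of_ball hD hp h3 h4 B.2
      (NNReal.coe_lt_coe.2 (ENNReal.coe_lt_coe.1 hB2)) (lu_of_lt (h2 h5)) hs
    exact ⟨r, hr, h6⟩
  · have h1 : ¬ LU (n := n) N δ A (ball 0 1) (ball 0 1) := fun h =>
      absurd (iInf₂_le (f := fun (A : ℝ≥0) (_ : LU (n := n) N δ A (ball 0 1) (ball 0 1)) =>
        (A : ℝ≥0∞)) A h) (not_le.2 hA)
    exact ⟨h1, fun D hD p hp s _ r hr h => h1 (ball_of_local hD hp hr h)⟩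

end Pool.Agent.MPca0fc2.EQ
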